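import Mathlib

/-!
# Definitions for the statement on trace-minimising arithmetic measures

These are the only definitions of ours which the final statements use.
-/

open MeasureTheory Polynomial

namespace Pool.Agent.TraceMinDefs

/-- `α` is a totally positive algebraic integer (in the convention of the problem): an algebraic
integer all of whose Galois conjugates, that is all complex roots of its minimal polynomial over
`ℚ`, are real and nonnegative. -/
def IsTotallyPositive (α : ℂ) : Prop :=
  IsIntegral ℤ α ∧ ∀ β ∈ (minpoly ℚ α).aroots ℂ, β.im = 0 ∧ 0 ≤ β.re

/-- The normalised trace: the mean of the Galois conjugates of `α`. -/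
noncomputable def normalisedTrace (α : ℂ) : ℝ :=
  ((minpoly ℚ α).aroots ℂ).sum.re / (minpoly ℚ α).natDegree

/-- The Schur-Siegel-Smyth trace constant: the lower limit of the normalised trace over the set of
totally positive algebraic integers, that is along the filter of complements of finite sets. -/
noncomputable def traceConstant : ℝ :=
  Filter.liminf (fun α : {α : ℂ // IsTotallyPositive α} => normalisedTrace α.1) Filter.cofinite

/-- A Borel measure `μ` on `ℂ` is arithmetic if for every nonzero integer polynomial `Q` the
integral of `log |Q|` (with the convention `log 0 = -∞`) is finite and nonnegative: the zeros of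
`Q` have measure zero, `log |Q|` is integrable, and its integral is `≥ 0`. (If `μ` is a probability
measure with compact support then `log |Q|` is bounded above `μ`-almost everywhere, so that this
only says that the integral is `≥ 0`.) -/
def IsArithmetic (μ : Measure ℂ) : Prop :=
  ∀ Q : ℤ[X], Q ≠ 0 →
    μ {z : ℂ | aeval z Q = 0} = 0 ∧
    Integrable (fun z : ℂ => Real.log ‖aeval z Q‖) μ ∧
    0 ≤ ∫ z : ℂ, Real.log ‖aeval z Q‖ ∂μ

end Pool.Agent.TraceMinDefs
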