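import Pool.Agent.TraceMin.FinalC
import Pool.Agent.TraceMin.StDefs

/-!
Transfer of the result from the half line to measures on the complex plane.
-/

open MeasureTheory Polynomial Set Real Filter Topology

namespace Pool.Agent.TraceMin

open Pool.Agent.TraceMinDefs

lemma traceConstant_eq : traceConstant = lambdaSSS := rfl

lemma aeval_ofReal (Q : ℤ[X]) (x : ℝ) : aeval (x : ℂ) Q = ((aeval x Q : ℝ) : ℂ) := by
  have := aeval_algebraMap_apply ℂ x Q
  simpa using this

lemma norm_aeval_ofReal (Q : ℤ[X]) (x : ℝ) : ‖aeval (x : ℂ) Q‖ = |aeval x Q| := by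
  rw [aeval_ofReal, Complex.norm_real, Real.norm_eq_abs]

lemma aeval_ofReal_eq_zero (Q : ℤ[X]) (x : ℝ) : aeval (x : ℂ) Q = 0 ↔ aeval x Q = 0 := by
  rw [aeval_ofReal, Complex.ofReal_eq_zero]

lemma meas_zero_set (Q : ℤ[X]) : MeasurableSet {z : ℂ | aeval z Q = 0} :=
  measurableSet_eq_fun (Polynomial.continuous_aeval Q).measurable measurable_const

lemma meas_zero_setR (Q : ℤ[X]) : MeasurableSet {x : ℝ | aeval x Q = 0} :=
  measurableSet_eq_fun (Polynomial.continuous_aeval Q).measurable measurable_const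

lemma meas_logC (Q : ℤ[X]) : Measurable (fun z : ℂ => Real.log ‖aeval z Q‖) :=
  Real.measurable_log.comp (Polynomial.continuous_aeval Q).norm.measurable

lemma meas_logR (Q : ℤ[X]) : Measurable (fun x : ℝ => Real.log |aeval x Q|) :=
  Real.measurable_log.comp (Polynomial.continuous_aeval Q).abs.measurable

/-- an arithmetic measure on the line, viewed on the plane -/
lemma arith_push (μ : Measure ℝ) (hμ : IsArith μ) : IsArithmetic (μ.map ((↑) : ℝ → ℂ)) := by
  have hm : Measurable ((↑) : ℝ → ℂ) := Complex.measurable_ofReal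
  intro Q hQ
  obtain ⟨h1, h2, h3⟩ := hμ Q hQ
  refine ⟨?_, ?_, ?_⟩
  · rw [Measure.map_apply hm (meas_zero_set Q)]
    convert h1 using 2
    ext x
    exact aeval_ofReal_eq_zero Q x
  · rw [integrable_map_measure (meas_logC Q).aestronglyMeasurable hm.aemeasurable]
    refine h2.congr ?_
    filter_upwards with x
    simp only [Function.comp_apply]
    rw [norm_aeval_ofReal]
  · rw [integral_map hm.aemeasurable (meas_logC Q).aestronglyMeasurable]
    refine h3.trans_eq ?_
    apply integral_congr_ae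
    filter_upwards with x
    rw [norm_aeval_ofReal]

/-- an arithmetic measure on the plane, carried by the line, viewed on the line -/
lemma arith_pull (M : Measure ℂ) (hre : ∀ᵐ z ∂M, ((z.re : ℝ) : ℂ) = z) (hM : IsArithmetic M) :
    IsArith (M.map Complex.re) := by
  have hm : Measurable Complex.re := Complex.measurable_re
  intro Q hQ
  obtain ⟨h1, h2, h3⟩ := hM Q hQ
  have hcongr : ∀ᵐ z ∂M, Real.log |aeval z.re Q| = Real.log ‖aeval z Q‖ := by
    filter_upwards [hre] with z hz
    rw [← norm_aeval_ofReal, hz]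
  refine ⟨?_, ?_, ?_⟩
  · rw [Measure.map_apply hm (meas_zero_setR Q)]
    have h4 : ∀ᵐ z ∂M, ¬ (aeval z.re Q = 0) := by
      have h5 : ∀ᵐ z ∂M, ¬ (aeval z Q = 0) := by
        rw [ae_iff]
        simpa using h1
      filter_upwards [hre, h5] with z hz hz2
      rw [← aeval_ofReal_eq_zero, hz]
      exact hz2
    rw [ae_iff] at h4
    simpa using h4
  · rw [integrable_map_measure (meas_logR Q).aestronglyMeasurable hm.aemeasurable]
    refine h2.congr ?_
    filter_upwards [hcongr] with z hz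
    simp only [Function.comp_apply]
    exact hz.symm
  · rw [integral_map hm.aemeasurable (meas_logR Q).aestronglyMeasurable]
    refine h3.trans_eq ?_
    apply integral_congr_ae
    filter_upwards [hcongr] with z hz
    exact hz.symm

/-- compactly supported measures on the nonnegative reals -/
lemma exists_bound (M : Measure ℂ) (hc : IsCompact M.support)
    (hs : M.support ⊆ {z : ℂ | z.im = 0 ∧ 0 ≤ z.re}) :
    ∃ A : ℝ, ∀ᵐ z ∂M, z.im = 0 ∧ 0 ≤ z.re ∧ z.re ≤ A := by
  obtain ⟨A, hA⟩ := hc.isBounded.exists_norm_le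
  refine ⟨A, ?_⟩
  filter_upwards [Measure.support_mem_ae (μ := M)] with z hz
  exact ⟨(hs hz).1, (hs hz).2, (Complex.re_le_norm z).trans (hA z hz)⟩

/-- the support of a measure on a compact interval, viewed on the plane -/
lemma support_push (μ : Measure ℝ) (A : ℝ) (hμ : μ (Icc 0 A)ᶜ = 0) :
    (μ.map ((↑) : ℝ → ℂ)).support ⊆ ((↑) : ℝ → ℂ) '' Icc 0 A := by
  have hm : Measurable ((↑) : ℝ → ℂ) := Complex.measurable_ofReal
  have hK : IsCompact (((↑) : ℝ → ℂ) '' Icc 0 A) := isCompact_Icc.image Complex.continuous_ofReal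
  refine Measure.support_subset_of_isClosed hK.isClosed ?_
  rw [mem_ae_iff, Measure.map_apply hm hK.isClosed.measurableSet.compl]
  refine measure_mono_null ?_ hμ
  intro x hx hx2
  exact hx ⟨x, hx2, rfl⟩

/-- the conditions of the problem -/
lemma unique_aux : ∃ M₀ : Measure ℂ, (IsProbabilityMeasure M₀ ∧ IsArithmetic M₀ ∧
    IsCompact M₀.support ∧ M₀.support ⊆ {z : ℂ | z.im = 0 ∧ 0 ≤ z.re} ∧
    ∫ z, z.re ∂M₀ = traceConstant) ∧
    (Integrable (fun p : ℂ × ℂ => Real.log ‖p.1 - p.2‖) (M₀.prod M₀) ∧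
      (M₀.prod M₀) {p | p.1 = p.2} = 0 ∧
      ∫ p : ℂ × ℂ, Real.log ‖p.1 - p.2‖ ∂(M₀.prod M₀) = 0) ∧
    ∀ M : Measure ℂ, (IsProbabilityMeasure M ∧ IsArithmetic M ∧
      IsCompact M.support ∧ M.support ⊆ {z : ℂ | z.im = 0 ∧ 0 ≤ z.re} ∧
      ∫ z, z.re ∂M = traceConstant) → M = M₀ := by
  obtain ⟨μ₀, p1, p2, p3, p4, e1, e2, e3, p5⟩ := final_line
  have hm : Measurable ((↑) : ℝ → ℂ) := Complex.measurable_ofReal
  have hre : Measurable Complex.re := Complex.measurable_re
  have hsup := support_push μ₀ 144 p2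
  have hprod : (μ₀.map ((↑) : ℝ → ℂ)).prod (μ₀.map ((↑) : ℝ → ℂ)) =
      (μ₀.prod μ₀).map (Prod.map ((↑) : ℝ → ℂ) ((↑) : ℝ → ℂ)) :=
    Measure.map_prod_map μ₀ μ₀ hm hm
  have hmm : Measurable (Prod.map ((↑) : ℝ → ℂ) ((↑) : ℝ → ℂ)) := Measurable.prodMap hm hm
  have hk : Measurable (fun p : ℂ × ℂ => Real.log ‖p.1 - p.2‖) :=
    Real.measurable_log.comp (by fun_prop)
  have hkr : ∀ p : ℝ × ℝ, Real.log ‖(Prod.map ((↑) : ℝ → ℂ) ((↑) : ℝ → ℂ) p).1 -
      (Prod.map ((↑) : ℝ → ℂ) ((↑) : ℝ → ℂ) p).2‖ = Real.log |p.1 - p.2| := by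
    intro p
    simp only [Prod.map_fst, Prod.map_snd]
    rw [← Complex.ofReal_sub, Complex.norm_real, Real.norm_eq_abs]
  refine ⟨μ₀.map ((↑) : ℝ → ℂ), ⟨?_, arith_push μ₀ p3, ?_, ?_, ?_⟩, ⟨?_, ?_, ?_⟩, ?_⟩
  · exact Measure.isProbabilityMeasure_map hm.aemeasurable
  · exact (isCompact_Icc.image Complex.continuous_ofReal).of_isClosed_subset
      Measure.isClosed_support hsup
  · intro z hz
    obtain ⟨x, hx, rfl⟩ := hsup hz
    exact ⟨Complex.ofReal_im x, by simpa using hx.1⟩
  · rw [integral_map hm.aemeasurable (by fun_prop)]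
    simp only [Complex.ofReal_re]
    exact p4
  · rw [hprod, integrable_map_measure hk.aestronglyMeasurable hmm.aemeasurable]
    refine e1.congr ?_
    filter_upwards with p
    simp only [Function.comp_apply]
    rw [hkr]
  · rw [hprod, Measure.map_apply hmm (measurableSet_eq_fun measurable_fst measurable_snd)]
    refine measure_mono_null ?_ e2
    intro p hp
    simpa using hp
  · rw [hprod, integral_map hmm.aemeasurable hk.aestronglyMeasurable, ← e3]
    apply integral_congr_ae
    filter_upwards with p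
    exact hkr p
  · rintro M ⟨q1, q2, q3, q4, q5⟩
    obtain ⟨A, hA⟩ := exists_bound M q3 q4
    have hid : ∀ᵐ z ∂M, ((z.re : ℝ) : ℂ) = z := by
      filter_upwards [hA] with z hz
      exact Complex.ext (by simp) (by simp [hz.1])
    have hprob : IsProbabilityMeasure (M.map Complex.re) :=
      Measure.isProbabilityMeasure_map hre.aemeasurable
    have h1 : M.map Complex.re = μ₀ := by
      refine p5 (M.map Complex.re) A hprob ?_ (arith_pull M hid q2) ?_
      · rw [Measure.map_apply hre measurableSet_Icc.compl]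
        have h2 : ∀ᵐ z ∂M, z.re ∈ Icc 0 A := by
          filter_upwards [hA] with z hz
          exact hz.2
        rw [ae_iff] at h2
        exact h2
      · rw [integral_map hre.aemeasurable (by fun_prop)]
        exact q5
    rw [← h1, Measure.map_map hm hre]
    have h2 : M.map (((↑) : ℝ → ℂ) ∘ Complex.re) = M.map id := by
      apply Measure.map_congr
      filter_upwards [hid] with z hz
      simpa using hz
    rw [h2, Measure.map_id]

/-- The lower limit defining the trace constant is a genuine one: only finitely many totally positive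
algebraic integers have normalised trace at most `t` if `t < traceConstant`, and infinitely many do
if `traceConstant < t`. -/
theorem traceConstant_spec :
    (∀ t < traceConstant, {α : ℂ | IsTotallyPositive α ∧ normalisedTrace α ≤ t}.Finite) ∧
    (∀ t > traceConstant, {α : ℂ | IsTotallyPositive α ∧ normalisedTrace α ≤ t}.Infinite) := by
  obtain ⟨l, hl0, ⟨ν, hν1, hν2, hν3, hν4⟩, hcert, hmin⟩ := minimum_line
  obtain ⟨p1, p2, p3, p4⟩ := push_sq ν 12 (by norm_num) hν2 hν3
  have hlo : ∀ t < l, {α : ℂ | TotPos α ∧ normTrace α ≤ t}.Finite := fun t ht =>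
    Smyth.trace_lower_of mass_bound 40 l le_rfl hl0 (hcert 40 (by norm_num)) t ht
  have hup : ∀ ε > 0, {α : ℂ | TotPos α ∧ normTrace α ≤ l + ε}.Infinite := by
    intro ε hε
    have := trace_upper (12 ^ 2) (by norm_num) (ν.map (fun y => y ^ 2)) p2 p3 ε hε
    rw [p4, hν4] at this
    exact this
  have hlam : lambdaSSS = l := lambdaSSS_eq l hl0 hlo hup
  rw [traceConstant_eq, hlam]
  refine ⟨hlo, fun t ht => ?_⟩
  have := hup (t - l) (by linarith)
  rw [add_sub_cancel] at this
  exact this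

/-- existence and uniqueness -/
theorem final_plane : ∃! μ : Measure ℂ, IsProbabilityMeasure μ ∧ IsArithmetic μ ∧
    IsCompact μ.support ∧ μ.support ⊆ {z : ℂ | z.im = 0 ∧ 0 ≤ z.re} ∧
    ∫ z, z.re ∂μ = traceConstant := by
  obtain ⟨M₀, h1, -, h2⟩ := unique_aux
  exact ⟨M₀, h1, h2⟩

/-- the logarithmic energy of the minimiser is zero -/
theorem final_energy (μ : Measure ℂ) (h1 : IsProbabilityMeasure μ) (h2 : IsArithmetic μ)
    (h3 : IsCompact μ.support) (h4 : μ.support ⊆ {z : ℂ | z.im = 0 ∧ 0 ≤ z.re})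
    (h5 : ∫ z, z.re ∂μ = traceConstant) :
    Integrable (fun p : ℂ × ℂ => Real.log ‖p.1 - p.2‖) (μ.prod μ) ∧
      (μ.prod μ) {p | p.1 = p.2} = 0 ∧
      ∫ p : ℂ × ℂ, Real.log ‖p.1 - p.2‖ ∂(μ.prod μ) = 0 := by
  obtain ⟨M₀, -, h6, h7⟩ := unique_aux
  rw [h7 μ ⟨h1, h2, h3, h4, h5⟩]
  exact h6

end Pool.Agent.TraceMin
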