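import Pool.Agent.TraceMin.Cheb2

/-!
Module T15.
-/

open MeasureTheory Polynomial Set

namespace Pool.Agent.TraceMin

theorem kappa_bound {N n₀ : ℕ} (hN : 0 < N) {M : ℝ} (hM : 4 ≤ M) :
    1 / (5 * (N:ℝ) ^ 2 * ((n₀:ℝ) + 1) ^ 2) ≤ M * (2 * (eta N n₀) ^ 2 / Real.pi ^ 2) := by
  have hN' : (0:ℝ) < N := by exact_mod_cast hN
  have hpi := Real.pi_pos
  have e : M * (2 * (eta N n₀) ^ 2 / Real.pi ^ 2) = M / (18 * (N:ℝ) ^ 2 * ((n₀:ℝ) + 1) ^ 2) := by
    unfold eta ee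
    field_simp
    ring
  rw [e, div_le_div_iff₀ (by positivity) (by positivity)]
  have : 0 < (N:ℝ) ^ 2 * ((n₀:ℝ) + 1) ^ 2 := by positivity
  nlinarith

theorem log_kappa {N n₀ : ℕ} (hN : 0 < N) {M : ℝ} (hM : 4 ≤ M) :
    Real.log (M / (1 / (5 * (N:ℝ) ^ 2 * ((n₀:ℝ) + 1) ^ 2))) ≤ (Real.log (5 * M) + 4) * Real.log ((n₀:ℝ) + N + 2) := by
  have hN' : (1:ℝ) ≤ N := by exact_mod_cast hN
  have hn : (0:ℝ) ≤ n₀ := Nat.cast_nonneg _
  have e : M / (1 / (5 * (N:ℝ) ^ 2 * ((n₀:ℝ) + 1) ^ 2)) = (5 * M) * (N:ℝ) ^ 2 * ((n₀:ℝ) + 1) ^ 2 := by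
    rw [div_div_eq_mul_div, div_one]; ring
  rw [e, Real.log_mul (by positivity) (by positivity), Real.log_mul (by positivity) (by positivity), Real.log_pow, Real.log_pow]
  have h1 : Real.log N ≤ Real.log ((n₀:ℝ) + N + 2) := Real.log_le_log (by linarith) (by linarith)
  have h2 : Real.log ((n₀:ℝ) + 1) ≤ Real.log ((n₀:ℝ) + N + 2) := Real.log_le_log (by linarith) (by linarith)
  have h3 : 1 ≤ Real.log ((n₀:ℝ) + N + 2) := by
    rw [Real.le_log_iff_exp_le (by positivity)]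
    have := Real.exp_one_lt_d9
    linarith
  have h4 : 0 ≤ Real.log (5 * M) := Real.log_nonneg (by linarith)
  push_cast
  nlinarith

theorem build_F (M Cf : ℝ) (hM : 4 ≤ M) (hCf : 1 ≤ Cf) (μ : Measure ℝ) (hμ : Reg M Cf μ) :
    ∃ C : ℝ, 0 < C ∧ ∃ T : ℕ → ℝ[X], (∀ k, (T k).Monic ∧ (T k).natDegree = k ∧
      ∀ x ∈ Icc (0 : ℝ) M, |(T k).eval x| ≤ 2 * (M / 4) ^ k) ∧
    ∀ (N n₀ : ℕ), 0 < N → 0 < n₀ →
      ∃ (y : Fin n₀ → ℝ) (z : Fin (n₀ + N + 1) → ℝ),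
        (∀ i, y i ∈ Icc 0 M) ∧ (∀ j, z j ∈ Icc 0 M) ∧ StrictMono z ∧
        (∀ j : Fin (n₀ + N + 1), 0 < (-1) ^ (n₀ + N + (j : ℕ)) * (((T N).eval (z j)) * ∏ i, (z j - y i))) ∧
        (∀ j, (M / 4) ^ N ≤ |(T N).eval (z j)|) ∧
        (∀ j, Real.exp (n₀ * (∫ x, Real.log |z j - x| ∂μ) - C * ((n₀ : ℝ) / N + 1) * Real.log (n₀ + N + 2))
            ≤ ∏ i, |z j - y i|) ∧
        -(T N).coeff (N - 1) ≤ N * M ∧
        ∑ i, y i ≤ n₀ * (∫ x, x ∂μ) + C * ((n₀ : ℝ) / N + 1) := by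
  have hp := hμ.1
  have hM0 : 0 < M := by linarith
  have hlog5 : 0 ≤ Real.log (5 * M) := Real.log_nonneg (by linarith)
  refine ⟨4 * Cf * M * (Real.log (5 * M) + 4) + 2 * Cf * M * M, by positivity, Tch M, Tch_prop M hM, ?_⟩
  intro N n₀ hN hn₀
  have hN' : (0:ℝ) < N := by exact_mod_cast hN
  set S : ℕ → ℕ := fun k => ⌊(n₀:ℝ) * μ.real (Iio (cc M N k))⌋₊ with hSdef
  have hS : ∀ k, S k = ⌊(n₀:ℝ) * μ.real (Iio (cc M N k))⌋₊ := fun k => rfl
  have hS0 : S 0 = 0 := by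
    rw [hS, cc_zero, hμ.Iio_zero le_rfl]; simp
  have hSN : S (N + 1) = n₀ := by
    rw [hS, cc_last M hN, hμ.Iio_one le_rfl]; simp
  have hmono : Monotone S := by
    intro a b hab
    rw [hS, hS]
    apply Nat.floor_mono
    exact mul_le_mul_of_nonneg_left (measureReal_mono (Iio_subset_Iio (cc_mono hM0.le hN hab))) (Nat.cast_nonneg _)
  obtain ⟨kY, kZ, h⟩ := exists_idx N n₀ S hS0 hSN hmono
  have hdisc := h.disc hN hM hCf hμ hS
  have hη := eta_pos hN n₀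
  set s : ℝ := 2 * Cf * M * ((n₀:ℝ) / N + 1) with hs
  have hratio : 0 ≤ (n₀:ℝ) / N := by positivity
  have hs0 : 0 ≤ s := by positivity
  refine ⟨fun i => xp M (phY N S kY i), fun j => xp M (phZ S kZ j), fun i => xp_mem hM0.le _, fun j => xp_mem hM0.le _,
    ?_, fun j => h.sign hN hM0 j, fun j => h.Tlow hN hM0 j, ?_, Tch_coeff M hM0.le N hN, ?_⟩
  · intro j j' hj
    have h1 := h.Z_strict hN hj
    have h2 := h.Z_range hN j
    have h3 := h.Z_range hN j'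
    exact xp_strict hM0 (by linarith) (by linarith) (by linarith)
  · intro j
    set κ : ℝ := 1 / (5 * (N:ℝ) ^ 2 * ((n₀:ℝ) + 1) ^ 2) with hκ
    have hn : (0:ℝ) ≤ n₀ := Nat.cast_nonneg _
    have hκ0 : 0 < κ := by positivity
    have hκ1 : κ ≤ 1 := by
      rw [hκ, div_le_one (by positivity)]
      have h1 : (1:ℝ) ≤ N := by exact_mod_cast hN
      have h2 : (1:ℝ) ≤ (N:ℝ) ^ 2 := one_le_pow₀ h1
      have h3 : (1:ℝ) ≤ ((n₀:ℝ) + 1) ^ 2 := one_le_pow₀ (by linarith)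
      nlinarith
    have hsep : ∀ i, κ ≤ |xp M (phZ S kZ j) - xp M (phY N S kY i)| := by
      intro i
      have h1 := h.sep hN hM0.le i j
      refine (kappa_bound hN hM).trans (h1.trans ?_)
      split_ifs
      · rw [one_mul]; exact le_abs_self _
      · rw [neg_one_mul]; exact neg_le_abs _
    have h1 := koksma_lower M Cf (by linarith) μ hμ n₀ (fun i => xp M (phY N S kY i)) (fun i => xp_mem hM0.le _) s hdisc κ hκ0 hκ1
      (xp M (phZ S kZ j)) (xp_mem hM0.le _) hsep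
    refine le_trans ?_ h1
    rw [Real.exp_le_exp]
    have h2 := log_kappa (n₀ := n₀) hN hM
    have h3 : 0 ≤ Real.log ((n₀:ℝ) + N + 2) := Real.log_nonneg (by linarith)
    have h4 : 2 * s * Real.log (M / κ) ≤ 2 * s * ((Real.log (5 * M) + 4) * Real.log ((n₀:ℝ) + N + 2)) :=
      mul_le_mul_of_nonneg_left h2 (by positivity)
    have h5 : 2 * s * ((Real.log (5 * M) + 4) * Real.log ((n₀:ℝ) + N + 2)) =
        4 * Cf * M * (Real.log (5 * M) + 4) * ((n₀:ℝ) / N + 1) * Real.log ((n₀:ℝ) + N + 2) := by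
      rw [hs]; ring
    have h6 : 0 ≤ 2 * Cf * M * M * ((n₀:ℝ) / N + 1) * Real.log ((n₀:ℝ) + N + 2) := by positivity
    nlinarith
  · have h1 := disc_layer (μ := μ) (y := fun i => xp M (phY N S kY i)) (f := fun u => u) measurable_id hM0.le (D := s)
      (fun i => xp_mem hM0.le _) hμ.ae_mem ?_
    · rw [abs_le] at h1
      have h2 : s * M = 2 * Cf * M * M * ((n₀:ℝ) / N + 1) := by rw [hs]; ring
      have h3 : 0 ≤ 4 * Cf * M * (Real.log (5 * M) + 4) * ((n₀:ℝ) / N + 1) := by positivity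
      have h4 : (4 * Cf * M * (Real.log (5 * M) + 4) + 2 * Cf * M * M) * ((n₀:ℝ) / N + 1) =
        4 * Cf * M * (Real.log (5 * M) + 4) * ((n₀:ℝ) / N + 1) + 2 * Cf * M * M * ((n₀:ℝ) / N + 1) := by ring
      rw [h4]
      linarith [h1.2]
    · intro t _
      have h2 := (hdisc t).1
      have h3 : ((Finset.univ.filter (fun i => t ≤ xp M (phY N S kY i))).card : ℝ) =
          n₀ - ((Finset.univ.filter (fun i => xp M (phY N S kY i) < t)).card : ℝ) := by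
        have h4 := Finset.card_filter_add_card_filter_not (s := (Finset.univ : Finset (Fin n₀))) (fun i => xp M (phY N S kY i) < t)
        rw [Finset.card_univ, Fintype.card_fin] at h4
        simp only [not_lt] at h4
        have h5 : ((Finset.univ.filter (fun i => xp M (phY N S kY i) < t)).card : ℝ) +
          ((Finset.univ.filter (fun i => t ≤ xp M (phY N S kY i))).card : ℝ) = n₀ := by exact_mod_cast h4
        linarith
      have h4 : μ.real {u : ℝ | t ≤ u} = 1 - μ.real (Iio t) := by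
        rw [← probReal_compl_eq_one_sub measurableSet_Iio]
        congr 1
        ext u; simp
      rw [h3, h4]
      rw [abs_le] at h2 ⊢
      constructor <;> nlinarith [h2.1, h2.2]

end Pool.Agent.TraceMin
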