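import Pool.Agent.TraceMin.Defs2

/-!
Potentials of well distributed points.
-/

open MeasureTheory Polynomial Set

namespace Pool.Agent.TraceMin

theorem antitone_count {K : ℕ} (w : Fin K → ℝ) :
    Antitone (fun t : ℝ => ((Finset.univ.filter (fun i => t ≤ w i)).card : ℝ)) := by
  intro a b hab
  simp only
  have : (Finset.univ.filter (fun i => b ≤ w i)) ⊆ (Finset.univ.filter (fun i => a ≤ w i)) := by
    intro i hi
    simp only [Finset.mem_filter, Finset.mem_univ, true_and] at hi ⊢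
    exact hab.trans hi
  exact_mod_cast Finset.card_le_card this

theorem sum_eq_layer {K : ℕ} (w : Fin K → ℝ) {B : ℝ} (hw : ∀ i, 0 ≤ w i ∧ w i ≤ B) :
    ∑ i, w i = ∫ t in Ioc (0:ℝ) B, ((Finset.univ.filter (fun i => t ≤ w i)).card : ℝ) := by
  have h1 : ∀ t : ℝ, ((Finset.univ.filter (fun i => t ≤ w i)).card : ℝ) = ∑ i, (Iic (w i)).indicator (fun _ => (1:ℝ)) t := by
    intro t
    rw [Finset.card_filter]
    push_cast
    refine Finset.sum_congr rfl (fun i _ => ?_)
    by_cases h : t ≤ w i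
    · simp [h]
    · simp [h]
  simp only [h1]
  rw [integral_finsetSum]
  · refine Finset.sum_congr rfl (fun i _ => ?_)
    rw [integral_indicator measurableSet_Iic, Measure.restrict_restrict measurableSet_Iic]
    have : Iic (w i) ∩ Ioc 0 B = Ioc 0 (w i) := by
      ext t
      simp only [mem_inter_iff, mem_Iic, mem_Ioc]
      constructor
      · rintro ⟨h1, h2, h3⟩; exact ⟨h2, h1⟩
      · rintro ⟨h1, h2⟩; exact ⟨h2, h1, h2.trans (hw i).2⟩
    rw [this]
    simp [(hw i).1]
  · intro i _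
    refine Integrable.indicator ?_ measurableSet_Iic
    exact integrable_const _

theorem disc_layer {μ : Measure ℝ} [IsProbabilityMeasure μ] {K : ℕ} {y : Fin K → ℝ} {f : ℝ → ℝ}
    (hf : Measurable f) {B D : ℝ} (hB : 0 ≤ B) (hy : ∀ i, 0 ≤ f (y i) ∧ f (y i) ≤ B)
    (hμ : ∀ᵐ u ∂μ, 0 ≤ f u ∧ f u ≤ B)
    (hD : ∀ t ∈ Ioc (0:ℝ) B, |((Finset.univ.filter (fun i => t ≤ f (y i))).card : ℝ) - K * μ.real {u | t ≤ f u}| ≤ D) :
    |∑ i, f (y i) - K * ∫ u, f u ∂μ| ≤ D * B := by
  have h1 := sum_eq_layer (fun i => f (y i)) hy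
  have hint : Integrable f μ := by
    refine Integrable.of_bound hf.aestronglyMeasurable B ?_
    filter_upwards [hμ] with u hu
    rw [Real.norm_eq_abs, abs_of_nonneg hu.1]
    exact hu.2
  have h2 : ∫ u, f u ∂μ = ∫ t in Ioc (0:ℝ) B, μ.real {u | t ≤ f u} :=
    hint.integral_eq_integral_Ioc_meas_le (hμ.mono fun u hu => hu.1) (hμ.mono fun u hu => hu.2)
  rw [h1, h2, ← integral_const_mul, ← integral_sub]
  · have h3 : ‖∫ t in Ioc (0:ℝ) B, (((Finset.univ.filter (fun i => t ≤ f (y i))).card : ℝ) - K * μ.real {u | t ≤ f u})‖ ≤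
        D * (volume : Measure ℝ).real (Ioc 0 B) := by
      refine norm_setIntegral_le_of_norm_le_const ?_ ?_
      · simp
      · intro t ht
        rw [Real.norm_eq_abs]
        exact hD t ht
    rw [Real.norm_eq_abs] at h3
    simpa [hB] using h3
  · have := (antitone_count (fun i => f (y i))).intervalIntegrable (μ := volume) (a := 0) (b := B)
    exact (intervalIntegrable_iff_integrableOn_Ioc_of_le hB).1 this
  · have hanti : Antitone (fun t : ℝ => μ.real {u | t ≤ f u}) := by
      intro a b hab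
      exact measureReal_mono (fun u hu => hab.trans hu)
    have := hanti.intervalIntegrable (μ := volume) (a := 0) (b := B)
    exact ((intervalIntegrable_iff_integrableOn_Ioc_of_le hB).1 this).const_mul _

theorem Reg.singleton {M Cf : ℝ} {μ : Measure ℝ} (hμ : Reg M Cf μ) (x : ℝ) : μ {x} = 0 := by
  have := hμ.2.2 x x le_rfl
  rw [Icc_self, sub_self, mul_zero, ENNReal.ofReal_zero] at this
  exact le_antisymm this bot_le

theorem Reg.ae_mem {M Cf : ℝ} {μ : Measure ℝ} (hμ : Reg M Cf μ) : ∀ᵐ u ∂μ, u ∈ Icc (0:ℝ) M := by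
  rw [ae_iff]
  exact hμ.2.1

/-- the error of truncating the logarithm at `κ` -/
noncomputable def trh (κ x u : ℝ) : ℝ := max (Real.log κ - Real.log |x - u|) 0

theorem trh_nonneg (κ x u : ℝ) : 0 ≤ trh κ x u := le_max_right _ _

theorem measurable_trh (κ x : ℝ) : Measurable (trh κ x) := by
  unfold trh
  fun_prop

theorem trh_lintegral {M Cf : ℝ} {μ : Measure ℝ} (hμ : Reg M Cf μ) (hCf : 0 ≤ Cf) (κ : ℝ) (hκ : 0 < κ)
    (hκ1 : κ ≤ 1) (x : ℝ) : ∫⁻ u, ENNReal.ofReal (trh κ x u) ∂μ ≤ ENNReal.ofReal (2 * Cf * κ) := by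
  rw [lintegral_eq_lintegral_meas_le μ (Filter.Eventually.of_forall fun u => trh_nonneg κ x u)
    (measurable_trh κ x).aemeasurable]
  have h1 : ∀ t ∈ Ioi (0:ℝ), μ {a : ℝ | t ≤ trh κ x a} ≤ ENNReal.ofReal (2 * Cf * κ * Real.exp (-t)) := by
    intro t ht
    rw [mem_Ioi] at ht
    have hsub : {a : ℝ | t ≤ trh κ x a} ⊆ Icc (x - κ * Real.exp (-t)) (x + κ * Real.exp (-t)) := by
      intro u hu
      rw [mem_ofPred_eq, trh, le_max_iff] at hu
      rcases hu with hu | hu
      · have hlk : Real.log κ ≤ 0 := Real.log_nonpos hκ.le hκ1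
        have hne : 0 < |x - u| := by
          rw [abs_pos]
          intro h0
          rw [h0, abs_zero, Real.log_zero] at hu
          linarith
        have h2 : Real.log |x - u| ≤ Real.log (κ * Real.exp (-t)) := by
          rw [Real.log_mul hκ.ne' (Real.exp_ne_zero _), Real.log_exp]; linarith
        have h3 : |x - u| ≤ κ * Real.exp (-t) := (Real.log_le_log_iff hne (by positivity)).1 h2
        rw [abs_le] at h3
        constructor <;> linarith [h3.1, h3.2]
      · linarith
    refine (measure_mono hsub).trans ((hμ.2.2 _ _ ?_).trans (le_of_eq ?_))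
    · have : 0 < κ * Real.exp (-t) := by positivity
      linarith
    · congr 1; ring
  refine (setLIntegral_mono_ae' measurableSet_Ioi (Filter.Eventually.of_forall h1)).trans ?_
  rw [← ofReal_integral_eq_lintegral_ofReal]
  · rw [integral_const_mul, integral_exp_neg_Ioi_zero, mul_one]
  · exact (integrableOn_exp_neg_Ioi 0).const_mul _
  · refine Filter.Eventually.of_forall (fun t => ?_)
    positivity

theorem trh_integrable {M Cf : ℝ} {μ : Measure ℝ} (hμ : Reg M Cf μ) (hCf : 0 ≤ Cf) (κ : ℝ) (hκ : 0 < κ)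
    (hκ1 : κ ≤ 1) (x : ℝ) : Integrable (trh κ x) μ ∧ ∫ u, trh κ x u ∂μ ≤ 2 * Cf * κ := by
  have h1 := trh_lintegral hμ hCf κ hκ hκ1 x
  have h2 : Integrable (trh κ x) μ := by
    refine ⟨(measurable_trh κ x).aestronglyMeasurable, ?_⟩
    rw [hasFiniteIntegral_iff_ofReal (Filter.Eventually.of_forall fun u => trh_nonneg κ x u)]
    exact lt_of_le_of_lt h1 ENNReal.ofReal_lt_top
  refine ⟨h2, ?_⟩
  rw [integral_eq_lintegral_of_nonneg_ae (Filter.Eventually.of_forall fun u => trh_nonneg κ x u)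
    (measurable_trh κ x).aestronglyMeasurable]
  exact ENNReal.toReal_le_of_le_ofReal (by positivity) h1

theorem log_max_measurable (κ x : ℝ) : Measurable (fun u : ℝ => Real.log (max |x - u| κ)) := by
  fun_prop

theorem log_max_integrable {M Cf : ℝ} (hM : 1 ≤ M) {μ : Measure ℝ} (hμ : Reg M Cf μ) (κ : ℝ) (hκ : 0 < κ)
    (hκ1 : κ ≤ 1) (x : ℝ) (hx : x ∈ Icc 0 M) : Integrable (fun u : ℝ => Real.log (max |x - u| κ)) μ := by
  have := hμ.1
  refine Integrable.of_bound (log_max_measurable κ x).aestronglyMeasurable (max (Real.log M) (-Real.log κ)) ?_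
  filter_upwards [hμ.ae_mem] with u hu
  rw [Real.norm_eq_abs, abs_le]
  have h1 : |x - u| ≤ M := by rw [abs_le]; constructor <;> linarith [hx.1, hx.2, hu.1, hu.2]
  have h2 : 0 < max |x - u| κ := lt_max_of_lt_right hκ
  constructor
  · have : Real.log κ ≤ Real.log (max |x - u| κ) := Real.log_le_log hκ (le_max_right _ _)
    have h3 := le_max_right (Real.log M) (-Real.log κ)
    linarith
  · refine le_trans ?_ (le_max_left _ _)
    exact Real.log_le_log h2 (max_le h1 (hκ1.trans hM))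

theorem log_eq_ae {M Cf : ℝ} {μ : Measure ℝ} (hμ : Reg M Cf μ) (κ : ℝ) (hκ : 0 < κ) (x : ℝ) :
    (fun u : ℝ => Real.log |x - u|) =ᵐ[μ] fun u => Real.log (max |x - u| κ) - trh κ x u := by
  have h0 : ∀ᵐ u ∂μ, u ≠ x := by
    rw [ae_iff]
    simpa using hμ.singleton x
  filter_upwards [h0] with u hu
  have hpos : 0 < |x - u| := abs_pos.2 (sub_ne_zero.2 (Ne.symm hu))
  unfold trh
  rcases le_total κ |x - u| with h | h
  · rw [max_eq_left h, max_eq_right]
    · ring
    · have := Real.log_le_log hκ h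
      linarith
  · rw [max_eq_right h, max_eq_left]
    · ring
    · have := Real.log_le_log hpos h
      linarith

theorem log_integrable {M Cf : ℝ} (hM : 1 ≤ M) (hCf : 0 ≤ Cf) {μ : Measure ℝ} (hμ : Reg M Cf μ) (x : ℝ) (hx : x ∈ Icc 0 M) :
    Integrable (fun u : ℝ => Real.log |x - u|) μ := by
  refine Integrable.congr ?_ (log_eq_ae hμ 1 one_pos x).symm
  exact (log_max_integrable hM hμ 1 one_pos le_rfl x hx).sub (trh_integrable hμ hCf 1 one_pos le_rfl x).1

theorem log_trunc {M Cf : ℝ} (hM : 1 ≤ M) (hCf : 0 ≤ Cf) {μ : Measure ℝ} (hμ : Reg M Cf μ) (κ : ℝ) (hκ : 0 < κ)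
    (hκ1 : κ ≤ 1) (x : ℝ) (hx : x ∈ Icc 0 M) :
    ∫ u, Real.log |x - u| ∂μ ≤ ∫ u, Real.log (max |x - u| κ) ∂μ ∧
    ∫ u, Real.log (max |x - u| κ) ∂μ ≤ ∫ u, Real.log |x - u| ∂μ + 2 * Cf * κ := by
  have h1 := trh_integrable hμ hCf κ hκ hκ1 x
  rw [integral_congr_ae (log_eq_ae hμ κ hκ x), integral_sub (log_max_integrable hM hμ κ hκ hκ1 x hx) h1.1]
  have h2 : 0 ≤ ∫ u, trh κ x u ∂μ := integral_nonneg fun u => le_max_right _ _
  constructor <;> linarith [h1.2]

theorem koksma_abs (M Cf : ℝ) (hM : 1 ≤ M) (μ : Measure ℝ) (hμ : Reg M Cf μ) (K : ℕ)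
    (y : Fin K → ℝ) (hy : ∀ i, y i ∈ Icc 0 M) (s : ℝ) (hs : Disc μ K y s) (κ : ℝ) (hκ : 0 < κ)
    (hκ1 : κ ≤ 1) (x : ℝ) (hx : x ∈ Icc 0 M) :
    |∑ i, Real.log (max |x - y i| κ) - K * ∫ u, Real.log (max |x - u| κ) ∂μ| ≤ 2 * s * Real.log (M / κ) := by
  have hprob := hμ.1
  have hB : 0 ≤ Real.log (M / κ) := Real.log_nonneg (by rw [one_le_div hκ]; linarith)
  have hlog : Real.log (M / κ) = Real.log M - Real.log κ := Real.log_div (by linarith) hκ.ne'
  have hbd : ∀ u ∈ Icc (0:ℝ) M, 0 ≤ Real.log (max |x - u| κ) - Real.log κ ∧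
      Real.log (max |x - u| κ) - Real.log κ ≤ Real.log (M / κ) := by
    intro u hu
    have h1 : |x - u| ≤ M := by rw [abs_le]; constructor <;> linarith [hx.1, hx.2, hu.1, hu.2]
    have h2 : 0 < max |x - u| κ := lt_max_of_lt_right hκ
    have h3 : Real.log κ ≤ Real.log (max |x - u| κ) := Real.log_le_log hκ (le_max_right _ _)
    have h4 : Real.log (max |x - u| κ) ≤ Real.log M := Real.log_le_log h2 (max_le h1 (hκ1.trans hM))
    rw [hlog]
    constructor <;> linarith
  have key := disc_layer (μ := μ) (y := y) (f := fun u => Real.log (max |x - u| κ) - Real.log κ)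
    ((log_max_measurable κ x).sub_const _) hB (D := 2 * s) (fun i => hbd _ (hy i)) (hμ.ae_mem.mono hbd) ?_
  · have e1 : ∑ i, (Real.log (max |x - y i| κ) - Real.log κ) = ∑ i, Real.log (max |x - y i| κ) - K * Real.log κ := by
      rw [Finset.sum_sub_distrib]; simp
    have e2 : ∫ u, (Real.log (max |x - u| κ) - Real.log κ) ∂μ = ∫ u, Real.log (max |x - u| κ) ∂μ - Real.log κ := by
      rw [integral_sub (log_max_integrable hM hμ κ hκ hκ1 x hx) (integrable_const _)]
      simp
    rw [e1, e2] at key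
    have e3 : ∑ i, Real.log (max |x - y i| κ) - K * Real.log κ - K * (∫ u, Real.log (max |x - u| κ) ∂μ - Real.log κ) =
        ∑ i, Real.log (max |x - y i| κ) - K * ∫ u, Real.log (max |x - u| κ) ∂μ := by ring
    rw [e3] at key
    exact key
  · intro t ht
    set r : ℝ := κ * Real.exp t with hr
    have hr0 : 0 < r := by positivity
    have hiff : ∀ u : ℝ, t ≤ Real.log (max |x - u| κ) - Real.log κ ↔ (u ≤ x - r ∨ x + r ≤ u) := by
      intro u
      have h2 : 0 < max |x - u| κ := lt_max_of_lt_right hκ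
      have h5 : t ≤ Real.log (max |x - u| κ) - Real.log κ ↔ r ≤ max |x - u| κ := by
        rw [← Real.log_le_log_iff hr0 h2, hr, Real.log_mul hκ.ne' (Real.exp_ne_zero _), Real.log_exp]
        constructor <;> intro h <;> linarith
      have h6 : κ < r := by
        rw [hr]
        have : 1 < Real.exp t := Real.one_lt_exp_iff.2 ht.1
        nlinarith
      rw [h5, le_max_iff, or_iff_left (not_le.2 h6), le_abs]
      constructor
      · rintro (h | h)
        · left; linarith
        · right; linarith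
      · rintro (h | h)
        · left; linarith
        · right; linarith
    have hset : {u : ℝ | t ≤ Real.log (max |x - u| κ) - Real.log κ} = Iic (x - r) ∪ (Iio (x + r))ᶜ := by
      ext u
      rw [mem_ofPred_eq, hiff u]
      simp [Iic, Iio]
    have hdisj : Disjoint (Iic (x - r)) (Iio (x + r))ᶜ := by
      rw [Set.disjoint_left]
      intro u hu hu'
      simp only [mem_Iic, mem_compl_iff, mem_Iio, not_lt] at hu hu'
      linarith
    have hmu : μ.real {u : ℝ | t ≤ Real.log (max |x - u| κ) - Real.log κ} = μ.real (Iic (x - r)) + (1 - μ.real (Iio (x + r))) := by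
      rw [hset, measureReal_union hdisj measurableSet_Iio.compl, probReal_compl_eq_one_sub measurableSet_Iio]
    have hcard : ((Finset.univ.filter (fun i => t ≤ Real.log (max |x - y i| κ) - Real.log κ)).card : ℝ) =
        ((Finset.univ.filter (fun i => y i ≤ x - r)).card : ℝ) + (K - ((Finset.univ.filter (fun i => y i < x + r)).card : ℝ)) := by
      have h1 : (Finset.univ.filter (fun i => t ≤ Real.log (max |x - y i| κ) - Real.log κ)) =
          (Finset.univ.filter (fun i => y i ≤ x - r)) ∪ (Finset.univ.filter (fun i => ¬ y i < x + r)) := by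
        ext i
        simp only [Finset.mem_filter, Finset.mem_univ, true_and, Finset.mem_union, hiff, not_lt]
      have h2 : Disjoint (Finset.univ.filter (fun i => y i ≤ x - r)) (Finset.univ.filter (fun i => ¬ y i < x + r)) := by
        rw [Finset.disjoint_filter]
        intro i _ h h'
        linarith
      have h3 := Finset.card_filter_add_card_filter_not (s := (Finset.univ : Finset (Fin K))) (fun i => y i < x + r)
      rw [Finset.card_univ, Fintype.card_fin] at h3
      rw [h1, Finset.card_union_of_disjoint h2]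
      have h4 : ((Finset.univ.filter (fun i => y i < x + r)).card : ℝ) + ((Finset.univ.filter (fun i => ¬ y i < x + r)).card : ℝ) = K := by
        exact_mod_cast h3
      push_cast
      linarith
    rw [hmu, hcard]
    have h7 := (hs (x + r)).1
    have h8 := (hs (x - r)).2
    rw [abs_le] at h7 h8 ⊢
    constructor <;> nlinarith [h7.1, h7.2, h8.1, h8.2]

theorem koksma_upper (M Cf : ℝ) (hM : 1 ≤ M) (μ : Measure ℝ) (hμ : Reg M Cf μ) (K : ℕ)
    (y : Fin K → ℝ) (hy : ∀ i, y i ∈ Icc 0 M) (s : ℝ) (hs : Disc μ K y s) (κ : ℝ) (hκ : 0 < κ)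
    (hκ1 : κ ≤ 1) (x : ℝ) (hx : x ∈ Icc 0 M) :
    ∏ i, |x - y i| ≤
      Real.exp (K * ∫ y, Real.log |x - y| ∂μ + 2 * s * Real.log (M / κ) + 2 * K * Cf * κ) := by
  have hCf : 0 ≤ Cf := by
    by_contra h
    push Not at h
    have hp := hμ.1
    have h1 := hμ.2.2 0 M (by linarith)
    have h2 : ENNReal.ofReal (Cf * (M - 0)) = 0 := ENNReal.ofReal_of_nonpos (by nlinarith)
    rw [h2] at h1
    have h3 : μ univ ≤ 0 := by
      rw [← union_compl_self (Icc (0:ℝ) M)]
      refine (measure_union_le _ _).trans ?_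
      rw [hμ.2.1, add_zero]
      exact h1
    rw [measure_univ] at h3
    exact absurd h3 (by simp)
  have h1 := koksma_abs M Cf hM μ hμ K y hy s hs κ hκ hκ1 x hx
  have h2 := (log_trunc hM hCf hμ κ hκ hκ1 x hx).2
  have h3 : ∏ i, |x - y i| ≤ ∏ i, max |x - y i| κ :=
    Finset.prod_le_prod (fun i _ => abs_nonneg _) (fun i _ => le_max_left _ _)
  refine h3.trans ?_
  have h4 : ∏ i, max |x - y i| κ = Real.exp (∑ i, Real.log (max |x - y i| κ)) := by
    rw [Real.exp_sum]
    exact Finset.prod_congr rfl (fun i _ => (Real.exp_log (lt_max_of_lt_right hκ)).symm)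
  rw [h4, Real.exp_le_exp]
  rw [abs_le] at h1
  have h5 : (K:ℝ) * ∫ u, Real.log (max |x - u| κ) ∂μ ≤ K * (∫ u, Real.log |x - u| ∂μ + 2 * Cf * κ) :=
    mul_le_mul_of_nonneg_left h2 (Nat.cast_nonneg K)
  linarith [h1.2]

theorem koksma_lower (M Cf : ℝ) (hM : 1 ≤ M) (μ : Measure ℝ) (hμ : Reg M Cf μ) (K : ℕ)
    (y : Fin K → ℝ) (hy : ∀ i, y i ∈ Icc 0 M) (s : ℝ) (hs : Disc μ K y s) (κ : ℝ) (hκ : 0 < κ)
    (hκ1 : κ ≤ 1) (x : ℝ) (hx : x ∈ Icc 0 M) (hsep : ∀ i, κ ≤ |x - y i|) :
    Real.exp (K * ∫ y, Real.log |x - y| ∂μ - 2 * s * Real.log (M / κ)) ≤ ∏ i, |x - y i| := by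
  have hCf : 0 ≤ Cf := by
    by_contra h
    push Not at h
    have hp := hμ.1
    have h1 := hμ.2.2 0 M (by linarith)
    have h2 : ENNReal.ofReal (Cf * (M - 0)) = 0 := ENNReal.ofReal_of_nonpos (by nlinarith)
    rw [h2] at h1
    have h3 : μ univ ≤ 0 := by
      rw [← union_compl_self (Icc (0:ℝ) M)]
      refine (measure_union_le _ _).trans ?_
      rw [hμ.2.1, add_zero]
      exact h1
    rw [measure_univ] at h3
    exact absurd h3 (by simp)
  have h1 := koksma_abs M Cf hM μ hμ K y hy s hs κ hκ hκ1 x hx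
  have h2 := (log_trunc hM hCf hμ κ hκ hκ1 x hx).1
  have h4 : ∏ i, |x - y i| = Real.exp (∑ i, Real.log (max |x - y i| κ)) := by
    rw [Real.exp_sum]
    refine Finset.prod_congr rfl (fun i _ => ?_)
    rw [max_eq_left (hsep i), Real.exp_log (hκ.trans_le (hsep i))]
  rw [h4, Real.exp_le_exp]
  rw [abs_le] at h1
  have h5 : (K:ℝ) * ∫ u, Real.log |x - u| ∂μ ≤ K * ∫ u, Real.log (max |x - u| κ) ∂μ :=
    mul_le_mul_of_nonneg_left h2 (Nat.cast_nonneg K)
  linarith [h1.1]

end Pool.Agent.TraceMin
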