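import Pool.Agent.TraceMin.ChebA
import Pool.Agent.TraceMin.Koksma

/-!
Alternation points.
-/

open MeasureTheory Polynomial Set

namespace Pool.Agent.TraceMin

theorem find_cell (f : ℕ → ℕ) (N i : ℕ) (h0 : f 0 ≤ i) (h1 : i < f (N + 1)) : ∃ k, k ≤ N ∧ f k ≤ i ∧ i < f (k + 1) := by
  induction N with
  | zero => exact ⟨0, le_rfl, h0, h1⟩
  | succ N ih =>
    by_cases h : i < f (N + 1)
    · obtain ⟨k, hk1, hk2⟩ := ih h
      exact ⟨k, hk1.trans (Nat.le_succ N), hk2⟩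
    · exact ⟨N + 1, le_rfl, not_lt.1 h, h1⟩

theorem find_cell_real (f : ℕ → ℝ) (N : ℕ) (t : ℝ) (h0 : f 0 ≤ t) (h1 : t < f (N + 1)) : ∃ k, k ≤ N ∧ f k ≤ t ∧ t < f (k + 1) := by
  induction N with
  | zero => exact ⟨0, le_rfl, h0, h1⟩
  | succ N ih =>
    by_cases h : t < f (N + 1)
    · obtain ⟨k, hk1, hk2⟩ := ih h
      exact ⟨k, hk1.trans (Nat.le_succ N), hk2⟩
    · exact ⟨N + 1, le_rfl, not_lt.1 h, h1⟩

theorem xp_diff (M φ₁ φ₂ : ℝ) : xp M φ₂ - xp M φ₁ = M * (Real.sin ((φ₂ + φ₁) / 2) * Real.sin ((φ₂ - φ₁) / 2)) := by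
  unfold xp
  have h := Real.cos_sub_cos φ₁ φ₂
  have e1 : (φ₁ - φ₂) / 2 = -((φ₂ - φ₁) / 2) := by ring
  have e2 : φ₁ + φ₂ = φ₂ + φ₁ := by ring
  rw [e1, Real.sin_neg, e2] at h
  linear_combination (M / 2) * h

theorem xp_mono {M : ℝ} (hM : 0 ≤ M) {φ₁ φ₂ : ℝ} (h0 : 0 ≤ φ₁) (h1 : φ₁ ≤ φ₂) (h2 : φ₂ ≤ Real.pi) : xp M φ₁ ≤ xp M φ₂ := by
  unfold xp
  have := Real.cos_le_cos_of_nonneg_of_le_pi h0 h2 h1
  nlinarith

theorem xp_strict {M : ℝ} (hM : 0 < M) {φ₁ φ₂ : ℝ} (h0 : 0 ≤ φ₁) (h1 : φ₁ < φ₂) (h2 : φ₂ ≤ Real.pi) : xp M φ₁ < xp M φ₂ := by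
  unfold xp
  have := Real.cos_lt_cos_of_nonneg_of_le_pi h0 h2 h1
  nlinarith

theorem xp_sep {M : ℝ} (hM : 0 ≤ M) {η φ₁ φ₂ : ℝ} (hη : 0 ≤ η) (h0 : η ≤ φ₁) (h1 : φ₁ + η ≤ φ₂) (h2 : φ₂ ≤ Real.pi - η) :
    M * (2 * η ^ 2 / Real.pi ^ 2) ≤ xp M φ₂ - xp M φ₁ := by
  have hpi := Real.pi_pos
  rw [xp_diff]
  refine mul_le_mul_of_nonneg_left ?_ hM
  have hs1 : 2 / Real.pi * η ≤ Real.sin ((φ₂ + φ₁) / 2) := by
    rcases le_total ((φ₂ + φ₁) / 2) (Real.pi / 2) with h | h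
    · have := Real.mul_le_sin (x := (φ₂ + φ₁) / 2) (by linarith) h
      refine le_trans ?_ this
      exact mul_le_mul_of_nonneg_left (by linarith) (by positivity)
    · have := Real.mul_le_sin (x := Real.pi - (φ₂ + φ₁) / 2) (by linarith) (by linarith)
      rw [Real.sin_pi_sub] at this
      refine le_trans ?_ this
      exact mul_le_mul_of_nonneg_left (by linarith) (by positivity)
  have hs2 : 2 / Real.pi * (η / 2) ≤ Real.sin ((φ₂ - φ₁) / 2) := by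
    have := Real.mul_le_sin (x := (φ₂ - φ₁) / 2) (by linarith) (by linarith)
    refine le_trans ?_ this
    exact mul_le_mul_of_nonneg_left (by linarith) (by positivity)
  have h3 : 2 / Real.pi * η * (2 / Real.pi * (η / 2)) = 2 * η ^ 2 / Real.pi ^ 2 := by
    field_simp
  rw [← h3]
  exact mul_le_mul hs1 hs2 (by positivity) (le_trans (by positivity) hs1)

theorem xp_lip {M : ℝ} (hM : 0 ≤ M) {φ₁ φ₂ : ℝ} (h1 : φ₁ ≤ φ₂) : xp M φ₂ - xp M φ₁ ≤ M / 2 * (φ₂ - φ₁) := by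
  rw [xp_diff]
  have h2 : Real.sin ((φ₂ + φ₁) / 2) * Real.sin ((φ₂ - φ₁) / 2) ≤ (φ₂ - φ₁) / 2 := by
    have h3 : |Real.sin ((φ₂ + φ₁) / 2) * Real.sin ((φ₂ - φ₁) / 2)| ≤ 1 * ((φ₂ - φ₁) / 2) := by
      rw [abs_mul]
      refine mul_le_mul (Real.abs_sin_le_one _) ?_ (abs_nonneg _) zero_le_one
      have := Real.abs_sin_le_abs (x := (φ₂ - φ₁) / 2)
      rwa [abs_of_nonneg (by linarith : 0 ≤ (φ₂ - φ₁) / 2)] at this
    exact (le_abs_self _).trans (by linarith)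
  calc M * (Real.sin ((φ₂ + φ₁) / 2) * Real.sin ((φ₂ - φ₁) / 2)) ≤ M * ((φ₂ - φ₁) / 2) := mul_le_mul_of_nonneg_left h2 hM
    _ = _ := by ring

/-- zone width and cell width in the angular variable -/
noncomputable def dd (N : ℕ) : ℝ := Real.pi * (3 * N - 1) / (3 * N ^ 2)
noncomputable def ee (N : ℕ) : ℝ := Real.pi / (3 * N)

theorem ee_pos {N : ℕ} (hN : 0 < N) : 0 < ee N := by
  have : (0:ℝ) < N := by exact_mod_cast hN
  unfold ee; have := Real.pi_pos; positivity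

theorem ee_le_dd {N : ℕ} (hN : 0 < N) : ee N ≤ dd N := by
  have h1 : (1:ℝ) ≤ N := by exact_mod_cast hN
  unfold ee dd
  have hpi := Real.pi_pos
  rw [div_le_div_iff₀ (by positivity) (by positivity)]
  have : (N:ℝ) ^ 2 * 3 ≤ (3 * N - 1) * (3 * N) := by nlinarith
  nlinarith [mul_le_mul_of_nonneg_left this hpi.le]

theorem N_dd {N : ℕ} (hN : 0 < N) : (N:ℝ) * dd N + ee N = Real.pi := by
  have h1 : (0:ℝ) < N := by exact_mod_cast hN
  unfold ee dd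
  field_simp
  ring

theorem dd_le {N : ℕ} (hN : 0 < N) : dd N ≤ Real.pi / N := by
  have h1 : (1:ℝ) ≤ N := by exact_mod_cast hN
  have hpi := Real.pi_pos
  unfold dd
  rw [div_le_div_iff₀ (by positivity) (by positivity)]
  nlinarith [mul_pos hpi (show (0:ℝ) < N by linarith)]

theorem cos_zone {N : ℕ} (hN : 0 < N) {k : ℕ} (hk : k ≤ N) {φ : ℝ} (h1 : k * dd N ≤ φ) (h2 : φ ≤ k * dd N + ee N) :
    1 / 2 ≤ (-1) ^ k * Real.cos (N * φ) := by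
  have hN' : (0:ℝ) < N := by exact_mod_cast hN
  have hk' : (k:ℝ) ≤ N := by exact_mod_cast hk
  have hpi := Real.pi_pos
  rw [← Real.cos_sub_nat_mul_pi]
  have e1 : (N:ℝ) * (k * dd N) = k * Real.pi - k * Real.pi / (3 * N) := by
    unfold dd; field_simp; 
  have e2 : (N:ℝ) * ee N = Real.pi / 3 := by
    unfold ee; field_simp
  have e3 : k * Real.pi / (3 * N) ≤ Real.pi / 3 := by
    rw [div_le_div_iff₀ (by positivity) (by positivity)]
    nlinarith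
  have e4 : 0 ≤ k * Real.pi / (3 * N) := by positivity
  have h3 : (N:ℝ) * (k * dd N) ≤ N * φ := mul_le_mul_of_nonneg_left h1 hN'.le
  have h4 : (N:ℝ) * φ ≤ N * (k * dd N + ee N) := mul_le_mul_of_nonneg_left h2 hN'.le
  rw [mul_add, e2, e1] at h4
  rw [e1] at h3
  rw [← Real.cos_pi_div_three, ← Real.cos_abs ((N:ℝ) * φ - k * Real.pi)]
  apply Real.cos_le_cos_of_nonneg_of_le_pi (abs_nonneg _) (by linarith)
  rw [abs_le]
  constructor <;> linarith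

/-- the minimal angular distance -/
noncomputable def eta (N n₀ : ℕ) : ℝ := ee N / (2 * n₀ + 2)

/-- the angular position of a point of the `k`-th zone -/
noncomputable def pt (N k m q : ℕ) : ℝ := k * dd N + ee N * q / (2 * m + 2)

theorem eta_pos {N : ℕ} (hN : 0 < N) (n₀ : ℕ) : 0 < eta N n₀ := by
  have := ee_pos hN
  unfold eta; positivity

theorem eta_le {N : ℕ} (hN : 0 < N) {n₀ m : ℕ} (hm : m ≤ n₀) : eta N n₀ ≤ ee N / (2 * m + 2) := by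
  have := ee_pos hN
  have h : (m:ℝ) ≤ n₀ := by exact_mod_cast hm
  unfold eta
  exact div_le_div_of_nonneg_left this.le (by positivity) (by linarith)

theorem pt_lt {N : ℕ} (hN : 0 < N) {n₀ m k q q' : ℕ} (hm : m ≤ n₀) (hq : q < q') : pt N k m q + eta N n₀ ≤ pt N k m q' := by
  have h1 := eta_le hN hm
  have h2 : (q:ℝ) + 1 ≤ q' := by exact_mod_cast hq
  have h3 := ee_pos hN
  unfold pt
  have h4 : ee N * (q:ℝ) / (2 * m + 2) + ee N / (2 * m + 2) ≤ ee N * q' / (2 * m + 2) := by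
    rw [← add_div]
    apply div_le_div_of_nonneg_right _ (by positivity)
    nlinarith
  linarith

theorem pt_lower {N : ℕ} (hN : 0 < N) {n₀ m k q : ℕ} (hm : m ≤ n₀) (hq : 1 ≤ q) : k * dd N + eta N n₀ ≤ pt N k m q := by
  have := pt_lt (k := k) hN hm (show 0 < q from hq)
  unfold pt at this ⊢
  simpa using this

theorem pt_upper {N : ℕ} (hN : 0 < N) {n₀ m k q : ℕ} (hm : m ≤ n₀) (hq : q ≤ 2 * m + 1) : pt N k m q + eta N n₀ ≤ k * dd N + ee N := by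
  have := pt_lt (k := k) hN hm (show q < 2 * m + 2 by omega)
  have e : pt N k m (2 * m + 2) = k * dd N + ee N := by
    unfold pt; push_cast
    rw [mul_div_assoc, div_self (by positivity), mul_one]
  rw [e] at this
  exact this

theorem pt_zone_lt {N : ℕ} (hN : 0 < N) {n₀ m m' k k' q q' : ℕ} (hm : m ≤ n₀) (hm' : m' ≤ n₀) (hq : q ≤ 2 * m + 1) (hq' : 1 ≤ q')
    (hk : k < k') : pt N k m q + eta N n₀ ≤ pt N k' m' q' := by
  have h1 := pt_upper (k := k) hN hm hq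
  have h2 := pt_lower (k := k') hN hm' hq'
  have h3 := ee_le_dd hN
  have h4 : ((k:ℝ) + 1) ≤ k' := by exact_mod_cast hk
  have h5 := ee_pos hN
  have h6 := eta_pos hN n₀
  have h7 : ((k:ℝ) + 1) * dd N ≤ k' * dd N := mul_le_mul_of_nonneg_right h4 (by linarith)
  linarith

/-- the index structure: cumulative counts `S`, zones of the roots and of the alternation points -/
structure Idx (N n₀ : ℕ) (S : ℕ → ℕ) (kY : Fin n₀ → ℕ) (kZ : Fin (n₀ + N + 1) → ℕ) : Prop where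
  hS0 : S 0 = 0
  hSN : S (N + 1) = n₀
  hmono : Monotone S
  hY : ∀ i, kY i ≤ N ∧ S (kY i) ≤ i ∧ (i : ℕ) < S (kY i + 1)
  hZ : ∀ j, kZ j ≤ N ∧ S (kZ j) + kZ j ≤ j ∧ (j : ℕ) < S (kZ j + 1) + (kZ j + 1)

theorem exists_idx (N n₀ : ℕ) (S : ℕ → ℕ) (hS0 : S 0 = 0) (hSN : S (N + 1) = n₀) (hmono : Monotone S) :
    ∃ kY kZ, Idx N n₀ S kY kZ := by
  have h1 : ∀ i : Fin n₀, ∃ k, k ≤ N ∧ S k ≤ i ∧ (i:ℕ) < S (k + 1) := fun i =>
    find_cell S N i (by rw [hS0]; exact Nat.zero_le _) (by rw [hSN]; exact i.2)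
  have h2 : ∀ j : Fin (n₀ + N + 1), ∃ k, k ≤ N ∧ S k + k ≤ j ∧ (j:ℕ) < S (k + 1) + (k + 1) := fun j =>
    find_cell (fun k => S k + k) N j (by simp [hS0]) (by simp only [hSN]; omega)
  choose kY hY using h1
  choose kZ hZ using h2
  exact ⟨kY, kZ, hS0, hSN, hmono, hY, hZ⟩

variable {N n₀ : ℕ} {S : ℕ → ℕ} {kY : Fin n₀ → ℕ} {kZ : Fin (n₀ + N + 1) → ℕ}

/-- number of roots of a zone -/
def mm (S : ℕ → ℕ) (k : ℕ) : ℕ := S (k + 1) - S k

noncomputable def phY (N : ℕ) (S : ℕ → ℕ) (kY : Fin n₀ → ℕ) (i : Fin n₀) : ℝ :=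
  pt N (kY i) (mm S (kY i)) (2 * ((i:ℕ) - S (kY i)) + 2)

noncomputable def phZ (S : ℕ → ℕ) (kZ : Fin (n₀ + N + 1) → ℕ) (j : Fin (n₀ + N + 1)) : ℝ :=
  pt N (kZ j) (mm S (kZ j)) (2 * ((j:ℕ) - S (kZ j) - kZ j) + 1)

theorem Idx.mm_le (h : Idx N n₀ S kY kZ) {k : ℕ} (hk : k ≤ N) : mm S k ≤ n₀ := by
  have h1 : S (k + 1) ≤ S (N + 1) := h.hmono (by omega)
  rw [h.hSN] at h1
  unfold mm; omega

theorem Idx.qY (h : Idx N n₀ S kY kZ) (i : Fin n₀) : 2 * ((i:ℕ) - S (kY i)) + 2 ≤ 2 * mm S (kY i) + 1 := by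
  obtain ⟨h1, h2, h3⟩ := h.hY i
  unfold mm; omega

theorem Idx.qZ (h : Idx N n₀ S kY kZ) (j : Fin (n₀ + N + 1)) : 2 * ((j:ℕ) - S (kZ j) - kZ j) + 1 ≤ 2 * mm S (kZ j) + 1 := by
  obtain ⟨h1, h2, h3⟩ := h.hZ j
  have h4 : S (kZ j) ≤ S (kZ j + 1) := h.hmono (Nat.le_succ _)
  unfold mm; omega

theorem Idx.Y_mem (h : Idx N n₀ S kY kZ) (hN : 0 < N) (i : Fin n₀) :
    kY i * dd N + eta N n₀ ≤ phY N S kY i ∧ phY N S kY i + eta N n₀ ≤ kY i * dd N + ee N :=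
  ⟨pt_lower hN (h.mm_le (h.hY i).1) (by omega), pt_upper hN (h.mm_le (h.hY i).1) (h.qY i)⟩

theorem Idx.Z_mem (h : Idx N n₀ S kY kZ) (hN : 0 < N) (j : Fin (n₀ + N + 1)) :
    kZ j * dd N + eta N n₀ ≤ phZ S kZ j ∧ phZ S kZ j + eta N n₀ ≤ kZ j * dd N + ee N :=
  ⟨pt_lower hN (h.mm_le (h.hZ j).1) (by omega), pt_upper hN (h.mm_le (h.hZ j).1) (h.qZ j)⟩

theorem zone_range {N : ℕ} (hN : 0 < N) {k : ℕ} (hk : k ≤ N) : 0 ≤ (k:ℝ) * dd N ∧ (k:ℝ) * dd N + ee N ≤ Real.pi := by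
  have h1 := ee_le_dd hN
  have h2 := ee_pos hN
  have h3 : (k:ℝ) ≤ N := by exact_mod_cast hk
  have h4 := N_dd hN
  have h5 : (k:ℝ) * dd N ≤ N * dd N := mul_le_mul_of_nonneg_right h3 (by linarith)
  have h6 : 0 ≤ (k:ℝ) * dd N := mul_nonneg (Nat.cast_nonneg k) (by linarith)
  exact ⟨h6, by linarith⟩

theorem Idx.Y_range (h : Idx N n₀ S kY kZ) (hN : 0 < N) (i : Fin n₀) :
    eta N n₀ ≤ phY N S kY i ∧ phY N S kY i ≤ Real.pi - eta N n₀ := by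
  have h1 := h.Y_mem hN i
  have h2 := zone_range hN (h.hY i).1
  constructor <;> linarith [h1.1, h1.2, h2.1, h2.2]

theorem Idx.Z_range (h : Idx N n₀ S kY kZ) (hN : 0 < N) (j : Fin (n₀ + N + 1)) :
    eta N n₀ ≤ phZ S kZ j ∧ phZ S kZ j ≤ Real.pi - eta N n₀ := by
  have h1 := h.Z_mem hN j
  have h2 := zone_range hN (h.hZ j).1
  constructor <;> linarith [h1.1, h1.2, h2.1, h2.2]

theorem Idx.Z_strict (h : Idx N n₀ S kY kZ) (hN : 0 < N) {j j' : Fin (n₀ + N + 1)} (hj : j < j') :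
    phZ S kZ j + eta N n₀ ≤ phZ S kZ j' := by
  obtain ⟨a1, a2, a3⟩ := h.hZ j
  obtain ⟨b1, b2, b3⟩ := h.hZ j'
  have hjn : (j:ℕ) < j' := hj
  have hle : kZ j ≤ kZ j' := by
    by_contra hc
    push Not at hc
    have : S (kZ j' + 1) ≤ S (kZ j) := h.hmono hc
    omega
  rcases hle.lt_or_eq with hlt | heq
  · exact pt_zone_lt hN (h.mm_le a1) (h.mm_le b1) (h.qZ j) (by omega) hlt
  · unfold phZ
    rw [← heq]
    refine pt_lt hN (h.mm_le a1) ?_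
    rw [← heq] at b2
    omega

theorem Idx.YZ (h : Idx N n₀ S kY kZ) (hN : 0 < N) (i : Fin n₀) (j : Fin (n₀ + N + 1)) :
    ((i:ℕ) + kZ j < j → phY N S kY i + eta N n₀ ≤ phZ S kZ j) ∧
    (¬ (i:ℕ) + kZ j < j → phZ S kZ j + eta N n₀ ≤ phY N S kY i) := by
  obtain ⟨a1, a2, a3⟩ := h.hY i
  obtain ⟨b1, b2, b3⟩ := h.hZ j
  rcases lt_trichotomy (kY i) (kZ j) with hlt | heq | hgt
  · have hS : S (kY i + 1) ≤ S (kZ j) := h.hmono hlt
    constructor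
    · intro _
      exact pt_zone_lt hN (h.mm_le a1) (h.mm_le b1) (h.qY i) (by omega) hlt
    · intro hc
      omega
  · constructor
    · intro hc
      unfold phZ phY
      rw [← heq]
      refine pt_lt hN (h.mm_le a1) ?_
      rw [← heq] at b2 hc
      omega
    · intro hc
      unfold phZ phY
      rw [← heq]
      refine pt_lt hN (h.mm_le a1) ?_
      rw [← heq] at b2 hc
      omega
  · have hS : S (kZ j + 1) ≤ S (kY i) := h.hmono hgt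
    constructor
    · intro hc
      omega
    · intro _
      exact pt_zone_lt hN (h.mm_le b1) (h.mm_le a1) (h.qZ j) (by omega) hgt

end Pool.Agent.TraceMin
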