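import Pool.Agent.TraceMin.Cheb

/-!
The polynomial `F` and its alternation points.
-/

open MeasureTheory Polynomial Set

namespace Pool.Agent.TraceMin

variable {N n₀ : ℕ} {S : ℕ → ℕ} {kY : Fin n₀ → ℕ} {kZ : Fin (n₀ + N + 1) → ℕ}

theorem Idx.sep (h : Idx N n₀ S kY kZ) (hN : 0 < N) {M : ℝ} (hM : 0 ≤ M) (i : Fin n₀) (j : Fin (n₀ + N + 1)) :
    M * (2 * (eta N n₀) ^ 2 / Real.pi ^ 2) ≤
      (if (i:ℕ) < j - kZ j then 1 else -1) * (xp M (phZ S kZ j) - xp M (phY N S kY i)) := by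
  obtain ⟨h1, h2⟩ := h.YZ hN i j
  have h3 := h.Y_range hN i
  have h4 := h.Z_range hN j
  have h5 := (eta_pos hN n₀).le
  by_cases hc : (i:ℕ) < j - kZ j
  · rw [if_pos hc, one_mul]
    exact xp_sep hM h5 h3.1 (h1 (by omega)) h4.2
  · rw [if_neg hc]
    have := xp_sep hM h5 h4.1 (h2 (by omega)) h3.2
    linarith

theorem Idx.sign (h : Idx N n₀ S kY kZ) (hN : 0 < N) {M : ℝ} (hM : 0 < M) (j : Fin (n₀ + N + 1)) :
    0 < (-1) ^ (n₀ + N + (j : ℕ)) * ((Tch M N).eval (xp M (phZ S kZ j)) *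
      ∏ i, (xp M (phZ S kZ j) - xp M (phY N S kY i))) := by
  obtain ⟨b1, b2, b3⟩ := h.hZ j
  have hη := eta_pos hN n₀
  have hpi := Real.pi_pos
  have hpos : 0 < M * (2 * (eta N n₀) ^ 2 / Real.pi ^ 2) := by positivity
  -- the product of the roots part
  have hprod : 0 < ∏ i : Fin n₀, ((if (i:ℕ) < j - kZ j then (1:ℝ) else -1) * (xp M (phZ S kZ j) - xp M (phY N S kY i))) :=
    Finset.prod_pos (fun i _ => hpos.trans_le (h.sep hN hM.le i j))
  rw [Finset.prod_mul_distrib, Finset.prod_ite, Finset.prod_const_one, one_mul, Finset.prod_const] at hprod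
  have hcard : (Finset.univ.filter (fun i : Fin n₀ => ¬ (i:ℕ) < j - kZ j)).card = n₀ - (j - kZ j) := by
    have h1 := Finset.card_filter_add_card_filter_not (s := (Finset.univ : Finset (Fin n₀))) (fun i => (i:ℕ) < j - kZ j)
    rw [Fin.card_filter_val_lt, Finset.card_univ, Fintype.card_fin] at h1
    have h2 : S (kZ j + 1) ≤ n₀ := by
      have := h.hmono (show kZ j + 1 ≤ N + 1 by omega)
      rwa [h.hSN] at this
    rw [min_eq_right (by omega)] at h1
    omega
  rw [hcard] at hprod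
  -- the Chebyshev part
  have hz := h.Z_mem hN j
  have hcos := cos_zone hN b1 (φ := phZ S kZ j) (by linarith [hz.1]) (by linarith [hz.2])
  rw [Tch_eval M N hN]
  have h2 : S (kZ j + 1) ≤ n₀ := by
    have := h.hmono (show kZ j + 1 ≤ N + 1 by omega)
    rwa [h.hSN] at this
  have hexp : ((-1:ℝ)) ^ (n₀ + N + (j : ℕ)) = (-1) ^ N * ((-1) ^ (kZ j) * (-1) ^ (n₀ - (j - kZ j))) := by
    have e : n₀ + N + (j:ℕ) = N + (kZ j + (n₀ - (j - kZ j))) + 2 * (j - kZ j) := by omega
    rw [e, pow_add _ _ (2 * _), pow_mul (-1:ℝ) 2, neg_one_sq, one_pow, mul_one, pow_add, pow_add]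
  rw [hexp]
  have e2 : ((-1:ℝ)) ^ N * (-1) ^ N = 1 := by rw [← pow_add, ← two_mul, pow_mul, neg_one_sq, one_pow]
  have e3 : (-1:ℝ) ^ N * ((-1) ^ kZ j * (-1) ^ (n₀ - (↑j - kZ j))) *
      (2 * (M / 4) ^ N * ((-1) ^ N * Real.cos (N * phZ S kZ j)) *
        ∏ i, (xp M (phZ S kZ j) - xp M (phY N S kY i))) =
      2 * (M / 4) ^ N * ((-1) ^ kZ j * Real.cos (N * phZ S kZ j)) * ((-1) ^ (n₀ - (↑j - kZ j)) *
        ∏ i, (xp M (phZ S kZ j) - xp M (phY N S kY i))) * ((-1) ^ N * (-1) ^ N) := by ring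
  rw [e3, e2, mul_one]
  have h6 : 0 < (-1) ^ kZ j * Real.cos (N * phZ S kZ j) := by linarith
  positivity

theorem Idx.Tlow (h : Idx N n₀ S kY kZ) (hN : 0 < N) {M : ℝ} (hM : 0 < M) (j : Fin (n₀ + N + 1)) :
    (M / 4) ^ N ≤ |(Tch M N).eval (xp M (phZ S kZ j))| := by
  obtain ⟨b1, b2, b3⟩ := h.hZ j
  have hη := eta_pos hN n₀
  have hz := h.Z_mem hN j
  have hcos := cos_zone hN b1 (φ := phZ S kZ j) (by linarith [hz.1]) (by linarith [hz.2])
  rw [Tch_eval M N hN, abs_mul, abs_of_pos (by positivity : (0:ℝ) < 2 * (M / 4) ^ N), abs_mul, abs_pow, abs_neg, abs_one,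
    one_pow, one_mul]
  have h1 : 1 / 2 ≤ |Real.cos (N * phZ S kZ j)| := by
    refine hcos.trans ((le_abs_self _).trans ?_)
    rw [abs_mul, abs_pow, abs_neg, abs_one, one_pow, one_mul]
  have h2 : (0:ℝ) < (M / 4) ^ N := by positivity
  nlinarith

theorem xp_mem {M : ℝ} (hM : 0 ≤ M) (φ : ℝ) : xp M φ ∈ Icc 0 M := by
  unfold xp
  have h1 := Real.cos_le_one φ
  have h2 := Real.neg_one_le_cos φ
  constructor <;> nlinarith

/-- cell ends -/
noncomputable def cc (M : ℝ) (N k : ℕ) : ℝ := xp M (min (k * dd N) Real.pi)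

theorem dd_pos {N : ℕ} (hN : 0 < N) : 0 < dd N := (ee_pos hN).trans_le (ee_le_dd hN)

theorem cc_zero (M : ℝ) (N : ℕ) : cc M N 0 = 0 := by
  unfold cc
  have : min (((0:ℕ):ℝ) * dd N) Real.pi = 0 := by
    rw [Nat.cast_zero, zero_mul]; exact min_eq_left Real.pi_pos.le
  rw [this]; simp [xp]

theorem cc_last (M : ℝ) {N : ℕ} (hN : 0 < N) : cc M N (N + 1) = M := by
  unfold cc
  have : min (((N + 1:ℕ):ℝ) * dd N) Real.pi = Real.pi := by
    apply min_eq_right
    have h1 := N_dd hN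
    have h2 := ee_le_dd hN
    push_cast
    linarith
  rw [this]; simp [xp]; ring

theorem cc_mono {M : ℝ} (hM : 0 ≤ M) {N : ℕ} (hN : 0 < N) : Monotone (cc M N) := by
  intro a b hab
  unfold cc
  have h1 := dd_pos hN
  have h2 : (a:ℝ) ≤ b := by exact_mod_cast hab
  have hpi := Real.pi_pos
  apply xp_mono hM (le_min (by positivity) hpi.le) _ (min_le_right _ _)
  exact min_le_min (mul_le_mul_of_nonneg_right h2 h1.le) le_rfl

theorem cc_step {M : ℝ} (hM : 0 ≤ M) {N : ℕ} (hN : 0 < N) (k : ℕ) : cc M N (k + 1) - cc M N k ≤ M * 2 / N := by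
  have h1 := dd_pos hN
  have hN' : (0:ℝ) < N := by exact_mod_cast hN
  unfold cc
  have h2 : min ((k:ℝ) * dd N) Real.pi ≤ min (((k + 1 : ℕ):ℝ) * dd N) Real.pi := by
    apply min_le_min _ le_rfl
    push_cast
    nlinarith
  have h3 := xp_lip hM h2
  have h4 : min (((k + 1 : ℕ):ℝ) * dd N) Real.pi - min ((k:ℝ) * dd N) Real.pi ≤ dd N := by
    push_cast
    rcases le_total ((k:ℝ) * dd N) Real.pi with h | h
    · rw [min_eq_left h]
      have := min_le_left (((k:ℝ) + 1) * dd N) Real.pi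
      linarith
    · rw [min_eq_right h]
      have := min_le_right (((k:ℝ) + 1) * dd N) Real.pi
      linarith
  have h5 := dd_le hN
  have h6 : Real.pi / N ≤ 4 / N := div_le_div_of_nonneg_right Real.pi_le_four hN'.le
  calc _ ≤ M / 2 * (min (((k + 1 : ℕ):ℝ) * dd N) Real.pi - min ((k:ℝ) * dd N) Real.pi) := h3
    _ ≤ M / 2 * (4 / N) := mul_le_mul_of_nonneg_left (h4.trans (h5.trans h6)) (by linarith)
    _ = _ := by ring

theorem Idx.Y_cell (h : Idx N n₀ S kY kZ) (hN : 0 < N) {M : ℝ} (hM : 0 < M) (i : Fin n₀) :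
    cc M N (kY i) < xp M (phY N S kY i) ∧ xp M (phY N S kY i) < cc M N (kY i + 1) := by
  have h1 := h.Y_mem hN i
  have h2 := zone_range hN (h.hY i).1
  have h3 := eta_pos hN n₀
  have h4 := ee_le_dd hN
  have h5 := ee_pos hN
  unfold cc
  constructor
  · rw [min_eq_left (by linarith)]
    exact xp_strict hM h2.1 (by linarith) (by linarith)
  · apply xp_strict hM (by linarith) _ (min_le_right _ _)
    apply lt_min
    · push_cast
      linarith
    · linarith

theorem Reg.real_le {M Cf : ℝ} {μ : Measure ℝ} (hμ : Reg M Cf μ) (hCf : 0 ≤ Cf) {a b : ℝ} (hab : a ≤ b) :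
    μ.real (Iio b) - μ.real (Iio a) ≤ Cf * (b - a) := by
  have hp := hμ.1
  have h1 : μ.real (Iio b) ≤ μ.real (Iio a) + μ.real (Icc a b) := by
    rw [← measureReal_union_add_inter]
    · have : Iio b ⊆ Iio a ∪ Icc a b := by
        intro x hx
        rcases lt_or_ge x a with h | h
        · left; exact h
        · right; exact ⟨h, le_of_lt hx⟩
      have h2 := measureReal_mono (μ := μ) this
      have h3 : 0 ≤ μ.real (Iio a ∩ Icc a b) := measureReal_nonneg
      linarith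
    · exact measurableSet_Icc
  have h2 : μ.real (Icc a b) ≤ Cf * (b - a) :=
    ENNReal.toReal_le_of_le_ofReal (mul_nonneg hCf (by linarith)) (hμ.2.2 a b hab)
  linarith

theorem Reg.Iic_eq {M Cf : ℝ} {μ : Measure ℝ} (hμ : Reg M Cf μ) (t : ℝ) : μ.real (Iic t) = μ.real (Iio t) := by
  have hp := hμ.1
  have h1 : Iic t = Iio t ∪ {t} := by
    ext x; simp [le_iff_lt_or_eq]
  have h2 : μ (Iic t) = μ (Iio t) := by
    apply le_antisymm
    · rw [h1]
      refine (measure_union_le _ _).trans ?_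
      rw [hμ.singleton t, add_zero]
    · exact measure_mono Iio_subset_Iic_self
  simp only [Measure.real, h2]

theorem Reg.Iio_zero {M Cf : ℝ} {μ : Measure ℝ} (hμ : Reg M Cf μ) {t : ℝ} (ht : t ≤ 0) : μ.real (Iio t) = 0 := by
  have : μ (Iio t) = 0 := by
    refine measure_mono_null ?_ hμ.2.1
    intro x hx hx'
    rw [mem_Iio] at hx
    linarith [hx'.1]
  simp [Measure.real, this]

theorem Reg.Iio_one {M Cf : ℝ} {μ : Measure ℝ} (hμ : Reg M Cf μ) {t : ℝ} (ht : M ≤ t) : μ.real (Iio t) = 1 := by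
  have hp := hμ.1
  rw [← hμ.Iic_eq]
  have : μ (Iic t) = 1 := by
    apply le_antisymm prob_le_one
    rw [← measure_univ (μ := μ), ← union_compl_self (Icc (0:ℝ) M)]
    refine (measure_union_le _ _).trans ?_
    rw [hμ.2.1, add_zero]
    apply measure_mono
    intro x hx
    exact hx.2.trans ht
  simp [Measure.real, this]

theorem Idx.disc (h : Idx N n₀ S kY kZ) (hN : 0 < N) {M Cf : ℝ} (hM : 4 ≤ M) (hCf : 1 ≤ Cf) {μ : Measure ℝ} (hμ : Reg M Cf μ)
    (hS : ∀ k, S k = ⌊(n₀:ℝ) * μ.real (Iio (cc M N k))⌋₊) :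
    Disc μ n₀ (fun i => xp M (phY N S kY i)) (2 * Cf * M * ((n₀:ℝ) / N + 1)) := by
  have hp := hμ.1
  have hN' : (0:ℝ) < N := by exact_mod_cast hN
  have hM0 : 0 < M := by linarith
  have hcm := cc_mono hM0.le hN
  have hge : 0 ≤ (n₀:ℝ) / N := by positivity
  have hs1 : 1 ≤ 2 * Cf * M * ((n₀:ℝ) / N + 1) := by nlinarith [mul_pos (show 0 < Cf by linarith) hM0]
  -- the basic estimate, for a nonstrict/strict count between two cumulative counts
  have key : ∀ (t : ℝ) (c : ℕ) (k : ℕ), k ≤ N → cc M N k ≤ t → t ≤ cc M N (k + 1) → S k ≤ c → c ≤ S (k + 1) →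
      |(c:ℝ) - n₀ * μ.real (Iio t)| ≤ 2 * Cf * M * ((n₀:ℝ) / N + 1) := by
    intro t c k hk h1 h2 h3 h4
    have g1 : μ.real (Iio (cc M N k)) ≤ μ.real (Iio t) := measureReal_mono (Iio_subset_Iio h1)
    have g2 : μ.real (Iio t) ≤ μ.real (Iio (cc M N (k + 1))) := measureReal_mono (Iio_subset_Iio h2)
    have g3 := hμ.real_le (by linarith) (hcm (Nat.le_succ k))
    have g4 := cc_step hM0.le hN k
    have g5 : μ.real (Iio (cc M N (k + 1))) - μ.real (Iio (cc M N k)) ≤ Cf * (M * 2 / N) :=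
      g3.trans (mul_le_mul_of_nonneg_left g4 (by linarith))
    have g6 : (n₀:ℝ) * (μ.real (Iio (cc M N (k + 1))) - μ.real (Iio (cc M N k))) ≤ 2 * Cf * M * (n₀ / N) := by
      refine (mul_le_mul_of_nonneg_left g5 (Nat.cast_nonneg n₀)).trans (le_of_eq ?_)
      ring
    have n0 : (0:ℝ) ≤ n₀ := Nat.cast_nonneg n₀
    have f1 : (S (k + 1) : ℝ) ≤ n₀ * μ.real (Iio (cc M N (k + 1))) := by
      rw [hS]; exact Nat.floor_le (mul_nonneg n0 measureReal_nonneg)
    have f2 : (n₀:ℝ) * μ.real (Iio (cc M N k)) < S k + 1 := by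
      rw [hS]; exact Nat.lt_floor_add_one _
    have f3 : (S k : ℝ) ≤ c := by exact_mod_cast h3
    have f4 : (c : ℝ) ≤ S (k + 1) := by exact_mod_cast h4
    have f5 : (n₀:ℝ) * μ.real (Iio (cc M N k)) ≤ n₀ * μ.real (Iio t) := mul_le_mul_of_nonneg_left g1 n0
    have f6 : (n₀:ℝ) * μ.real (Iio t) ≤ n₀ * μ.real (Iio (cc M N (k + 1))) := mul_le_mul_of_nonneg_left g2 n0
    have f7 : 2 * Cf * M * ((n₀:ℝ) / N + 1) = 2 * Cf * M * (n₀ / N) + 2 * Cf * M := by ring
    have f8 : 1 ≤ 2 * Cf * M := by nlinarith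
    rw [abs_le, f7]
    constructor <;> linarith
  -- counting
  have hcount : ∀ (k : ℕ) (p : Fin n₀ → Prop) [DecidablePred p], k ≤ N → (∀ i : Fin n₀, (i:ℕ) < S k → p i) →
      (∀ i : Fin n₀, p i → (i:ℕ) < S (k + 1)) →
      S k ≤ (Finset.univ.filter p).card ∧ (Finset.univ.filter p).card ≤ S (k + 1) := by
    intro k p _ hk h1 h2
    have hb1 : S k ≤ n₀ := by
      have := h.hmono (show k ≤ N + 1 by omega)
      rwa [h.hSN] at this
    have hb2 : S (k + 1) ≤ n₀ := by
      have := h.hmono (show k + 1 ≤ N + 1 by omega)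
      rwa [h.hSN] at this
    constructor
    · have := Finset.card_le_card (show (Finset.univ.filter (fun i : Fin n₀ => (i:ℕ) < S k)) ⊆ Finset.univ.filter p from by
        intro i hi
        simp only [Finset.mem_filter, Finset.mem_univ, true_and] at hi ⊢
        exact h1 i hi)
      rwa [Fin.card_filter_val_lt, min_eq_right hb1] at this
    · have := Finset.card_le_card (show Finset.univ.filter p ⊆ (Finset.univ.filter (fun i : Fin n₀ => (i:ℕ) < S (k + 1))) from by
        intro i hi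
        simp only [Finset.mem_filter, Finset.mem_univ, true_and] at hi ⊢
        exact h2 i hi)
      rwa [Fin.card_filter_val_lt, min_eq_right hb2] at this
  have hYpos : ∀ i, 0 < xp M (phY N S kY i) := by
    intro i
    have h1 := (h.Y_cell hN hM0 i).1
    have h2 := hcm (Nat.zero_le (kY i))
    rw [cc_zero] at h2
    linarith
  have hYlt : ∀ i, xp M (phY N S kY i) < M := by
    intro i
    have h1 := (h.Y_cell hN hM0 i).2
    have h2 := hcm (show kY i + 1 ≤ N + 1 by have := (h.hY i).1; omega)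
    rw [cc_last M hN] at h2
    linarith
  intro t
  rw [hμ.Iic_eq]
  rcases lt_or_ge t 0 with ht | ht
  · have c1 : (Finset.univ.filter (fun i : Fin n₀ => xp M (phY N S kY i) < t)) = ∅ := by
      rw [Finset.filter_eq_empty_iff]; intro i _ hc; linarith [hYpos i]
    have c2 : (Finset.univ.filter (fun i : Fin n₀ => xp M (phY N S kY i) ≤ t)) = ∅ := by
      rw [Finset.filter_eq_empty_iff]; intro i _ hc; linarith [hYpos i]
    rw [c1, c2, hμ.Iio_zero ht.le]
    simp only [Finset.card_empty, Nat.cast_zero, mul_zero, sub_zero, abs_zero]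
    constructor <;> linarith
  rcases le_or_gt M t with ht2 | ht2
  · have c1 : (Finset.univ.filter (fun i : Fin n₀ => xp M (phY N S kY i) < t)) = Finset.univ := by
      rw [Finset.filter_eq_self]; intro i _; linarith [hYlt i]
    have c2 : (Finset.univ.filter (fun i : Fin n₀ => xp M (phY N S kY i) ≤ t)) = Finset.univ := by
      rw [Finset.filter_eq_self]; intro i _; linarith [hYlt i]
    rw [c1, c2, hμ.Iio_one ht2]
    simp only [Finset.card_univ, Fintype.card_fin, mul_one, sub_self, abs_zero]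
    constructor <;> linarith
  obtain ⟨k, hk, hk1, hk2⟩ := find_cell_real (cc M N) N t (by rw [cc_zero]; exact ht) (by rw [cc_last M hN]; exact ht2)
  have hlow : ∀ i : Fin n₀, (i:ℕ) < S k → xp M (phY N S kY i) < t := by
    intro i hi
    have h1 := (h.hY i).2.1
    have h2 : kY i + 1 ≤ k := by
      by_contra hc
      push Not at hc
      have := h.hmono (show k ≤ kY i by omega)
      omega
    have h3 := hcm h2
    have h4 := (h.Y_cell hN hM0 i).2
    linarith
  have hupp : ∀ i : Fin n₀, xp M (phY N S kY i) ≤ t → (i:ℕ) < S (k + 1) := by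
    intro i hi
    have h1 := (h.hY i).2.2
    have h2 : kY i ≤ k := by
      by_contra hc
      push Not at hc
      have h3 := hcm (show k + 1 ≤ kY i by omega)
      have h4 := (h.Y_cell hN hM0 i).1
      linarith
    have := h.hmono (show kY i + 1 ≤ k + 1 by omega)
    omega
  obtain ⟨d1, d2⟩ := hcount k (fun i : Fin n₀ => xp M (phY N S kY i) < t) hk hlow (fun i hi => hupp i hi.le)
  obtain ⟨d3, d4⟩ := hcount k (fun i : Fin n₀ => xp M (phY N S kY i) ≤ t) hk (fun i hi => (hlow i hi).le) hupp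
  exact ⟨key t _ k hk hk1 hk2.le d1 d2, key t _ k hk hk1 hk2.le d3 d4⟩

end Pool.Agent.TraceMin
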