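import Pool.Agent.TraceMin.Defs2

/-!
Monic Chebyshev polynomials on `[0,M]`.
-/

open MeasureTheory Polynomial Set

namespace Pool.Agent.TraceMin

/-- the recursion -/
noncomputable def Rch (M : ℝ) : ℕ → ℝ[X]
  | 0 => C 2
  | 1 => X - C (M / 2)
  | (k + 2) => (X - C (M / 2)) * Rch M (k + 1) - C ((M / 4) ^ 2) * Rch M k

noncomputable def Tch (M : ℝ) (k : ℕ) : ℝ[X] := if k = 0 then 1 else Rch M k

theorem Rch_monic (M : ℝ) : ∀ k : ℕ, ((Rch M (k + 1)).Monic ∧ (Rch M (k + 1)).natDegree = k + 1) ∧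
    (Rch M k).natDegree ≤ k := by
  intro k
  induction k with
  | zero =>
    refine ⟨⟨?_, ?_⟩, ?_⟩
    · exact monic_X_sub_C _
    · exact natDegree_X_sub_C _
    · simp [Rch]
  | succ k ih =>
    obtain ⟨⟨h1, h2⟩, h3⟩ := ih
    have hd : (Rch M (k + 2)) = (X - C (M / 2)) * Rch M (k + 1) - C ((M / 4) ^ 2) * Rch M k := rfl
    have hm : ((X - C (M / 2)) * Rch M (k + 1)).Monic := (monic_X_sub_C _).mul h1
    have hn : ((X - C (M / 2)) * Rch M (k + 1)).natDegree = k + 2 := by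
      rw [(monic_X_sub_C _).natDegree_mul h1, natDegree_X_sub_C, h2]; ring
    have hlt : (C ((M / 4) ^ 2) * Rch M k).natDegree < ((X - C (M / 2)) * Rch M (k + 1)).natDegree := by
      rw [hn]
      refine lt_of_le_of_lt (natDegree_C_mul_le _ _) ?_
      omega
    refine ⟨⟨?_, ?_⟩, h2.le⟩
    · rw [hd]
      exact hm.sub_of_left (degree_lt_degree hlt)
    · rw [hd, natDegree_sub_eq_left_of_natDegree_lt hlt, hn]

theorem Rch_coeff (M : ℝ) : ∀ k : ℕ, (Rch M (k + 1)).coeff k = -((k:ℝ) + 1) * M / 2 := by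
  intro k
  induction k with
  | zero => simp [Rch]; ring
  | succ k ih =>
    have hd : (Rch M (k + 2)) = (X - C (M / 2)) * Rch M (k + 1) - C ((M / 4) ^ 2) * Rch M k := rfl
    rw [hd, coeff_sub, sub_mul, coeff_sub, coeff_X_mul, coeff_C_mul, coeff_C_mul, ih]
    have h1 : (Rch M (k + 1)).coeff (k + 1) = 1 := by
      have := (Rch_monic M k).1.1
      rw [Monic, leadingCoeff, (Rch_monic M k).1.2] at this
      exact this
    have h2 : (Rch M k).coeff (k + 1) = 0 :=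
      coeff_eq_zero_of_natDegree_lt (lt_of_le_of_lt (Rch_monic M k).2 (Nat.lt_succ_self k))
    rw [h1, h2]
    push_cast
    ring

/-- the parametrisation -/
noncomputable def xp (M : ℝ) (φ : ℝ) : ℝ := M / 2 * (1 - Real.cos φ)

theorem Rch_eval (M : ℝ) (φ : ℝ) : ∀ k : ℕ, (Rch M k).eval (xp M φ) = 2 * (M / 4) ^ k * ((-1) ^ k * Real.cos (k * φ)) ∧
    (Rch M (k + 1)).eval (xp M φ) = 2 * (M / 4) ^ (k + 1) * ((-1) ^ (k + 1) * Real.cos ((k + 1 : ℕ) * φ)) := by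
  intro k
  induction k with
  | zero =>
    constructor
    · simp [Rch]
    · simp [Rch, xp]; ring
  | succ k ih =>
    obtain ⟨h1, h2⟩ := ih
    refine ⟨h2, ?_⟩
    have hd : (Rch M (k + 2)) = (X - C (M / 2)) * Rch M (k + 1) - C ((M / 4) ^ 2) * Rch M k := rfl
    rw [hd, eval_sub, eval_mul, eval_mul, h1, h2, eval_sub, eval_X, eval_C, eval_C]
    have hc : Real.cos (((k + 1 + 1 : ℕ) : ℝ) * φ) = 2 * Real.cos φ * Real.cos (((k + 1 : ℕ):ℝ) * φ) - Real.cos ((k:ℝ) * φ) := by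
      have e1 : ((k + 1 + 1 : ℕ) : ℝ) * φ = ((k + 1 : ℕ) : ℝ) * φ + φ := by push_cast; ring
      have e2 : (k:ℝ) * φ = ((k + 1 : ℕ) : ℝ) * φ - φ := by push_cast; ring
      rw [e1, e2, Real.cos_add, Real.cos_sub]; ring
    rw [hc]
    simp only [xp]
    ring

theorem exists_phi (M : ℝ) (hM : 0 < M) (x : ℝ) (hx : x ∈ Icc (0:ℝ) M) : ∃ φ, x = xp M φ := by
  refine ⟨Real.arccos (1 - 2 * x / M), ?_⟩
  have h1 : -1 ≤ 1 - 2 * x / M := by
    have : 2 * x / M ≤ 2 := by rw [div_le_iff₀ hM]; linarith [hx.2]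
    linarith
  have h2 : 1 - 2 * x / M ≤ 1 := by
    have : 0 ≤ 2 * x / M := div_nonneg (by linarith [hx.1]) hM.le
    linarith
  rw [xp, Real.cos_arccos h1 h2]
  field_simp
  ring

theorem Tch_prop (M : ℝ) (hM : 4 ≤ M) (k : ℕ) : (Tch M k).Monic ∧ (Tch M k).natDegree = k ∧
    ∀ x ∈ Icc (0 : ℝ) M, |(Tch M k).eval x| ≤ 2 * (M / 4) ^ k := by
  rcases Nat.eq_zero_or_pos k with rfl | hk
  · simp [Tch]
  · obtain ⟨j, rfl⟩ : ∃ j, k = j + 1 := ⟨k - 1, by omega⟩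
    have ht : Tch M (j + 1) = Rch M (j + 1) := by simp [Tch]
    rw [ht]
    refine ⟨(Rch_monic M j).1.1, (Rch_monic M j).1.2, ?_⟩
    intro x hx
    obtain ⟨φ, rfl⟩ := exists_phi M (by linarith) x hx
    rw [(Rch_eval M φ j).2]
    have h0 : (0:ℝ) ≤ 2 * (M / 4) ^ (j + 1) := by positivity
    rw [abs_mul, abs_of_nonneg h0]
    refine mul_le_of_le_one_right h0 ?_
    rw [abs_mul, abs_pow, abs_neg, abs_one, one_pow, one_mul]
    exact Real.abs_cos_le_one _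

theorem Tch_eval (M : ℝ) (k : ℕ) (hk : 0 < k) (φ : ℝ) :
    (Tch M k).eval (xp M φ) = 2 * (M / 4) ^ k * ((-1) ^ k * Real.cos (k * φ)) := by
  have ht : Tch M k = Rch M k := by simp [Tch, hk.ne']
  rw [ht, (Rch_eval M φ k).1]

theorem Tch_coeff (M : ℝ) (hM : 0 ≤ M) (N : ℕ) (hN : 0 < N) : -(Tch M N).coeff (N - 1) ≤ N * M := by
  obtain ⟨j, rfl⟩ : ∃ j, N = j + 1 := ⟨N - 1, by omega⟩
  have ht : Tch M (j + 1) = Rch M (j + 1) := by simp [Tch]
  rw [ht, Nat.add_sub_cancel, Rch_coeff]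
  push_cast
  have : 0 ≤ ((j:ℝ) + 1) * M := by positivity
  linarith

theorem cheb (M : ℝ) (hM : 4 ≤ M) : ∃ T : ℕ → ℝ[X], ∀ k, (T k).Monic ∧ (T k).natDegree = k ∧
    ∀ x ∈ Icc (0 : ℝ) M, |(T k).eval x| ≤ 2 * (M / 4) ^ k := ⟨Tch M, Tch_prop M hM⟩

end Pool.Agent.TraceMin
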