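/-
Module T10 (helper86): a Euclidean lattice all of whose nonzero dual vectors have norm at least `ρ`
has covering radius at most `n² / ρ` (Minkowski twice and induction on the dimension).
-/
import Mathlib

open MeasureTheory Set Module

namespace Pool.Agent.TraceMin

namespace CoverAux

/-- Minkowski's theorem on linear forms. -/
theorem mink_forms {n : ℕ} (hn : 0 < n) (M : Matrix (Fin n) (Fin n) ℝ) (hM : M.det ≠ 0) (c : ℝ)
    (hc : 0 < c) (h : |M.det| ≤ c ^ n) :
    ∃ z : Fin n → ℤ, z ≠ 0 ∧ ∀ i, |M.mulVec (fun j => (z j : ℝ)) i| ≤ c := by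
  classical
  have : Nonempty (Fin n) := ⟨⟨0, hn⟩⟩
  set L : AddSubgroup (Fin n → ℝ) :=
    (Submodule.span ℤ (Set.range (Pi.basisFun ℝ (Fin n)))).toAddSubgroup with hL
  have fund : IsAddFundamentalDomain L (ZSpan.fundamentalDomain (Pi.basisFun ℝ (Fin n))) volume :=
    ZSpan.isAddFundamentalDomain' (Pi.basisFun ℝ (Fin n)) volume
  set f : (Fin n → ℝ) →ₗ[ℝ] (Fin n → ℝ) := M.mulVecLin with hf
  have hdet : LinearMap.det f = M.det := by
    rw [hf, ← Matrix.toLin'_apply', LinearMap.det_toLin']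
  have hdet0 : LinearMap.det f ≠ 0 := by rw [hdet]; exact hM
  set s : Set (Fin n → ℝ) := f ⁻¹' (Metric.closedBall 0 c) with hs
  have hvolF : volume (ZSpan.fundamentalDomain (Pi.basisFun ℝ (Fin n))) = 1 := by
    rw [ZSpan.volume_fundamentalDomain]
    have h1 : Matrix.of ⇑(Pi.basisFun ℝ (Fin n)) = 1 := by
      ext i j
      simp [Pi.basisFun_apply, Matrix.one_apply, Pi.single_apply, eq_comm]
    rw [h1]
    simp
  have hvols : volume (ZSpan.fundamentalDomain (Pi.basisFun ℝ (Fin n))) *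
      2 ^ finrank ℝ (Fin n → ℝ) ≤ volume s := by
    rw [hvolF, one_mul, hs, Measure.addHaar_preimage_linearMap _ hdet0, hdet,
      Real.volume_pi_closedBall _ hc.le, finrank_fintype_fun_eq_card, Fintype.card_fin]
    rw [← ENNReal.ofReal_mul (abs_nonneg _)]
    have h2 : (2 : ENNReal) ^ n = ENNReal.ofReal (2 ^ n) := by
      rw [ENNReal.ofReal_pow (by norm_num)]
      norm_num
    rw [h2]
    apply ENNReal.ofReal_le_ofReal
    rw [mul_pow, abs_inv]
    have hpos : 0 < |M.det| := abs_pos.mpr hM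
    rw [inv_mul_eq_div, le_div_iff₀ hpos]
    exact mul_le_mul_of_nonneg_left h (by positivity)
  have hcpt : IsCompact s :=
    (f.equivOfDetNeZero hdet0).toContinuousLinearEquiv.toHomeomorph.isCompact_preimage.mpr
      (isCompact_closedBall 0 c)
  have : Countable L := by
    change Countable (Submodule.span ℤ (Set.range (Pi.basisFun ℝ (Fin n))))
    infer_instance
  obtain ⟨x, hx0, hxs⟩ := exists_ne_zero_mem_lattice_of_measure_mul_two_pow_le_measure fund
    (s := s) (by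
      intro x hx
      simp only [hs, mem_preimage, map_neg, mem_closedBall_zero_iff, norm_neg] at hx ⊢
      exact hx) ((convex_closedBall _ _).linear_preimage f) hcpt hvols
  have hxL : (x : Fin n → ℝ) ∈ Submodule.span ℤ (Set.range (Pi.basisFun ℝ (Fin n))) := x.2
  rw [Basis.mem_span_iff_repr_mem] at hxL
  choose z hz using hxL
  refine ⟨z, ?_, ?_⟩
  · rintro rfl
    apply hx0
    ext i
    have := hz i
    simp at this
    simp [← this]
  · intro i
    have h1 : (fun j => (z j : ℝ)) = (x : Fin n → ℝ) := by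
      ext j
      have := hz j
      simpa using this
    rw [h1]
    have h2 : ‖f x‖ ≤ c := by simpa [hs] using hxs
    have h3 := norm_le_pi_norm (f x) i
    calc |M.mulVec (x : Fin n → ℝ) i| = ‖f x i‖ := by
          rw [hf, Real.norm_eq_abs]; rfl
      _ ≤ c := h3.trans h2

variable {E : Type} [NormedAddCommGroup E] [InnerProductSpace ℝ E] [FiniteDimensional ℝ E]

/-- dual condition -/
def DualBound (ρ : ℝ) {n : ℕ} (b : Basis (Fin n) ℝ E) : Prop :=
  ∀ φ : E →ₗ[ℝ] ℝ, φ ≠ 0 → (∀ i, ∃ m : ℤ, φ (b i) = m) → ∃ v : E, ‖v‖ ≤ 1 ∧ ρ ≤ |φ v|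

theorem short_vector {n : ℕ} (hn : 0 < n) (b : Basis (Fin n) ℝ E) (ρ : ℝ) (hρ : 0 < ρ)
    (hdual : DualBound ρ b) :
    ∃ z : Fin n → ℤ, z ≠ 0 ∧ ‖∑ i, (z i : ℝ) • b i‖ ≤ n / ρ := by
  classical
  have hfin : finrank ℝ E = n := by rw [finrank_eq_card_basis b, Fintype.card_fin]
  let e : OrthonormalBasis (Fin n) ℝ E := (stdOrthonormalBasis ℝ E).reindex (finCongr hfin)
  set A : Matrix (Fin n) (Fin n) ℝ := e.toBasis.toMatrix b with hA
  have hAinv : Invertible A := e.toBasis.invertibleToMatrix b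
  have hAdet : A.det ≠ 0 := by
    have := A.isUnit_det_of_invertible
    exact this.ne_zero
  set c : ℝ := |A.det| ^ (1 / (n : ℝ)) with hc
  have hc0 : 0 < c := Real.rpow_pos_of_pos (abs_pos.mpr hAdet) _
  have hn0 : (n : ℝ) ≠ 0 := by exact_mod_cast hn.ne'
  have hcn : c ^ n = |A.det| := by
    rw [hc, ← Real.rpow_natCast, ← Real.rpow_mul (abs_nonneg _), one_div, inv_mul_cancel₀ hn0,
      Real.rpow_one]
  -- dual vector
  obtain ⟨z', hz'0, hz'⟩ := mink_forms hn (A⁻¹.transpose) (by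
    rw [Matrix.det_transpose, Matrix.det_nonsing_inv, Ring.inverse_eq_inv']
    exact inv_ne_zero hAdet) c⁻¹ (inv_pos.mpr hc0) (by
    rw [Matrix.det_transpose, Matrix.det_nonsing_inv, Ring.inverse_eq_inv', abs_inv, inv_pow, hcn])
  obtain ⟨z, hz0, hz⟩ := mink_forms hn A hAdet c hc0 hcn.ge
  set w' : Fin n → ℝ := (A⁻¹.transpose).mulVec (fun j => (z' j : ℝ)) with hw'
  set u : E := ∑ i, w' i • e i with hu
  have hnorm : ∀ (y : E) (w : Fin n → ℝ) (d : ℝ), 0 ≤ d → (∀ i, inner ℝ (e i) y = w i) →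
      (∀ i, |w i| ≤ d) → ‖y‖ ≤ Real.sqrt n * d := by
    intro y w d hd h1 h2
    have h3 : ‖y‖ ^ 2 ≤ n * d ^ 2 := by
      rw [← e.sum_sq_norm_inner_right y]
      calc ∑ i, ‖inner ℝ (e i) y‖ ^ 2 ≤ ∑ _i : Fin n, d ^ 2 := by
            apply Finset.sum_le_sum
            intro i _
            rw [h1 i, Real.norm_eq_abs]
            exact pow_le_pow_left₀ (abs_nonneg _) (h2 i) 2
        _ = n * d ^ 2 := by simp
    apply le_of_sq_le_sq _ (by positivity)
    rw [mul_pow, Real.sq_sqrt (Nat.cast_nonneg n)]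
    exact h3
  have hinu : ∀ i, inner ℝ (e i) u = w' i := by
    intro i
    rw [hu]
    exact e.orthonormal.inner_right_fintype w' i
  have hunorm : ‖u‖ ≤ Real.sqrt n * c⁻¹ := hnorm u w' _ (inv_nonneg.mpr hc0.le) hinu hz'
  have hAb : ∀ i j, A i j = inner ℝ (e i) (b j) := by
    intro i j
    rw [hA, Basis.toMatrix_apply, OrthonormalBasis.coe_toBasis_repr_apply,
      OrthonormalBasis.repr_apply_apply]
  have hub : ∀ j, inner ℝ u (b j) = (z' j : ℝ) := by
    intro j
    have h1 : inner ℝ u (b j) = ∑ i, w' i * A i j := by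
      rw [hu, sum_inner]
      apply Finset.sum_congr rfl
      intro i _
      rw [inner_smul_left, hAb]
      simp
    have h2 : ∑ i, w' i * A i j = (A.transpose.mulVec w') j := by
      simp [Matrix.mulVec, dotProduct, mul_comm]
    rw [h1, h2, hw', Matrix.mulVec_mulVec, ← Matrix.transpose_mul, Matrix.nonsing_inv_mul _
      (isUnit_iff_ne_zero.mpr hAdet), Matrix.transpose_one, Matrix.one_mulVec]
  have hφ : (innerₛₗ ℝ u : E →ₗ[ℝ] ℝ) ≠ 0 := by
    intro h0
    apply hz'0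
    ext j
    have := hub j
    have h1 : (innerₛₗ ℝ u : E →ₗ[ℝ] ℝ) (b j) = 0 := by rw [h0]; rfl
    rw [innerₛₗ_apply_apply] at h1
    rw [h1] at this
    exact_mod_cast this.symm
  obtain ⟨v, hv1, hv2⟩ := hdual (innerₛₗ ℝ u) hφ (fun j => ⟨z' j, by
    rw [innerₛₗ_apply_apply]; exact hub j⟩)
  have hρu : ρ ≤ Real.sqrt n * c⁻¹ := by
    refine hv2.trans ?_
    rw [innerₛₗ_apply_apply]
    calc |inner ℝ u v| ≤ ‖u‖ * ‖v‖ := abs_real_inner_le_norm u v
      _ ≤ ‖u‖ * 1 := mul_le_mul_of_nonneg_left hv1 (norm_nonneg _)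
      _ ≤ _ := by rw [mul_one]; exact hunorm
  refine ⟨z, hz0, ?_⟩
  have hy : ‖∑ i, (z i : ℝ) • b i‖ ≤ Real.sqrt n * c := by
    apply hnorm _ (A.mulVec (fun j => (z j : ℝ))) c hc0.le _ hz
    intro i
    rw [inner_sum]
    simp only [Matrix.mulVec, dotProduct]
    apply Finset.sum_congr rfl
    intro j _
    rw [inner_smul_right, hAb, mul_comm]
  have hsq : Real.sqrt n * Real.sqrt n = n := Real.mul_self_sqrt (Nat.cast_nonneg n)
  have hcle : c ≤ Real.sqrt n / ρ := by
    rw [le_div_iff₀ hρ]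
    calc c * ρ ≤ c * (Real.sqrt n * c⁻¹) := mul_le_mul_of_nonneg_left hρu hc0.le
      _ = Real.sqrt n := by field_simp
  calc ‖∑ i, (z i : ℝ) • b i‖ ≤ Real.sqrt n * c := hy
    _ ≤ Real.sqrt n * (Real.sqrt n / ρ) := mul_le_mul_of_nonneg_left hcle (Real.sqrt_nonneg _)
    _ = n / ρ := by rw [← mul_div_assoc, hsq]

/-- A nonzero lattice vector is a multiple of an element of some lattice basis. -/
theorem adapted_basis {n : ℕ} (b : Basis (Fin n) ℝ E) (z : Fin n → ℤ) (hz : z ≠ 0) :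
    ∃ (b' : Basis (Fin n) ℝ E) (j : Fin n), Submodule.span ℤ (Set.range b') =
      Submodule.span ℤ (Set.range b) ∧ ‖b' j‖ ≤ ‖∑ i, (z i : ℝ) • b i‖ := by
  classical
  let bL : Basis (Fin n) ℤ (Submodule.span ℤ (Set.range b)) := b.restrictScalars ℤ
  have hbLc : ∀ i, ((bL i : Submodule.span ℤ (Set.range b)) : E) = b i := fun i =>
    Basis.restrictScalars_apply ℤ b i
  set y : Submodule.span ℤ (Set.range b) := ∑ i, z i • bL i with hy
  have hyE : (y : E) = ∑ i, (z i : ℝ) • b i := by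
    rw [hy]
    push_cast
    apply Finset.sum_congr rfl
    intro i _
    rw [hbLc, Int.cast_smul_eq_zsmul]
  have hy0 : y ≠ 0 := by
    intro h
    apply hz
    have h1 := bL.linearIndependent
    rw [Fintype.linearIndependent_iff] at h1
    ext i
    exact h1 z h i
  set N : Submodule ℤ (Submodule.span ℤ (Set.range b)) := Submodule.span ℤ {y} with hN
  obtain ⟨m, snf⟩ := Submodule.smithNormalForm bL N
  have hyN : y ∈ N := Submodule.mem_span_singleton_self y
  have hm : m = 1 := by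
    have h1 : finrank ℤ N = m := by rw [finrank_eq_card_basis snf.bN, Fintype.card_fin]
    have h2 : finrank ℤ N = 1 := by
      rw [← (LinearEquiv.toSpanNonzeroSingleton ℤ _ y hy0).finrank_eq]
      exact finrank_self ℤ
    rw [← h1, h2]
  subst hm
  refine ⟨snf.bM.ofZLatticeBasis ℝ (Submodule.span ℤ (Set.range b)), snf.f 0,
    Basis.ofZLatticeBasis_span ℝ _ _, ?_⟩
  rw [Basis.ofZLatticeBasis_apply, ← hyE]
  have h1 : y = (snf.bN.repr ⟨y, hyN⟩ 0 * snf.a 0) • snf.bM (snf.f 0) := by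
    have h2 := snf.bN.sum_repr ⟨y, hyN⟩
    rw [Fin.sum_univ_one] at h2
    have h3 := congrArg (fun w : N => (w : Submodule.span ℤ (Set.range b))) h2
    simp only [Submodule.coe_smul] at h3
    rw [snf.snf 0, smul_smul] at h3
    exact h3.symm
  set q : ℤ := snf.bN.repr ⟨y, hyN⟩ 0 * snf.a 0 with hq
  have hq0 : q ≠ 0 := by
    intro h0
    rw [h0, zero_smul] at h1
    exact hy0 h1
  have h2 : (y : E) = (q : ℝ) • ((snf.bM (snf.f 0) : Submodule.span ℤ (Set.range b)) : E) := by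
    rw [Int.cast_smul_eq_zsmul]
    have := congrArg (fun w : Submodule.span ℤ (Set.range b) => (w : E)) h1
    simpa using this
  rw [h2, norm_smul, Real.norm_eq_abs]
  have h3 : (1 : ℝ) ≤ |(q : ℝ)| := by
    rw [← Int.cast_abs]
    exact_mod_cast Int.one_le_abs hq0
  calc ‖((snf.bM (snf.f 0) : Submodule.span ℤ (Set.range b)) : E)‖
      = 1 * ‖((snf.bM (snf.f 0) : Submodule.span ℤ (Set.range b)) : E)‖ := by rw [one_mul]
    _ ≤ _ := mul_le_mul_of_nonneg_right h3 (norm_nonneg _)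

omit [FiniteDimensional ℝ E] in
/-- the dual condition only depends on the lattice -/
theorem DualBound.congr {n : ℕ} {b b' : Basis (Fin n) ℝ E} {ρ : ℝ}
    (h : Submodule.span ℤ (Set.range b') = Submodule.span ℤ (Set.range b)) (hb : DualBound ρ b) :
    DualBound ρ b' := by
  intro φ hφ hint
  apply hb φ hφ
  intro i
  have h1 : b i ∈ Submodule.span ℤ (Set.range b') := by
    rw [h]; exact Submodule.subset_span ⟨i, rfl⟩
  generalize b i = bi at h1
  induction h1 using Submodule.span_induction with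
  | mem x hx => obtain ⟨k, rfl⟩ := hx; exact hint k
  | zero => exact ⟨0, by simp⟩
  | add x y _ _ hx hy =>
    obtain ⟨m1, h1⟩ := hx
    obtain ⟨m2, h2⟩ := hy
    exact ⟨m1 + m2, by rw [map_add, h1, h2]; push_cast; ring⟩
  | smul a x _ hx =>
    obtain ⟨m1, h1⟩ := hx
    exact ⟨a * m1, by
      rw [← Int.cast_smul_eq_zsmul ℝ, map_smul, h1, smul_eq_mul]; push_cast; ring⟩

theorem cover_step (ρ : ℝ) (hρ : 0 < ρ) : ∀ (n : ℕ) (E : Type) [NormedAddCommGroup E]
    [InnerProductSpace ℝ E] [FiniteDimensional ℝ E] (b : Basis (Fin n) ℝ E),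
    DualBound ρ b → ∀ x : E, ∃ y ∈ Submodule.span ℤ (Set.range b),
      ‖x - y‖ ^ 2 ≤ (n : ℝ) ^ 3 / (4 * ρ ^ 2) := by
  intro n
  induction n with
  | zero =>
    intro E _ _ _ b _ x
    refine ⟨0, zero_mem _, ?_⟩
    have hx : x = 0 := by
      rw [← b.sum_repr x]; simp
    rw [hx]; simp
  | succ n ih =>
    intro E _ _ _ b0 hdual0 x
    obtain ⟨z, hz0, hz⟩ := short_vector (Nat.succ_pos n) b0 ρ hρ hdual0
    obtain ⟨b, j, hspan, hbj⟩ := adapted_basis b0 z hz0
    have hdual : DualBound ρ b := hdual0.congr hspan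
    rw [← hspan]
    set w : E := b j with hw
    have hw0 : w ≠ 0 := b.ne_zero j
    have hwn : ‖w‖ ≤ ((n + 1 : ℕ) : ℝ) / ρ := hbj.trans hz
    set K : Submodule ℝ E := (Submodule.span ℝ {w})ᗮ with hK
    have hfin : finrank ℝ E = n + 1 := by rw [finrank_eq_card_basis b, Fintype.card_fin]
    have hKfin : finrank ℝ K = n := by
      have : Fact (finrank ℝ E = n + 1) := ⟨hfin⟩
      exact Submodule.finrank_orthogonal_span_singleton hw0
    set π : E →L[ℝ] K := K.orthogonalProjectionOnto with hπ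
    have hπw : π w = 0 := by
      have h1 : w ∈ Kᗮ := by
        rw [hK]
        exact Submodule.le_orthogonal_orthogonal _ (Submodule.mem_span_singleton_self w)
      exact Submodule.orthogonalProjectionOnto_eq_zero_iff.mpr h1
    have hπK : ∀ y : K, π (y : E) = y := fun y =>
      Submodule.orthogonalProjectionOnto_mem_subspace_eq_self y
    set v : Fin n → K := fun i => π (b (j.succAbove i)) with hv
    have hvspan : ⊤ ≤ Submodule.span ℝ (Set.range v) := by
      intro y _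
      rw [← hπK y]
      have h1 : (y : E) = ∑ i, b.repr (y : E) i • b i := (b.sum_repr _).symm
      rw [h1, map_sum, Fin.sum_univ_succAbove _ j, map_smul, ← hw, hπw, smul_zero, zero_add]
      apply Submodule.sum_mem
      intro i _
      rw [map_smul]
      exact Submodule.smul_mem _ _ (Submodule.subset_span ⟨i, rfl⟩)
    let bK : Basis (Fin n) ℝ K := basisOfTopLeSpanOfCardEqFinrank v hvspan (by
      rw [Fintype.card_fin, hKfin])
    have hbK : ∀ i, bK i = π (b (j.succAbove i)) := fun i => by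
      simp only [bK, coe_basisOfTopLeSpanOfCardEqFinrank, hv]
    have hdualK : DualBound ρ bK := by
      intro φ hφ hint
      have h1 : (φ ∘ₗ (π : E →ₗ[ℝ] K)) ≠ 0 := by
        intro h0
        apply hφ
        ext y
        have := congrArg (fun f : E →ₗ[ℝ] ℝ => f (y : E)) h0
        simpa [hπK] using this
      obtain ⟨u, hu1, hu2⟩ := hdual _ h1 (by
        intro i
        rcases Fin.eq_self_or_eq_succAbove j i with rfl | ⟨k, rfl⟩
        · exact ⟨0, by simp [← hw, hπw]⟩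
        · obtain ⟨m, hm⟩ := hint k
          exact ⟨m, by rw [← hm, hbK]; rfl⟩)
      exact ⟨π u, (Submodule.norm_orthogonalProjectionOnto_apply_le K u).trans hu1, hu2⟩
    obtain ⟨y', hy', hy'n⟩ := ih K bK hdualK (π x)
    have hlift : ∃ y ∈ Submodule.span ℤ (Set.range b), π y = y' := by
      clear hy'n
      induction hy' using Submodule.span_induction with
      | mem y hy =>
        obtain ⟨k, rfl⟩ := hy
        exact ⟨b (j.succAbove k), Submodule.subset_span ⟨_, rfl⟩, (hbK k).symm⟩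
      | zero => exact ⟨0, zero_mem _, map_zero _⟩
      | add a c _ _ ha hc =>
        obtain ⟨a', ha', rfl⟩ := ha
        obtain ⟨c', hc', rfl⟩ := hc
        exact ⟨a' + c', add_mem ha' hc', map_add _ _ _⟩
      | smul m a _ ha =>
        obtain ⟨a', ha', rfl⟩ := ha
        exact ⟨m • a', Submodule.smul_mem _ _ ha', map_zsmul _ _ _⟩
    obtain ⟨y, hyL, rfl⟩ := hlift
    have hmem : (x - y) - (π (x - y) : E) ∈ Submodule.span ℝ {w} := by
      have h1 := Submodule.sub_starProjection_mem_orthogonal (K := K) (x - y)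
      have h2 : Kᗮ = Submodule.span ℝ {w} := by rw [hK, Submodule.orthogonal_orthogonal]
      rw [← h2]
      exact h1
    obtain ⟨t, ht⟩ := Submodule.mem_span_singleton.mp hmem
    refine ⟨y + round t • w, add_mem hyL (Submodule.smul_mem _ _
      (Submodule.subset_span ⟨j, rfl⟩)), ?_⟩
    have hdecomp : x - (y + round t • w) = (π (x - y) : E) + (t - round t) • w := by
      rw [sub_smul, ht, Int.cast_smul_eq_zsmul]
      abel
    have horth : inner ℝ (π (x - y) : E) ((t - round t) • w) = 0 := by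
      rw [inner_smul_right]
      have h1 : (π (x - y) : E) ∈ (Submodule.span ℝ {w})ᗮ := (π (x - y)).2
      rw [Submodule.mem_orthogonal_singleton_iff_inner_left] at h1
      rw [h1, mul_zero]
    rw [hdecomp, norm_add_sq_real, horth, mul_zero, add_zero]
    have h4 : ‖((π (x - y) : K) : E)‖ ^ 2 ≤ (n : ℝ) ^ 3 / (4 * ρ ^ 2) := by
      rw [← map_sub] at hy'n
      exact hy'n
    have h5 : ‖(t - round t) • w‖ ^ 2 ≤ (1 / 2) ^ 2 * ((((n + 1 : ℕ) : ℝ) / ρ) ^ 2) := by
      rw [norm_smul, mul_pow, Real.norm_eq_abs]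
      exact mul_le_mul (pow_le_pow_left₀ (abs_nonneg _) (abs_sub_round t) 2)
        (pow_le_pow_left₀ (norm_nonneg _) hwn 2) (by positivity) (by positivity)
    have h6 : (n : ℝ) ^ 3 / (4 * ρ ^ 2) + (1 / 2) ^ 2 * ((((n + 1 : ℕ) : ℝ) / ρ) ^ 2) ≤
        ((n + 1 : ℕ) : ℝ) ^ 3 / (4 * ρ ^ 2) := by
      rw [show (1 / 2 : ℝ) ^ 2 * (((n + 1 : ℕ) : ℝ) / ρ) ^ 2 =
        ((n + 1 : ℕ) : ℝ) ^ 2 / (4 * ρ ^ 2) by field_simp; ring, ← add_div]
      apply div_le_div_of_nonneg_right _ (by positivity)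
      push_cast
      nlinarith [Nat.cast_nonneg (α := ℝ) n]
    linarith

end CoverAux

open CoverAux in
theorem covering_radius (n : ℕ) (hn : 0 < n) (E : Type) [NormedAddCommGroup E]
    [InnerProductSpace ℝ E] [FiniteDimensional ℝ E] (b : Module.Basis (Fin n) ℝ E) (ρ : ℝ) (hρ : 0 < ρ)
    (hdual : ∀ φ : E →ₗ[ℝ] ℝ, φ ≠ 0 → (∀ i, ∃ m : ℤ, φ (b i) = m) → ∃ v : E, ‖v‖ ≤ 1 ∧ ρ ≤ |φ v|)
    (x : E) : ∃ z : Fin n → ℤ, ‖x - ∑ i, (z i : ℝ) • b i‖ ≤ (n : ℝ) ^ 2 / ρ := by
  obtain ⟨y, hy, hxy⟩ := cover_step ρ hρ n E b hdual x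
  rw [Submodule.mem_span_range_iff_exists_fun] at hy
  obtain ⟨z, rfl⟩ := hy
  refine ⟨z, ?_⟩
  simp only [Int.cast_smul_eq_zsmul]
  apply le_of_sq_le_sq _ (by positivity)
  refine hxy.trans ?_
  have hn1 : (1 : ℝ) ≤ n := by exact_mod_cast hn
  rw [div_pow, div_le_div_iff₀ (by positivity) (by positivity)]
  have h1 : (n : ℝ) ^ 3 ≤ (n : ℝ) ^ 4 := pow_le_pow_right₀ hn1 (by norm_num)
  have h2 : 0 ≤ ρ ^ 2 := by positivity
  have h3 : (0 : ℝ) ≤ (n : ℝ) ^ 4 := by positivity
  calc (n : ℝ) ^ 3 * ρ ^ 2 ≤ (n : ℝ) ^ 4 * ρ ^ 2 := mul_le_mul_of_nonneg_right h1 h2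
    _ ≤ ((n : ℝ) ^ 2) ^ 2 * (4 * ρ ^ 2) := by nlinarith [mul_nonneg h3 h2]

end Pool.Agent.TraceMin
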