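import Pool.Agent.TraceMin.Defs

/-!
Definitions for the statement of the problem and for certificates.
-/

open MeasureTheory Polynomial Set

namespace Pool.Agent.TraceMin

/-- `α` is a totally positive algebraic integer: an algebraic integer all of whose conjugates are
real and nonnegative (the convention of the problem). -/
def TotPos (α : ℂ) : Prop :=
  IsIntegral ℤ α ∧ ∀ β ∈ (minpoly ℚ α).aroots ℂ, β.im = 0 ∧ 0 ≤ β.re

/-- the normalised trace: the mean of the conjugates of `α` -/
noncomputable def normTrace (α : ℂ) : ℝ :=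
  ((minpoly ℚ α).aroots ℂ).sum.re / (minpoly ℚ α).natDegree

/-- the Schur-Siegel-Smyth trace constant -/
noncomputable def lambdaSSS : ℝ :=
  Filter.liminf (fun α : {α : ℂ // TotPos α} => normTrace α.1) Filter.cofinite

/-- the finite set of complex roots -/
noncomputable def Zf (Q : ℤ[X]) : Finset ℂ := (Q.aroots ℂ).toFinset

/-- certificate on `[-R,R]` -/
def Cert (R l ε : ℝ) (S : Finset ℤ[X]) (a : ℤ[X] → ℝ) : Prop :=
  (∀ Q ∈ S, Irreducible Q ∧ 0 < Q.natDegree ∧ 0 < Q.leadingCoeff ∧ 0 < a Q) ∧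
  ∀ y ∈ Icc (-R) R, (∀ Q ∈ S, aeval y Q ≠ 0) →
    ∑ Q ∈ S, a Q * Real.log |aeval y Q| ≤ y ^ 2 - l + ε

end Pool.Agent.TraceMin
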