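import Pool.Agent.TraceMin.Defs

/-!
The logarithmic kernel averaged over an interval.
-/

open MeasureTheory Polynomial Set Real

namespace Pool.Agent.TraceMin

/-- average of `log‖w - s‖` over `s ∈ [-r,r]` -/
noncomputable def kr (r : ℝ) (w : ℂ) : ℝ :=
  (1 / (2 * r)) * ∫ s in (-r)..r, Real.log ‖w - (s : ℂ)‖

lemma logNorm_intervalIntegrable (w : ℂ) (a b : ℝ) :
    IntervalIntegrable (fun s : ℝ => Real.log ‖w - (s : ℂ)‖) volume a b := by
  have h : MeromorphicOn (fun s : ℝ => w - (s : ℂ)) (Set.uIcc a b) := by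
    intro x _
    apply AnalyticAt.meromorphicAt
    apply AnalyticAt.sub analyticAt_const
    exact Complex.ofRealCLM.analyticAt x
  exact h.intervalIntegrable_log_norm

lemma ae_ne_real (w : ℂ) (r : ℝ) :
    ∀ᵐ s : ℝ ∂(volume.restrict (Set.Icc (-r) r)), w ≠ (s : ℂ) := by
  apply ae_restrict_of_ae
  have : ∀ᵐ s : ℝ, s ≠ w.re := by
    simp [ae_iff]
  filter_upwards [this] with s hs h
  apply hs
  rw [h]; simp

lemma kr_le (r : ℝ) (hr : 0 < r) (w : ℂ) : kr r w ≤ Real.log (‖w‖ + r) := by
  unfold kr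
  have h1 : (∫ s in (-r)..r, Real.log ‖w - (s : ℂ)‖) ≤ ∫ s in (-r)..r, Real.log (‖w‖ + r) := by
    apply intervalIntegral.integral_mono_ae_restrict (by linarith)
      (logNorm_intervalIntegrable w _ _) (by simp)
    filter_upwards [ae_ne_real w r, ae_restrict_mem measurableSet_Icc] with s hs hs2
    have h0 : 0 < ‖w - (s : ℂ)‖ := norm_pos_iff.mpr (sub_ne_zero.mpr hs)
    apply Real.log_le_log h0
    calc ‖w - (s : ℂ)‖ ≤ ‖w‖ + ‖(s : ℂ)‖ := norm_sub_le _ _
      _ ≤ ‖w‖ + r := by
        gcongr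
        rw [Complex.norm_real, Real.norm_eq_abs]
        exact abs_le.mpr hs2
  rw [intervalIntegral.integral_const, smul_eq_mul] at h1
  have h2 : (0:ℝ) < 1 / (2 * r) := by positivity
  calc (1 / (2 * r)) * ∫ s in (-r)..r, Real.log ‖w - (s : ℂ)‖
      ≤ (1 / (2 * r)) * ((r - -r) * Real.log (‖w‖ + r)) := by gcongr
    _ = Real.log (‖w‖ + r) := by field_simp; ring

lemma le_kr_of_lt (r : ℝ) (hr : 0 < r) (w : ℂ) (hw : r < ‖w‖) :
    Real.log (‖w‖ - r) ≤ kr r w := by
  unfold kr
  have h1 : (∫ s in (-r)..r, Real.log (‖w‖ - r)) ≤ ∫ s in (-r)..r, Real.log ‖w - (s : ℂ)‖ := by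
    apply intervalIntegral.integral_mono_on (by linarith) (by simp)
      (logNorm_intervalIntegrable w _ _)
    intro s hs
    apply Real.log_le_log (by linarith)
    calc ‖w‖ - r ≤ ‖w‖ - ‖(s : ℂ)‖ := by
          gcongr
          rw [Complex.norm_real, Real.norm_eq_abs]
          exact abs_le.mpr hs
      _ ≤ ‖w - (s : ℂ)‖ := norm_sub_norm_le _ _
  rw [intervalIntegral.integral_const, smul_eq_mul] at h1
  have h2 : (0:ℝ) < 1 / (2 * r) := by positivity
  calc Real.log (‖w‖ - r) = (1 / (2 * r)) * ((r - -r) * Real.log (‖w‖ - r)) := by field_simp; ring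
    _ ≤ (1 / (2 * r)) * ∫ s in (-r)..r, Real.log ‖w - (s : ℂ)‖ := by gcongr

/-- the average of `log|u-s|` over `[-r,r]` is at least `log r - 1` -/
lemma integral_log_real_ge (r : ℝ) (hr : 0 < r) (u : ℝ) :
    2 * r * (Real.log r - 1) ≤ ∫ s in (-r)..r, Real.log (u - s) := by
  -- case u in [-r,r]
  have key : ∀ v : ℝ, 0 ≤ v → v ≤ r →
      2 * r * (Real.log r - 1) ≤ ∫ s in (-r)..r, Real.log (v - s) := by
    intro v hv0 hvr
    rw [intervalIntegral.integral_comp_sub_left (fun x => Real.log x) v, integral_log]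
    have hx1 : v + r ∈ Ici (0:ℝ) := by simp; linarith
    have hy1 : r - v ∈ Ici (0:ℝ) := by simp; linarith
    have hc := Real.convexOn_mul_log.2 hx1 hy1
      (show (0:ℝ) ≤ 1/2 by norm_num) (show (0:ℝ) ≤ 1/2 by norm_num) (by norm_num)
    have e1 : (1/2 : ℝ) • (v + r) + (1/2 : ℝ) • (r - v) = r := by simp; ring
    rw [e1] at hc
    simp only [smul_eq_mul] at hc
    have e2 : Real.log (v - r) = Real.log (r - v) := by
      rw [← Real.log_neg_eq_log, neg_sub]
    have e3 : v - -r = v + r := by ring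
    rw [e3, e2]
    nlinarith
  have key2 : ∀ v : ℝ, 0 ≤ v → 2 * r * (Real.log r - 1) ≤ ∫ s in (-r)..r, Real.log (v - s) := by
    intro v hv0
    rcases le_total v r with h | h
    · exact key v hv0 h
    · refine (key r hr.le le_rfl).trans ?_
      have hi : ∀ u : ℝ, IntervalIntegrable (fun s => Real.log (u - s)) volume (-r) r := by
        intro u
        have := (intervalIntegral.intervalIntegrable_log' (a := u - (-r)) (b := u - r)).comp_sub_left u
        simpa using this
      apply intervalIntegral.integral_mono_ae_restrict (by linarith) (hi r) (hi v)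
      have hae : ∀ᵐ s : ℝ ∂(volume.restrict (Set.Icc (-r) r)), s ≠ r := by
        apply ae_restrict_of_ae
        simp [ae_iff]
      filter_upwards [hae, ae_restrict_mem measurableSet_Icc] with s hs hs2
      apply Real.log_le_log
      · have := lt_of_le_of_ne hs2.2 hs
        linarith
      · linarith
  rcases le_total 0 u with h | h
  · exact key2 u h
  · have h1 := key2 (-u) (by linarith)
    have h2 : (∫ s in (-r)..r, Real.log (-u - s)) = ∫ s in (-r)..r, Real.log (u - s) := by
      have h3 := intervalIntegral.integral_comp_neg (a := -r) (b := r) (fun s => Real.log (-u - s))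
      rw [neg_neg] at h3
      rw [← h3]
      congr 1
      ext s
      rw [← Real.log_neg_eq_log]
      congr 1
      ring
    rw [h2] at h1
    exact h1

lemma kr_ge (r : ℝ) (hr : 0 < r) (w : ℂ) : Real.log r - 1 ≤ kr r w := by
  unfold kr
  have h1 := integral_log_real_ge r hr w.re
  have hi : ∀ u : ℝ, IntervalIntegrable (fun s => Real.log (u - s)) volume (-r) r := by
    intro u
    have := (intervalIntegral.intervalIntegrable_log' (a := u - (-r)) (b := u - r)).comp_sub_left u
    simpa using this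
  have h2 : (∫ s in (-r)..r, Real.log (w.re - s)) ≤ ∫ s in (-r)..r, Real.log ‖w - (s : ℂ)‖ := by
    apply intervalIntegral.integral_mono_ae_restrict (by linarith) (hi _)
      (logNorm_intervalIntegrable w _ _)
    have hae : ∀ᵐ s : ℝ ∂(volume.restrict (Set.Icc (-r) r)), s ≠ w.re := by
      apply ae_restrict_of_ae
      simp [ae_iff]
    filter_upwards [hae] with s hs
    rw [← Real.log_abs]
    apply Real.log_le_log
    · exact abs_pos.mpr (sub_ne_zero.mpr hs.symm)
    · have := Complex.abs_re_le_norm (w - (s : ℂ))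
      simpa using this
  have h3 : (0:ℝ) < 1 / (2 * r) := by positivity
  calc Real.log r - 1 = (1 / (2 * r)) * (2 * r * (Real.log r - 1)) := by field_simp
    _ ≤ (1 / (2 * r)) * ∫ s in (-r)..r, Real.log ‖w - (s : ℂ)‖ := by
      gcongr; linarith

lemma kr_ge_lam (r : ℝ) (hr : 0 < r) (w : ℂ) :
    lam r w - 10 * r ^ 2 / (r ^ 2 + ‖w‖ ^ 2) ≤ kr r w := by
  have hr2 : 0 < r ^ 2 := by positivity
  rcases le_total ‖w‖ (2 * r) with h | h
  · have h1 := kr_ge r hr w
    have h2 : ‖w‖ ^ 2 ≤ 4 * r ^ 2 := by nlinarith [norm_nonneg w]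
    have h3 : lam r w ≤ Real.log r + 0.81 := by
      unfold lam
      have h4 : Real.log (‖w‖ ^ 2 + r ^ 2) ≤ Real.log (5 * r ^ 2) := by
        apply Real.log_le_log (by positivity)
        linarith
      rw [Real.log_mul (by norm_num) (by positivity), Real.log_pow] at h4
      have h5 : Real.log 5 ≤ 1.62 := by
        rw [Real.log_le_iff_le_exp (by norm_num)]
        have h6 : Real.exp 1.62 = Real.exp 1 * Real.exp 0.62 := by
          rw [← Real.exp_add]; norm_num
        have h7 := Real.exp_one_gt_d9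
        have h8 : (1.84 : ℝ) ≤ Real.exp 0.62 := by
          have h9 := Real.quadratic_le_exp_of_nonneg (x := 0.62) (by norm_num)
          have h10 : Real.exp 0.62 = Real.exp 0.31 * Real.exp 0.31 := by
            rw [← Real.exp_add]; norm_num
          have h11 := Real.quadratic_le_exp_of_nonneg (x := 0.31) (by norm_num)
          rw [h10]
          nlinarith
        rw [h6]
        nlinarith [Real.exp_pos 0.62]
      push_cast at h4
      linarith
    have h6 : (2:ℝ) ≤ 10 * r ^ 2 / (r ^ 2 + ‖w‖ ^ 2) := by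
      rw [le_div_iff₀ (by positivity)]
      linarith
    linarith
  · have hw : r < ‖w‖ := by linarith
    have h1 : kr r w ≥ Real.log (‖w‖ ^ 2 - r ^ 2) / 2 := by
      unfold kr
      have e1 : (∫ s in (-r)..r, Real.log ‖w - (s : ℂ)‖) = ∫ s in (-r)..r, Real.log ‖w + (s : ℂ)‖ := by
        have h3 := intervalIntegral.integral_comp_neg (a := -r) (b := r)
          (fun s : ℝ => Real.log ‖w - (s : ℂ)‖)
        rw [neg_neg] at h3
        rw [← h3]
        congr 1
        ext s
        simp
      have hi2 : IntervalIntegrable (fun s : ℝ => Real.log ‖w + (s : ℂ)‖) volume (-r) r := by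
        have h5 := logNorm_intervalIntegrable (-w) (-r) r
        have e5 : (fun s : ℝ => Real.log ‖-w - (s : ℂ)‖) = fun s : ℝ => Real.log ‖w + (s : ℂ)‖ := by
          ext s
          rw [← norm_neg]
          congr 2
          ring
        rw [e5] at h5
        exact h5
      have e2 : (∫ s in (-r)..r, Real.log ‖w - (s : ℂ)‖) =
          ∫ s in (-r)..r, (Real.log ‖w - (s : ℂ)‖ + Real.log ‖w + (s : ℂ)‖) / 2 := by
        rw [intervalIntegral.integral_div, intervalIntegral.integral_add
          (logNorm_intervalIntegrable w _ _) hi2, ← e1]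
        ring
      have h2 : (∫ s in (-r)..r, Real.log (‖w‖ ^ 2 - r ^ 2) / 2) ≤
          ∫ s in (-r)..r, (Real.log ‖w - (s : ℂ)‖ + Real.log ‖w + (s : ℂ)‖) / 2 := by
        apply intervalIntegral.integral_mono_on (by linarith) (by simp)
          (((logNorm_intervalIntegrable w _ _).add hi2).div_const 2)
        intro s hs
        have hs1 : ‖(s : ℂ)‖ ≤ r := by
          rw [Complex.norm_real, Real.norm_eq_abs]
          exact abs_le.mpr hs
        have hp1 : 0 < ‖w - (s : ℂ)‖ := by
          have := norm_sub_norm_le w (s : ℂ)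
          linarith
        have hp2 : 0 < ‖w + (s : ℂ)‖ := by
          have := norm_sub_norm_le w (-(s : ℂ))
          rw [norm_neg, sub_neg_eq_add] at this
          linarith
        rw [← Real.log_mul hp1.ne' hp2.ne', ← norm_mul]
        have e3 : (w - (s : ℂ)) * (w + s) = w ^ 2 - (s : ℂ) ^ 2 := by ring
        rw [e3]
        have h4 : ‖w‖ ^ 2 - r ^ 2 ≤ ‖w ^ 2 - (s : ℂ) ^ 2‖ := by
          calc ‖w‖ ^ 2 - r ^ 2 ≤ ‖w‖ ^ 2 - ‖(s : ℂ)‖ ^ 2 := by
                have : ‖(s : ℂ)‖ ^ 2 ≤ r ^ 2 := by gcongr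
                linarith
            _ = ‖w ^ 2‖ - ‖(s : ℂ) ^ 2‖ := by rw [norm_pow, norm_pow]
            _ ≤ _ := norm_sub_norm_le _ _
        have h5 : 0 < ‖w‖ ^ 2 - r ^ 2 := by nlinarith
        have h6 := Real.log_le_log h5 h4
        linarith
      rw [← e2, intervalIntegral.integral_const, smul_eq_mul] at h2
      have h7 : (0:ℝ) < 1 / (2 * r) := by positivity
      calc (1 / (2 * r)) * ∫ s in (-r)..r, Real.log ‖w - (s : ℂ)‖ ≥
          (1 / (2 * r)) * ((r - -r) * (Real.log (‖w‖ ^ 2 - r ^ 2) / 2)) := by gcongr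
        _ = Real.log (‖w‖ ^ 2 - r ^ 2) / 2 := by field_simp; ring
    have hw2 : 4 * r ^ 2 ≤ ‖w‖ ^ 2 := by nlinarith [norm_nonneg w]
    set A := r ^ 2 + ‖w‖ ^ 2 with hA
    have hApos : 0 < A := by positivity
    have e4 : ‖w‖ ^ 2 - r ^ 2 = A * (1 - 2 * r ^ 2 / A) := by
      field_simp
      rw [hA]; ring
    have ht : 2 * r ^ 2 / A ≤ 2 / 5 := by
      rw [div_le_div_iff₀ hApos (by norm_num)]
      rw [hA]; linarith
    have ht0 : 0 < 2 * r ^ 2 / A := by positivity
    have h8 : Real.log (‖w‖ ^ 2 - r ^ 2) = Real.log A + Real.log (1 - 2 * r ^ 2 / A) := by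
      rw [e4, Real.log_mul hApos.ne' (by linarith)]
    have h9 : Real.log (1 - 2 * r ^ 2 / A) ≥ -(5/3) * (2 * r ^ 2 / A) := by
      have h10 := Real.one_sub_inv_le_log_of_pos (x := 1 - 2 * r ^ 2 / A) (by linarith)
      set t := 2 * r ^ 2 / A with htdef
      have h11 : 1 - (1 - t)⁻¹ ≥ -(5/3) * t := by
        have h12 : 0 < 1 - t := by linarith
        have : 1 - (1 - t)⁻¹ = - t / (1 - t) := by field_simp; ring
        rw [this, ge_iff_le, le_div_iff₀ h12]
        nlinarith
      linarith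
    have h10 : lam r w = Real.log A / 2 := by
      unfold lam
      rw [hA, add_comm]
    have h12 : 10 * r ^ 2 / A = 5 * (2 * r ^ 2 / A) := by ring
    rw [h10, h12]
    linarith

lemma lam_ge_log_norm (r : ℝ) (w : ℂ) (hw : w ≠ 0) : Real.log ‖w‖ ≤ lam r w := by
  unfold lam
  have h0 : 0 < ‖w‖ := norm_pos_iff.mpr hw
  have : Real.log (‖w‖ ^ 2) ≤ Real.log (‖w‖ ^ 2 + r ^ 2) := by
    apply Real.log_le_log (by positivity)
    nlinarith [sq_nonneg r]
  rw [Real.log_pow] at this
  push_cast at this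
  linarith

lemma lam_ge_log_r (r : ℝ) (hr : 0 < r) (w : ℂ) : Real.log r ≤ lam r w := by
  unfold lam
  have : Real.log (r ^ 2) ≤ Real.log (‖w‖ ^ 2 + r ^ 2) := by
    apply Real.log_le_log (by positivity)
    nlinarith [sq_nonneg ‖w‖]
  rw [Real.log_pow] at this
  push_cast at this
  linarith

lemma lam_le (r : ℝ) (hr : 0 < r) (w : ℂ) : lam r w ≤ Real.log (‖w‖ + r) := by
  unfold lam
  have : Real.log (‖w‖ ^ 2 + r ^ 2) ≤ Real.log ((‖w‖ + r) ^ 2) := by
    apply Real.log_le_log (by positivity)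
    nlinarith [norm_nonneg w]
  rw [Real.log_pow] at this
  push_cast at this
  linarith

lemma lam_continuous (r : ℝ) (hr : 0 < r) : Continuous (lam r) := by
  unfold lam
  apply Continuous.div_const
  apply Continuous.log (by fun_prop)
  intro w
  positivity

lemma lam_neg (r : ℝ) (w : ℂ) : lam r (-w) = lam r w := by simp [lam]

lemma kr_measurable (r : ℝ) : Measurable (kr r) := by
  unfold kr
  apply Measurable.const_mul
  have : (fun w : ℂ => ∫ s in (-r)..r, Real.log ‖w - (s : ℂ)‖) =
      fun w : ℂ => (∫ s in Ioc (-r) r, Real.log ‖w - (s : ℂ)‖) -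
        ∫ s in Ioc r (-r), Real.log ‖w - (s : ℂ)‖ := by
    ext w; rfl
  rw [this]
  have hm : Measurable (fun p : ℂ × ℝ => Real.log ‖p.1 - (p.2 : ℂ)‖) := by
    apply Real.measurable_log.comp
    fun_prop
  apply Measurable.sub
  · exact (hm.stronglyMeasurable.integral_prod_right' (ν := volume.restrict (Ioc (-r) r))).measurable
  · exact (hm.stronglyMeasurable.integral_prod_right' (ν := volume.restrict (Ioc r (-r)))).measurable

/-- `kr` bounded below by the logarithm, up to a constant -/
lemma kr_ge_log_add (r : ℝ) (hr : 0 < r) (w : ℂ) : Real.log (‖w‖ + r) - 11 ≤ kr r w := by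
  have h1 := kr_ge_lam r hr w
  have h2 : 10 * r ^ 2 / (r ^ 2 + ‖w‖ ^ 2) ≤ 10 := by
    rw [div_le_iff₀ (by positivity)]
    nlinarith [sq_nonneg ‖w‖]
  have h3 : Real.log (‖w‖ + r) - 1 ≤ lam r w := by
    unfold lam
    have h4 : Real.log ((‖w‖ + r) ^ 2) ≤ Real.log (2 * (‖w‖ ^ 2 + r ^ 2)) := by
      apply Real.log_le_log (by positivity)
      nlinarith [sq_nonneg (‖w‖ - r)]
    rw [Real.log_pow, Real.log_mul (by norm_num) (by positivity)] at h4
    have h5 := Real.log_two_lt_d9
    push_cast at h4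
    linarith
  linarith

/-- the average over `[-8,8]` -/
lemma kr_eight (α : ℂ) : (1 + max 0 (Real.log ‖α‖)) / 4 ≤ kr 8 α := by
  have hlog2 := Real.log_two_gt_d9
  have hlog2' := Real.log_two_lt_d9
  have h8 : Real.log 8 = 3 * Real.log 2 := by
    rw [show (8:ℝ) = 2 ^ 3 by norm_num, Real.log_pow]; norm_num
  have h16 : Real.log 16 = 4 * Real.log 2 := by
    rw [show (16:ℝ) = 2 ^ 4 by norm_num, Real.log_pow]; norm_num
  rcases le_total ‖α‖ 16 with h | h
  · have h1 := kr_ge 8 (by norm_num) α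
    have h2 : max 0 (Real.log ‖α‖) ≤ Real.log 16 := by
      apply max_le (by rw [h16]; linarith)
      rcases (norm_nonneg α).eq_or_lt with h0 | h0
      · rw [← h0, Real.log_zero]; rw [h16]; linarith
      · exact Real.log_le_log h0 h
    linarith
  · have h1 := le_kr_of_lt 8 (by norm_num) α (by linarith)
    have h2 : Real.log (‖α‖ / 2) ≤ Real.log (‖α‖ - 8) := by
      apply Real.log_le_log (by linarith)
      linarith
    rw [Real.log_div (by linarith) (by norm_num)] at h2
    have h3 : Real.log 16 ≤ Real.log ‖α‖ := Real.log_le_log (by norm_num) h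
    have h4 : max 0 (Real.log ‖α‖) = Real.log ‖α‖ := by
      apply max_eq_right; linarith
    rw [h4]
    linarith

end Pool.Agent.TraceMin
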