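import Pool.Agent.TraceMin.Regular
import Pool.Agent.TraceMin.Kern
import Pool.Agent.TraceMin.Defs3

/-!
Module T23: an arithmetic measure with minimal second moment lives on `[-12,12]`.
-/

open MeasureTheory Polynomial Set

namespace Pool.Agent.TraceMin

namespace Cut

/-- the uniform measure on `[-8,8]` -/
noncomputable def un : Measure ℝ := ENNReal.ofReal (1 / 16) • volume.restrict (Icc (-8 : ℝ) 8)

theorem un_univ : un univ = 1 := by
  unfold un
  rw [Measure.smul_apply, Measure.restrict_apply_univ, Real.volume_Icc, smul_eq_mul,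
    ← ENNReal.ofReal_mul (by norm_num)]
  norm_num

instance : IsProbabilityMeasure un := ⟨un_univ⟩

theorem un_integral (f : ℝ → ℝ) : ∫ x, f x ∂un = (1 / 16) * ∫ x in (-8 : ℝ)..8, f x := by
  unfold un
  rw [integral_smul_measure, ENNReal.toReal_ofReal (by norm_num), smul_eq_mul,
    integral_Icc_eq_integral_Ioc, ← intervalIntegral.integral_of_le (by norm_num)]

theorem un_integrable {f : ℝ → ℝ} (hf : IntervalIntegrable f volume (-8) 8) : Integrable f un := by
  unfold un
  refine Integrable.smul_measure ?_ ENNReal.ofReal_ne_top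
  exact (intervalIntegrable_iff_integrableOn_Icc_of_le (by norm_num)).mp hf

/-- sum of the averaged kernels -/
noncomputable def Ksum (s : Multiset ℂ) : ℝ := (s.map fun α => kr 8 α).sum

theorem log_eight : 2 ≤ Real.log 8 := by
  have h := Real.log_two_gt_d9
  rw [show (8:ℝ) = 2 ^ 3 by norm_num, Real.log_pow]
  push_cast
  linarith

theorem kr_ge_one (α : ℂ) : 1 ≤ kr 8 α := by
  have := kr_ge 8 (by norm_num) α
  linarith [log_eight]

theorem Lsum_integral (s : Multiset ℂ) :
    ∫ x in (-8 : ℝ)..8, Regularise.Lsum s x = 16 * Ksum s := by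
  induction s using Multiset.induction_on with
  | empty => simp [Ksum]
  | cons a s ih =>
    simp only [Regularise.Lsum_cons, Ksum, Multiset.map_cons, Multiset.sum_cons]
    rw [intervalIntegral.integral_add (Regularise.ii_log a _ _) (Regularise.ii_Lsum _ _ _), ih]
    have h1 : ∫ x in (-8 : ℝ)..8, Real.log ‖(x : ℂ) - a‖ = 16 * kr 8 a := by
      unfold kr
      simp only [norm_sub_rev]
      ring
    rw [h1, Ksum]
    ring

/-- the key pointwise inequality -/
theorem key (t : ℝ) (ht : 12 < |t|) (α : ℂ) :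
    Real.log ‖(t : ℂ) - α‖ ≤ Real.log (2 * |t|) * kr 8 α := by
  have hL : 1 ≤ Real.log (2 * |t|) := by
    have h1 : Real.log 8 ≤ Real.log (2 * |t|) := Real.log_le_log (by norm_num) (by linarith)
    linarith [log_eight]
  have hnt : ‖(t : ℂ)‖ = |t| := by rw [Complex.norm_real, Real.norm_eq_abs]
  have htri : ‖(t : ℂ) - α‖ ≤ |t| + ‖α‖ := by
    have := norm_sub_le (t : ℂ) α
    rwa [hnt] at this
  rcases eq_or_ne (t : ℂ) α with heq | hne
  · rw [heq, sub_self, norm_zero, Real.log_zero]
    have := kr_ge_one α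
    positivity
  have hpos : 0 < ‖(t : ℂ) - α‖ := norm_pos_iff.2 (sub_ne_zero.2 hne)
  rcases le_or_gt ‖α‖ |t| with h | h
  · have h1 : Real.log ‖(t : ℂ) - α‖ ≤ Real.log (2 * |t|) := Real.log_le_log hpos (by linarith)
    have h2 := kr_ge_one α
    nlinarith
  · have h1 : Real.log ‖(t : ℂ) - α‖ ≤ Real.log (|t| + ‖α‖) := Real.log_le_log hpos htri
    have h2 : Real.log (‖α‖ - 8) ≤ kr 8 α := le_kr_of_lt 8 (by norm_num) α (by linarith)
    set a := ‖α‖ with ha
    set τ := |t| with hτ
    have h3 : Real.log (τ + a) = Real.log (2 * τ) + Real.log ((τ + a) / (2 * τ)) := by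
      rw [← Real.log_mul (by linarith) (by positivity)]
      congr 1
      field_simp
    have h4 : Real.log (a - 8) = Real.log (τ - 8) + Real.log ((a - 8) / (τ - 8)) := by
      rw [← Real.log_mul (by linarith) (by
        have : 0 < (a - 8) / (τ - 8) := div_pos (by linarith) (by linarith)
        exact this.ne')]
      congr 1
      have : τ - 8 ≠ 0 := by linarith
      field_simp
    have h5 : (τ + a) / (2 * τ) ≤ (a - 8) / (τ - 8) := by
      rw [div_le_div_iff₀ (by linarith) (by linarith)]
      nlinarith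
    have h6 : Real.log ((τ + a) / (2 * τ)) ≤ Real.log ((a - 8) / (τ - 8)) :=
      Real.log_le_log (by positivity) h5
    have h7 : 0 ≤ Real.log ((τ + a) / (2 * τ)) := by
      refine Real.log_nonneg ?_
      rw [le_div_iff₀ (by linarith)]
      linarith
    have h8 : 1 ≤ Real.log (τ - 8) := by
      have h9 : Real.log 4 ≤ Real.log (τ - 8) := Real.log_le_log (by norm_num) (by linarith)
      have h10 : Real.log 4 = 2 * Real.log 2 := by
        rw [show (4:ℝ) = 2 ^ 2 by norm_num, Real.log_pow]; push_cast; ring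
      have := Real.log_two_gt_d9
      linarith
    have h9 : Real.log (τ + a) ≤ Real.log (2 * τ) * Real.log (a - 8) := by
      rw [h3, h4]
      nlinarith
    have h10 : Real.log (2 * τ) * Real.log (a - 8) ≤ Real.log (2 * τ) * kr 8 α :=
      mul_le_mul_of_nonneg_left h2 (by linarith)
    linarith

theorem Lsum_le (t : ℝ) (ht : 12 < |t|) (s : Multiset ℂ) :
    Regularise.Lsum s t ≤ Real.log (2 * |t|) * Ksum s := by
  induction s using Multiset.induction_on with
  | empty => simp [Ksum]
  | cons a s ih =>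
    simp only [Regularise.Lsum_cons, Ksum, Multiset.map_cons, Multiset.sum_cons, mul_add]
    exact add_le_add (key t ht a) ih

theorem log_sq (t : ℝ) (ht : 12 < |t|) : 64 / 3 * Real.log (2 * |t|) + 1 ≤ t ^ 2 := by
  have h1 : Real.log (2 * |t|) = Real.log 24 + Real.log (|t| / 12) := by
    rw [← Real.log_mul (by norm_num) (by positivity)]
    congr 1
    ring
  have h2 : Real.log 24 ≤ 3.5 := by
    have h3 : Real.log 24 ≤ Real.log 32 := Real.log_le_log (by norm_num) (by norm_num)
    have h4 : Real.log 32 = 5 * Real.log 2 := by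
      rw [show (32:ℝ) = 2 ^ 5 by norm_num, Real.log_pow]; push_cast; ring
    have := Real.log_two_lt_d9
    norm_num at *
    linarith
  have h3 : Real.log (|t| / 12) ≤ |t| / 12 - 1 := Real.log_le_sub_one_of_pos (by positivity)
  have h4 : t ^ 2 = |t| ^ 2 := (sq_abs t).symm
  rw [h4, h1]
  nlinarith

end Cut

open Cut in
theorem cut (μ : Measure ℝ) [IsProbabilityMeasure μ] (T : ℝ) (hT : μ (Icc (-T) T)ᶜ = 0) (hμ : IsArith μ) :
    ∃ ν : Measure ℝ, IsProbabilityMeasure ν ∧ ν (Icc (-12) 12)ᶜ = 0 ∧ IsArith ν ∧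
      ∫ y, y ^ 2 ∂ν ≤ ∫ y, y ^ 2 ∂μ ∧
      (μ (Icc (-12) 12)ᶜ ≠ 0 → ∫ y, y ^ 2 ∂ν < ∫ y, y ^ 2 ∂μ) := by
  set B : Set ℝ := Icc (-12) 12 with hB
  have hBm : MeasurableSet B := measurableSet_Icc
  have hE : ∀ t ∈ Bᶜ, 12 < |t| := by
    intro t ht
    by_contra h
    push Not at h
    exact ht (abs_le.1 h)
  have haeT : ∀ᵐ t ∂μ, t ∈ Icc (-T) T := hT
  have haeT' : ∀ᵐ t ∂μ, |t| ≤ |T| := by
    filter_upwards [haeT] with t ht
    rw [abs_le]
    constructor
    · linarith [ht.1, le_abs_self T]
    · linarith [ht.2, le_abs_self T]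
  -- integrability
  have hi2 : Integrable (fun y : ℝ => y ^ 2) μ := by
    refine Integrable.of_bound (by fun_prop) (T ^ 2) ?_
    filter_upwards [haeT'] with t ht
    rw [Real.norm_eq_abs, abs_of_nonneg (sq_nonneg t)]
    exact sq_le_sq.2 ht
  have hil : IntegrableOn (fun y : ℝ => Real.log (2 * |y|)) Bᶜ μ := by
    have hmeas : Measurable fun y : ℝ => Real.log (2 * |y|) := by fun_prop
    refine Measure.integrableOn_of_bounded (M := Real.log (2 * |T|)) (measure_ne_top _ _)
      hmeas.aestronglyMeasurable ?_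
    filter_upwards [ae_restrict_mem hBm.compl, ae_restrict_of_ae haeT'] with t ht ht2
    have h1 := hE t ht
    rw [Real.norm_eq_abs, abs_of_nonneg (Real.log_nonneg (by linarith))]
    exact Real.log_le_log (by linarith) (by linarith)
  set κ : ℝ := ∫ y in Bᶜ, Real.log (2 * |y|) ∂μ with hκ
  have hκE : μ.real Bᶜ ≤ κ := by
    have h1 : ∫ y in Bᶜ, (1:ℝ) ∂μ ≤ κ := by
      refine setIntegral_mono_on (integrable_const _) hil hBm.compl ?_
      intro t ht
      have h1 := hE t ht
      have h2 : Real.log 8 ≤ Real.log (2 * |t|) := Real.log_le_log (by norm_num) (by linarith)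
      linarith [log_eight]
    simpa using h1
  have hκ0 : 0 ≤ κ := measureReal_nonneg.trans hκE
  set m : ℝ := μ.real B + κ with hm
  have hm1 : 1 ≤ m := by
    have : μ.real B + μ.real Bᶜ = 1 := by
      rw [measureReal_add_measureReal_compl hBm]
      simp
    linarith
  have hmpos : 0 < m := by linarith
  set ν : Measure ℝ := ENNReal.ofReal m⁻¹ • (μ.restrict B + ENNReal.ofReal κ • un) with hν
  have hνint : ∀ f : ℝ → ℝ, IntegrableOn f B μ → Integrable f un →
      ∫ x, f x ∂ν = m⁻¹ * (∫ x in B, f x ∂μ + κ * ∫ x, f x ∂un) := by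
    intro f h1 h2
    rw [hν, integral_smul_measure, ENNReal.toReal_ofReal (by positivity), smul_eq_mul,
      integral_add_measure h1 (h2.smul_measure ENNReal.ofReal_ne_top), integral_smul_measure,
      ENNReal.toReal_ofReal hκ0, smul_eq_mul]
  have hνi : ∀ f : ℝ → ℝ, IntegrableOn f B μ → Integrable f un → Integrable f ν := by
    intro f h1 h2
    have h3 : Integrable f (μ.restrict B) := h1
    exact (Integrable.add_measure h3 (h2.smul_measure ENNReal.ofReal_ne_top)).smul_measure
      ENNReal.ofReal_ne_top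
  have hsq_un : ∫ x, x ^ 2 ∂un = 64 / 3 := by
    rw [un_integral, integral_pow]
    norm_num
  have hsq_i : Integrable (fun x : ℝ => x ^ 2) un :=
    un_integrable (by
      apply Continuous.intervalIntegrable
      fun_prop)
  have hsqν : ∫ y, y ^ 2 ∂ν = m⁻¹ * (∫ x in B, x ^ 2 ∂μ + κ * (64 / 3)) := by
    rw [hνint _ hi2.integrableOn hsq_i, hsq_un]
  have hsqB : 0 ≤ ∫ x in B, x ^ 2 ∂μ := integral_nonneg fun x => sq_nonneg x
  have hle1 : m⁻¹ * (∫ x in B, x ^ 2 ∂μ + κ * (64 / 3)) ≤ ∫ x in B, x ^ 2 ∂μ + κ * (64 / 3) := by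
    have h1 : m⁻¹ ≤ 1 := inv_le_one_of_one_le₀ hm1
    have h2 : 0 ≤ ∫ x in B, x ^ 2 ∂μ + κ * (64 / 3) := by positivity
    nlinarith
  have hle2 : κ * (64 / 3) + μ.real Bᶜ ≤ ∫ x in Bᶜ, x ^ 2 ∂μ := by
    have h1 : ∫ y in Bᶜ, (64 / 3 * Real.log (2 * |y|) + 1) ∂μ ≤ ∫ y in Bᶜ, y ^ 2 ∂μ := by
      refine setIntegral_mono_on ((hil.const_mul _).add (integrable_const _)) hi2.integrableOn
        hBm.compl ?_
      intro t ht
      exact log_sq t (hE t ht)
    rw [integral_add (hil.const_mul _) (integrable_const _), integral_const_mul] at h1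
    simp only [integral_const, measureReal_restrict_apply_univ, smul_eq_mul, mul_one] at h1
    linarith
  have hsplit : ∫ y, y ^ 2 ∂μ = ∫ x in B, x ^ 2 ∂μ + ∫ x in Bᶜ, x ^ 2 ∂μ :=
    (integral_add_compl hBm hi2).symm
  refine ⟨ν, ?_, ?_, ?_, ?_, ?_⟩
  · refine ⟨?_⟩
    rw [hν, Measure.smul_apply, Measure.add_apply, Measure.smul_apply, un_univ,
      Measure.restrict_apply_univ, smul_eq_mul, smul_eq_mul, mul_one]
    have h1 : μ B = ENNReal.ofReal (μ.real B) := by
      rw [measureReal_def, ENNReal.ofReal_toReal (measure_ne_top _ _)]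
    rw [h1, ← ENNReal.ofReal_add measureReal_nonneg hκ0, ← ENNReal.ofReal_mul (by positivity),
      ← hm, inv_mul_cancel₀ hmpos.ne']
    simp
  · rw [hν, Measure.smul_apply, Measure.add_apply, Measure.smul_apply,
      Measure.restrict_apply hBm.compl, compl_inter_self, measure_empty]
    have h1 : un Bᶜ = 0 := by
      unfold un
      rw [Measure.smul_apply, Measure.restrict_apply hBm.compl]
      have : Bᶜ ∩ Icc (-8:ℝ) 8 = ∅ := by
        ext x
        simp only [mem_inter_iff, mem_empty_iff_false, iff_false, not_and]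
        intro h1 h2
        exact h1 (show x ∈ Icc (-12:ℝ) 12 from ⟨by linarith [h2.1], by linarith [h2.2]⟩)
      rw [this]; simp
    rw [h1]; simp
  · intro Q hQ
    obtain ⟨h1, h2, h3⟩ := hμ Q hQ
    have hiu : Integrable (fun x : ℝ => Real.log |aeval x Q|) un := by
      refine un_integrable ?_
      have h4 : IntervalIntegrable (fun x : ℝ => Real.log |(Q.leadingCoeff : ℝ)| +
          Regularise.Lsum (Q.aroots ℂ) x) volume (-8) 8 :=
        intervalIntegrable_const.add (Regularise.ii_Lsum _ _ _)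
      refine h4.congr_ae ?_
      refine ae_restrict_of_ae ?_
      filter_upwards [Regularise.ae_logQ Q hQ] with x hx
      exact hx.symm
    have hmQ : ∫ x, Real.log |aeval x Q| ∂un =
        Real.log |(Q.leadingCoeff : ℝ)| + Ksum (Q.aroots ℂ) := by
      rw [un_integral]
      have h4 : ∫ x in (-8:ℝ)..8, Real.log |aeval x Q| = ∫ x in (-8:ℝ)..8,
          (Real.log |(Q.leadingCoeff : ℝ)| + Regularise.Lsum (Q.aroots ℂ) x) := by
        refine intervalIntegral.integral_congr_ae ?_
        filter_upwards [Regularise.ae_logQ Q hQ] with x hx _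
        exact hx
      rw [h4, intervalIntegral.integral_add intervalIntegrable_const (Regularise.ii_Lsum _ _ _),
        Lsum_integral, intervalIntegral.integral_const, smul_eq_mul]
      ring
    refine ⟨?_, hνi _ h2.integrableOn hiu, ?_⟩
    · rw [hν, Measure.smul_apply, Measure.add_apply, Measure.smul_apply]
      have h4 : μ.restrict B {x : ℝ | aeval x Q = 0} = 0 :=
        nonpos_iff_eq_zero.1 ((Measure.restrict_apply_le _ _).trans h1.le)
      have h5 : un {x : ℝ | aeval x Q = 0} = 0 := by
        unfold un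
        rw [Measure.smul_apply]
        have : volume.restrict (Icc (-8:ℝ) 8) {x : ℝ | aeval x Q = 0} = 0 :=
          nonpos_iff_eq_zero.1 ((Measure.restrict_apply_le _ _).trans
            (Regularise.zero_set_null Q hQ).le)
        rw [this]; simp
      rw [h4, h5]; simp
    · rw [hνint _ h2.integrableOn hiu]
      refine mul_nonneg (by positivity) ?_
      have h4 : ∫ x in Bᶜ, Real.log |aeval x Q| ∂μ ≤ κ * ∫ x, Real.log |aeval x Q| ∂un := by
        rw [hκ, ← integral_mul_const]
        refine setIntegral_mono_on_ae h2.integrableOn (hil.mul_const _) hBm.compl ?_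
        have h5 : ∀ᵐ x ∂μ, aeval x Q ≠ 0 := by
          rw [ae_iff]
          simpa using h1
        filter_upwards [h5] with t ht htB
        have h6 := hE t htB
        rw [hmQ, Regularise.log_aeval Q hQ t ht]
        have h7 := Lsum_le t h6 (Q.aroots ℂ)
        have h8 := Regularise.lc_nonneg Q hQ
        have h9 : 1 ≤ Real.log (2 * |t|) := by
          have h10 : Real.log 8 ≤ Real.log (2 * |t|) := Real.log_le_log (by norm_num) (by linarith)
          linarith [log_eight]
        nlinarith
      have h5 : ∫ x, Real.log |aeval x Q| ∂μ = ∫ x in B, Real.log |aeval x Q| ∂μ +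
          ∫ x in Bᶜ, Real.log |aeval x Q| ∂μ := (integral_add_compl hBm h2).symm
      linarith
  · rw [hsqν, hsplit]
    have : 0 ≤ μ.real Bᶜ := measureReal_nonneg
    linarith
  · intro hne
    rw [hsqν, hsplit]
    have : 0 < μ.real Bᶜ := by
      rw [measureReal_def]
      exact ENNReal.toReal_pos hne (measure_ne_top _ _)
    linarith

end Pool.Agent.TraceMin
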