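import Mathlib

/-!
Definitions for the problem on trace-minimising arithmetic measures.
-/

open MeasureTheory Polynomial

namespace Pool.Agent.TraceMin

/-- A measure on the real line is arithmetic if for every nonzero integer polynomial `Q`
the function `log|Q|` has a well defined finite integral, and this integral is nonnegative. -/
def IsArith (μ : Measure ℝ) : Prop :=
  ∀ Q : ℤ[X], Q ≠ 0 →
    μ {x : ℝ | aeval x Q = 0} = 0 ∧
    Integrable (fun x : ℝ => Real.log |aeval x Q|) μ ∧
    0 ≤ ∫ x : ℝ, Real.log |aeval x Q| ∂μ

/-- The smoothed logarithmic kernel. -/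
noncomputable def lam (r : ℝ) (w : ℂ) : ℝ := Real.log (‖w‖ ^ 2 + r ^ 2) / 2

end Pool.Agent.TraceMin
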