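import Pool.Agent.TraceMin.Defs

/-!
Auxiliary definitions for the second part (trace form of the theorem of Smith).
-/

open MeasureTheory Polynomial Set

namespace Pool.Agent.TraceMin

/-- the functional with `phi (X^j) = c j` for `j ≤ 2a-2` -/
noncomputable def phi (a : ℕ) (c : ℕ → ℤ) (P : ℝ[X]) : ℝ :=
  ∑ j ∈ Finset.range (2 * a - 1), (c j : ℝ) * P.coeff j

/-- the counting function of `y 0, ..., y (K-1)` differs from `K μ(-∞,t)` by at most `s` -/
def Disc (μ : Measure ℝ) (K : ℕ) (y : Fin K → ℝ) (s : ℝ) : Prop :=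
  ∀ t : ℝ, |((Finset.univ.filter (fun i => y i < t)).card : ℝ) - K * μ.real (Iio t)| ≤ s ∧
    |((Finset.univ.filter (fun i => y i ≤ t)).card : ℝ) - K * μ.real (Iic t)| ≤ s

/-- probability measure on `[0,M]` with density at most `Cf` -/
def Reg (M Cf : ℝ) (μ : Measure ℝ) : Prop :=
  IsProbabilityMeasure μ ∧ μ (Icc 0 M)ᶜ = 0 ∧
    ∀ a b : ℝ, a ≤ b → μ (Icc a b) ≤ ENNReal.ofReal (Cf * (b - a))

end Pool.Agent.TraceMin
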