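import Pool.Agent.TraceMin.Defs

/-!
Module T2 (discriminants) for the problem on trace-minimising arithmetic measures.
-/

open MeasureTheory Polynomial Set

namespace Pool.Agent.TraceMin

theorem discr_bound (P : ℤ[X]) (hP : 0 < P.natDegree) (hnd : (P.aroots ℂ).Nodup) :
    -(2 * (P.natDegree : ℝ) - 2) * Real.log |(P.leadingCoeff : ℝ)| ≤
      ∑ α ∈ (P.aroots ℂ).toFinset, ∑ β ∈ (P.aroots ℂ).toFinset.erase α,
        Real.log ‖α - β‖ := by
  classical
  set n := P.natDegree with hn
  have hinj : Function.Injective (Int.castRingHom ℂ) := Int.cast_injective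
  have hP0 : P ≠ 0 := by
    intro h0
    rw [hn, h0] at hP
    simp at hP
  set f : ℂ[X] := P.map (Int.castRingHom ℂ) with hf
  have hfdeg : f.natDegree = n := natDegree_map_eq_of_injective hinj P
  have hflc : f.leadingCoeff = (P.leadingCoeff : ℂ) := by
    rw [hf, leadingCoeff_map_of_injective hinj]
    simp
  have hfs : f.Splits := IsAlgClosed.splits f
  have hroots : P.aroots ℂ = f.roots := by
    simp [aroots, hf, algebraMap_int_eq]
  rw [hroots] at hnd ⊢
  have hlc0 : (P.leadingCoeff : ℂ) ≠ 0 := by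
    exact_mod_cast leadingCoeff_ne_zero.mpr hP0
  have hlc0R : (P.leadingCoeff : ℝ) ≠ 0 := by
    exact_mod_cast leadingCoeff_ne_zero.mpr hP0
  -- the resultant
  have h1 : resultant f (derivative f) n (n - 1) =
      f.leadingCoeff ^ (n - 1) * (f.roots.map (derivative f).eval).prod := by
    have := resultant_eq_prod_eval f (derivative f) (n - 1)
      (by rw [← hfdeg]; exact natDegree_derivative_le f) hfs
    rwa [hfdeg] at this
  have h2 : resultant f (derivative f) n (n - 1) =
      (((-1) ^ (n * (n - 1) / 2) * P.leadingCoeff * P.discr : ℤ) : ℂ) := by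
    rw [hf, derivative_map, resultant_map_map,
      resultant_deriv (natDegree_pos_iff_degree_pos.mp hP)]
    simp [hn]
  have h3 : (f.roots.map (derivative f).eval).prod =
      ∏ α ∈ f.roots.toFinset, (derivative f).eval α := by
    rw [Finset.prod, Multiset.toFinset_val, hnd.dedup]
  have h4 : ∀ α ∈ f.roots.toFinset, (derivative f).eval α =
      f.leadingCoeff * ∏ β ∈ f.roots.toFinset.erase α, (α - β) := by
    intro α hα
    have hα' : α ∈ f.roots := by simpa using hα
    rw [hfs.eval_derivative]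
    congr 1
    have e1 : (f.roots.map fun a ↦ ((f.roots.erase a).map (α - ·)).prod).sum =
        ∑ a ∈ f.roots.toFinset, ((f.roots.erase a).map (α - ·)).prod := by
      rw [Finset.sum, Multiset.toFinset_val, hnd.dedup]
    rw [e1, Finset.sum_eq_single_of_mem α hα]
    · rw [Finset.prod, Finset.erase_val, Multiset.toFinset_val, hnd.dedup]
    · intro b hb hbα
      apply Multiset.prod_eq_zero
      rw [Multiset.mem_map]
      exact ⟨α, (Multiset.mem_erase_of_ne (Ne.symm hbα)).mpr hα', by simp⟩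
  have hcard : f.roots.toFinset.card = n := by
    rw [Multiset.toFinset_card_of_nodup hnd, ← hfdeg]
    exact (splits_iff_card_roots.mp hfs)
  have h5 : (P.leadingCoeff : ℂ) ^ (n - 1) * ((P.leadingCoeff : ℂ) ^ n *
      ∏ α ∈ f.roots.toFinset, ∏ β ∈ f.roots.toFinset.erase α, (α - β)) =
      (((-1) ^ (n * (n - 1) / 2) * P.leadingCoeff * P.discr : ℤ) : ℂ) := by
    rw [← h2, h1, h3, Finset.prod_congr rfl h4, Finset.prod_mul_distrib, Finset.prod_const,
      hcard, hflc]
  have hprod0 : (∏ α ∈ f.roots.toFinset, ∏ β ∈ f.roots.toFinset.erase α, (α - β)) ≠ 0 := by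
    rw [Finset.prod_ne_zero_iff]
    intro α _
    rw [Finset.prod_ne_zero_iff]
    intro β hβ
    have := Finset.ne_of_mem_erase hβ
    exact sub_ne_zero.mpr (Ne.symm this)
  have hd0 : P.discr ≠ 0 := by
    intro h0
    rw [h0] at h5
    simp only [mul_zero, Int.cast_zero] at h5
    have : (P.leadingCoeff : ℂ) ^ (n - 1) * ((P.leadingCoeff : ℂ) ^ n *
      ∏ α ∈ f.roots.toFinset, ∏ β ∈ f.roots.toFinset.erase α, (α - β)) ≠ 0 :=
      mul_ne_zero (pow_ne_zero _ hlc0) (mul_ne_zero (pow_ne_zero _ hlc0) hprod0)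
    exact this h5
  -- take norms
  have h6 : |(P.leadingCoeff : ℝ)| ^ (n - 1) * (|(P.leadingCoeff : ℝ)| ^ n *
      ∏ α ∈ f.roots.toFinset, ∏ β ∈ f.roots.toFinset.erase α, ‖α - β‖) =
      |(P.leadingCoeff : ℝ)| * |(P.discr : ℝ)| := by
    have := congrArg norm h5
    simpa [norm_mul, norm_pow, Finset.prod_congr, norm_prod] using this
  have hD : 1 ≤ |(P.discr : ℝ)| := by
    have : 1 ≤ |P.discr| := Int.one_le_abs hd0
    exact_mod_cast this
  have hL : 0 < |(P.leadingCoeff : ℝ)| := abs_pos.mpr hlc0R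
  have hprodpos : 0 < ∏ α ∈ f.roots.toFinset, ∏ β ∈ f.roots.toFinset.erase α, ‖α - β‖ := by
    apply Finset.prod_pos
    intro α _
    apply Finset.prod_pos
    intro β hβ
    exact norm_pos_iff.mpr (sub_ne_zero.mpr (Ne.symm (Finset.ne_of_mem_erase hβ)))
  have h7 := congrArg Real.log h6
  rw [Real.log_mul (by positivity) (by positivity), Real.log_mul (by positivity) (by positivity),
    Real.log_pow, Real.log_pow, Real.log_mul (by positivity) (by positivity)] at h7
  have h8 : Real.log (∏ α ∈ f.roots.toFinset, ∏ β ∈ f.roots.toFinset.erase α, ‖α - β‖) =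
      ∑ α ∈ f.roots.toFinset, ∑ β ∈ f.roots.toFinset.erase α, Real.log ‖α - β‖ := by
    rw [Real.log_prod]
    · apply Finset.sum_congr rfl
      intro α _
      rw [Real.log_prod]
      intro β hβ
      exact (norm_pos_iff.mpr (sub_ne_zero.mpr (Ne.symm (Finset.ne_of_mem_erase hβ)))).ne'
    · intro α _
      apply Finset.prod_ne_zero_iff.mpr
      intro β hβ
      exact (norm_pos_iff.mpr (sub_ne_zero.mpr (Ne.symm (Finset.ne_of_mem_erase hβ)))).ne'
  rw [h8] at h7
  have h9 : 0 ≤ Real.log |(P.discr : ℝ)| := Real.log_nonneg hD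
  have hn1 : ((n - 1 : ℕ) : ℝ) = (n : ℝ) - 1 := by
    rw [Nat.cast_sub hP]; simp
  rw [hn1] at h7
  nlinarith [h7, h9]

theorem prod_aroots_nodup (S : Finset ℤ[X])
    (h : ∀ Q ∈ S, Irreducible Q ∧ 0 < Q.natDegree ∧ 0 < Q.leadingCoeff) :
    ((∏ Q ∈ S, Q).aroots ℂ).Nodup := by
  classical
  have hprim : ∀ Q ∈ S, Q.IsPrimitive := fun Q hQ =>
    (h Q hQ).1.isPrimitive (h Q hQ).2.1.ne'
  have hirr : ∀ Q ∈ S, Irreducible (Q.map (Int.castRingHom ℚ)) := fun Q hQ =>
    (IsPrimitive.Int.irreducible_iff_irreducible_map_cast (hprim Q hQ)).mp (h Q hQ).1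
  have hsep : (∏ Q ∈ S, Q.map (Int.castRingHom ℚ)).Separable := by
    apply separable_prod'
    · intro Q hQ R hR hne
      rw [(hirr Q hQ).coprime_iff_not_dvd]
      intro hdvd
      have hdvd' : Q ∣ R :=
        (IsPrimitive.Int.dvd_iff_map_cast_dvd_map_cast Q R (hprim Q hQ)).mpr hdvd
      have hass : Associated Q R := (h Q hQ).1.associated_of_dvd (h R hR).1 hdvd'
      obtain ⟨u, hu⟩ := hass
      have hu' : ∃ r : ℤ, IsUnit r ∧ C r = (u : ℤ[X]) := Polynomial.isUnit_iff.mp u.isUnit
      obtain ⟨r, hr, hru⟩ := hu'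
      rw [← hru] at hu
      have hlc : R.leadingCoeff = Q.leadingCoeff * r := by
        rw [← hu, leadingCoeff_mul, leadingCoeff_C]
      have h1 := (h Q hQ).2.2
      have h2 := (h R hR).2.2
      rcases Int.isUnit_iff.mp hr with h3 | h3
      · rw [h3] at hu
        simp at hu
        exact hne hu
      · rw [h3] at hlc
        linarith
    · intro Q hQ
      exact (hirr Q hQ).separable
  have hmap : (∏ Q ∈ S, Q).map (algebraMap ℤ ℂ) =
      (∏ Q ∈ S, Q.map (Int.castRingHom ℚ)).map (algebraMap ℚ ℂ) := by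
    rw [← Polynomial.map_prod, Polynomial.map_map]
    congr 1
  rw [aroots, hmap]
  exact nodup_roots hsep.map

end Pool.Agent.TraceMin
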