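import Pool.Agent.TraceMin.Defs2

/-!
# Module T11: the determinant inequality
-/

open MeasureTheory Polynomial Set

namespace Pool.Agent.TraceMin

section linalg

/-- If a rational linear system has a nonzero real solution, it has a nonzero integer solution. -/
lemma exists_int_sol {m n : ℕ} (Γ : Fin m → Fin n → ℤ) (u : Fin m → ℝ) (hu : u ≠ 0)
    (h : ∀ j, ∑ i, u i * (Γ i j : ℝ) = 0) :
    ∃ v : Fin m → ℤ, v ≠ 0 ∧ ∀ j, ∑ i, v i * Γ i j = 0 := by
  obtain ⟨i₀, hi₀⟩ : ∃ i, u i ≠ 0 := by
    by_contra hcon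
    push Not at hcon
    exact hu (funext hcon)
  obtain ⟨f, hf⟩ : ∃ f : Module.Dual ℚ ℝ, f (u i₀) ≠ 0 := by
    by_contra hcon
    push Not at hcon
    exact hi₀ ((Module.forall_dual_apply_eq_zero_iff ℚ (u i₀)).1 hcon)
  set w : Fin m → ℚ := fun i => f (u i) with hw
  have hw1 : ∀ j, ∑ i, w i * (Γ i j : ℚ) = 0 := by
    intro j
    have h1 := congrArg f (h j)
    rw [map_sum, map_zero] at h1
    rw [← h1]
    apply Finset.sum_congr rfl
    intro i _
    have : u i * (Γ i j : ℝ) = ((Γ i j : ℤ) : ℚ) • u i := by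
      rw [Rat.smul_def]; push_cast; ring
    rw [this, map_smul, smul_eq_mul, mul_comm]
  -- clear denominators
  set d : ℤ := ∏ i, ((w i).den : ℤ) with hd
  have hd0 : d ≠ 0 := Finset.prod_ne_zero_iff.2 fun i _ => by exact_mod_cast (w i).den_nz
  have hv : ∀ i, ∃ v : ℤ, (v : ℚ) = d * w i := by
    intro i
    refine ⟨(∏ k ∈ Finset.univ.erase i, ((w k).den : ℤ)) * (w i).num, ?_⟩
    rw [hd, ← Finset.mul_prod_erase Finset.univ _ (Finset.mem_univ i)]
    push_cast
    have : ((w i).den : ℚ) * w i = (w i).num := Rat.den_mul_eq_num (w i)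
    linear_combination (-(∏ k ∈ Finset.univ.erase i, ((w k).den : ℚ))) * this
  choose v hv using hv
  refine ⟨v, ?_, ?_⟩
  · intro hv0
    have h1 := hv i₀
    rw [hv0] at h1
    have h2 : (d : ℚ) * w i₀ ≠ 0 := mul_ne_zero (by exact_mod_cast hd0) hf
    exact h2 (by rw [← h1]; simp)
  · intro j
    have h1 : ((∑ i, v i * Γ i j : ℤ) : ℚ) = 0 := by
      push_cast
      have h2 : ∀ i, (v i : ℚ) * (Γ i j : ℚ) = d * (w i * (Γ i j : ℚ)) := by
        intro i; rw [hv i]; ring
      simp_rw [h2]
      rw [← Finset.mul_sum, hw1, mul_zero]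
    exact_mod_cast h1

/-- A real number `κ` such that for every prime `p` there is `t` prime to `p` with `t κ` an integer
is an integer. -/
lemma int_of_local (κ : ℝ) (h : ∀ p : ℕ, p.Prime → ∃ t e : ℤ, ¬ (p : ℤ) ∣ t ∧ κ * t = e) :
    ∃ z : ℤ, κ = z := by
  let J : Ideal ℤ :=
    { carrier := {n : ℤ | ∃ z : ℤ, κ * n = z}
      zero_mem' := ⟨0, by simp⟩
      add_mem' := by
        rintro a b ⟨z, hz⟩ ⟨z', hz'⟩
        exact ⟨z + z', by push_cast; rw [mul_add, hz, hz']⟩
      smul_mem' := by
        rintro c a ⟨z, hz⟩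
        refine ⟨c * z, ?_⟩
        rw [smul_eq_mul]
        push_cast
        rw [← hz]; ring }
  obtain ⟨g, hg⟩ := (inferInstance : J.IsPrincipal).principal
  have hdvd : ∀ n ∈ J, g ∣ n := by
    intro n hn
    rw [hg] at hn
    exact Ideal.mem_span_singleton.1 hn
  have hg1 : g.natAbs = 1 := by
    by_contra hne
    obtain ⟨p, hp, hpg⟩ := Nat.exists_prime_and_dvd hne
    obtain ⟨t, e, ht, hte⟩ := h p hp
    apply ht
    exact (Int.natCast_dvd.2 hpg).trans (hdvd t ⟨e, hte⟩)
  have h1 : (1 : ℤ) ∈ J := by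
    rw [hg]
    apply Ideal.mem_span_singleton.2
    exact Int.natAbs_dvd_natAbs.1 (by simp [hg1])
  obtain ⟨z, hz⟩ := h1
  exact ⟨z, by simpa using hz⟩

end linalg

/-- `phi` on shifted polynomials -/
lemma phi_X_pow_mul {a m b : ℕ} (hN : b + m + m = 2 * a) (c : ℕ → ℤ) {n : ℕ} (hn : n < m)
    (P : ℝ[X]) (hP : P.natDegree < b + m) :
    phi a c (X ^ n * P) = ∑ r : Fin (b + m), (c (n + r) : ℝ) * P.coeff r := by
  unfold phi
  rw [Fin.sum_univ_eq_sum_range (fun r => (c (n + r) : ℝ) * P.coeff r) (b + m)]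
  simp_rw [coeff_X_pow_mul']
  have h1 : ∀ j ∈ Finset.range (2 * a - 1), (c j : ℝ) * (if n ≤ j then P.coeff (j - n) else 0) =
      if n ≤ j then (c j : ℝ) * P.coeff (j - n) else 0 := by
    intro j _
    split_ifs <;> simp
  rw [Finset.sum_congr rfl h1, ← Finset.sum_filter]
  symm
  apply Finset.sum_bij_ne_zero (fun r _ _ => n + r)
  · intro r hr _
    rw [Finset.mem_filter, Finset.mem_range]
    rw [Finset.mem_range] at hr
    omega
  · intro r _ _ r' _ _ h
    omega
  · intro j hj hj0
    rw [Finset.mem_filter, Finset.mem_range] at hj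
    have h2 : P.coeff (j - n) ≠ 0 := fun h => hj0 (by rw [h, mul_zero])
    have h3 := le_natDegree_of_ne_zero h2
    refine ⟨j - n, ?_, ?_, ?_⟩
    · rw [Finset.mem_range]; omega
    · rwa [show n + (j - n) = j by omega]
    · omega
  · intro r _ _
    rw [show n + r - n = r by omega]

section core

variable {a m b : ℕ}

/-- the integer matrix used to compare minors -/
def Emat (m b : ℕ) (c : ℕ → ℤ) (j : ℕ) : Matrix (Fin b ⊕ Fin m) (Fin (b + m)) ℤ :=
  fun s r => Sum.elim (fun l : Fin b => if (r : ℕ) = j + l then 1 else 0)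
    (fun k : Fin m => c (k + r)) s

/-- the Toeplitz matrix of `Q` -/
noncomputable def Tmat (b : ℕ) (Q : ℤ[X]) (j : ℕ) : Matrix (Fin b) (Fin b) ℤ :=
  fun l l' => (X ^ (l' : ℕ) * Q).coeff (j + l)

lemma sylvester_left (f g : ℝ[X]) (m b : ℕ) (hg : g.natDegree ≤ m) (r : Fin (b + m)) (l : Fin b) :
    sylvester f g b m r (Fin.castAdd m l) = (X ^ (l : ℕ) * g).coeff r := by
  rw [sylvester, Matrix.of_apply, Fin.addCases_left, coeff_X_pow_mul']
  simp only [Set.mem_Icc]
  by_cases h1 : (l : ℕ) ≤ r
  · rw [if_pos h1]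
    by_cases h2 : (r : ℕ) ≤ l + m
    · rw [if_pos ⟨h1, h2⟩]
    · rw [if_neg (fun h => h2 h.2)]
      exact (coeff_eq_zero_of_natDegree_lt (by omega)).symm
  · rw [if_neg h1, if_neg (fun h => h1 h.1)]

lemma sylvester_right (f g : ℝ[X]) (m b : ℕ) (hf : f.natDegree ≤ b) (r : Fin (b + m)) (k : Fin m) :
    sylvester f g b m r (Fin.natAdd b k) = (X ^ (k : ℕ) * f).coeff r := by
  rw [sylvester, Matrix.of_apply, Fin.addCases_right, coeff_X_pow_mul']
  simp only [Set.mem_Icc]
  by_cases h1 : (k : ℕ) ≤ r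
  · rw [if_pos h1]
    by_cases h2 : (r : ℕ) ≤ k + b
    · rw [if_pos ⟨h1, h2⟩]
    · rw [if_neg (fun h => h2 h.2)]
      exact (coeff_eq_zero_of_natDegree_lt (by omega)).symm
  · rw [if_neg h1, if_neg (fun h => h1 h.1)]

lemma hankel_core (hN : b + m + m = 2 * a) (c : ℕ → ℤ)
    (hK : ∀ v : Fin m → ℤ, v ≠ 0 → ∃ r : Fin (b + m), ∑ i, v i * c (i + r) ≠ 0)
    (Q : ℤ[X]) (hQp : ∀ p : ℕ, p.Prime → ∃ i, ¬ (p : ℤ) ∣ Q.coeff i) (hQd : Q.natDegree ≤ m)
    (hQ : ∀ k < m, ∀ l < b, ∑ r : Fin (b + m), c (k + r) * (X ^ l * Q).coeff r = 0)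
    (y : Fin b → ℝ) :
    ∏ l, |aeval (y l) Q| ≤ |Matrix.det (Matrix.of fun i j : Fin m =>
      phi a c (X ^ (i : ℕ) * (X ^ (j : ℕ) * ∏ l, (X - C (y l)))))| := by
  classical
  set B : ℝ[X] := ∏ l, (X - C (y l)) with hB
  have hBd : B.natDegree = b := by
    rw [hB, natDegree_finsetProd_X_sub_C_eq_card]; simp
  set g : ℝ[X] := Q.map (Int.castRingHom ℝ) with hg
  have hgd : g.natDegree ≤ m := natDegree_map_le.trans hQd
  have hgc : ∀ (l r : ℕ), (X ^ l * g).coeff r = (((X ^ l * Q).coeff r : ℤ) : ℝ) := by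
    intro l r
    rw [coeff_X_pow_mul', coeff_X_pow_mul', hg, coeff_map]
    split_ifs <;> simp
  set S := sylvester B g b m with hS
  -- the resultant
  have hR : S.det = ∏ l, aeval (y l) Q := by
    have h1 : S.det = resultant B g b m := rfl
    have h2 := resultant_prod_left (Finset.univ : Finset (Fin b)) (fun l => X - C (y l)) g m
      (by simp) hgd
    rw [h1]
    have h3 : (∏ l, (X - C (y l))).natDegree = b := hBd
    rw [h3] at h2
    rw [hB, h2]
    apply Finset.prod_congr rfl
    intro l _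
    rw [natDegree_X_sub_C, resultant_X_sub_C_left _ _ _ hgd, hg, eval_map, aeval_def]
    rfl
  set D : Matrix (Fin m) (Fin m) ℝ := Matrix.of fun i j : Fin m =>
      phi a c (X ^ (i : ℕ) * (X ^ (j : ℕ) * B)) with hD
  have hDe : ∀ (k i : Fin m), D k i =
      ∑ r : Fin (b + m), (c (k + r) : ℝ) * (X ^ (i : ℕ) * B).coeff r := by
    intro k i
    rw [hD, Matrix.of_apply]
    apply phi_X_pow_mul hN c k.2
    have h1 := natDegree_mul_le (p := (X : ℝ[X]) ^ (i : ℕ)) (q := B)
    rw [natDegree_X_pow, hBd] at h1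
    have := i.2
    omega
  -- the comparison of minors
  have key : ∀ j ≤ m, D.det * ((Tmat b Q j).det : ℤ) =
      S.det * ((((Emat m b c j).submatrix finSumFinEquiv.symm id).det : ℤ) : ℝ) := by
    intro j hj
    set E : Matrix (Fin b ⊕ Fin m) (Fin (b + m)) ℝ := (Emat m b c j).map (Int.castRingHom ℝ) with hE
    set M : Matrix (Fin b ⊕ Fin m) (Fin b ⊕ Fin m) ℝ :=
      E * S.submatrix id finSumFinEquiv with hM
    have hMb : M = Matrix.fromBlocks ((Tmat b Q j).map (Int.castRingHom ℝ))
        (Matrix.of fun (l : Fin b) (i : Fin m) => (X ^ (i : ℕ) * B).coeff (j + l)) 0 D := by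
      ext s s'
      rw [hM, Matrix.mul_apply]
      rcases s with l | k <;> rcases s' with l' | i
      · simp only [Matrix.fromBlocks_apply₁₁, Matrix.map_apply, hE, Emat, Sum.elim_inl,
          Matrix.submatrix_apply, id_eq, finSumFinEquiv_apply_left, hS]
        have hlt : j + (l : ℕ) < b + m := by have := l.2; omega
        rw [Finset.sum_eq_single (⟨j + l, hlt⟩ : Fin (b + m))]
        · rw [sylvester_left _ _ _ _ hgd, hgc]
          simp [Tmat]
        · intro r _ hr
          have : ¬ (r : ℕ) = j + l := fun h => hr (Fin.ext h)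
          simp [this]
        · intro h; exact absurd (Finset.mem_univ _) h
      · simp only [Matrix.fromBlocks_apply₁₂, Matrix.of_apply, hE, Emat, Sum.elim_inl,
          Matrix.submatrix_apply, id_eq, finSumFinEquiv_apply_right, hS, Matrix.map_apply]
        have hlt : j + (l : ℕ) < b + m := by have := l.2; omega
        rw [Finset.sum_eq_single (⟨j + l, hlt⟩ : Fin (b + m))]
        · rw [sylvester_right _ _ _ _ hBd.le]
          simp
        · intro r _ hr
          have : ¬ (r : ℕ) = j + l := fun h => hr (Fin.ext h)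
          simp [this]
        · intro h; exact absurd (Finset.mem_univ _) h
      · simp only [Matrix.fromBlocks_apply₂₁, Matrix.zero_apply, hE, Emat, Sum.elim_inr,
          Matrix.submatrix_apply, id_eq, finSumFinEquiv_apply_left, hS, Matrix.map_apply]
        have h1 := hQ k k.2 l' l'.2
        have h2 : (∑ r : Fin (b + m), ((c (k + r) : ℤ) : ℝ) * (((X ^ (l' : ℕ) * Q).coeff r : ℤ) : ℝ))
            = 0 := by exact_mod_cast h1
        rw [← h2]
        apply Finset.sum_congr rfl
        intro r _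
        rw [sylvester_left _ _ _ _ hgd, hgc]
        rfl
      · simp only [Matrix.fromBlocks_apply₂₂, hE, Emat, Sum.elim_inr,
          Matrix.submatrix_apply, id_eq, finSumFinEquiv_apply_right, hS, Matrix.map_apply]
        rw [hDe]
        apply Finset.sum_congr rfl
        intro r _
        rw [sylvester_right _ _ _ _ hBd.le]
        rfl
    have h1 : M.det = ((Tmat b Q j).map (Int.castRingHom ℝ)).det * D.det := by
      rw [hMb, Matrix.det_fromBlocks_zero₂₁]
    have h2 : M.submatrix finSumFinEquiv.symm finSumFinEquiv.symm =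
        (E.submatrix finSumFinEquiv.symm id) * S := by
      rw [hM, ← Matrix.submatrix_mul_equiv E (S.submatrix id finSumFinEquiv) _ (Equiv.refl _) _]
      simp
    have h3 : M.det = (E.submatrix finSumFinEquiv.symm id).det * S.det := by
      rw [← Matrix.det_mul, ← h2, Matrix.det_submatrix_equiv_self]
    have h4 : (E.submatrix finSumFinEquiv.symm id).det =
        ((((Emat m b c j).submatrix finSumFinEquiv.symm id).det : ℤ) : ℝ) :=
      ((Int.castRingHom ℝ).map_det _).symm
    have h5 : ((Tmat b Q j).map (Int.castRingHom ℝ)).det = (((Tmat b Q j).det : ℤ) : ℝ) :=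
      ((Int.castRingHom ℝ).map_det _).symm
    rw [h3, h4, h5] at h1
    linarith
  -- p-adic properties of the Toeplitz determinants
  have hT : ∀ p : ℕ, p.Prime → ∃ j ≤ m, ¬ (p : ℤ) ∣ (Tmat b Q j).det := by
    intro p hp
    have : Fact p.Prime := ⟨hp⟩
    have hex := hQp p hp
    set j := Nat.find hex with hj
    have hj1 : ¬ (p : ℤ) ∣ Q.coeff j := Nat.find_spec hex
    have hj2 : ∀ i < j, (p : ℤ) ∣ Q.coeff i := fun i hi => by
      have := Nat.find_min hex hi
      exact not_not.1 this
    refine ⟨j, ?_, ?_⟩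
    · by_contra hcon
      push Not at hcon
      apply hj1
      rw [coeff_eq_zero_of_natDegree_lt (lt_of_le_of_lt hQd hcon)]
      exact dvd_zero _
    · rw [← ZMod.intCast_zmod_eq_zero_iff_dvd]
      have h1 : (((Tmat b Q j).det : ℤ) : ZMod p) =
          ((Tmat b Q j).map (Int.castRingHom (ZMod p))).det :=
        (Int.castRingHom (ZMod p)).map_det _
      rw [h1, Matrix.det_of_isLowerTriangular]
      · apply Finset.prod_ne_zero_iff.2
        intro l _
        simp only [Matrix.map_apply, Tmat, coeff_X_pow_mul', Int.coe_castRingHom]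
        rw [if_pos (by omega), show j + (l : ℕ) - l = j by omega]
        rwa [Ne, ZMod.intCast_zmod_eq_zero_iff_dvd]
      · intro l l' hll
        have hll' : (l : ℕ) < l' := hll
        simp only [Matrix.map_apply, Tmat, coeff_X_pow_mul', Int.coe_castRingHom]
        split_ifs with h
        · rw [ZMod.intCast_zmod_eq_zero_iff_dvd]
          apply hj2
          omega
        · simp
  -- conclusion
  rw [← Finset.abs_prod, ← hR]
  by_cases hR0 : S.det = 0
  · rw [hR0, abs_zero]; exact abs_nonneg _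
  have hD0 : D.det ≠ 0 := by
    intro hD0
    obtain ⟨u, hu, huD⟩ := Matrix.exists_vecMul_eq_zero_iff.2 hD0
    -- the row vector `w = u Γ`
    set w : Fin (b + m) → ℝ := fun r => ∑ i, u i * (c (i + r) : ℝ) with hw
    have hwS : Matrix.vecMul w S = 0 := by
      ext s
      simp only [Matrix.vecMul, dotProduct, Pi.zero_apply]
      refine Fin.addCases (fun l => ?_) (fun i => ?_) s
      · have h1 : ∀ k : Fin m, ∑ r : Fin (b + m), (c (k + r) : ℝ) * S r (Fin.castAdd m l) = 0 := by
          intro k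
          have h1 := hQ k k.2 l l.2
          have h2 : (∑ r : Fin (b + m), ((c (k + r) : ℤ) : ℝ) *
              (((X ^ (l : ℕ) * Q).coeff r : ℤ) : ℝ)) = 0 := by exact_mod_cast h1
          rw [← h2]
          apply Finset.sum_congr rfl
          intro r _
          rw [hS, sylvester_left _ _ _ _ hgd, hgc]
        simp only [hw, Finset.sum_mul]
        rw [Finset.sum_comm]
        apply Finset.sum_eq_zero
        intro k _
        simp_rw [mul_assoc]
        rw [← Finset.mul_sum, h1 k, mul_zero]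
      · have h1 : ∀ k : Fin m, ∑ r : Fin (b + m), (c (k + r) : ℝ) * S r (Fin.natAdd b i) = D k i := by
          intro k
          rw [hDe]
          apply Finset.sum_congr rfl
          intro r _
          rw [hS, sylvester_right _ _ _ _ hBd.le]
        simp only [hw, Finset.sum_mul]
        rw [Finset.sum_comm]
        have h2 := congrFun huD i
        simp only [Matrix.vecMul, dotProduct, Pi.zero_apply] at h2
        rw [← h2]
        apply Finset.sum_congr rfl
        intro k _
        simp_rw [mul_assoc]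
        rw [← Finset.mul_sum, h1 k]
    have hw0 : w = 0 := by
      by_contra hne
      exact hR0 (Matrix.exists_vecMul_eq_zero_iff.1 ⟨w, hne, hwS⟩)
    obtain ⟨v, hv, hvc⟩ := exists_int_sol (fun (i : Fin m) (r : Fin (b + m)) => c (i + r)) u hu
      (fun r => congrFun hw0 r)
    obtain ⟨r, hr⟩ := hK v hv
    exact hr (hvc r)
  obtain ⟨z, hz⟩ := int_of_local (D.det / S.det) (by
    intro p hp
    obtain ⟨j, hj, hjp⟩ := hT p hp
    refine ⟨(Tmat b Q j).det, ((Emat m b c j).submatrix finSumFinEquiv.symm id).det, hjp, ?_⟩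
    rw [div_mul_eq_mul_div, div_eq_iff hR0, key j hj, mul_comm])
  have hz0 : z ≠ 0 := by
    rintro rfl
    rw [Int.cast_zero, div_eq_zero_iff] at hz
    rcases hz with h | h
    · exact hD0 h
    · exact hR0 h
  have h1 : D.det = z * S.det := by
    rw [← hz, div_mul_cancel₀ _ hR0]
  rw [h1, abs_mul]
  have h2 : (1 : ℝ) ≤ |(z : ℝ)| := by
    rw [← Int.cast_abs]
    exact_mod_cast Int.one_le_abs hz0
  nlinarith [abs_nonneg S.det]

end core

lemma phi_sum {a : ℕ} {c : ℕ → ℤ} {ι : Type*} (s : Finset ι) (f : ι → ℝ[X]) :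
    phi a c (∑ i ∈ s, f i) = ∑ i ∈ s, phi a c (f i) := by
  unfold phi
  simp_rw [finsetSum_coeff, Finset.mul_sum]
  rw [Finset.sum_comm]

lemma phi_C_mul {a : ℕ} {c : ℕ → ℤ} (t : ℝ) (f : ℝ[X]) :
    phi a c (C t * f) = t * phi a c f := by
  unfold phi
  simp_rw [coeff_C_mul, Finset.mul_sum]
  apply Finset.sum_congr rfl
  intro i _
  ring

/-- the condition `P i` -/
def Rel (a : ℕ) (c : ℕ → ℤ) (i : ℕ) : Prop :=
  ∃ Q : ℤ[X], Q ≠ 0 ∧ Q.natDegree ≤ i ∧
    ∀ k < 2 * a - (i + 1), ∑ j ∈ Finset.range (i + 1), c (j + k) * Q.coeff j = 0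

lemma det_expand {a m : ℕ} (c : ℕ → ℤ) (B : ℝ[X]) (A : Fin m → ℝ[X])
    (hA : ∀ i, (A i).natDegree < m) :
    Matrix.det (Matrix.of fun i j : Fin m => phi a c (A i * A j * B)) =
      Matrix.det (Matrix.of fun i j : Fin m => (A i).coeff j) ^ 2 *
      Matrix.det (Matrix.of fun i j : Fin m => phi a c (X ^ (i : ℕ) * (X ^ (j : ℕ) * B))) := by
  set U : Matrix (Fin m) (Fin m) ℝ := Matrix.of fun i j : Fin m => (A i).coeff j with hU
  set D : Matrix (Fin m) (Fin m) ℝ :=
    Matrix.of fun i j : Fin m => phi a c (X ^ (i : ℕ) * (X ^ (j : ℕ) * B)) with hD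
  have h1 : (Matrix.of fun i j : Fin m => phi a c (A i * A j * B)) = U * D * U.transpose := by
    ext i j
    have hAi : ∀ i, A i = ∑ p : Fin m, C ((A i).coeff p) * X ^ (p : ℕ) := by
      intro i
      conv_lhs => rw [(A i).as_sum_range_C_mul_X_pow' (hA i)]
      rw [Fin.sum_univ_eq_sum_range (fun p => C ((A i).coeff p) * X ^ p) m]
    rw [Matrix.of_apply, Matrix.mul_apply]
    have h2 : A i * A j * B = ∑ q : Fin m, ∑ p : Fin m,
        C ((A j).coeff q) * (C ((A i).coeff p) * (X ^ (p : ℕ) * (X ^ (q : ℕ) * B))) := by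
      conv_lhs => rw [hAi i, hAi j]
      rw [Finset.sum_mul_sum, Finset.sum_comm, Finset.sum_mul]
      apply Finset.sum_congr rfl
      intro q _
      rw [Finset.sum_mul]
      apply Finset.sum_congr rfl
      intro p _
      ring
    rw [h2, phi_sum]
    apply Finset.sum_congr rfl
    intro q _
    rw [phi_sum, Matrix.mul_apply, Finset.sum_mul]
    apply Finset.sum_congr rfl
    intro p _
    rw [phi_C_mul, phi_C_mul, Matrix.transpose_apply, hU, hD]
    simp only [Matrix.of_apply]
    ring
  rw [h1, Matrix.det_mul, Matrix.det_mul, Matrix.det_transpose]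
  ring

theorem hankel (a : ℕ) (ha : 0 < a) (c : ℕ → ℤ) (hc : ∃ j < 2 * a - 1, c j ≠ 0) :
    ∃ m : ℕ, 1 ≤ m ∧ m ≤ a ∧ ∃ Q : ℤ[X], Q ≠ 0 ∧ Q.natDegree ≤ m ∧
      ∀ (y : Fin (2 * a - 2 * m) → ℝ) (A : Fin m → ℝ[X]), (∀ i, (A i).natDegree < m) →
        |Matrix.det (Matrix.of fun i j : Fin m => (A i).coeff j)| ^ 2 * ∏ l, |aeval (y l) Q| ≤
        |Matrix.det (Matrix.of fun i j : Fin m => phi a c (A i * A j * ∏ l, (X - C (y l))))| := by
  classical
  have hex : ∃ i, i = a ∨ Rel a c i := ⟨a, Or.inl rfl⟩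
  set m := Nat.find hex with hm
  have hma : m ≤ a := Nat.find_le (Or.inl rfl)
  have hmin : ∀ i < m, ¬ Rel a c i := fun i hi h => Nat.find_min hex hi (Or.inr h)
  have hm1 : 1 ≤ m := by
    by_contra hcon
    have hm0 : m = 0 := by omega
    rcases Nat.find_spec hex with h | h
    · rw [← hm] at h; omega
    · rw [← hm, hm0] at h
      obtain ⟨Q, hQ0, hQd, hQ⟩ := h
      obtain ⟨j, hj, hcj⟩ := hc
      have h1 := hQ j (by omega)
      simp only [zero_add, Finset.range_one, Finset.sum_singleton] at h1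
      rcases mul_eq_zero.1 h1 with h2 | h2
      · exact hcj h2
      · apply hQ0
        rw [eq_C_of_natDegree_le_zero hQd, h2, C_0]
  -- the kernel is trivial
  have hK : ∀ v : Fin m → ℤ, v ≠ 0 → ∃ r : Fin (2 * a - 2 * m + m), ∑ i, v i * c (i + r) ≠ 0 := by
    intro v hv
    by_contra hcon
    push Not at hcon
    apply hmin (m - 1) (by omega)
    refine ⟨∑ i : Fin m, C (v i) * X ^ (i : ℕ), ?_, ?_, ?_⟩
    · intro h0
      apply hv
      ext i
      have h1 := congrArg (fun P => P.coeff (i : ℕ)) h0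
      simp only [finsetSum_coeff, coeff_C_mul, coeff_X_pow, coeff_zero] at h1
      rw [Finset.sum_eq_single i] at h1
      · simpa using h1
      · intro j _ hj
        rw [if_neg (fun h => hj (Fin.ext h.symm)), mul_zero]
      · intro h; exact absurd (Finset.mem_univ _) h
    · apply natDegree_sum_le_of_forall_le
      intro i _
      refine (natDegree_C_mul_X_pow_le _ _).trans ?_
      have := i.2
      omega
    · intro k hk
      have hk' : k < 2 * a - 2 * m + m := by omega
      have h1 := hcon ⟨k, hk'⟩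
      have h2 := Fin.sum_univ_eq_sum_range (fun j => c (j + k) *
          (∑ i : Fin m, C (v i) * X ^ (i : ℕ)).coeff j) m
      rw [← h1, show m - 1 + 1 = m by omega, ← h2]
      apply Finset.sum_congr rfl
      intro i _
      rw [mul_comm]
      congr 1
      simp only [finsetSum_coeff, coeff_C_mul, coeff_X_pow]
      rw [Finset.sum_eq_single i]
      · simp
      · intro j _ hj
        rw [if_neg (fun h => hj (Fin.ext h.symm)), mul_zero]
      · intro h; exact absurd (Finset.mem_univ _) h
  -- choice of `Q`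
  obtain ⟨Q, hQ0, hQp, hQd, hQ⟩ : ∃ Q : ℤ[X], Q ≠ 0 ∧
      (∀ p : ℕ, p.Prime → ∃ i, ¬ (p : ℤ) ∣ Q.coeff i) ∧ Q.natDegree ≤ m ∧
      (∀ k < m, ∀ l < 2 * a - 2 * m,
        ∑ r : Fin (2 * a - 2 * m + m), c (k + r) * (X ^ l * Q).coeff r = 0) := by
    rcases Nat.lt_or_ge m a with hlt | hge
    · rcases Nat.find_spec hex with h | h
      · rw [← hm] at h; omega
      rw [← hm] at h
      obtain ⟨Q, hQ0, hQd, hQ⟩ := h
      have hct : Q.content ≠ 0 := content_eq_zero_iff.not.2 hQ0
      refine ⟨Q.primPart, Q.primPart_ne_zero, ?_, by rw [natDegree_primPart]; exact hQd, ?_⟩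
      · intro p hp
        by_contra hcon
        push Not at hcon
        have h1 : (C (p : ℤ)) ∣ Q.primPart := (C_dvd_iff_dvd_coeff _ _).2 hcon
        have h2 := (isPrimitive_primPart Q) _ h1
        rw [Int.isUnit_iff] at h2
        have := hp.two_le
        omega
      · intro k hk l hl
        have hQ' : ∑ j ∈ Finset.range (m + 1), c (j + (k + l)) * Q.primPart.coeff j = 0 := by
          have h1 := hQ (k + l) (by omega)
          have h2 : ∀ j, Q.coeff j = Q.content * Q.primPart.coeff j := by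
            intro j
            conv_lhs => rw [Q.eq_C_content_mul_primPart]
            rw [coeff_C_mul]
          simp_rw [h2] at h1
          have h3 : ∑ j ∈ Finset.range (m + 1), c (j + (k + l)) * (Q.content * Q.primPart.coeff j) =
              Q.content * ∑ j ∈ Finset.range (m + 1), c (j + (k + l)) * Q.primPart.coeff j := by
            rw [Finset.mul_sum]
            apply Finset.sum_congr rfl
            intro j _; ring
          rw [h3] at h1
          exact (mul_eq_zero.1 h1).resolve_left hct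
        have h4 := Fin.sum_univ_eq_sum_range (fun r => c (k + r) * (X ^ l * Q.primPart).coeff r)
          (2 * a - 2 * m + m)
        rw [← hQ', h4]
        symm
        apply Finset.sum_bij_ne_zero (fun j _ _ => j + l)
        · intro j hj _
          rw [Finset.mem_range] at hj ⊢
          omega
        · intro r _ _ r' _ _ h
          omega
        · intro r hr hr0
          have h1 : (X ^ l * Q.primPart).coeff r ≠ 0 := fun h => hr0 (by rw [h, mul_zero])
          rw [coeff_X_pow_mul'] at h1
          have hlr : l ≤ r := by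
            by_contra hcon; rw [if_neg hcon] at h1; exact h1 rfl
          rw [if_pos hlr] at h1
          have h3 := le_natDegree_of_ne_zero h1
          rw [natDegree_primPart] at h3
          refine ⟨r - l, ?_, ?_, ?_⟩
          · rw [Finset.mem_range]; omega
          · rw [show r - l + (k + l) = k + r by omega]
            exact mul_ne_zero (fun h => hr0 (by rw [h, zero_mul])) h1
          · omega
        · intro j _ _
          rw [coeff_X_pow_mul', if_pos (by omega), show j + l - l = j by omega,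
            show j + (k + l) = k + (j + l) by ring]
    · refine ⟨1, one_ne_zero, ?_, by simp, ?_⟩
      · intro p hp
        refine ⟨0, ?_⟩
        rw [coeff_one_zero]
        intro h
        have h1 := Int.eq_one_of_dvd_one (by positivity) h
        have := hp.two_le
        omega
      · intro k hk l hl
        omega
  refine ⟨m, hm1, hma, Q, hQ0, hQd, ?_⟩
  intro y A hA
  have h1 := hankel_core (a := a) (m := m) (b := 2 * a - 2 * m) (by omega) c hK Q hQp hQd hQ y
  rw [det_expand c _ A hA, abs_mul, abs_pow]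
  exact mul_le_mul_of_nonneg_left h1 (by positivity)

end Pool.Agent.TraceMin
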