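import Pool.Agent.TraceMin.VandPoints
import Pool.Agent.TraceMin.Hankel
import Pool.Agent.TraceMin.Koksma

/-!
Module T14: lower bound for the dual norm.
-/

open MeasureTheory Polynomial Set

namespace Pool.Agent.TraceMin

/-- the product over all points but the `i`-th -/
noncomputable def omitPt {n : ℕ} (y : Fin (n + 1) → ℝ) (i : Fin (n + 1)) : ℝ[X] :=
  ∏ k : Fin n, (X - C (y (i.succAbove k)))

theorem natDegree_prod_linear {n : ℕ} (y : Fin n → ℝ) :
    (∏ k : Fin n, (X - C (y k)) : ℝ[X]).natDegree ≤ n := by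
  refine (natDegree_prod_le _ _).trans ?_
  simp

theorem omitPt_natDegree {n : ℕ} (y : Fin (n + 1) → ℝ) (i : Fin (n + 1)) :
    (omitPt y i).natDegree ≤ n := natDegree_prod_linear _

theorem omitPt_eval {n : ℕ} (y : Fin (n + 1) → ℝ) (i : Fin (n + 1)) (x : ℝ) :
    (omitPt y i).eval x = ∏ k : Fin n, (x - y (i.succAbove k)) := by
  unfold omitPt
  rw [eval_prod]
  simp

theorem omitPt_eval_ne {n : ℕ} (y : Fin (n + 1) → ℝ) (i j : Fin (n + 1)) (hij : i ≠ j) :
    (omitPt y i).eval (y j) = 0 := by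
  rw [omitPt_eval]
  obtain ⟨k, hk⟩ := Fin.exists_succAbove_eq hij.symm
  refine Finset.prod_eq_zero (Finset.mem_univ k) ?_
  rw [hk, sub_self]

theorem omitPt_mul_vandermonde {n : ℕ} (y : Fin (n + 1) → ℝ) :
    (Matrix.of fun i j : Fin (n + 1) => (omitPt y i).coeff j) * (Matrix.vandermonde y).transpose
      = Matrix.diagonal fun i => (omitPt y i).eval (y i) := by
  ext i k
  rw [Matrix.mul_apply]
  have h1 : ∑ j : Fin (n + 1), (Matrix.of fun i j : Fin (n + 1) => (omitPt y i).coeff j) i j *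
      (Matrix.vandermonde y).transpose j k = (omitPt y i).eval (y k) := by
    rw [eval_eq_sum_range' (Nat.lt_succ_of_le (omitPt_natDegree y i))]
    rw [Finset.sum_range]
    simp [Matrix.vandermonde]
  rw [h1]
  by_cases hik : i = k
  · subst hik
    simp
  · rw [Matrix.diagonal_apply_ne _ hik, omitPt_eval_ne y i k hik]

theorem vandermonde_sq {n : ℕ} (y : Fin (n + 1) → ℝ) :
    |(Matrix.vandermonde y).det| ^ 2 = ∏ i, ∏ k : Fin n, |y i - y (i.succAbove k)| := by
  rw [Matrix.det_vandermonde]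
  have h1 : ∀ i : Fin (n + 1), ∏ k : Fin n, |y i - y (i.succAbove k)|
      = ∏ j ∈ Finset.univ.erase i, |y i - y j| := by
    intro i
    have h2 : Finset.univ.erase i = Finset.univ.image i.succAbove := by
      rw [Fin.image_succAbove_univ]
      ext j; simp
    rw [h2, Finset.prod_image fun a _ b _ h => Fin.succAbove_right_injective h]
  have h3 : ∀ i : Fin (n + 1), ∏ j ∈ Finset.univ.erase i, |y i - y j|
      = (∏ j ∈ Finset.Ioi i, |y j - y i|) * ∏ j ∈ Finset.Iio i, |y j - y i| := by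
    intro i
    have h4 : Finset.univ.erase i = Finset.Ioi i ∪ Finset.Iio i := by
      ext j
      simp only [Finset.mem_erase, Finset.mem_univ, and_true, Finset.mem_union, Finset.mem_Ioi,
        Finset.mem_Iio]
      constructor
      · intro h
        rcases lt_or_gt_of_ne h with h' | h'
        · exact Or.inr h'
        · exact Or.inl h'
      · rintro (h | h)
        · exact h.ne'
        · exact h.ne
    rw [h4, Finset.prod_union]
    · congr 1 <;> exact Finset.prod_congr rfl fun j _ => abs_sub_comm _ _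
    · rw [Finset.disjoint_left]
      intro j hj hj'
      rw [Finset.mem_Ioi] at hj
      rw [Finset.mem_Iio] at hj'
      exact absurd hj (not_lt.2 hj'.le)
  simp_rw [h1, h3]
  rw [Finset.prod_mul_distrib]
  have h5 : ∏ i : Fin (n + 1), ∏ j ∈ Finset.Iio i, |y j - y i|
      = ∏ i : Fin (n + 1), ∏ j ∈ Finset.Ioi i, |y j - y i| := by
    rw [Finset.prod_comm' (t' := Finset.univ) (s' := fun j => Finset.Ioi j)]
    · refine Finset.prod_congr rfl fun i _ => Finset.prod_congr rfl fun j _ => abs_sub_comm _ _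
    · intro i j
      simp
  rw [h5, Finset.abs_prod]
  simp_rw [Finset.abs_prod]
  ring

theorem det_omitPt_sq {n : ℕ} (y : Fin (n + 1) → ℝ) (hy : ∀ i j, i ≠ j → y i ≠ y j) :
    |Matrix.det (Matrix.of fun i j : Fin (n + 1) => (omitPt y i).coeff j)| ^ 2
      = ∏ i, ∏ k : Fin n, |y i - y (i.succAbove k)| := by
  have h1 := congrArg Matrix.det (omitPt_mul_vandermonde y)
  rw [Matrix.det_mul, Matrix.det_transpose, Matrix.det_diagonal] at h1
  have h2 : |∏ i, (omitPt y i).eval (y i)| = ∏ i, ∏ k : Fin n, |y i - y (i.succAbove k)| := by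
    rw [Finset.abs_prod]
    refine Finset.prod_congr rfl fun i _ => ?_
    rw [omitPt_eval, Finset.abs_prod]
  have h3 := vandermonde_sq y
  have h4 : 0 < ∏ i, ∏ k : Fin n, |y i - y (i.succAbove k)| :=
    Finset.prod_pos fun i _ => Finset.prod_pos fun k _ =>
      abs_pos.2 (sub_ne_zero.2 (hy i _ (Fin.succAbove_ne i k).symm))
  have h5 : |Matrix.det (Matrix.of fun i j : Fin (n + 1) => (omitPt y i).coeff j)| *
      |(Matrix.vandermonde y).det| = |(Matrix.vandermonde y).det| ^ 2 := by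
    rw [← abs_mul, h1, h2, h3]
  have h6 : |(Matrix.vandermonde y).det| ≠ 0 := by
    intro h0
    rw [h0] at h3
    norm_num at h3
    rw [← h3] at h4
    exact lt_irrefl _ h4
  have h7 : |Matrix.det (Matrix.of fun i j : Fin (n + 1) => (omitPt y i).coeff j)| =
      |(Matrix.vandermonde y).det| := by
    rw [sq] at h5
    exact mul_right_cancel₀ h6 h5
  rw [h7, h3]

theorem disc_omit {μ : Measure ℝ} [IsProbabilityMeasure μ] {n : ℕ} (y : Fin (n + 1) → ℝ)
    (i : Fin (n + 1)) (h : Disc μ (n + 1) y 1) :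
    Disc μ n (fun k => y (i.succAbove k)) 2 := by
  have key : ∀ (P : ℝ → Prop) [DecidablePred P],
      ((Finset.univ.filter (fun j : Fin (n + 1) => P (y j))).card : ℝ) =
        (if P (y i) then 1 else 0) +
        ((Finset.univ.filter (fun k : Fin n => P (y (i.succAbove k)))).card : ℝ) := by
    intro P _
    rw [Finset.card_filter, Finset.card_filter]
    push_cast
    rw [Fin.sum_univ_succAbove _ i]
  intro t
  obtain ⟨h1, h2⟩ := h t
  have h3 := key (fun u => u < t)
  have h4 := key (fun u => u ≤ t)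
  have h5 : 0 ≤ μ.real (Iio t) := measureReal_nonneg
  have h6 : μ.real (Iio t) ≤ 1 := measureReal_le_one
  have h7 : 0 ≤ μ.real (Iic t) := measureReal_nonneg
  have h8 : μ.real (Iic t) ≤ 1 := measureReal_le_one
  push_cast at h1 h2
  rw [h3] at h1
  rw [h4] at h2
  rw [abs_le] at h1 h2
  constructor
  · rw [abs_le]
    split_ifs at h1 <;> constructor <;> linarith [h1.1, h1.2]
  · rw [abs_le]
    split_ifs at h2 <;> constructor <;> linarith [h2.1, h2.2]

/-- upper bound for the potential -/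
theorem pot_le {M Cf : ℝ} (hM : 1 ≤ M) {μ : Measure ℝ} (hμ : Reg M Cf μ) {x : ℝ}
    (hx : x ∈ Icc 0 M) : ∫ y, Real.log |x - y| ∂μ ≤ Real.log M := by
  have hprob := hμ.1
  have h1 : ∫ y, Real.log |x - y| ∂μ ≤ ∫ _, Real.log M ∂μ := by
    refine integral_mono_ae (hμ.integrable_log (by linarith) hx) (integrable_const _) ?_
    filter_upwards [hμ.ae_mem_Icc] with y hy
    rcases eq_or_ne x y with rfl | hne
    · simp [Real.log_nonneg hM]
    · refine Real.log_le_log (abs_pos.2 (sub_ne_zero.2 hne)) ?_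
      rw [abs_le]; constructor <;> linarith [hx.1, hx.2, hy.1, hy.2]
  simpa using h1

/-- lower bound for the potential -/
theorem le_pot {M Cf : ℝ} (hM : 2 ≤ M) {μ : Measure ℝ} (hμ : Reg M Cf μ) {x : ℝ}
    (hx : x ∈ Icc 0 M) : -(2 * Real.log M + 2 * Cf) ≤ ∫ y, Real.log |x - y| ∂μ := by
  have hprob := hμ.1
  obtain ⟨z, hz, hxz⟩ : ∃ z ∈ Icc (0:ℝ) M, 1 ≤ |x - z| := by
    by_cases h : x ≤ M / 2
    · refine ⟨M, ⟨by linarith, le_rfl⟩, ?_⟩
      rw [abs_sub_comm, abs_of_nonneg (by linarith [hx.2])]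
      linarith
    · push Not at h
      refine ⟨0, ⟨le_rfl, by linarith⟩, ?_⟩
      rw [sub_zero, abs_of_nonneg hx.1]
      linarith
  have hdisc : Disc μ 1 (fun _ => z) 1 := by
    have key : ∀ (P : Prop) [Decidable P] (r : ℝ), 0 ≤ r → r ≤ 1 →
        |((Finset.univ.filter (fun _ : Fin 1 => P)).card : ℝ) - ((1:ℕ):ℝ) * r| ≤ 1 := by
      intro P _ r h0 h1
      by_cases hP : P
      · simp only [hP, Finset.filter_true, Finset.card_univ, Fintype.card_fin, Nat.cast_one,
          one_mul, abs_le]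
        constructor <;> linarith
      · simp only [hP, Finset.filter_false, Finset.card_empty, Nat.cast_zero, Nat.cast_one,
          one_mul, abs_le]
        constructor <;> linarith
    intro t
    exact ⟨key _ _ measureReal_nonneg measureReal_le_one, key _ _ measureReal_nonneg measureReal_le_one⟩
  have h1 := koksma_upper M Cf (by linarith) μ hμ 1 (fun _ => z) (fun _ => hz) 1 hdisc 1
    one_pos le_rfl x hx
  simp only [Finset.prod_const, Finset.card_univ, Fintype.card_fin, pow_one, Nat.cast_one] at h1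
  have h2 : Real.exp 0 ≤ Real.exp (1 * ∫ y, Real.log |x - y| ∂μ + 2 * 1 * Real.log (M / 1) +
      2 * 1 * Cf * 1) := by
    rw [Real.exp_zero]
    exact hxz.trans h1
  rw [Real.exp_le_exp, div_one] at h2
  linarith

theorem phi_det_bound {n : ℕ} (T : Matrix (Fin (n + 1)) (Fin (n + 1)) ℝ) (M : ℝ)
    (h : (M⁻¹) ^ (n + 1) ≤ |T.det|) : ∃ i j, M⁻¹ / (n + 1) ≤ |T i j| := by
  by_contra hcon
  push Not at hcon
  obtain ⟨p, _, hp⟩ := Finset.exists_max_image (Finset.univ : Finset (Fin (n+1) × Fin (n+1)))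
    (fun p => |T p.1 p.2|) ⟨(0, 0), Finset.mem_univ _⟩
  set x := |T p.1 p.2| with hx
  have hx0 : 0 ≤ x := abs_nonneg _
  have h1 : ∀ i j, |T i j| ≤ x := fun i j => hp (i, j) (Finset.mem_univ _)
  have h2 : |T.det| ≤ (Fintype.card (Fin (n + 1))).factorial • x ^ (Fintype.card (Fin (n + 1))) :=
    Matrix.det_le (abv := AbsoluteValue.abs) h1
  rw [Fintype.card_fin, nsmul_eq_mul] at h2
  have h3 : ((n + 1).factorial : ℝ) ≤ ((n:ℝ) + 1) ^ (n + 1) := by
    exact_mod_cast Nat.factorial_le_pow (n + 1)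
  have h4 : x < M⁻¹ / (n + 1) := hcon p.1 p.2
  have h5 : ((n:ℝ) + 1) * x < M⁻¹ := by
    rw [lt_div_iff₀ (by positivity)] at h4
    linarith
  have h6 : ((n + 1).factorial : ℝ) * x ^ (n + 1) ≤ (((n:ℝ) + 1) * x) ^ (n + 1) := by
    rw [mul_pow]
    gcongr
  have h7 : (((n:ℝ) + 1) * x) ^ (n + 1) < (M⁻¹) ^ (n + 1) := by
    gcongr
  linarith

theorem dual_norm (M Cf : ℝ) (hM : 4 ≤ M) (hCf : 1 ≤ Cf) (μ : Measure ℝ) (hμ : Reg M Cf μ)
    (harith : IsArith μ) (hI : 0 ≤ ∫ x, ∫ y, Real.log |x - y| ∂μ ∂μ) :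
    ∃ C : ℝ, 0 < C ∧ ∀ (a n₀ : ℕ), 0 < a → n₀ ≤ 2 * a - 1 →
      ∀ c : ℕ → ℤ, (∃ j < 2 * a - 1, c j ≠ 0) →
      ∃ P : ℝ[X], P.natDegree ≤ 2 * a - 2 ∧
        (∀ x ∈ Icc (0 : ℝ) M, |P.eval x| ≤ Real.exp (n₀ * ∫ y, Real.log |x - y| ∂μ)) ∧
        (2 * a : ℝ) ^ (-C) * M ^ (-((2 * a - n₀ : ℝ) + 3)) ≤ |phi a c P| := by
  have hprob := hμ.1
  have hM1 : 1 ≤ M := by linarith
  have hMpos : 0 < M := by linarith
  have hlogM : 0 ≤ Real.log M := Real.log_nonneg hM1
  have hlog2 : 0 < Real.log 2 := Real.log_pos (by norm_num)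
  -- constant
  refine ⟨11 + (9 * Real.log M + 8 * Cf) / Real.log 2, by positivity, ?_⟩
  intro a n₀ ha hn₀ c hc
  obtain ⟨m, hm1, hma, Q, hQ0, hQdeg, hdet⟩ := hankel a ha c hc
  obtain ⟨n, rfl⟩ : ∃ n, m = n + 1 := ⟨m - 1, by omega⟩
  set b := 2 * a - 2 * (n + 1) with hb
  obtain ⟨hQn, hQint, hQpos⟩ := harith Q hQ0
  obtain ⟨y, hymem, hydisc, hyprod⟩ := good_points M Cf hM1 μ hμ b Q hQ0 hQint hQpos
  obtain ⟨z, hzmem, hzdisc, hzne, hzprod⟩ := vand_points M Cf hM1 μ hμ hI n
  set B : ℝ[X] := ∏ l, (X - C (y l)) with hB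
  have h1 := hdet y (fun i => omitPt z i) (fun i => Nat.lt_succ_of_le (omitPt_natDegree z i))
  rw [det_omitPt_sq z hzne] at h1
  have h2 : (M⁻¹) ^ (n + 1) ≤
      |Matrix.det (Matrix.of fun i j : Fin (n+1) => phi a c (omitPt z i * omitPt z j * B))| := by
    refine le_trans ?_ h1
    refine hzprod.trans ?_
    have h3 : 0 ≤ ∏ i, ∏ k : Fin n, |z i - z (i.succAbove k)| := by positivity
    nlinarith
  obtain ⟨i, j, hij⟩ := phi_det_bound _ M h2
  rw [Matrix.of_apply] at hij
  -- notation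
  have haR : (1:ℝ) ≤ a := by exact_mod_cast ha
  have h2a : (2:ℝ) ≤ 2 * a := by linarith
  have hlog2a : Real.log 2 ≤ Real.log (2 * a) := Real.log_le_log (by norm_num) h2a
  set Z : ℝ := (2 * a - 1 - n₀) * Real.log M + 12 * Real.log M + 10 * Real.log (2 * a) + 8 * Cf with hZ
  -- upper bounds
  have hAbound : ∀ (i : Fin (n + 1)) (x : ℝ), x ∈ Icc (0:ℝ) M → |(omitPt z i).eval x| ≤
      Real.exp (n * ∫ y, Real.log |x - y| ∂μ + 4 * Real.log M + 4 * Real.log (2 * a) + 2 * Cf) := by
    intro i x hx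
    rw [omitPt_eval, Finset.abs_prod]
    have h3 := koksma_upper M Cf hM1 μ hμ n (fun k => z (i.succAbove k)) (fun k => hzmem _) 2
      (disc_omit z i hzdisc) (1 / (n + 1)) (by positivity)
      (by rw [div_le_one (by positivity)]; linarith [Nat.cast_nonneg (α := ℝ) n]) x hx
    refine h3.trans ?_
    rw [Real.exp_le_exp]
    have h4 : Real.log (M / (1 / ((n:ℝ) + 1))) ≤ Real.log M + Real.log (2 * a) := by
      rw [← Real.log_mul hMpos.ne' (by positivity)]
      refine Real.log_le_log (by positivity) ?_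
      rw [div_div_eq_mul_div, div_one]
      have : ((n:ℝ) + 1) ≤ 2 * a := by
        have : n + 1 ≤ 2 * a := by omega
        exact_mod_cast this
      gcongr
    have h5 : 2 * (n:ℝ) * Cf * (1 / (n + 1)) ≤ 2 * Cf := by
      rw [mul_one_div, div_le_iff₀ (by positivity)]
      nlinarith [Nat.cast_nonneg (α := ℝ) n]
    linarith
  have hBbound : ∀ x : ℝ, x ∈ Icc (0:ℝ) M → |B.eval x| ≤
      Real.exp (b * ∫ y, Real.log |x - y| ∂μ + 2 * Real.log M + 2 * Real.log (2 * a) + 2 * Cf) := by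
    intro x hx
    rw [hB, eval_prod, Finset.abs_prod]
    simp only [eval_sub, eval_X, eval_C]
    have h3 := koksma_upper M Cf hM1 μ hμ b y hymem 1 hydisc (1 / (b + 1)) (by positivity)
      (by rw [div_le_one (by positivity)]; linarith [Nat.cast_nonneg (α := ℝ) b]) x hx
    refine h3.trans ?_
    rw [Real.exp_le_exp]
    have h4 : Real.log (M / (1 / ((b:ℝ) + 1))) ≤ Real.log M + Real.log (2 * a) := by
      rw [← Real.log_mul hMpos.ne' (by positivity)]
      refine Real.log_le_log (by positivity) ?_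
      rw [div_div_eq_mul_div, div_one]
      have : ((b:ℝ) + 1) ≤ 2 * a := by
        have : b + 1 ≤ 2 * a := by omega
        exact_mod_cast this
      gcongr
    have h5 : 2 * (b:ℝ) * Cf * (1 / (b + 1)) ≤ 2 * Cf := by
      rw [mul_one_div, div_le_iff₀ (by positivity)]
      nlinarith [Nat.cast_nonneg (α := ℝ) b]
    linarith
  refine ⟨C (Real.exp (-Z)) * (omitPt z i * omitPt z j * B), ?_, ?_, ?_⟩
  · refine (natDegree_C_mul_le _ _).trans ?_
    refine natDegree_mul_le.trans ?_
    have h3 := natDegree_mul_le (p := omitPt z i) (q := omitPt z j)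
    have h4 := omitPt_natDegree z i
    have h5 := omitPt_natDegree z j
    have h6 := natDegree_prod_linear y
    rw [← hB] at h6
    omega
  · intro x hx
    rw [eval_C_mul, eval_mul, eval_mul, abs_mul, abs_mul, abs_mul, Real.abs_exp]
    set U := ∫ y, Real.log |x - y| ∂μ with hU
    have hU1 : U ≤ Real.log M := pot_le hM1 hμ hx
    have hU2 : -(2 * Real.log M + 2 * Cf) ≤ U := le_pot (by linarith) hμ hx
    calc Real.exp (-Z) * (|(omitPt z i).eval x| * |(omitPt z j).eval x| * |B.eval x|)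
        ≤ Real.exp (-Z) * (Real.exp (n * U + 4 * Real.log M + 4 * Real.log (2 * a) + 2 * Cf) *
            Real.exp (n * U + 4 * Real.log M + 4 * Real.log (2 * a) + 2 * Cf) *
            Real.exp (b * U + 2 * Real.log M + 2 * Real.log (2 * a) + 2 * Cf)) := by
          gcongr
          · exact hAbound i x hx
          · exact hAbound j x hx
          · exact hBbound x hx
      _ = Real.exp (-Z + ((n * U + 4 * Real.log M + 4 * Real.log (2 * a) + 2 * Cf) +
            (n * U + 4 * Real.log M + 4 * Real.log (2 * a) + 2 * Cf) +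
            (b * U + 2 * Real.log M + 2 * Real.log (2 * a) + 2 * Cf))) := by
          simp only [Real.exp_add]
      _ ≤ Real.exp (n₀ * U) := by
          rw [Real.exp_le_exp]
          have hbR : (b:ℝ) = 2 * a - 2 * (n + 1) := by
            rw [hb, Nat.cast_sub (by omega)]
            push_cast; ring
          have hn₀R : (n₀:ℝ) ≤ 2 * a - 1 := by
            have : n₀ + 1 ≤ 2 * a := by omega
            have : ((n₀ + 1 : ℕ):ℝ) ≤ ((2 * a : ℕ):ℝ) := by exact_mod_cast this
            push_cast at this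
            linarith
          have h7 : (2 * (a:ℝ) - 1 - n₀) * U ≤ (2 * a - 1 - n₀) * Real.log M :=
            mul_le_mul_of_nonneg_left hU1 (by linarith)
          rw [hZ, hbR]
          nlinarith
  · rw [phi_C_mul, abs_mul, Real.abs_exp]
    have h3 : Real.exp (-Z) * (M⁻¹ / (n + 1)) ≤
        Real.exp (-Z) * |phi a c (omitPt z i * omitPt z j * B)| := by gcongr
    refine le_trans ?_ h3
    have h4 : M⁻¹ / (2 * a) ≤ M⁻¹ / (n + 1) := by
      have : ((n:ℝ) + 1) ≤ 2 * a := by
        have : n + 1 ≤ 2 * a := by omega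
        exact_mod_cast this
      gcongr
    refine le_trans ?_ (mul_le_mul_of_nonneg_left h4 (Real.exp_pos _).le)
    have h5 : M⁻¹ / (2 * a) = Real.exp (-Real.log M - Real.log (2 * a)) := by
      rw [Real.exp_sub, Real.exp_neg, Real.exp_log hMpos, Real.exp_log (by linarith)]
    rw [h5, ← Real.exp_add, Real.rpow_def_of_pos (by linarith), Real.rpow_def_of_pos hMpos,
      ← Real.exp_add, Real.exp_le_exp]
    have h6 : 9 * Real.log M + 8 * Cf ≤ Real.log (2 * a) * ((9 * Real.log M + 8 * Cf) / Real.log 2) := by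
      rw [mul_div_assoc', le_div_iff₀ hlog2]
      have : 0 ≤ 9 * Real.log M + 8 * Cf := by positivity
      nlinarith
    rw [hZ]
    nlinarith

end Pool.Agent.TraceMin
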