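import Pool.Agent.TraceMin.Defs

/-!
Module T5: duality by Hahn-Banach in `C([-R,R])` and the Riesz representation theorem.
-/

open MeasureTheory Polynomial Set

namespace Pool.Agent.TraceMin

namespace Duality

/-- Riesz representation on a compact space. -/
theorem riesz_compact {X : Type} [TopologicalSpace X] [T2Space X] [CompactSpace X]
    [MeasurableSpace X] [BorelSpace X] (φ : C(X, ℝ) →L[ℝ] ℝ)
    (hpos : ∀ f : C(X, ℝ), 0 ≤ f → 0 ≤ φ f) :
    ∃ ν : Measure X, IsFiniteMeasure ν ∧ ∀ f : C(X, ℝ), ∫ x, f x ∂ν = φ f := by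
  let L : CompactlySupportedContinuousMap X ℝ →ₗ[ℝ] ℝ :=
  { toFun := fun g => φ g.toContinuousMap
    map_add' := fun g g' => by
      have : (g + g').toContinuousMap = g.toContinuousMap + g'.toContinuousMap := by
        ext; rfl
      rw [this, map_add]
    map_smul' := fun c g => by
      have : (c • g).toContinuousMap = c • g.toContinuousMap := by
        ext; rfl
      rw [this, map_smul]; rfl }
  let Λ := PositiveLinearMap.mk₀ L 
    (fun g hg => hpos _ (fun x => CompactlySupportedContinuousMap.le_def.mp hg x))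
  refine ⟨RealRMK.rieszMeasure Λ, inferInstance, fun f => ?_⟩
  let f' : CompactlySupportedContinuousMap X ℝ :=
  { toFun := f
    hasCompactSupport' := HasCompactSupport.of_compactSpace _ }
  exact RealRMK.integral_rieszMeasure Λ f'

/-- integrability and nonnegativity of `log|Q|` -/
def Ok (ν : Measure ℝ) (Q : ℤ[X]) : Prop :=
    ν {x : ℝ | aeval x Q = 0} = 0 ∧
    Integrable (fun x : ℝ => Real.log |aeval x Q|) ν ∧
    0 ≤ ∫ x : ℝ, Real.log |aeval x Q| ∂ν

theorem isArith_of_irreducible (ν : Measure ℝ) [IsProbabilityMeasure ν]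
    (h : ∀ Q : ℤ[X], Irreducible Q → 0 < Q.natDegree → 0 < Q.leadingCoeff → Ok ν Q) :
    IsArith ν := by
  have h1 : ∀ Q : ℤ[X], Irreducible Q → Ok ν Q := by
    intro Q hQ
    rcases Nat.eq_zero_or_pos Q.natDegree with hd | hd
    · obtain ⟨c, rfl⟩ := natDegree_eq_zero.mp hd
      have hc : c ≠ 0 := by
        rintro rfl
        exact hQ.ne_zero (by simp)
      have hc1 : (1 : ℝ) ≤ |(c : ℝ)| := by
        exact_mod_cast Int.one_le_abs hc
      refine ⟨?_, ?_, ?_⟩
      · have : {x : ℝ | aeval x (C c : ℤ[X]) = 0} = ∅ := by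
          ext x
          simp [hc]
        rw [this]; simp
      · simp
      · have : (fun x : ℝ => Real.log |aeval x (C c : ℤ[X])|) = fun _ => Real.log |(c : ℝ)| := by
          ext x; simp
        rw [this, integral_const, smul_eq_mul]
        exact mul_nonneg measureReal_nonneg (Real.log_nonneg hc1)
    · rcases lt_trichotomy Q.leadingCoeff 0 with hl | hl | hl
      · have hneg : Irreducible (-Q) := by
          have ha : Associated Q (-Q) := ⟨-1, by simp⟩
          exact ha.irreducible hQ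
        have := h (-Q) hneg (by simpa using hd) (by simpa using hl)
        simpa [Ok] using this
      · exact absurd (leadingCoeff_eq_zero.mp hl) hQ.ne_zero
      · exact h Q hQ hd hl
  intro Q
  refine WfDvdMonoid.induction_on_irreducible (motive := fun Q : ℤ[X] => Q ≠ 0 → Ok ν Q) Q
    (fun h => (h rfl).elim) ?_ ?_
  · intro u hu _
    obtain ⟨r, hr, rfl⟩ := Polynomial.isUnit_iff.mp hu
    rcases Int.isUnit_iff.mp hr with rfl | rfl
    · refine ⟨by simp, by simp, by simp⟩
    · refine ⟨by simp, by simp, by simp⟩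
  · intro a i ha hi IH _
    obtain ⟨a1, a2, a3⟩ := IH ha
    obtain ⟨i1, i2, i3⟩ := h1 i hi
    have hae : (fun x : ℝ => Real.log |aeval x (i * a)|) =ᵐ[ν]
        fun x => Real.log |aeval x i| + Real.log |aeval x a| := by
      have e1 : ∀ᵐ x ∂ν, aeval x i ≠ 0 := by
        rw [ae_iff]; simpa using i1
      have e2 : ∀ᵐ x ∂ν, aeval x a ≠ 0 := by
        rw [ae_iff]; simpa using a1
      filter_upwards [e1, e2] with x hx1 hx2
      rw [map_mul, abs_mul, Real.log_mul (abs_ne_zero.mpr hx1) (abs_ne_zero.mpr hx2)]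
    refine ⟨?_, ?_, ?_⟩
    · have : {x : ℝ | aeval x (i * a) = 0} ⊆ {x : ℝ | aeval x i = 0} ∪ {x : ℝ | aeval x a = 0} := by
        intro x hx
        simpa using hx
      exact measure_mono_null this (measure_union_null i1 a1)
    · exact (i2.add a2).congr hae.symm
    · rw [integral_congr_ae hae, integral_add i2 a2]
      exact add_nonneg i3 a3

theorem xlogx_ge (x : ℝ) (hx : 0 ≤ x) : x * Real.log 8 + x - 8 ≤ x * Real.log x := by
  rcases hx.eq_or_lt with rfl | hx
  · simp
  · have h := Real.one_sub_inv_le_log_of_pos (show 0 < x / 8 by positivity)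
    have h2 : Real.log (x / 8) = Real.log x - Real.log 8 :=
      Real.log_div hx.ne' (by norm_num)
    rw [h2, inv_div] at h
    have h3 := mul_le_mul_of_nonneg_left h hx.le
    have h4 : x * (1 - 8 / x) = x - 8 := by field_simp
    rw [h4] at h3
    linarith

theorem one_le_log_eight : 1 ≤ Real.log 8 := by
  have h : Real.log 8 = 3 * Real.log 2 := by
    rw [show (8 : ℝ) = 2 ^ 3 by norm_num, Real.log_pow]; norm_num
  have := Real.log_two_gt_d9
  linarith

theorem int_log_real (a : ℝ) (h1 : -8 ≤ a) (h2 : a ≤ 8) :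
    0 ≤ ∫ y in (-8 : ℝ)..8, Real.log |y - a| := by
  simp only [Real.log_abs]
  rw [intervalIntegral.integral_comp_sub_right (fun x => Real.log x) a, integral_log]
  have e1 := xlogx_ge (8 - a) (by linarith)
  have e2 := xlogx_ge (8 + a) (by linarith)
  have e3 : Real.log (-8 - a) = Real.log (8 + a) := by
    rw [show (-8 - a) = -(8 + a) by ring, Real.log_neg_eq_log]
  rw [e3]
  have := one_le_log_eight
  nlinarith

theorem intble (α : ℂ) : IntervalIntegrable (fun y : ℝ => Real.log ‖(y : ℂ) - α‖) volume (-8) 8 := by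
  apply MeromorphicOn.intervalIntegrable_log_norm
  intro x _
  apply AnalyticAt.meromorphicAt
  exact (Complex.ofRealCLM.analyticAt x).sub analyticAt_const

theorem int_log_complex (α : ℂ) : 0 ≤ ∫ y in (-8 : ℝ)..8, Real.log ‖(y : ℂ) - α‖ := by
  set a : ℝ := max (-8) (min 8 α.re) with ha
  have ha1 : -8 ≤ a := le_max_left _ _
  have ha2 : a ≤ 8 := max_le (by norm_num) (min_le_left _ _)
  refine (int_log_real a ha1 ha2).trans ?_
  have hi : IntervalIntegrable (fun y : ℝ => Real.log |y - a|) volume (-8) 8 := by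
    have h := intble (a : ℂ)
    have he : (fun y : ℝ => Real.log ‖(y : ℂ) - (a : ℂ)‖) = fun y => Real.log |y - a| := by
      ext y
      rw [← Complex.ofReal_sub, Complex.norm_real, Real.norm_eq_abs]
    rwa [he] at h
  refine intervalIntegral.integral_mono_ae_restrict (by norm_num) hi (intble α) ?_
  have hae : ∀ᵐ y ∂(volume.restrict (Icc (-8 : ℝ) 8)), y ≠ a := by
    rw [ae_iff]
    simp
  filter_upwards [hae, ae_restrict_mem measurableSet_Icc] with y hy hy2
  have hle : |y - a| ≤ ‖(y : ℂ) - α‖ := by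
    have h3 : |y - α.re| ≤ ‖(y : ℂ) - α‖ := by
      have := Complex.abs_re_le_norm ((y : ℂ) - α)
      simpa using this
    refine le_trans ?_ h3
    rw [ha]
    rcases le_total 8 α.re with h | h
    · rw [min_eq_left h, max_eq_right (by norm_num), abs_sub_comm, abs_sub_comm y,
        abs_of_nonneg (by linarith [hy2.2]), abs_of_nonneg (by linarith [hy2.2])]
      linarith
    · rw [min_eq_right h]
      rcases le_total (-8) α.re with h' | h'
      · rw [max_eq_right h']
      · rw [max_eq_left h', abs_of_nonneg (by linarith [hy2.1]), abs_of_nonneg (by linarith [hy2.1])]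
        linarith
  exact Real.log_le_log (abs_pos.mpr (sub_ne_zero.mpr hy)) hle


/-- `∏ (y - α)` -/
noncomputable def FF (s : Multiset ℂ) (y : ℝ) : ℂ := (s.map fun α => (y : ℂ) - α).prod

theorem FF_props (s : Multiset ℂ) : {y : ℝ | FF s y = 0}.Finite ∧
    IntervalIntegrable (fun y : ℝ => Real.log ‖FF s y‖) volume (-8) 8 ∧
    0 ≤ ∫ y in (-8 : ℝ)..8, Real.log ‖FF s y‖ := by
  induction s using Multiset.induction_on with
  | empty => simp [FF]
  | cons α s ih =>
    obtain ⟨h1, h2, h3⟩ := ih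
    have hF : ∀ y, FF (α ::ₘ s) y = ((y : ℂ) - α) * FF s y := by
      intro y; simp [FF]
    have hfin : {y : ℝ | (y : ℂ) - α = 0}.Finite := by
      apply Set.Subsingleton.finite
      intro x hx y hy
      simp only [mem_ofPred_eq, sub_eq_zero] at hx hy
      exact_mod_cast hx.trans hy.symm
    have hae : ∀ᵐ (y : ℝ) ∂volume, Real.log ‖FF (α ::ₘ s) y‖
        = Real.log ‖(y : ℂ) - α‖ + Real.log ‖FF s y‖ := by
      have e1 : ∀ᵐ (y : ℝ) ∂volume, (y : ℂ) - α ≠ 0 := by
        rw [ae_iff]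
        simp only [ne_eq, not_not]
        exact hfin.measure_zero volume
      have e2 : ∀ᵐ (y : ℝ) ∂volume, FF s y ≠ 0 := by
        rw [ae_iff]; simpa using h1.measure_zero volume
      filter_upwards [e1, e2] with y hy1 hy2
      rw [hF, norm_mul, Real.log_mul (norm_ne_zero_iff.mpr hy1) (norm_ne_zero_iff.mpr hy2)]
    refine ⟨?_, ?_, ?_⟩
    · refine (hfin.union h1).subset ?_
      intro y hy
      simp only [mem_ofPred_eq, hF, mul_eq_zero] at hy
      exact hy
    · refine ((intble α).add h2).congr_ae ?_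
      exact ae_restrict_of_ae (hae.mono fun y hy => hy.symm)
    · rw [intervalIntegral.integral_congr_ae (hae.mono fun y hy _ => hy),
        intervalIntegral.integral_add (intble α) h2]
      exact add_nonneg (int_log_complex α) h3

theorem aeval_FF (Q : ℤ[X]) (y : ℝ) :
    |aeval y Q| = |(Q.leadingCoeff : ℝ)| * ‖FF (Q.aroots ℂ) y‖ := by
  have h1 : ((aeval y Q : ℝ) : ℂ) = aeval (y : ℂ) Q := by
    have := Polynomial.aeval_algebraMap_apply ℂ y Q
    simpa using this.symm
  have h2 := (IsAlgClosed.splits (Q.map (algebraMap ℤ ℂ))).eval_eq_prod_roots (y : ℂ)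
  rw [eval_map_algebraMap, leadingCoeff_map_of_injective
    (RingHom.injective_int (algebraMap ℤ ℂ))] at h2
  rw [← Real.norm_eq_abs, ← Complex.norm_real, h1, h2, norm_mul]
  congr 1
  simp

/-- uniform measure on `[-8,8]` -/
noncomputable def unif : Measure ℝ := ENNReal.ofReal (1 / 16) • volume.restrict (Icc (-8 : ℝ) 8)

instance : IsProbabilityMeasure unif := by
  constructor
  rw [unif, Measure.smul_apply, Measure.restrict_apply MeasurableSet.univ, univ_inter,
    Real.volume_Icc, smul_eq_mul, ← ENNReal.ofReal_mul (by norm_num)]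
  norm_num

theorem unif_arith : IsArith unif := by
  intro Q hQ
  obtain ⟨h1, h2, h3⟩ := FF_props (Q.aroots ℂ)
  have hl : Q.leadingCoeff ≠ 0 := leadingCoeff_ne_zero.mpr hQ
  have hl1 : (1 : ℝ) ≤ |(Q.leadingCoeff : ℝ)| := by exact_mod_cast Int.one_le_abs hl
  have hz : {x : ℝ | aeval x Q = 0} = {y : ℝ | FF (Q.aroots ℂ) y = 0} := by
    ext y
    have := aeval_FF Q y
    simp only [mem_ofPred_eq]
    rw [← abs_eq_zero, this, mul_eq_zero, norm_eq_zero]
    constructor
    · rintro (h | h)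
      · rw [h] at hl1; norm_num at hl1
      · exact h
    · exact fun h => Or.inr h
  have hae : ∀ᵐ (y : ℝ) ∂volume, Real.log |aeval y Q|
        = Real.log |(Q.leadingCoeff : ℝ)| + Real.log ‖FF (Q.aroots ℂ) y‖ := by
    have e2 : ∀ᵐ (y : ℝ) ∂volume, FF (Q.aroots ℂ) y ≠ 0 := by
      rw [ae_iff]; simpa using h1.measure_zero volume
    filter_upwards [e2] with y hy2
    rw [aeval_FF, Real.log_mul (by positivity) (norm_ne_zero_iff.mpr hy2)]
  have hint : IntervalIntegrable (fun y : ℝ => Real.log |aeval y Q|) volume (-8) 8 := by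
    refine ((intervalIntegrable_const (c := Real.log |(Q.leadingCoeff : ℝ)|)).add h2).congr_ae ?_
    exact ae_restrict_of_ae (hae.mono fun y hy => hy.symm)
  have hint2 : IntegrableOn (fun y : ℝ => Real.log |aeval y Q|) (Icc (-8) 8) volume := by
    rw [integrableOn_Icc_iff_integrableOn_Ioc]
    exact (intervalIntegrable_iff_integrableOn_Ioc_of_le (by norm_num)).mp hint
  refine ⟨?_, ?_, ?_⟩
  · rw [hz, unif, Measure.smul_apply, smul_eq_mul]
    rw [show volume.restrict (Icc (-8 : ℝ) 8) {y : ℝ | FF (Q.aroots ℂ) y = 0} = 0 from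
      le_antisymm ((Measure.restrict_apply_le _ _).trans (h1.measure_zero volume).le) zero_le]
    simp
  · exact hint2.integrable.smul_measure ENNReal.ofReal_ne_top
  · rw [unif, integral_smul_measure, integral_Icc_eq_integral_Ioc,
      ← intervalIntegral.integral_of_le (by norm_num),
      intervalIntegral.integral_congr_ae (hae.mono fun y hy _ => hy),
      intervalIntegral.integral_add intervalIntegrable_const h2]
    have : 0 ≤ ∫ _ in (-8 : ℝ)..8, Real.log |(Q.leadingCoeff : ℝ)| := by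
      rw [intervalIntegral.integral_const, smul_eq_mul]
      exact mul_nonneg (by norm_num) (Real.log_nonneg hl1)
    exact mul_nonneg ENNReal.toReal_nonneg (add_nonneg this h3)

/-- admissible data -/
def Adm (S : Finset ℤ[X]) (a : ℤ[X] → ℝ) : Prop :=
  ∀ Q ∈ S, Irreducible Q ∧ 0 < Q.natDegree ∧ 0 < Q.leadingCoeff ∧ 0 < a Q

/-- the function `F` dominates `G + δ` on `[-R,R]` -/
def Cert (R : ℝ) (S : Finset ℤ[X]) (a : ℤ[X] → ℝ) (δ : ℝ) (F : ℝ → ℝ) : Prop :=
  ∀ y ∈ Icc (-R) R, (∀ Q ∈ S, aeval y Q ≠ 0) →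
    ∑ Q ∈ S, a Q * Real.log |aeval y Q| + δ ≤ F y

theorem int_lower {R : ℝ} (μ : Measure ℝ) [IsProbabilityMeasure μ]
    (hμ : μ (Icc (-R) R)ᶜ = 0) (hA : IsArith μ) {S : Finset ℤ[X]} {a : ℤ[X] → ℝ} {δ : ℝ}
    {F : ℝ → ℝ} (hS : Adm S a) (hC : Cert R S a δ F) (hF : Integrable F μ) :
    δ ≤ ∫ y, F y ∂μ := by
  have hQ0 : ∀ Q ∈ S, Q ≠ 0 := fun Q hQ => (hS Q hQ).1.ne_zero
  have e1 : ∀ᵐ y ∂μ, y ∈ Icc (-R) R := by
    rw [ae_iff]; exact hμ
  have e2 : ∀ᵐ y ∂μ, ∀ Q ∈ S, aeval y Q ≠ 0 := by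
    rw [Filter.eventually_all_finset]
    intro Q hQ
    rw [ae_iff]
    simp only [ne_eq, not_not]
    exact (hA Q (hQ0 Q hQ)).1
  have hint : Integrable (fun y => ∑ Q ∈ S, a Q * Real.log |aeval y Q|) μ :=
    integrable_finsetSum _ fun Q hQ => (hA Q (hQ0 Q hQ)).2.1.const_mul _
  have h1 : ∫ y, (∑ Q ∈ S, a Q * Real.log |aeval y Q| + δ) ∂μ ≤ ∫ y, F y ∂μ := by
    refine integral_mono_ae (hint.add (integrable_const δ)) hF ?_
    filter_upwards [e1, e2] with y h1 h2
    exact hC y h1 h2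
  have h2 : ∫ y, (∑ Q ∈ S, a Q * Real.log |aeval y Q| + δ) ∂μ
      = (∑ Q ∈ S, a Q * ∫ y, Real.log |aeval y Q| ∂μ) + δ := by
    rw [integral_add hint (integrable_const δ), integral_finsetSum _
      fun Q hQ => (hA Q (hQ0 Q hQ)).2.1.const_mul _]
    simp [integral_const_mul]
  have h3 : 0 ≤ ∑ Q ∈ S, a Q * ∫ y, Real.log |aeval y Q| ∂μ :=
    Finset.sum_nonneg fun Q hQ => mul_nonneg (hS Q hQ).2.2.2.le (hA Q (hQ0 Q hQ)).2.2
  linarith

theorem integrable_sq {R : ℝ} (μ : Measure ℝ) [IsProbabilityMeasure μ]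
    (hμ : μ (Icc (-R) R)ᶜ = 0) : Integrable (fun y : ℝ => y ^ 2) μ := by
  have e1 : ∀ᵐ y ∂μ, y ∈ Icc (-R) R := by
    rw [ae_iff]; exact hμ
  refine Integrable.of_bound (by fun_prop) (R ^ 2) ?_
  filter_upwards [e1] with y hy
  rw [Real.norm_eq_abs, abs_of_nonneg (sq_nonneg y)]
  nlinarith [hy.1, hy.2]

/-- the open convex cone -/
def UU (R : ℝ) : Set C(Icc (-R) R, ℝ) :=
  {f | ∃ (S : Finset ℤ[X]) (a : ℤ[X] → ℝ) (δ : ℝ), 0 < δ ∧ Adm S a ∧
    ∀ y : Icc (-R) R, (∀ Q ∈ S, aeval (y : ℝ) Q ≠ 0) →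
      ∑ Q ∈ S, a Q * Real.log |aeval (y : ℝ) Q| + δ ≤ f y}

theorem isOpen_UU (R : ℝ) : IsOpen (UU R) := by
  rw [Metric.isOpen_iff]
  rintro f ⟨S, a, δ, hδ, hS, h⟩
  refine ⟨δ / 2, by positivity, fun g hg => ⟨S, a, δ / 2, by positivity, hS, fun y hy => ?_⟩⟩
  have h1 := h y hy
  have h2 : dist (g y) (f y) ≤ dist g f := ContinuousMap.dist_apply_le_dist y
  rw [Metric.mem_ball] at hg
  rw [Real.dist_eq] at h2
  have h3 := (abs_le.mp (h2.trans hg.le)).1
  linarith

theorem UU_smul {R : ℝ} {f : C(Icc (-R) R, ℝ)} (hf : f ∈ UU R) {t : ℝ} (ht : 0 < t) :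
    t • f ∈ UU R := by
  obtain ⟨S, a, δ, hδ, hS, h⟩ := hf
  refine ⟨S, fun Q => t * a Q, t * δ, by positivity, fun Q hQ => ?_, fun y hy => ?_⟩
  · obtain ⟨h1, h2, h3, h4⟩ := hS Q hQ
    exact ⟨h1, h2, h3, by positivity⟩
  · have h1 := mul_le_mul_of_nonneg_left (h y hy) ht.le
    rw [mul_add, Finset.mul_sum] at h1
    simp only [mul_assoc]
    simpa using h1

theorem UU_add {R : ℝ} {f g : C(Icc (-R) R, ℝ)} (hf : f ∈ UU R) (hg : g ∈ UU R) :
    f + g ∈ UU R := by
  classical
  obtain ⟨S, a, δ, hδ, hS, h⟩ := hf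
  obtain ⟨S', a', δ', hδ', hS', h'⟩ := hg
  refine ⟨S ∪ S', fun Q => (if Q ∈ S then a Q else 0) + (if Q ∈ S' then a' Q else 0),
    δ + δ', by positivity, fun Q hQ => ?_, fun y hy => ?_⟩
  · rw [Finset.mem_union] at hQ
    by_cases h1 : Q ∈ S
    · obtain ⟨g1, g2, g3, g4⟩ := hS Q h1
      refine ⟨g1, g2, g3, ?_⟩
      beta_reduce
      rw [if_pos h1]
      split_ifs with h2
      · have := (hS' Q h2).2.2.2
        linarith
      · linarith
    · have h2 := hQ.resolve_left h1
      obtain ⟨g1, g2, g3, g4⟩ := hS' Q h2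
      refine ⟨g1, g2, g3, ?_⟩
      beta_reduce
      rw [if_neg h1, if_pos h2]
      linarith
  · have h1 := h y fun Q hQ => hy Q (Finset.mem_union_left _ hQ)
    have h2 := h' y fun Q hQ => hy Q (Finset.mem_union_right _ hQ)
    have h3 : ∑ Q ∈ S ∪ S', ((if Q ∈ S then a Q else 0) + (if Q ∈ S' then a' Q else 0))
        * Real.log |aeval (y : ℝ) Q| = ∑ Q ∈ S, a Q * Real.log |aeval (y : ℝ) Q|
          + ∑ Q ∈ S', a' Q * Real.log |aeval (y : ℝ) Q| := by
      simp only [add_mul, ite_mul, zero_mul]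
      rw [Finset.sum_add_distrib, Finset.sum_ite_mem, Finset.sum_ite_mem,
        Finset.union_inter_cancel_left, Finset.union_inter_cancel_right]
    rw [h3]
    simp only [ContinuousMap.add_apply]
    linarith

theorem UU_pos {R : ℝ} {f : C(Icc (-R) R, ℝ)} {c : ℝ} (hc : 0 < c) (hf : ∀ y, c ≤ f y) :
    f ∈ UU R :=
  ⟨∅, fun _ => 0, c, hc, fun Q hQ => absurd hQ (Finset.notMem_empty Q), fun y _ => by
    simpa using hf y⟩

theorem convex_UU (R : ℝ) : Convex ℝ (UU R) := by
  rw [convex_iff_forall_pos]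
  intro f hf g hg a b ha hb _
  exact UU_add (UU_smul hf ha) (UU_smul hg hb)


/-- the function `y ^ 2 - l` -/
def sqf (R l : ℝ) : C(Icc (-R) R, ℝ) := ⟨fun y => (y : ℝ) ^ 2 - l, by fun_prop⟩

/-- a normalised positive functional which is nonnegative on the cone -/
theorem exists_functional (R : ℝ) (l : ℝ) (hl : sqf R l ∉ UU R) :
    ∃ ψ : C(Icc (-R) R, ℝ) →L[ℝ] ℝ, (∀ f : C(Icc (-R) R, ℝ), 0 ≤ f → 0 ≤ ψ f) ∧
      ψ 1 = 1 ∧ (∀ f ∈ UU R, 0 ≤ ψ f) ∧ ψ (sqf R l) ≤ 0 := by
  obtain ⟨φ, hφ⟩ := geometric_hahn_banach_open_point (convex_UU R) (isOpen_UU R) hl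
  -- nonnegativity on the cone
  have h1 : ∀ f ∈ UU R, φ f ≤ 0 := by
    intro f hf
    by_contra hc
    push Not at hc
    have h2 := hφ _ (UU_smul hf (t := (|φ (sqf R l)| + 1) / φ f) (by positivity))
    rw [map_smul, smul_eq_mul, div_mul_cancel₀ _ hc.ne'] at h2
    have := le_abs_self (φ (sqf R l))
    linarith
  have hone : (1 : C(Icc (-R) R, ℝ)) ∈ UU R := UU_pos one_pos fun y => by simp
  have h2 : 0 ≤ φ (sqf R l) := by
    by_contra hc
    push Not at hc
    have h3 := h1 _ hone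
    have h4 := hφ _ (UU_smul hone (t := (-φ (sqf R l)) / (1 + |φ 1|))
      (div_pos (neg_pos.mpr hc) (by positivity)))
    rw [map_smul, smul_eq_mul, div_mul_eq_mul_div] at h4
    have h5 : (-φ (sqf R l)) * |φ 1| / (1 + |φ 1|) ≤ -φ (sqf R l) := by
      rw [div_le_iff₀ (by positivity)]
      have := abs_nonneg (φ 1)
      nlinarith
    rw [abs_of_nonpos h3] at h5
    have h6 : (-φ (sqf R l)) * φ 1 / (1 + |φ 1|) = -((-φ (sqf R l)) * -φ 1 / (1 + |φ 1|)) := by
      ring
    rw [h6] at h4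
    rw [abs_of_nonpos h3] at h4
    linarith
  have h3 : ∀ f : C(Icc (-R) R, ℝ), 0 ≤ f → φ f ≤ 0 := by
    intro f hf
    by_contra hc
    push Not at hc
    have h4 : ∀ ε : ℝ, 0 < ε → f + ε • (1 : C(Icc (-R) R, ℝ)) ∈ UU R := by
      intro ε hε
      refine UU_pos hε fun y => ?_
      have := ContinuousMap.le_def.mp hf y
      simp only [ContinuousMap.zero_apply] at this
      simp only [ContinuousMap.add_apply, ContinuousMap.smul_apply, ContinuousMap.one_apply,
        smul_eq_mul, mul_one]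
      linarith
    have h5 := h1 _ (h4 (φ f / (2 * (1 + |φ 1|))) (by positivity))
    rw [map_add, map_smul, smul_eq_mul] at h5
    have h6 : -(φ f / 2) ≤ φ f / (2 * (1 + |φ 1|)) * φ 1 := by
      have h7 : φ f / (2 * (1 + |φ 1|)) * |φ 1| ≤ φ f / 2 := by
        rw [div_mul_eq_mul_div, div_le_div_iff₀ (by positivity) (by positivity)]
        have := abs_nonneg (φ 1)
        nlinarith
      have h8 : -|φ 1| ≤ φ 1 := neg_abs_le _
      have h9 := mul_le_mul_of_nonneg_left h8
        (show 0 ≤ φ f / (2 * (1 + |φ 1|)) by positivity)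
      linarith
    linarith
  have h4 : φ 1 < 0 := by
    rcases lt_or_eq_of_le (h1 _ hone) with h | h
    · exact h
    · exfalso
      have h5 : 0 < φ (sqf R l) := by
        have := hφ _ hone
        rwa [h] at this
      -- the function is bounded above
      have h6 : φ (((R ^ 2 + |l|) • (1 : C(Icc (-R) R, ℝ))) + sqf R l) ≤ 0 := by
        apply h3
        rw [ContinuousMap.le_def]
        intro y
        simp only [ContinuousMap.add_apply, ContinuousMap.smul_apply, ContinuousMap.one_apply,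
          smul_eq_mul, mul_one, sqf, ContinuousMap.coe_mk, ContinuousMap.zero_apply]
        have := le_abs_self l
        nlinarith [sq_nonneg (y : ℝ), sq_nonneg R]
      rw [map_add, map_smul, h] at h6
      simp at h6
      linarith
  refine ⟨(φ 1)⁻¹ • φ, fun f hf => ?_, ?_, fun f hf => ?_, ?_⟩
  · simp only [_root_.smul_apply, smul_eq_mul]
    exact mul_nonneg_of_nonpos_of_nonpos (inv_nonpos.mpr h4.le) (h3 f hf)
  · simp only [_root_.smul_apply, smul_eq_mul]
    exact inv_mul_cancel₀ h4.ne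
  · simp only [_root_.smul_apply, smul_eq_mul]
    exact mul_nonneg_of_nonpos_of_nonpos (inv_nonpos.mpr h4.le) (h1 f hf)
  · simp only [_root_.smul_apply, smul_eq_mul]
    exact mul_nonpos_of_nonpos_of_nonneg (inv_nonpos.mpr h4.le) h2


/-- truncated logarithm -/
noncomputable def trunc (R : ℝ) (Q : ℤ[X]) (n : ℕ) : C(Icc (-R) R, ℝ) where
  toFun y := Real.log (max |aeval (y : ℝ) Q| (Real.exp (-n)))
  continuous_toFun := by
    refine Continuous.log ?_ fun y => ?_
    · exact (((Polynomial.continuous_aeval Q).comp continuous_subtype_val).abs).max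
        continuous_const
    · exact (lt_max_of_lt_right (Real.exp_pos _)).ne'

theorem ok_sub (R : ℝ) (ν : Measure (Icc (-R) R)) [IsProbabilityMeasure ν]
    (h : ∀ f ∈ UU R, 0 ≤ ∫ x, f x ∂ν) (Q : ℤ[X]) (hQ : Irreducible Q)
    (hQ1 : 0 < Q.natDegree) (hQ2 : 0 < Q.leadingCoeff) :
    ν {x : Icc (-R) R | aeval (x : ℝ) Q = 0} = 0 ∧
    Integrable (fun x : Icc (-R) R => Real.log |aeval (x : ℝ) Q|) ν ∧
    0 ≤ ∫ x : Icc (-R) R, Real.log |aeval (x : ℝ) Q| ∂ν := by
  have hcont : Continuous fun y : ℝ => aeval y Q := Polynomial.continuous_aeval Q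
  have hint : ∀ n, Integrable (fun x => trunc R Q n x) ν := fun n =>
    (trunc R Q n).continuous.integrable_of_hasCompactSupport
      (HasCompactSupport.of_compactSpace _)
  have h0 : ∀ n, 0 ≤ ∫ x, trunc R Q n x ∂ν := by
    intro n
    refine le_of_forall_pos_le_add fun ε hε => ?_
    have h1 : trunc R Q n + ε • (1 : C(Icc (-R) R, ℝ)) ∈ UU R := by
      refine ⟨{Q}, fun _ => 1, ε, hε, ?_, ?_⟩
      · intro Q' hQ'
        rw [Finset.mem_singleton] at hQ'
        subst hQ'
        exact ⟨hQ, hQ1, hQ2, one_pos⟩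
      · intro y hy
        have hy' := hy Q (Finset.mem_singleton_self Q)
        rw [Finset.sum_singleton, one_mul]
        simp only [ContinuousMap.add_apply, ContinuousMap.smul_apply, ContinuousMap.one_apply,
          smul_eq_mul, mul_one, add_le_add_iff_right]
        exact Real.log_le_log (abs_pos.mpr hy') (le_max_left _ _)
    have h2 := h _ h1
    simp only [ContinuousMap.add_apply, ContinuousMap.smul_apply, ContinuousMap.one_apply,
          smul_eq_mul, mul_one] at h2
    rw [integral_add (hint n) (integrable_const _)] at h2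
    simpa using h2
  obtain ⟨M, hM0, hM⟩ : ∃ M : ℝ, 0 ≤ M ∧ ∀ y ∈ Icc (-R) R, |aeval y Q| ≤ Real.exp M := by
    obtain ⟨C, hC⟩ := isCompact_Icc.exists_bound_of_continuousOn
      (s := Icc (-R) R) hcont.continuousOn
    refine ⟨max C 0, le_max_right _ _, fun y hy => ?_⟩
    have h1 := hC y hy
    rw [Real.norm_eq_abs] at h1
    have h2 := Real.add_one_le_exp (max C 0)
    have h3 := le_max_left C 0
    linarith
  have hle : ∀ n x, trunc R Q n x ≤ M := by
    intro n x
    show Real.log (max |aeval (x : ℝ) Q| (Real.exp (-n))) ≤ M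
    rw [← Real.log_exp M]
    refine Real.log_le_log (lt_max_of_lt_right (Real.exp_pos _)) (max_le (hM _ x.2) ?_)
    apply Real.exp_le_exp.mpr
    have : (0 : ℝ) ≤ n := Nat.cast_nonneg n
    linarith
  have hanti : ∀ x, Antitone fun n => trunc R Q n x := by
    intro x n m hnm
    show Real.log (max |aeval (x : ℝ) Q| (Real.exp (-m)))
      ≤ Real.log (max |aeval (x : ℝ) Q| (Real.exp (-n)))
    refine Real.log_le_log (lt_max_of_lt_right (Real.exp_pos _)) (max_le_max le_rfl ?_)
    apply Real.exp_le_exp.mpr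
    have : (n : ℝ) ≤ m := by exact_mod_cast hnm
    linarith
  set F : ℕ → Icc (-R) R → ENNReal := fun n x => ENNReal.ofReal (M - trunc R Q n x) with hF
  have hFm : ∀ n, Measurable (F n) := fun n =>
    ENNReal.measurable_ofReal.comp (measurable_const.sub (trunc R Q n).continuous.measurable)
  have hFmono : Monotone F := by
    intro n m hnm x
    apply ENNReal.ofReal_le_ofReal
    have := hanti x hnm
    simp only at this
    linarith
  have hFint : ∀ n, ∫⁻ x, F n x ∂ν ≤ ENNReal.ofReal M := by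
    intro n
    show ∫⁻ x, ENNReal.ofReal (M - trunc R Q n x) ∂ν ≤ ENNReal.ofReal M
    have hi : Integrable (fun x => M - trunc R Q n x) ν := (integrable_const M).sub (hint n)
    rw [← ofReal_integral_eq_lintegral_ofReal hi
      (Filter.Eventually.of_forall fun x => sub_nonneg.mpr (hle n x))]
    apply ENNReal.ofReal_le_ofReal
    rw [integral_sub (integrable_const M) (hint n)]
    have := h0 n
    simp
    linarith
  have hsup : ∫⁻ x, ⨆ n, F n x ∂ν ≤ ENNReal.ofReal M := by
    rw [lintegral_iSup hFm hFmono]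
    exact iSup_le hFint
  have hae : ∀ᵐ (x : Icc (-R) R) ∂ν, aeval (x : ℝ) Q ≠ 0 := by
    have h1 : ∀ᵐ x ∂ν, ⨆ n, F n x < ⊤ :=
      ae_lt_top (Measurable.iSup hFm) (hsup.trans_lt ENNReal.ofReal_lt_top).ne
    filter_upwards [h1] with x hx hx0
    apply hx.ne
    have h2 : ⨆ n : ℕ, (n : ENNReal) ≤ ⨆ n, F n x := by
      apply iSup_mono
      intro n
      show (n : ENNReal) ≤ ENNReal.ofReal (M - Real.log (max |aeval (x : ℝ) Q| (Real.exp (-n))))
      rw [hx0, abs_zero, max_eq_right (Real.exp_pos _).le, Real.log_exp, sub_neg_eq_add]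
      rw [← ENNReal.ofReal_natCast]
      exact ENNReal.ofReal_le_ofReal (by linarith)
    rw [ENNReal.iSup_natCast] at h2
    exact top_le_iff.mp h2
  have hlog : ∀ x : Icc (-R) R, Real.log |aeval (x : ℝ) Q| ≤ M := by
    intro x
    by_cases hx : aeval (x : ℝ) Q = 0
    · rw [hx]; simpa using hM0
    · rw [← Real.log_exp M]
      exact Real.log_le_log (abs_pos.mpr hx) (hM _ x.2)
  have hmeas : Measurable fun x : Icc (-R) R => Real.log |aeval (x : ℝ) Q| :=
    Real.measurable_log.comp ((hcont.comp continuous_subtype_val).abs.measurable)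
  have hk : ∫⁻ x : Icc (-R) R, ENNReal.ofReal (M - Real.log |aeval (x : ℝ) Q|) ∂ν
      ≤ ENNReal.ofReal M := by
    refine le_trans (lintegral_mono_ae ?_) hsup
    filter_upwards [hae] with x hx
    refine le_trans ?_ (le_iSup _ ⌈-Real.log |aeval (x : ℝ) Q|⌉₊)
    apply ENNReal.ofReal_le_ofReal
    have h1 : trunc R Q ⌈-Real.log |aeval (x : ℝ) Q|⌉₊ x = Real.log |aeval (x : ℝ) Q| := by
      show Real.log (max |aeval (x : ℝ) Q| (Real.exp (-⌈-Real.log |aeval (x : ℝ) Q|⌉₊)))
        = Real.log |aeval (x : ℝ) Q|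
      rw [max_eq_left]
      have h2 := Nat.le_ceil (-Real.log |aeval (x : ℝ) Q|)
      calc Real.exp (-(⌈-Real.log |aeval (x : ℝ) Q|⌉₊ : ℝ))
          ≤ Real.exp (Real.log |aeval (x : ℝ) Q|) := Real.exp_le_exp.mpr (by linarith)
        _ = |aeval (x : ℝ) Q| := Real.exp_log (abs_pos.mpr hx)
    rw [h1]
  have hkint : Integrable (fun x : Icc (-R) R => M - Real.log |aeval (x : ℝ) Q|) ν := by
    refine ⟨(measurable_const.sub hmeas).aestronglyMeasurable, ?_⟩
    rw [hasFiniteIntegral_iff_ofReal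
      (Filter.Eventually.of_forall fun x => sub_nonneg.mpr (hlog x))]
    exact hk.trans_lt ENNReal.ofReal_lt_top
  have hkle : ∫ x : Icc (-R) R, (M - Real.log |aeval (x : ℝ) Q|) ∂ν ≤ M := by
    rw [integral_eq_lintegral_of_nonneg_ae
      (Filter.Eventually.of_forall fun x => sub_nonneg.mpr (hlog x)) hkint.1]
    exact ENNReal.toReal_le_of_le_ofReal hM0 hk
  have hlint : Integrable (fun x : Icc (-R) R => Real.log |aeval (x : ℝ) Q|) ν := by
    have := (integrable_const M).sub hkint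
    refine this.congr (Filter.Eventually.of_forall fun x => ?_)
    simp
  refine ⟨?_, hlint, ?_⟩
  · rw [ae_iff] at hae
    simpa using hae
  · rw [integral_sub (integrable_const M) hlint] at hkle
    have h5 : ∫ _ : Icc (-R) R, M ∂ν = M := by simp
    rw [h5] at hkle
    linarith

theorem isArith_map (R : ℝ) (ν : Measure (Icc (-R) R)) [IsProbabilityMeasure ν]
    (h : ∀ f ∈ UU R, 0 ≤ ∫ x, f x ∂ν) : IsArith (ν.map ((↑) : Icc (-R) R → ℝ)) := by
  have hme : MeasurableEmbedding ((↑) : Icc (-R) R → ℝ) :=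
    MeasurableEmbedding.subtype_coe measurableSet_Icc
  have : IsProbabilityMeasure (ν.map ((↑) : Icc (-R) R → ℝ)) :=
    Measure.isProbabilityMeasure_map measurable_subtype_coe.aemeasurable
  apply isArith_of_irreducible
  intro Q hQ h1 h2
  obtain ⟨g1, g2, g3⟩ := ok_sub R ν h Q hQ h1 h2
  refine ⟨?_, ?_, ?_⟩
  · rw [hme.map_apply]
    exact g1
  · rw [hme.integrable_map_iff]
    exact g2
  · rw [hme.integral_map]
    exact g3

end Duality

open Duality in
theorem duality (R : ℝ) (hR : 8 ≤ R) : ∃ l : ℝ,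
    (∃ ν : Measure ℝ, IsProbabilityMeasure ν ∧ ν (Icc (-R) R)ᶜ = 0 ∧ IsArith ν ∧
      ∫ y, y ^ 2 ∂ν = l) ∧
    (∀ ε > 0, ∃ (S : Finset ℤ[X]) (a : ℤ[X] → ℝ),
      (∀ Q ∈ S, Irreducible Q ∧ 0 < Q.natDegree ∧ 0 < Q.leadingCoeff ∧ 0 < a Q) ∧
      ∀ y ∈ Icc (-R) R, (∀ Q ∈ S, aeval y Q ≠ 0) →
        ∑ Q ∈ S, a Q * Real.log |aeval y Q| ≤ y ^ 2 - l + ε) := by
  set L : Set ℝ := {l | sqf R l ∈ UU R} with hL
  -- certificates bound second moments from below
  have key : ∀ (μ : Measure ℝ), IsProbabilityMeasure μ → μ (Icc (-R) R)ᶜ = 0 → IsArith μ →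
      ∀ l ∈ L, l ≤ ∫ y, y ^ 2 ∂μ := by
    intro μ hμ1 hμ2 hμ3 l hl
    obtain ⟨S, a, δ, hδ, hS, h⟩ := hl
    have hsq := integrable_sq μ hμ2
    have hC : Cert R S a δ (fun y => y ^ 2 - l) := fun y hy hy2 => h ⟨y, hy⟩ hy2
    have := int_lower μ hμ2 hμ3 hS hC (hsq.sub (integrable_const l))
    rw [integral_sub hsq (integrable_const l)] at this
    simp at this
    linarith
  have hunif : unif (Icc (-R) R)ᶜ = 0 := by
    rw [unif, Measure.smul_apply, Measure.restrict_apply (measurableSet_Icc.compl)]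
    have : (Icc (-R) R)ᶜ ∩ Icc (-8 : ℝ) 8 = ∅ := by
      ext y
      simp only [mem_empty_iff_false, iff_false]
      rintro ⟨h1, h2, h3⟩
      exact h1 ⟨by linarith, by linarith⟩
    rw [this]; simp
  have hbdd : BddAbove L := ⟨_, fun l hl => key unif inferInstance hunif unif_arith l hl⟩
  have hne : L.Nonempty := by
    refine ⟨-1, UU_pos one_pos fun y => ?_⟩
    show (1 : ℝ) ≤ (y : ℝ) ^ 2 - (-1)
    nlinarith [sq_nonneg (y : ℝ)]
  have hnot : sqf R (sSup L) ∉ UU R := by
    rintro ⟨S, a, δ, hδ, hS, h⟩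
    have h1 : sSup L + δ / 2 ∈ L := by
      refine ⟨S, a, δ / 2, by positivity, hS, fun y hy => ?_⟩
      have h2 := h y hy
      have h3 : sqf R (sSup L) y = (y : ℝ) ^ 2 - sSup L := rfl
      have h4 : sqf R (sSup L + δ / 2) y = (y : ℝ) ^ 2 - (sSup L + δ / 2) := rfl
      rw [h3] at h2
      rw [h4]
      linarith
    have h2 := le_csSup hbdd h1
    linarith
  obtain ⟨ψ, hψ1, hψ2, hψ3, hψ4⟩ := exists_functional R (sSup L) hnot
  obtain ⟨ν, hν1, hν2⟩ := riesz_compact ψ hψ1
  have : IsProbabilityMeasure ν := by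
    have h1 := hν2 1
    rw [hψ2] at h1
    simp only [ContinuousMap.one_apply, integral_const, smul_eq_mul, mul_one] at h1
    constructor
    have h2 : (ν univ).toReal = 1 := h1
    rw [← ENNReal.toReal_eq_one_iff]
    exact h2
  have hme : MeasurableEmbedding ((↑) : Icc (-R) R → ℝ) :=
    MeasurableEmbedding.subtype_coe measurableSet_Icc
  have hp : IsProbabilityMeasure (ν.map ((↑) : Icc (-R) R → ℝ)) :=
    Measure.isProbabilityMeasure_map measurable_subtype_coe.aemeasurable
  have hsupp : (ν.map ((↑) : Icc (-R) R → ℝ)) (Icc (-R) R)ᶜ = 0 := by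
    rw [hme.map_apply]
    simp
  have harith := isArith_map R ν fun f hf => by rw [hν2 f]; exact hψ3 f hf
  refine ⟨sSup L, ⟨_, hp, hsupp, harith, ?_⟩, ?_⟩
  · apply le_antisymm
    · rw [hme.integral_map]
      have h1 := hν2 (sqf R (sSup L))
      have h2 : ∫ x, sqf R (sSup L) x ∂ν = ∫ x : Icc (-R) R, ((x : ℝ) ^ 2 - sSup L) ∂ν := rfl
      rw [h2, integral_sub _ (integrable_const _)] at h1
      · simp at h1
        linarith
      · have hc : Continuous fun x : Icc (-R) R => (x : ℝ) ^ 2 := by fun_prop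
        exact hc.integrable_of_hasCompactSupport (HasCompactSupport.of_compactSpace _)
    · exact csSup_le hne fun l hl => key _ hp hsupp harith l hl
  · intro ε hε
    obtain ⟨l, hl, hl2⟩ := exists_lt_of_lt_csSup hne (show sSup L - ε < sSup L by linarith)
    obtain ⟨S, a, δ, hδ, hS, h⟩ := hl
    refine ⟨S, a, hS, fun y hy hy2 => ?_⟩
    have h1 := h ⟨y, hy⟩ hy2
    have h2 : sqf R l ⟨y, hy⟩ = y ^ 2 - l := rfl
    rw [h2] at h1
    linarith

end Pool.Agent.TraceMin
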