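import Pool.Agent.TraceMin.Defs

/-!
Module T3 (Minkowski's linear forms theorem for values of integer polynomials) for the problem on
trace-minimising arithmetic measures.
-/

open MeasureTheory Polynomial Set

namespace Pool.Agent.TraceMin

lemma prod_erase_symm (n : ℕ) (f : Fin n → Fin n → ℝ) (hf : ∀ i j, f i j = f j i) :
    ∏ k, ∏ j ∈ Finset.univ.erase k, f k j = (∏ k, ∏ j ∈ Finset.Ioi k, f k j) ^ 2 := by
  have h1 : ∀ k : Fin n, ∏ j ∈ Finset.univ.erase k, f k j =
      (∏ j ∈ Finset.Iio k, f k j) * ∏ j ∈ Finset.Ioi k, f k j := by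
    intro k
    rw [← Finset.prod_union]
    · congr 1
      ext j
      simp [lt_or_lt_iff_ne]
    · rw [Finset.disjoint_left]
      intro j h1 h2
      rw [Finset.mem_Iio] at h1
      rw [Finset.mem_Ioi] at h2
      exact absurd h1 (not_lt.mpr h2.le)
  have h2 : ∏ k : Fin n, ∏ j ∈ Finset.Iio k, f k j = ∏ k : Fin n, ∏ j ∈ Finset.Ioi k, f k j := by
    rw [Finset.prod_comm' (t' := Finset.univ) (s' := fun j => Finset.Ioi j)]
    · apply Finset.prod_congr rfl
      intro i _
      apply Finset.prod_congr rfl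
      intro j _
      exact hf j i
    · intro i j
      simp
  rw [Finset.prod_congr rfl (fun k _ => h1 k), Finset.prod_mul_distrib, h2, sq]

theorem minkowski_values (n : ℕ) (hn : 0 < n) (x : Fin n → ℝ) (hx : Function.Injective x) :
    ∃ Q : ℤ[X], Q ≠ 0 ∧ Q.natDegree < n ∧ ∀ t : ℝ, (∀ k, t ≠ x k) →
      |aeval t Q| ≤ 2 * Real.exp (-(1 / (n : ℝ)) * ∑ i, ∑ j ∈ Finset.Ioi i, Real.log |x i - x j|)
        * (∏ k, |t - x k|) * ∑ k, 1 / |t - x k| := by
  classical
  set M : Matrix (Fin n) (Fin n) ℝ := (Matrix.vandermonde x).transpose with hM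
  have hMdet : M.det = ∏ i : Fin n, ∏ j ∈ Finset.Ioi i, (x j - x i) := by
    rw [hM, Matrix.det_transpose, Matrix.det_vandermonde]
  have hpos : ∀ i j : Fin n, i ≠ j → 0 < |x i - x j| := by
    intro i j hij
    exact abs_pos.mpr (sub_ne_zero.mpr (fun h => hij (hx h)))
  set V : ℝ := ∏ i : Fin n, ∏ j ∈ Finset.Ioi i, |x i - x j| with hV
  have hVdet : |M.det| = V := by
    rw [hMdet, Finset.abs_prod, hV]
    apply Finset.prod_congr rfl
    intro i _
    rw [Finset.abs_prod]
    apply Finset.prod_congr rfl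
    intro j _
    exact abs_sub_comm _ _
  have hVpos : 0 < V := by
    apply Finset.prod_pos
    intro i _
    apply Finset.prod_pos
    intro j hj
    exact hpos i j (ne_of_lt (Finset.mem_Ioi.mp hj))
  have hdet0 : M.det ≠ 0 := by
    intro h
    rw [h, abs_zero] at hVdet
    exact hVpos.ne hVdet
  have hli : LinearIndependent ℝ (fun i : Fin n => M i) :=
    Matrix.linearIndependent_rows_of_det_ne_zero hdet0
  have : Nonempty (Fin n) := ⟨⟨0, hn⟩⟩
  let b : Module.Basis (Fin n) ℝ (Fin n → ℝ) :=
    basisOfLinearIndependentOfCardEqFinrank hli (by simp)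
  have hb : ∀ i, b i = M i := by
    intro i
    simp [b]
  set S : ℝ := ∑ i : Fin n, ∑ j ∈ Finset.Ioi i, Real.log |x i - x j| with hS
  set lamb : ℝ := Real.exp (-(1 / (n : ℝ)) * S) with hlamb
  have hlpos : 0 < lamb := Real.exp_pos _
  have hSV : Real.exp S = V := by
    rw [hS, hV, Real.exp_sum]
    apply Finset.prod_congr rfl
    intro i _
    rw [Real.exp_sum]
    apply Finset.prod_congr rfl
    intro j hj
    exact Real.exp_log (hpos i j (ne_of_lt (Finset.mem_Ioi.mp hj)))
  have hlV : lamb ^ n * V = 1 := by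
    rw [hlamb, ← Real.exp_nat_mul, ← hSV, ← Real.exp_add]
    have : (n : ℝ) ≠ 0 := by positivity
    rw [show (n : ℝ) * (-(1 / (n : ℝ)) * S) + S = 0 by field_simp; ring]
    exact Real.exp_zero
  set c : Fin n → ℝ := fun k => lamb * ∏ j ∈ Finset.univ.erase k, |x k - x j| with hc
  have hcpos : ∀ k, 0 < c k := by
    intro k
    apply mul_pos hlpos
    apply Finset.prod_pos
    intro j hj
    exact hpos k j (Ne.symm (Finset.ne_of_mem_erase hj))
  have hcprod : ∏ k, c k = V := by
    rw [hc]
    simp only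
    rw [Finset.prod_mul_distrib, Finset.prod_const, Finset.card_univ, Fintype.card_fin,
      prod_erase_symm n (fun i j => |x i - x j|) (fun i j => abs_sub_comm _ _), ← hV, sq, ← mul_assoc,
      hlV, one_mul]
  set s : Set (Fin n → ℝ) := Set.pi Set.univ (fun k => Ioo (-(2 * c k)) (2 * c k)) with hs
  have hvol : volume s = ENNReal.ofReal (4 ^ n * V) := by
    rw [hs, Real.volume_pi_Ioo, ← hcprod, ← ENNReal.ofReal_prod_of_nonneg]
    · congr 1
      rw [show (4 : ℝ) ^ n = ∏ _k : Fin n, (4 : ℝ) by simp, ← Finset.prod_mul_distrib]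
      apply Finset.prod_congr rfl
      intro k _
      ring
    · intro k _
      have := hcpos k
      linarith
  have hfund := ZSpan.isAddFundamentalDomain' b (volume : Measure (Fin n → ℝ))
  have hcount : Countable (Submodule.span ℤ (Set.range b)) := inferInstance
  have hcount' : Countable (Submodule.span ℤ (Set.range b)).toAddSubgroup := hcount
  obtain ⟨⟨y, hyL⟩, hy0, hys⟩ := exists_ne_zero_mem_lattice_of_measure_mul_two_pow_lt_measure
    (s := s) hfund
    (by
      intro z hz
      rw [hs, Set.mem_univ_pi] at hz ⊢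
      intro k
      have := hz k
      rw [mem_Ioo] at this ⊢
      constructor
      · simp only [Pi.neg_apply]; linarith [this.2]
      · simp only [Pi.neg_apply]; linarith [this.1])
    (convex_pi (fun k _ => convex_Ioo _ _))
    (by
      rw [ZSpan.volume_fundamentalDomain, hvol]
      have : (Matrix.of b).det = M.det := by
        congr 1
        ext i j
        simp [hb]
      rw [this, hVdet, Module.finrank_fin_fun]
      rw [show (2 : ENNReal) ^ n = ENNReal.ofReal (2 ^ n) by
        rw [ENNReal.ofReal_pow (by norm_num)]; norm_num, ← ENNReal.ofReal_mul hVpos.le]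
      apply (ENNReal.ofReal_lt_ofReal_iff (by positivity)).mpr
      rw [mul_comm V]
      apply mul_lt_mul_of_pos_right _ hVpos
      exact pow_lt_pow_left₀ (by norm_num) (by norm_num) hn.ne')
  have hyL' : y ∈ Submodule.span ℤ (Set.range b) := hyL
  rw [Submodule.mem_span_range_iff_exists_fun] at hyL'
  obtain ⟨a, ha⟩ := hyL'
  have hy0' : y ≠ 0 := by
    intro h
    apply hy0
    exact Subtype.ext h
  have hyk : ∀ k, y k = ∑ i : Fin n, (a i : ℝ) * x k ^ (i : ℕ) := by
    intro k
    rw [← ha, Finset.sum_apply]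
    apply Finset.sum_congr rfl
    intro i _
    rw [hb]
    simp [hM, Matrix.vandermonde_apply]
  set Q : ℤ[X] := ∑ i : Fin n, C (a i) * X ^ (i : ℕ) with hQ
  have hQcoeff : ∀ i : Fin n, Q.coeff i = a i := by
    intro i
    rw [hQ, finsetSum_coeff]
    simp only [coeff_C_mul, coeff_X_pow]
    rw [Finset.sum_eq_single i]
    · simp
    · intro j _ hj
      have : (i : ℕ) ≠ j := fun h => hj (Fin.ext h.symm)
      simp [this]
    · simp
  have hQdeg : Q.degree < n := by
    rw [hQ]
    apply (Polynomial.degree_sum_le _ _).trans_lt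
    rw [Finset.sup_lt_iff (by simp)]
    intro i _
    apply (degree_C_mul_X_pow_le _ _).trans_lt
    exact_mod_cast i.2
  have hQ0 : Q ≠ 0 := by
    intro h
    apply hy0'
    ext k
    rw [hyk k]
    apply Finset.sum_eq_zero
    intro i _
    rw [← hQcoeff i, h]
    simp
  have hQnat : Q.natDegree < n := (natDegree_lt_iff_degree_lt hQ0).mpr hQdeg
  have hQval : ∀ t : ℝ, aeval t Q = ∑ i : Fin n, (a i : ℝ) * t ^ (i : ℕ) := by
    intro t
    rw [hQ, map_sum]
    apply Finset.sum_congr rfl
    intro i _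
    simp
  refine ⟨Q, hQ0, hQnat, ?_⟩
  intro t ht
  set f : ℝ[X] := Q.map (Int.castRingHom ℝ) with hf
  have hfeval : ∀ t : ℝ, f.eval t = aeval t Q := by
    intro t
    rw [hf, eval_map, aeval_def]
    congr 1
  have hfdeg : f.degree < (Finset.univ : Finset (Fin n)).card := by
    rw [Finset.card_univ, Fintype.card_fin]
    exact degree_map_le.trans_lt hQdeg
  have hinterp : f = Lagrange.interpolate Finset.univ x (fun i => f.eval (x i)) :=
    Lagrange.eq_interpolate hx.injOn hfdeg
  rw [← hfeval t, hinterp, Lagrange.eval_interpolate_not_at_node _ (fun i _ => ht i),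
    Lagrange.eval_nodal, abs_mul, Finset.abs_prod]
  have hbound : |∑ i : Fin n, Lagrange.nodalWeight Finset.univ x i * (t - x i)⁻¹ * f.eval (x i)| ≤
      2 * lamb * ∑ k, 1 / |t - x k| := by
    apply (Finset.abs_sum_le_sum_abs _ _).trans
    rw [Finset.mul_sum]
    apply Finset.sum_le_sum
    intro k _
    rw [abs_mul, abs_mul, Lagrange.nodalWeight, Finset.abs_prod, abs_inv]
    have h1 : |f.eval (x k)| ≤ 2 * c k := by
      rw [hfeval, hQval, ← hyk k]
      have := hys
      rw [hs, Set.mem_univ_pi] at this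
      have := this k
      rw [mem_Ioo] at this
      exact abs_le.mpr ⟨this.1.le, this.2.le⟩
    have hPpos : 0 < ∏ j ∈ Finset.univ.erase k, |x k - x j| := by
      apply Finset.prod_pos
      intro j hj
      exact hpos k j (Ne.symm (Finset.ne_of_mem_erase hj))
    have h2 : ∏ j ∈ Finset.univ.erase k, |(x k - x j)⁻¹| =
        (∏ j ∈ Finset.univ.erase k, |x k - x j|)⁻¹ := by
      rw [← Finset.prod_inv_distrib]
      apply Finset.prod_congr rfl
      intro j _
      exact abs_inv _
    rw [h2]
    have htk : 0 < |t - x k| := abs_pos.mpr (sub_ne_zero.mpr (ht k))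
    calc (∏ j ∈ Finset.univ.erase k, |x k - x j|)⁻¹ * |t - x k|⁻¹ * |f.eval (x k)|
        ≤ (∏ j ∈ Finset.univ.erase k, |x k - x j|)⁻¹ * |t - x k|⁻¹ * (2 * c k) := by
          apply mul_le_mul_of_nonneg_left h1
          positivity
      _ = 2 * lamb * (1 / |t - x k|) := by
          simp only [hc]
          field_simp
  calc (∏ i, |t - x i|) * |∑ i : Fin n, Lagrange.nodalWeight Finset.univ x i * (t - x i)⁻¹ *
        f.eval (x i)|
      ≤ (∏ i, |t - x i|) * (2 * lamb * ∑ k, 1 / |t - x k|) :=
        mul_le_mul_of_nonneg_left hbound (Finset.prod_nonneg (fun i _ => abs_nonneg _))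
    _ = 2 * lamb * (∏ k, |t - x k|) * ∑ k, 1 / |t - x k| := by ring

end Pool.Agent.TraceMin
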