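import Pool.Agent.TraceMin.Kern
import Pool.Agent.TraceMin.Mink

/-!
Successive averaging over the points; measures with bounded density.
-/

open MeasureTheory Polynomial Set Real

namespace Pool.Agent.TraceMin

/-- successive averaging -/
lemma seq_average (ρ : Measure ℝ) [IsProbabilityMeasure ρ] [NullSingletonClass ρ]
    (g : ℝ → ℝ → ℝ) (h G : ℝ → ℝ) (c : ℝ) (Good : Set ℝ)
    (hsym : ∀ x y, g x y = g y x) (hdiag : ∀ x, g x x = 0)
    (hgi : ∀ x, Integrable (g x) ρ) (hG : ∀ x, G x = ∫ y, g x y ∂ρ)
    (hGi : Integrable G ρ) (hhi : Integrable h ρ) (hgood : ∀ᵐ x ∂ρ, x ∈ Good) (n : ℕ)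
    (H : ∀ x : Fin n → ℝ, Function.Injective x → (∀ i, x i ∈ Good) →
      (∑ i, ∑ j, g (x i) (x j)) / 2 ≤ ∑ i, h (x i) + c) :
    (n : ℝ) * (n - 1) / 2 * ∫ x, G x ∂ρ ≤ n * ∫ x, h x ∂ρ + c := by
  have key : ∀ j k : ℕ, k + j = n → ∀ x : Fin k → ℝ, Function.Injective x → (∀ i, x i ∈ Good) →
      (∑ i, ∑ l, g (x i) (x l)) / 2 + j * ∑ i, G (x i) + (j : ℝ) * (j - 1) / 2 * ∫ x, G x ∂ρ
        ≤ ∑ i, h (x i) + j * ∫ x, h x ∂ρ + c := by
    intro j
    induction j with
    | zero =>
      intro k hk x hx hxg
      simp only [add_zero] at hk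
      subst hk
      have := H x hx hxg
      simp only [CharP.cast_eq_zero, zero_mul, add_zero, zero_div]
      linarith
    | succ j ih =>
      intro k hk x hx hxg
      have hae : ∀ᵐ y ∂ρ, y ∈ Good ∧ ∀ i, y ≠ x i := by
        have h1 : ∀ᵐ y ∂ρ, ∀ i, y ≠ x i := by
          rw [ae_all_iff]
          intro i
          simp [ae_iff]
        filter_upwards [hgood, h1] with y h2 h3
        exact ⟨h2, h3⟩
      have hae2 : ∀ᵐ y ∂ρ,
          ((∑ i, ∑ l, g (x i) (x l)) / 2 + ∑ i, g (x i) y) + j * (∑ i, G (x i) + G y)
            + (j : ℝ) * (j - 1) / 2 * ∫ x, G x ∂ρ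
          ≤ (∑ i, h (x i) + h y) + j * ∫ x, h x ∂ρ + c := by
        filter_upwards [hae] with y hy
        have hinj : Function.Injective (Fin.snoc x y : Fin (k + 1) → ℝ) := by
          rw [Fin.snoc_injective_iff]
          refine ⟨hx, ?_⟩
          rintro ⟨i, hi⟩
          exact hy.2 i hi.symm
        have hgd : ∀ i, (Fin.snoc x y : Fin (k + 1) → ℝ) i ∈ Good := by
          intro i
          refine Fin.lastCases ?_ (fun i => ?_) i
          · simpa using hy.1
          · simpa using hxg i
        have h1 := ih (k + 1) (by omega) (Fin.snoc x y) hinj hgd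
        simp only [Fin.sum_univ_castSucc, Fin.snoc_castSucc, Fin.snoc_last] at h1
        rw [Finset.sum_add_distrib, hdiag y] at h1
        have h2 : ∑ i, g y (x i) = ∑ i, g (x i) y := Finset.sum_congr rfl fun i _ => hsym _ _
        rw [h2] at h1
        linarith
      have hi1 : Integrable (fun y => ((∑ i, ∑ l, g (x i) (x l)) / 2 + ∑ i, g (x i) y)
          + j * (∑ i, G (x i) + G y) + (j : ℝ) * (j - 1) / 2 * ∫ x, G x ∂ρ) ρ := by
        apply Integrable.add _ (integrable_const _)
        apply Integrable.add
        · apply Integrable.add (integrable_const _)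
          exact integrable_finsetSum _ fun i _ => hgi (x i)
        · exact ((integrable_const _).add hGi).const_mul _
      have hi2 : Integrable (fun y => (∑ i, h (x i) + h y) + j * ∫ x, h x ∂ρ + c) ρ := by
        apply Integrable.add _ (integrable_const _)
        apply Integrable.add _ (integrable_const _)
        exact (integrable_const _).add hhi
      have h3 := integral_mono_ae hi1 hi2 hae2
      have e1 : ∫ y, (((∑ i, ∑ l, g (x i) (x l)) / 2 + ∑ i, g (x i) y)
          + j * (∑ i, G (x i) + G y) + (j : ℝ) * (j - 1) / 2 * ∫ x, G x ∂ρ) ∂ρ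
          = ((∑ i, ∑ l, g (x i) (x l)) / 2 + ∑ i, G (x i)) + j * (∑ i, G (x i) + ∫ x, G x ∂ρ)
            + (j : ℝ) * (j - 1) / 2 * ∫ x, G x ∂ρ := by
        rw [integral_add _ (integrable_const _), integral_add, integral_add (integrable_const _),
          integral_finsetSum, integral_const_mul, integral_add (integrable_const _) hGi]
        · simp only [integral_const, probReal_univ, smul_eq_mul, one_mul]
          congr 3
          apply Finset.sum_congr rfl
          intro i _
          exact (hG (x i)).symm
        · exact fun i _ => hgi (x i)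
        · exact integrable_finsetSum _ fun i _ => hgi (x i)
        · apply Integrable.add (integrable_const _)
          exact integrable_finsetSum _ fun i _ => hgi (x i)
        · exact ((integrable_const _).add hGi).const_mul _
        · apply Integrable.add
          · apply Integrable.add (integrable_const _)
            exact integrable_finsetSum _ fun i _ => hgi (x i)
          · exact ((integrable_const _).add hGi).const_mul _
      have e2 : ∫ y, ((∑ i, h (x i) + h y) + j * ∫ x, h x ∂ρ + c) ∂ρ
          = (∑ i, h (x i) + ∫ x, h x ∂ρ) + j * ∫ x, h x ∂ρ + c := by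
        rw [integral_add _ (integrable_const _), integral_add _ (integrable_const _),
          integral_add (integrable_const _) hhi]
        · simp
        · exact (integrable_const _).add hhi
        · apply Integrable.add _ (integrable_const _)
          exact (integrable_const _).add hhi
      rw [e1, e2] at h3
      push_cast
      nlinarith
  have h0 := key n 0 (by omega) Fin.elim0 (fun i => i.elim0) (fun i => i.elim0)
  simp at h0
  linarith

/-- convolution bound for a measure with bounded density -/
lemma lintegral_conv_le (ρ : Measure ℝ) (Cd : ENNReal) (R : ℝ)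
    (hρ : ρ ≤ Cd • (volume : Measure ℝ)) (hsupp : ρ (Icc (-R) R)ᶜ = 0)
    (f : ℝ → ENNReal) (hf : Measurable f) (x : ℝ) (hx : x ∈ Icc (-R) R) :
    ∫⁻ y, f (x - y) ∂ρ ≤ Cd * ∫⁻ s in Icc (-(2 * R)) (2 * R), f s := by
  have h1 : ∫⁻ y, f (x - y) ∂ρ = ∫⁻ y in Icc (-R) R, f (x - y) ∂ρ := by
    rw [← setLIntegral_univ]
    apply setLIntegral_congr
    have : ∀ᵐ y ∂ρ, y ∈ Icc (-R) R := by
      rw [ae_iff]; exact hsupp
    filter_upwards [this] with y hy
    apply propext
    exact ⟨fun _ => hy, fun _ => trivial⟩
  rw [h1]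
  calc ∫⁻ y in Icc (-R) R, f (x - y) ∂ρ ≤ ∫⁻ y in Icc (-R) R, f (x - y) ∂(Cd • (volume : Measure ℝ)) :=
        lintegral_mono' (Measure.restrict_mono le_rfl hρ) le_rfl
    _ = Cd * ∫⁻ y in Icc (-R) R, f (x - y) := by
        rw [Measure.restrict_smul, lintegral_smul_measure, smul_eq_mul]
    _ ≤ Cd * ∫⁻ s in Icc (-(2 * R)) (2 * R), f s := by
        apply mul_le_mul' le_rfl
        rw [← lintegral_indicator measurableSet_Icc, ← lintegral_indicator measurableSet_Icc]
        rw [← lintegral_sub_left_eq_self (fun s => (Icc (-(2 * R)) (2 * R)).indicator f s) x]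
        apply lintegral_mono
        intro y
        by_cases hy : y ∈ Icc (-R) R
        · have : x - y ∈ Icc (-(2 * R)) (2 * R) := by
            constructor <;> [linarith [hx.1, hy.2]; linarith [hx.2, hy.1]]
          simp [hy, this]
        · simp [hy]

end Pool.Agent.TraceMin
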