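import Pool.Agent.TraceMin.EnergyA

/-!
The basic inequality for distinct points.
-/

open MeasureTheory Polynomial Set Real

namespace Pool.Agent.TraceMin

lemma sum_sum_symm {n : ℕ} (f : Fin n → Fin n → ℝ) (hs : ∀ i j, f i j = f j i)
    (hd : ∀ i, f i i = 0) : ∑ i, ∑ j, f i j = 2 * ∑ i, ∑ j ∈ Finset.Ioi i, f i j := by
  have h1 : ∀ i, ∑ j, f i j = ∑ j ∈ Finset.Iio i, f i j + ∑ j ∈ Finset.Ioi i, f i j := by
    intro i
    have h2 : (Finset.univ : Finset (Fin n)) = (Finset.Iio i ∪ {i}) ∪ Finset.Ioi i := by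
      ext j
      simp only [Finset.mem_univ, Finset.mem_union, Finset.mem_Iio, Finset.mem_singleton,
        Finset.mem_Ioi, true_iff]
      rcases lt_trichotomy j i with h | h | h <;> simp [h]
    rw [h2, Finset.sum_union, Finset.sum_union]
    · simp [hd]
    · rw [Finset.disjoint_singleton_right]; simp
    · rw [Finset.disjoint_left]
      intro j hj hj2
      simp only [Finset.mem_union, Finset.mem_Iio, Finset.mem_singleton] at hj
      simp only [Finset.mem_Ioi] at hj2
      rcases hj with h | h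
      · exact absurd h (not_lt.mpr hj2.le)
      · exact absurd hj2 (by simp [h])
  simp_rw [h1]
  rw [Finset.sum_add_distrib]
  have h3 : ∑ i : Fin n, ∑ j ∈ Finset.Iio i, f i j = ∑ i : Fin n, ∑ j ∈ Finset.Ioi i, f i j := by
    rw [Finset.sum_comm' (s := Finset.univ) (t := fun i => Finset.Iio i) (t' := Finset.univ)
      (s' := fun j => Finset.Ioi j)]
    · apply Finset.sum_congr rfl
      intro i _
      apply Finset.sum_congr rfl
      intro j _
      exact hs _ _
    · intro i j; simp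
  rw [h3]; ring

lemma log_sum_le (n : ℕ) (hn : 0 < n) (a : Fin n → ℝ) (ha : ∀ i, 0 < a i) :
    Real.log (∑ i, 1 / a i) ≤ 2 * Real.log n + 2 / n * ∑ i, 1 / √(a i) := by
  have hn' : (0:ℝ) < n := by exact_mod_cast hn
  have hne : Nonempty (Fin n) := ⟨⟨0, hn⟩⟩
  set b : Fin n → ℝ := fun i => 1 / √(a i) with hb
  have hbpos : ∀ i, 0 < b i := fun i => by
    have := Real.sqrt_pos.mpr (ha i)
    simp only [hb]; positivity
  have hS : 0 < ∑ i, b i := Finset.sum_pos (fun i _ => hbpos i) Finset.univ_nonempty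
  have h1 : ∑ i, 1 / a i ≤ (∑ i, b i) ^ 2 := by
    have h2 : ∀ i, 1 / a i = b i * b i := by
      intro i
      simp only [hb]
      rw [div_mul_div_comm, Real.mul_self_sqrt (ha i).le, one_mul]
    rw [sq, Finset.sum_mul]
    apply Finset.sum_le_sum
    intro i _
    rw [h2 i]
    apply mul_le_mul_of_nonneg_left _ (hbpos i).le
    exact Finset.single_le_sum (f := b) (fun j _ => (hbpos j).le) (Finset.mem_univ i)
  have h0 : 0 < ∑ i, 1 / a i := Finset.sum_pos (fun i _ => one_div_pos.mpr (ha i)) Finset.univ_nonempty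
  have h3 : Real.log (∑ i, 1 / a i) ≤ 2 * Real.log (∑ i, b i) := by
    have := Real.log_le_log h0 h1
    rw [Real.log_pow] at this
    exact_mod_cast this
  have h4 : Real.log (∑ i, b i) ≤ Real.log n + (∑ i, b i) / n := by
    have e : ∑ i, b i = n * ((∑ i, b i) / n) := by field_simp
    have h5 : Real.log (∑ i, b i) = Real.log n + Real.log ((∑ i, b i) / n) := by
      rw [← Real.log_mul hn'.ne' (by positivity), ← e]
    rw [h5]
    have h6 := Real.log_le_sub_one_of_pos (x := (∑ i, b i) / n) (by positivity)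
    linarith
  have e7 : 2 / (n:ℝ) * ∑ i, b i = 2 * ((∑ i, b i) / n) := by ring
  rw [e7]
  linarith

/-- good points for the potential of `μ` -/
def GoodPt (μ : Measure ℝ) : Set ℝ :=
  {x | Integrable (fun t => Real.log |t - x|) μ ∧ Integrable (fun t => 1 / √|t - x|) μ ∧ μ {x} = 0}

lemma star (μ : Measure ℝ) [IsProbabilityMeasure μ] (hμ : IsArith μ) (n : ℕ) (hn : 0 < n)
    (x : Fin n → ℝ) (hx : Function.Injective x) (hg : ∀ i, x i ∈ GoodPt μ) :
    (∑ i, ∑ j, (1 / (n : ℝ)) * Real.log |x i - x j|) / 2 ≤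
      ∑ i, (∫ t, Real.log |t - x i| ∂μ + 2 / n * ∫ t, 1 / √|t - x i| ∂μ)
        + (2 * Real.log n + Real.log 2) := by
  obtain ⟨Q, hQ, -, hb⟩ := minkowski_values n hn x hx
  obtain ⟨h1, h2, h3⟩ := hμ Q hQ
  have hne : Nonempty (Fin n) := ⟨⟨0, hn⟩⟩
  set S := ∑ i, ∑ j ∈ Finset.Ioi i, Real.log |x i - x j| with hS
  have hae : ∀ᵐ t ∂μ, aeval t Q ≠ 0 ∧ ∀ i, t ≠ x i := by
    have h4 : ∀ᵐ t ∂μ, aeval t Q ≠ 0 := by
      rw [ae_iff]; simpa using h1
    have h5 : ∀ᵐ t ∂μ, ∀ i, t ≠ x i := by
      rw [ae_all_iff]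
      intro i
      rw [ae_iff]
      simpa using (hg i).2.2
    filter_upwards [h4, h5] with t a b
    exact ⟨a, b⟩
  have hae2 : ∀ᵐ t ∂μ, Real.log |aeval t Q| ≤
      (Real.log 2 - 1 / n * S) + ∑ i, Real.log |t - x i| + (2 * Real.log n + 2 / n * ∑ i, 1 / √|t - x i|) := by
    filter_upwards [hae] with t ht
    have hpos : ∀ i, 0 < |t - x i| := fun i => abs_pos.mpr (sub_ne_zero.mpr (ht.2 i))
    have h6 := hb t ht.2
    have h7 : 0 < |aeval t Q| := abs_pos.mpr ht.1
    have hP : 0 < ∏ k, |t - x k| := Finset.prod_pos fun i _ => hpos i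
    have hSum : 0 < ∑ k, 1 / |t - x k| :=
      Finset.sum_pos (fun i _ => one_div_pos.mpr (hpos i)) Finset.univ_nonempty
    have h8 := Real.log_le_log h7 h6
    rw [Real.log_mul (by positivity) hSum.ne', Real.log_mul (by positivity) hP.ne',
      Real.log_mul (by norm_num) (Real.exp_pos _).ne', Real.log_exp,
      Real.log_prod (fun i _ => (hpos i).ne')] at h8
    have h9 := log_sum_le n hn (fun i => |t - x i|) hpos
    linarith
  have hi1 : Integrable (fun t => ∑ i, Real.log |t - x i|) μ :=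
    integrable_finsetSum _ fun i _ => (hg i).1
  have hi2 : Integrable (fun t => 2 * Real.log n + 2 / n * ∑ i, 1 / √|t - x i|) μ := by
    apply Integrable.add (integrable_const _)
    apply Integrable.const_mul
    exact integrable_finsetSum _ fun i _ => (hg i).2.1
  have hi4 : Integrable (fun t => (Real.log 2 - 1 / n * S) + ∑ i, Real.log |t - x i|) μ :=
    (integrable_const _).add hi1
  have hi3 : Integrable (fun t => (Real.log 2 - 1 / n * S) + ∑ i, Real.log |t - x i|
      + (2 * Real.log n + 2 / n * ∑ i, 1 / √|t - x i|)) μ := hi4.add hi2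
  have h10 := integral_mono_ae h2 hi3 hae2
  have hi5 : Integrable (fun t => ∑ i, 1 / √|t - x i|) μ :=
    integrable_finsetSum _ fun i _ => (hg i).2.1
  have e5 : ∫ t, (2 * Real.log n + 2 / n * ∑ i, 1 / √|t - x i|) ∂μ =
      2 * Real.log n + 2 / n * ∑ i, ∫ t, 1 / √|t - x i| ∂μ := by
    rw [integral_add (integrable_const _) (hi5.const_mul _), integral_const, probReal_univ, one_smul,
      integral_const_mul (2 / (n:ℝ)), integral_finsetSum _ fun i _ => (hg i).2.1]
  have e6 : ∫ t, ((Real.log 2 - 1 / n * S) + ∑ i, Real.log |t - x i|) ∂μ =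
      (Real.log 2 - 1 / n * S) + ∑ i, ∫ t, Real.log |t - x i| ∂μ := by
    rw [integral_add (integrable_const _) hi1, integral_const, probReal_univ, one_smul,
      integral_finsetSum _ fun i _ => (hg i).1]
  rw [integral_add hi4 hi2, e5, e6] at h10
  have e1 : ∑ i, ∑ j, (1 / (n : ℝ)) * Real.log |x i - x j| = 2 * (1 / n * S) := by
    rw [sum_sum_symm (fun i j => (1 / (n : ℝ)) * Real.log |x i - x j|)]
    · rw [hS]
      simp only [← Finset.mul_sum]
    · intro i j; rw [abs_sub_comm]
    · intro i; simp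
  rw [e1, Finset.sum_add_distrib, ← Finset.mul_sum]
  linarith

end Pool.Agent.TraceMin
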