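import Pool.Agent.TraceMin.EnergyB

/-!
Comparison of the energy of a measure with bounded density and the mutual energy.
-/

open MeasureTheory Polynomial Set Real Filter Topology

namespace Pool.Agent.TraceMin

lemma integrableOn_log_Icc (a : ℝ) : IntegrableOn Real.log (Icc (-a) a) := by
  rcases le_total 0 a with h | h
  · rw [integrableOn_Icc_iff_integrableOn_Ioc]
    have := (intervalIntegral.intervalIntegrable_log' (a := -a) (b := a))
    rwa [intervalIntegrable_iff_integrableOn_Ioc_of_le (by linarith)] at this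
  · have : Icc (-a) a ⊆ {0} := by
      intro x hx
      have h1 := hx.1
      have h2 := hx.2
      rw [mem_singleton_iff]; linarith
    have h0 : (volume : Measure ℝ).restrict (Icc (-a) a) = 0 :=
      Measure.restrict_eq_zero.mpr (measure_mono_null this (by simp))
    rw [IntegrableOn, h0]
    exact integrable_zero_measure

lemma integrableOn_inv_sqrt_Icc (a : ℝ) : IntegrableOn (fun s : ℝ => 1 / √|s|) (Icc (-a) a) := by
  have hpos : ∀ b : ℝ, 0 ≤ b → IntegrableOn (fun s : ℝ => 1 / √|s|) (Icc 0 b) := by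
    intro b hb
    rw [integrableOn_Icc_iff_integrableOn_Ioc]
    have h1 := intervalIntegral.intervalIntegrable_rpow' (a := 0) (b := b) (r := -(1/2)) (by norm_num)
    rw [intervalIntegrable_iff_integrableOn_Ioc_of_le hb] at h1
    refine h1.congr_fun ?_ measurableSet_Ioc
    intro x hx
    simp only
    rw [abs_of_pos hx.1, Real.sqrt_eq_rpow, Real.rpow_neg hx.1.le]
    simp
  have hneg : ∀ b : ℝ, 0 ≤ b → IntegrableOn (fun s : ℝ => 1 / √|s|) (Icc (-b) 0) := by
    intro b hb
    have h1 := hpos b hb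
    have h2 := (Measure.measurePreserving_neg (volume : Measure ℝ)).integrableOn_comp_preimage
      (Homeomorph.neg ℝ).measurableEmbedding (f := fun s : ℝ => 1 / √|s|) (s := Icc 0 b)
    have h3 := h2.mpr h1
    have e1 : Neg.neg ⁻¹' (Icc (0:ℝ) b) = Icc (-b) 0 := by
      ext x
      simp only [mem_preimage, mem_Icc]
      constructor <;> intro h <;> constructor <;> linarith [h.1, h.2]
    rw [e1] at h3
    refine h3.congr_fun ?_ measurableSet_Icc
    intro x _
    simp
  rcases le_total 0 a with h | h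
  · have : Icc (-a) a = Icc (-a) 0 ∪ Icc 0 a := by
      rw [Icc_union_Icc_eq_Icc] <;> linarith
    rw [this]
    exact (hneg a h).union (hpos a h)
  · have : Icc (-a) a ⊆ {0} := by
      intro x hx
      have h1 := hx.1
      have h2 := hx.2
      rw [mem_singleton_iff]; linarith
    have h0 : (volume : Measure ℝ).restrict (Icc (-a) a) = 0 :=
      Measure.restrict_eq_zero.mpr (measure_mono_null this (by simp))
    rw [IntegrableOn, h0]
    exact integrable_zero_measure

lemma integrable_conv (μ ρ : Measure ℝ) [IsFiniteMeasure μ] [SFinite ρ] (Cd : ENNReal) (hCd : Cd ≠ ⊤)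
    (R : ℝ) (hρ : ρ ≤ Cd • (volume : Measure ℝ)) (hsupp : ρ (Icc (-R) R)ᶜ = 0)
    (hμs : μ (Icc (-R) R)ᶜ = 0) (f : ℝ → ℝ) (hf : Measurable f)
    (hfi : IntegrableOn f (Icc (-(2 * R)) (2 * R))) :
    Integrable (fun p : ℝ × ℝ => f (p.1 - p.2)) (μ.prod ρ) := by
  refine ⟨(hf.comp (measurable_fst.sub measurable_snd)).aestronglyMeasurable, ?_⟩
  rw [hasFiniteIntegral_iff_enorm]
  rw [lintegral_prod _ (by fun_prop)]
  have hb : ∀ᵐ x ∂μ, ∫⁻ y, ‖f (x - y)‖ₑ ∂ρ ≤ Cd * ∫⁻ s in Icc (-(2 * R)) (2 * R), ‖f s‖ₑ := by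
    have : ∀ᵐ x ∂μ, x ∈ Icc (-R) R := by rw [ae_iff]; exact hμs
    filter_upwards [this] with x hx
    exact lintegral_conv_le ρ Cd R hρ hsupp (fun s => ‖f s‖ₑ) (by fun_prop) x hx
  refine (lintegral_mono_ae hb).trans_lt ?_
  rw [lintegral_const]
  apply ENNReal.mul_lt_top
  · apply ENNReal.mul_lt_top hCd.lt_top
    exact hfi.2
  · exact measure_lt_top _ _

lemma energy_compare (μ ρ : Measure ℝ) [IsProbabilityMeasure μ] [IsProbabilityMeasure ρ]
    (Cd : ENNReal) (hCd : Cd ≠ ⊤) (R : ℝ) (hρ : ρ ≤ Cd • (volume : Measure ℝ))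
    (hsupp : ρ (Icc (-R) R)ᶜ = 0) (hμs : μ (Icc (-R) R)ᶜ = 0) (hμ : IsArith μ) :
    (1 / 2) * ∫ x, ∫ y, Real.log |x - y| ∂ρ ∂ρ ≤ ∫ x, ∫ y, Real.log |x - y| ∂ρ ∂μ := by
  have hsing : ∀ x : ℝ, ρ {x} = 0 := by
    intro x
    have h1 := hρ {x}
    simp at h1
    exact h1
  have : NullSingletonClass ρ := ⟨hsing⟩
  have hlogm : Measurable (fun s : ℝ => Real.log |s|) := by fun_prop
  have hlogi : IntegrableOn (fun s : ℝ => Real.log |s|) (Icc (-(2 * R)) (2 * R)) := by
    have := integrableOn_log_Icc (2 * R)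
    refine this.congr_fun ?_ measurableSet_Icc
    intro x _; simp
  have hsqm : Measurable (fun s : ℝ => 1 / √|s|) := by fun_prop
  have hsqi := integrableOn_inv_sqrt_Icc (2 * R)
  have iμρ := integrable_conv μ ρ Cd hCd R hρ hsupp hμs _ hlogm hlogi
  have iρρ := integrable_conv ρ ρ Cd hCd R hρ hsupp hsupp _ hlogm hlogi
  have jμρ := integrable_conv μ ρ Cd hCd R hρ hsupp hμs _ hsqm hsqi
  -- integrability of y ↦ log|x-y| for every x
  have hevery : ∀ x : ℝ, Integrable (fun y => Real.log |x - y|) ρ := by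
    intro x
    have h1 := integrable_conv (Measure.dirac x) ρ Cd hCd (max R |x|) hρ
      (measure_mono_null (compl_subset_compl.mpr (Icc_subset_Icc (neg_le_neg (le_max_left _ _))
        (le_max_left _ _))) hsupp)
      (by
        rw [Measure.dirac_apply' _ measurableSet_Icc.compl]
        have hx1 := neg_abs_le x
        have hx2 := le_abs_self x
        have hx3 := le_max_right R |x|
        have : x ∈ Icc (-(max R |x|)) (max R |x|) := ⟨by linarith, by linarith⟩
        simp [this])
      (fun s => Real.log |s|) hlogm (by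
        have := integrableOn_log_Icc (2 * max R |x|)
        refine this.congr_fun ?_ measurableSet_Icc
        intro x _; simp)
    have h2 := h1.prod_right_ae
    rw [ae_dirac_eq] at h2
    exact h2
  set L : ℝ → ℝ := fun x => ∫ y, Real.log |x - y| ∂ρ with hL
  have hLμ : Integrable L μ := iμρ.integral_prod_left
  have hLρ : Integrable L ρ := iρρ.integral_prod_left
  -- the potential of μ
  set h1 : ℝ → ℝ := fun x => ∫ t, Real.log |t - x| ∂μ with hh1
  set h2 : ℝ → ℝ := fun x => ∫ t, 1 / √|t - x| ∂μ with hh2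
  have h1i : Integrable h1 ρ := iμρ.integral_prod_right
  have h2i : Integrable h2 ρ := jμρ.integral_prod_right
  have hfub : ∫ x, h1 x ∂ρ = ∫ x, L x ∂μ := by
    exact (integral_integral_swap (f := fun x y => Real.log |x - y|) iμρ).symm
  have hgood : ∀ᵐ x ∂ρ, x ∈ GoodPt μ := by
    have a1 := iμρ.prod_left_ae
    have a2 := jμρ.prod_left_ae
    have a3 : ∀ᵐ x ∂ρ, μ {x} = 0 := by
      have b1 : (μ.prod ρ) {p | p.1 = p.2} = 0 := by
        rw [Measure.measure_prod_null (measurableSet_eq_fun measurable_fst measurable_snd)]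
        filter_upwards with x
        have : Prod.mk x ⁻¹' {p : ℝ × ℝ | p.1 = p.2} = {x} := by
          ext y; simp [eq_comm]
        rw [this]
        exact hsing x
      have b2 : (ρ.prod μ) {p | p.1 = p.2} = 0 := by
        rw [← Measure.prod_swap, Measure.map_apply measurable_swap
          (measurableSet_eq_fun measurable_fst measurable_snd)]
        have : Prod.swap ⁻¹' {p : ℝ × ℝ | p.1 = p.2} = {p : ℝ × ℝ | p.1 = p.2} := by
          ext p; simp [eq_comm]
        rw [this]
        exact b1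
      rw [Measure.measure_prod_null (measurableSet_eq_fun measurable_fst measurable_snd)] at b2
      filter_upwards [b2] with x hx
      have : Prod.mk x ⁻¹' {p : ℝ × ℝ | p.1 = p.2} = {x} := by
        ext y; simp [eq_comm]
      rw [this] at hx
      exact hx
    filter_upwards [a1, a2, a3] with x c1 c2 c3
    exact ⟨c1, c2, c3⟩
  set A := ∫ x, L x ∂ρ with hA
  set B := ∫ x, L x ∂μ with hB
  set K := ∫ x, h2 x ∂ρ with hK
  have main : ∀ n : ℕ, 0 < n → ((n : ℝ) - 1) / 2 * A ≤ n * B + 2 * K + (2 * Real.log n + Real.log 2) := by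
    intro n hn
    have hn' : (0:ℝ) < n := by exact_mod_cast hn
    have h3 := seq_average ρ (fun x y => (1 / (n:ℝ)) * Real.log |x - y|)
      (fun x => h1 x + 2 / n * h2 x) (fun x => (1 / (n:ℝ)) * L x) (2 * Real.log n + Real.log 2)
      (GoodPt μ) (fun x y => by rw [abs_sub_comm]) (fun x => by simp)
      (fun x => (hevery x).const_mul _)
      (fun x => by rw [integral_const_mul]) (hLρ.const_mul _)
      (h1i.add (h2i.const_mul _)) hgood n
      (fun x hx hxg => star μ hμ n hn x hx hxg)
    rw [integral_const_mul, integral_add h1i (h2i.const_mul _), integral_const_mul, hfub] at h3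
    have e1 : (n : ℝ) * (n - 1) / 2 * (1 / n * A) = ((n : ℝ) - 1) / 2 * A := by field_simp
    have e2 : (n : ℝ) * (B + 2 / n * K) = n * B + 2 * K := by field_simp
    rw [e1, e2] at h3
    linarith
  -- pass to the limit
  have lim1 : Tendsto (fun n : ℕ => (((n : ℝ) - 1) / 2 * A) / n) atTop (𝓝 (1 / 2 * A)) := by
    have : Tendsto (fun n : ℕ => (1 / 2 * A) - (A / 2) * (1 / (n : ℝ))) atTop (𝓝 (1 / 2 * A - (A / 2) * 0)) :=
      tendsto_const_nhds.sub (tendsto_one_div_atTop_nhds_zero_nat.const_mul _)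
    rw [mul_zero, sub_zero] at this
    refine this.congr' ?_
    filter_upwards [eventually_gt_atTop 0] with n hn
    have hn' : (0:ℝ) < n := by exact_mod_cast hn
    field_simp
  have lim2 : Tendsto (fun n : ℕ => (n * B + 2 * K + (2 * Real.log n + Real.log 2)) / (n : ℝ)) atTop (𝓝 B) := by
    have l1 : Tendsto (fun n : ℕ => Real.log n / (n : ℝ)) atTop (𝓝 0) := by
      have := (Real.tendsto_pow_log_div_mul_add_atTop 1 0 1 one_ne_zero).comp tendsto_natCast_atTop_atTop
      simpa [Function.comp_def] using this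
    have l2 : Tendsto (fun n : ℕ => B + (2 * K + Real.log 2) * (1 / (n : ℝ)) + 2 * (Real.log n / (n : ℝ))) atTop
        (𝓝 (B + (2 * K + Real.log 2) * 0 + 2 * 0)) :=
      (tendsto_const_nhds.add (tendsto_one_div_atTop_nhds_zero_nat.const_mul _)).add (l1.const_mul 2)
    have e : B + (2 * K + Real.log 2) * 0 + 2 * 0 = B := by ring
    rw [e] at l2
    refine l2.congr' ?_
    filter_upwards [eventually_gt_atTop 0] with n hn
    have hn' : (0:ℝ) < n := by exact_mod_cast hn
    field_simp
    ring
  refine le_of_tendsto_of_tendsto lim1 lim2 ?_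
  filter_upwards [eventually_gt_atTop 0] with n hn
  have hn' : (0:ℝ) < n := by exact_mod_cast hn
  have := main n hn
  gcongr

end Pool.Agent.TraceMin
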