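import Pool.Agent.TraceMin.EnergyC

/-!
Convolution with the uniform measure.
-/

open MeasureTheory Polynomial Set Real Filter Topology

namespace Pool.Agent.TraceMin

/-- the uniform probability measure on `[-r,r]` -/
noncomputable def unifm (r : ℝ) : Measure ℝ :=
  ENNReal.ofReal (1 / (2 * r)) • (volume.restrict (Icc (-r) r))

lemma unifm_prob (r : ℝ) (hr : 0 < r) : IsProbabilityMeasure (unifm r) := by
  constructor
  simp only [unifm, Measure.smul_apply, MeasurableSet.univ, Measure.restrict_apply, univ_inter,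
    Real.volume_Icc, smul_eq_mul]
  rw [← ENNReal.ofReal_mul (by positivity)]
  rw [show 1 / (2 * r) * (r - -r) = 1 by field_simp; ring]
  simp

lemma integral_unifm (r : ℝ) (hr : 0 < r) (f : ℝ → ℝ) :
    ∫ s, f s ∂(unifm r) = (1 / (2 * r)) * ∫ s in (-r)..r, f s := by
  unfold unifm
  rw [integral_smul_measure, ENNReal.toReal_ofReal (by positivity), smul_eq_mul,
    integral_Icc_eq_integral_Ioc, intervalIntegral.integral_of_le (by linarith)]

/-- convolution with the uniform measure -/
noncomputable def convm (μ : Measure ℝ) (r : ℝ) : Measure ℝ :=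
  (μ.prod (unifm r)).map (fun p => p.1 + p.2)

lemma convm_prob (μ : Measure ℝ) [IsProbabilityMeasure μ] (r : ℝ) (hr : 0 < r) :
    IsProbabilityMeasure (convm μ r) := by
  have := unifm_prob r hr
  unfold convm
  exact Measure.isProbabilityMeasure_map (by fun_prop)

lemma unifm_le (r : ℝ) : unifm r ≤ ENNReal.ofReal (1 / (2 * r)) • (volume : Measure ℝ) := by
  unfold unifm
  rw [Measure.le_iff]
  intro s _
  simp only [Measure.smul_apply, smul_eq_mul]
  exact mul_le_mul' le_rfl (Measure.restrict_apply_le _ _)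

lemma convm_le (μ : Measure ℝ) [IsProbabilityMeasure μ] (r : ℝ) (hr : 0 < r) :
    convm μ r ≤ ENNReal.ofReal (1 / (2 * r)) • (volume : Measure ℝ) := by
  have := unifm_prob r hr
  rw [Measure.le_iff]
  intro s hs
  unfold convm
  rw [Measure.map_apply (by fun_prop) hs, Measure.prod_apply (hs.preimage (by fun_prop))]
  calc ∫⁻ x, unifm r (Prod.mk x ⁻¹' ((fun p : ℝ × ℝ => p.1 + p.2) ⁻¹' s)) ∂μ
      ≤ ∫⁻ x, (ENNReal.ofReal (1 / (2 * r)) • (volume : Measure ℝ)) s ∂μ := by
        apply lintegral_mono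
        intro x
        refine (unifm_le r _).trans ?_
        simp only [Measure.smul_apply, smul_eq_mul]
        apply mul_le_mul' le_rfl
        have : Prod.mk x ⁻¹' ((fun p : ℝ × ℝ => p.1 + p.2) ⁻¹' s) = (fun y => x + y) ⁻¹' s := rfl
        rw [this, measure_preimage_add]
    _ = _ := by simp

lemma convm_supp (μ : Measure ℝ) [IsProbabilityMeasure μ] (r : ℝ) (hr : 0 < r) (R : ℝ)
    (hμ : μ (Icc (-R) R)ᶜ = 0) : convm μ r (Icc (-(R + r)) (R + r))ᶜ = 0 := by
  have := unifm_prob r hr
  unfold convm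
  rw [Measure.map_apply (by fun_prop) measurableSet_Icc.compl]
  have h1 : ∀ᵐ p ∂(μ.prod (unifm r)), p.1 ∈ Icc (-R) R := by
    have : ∀ᵐ x ∂μ, x ∈ Icc (-R) R := by rw [ae_iff]; exact hμ
    exact Measure.quasiMeasurePreserving_fst.ae this
  have h2 : ∀ᵐ p ∂(μ.prod (unifm r)), p.2 ∈ Icc (-r) r := by
    have : ∀ᵐ x ∂(unifm r), x ∈ Icc (-r) r := by
      unfold unifm
      apply Measure.ae_smul_measure
      exact ae_restrict_mem measurableSet_Icc
    exact Measure.quasiMeasurePreserving_snd.ae this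
  have h3 : ∀ᵐ p ∂(μ.prod (unifm r)), p.1 + p.2 ∈ Icc (-(R + r)) (R + r) := by
    filter_upwards [h1, h2] with p a b
    exact ⟨by linarith [a.1, b.1], by linarith [a.2, b.2]⟩
  rw [ae_iff] at h3
  exact h3

lemma integral_convm (μ : Measure ℝ) [IsProbabilityMeasure μ] (r : ℝ) (hr : 0 < r) (f : ℝ → ℝ)
    (hf : Integrable f (convm μ r)) (hfm : Measurable f) :
    ∫ x, f x ∂(convm μ r) = ∫ x, ∫ s, f (x + s) ∂(unifm r) ∂μ := by
  have := unifm_prob r hr
  have hi : Integrable (fun p : ℝ × ℝ => f (p.1 + p.2)) (μ.prod (unifm r)) := by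
    unfold convm at hf
    rw [integrable_map_measure hfm.aestronglyMeasurable (by fun_prop)] at hf
    exact hf
  unfold convm
  rw [integral_map (by fun_prop) hfm.aestronglyMeasurable, integral_prod _ hi]

/-- average of `kr` -/
noncomputable def k2 (r : ℝ) (w : ℝ) : ℝ := ∫ s, kr r ((w + s : ℝ) : ℂ) ∂(unifm r)

lemma kr_abs_le (r : ℝ) (hr : 0 < r) (hr1 : r ≤ 1) (B : ℝ) (w : ℂ) (hw : ‖w‖ ≤ B) :
    |kr r w| ≤ |Real.log r - 1| + Real.log (B + 1) := by
  have hB : 0 ≤ B := (norm_nonneg w).trans hw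
  have h1 := kr_ge r hr w
  have h2 := kr_le r hr w
  have h3 : Real.log (‖w‖ + r) ≤ Real.log (B + 1) :=
    Real.log_le_log (by positivity) (by linarith)
  have h4 : 0 ≤ Real.log (B + 1) := Real.log_nonneg (by linarith)
  rw [abs_le]
  constructor
  · have := neg_abs_le (Real.log r - 1)
    linarith
  · have := abs_nonneg (Real.log r - 1)
    linarith

lemma unifm_mem (r : ℝ) : ∀ᵐ s ∂(unifm r), s ∈ Icc (-r) r := by
  unfold unifm
  apply Measure.ae_smul_measure
  exact ae_restrict_mem measurableSet_Icc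

lemma kr_shift_integrable (r : ℝ) (hr : 0 < r) (hr1 : r ≤ 1) (w : ℝ) :
    Integrable (fun s : ℝ => kr r ((w + s : ℝ) : ℂ)) (unifm r) := by
  have := unifm_prob r hr
  refine Integrable.of_bound (C := |Real.log r - 1| + Real.log ((|w| + 1) + 1)) ?_ ?_
  · exact ((kr_measurable r).comp (Complex.measurable_ofReal.comp
      (measurable_const.add measurable_id))).aestronglyMeasurable
  · filter_upwards [unifm_mem r] with s hs
    rw [Real.norm_eq_abs]
    apply kr_abs_le r hr hr1
    rw [Complex.norm_real, Real.norm_eq_abs]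
    have h1 : |s| ≤ r := abs_le.mpr hs
    have := abs_add_le w s
    linarith

lemma k2_le (r : ℝ) (hr : 0 < r) (hr1 : r ≤ 1) (w : ℝ) : k2 r w ≤ Real.log (|w| + 2 * r) := by
  have := unifm_prob r hr
  have h1 : ∀ᵐ s ∂(unifm r), kr r ((w + s : ℝ) : ℂ) ≤ Real.log (|w| + 2 * r) := by
    filter_upwards [unifm_mem r] with s hs
    refine (kr_le r hr _).trans ?_
    apply Real.log_le_log (by positivity)
    rw [Complex.norm_real, Real.norm_eq_abs]
    have h1 : |s| ≤ r := abs_le.mpr hs
    have := abs_add_le w s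
    linarith
  have h2 := integral_mono_ae (kr_shift_integrable r hr hr1 w) (integrable_const _) h1
  simpa [k2] using h2

lemma k2_ge (r : ℝ) (hr : 0 < r) (hr1 : r ≤ 1) (w : ℝ) : Real.log (|w| + r) - 12 ≤ k2 r w := by
  have := unifm_prob r hr
  have h1 : ∀ᵐ s ∂(unifm r), Real.log (|w| + r) - 12 ≤ kr r ((w + s : ℝ) : ℂ) := by
    filter_upwards [unifm_mem r] with s hs
    refine le_trans ?_ (kr_ge_log_add r hr _)
    rw [Complex.norm_real, Real.norm_eq_abs]
    have h1 : |s| ≤ r := abs_le.mpr hs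
    have h2 : |w| ≤ |w + s| + |s| := by
      have := abs_sub (w + s) s
      simpa using this
    have h3 : (|w| + r) / 2 ≤ |w + s| + r := by
      have := abs_nonneg (w + s)
      linarith
    have h4 := Real.log_le_log (by positivity) h3
    rw [Real.log_div (by positivity) (by norm_num)] at h4
    have h5 := Real.log_two_lt_d9
    linarith
  have h2 := integral_mono_ae (integrable_const _) (kr_shift_integrable r hr hr1 w) h1
  simpa [k2] using h2

lemma k2_ge_of_lt (r : ℝ) (hr : 0 < r) (hr1 : r ≤ 1) (w : ℝ) (hw : 2 * r < |w|) :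
    Real.log (|w| - 2 * r) ≤ k2 r w := by
  have := unifm_prob r hr
  have h1 : ∀ᵐ s ∂(unifm r), Real.log (|w| - 2 * r) ≤ kr r ((w + s : ℝ) : ℂ) := by
    filter_upwards [unifm_mem r] with s hs
    have h1 : |s| ≤ r := abs_le.mpr hs
    have h2 : |w| ≤ |w + s| + |s| := by
      have := abs_sub (w + s) s
      simpa using this
    have e : ‖((w + s : ℝ) : ℂ)‖ = |w + s| := by rw [Complex.norm_real, Real.norm_eq_abs]
    refine le_trans ?_ (le_kr_of_lt r hr _ (by rw [e]; linarith))
    rw [e]
    apply Real.log_le_log (by linarith)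
    linarith
  have h2 := integral_mono_ae (integrable_const _) (kr_shift_integrable r hr hr1 w) h1
  simpa [k2] using h2

lemma k2_measurable (r : ℝ) (hr : 0 < r) : Measurable (k2 r) := by
  have := unifm_prob r hr
  unfold k2
  have hm : Measurable (fun p : ℝ × ℝ => kr r ((p.1 + p.2 : ℝ) : ℂ)) :=
    (kr_measurable r).comp (Complex.measurable_ofReal.comp (measurable_fst.add measurable_snd))
  exact (hm.stronglyMeasurable.integral_prod_right' (ν := unifm r)).measurable

/-- the comparison inequality in terms of kernels -/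
lemma energy_kernels (μ : Measure ℝ) [IsProbabilityMeasure μ] (hμ : IsArith μ) (R : ℝ)
    (hR : μ (Icc (-R) R)ᶜ = 0) (r : ℝ) (hr : 0 < r) (hr1 : r ≤ 1) :
    Integrable (fun p : ℝ × ℝ => kr r ((p.1 - p.2 : ℝ) : ℂ) - k2 r (p.1 - p.2) / 2) (μ.prod μ) ∧
    0 ≤ ∫ p : ℝ × ℝ, (kr r ((p.1 - p.2 : ℝ) : ℂ) - k2 r (p.1 - p.2) / 2) ∂(μ.prod μ) := by
  have hup := unifm_prob r hr
  have hcp := convm_prob μ r hr
  have hR0 : 0 ≤ R := by
    by_contra hneg
    have : (Icc (-R) R) = ∅ := Icc_eq_empty (by linarith)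
    rw [this] at hR
    simp at hR
  set ρ := convm μ r with hρ
  have hρle := convm_le μ r hr
  have hρs := convm_supp μ r hr R hR
  have hμs : μ (Icc (-(R + r)) (R + r))ᶜ = 0 :=
    measure_mono_null (compl_subset_compl.mpr (Icc_subset_Icc (by linarith) (by linarith))) hR
  have hcmp := energy_compare μ ρ _ ENNReal.ofReal_ne_top (R + r) hρle hρs hμs hμ
  have hmem : ∀ᵐ x ∂μ, x ∈ Icc (-R) R := by rw [ae_iff]; exact hR
  -- L x = ∫ kr (x - v) dμ(v)
  have hLi : ∀ x : ℝ, Integrable (fun y => Real.log |x - y|) ρ := by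
    intro x
    have h1 := integrable_conv (Measure.dirac x) ρ _ ENNReal.ofReal_ne_top (max (R + r) |x|) hρle
      (measure_mono_null (compl_subset_compl.mpr (Icc_subset_Icc (neg_le_neg (le_max_left _ _))
        (le_max_left _ _))) hρs)
      (by
        rw [Measure.dirac_apply' _ measurableSet_Icc.compl]
        have hx1 := neg_abs_le x
        have hx2 := le_abs_self x
        have hx3 := le_max_right (R + r) |x|
        have : x ∈ Icc (-(max (R + r) |x|)) (max (R + r) |x|) := ⟨by linarith, by linarith⟩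
        simp [this])
      (fun s => Real.log |s|) (by fun_prop) (by
        have := integrableOn_log_Icc (2 * max (R + r) |x|)
        refine this.congr_fun ?_ measurableSet_Icc
        intro x _; simp)
    have h2 := h1.prod_right_ae
    rw [ae_dirac_eq] at h2
    exact h2
  have hL : ∀ x : ℝ, ∫ y, Real.log |x - y| ∂ρ = ∫ v, kr r ((x - v : ℝ) : ℂ) ∂μ := by
    intro x
    rw [hρ, integral_convm μ r hr _ (hLi x) (by fun_prop)]
    apply integral_congr_ae
    filter_upwards with v
    rw [integral_unifm r hr]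
    unfold kr
    congr 2
    ext s
    rw [← Complex.ofReal_sub, Complex.norm_real, Real.norm_eq_abs]
    congr 2
    ring
  simp_rw [hL] at hcmp
  -- integrability of the kernels on the product
  have hmemp : ∀ᵐ p ∂(μ.prod μ), |p.1 - p.2| ≤ 2 * R := by
    have a1 : ∀ᵐ p ∂(μ.prod μ), p.1 ∈ Icc (-R) R := Measure.quasiMeasurePreserving_fst.ae hmem
    have a2 : ∀ᵐ p ∂(μ.prod μ), p.2 ∈ Icc (-R) R := Measure.quasiMeasurePreserving_snd.ae hmem
    filter_upwards [a1, a2] with p b1 b2
    rw [abs_le]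
    constructor <;> linarith [b1.1, b1.2, b2.1, b2.2]
  have hkrm : Measurable (fun p : ℝ × ℝ => kr r ((p.1 - p.2 : ℝ) : ℂ)) :=
    (kr_measurable r).comp (Complex.measurable_ofReal.comp (measurable_fst.sub measurable_snd))
  have hkri : Integrable (fun p : ℝ × ℝ => kr r ((p.1 - p.2 : ℝ) : ℂ)) (μ.prod μ) := by
    refine Integrable.of_bound (C := |Real.log r - 1| + Real.log (2 * R + 1)) hkrm.aestronglyMeasurable ?_
    filter_upwards [hmemp] with p hp
    rw [Real.norm_eq_abs]
    apply kr_abs_le r hr hr1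
    rw [Complex.norm_real, Real.norm_eq_abs]
    exact hp
  have hk2m : Measurable (fun p : ℝ × ℝ => k2 r (p.1 - p.2)) :=
    (k2_measurable r hr).comp (measurable_fst.sub measurable_snd)
  have hk2i : Integrable (fun p : ℝ × ℝ => k2 r (p.1 - p.2)) (μ.prod μ) := by
    refine Integrable.of_bound (C := |Real.log r| + 12 + Real.log (2 * R + 2)) hk2m.aestronglyMeasurable ?_
    filter_upwards [hmemp] with p hp
    rw [Real.norm_eq_abs, abs_le]
    have h1 := k2_ge r hr hr1 (p.1 - p.2)
    have h2 := k2_le r hr hr1 (p.1 - p.2)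
    have h3 : Real.log r ≤ Real.log (|p.1 - p.2| + r) :=
      Real.log_le_log hr (by linarith [abs_nonneg (p.1 - p.2)])
    have h4 : Real.log (|p.1 - p.2| + 2 * r) ≤ Real.log (2 * R + 2) :=
      Real.log_le_log (by positivity) (by linarith)
    have h5 := neg_abs_le (Real.log r)
    have h6 := abs_nonneg (Real.log r)
    have h7 : 0 ≤ Real.log (2 * R + 2) := Real.log_nonneg (by linarith)
    constructor <;> linarith
  refine ⟨hkri.sub (hk2i.div_const _), ?_⟩
  rw [integral_sub hkri (hk2i.div_const _), integral_div]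
  have e1 : ∫ p : ℝ × ℝ, kr r ((p.1 - p.2 : ℝ) : ℂ) ∂(μ.prod μ) = ∫ x, ∫ v, kr r ((x - v : ℝ) : ℂ) ∂μ ∂μ :=
    integral_prod _ hkri
  have e2 : ∫ p : ℝ × ℝ, k2 r (p.1 - p.2) ∂(μ.prod μ) = ∫ x, ∫ v, k2 r (x - v) ∂μ ∂μ :=
    integral_prod _ hk2i
  -- the integral over ρ
  have hLρ : Integrable (fun x => ∫ v, kr r ((x - v : ℝ) : ℂ) ∂μ) ρ := by
    have iρρ := integrable_conv ρ ρ _ ENNReal.ofReal_ne_top (R + r) hρle hρs hρs
      (fun s => Real.log |s|) (by fun_prop) (by
        have := integrableOn_log_Icc (2 * (R + r))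
        refine this.congr_fun ?_ measurableSet_Icc
        intro x _; simp)
    have := iρρ.integral_prod_left
    refine this.congr ?_
    filter_upwards with x
    exact hL x
  have hLm : Measurable (fun x : ℝ => ∫ v, kr r ((x - v : ℝ) : ℂ) ∂μ) :=
    (hkrm.stronglyMeasurable.integral_prod_right' (ν := μ)).measurable
  have e3 : ∫ x, ∫ v, kr r ((x - v : ℝ) : ℂ) ∂μ ∂ρ = ∫ x, ∫ v, k2 r (x - v) ∂μ ∂μ := by
    rw [hρ, integral_convm μ r hr _ hLρ hLm]
    apply integral_congr_ae
    filter_upwards [hmem] with u hu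
    unfold k2
    have hsw : Integrable (Function.uncurry fun (s v : ℝ) => kr r ((u + s - v : ℝ) : ℂ)) ((unifm r).prod μ) := by
      refine Integrable.of_bound (C := |Real.log r - 1| + Real.log ((2 * R + 1) + 1)) ?_ ?_
      · apply Measurable.aestronglyMeasurable
        apply (kr_measurable r).comp
        apply Complex.measurable_ofReal.comp
        fun_prop
      · have a1 : ∀ᵐ p ∂((unifm r).prod μ), p.1 ∈ Icc (-r) r :=
          Measure.quasiMeasurePreserving_fst.ae (unifm_mem r)
        have a2 : ∀ᵐ p ∂((unifm r).prod μ), p.2 ∈ Icc (-R) R :=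
          Measure.quasiMeasurePreserving_snd.ae hmem
        filter_upwards [a1, a2] with p b1 b2
        rw [Real.norm_eq_abs]
        apply kr_abs_le r hr hr1
        rw [Complex.norm_real, Real.norm_eq_abs, abs_le]
        constructor <;> linarith [b1.1, b1.2, b2.1, b2.2, hu.1, hu.2]
    rw [integral_integral_swap hsw]
    apply integral_congr_ae
    filter_upwards with v
    apply integral_congr_ae
    filter_upwards with s
    congr 2
    ring
  rw [e3] at hcmp
  rw [e1, e2]
  linarith

end Pool.Agent.TraceMin
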