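import Pool.Agent.TraceMin.EnergyD

/-!
Arithmetic measures have finite nonnegative logarithmic energy.
-/

open MeasureTheory Polynomial Set Real Filter Topology

namespace Pool.Agent.TraceMin

lemma prod_mem (μ : Measure ℝ) [IsProbabilityMeasure μ] (R : ℝ)
    (hR : μ (Icc (-R) R)ᶜ = 0) : ∀ᵐ p ∂(μ.prod μ), |p.1 - p.2| ≤ 2 * R := by
  have hmem : ∀ᵐ x ∂μ, x ∈ Icc (-R) R := by rw [ae_iff]; exact hR
  have a1 : ∀ᵐ p ∂(μ.prod μ), p.1 ∈ Icc (-R) R := Measure.quasiMeasurePreserving_fst.ae hmem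
  have a2 : ∀ᵐ p ∂(μ.prod μ), p.2 ∈ Icc (-R) R := Measure.quasiMeasurePreserving_snd.ae hmem
  filter_upwards [a1, a2] with p b1 b2
  rw [abs_le]
  constructor <;> linarith [b1.1, b1.2, b2.1, b2.2]

lemma measurable_log_abs_add (r : ℝ) : Measurable (fun p : ℝ × ℝ => Real.log (|p.1 - p.2| + r)) := by
  apply Real.measurable_log.comp
  fun_prop

lemma energy_lower (μ : Measure ℝ) [IsProbabilityMeasure μ] (hμ : IsArith μ) (R : ℝ) (hR0 : 0 ≤ R)
    (hR : μ (Icc (-R) R)ᶜ = 0) (r : ℝ) (hr : 0 < r) (hr1 : r ≤ 1) :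
    Integrable (fun p : ℝ × ℝ => Real.log (|p.1 - p.2| + r)) (μ.prod μ) ∧
    -12 ≤ ∫ p : ℝ × ℝ, Real.log (|p.1 - p.2| + r) ∂(μ.prod μ) := by
  obtain ⟨h0, h1⟩ := energy_kernels μ hμ R hR r hr hr1
  have hmemp := prod_mem μ R hR
  have hi : Integrable (fun p : ℝ × ℝ => Real.log (|p.1 - p.2| + r)) (μ.prod μ) := by
    refine Integrable.of_bound (C := |Real.log r| + Real.log (2 * R + 1))
      (measurable_log_abs_add r).aestronglyMeasurable ?_
    filter_upwards [hmemp] with p hp
    have h3 : Real.log r ≤ Real.log (|p.1 - p.2| + r) :=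
      Real.log_le_log hr (by linarith [abs_nonneg (p.1 - p.2)])
    have h4 : Real.log (|p.1 - p.2| + r) ≤ Real.log (2 * R + 1) :=
      Real.log_le_log (by positivity) (by linarith)
    have h5 := neg_abs_le (Real.log r)
    have h6 := abs_nonneg (Real.log r)
    have h7 : 0 ≤ Real.log (2 * R + 1) := Real.log_nonneg (by linarith)
    rw [Real.norm_eq_abs, abs_le]
    constructor <;> linarith
  refine ⟨hi, ?_⟩
  have h2 : ∫ p : ℝ × ℝ, (kr r ((p.1 - p.2 : ℝ) : ℂ) - k2 r (p.1 - p.2) / 2) ∂(μ.prod μ) ≤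
      ∫ p : ℝ × ℝ, (Real.log (|p.1 - p.2| + r) / 2 + 6) ∂(μ.prod μ) := by
    have hi6 : Integrable (fun p : ℝ × ℝ => Real.log (|p.1 - p.2| + r) / 2 + 6) (μ.prod μ) :=
      (hi.div_const 2).add (integrable_const _)
    apply integral_mono h0 hi6
    intro p
    have a1 := kr_le r hr ((p.1 - p.2 : ℝ) : ℂ)
    rw [Complex.norm_real, Real.norm_eq_abs] at a1
    have a2 := k2_ge r hr hr1 (p.1 - p.2)
    simp only
    linarith
  have h3 := h1.trans h2
  rw [integral_add (hi.div_const 2) (integrable_const _), integral_div] at h3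
  simp at h3
  linarith

theorem energy_nonneg (μ : Measure ℝ) [IsProbabilityMeasure μ] (hμ : IsArith μ) (R : ℝ)
    (hR : μ (Icc (-R) R)ᶜ = 0) :
    Integrable (fun p : ℝ × ℝ => Real.log |p.1 - p.2|) (μ.prod μ) ∧
    (μ.prod μ) {p | p.1 = p.2} = 0 ∧
    0 ≤ ∫ p : ℝ × ℝ, Real.log |p.1 - p.2| ∂(μ.prod μ) := by
  have hR0 : 0 ≤ R := by
    by_contra hneg
    have : (Icc (-R) R) = ∅ := Icc_eq_empty (by linarith)
    rw [this] at hR
    simp at hR
  have hmemp := prod_mem μ R hR
  set rn : ℕ → ℝ := fun n => 1 / ((n : ℝ) + 1) with hrn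
  have hrpos : ∀ n, 0 < rn n := fun n => by simp only [hrn]; positivity
  have hr1 : ∀ n, rn n ≤ 1 := fun n => by
    simp only [hrn]
    rw [div_le_one (by positivity)]
    have : (0:ℝ) ≤ n := Nat.cast_nonneg n
    linarith
  have hrlim : Tendsto rn atTop (𝓝 0) := tendsto_one_div_add_atTop_nhds_zero_nat
  set c0 := Real.log (2 * R + 1) with hc0
  have hc0' : 0 ≤ c0 := Real.log_nonneg (by linarith)
  set g : ℕ → ℝ × ℝ → ENNReal := fun n p => ENNReal.ofReal (c0 - Real.log (|p.1 - p.2| + rn n)) with hg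
  have hgm : ∀ n, Measurable (g n) := fun n =>
    (measurable_const.sub (measurable_log_abs_add (rn n))).ennreal_ofReal
  have hgint : ∀ n, ∫⁻ p, g n p ∂(μ.prod μ) ≤ ENNReal.ofReal (c0 + 12) := by
    intro n
    obtain ⟨hi, hl⟩ := energy_lower μ hμ R hR0 hR (rn n) (hrpos n) (hr1 n)
    simp only [hg]
    have hi7 : Integrable (fun p : ℝ × ℝ => c0 - Real.log (|p.1 - p.2| + rn n)) (μ.prod μ) :=
      (integrable_const _).sub hi
    rw [← ofReal_integral_eq_lintegral_ofReal hi7]
    · apply ENNReal.ofReal_le_ofReal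
      rw [integral_sub (integrable_const _) hi]
      simp
      linarith
    · filter_upwards [hmemp] with p hp
      have : Real.log (|p.1 - p.2| + rn n) ≤ c0 :=
        Real.log_le_log (by have := hrpos n; positivity) (by linarith [hr1 n])
      simpa using this
  set Φ : ℝ × ℝ → ENNReal := fun p => liminf (fun n => g n p) atTop with hΦ
  have hΦint : ∫⁻ p, Φ p ∂(μ.prod μ) < ⊤ := by
    have h1 : ∫⁻ p, liminf (fun n => g n p) atTop ∂(μ.prod μ) ≤
        liminf (fun n => ∫⁻ p, g n p ∂(μ.prod μ)) atTop := lintegral_liminf_le hgm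
    refine h1.trans_lt ?_
    have h2 : liminf (fun n => ∫⁻ p, g n p ∂(μ.prod μ)) atTop ≤ ENNReal.ofReal (c0 + 12) := by
      apply liminf_le_of_le
      · isBoundedDefault
      · intro b hb
        obtain ⟨n, hn⟩ := hb.exists
        exact hn.trans (hgint n)
    exact h2.trans_lt ENNReal.ofReal_lt_top
  have hΦm : Measurable Φ := Measurable.liminf hgm
  have hΦfin : ∀ᵐ p ∂(μ.prod μ), Φ p < ⊤ := ae_lt_top hΦm hΦint.ne
  -- values of Φ
  have hdiag : ∀ p : ℝ × ℝ, p.1 = p.2 → Φ p = ⊤ := by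
    intro p hp
    simp only [hΦ, hg, hp, sub_self, abs_zero, zero_add]
    apply Tendsto.liminf_eq
    apply ENNReal.tendsto_ofReal_atTop.comp
    have h1 : Tendsto (fun n => -Real.log (rn n)) atTop atTop := by
      have h2 : ∀ n : ℕ, -Real.log (rn n) = Real.log ((n : ℝ) + 1) := by
        intro n
        simp only [hrn, one_div, Real.log_inv, neg_neg]
      simp_rw [h2]
      exact Real.tendsto_log_atTop.comp (tendsto_atTop_add_const_right _ _ tendsto_natCast_atTop_atTop)
    exact tendsto_atTop_add_const_left _ _ h1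
  have hoff : ∀ p : ℝ × ℝ, p.1 ≠ p.2 → Φ p = ENNReal.ofReal (c0 - Real.log |p.1 - p.2|) := by
    intro p hp
    simp only [hΦ, hg]
    apply Tendsto.liminf_eq
    apply (ENNReal.continuous_ofReal.tendsto _).comp
    apply tendsto_const_nhds.sub
    have hpos : |p.1 - p.2| ≠ 0 := abs_ne_zero.mpr (sub_ne_zero.mpr hp)
    have h1 : Tendsto (fun n => |p.1 - p.2| + rn n) atTop (𝓝 (|p.1 - p.2| + 0)) :=
      tendsto_const_nhds.add hrlim
    rw [add_zero] at h1
    exact (Real.continuousAt_log hpos).tendsto.comp h1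
  have hne : ∀ᵐ p ∂(μ.prod μ), p.1 ≠ p.2 := by
    filter_upwards [hΦfin] with p hp h
    rw [hdiag p h] at hp
    exact lt_irrefl _ hp
  have hdiag0 : (μ.prod μ) {p | p.1 = p.2} = 0 := by
    rw [ae_iff] at hne
    simpa using hne
  have hlogm : Measurable (fun p : ℝ × ℝ => Real.log |p.1 - p.2|) := by
    apply Real.measurable_log.comp; fun_prop
  have hint : Integrable (fun p : ℝ × ℝ => Real.log |p.1 - p.2|) (μ.prod μ) := by
    have h1 : Integrable (fun p : ℝ × ℝ => c0 - Real.log |p.1 - p.2|) (μ.prod μ) := by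
      refine ⟨(measurable_const.sub hlogm).aestronglyMeasurable, ?_⟩
      rw [hasFiniteIntegral_iff_ofReal]
      · refine lt_of_le_of_lt (lintegral_mono_ae ?_) hΦint
        filter_upwards [hne] with p hp
        rw [hoff p hp]
      · filter_upwards [hmemp, hne] with p hp hp2
        have hpos : 0 < |p.1 - p.2| := abs_pos.mpr (sub_ne_zero.mpr hp2)
        have : Real.log |p.1 - p.2| ≤ c0 := Real.log_le_log hpos (by linarith)
        simpa using this
    have h2 := (integrable_const c0 (μ := μ.prod μ)).sub h1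
    refine h2.congr ?_
    filter_upwards with p
    simp
  refine ⟨hint, hdiag0, ?_⟩
  -- dominated convergence
  set F : ℕ → ℝ × ℝ → ℝ := fun n p => kr (rn n) ((p.1 - p.2 : ℝ) : ℂ) - k2 (rn n) (p.1 - p.2) / 2 with hF
  have hFint : ∀ n, 0 ≤ ∫ p, F n p ∂(μ.prod μ) := fun n =>
    (energy_kernels μ hμ R hR (rn n) (hrpos n) (hr1 n)).2
  have hFm : ∀ n, AEStronglyMeasurable (F n) (μ.prod μ) := fun n =>
    (energy_kernels μ hμ R hR (rn n) (hrpos n) (hr1 n)).1.aestronglyMeasurable
  have hbound : ∀ n, ∀ᵐ p ∂(μ.prod μ), ‖F n p‖ ≤ 2 * |Real.log (|p.1 - p.2|)| + (2 * Real.log (2 * R + 2) + 24) := by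
    intro n
    filter_upwards [hmemp, hne] with p hp hp2
    have hpos : 0 < |p.1 - p.2| := abs_pos.mpr (sub_ne_zero.mpr hp2)
    have a1 := kr_le (rn n) (hrpos n) ((p.1 - p.2 : ℝ) : ℂ)
    have a2 := kr_ge_log_add (rn n) (hrpos n) ((p.1 - p.2 : ℝ) : ℂ)
    rw [Complex.norm_real, Real.norm_eq_abs] at a1 a2
    have a3 := k2_le (rn n) (hrpos n) (hr1 n) (p.1 - p.2)
    have a4 := k2_ge (rn n) (hrpos n) (hr1 n) (p.1 - p.2)
    have b1 : Real.log (|p.1 - p.2| + rn n) ≤ Real.log (2 * R + 2) :=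
      Real.log_le_log (by linarith [hrpos n]) (by linarith [hr1 n])
    have b2 : Real.log (|p.1 - p.2| + 2 * rn n) ≤ Real.log (2 * R + 2) :=
      Real.log_le_log (by linarith [hrpos n]) (by linarith [hr1 n])
    have b3 : Real.log |p.1 - p.2| ≤ Real.log (|p.1 - p.2| + rn n) :=
      Real.log_le_log hpos (by linarith [hrpos n])
    have b4 := neg_abs_le (Real.log |p.1 - p.2|)
    have b5 : 0 ≤ Real.log (2 * R + 2) := Real.log_nonneg (by linarith)
    have b6 := abs_nonneg (Real.log |p.1 - p.2|)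
    simp only [hF]
    rw [Real.norm_eq_abs, abs_le]
    constructor <;> linarith
  have hlim : ∀ᵐ p ∂(μ.prod μ), Tendsto (fun n => F n p) atTop (𝓝 (Real.log |p.1 - p.2| / 2)) := by
    filter_upwards [hne] with p hp
    have hpos : 0 < |p.1 - p.2| := abs_pos.mpr (sub_ne_zero.mpr hp)
    have hev : ∀ᶠ n in atTop, 2 * rn n < |p.1 - p.2| := by
      have : Tendsto (fun n => 2 * rn n) atTop (𝓝 (2 * 0)) := hrlim.const_mul 2
      rw [mul_zero] at this
      exact this.eventually_lt_const hpos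
    have hlog : ∀ c : ℝ, Tendsto (fun n => Real.log (|p.1 - p.2| + c * rn n)) atTop (𝓝 (Real.log |p.1 - p.2|)) := by
      intro c
      have h1 : Tendsto (fun n => |p.1 - p.2| + c * rn n) atTop (𝓝 (|p.1 - p.2| + c * 0)) :=
        tendsto_const_nhds.add (hrlim.const_mul c)
      rw [mul_zero, add_zero] at h1
      exact (Real.continuousAt_log hpos.ne').tendsto.comp h1
    have hkr : Tendsto (fun n => kr (rn n) ((p.1 - p.2 : ℝ) : ℂ)) atTop (𝓝 (Real.log |p.1 - p.2|)) := by
      refine tendsto_of_tendsto_of_tendsto_of_le_of_le' (hlog (-1)) (hlog 1) ?_ ?_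
      · filter_upwards [hev] with n hn
        have := le_kr_of_lt (rn n) (hrpos n) ((p.1 - p.2 : ℝ) : ℂ)
          (by rw [Complex.norm_real, Real.norm_eq_abs]; linarith [hrpos n])
        rw [Complex.norm_real, Real.norm_eq_abs] at this
        rw [show |p.1 - p.2| + -1 * rn n = |p.1 - p.2| - rn n by ring]
        exact this
      · filter_upwards with n
        have := kr_le (rn n) (hrpos n) ((p.1 - p.2 : ℝ) : ℂ)
        rw [Complex.norm_real, Real.norm_eq_abs] at this
        rw [one_mul]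
        exact this
    have hk2 : Tendsto (fun n => k2 (rn n) (p.1 - p.2)) atTop (𝓝 (Real.log |p.1 - p.2|)) := by
      refine tendsto_of_tendsto_of_tendsto_of_le_of_le' (hlog (-2)) (hlog 2) ?_ ?_
      · filter_upwards [hev] with n hn
        have := k2_ge_of_lt (rn n) (hrpos n) (hr1 n) (p.1 - p.2) hn
        rw [show |p.1 - p.2| + -2 * rn n = |p.1 - p.2| - 2 * rn n by ring]
        exact this
      · filter_upwards with n
        exact k2_le (rn n) (hrpos n) (hr1 n) (p.1 - p.2)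
    have := hkr.sub (hk2.div_const 2)
    rw [show Real.log |p.1 - p.2| - Real.log |p.1 - p.2| / 2 = Real.log |p.1 - p.2| / 2 by ring] at this
    exact this
  have hconv := tendsto_integral_of_dominated_convergence
    (fun p : ℝ × ℝ => 2 * |Real.log (|p.1 - p.2|)| + (2 * Real.log (2 * R + 2) + 24)) hFm
    ((hint.abs.const_mul 2).add (integrable_const _)) hbound hlim
  have h5 : 0 ≤ ∫ p : ℝ × ℝ, Real.log |p.1 - p.2| / 2 ∂(μ.prod μ) :=
    ge_of_tendsto' hconv hFint
  rw [integral_div] at h5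
  linarith

end Pool.Agent.TraceMin
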