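import Pool.Agent.TraceMin.MainE
import Pool.Agent.TraceMin.Cut
import Pool.Agent.TraceMin.Duality

/-!
Uniqueness of the minimiser on the line.
-/

open MeasureTheory Polynomial Set Real Filter Topology

namespace Pool.Agent.TraceMin

/-- integral of `lam r` over the product -/
noncomputable def Mlam (μ ν : Measure ℝ) (r : ℝ) : ℝ :=
  ∫ p : ℝ × ℝ, lam r ((p.1 : ℂ) - p.2) ∂(μ.prod ν)

lemma lam_int_of_bdd (mm : Measure (ℝ × ℝ)) [IsFiniteMeasure mm] (R : ℝ)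
    (hbd : ∀ᵐ p ∂mm, |p.1 - p.2| ≤ R) (r : ℝ) (hr : 0 < r) :
    Integrable (fun p : ℝ × ℝ => lam r ((p.1 : ℂ) - p.2)) mm := by
  refine Integrable.of_bound (C := |Real.log r| + |Real.log (|R| + r)|)
    ((lam_continuous r hr).comp (by fun_prop)).aestronglyMeasurable ?_
  filter_upwards [hbd] with p hp
  have e : ‖(p.1 : ℂ) - p.2‖ = |p.1 - p.2| := by
    rw [← Complex.ofReal_sub, Complex.norm_real, Real.norm_eq_abs]
  have h1 := lam_ge_log_r r hr ((p.1 : ℂ) - p.2)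
  have h2 := lam_le r hr ((p.1 : ℂ) - p.2)
  rw [e] at h2
  have h3 : |p.1 - p.2| ≤ |R| := hp.trans (le_abs_self R)
  have h4 : Real.log (|p.1 - p.2| + r) ≤ Real.log (|R| + r) :=
    Real.log_le_log (by positivity) (by linarith)
  rw [Real.norm_eq_abs, abs_le]
  have a1 := neg_abs_le (Real.log r)
  have a2 := le_abs_self (Real.log (|R| + r))
  have a3 := abs_nonneg (Real.log r)
  have a4 := abs_nonneg (Real.log (|R| + r))
  constructor <;> linarith

lemma lam_tendsto_log (mm : Measure (ℝ × ℝ)) [IsFiniteMeasure mm] (R : ℝ)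
    (hbd : ∀ᵐ p ∂mm, |p.1 - p.2| ≤ R)
    (hint : Integrable (fun p : ℝ × ℝ => Real.log |p.1 - p.2|) mm)
    (hne : ∀ᵐ p ∂mm, p.1 ≠ p.2) :
    Tendsto (fun r => ∫ p : ℝ × ℝ, lam r ((p.1 : ℂ) - p.2) ∂mm) (𝓝[>] 0)
      (𝓝 (∫ p : ℝ × ℝ, Real.log |p.1 - p.2| ∂mm)) := by
  apply tendsto_integral_filter_of_dominated_convergence
    (fun p : ℝ × ℝ => |Real.log (|p.1 - p.2|)| + |Real.log (|R| + 1)|)
  · filter_upwards [self_mem_nhdsWithin] with r hr
    exact (lam_int_of_bdd mm R hbd r hr).aestronglyMeasurable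
  · have h1 : ∀ᶠ r : ℝ in 𝓝[>] 0, r ≤ 1 :=
      (eventually_le_nhds (by norm_num : (0:ℝ) < 1)).filter_mono nhdsWithin_le_nhds
    filter_upwards [self_mem_nhdsWithin, h1] with r hr hr1
    have hr' : 0 < r := hr
    filter_upwards [hne, hbd] with p hp hp2
    have e : ‖(p.1 : ℂ) - p.2‖ = |p.1 - p.2| := by
      rw [← Complex.ofReal_sub, Complex.norm_real, Real.norm_eq_abs]
    have h2 := lam_ge_log_norm r ((p.1 : ℂ) - p.2) (by
      rw [sub_ne_zero]
      exact_mod_cast hp)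
    have h3 := lam_le r hr' ((p.1 : ℂ) - p.2)
    rw [e] at h2 h3
    have h4 : |p.1 - p.2| ≤ |R| := hp2.trans (le_abs_self R)
    have h5 : Real.log (|p.1 - p.2| + r) ≤ Real.log (|R| + 1) :=
      Real.log_le_log (by positivity) (by linarith)
    rw [Real.norm_eq_abs, abs_le]
    have a1 := neg_abs_le (Real.log (|p.1 - p.2|))
    have a2 := le_abs_self (Real.log (|R| + 1))
    have a3 := abs_nonneg (Real.log (|p.1 - p.2|))
    have a4 := abs_nonneg (Real.log (|R| + 1))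
    constructor <;> linarith
  · exact hint.abs.add (integrable_const _)
  · filter_upwards [hne] with p hp
    have e : ‖(p.1 : ℂ) - p.2‖ = |p.1 - p.2| := by
      rw [← Complex.ofReal_sub, Complex.norm_real, Real.norm_eq_abs]
    unfold lam
    rw [e]
    have hpos : 0 < |p.1 - p.2| := abs_pos.mpr (sub_ne_zero.mpr hp)
    have h1 : Tendsto (fun r : ℝ => |p.1 - p.2| ^ 2 + r ^ 2) (𝓝[>] 0) (𝓝 (|p.1 - p.2| ^ 2 + 0 ^ 2)) := by
      apply Tendsto.mono_left _ nhdsWithin_le_nhds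
      apply Continuous.tendsto
      fun_prop
    have e2 : |p.1 - p.2| ^ 2 + (0:ℝ) ^ 2 = |p.1 - p.2| ^ 2 := by ring
    rw [e2] at h1
    have h2 := (Real.continuousAt_log (pow_pos hpos 2).ne').tendsto.comp h1
    have h3 := h2.div_const 2
    rw [Real.log_pow] at h3
    have e3 : ((2:ℕ):ℝ) * Real.log |p.1 - p.2| / 2 = Real.log |p.1 - p.2| := by push_cast; ring
    rw [e3] at h3
    exact h3

lemma prod_bdd (μ ν : Measure ℝ) [IsProbabilityMeasure μ] [IsProbabilityMeasure ν] (R : ℝ)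
    (hμ : μ (Icc (-R) R)ᶜ = 0) (hν : ν (Icc (-R) R)ᶜ = 0) :
    ∀ᵐ p ∂(μ.prod ν), |p.1 - p.2| ≤ 2 * R := by
  have hmem : ∀ᵐ x ∂μ, x ∈ Icc (-R) R := by rw [ae_iff]; exact hμ
  have hmem2 : ∀ᵐ x ∂ν, x ∈ Icc (-R) R := by rw [ae_iff]; exact hν
  have a1 : ∀ᵐ p ∂(μ.prod ν), p.1 ∈ Icc (-R) R := Measure.quasiMeasurePreserving_fst.ae hmem
  have a2 : ∀ᵐ p ∂(μ.prod ν), p.2 ∈ Icc (-R) R := Measure.quasiMeasurePreserving_snd.ae hmem2
  filter_upwards [a1, a2] with p b1 b2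
  rw [abs_le]
  constructor <;> linarith [b1.1, b1.2, b2.1, b2.2]

/-- strict concavity of the energy -/
lemma energy_strict (μ ν : Measure ℝ) [IsProbabilityMeasure μ] [IsProbabilityMeasure ν] (R : ℝ)
    (hμ : μ (Icc (-R) R)ᶜ = 0) (hν : ν (Icc (-R) R)ᶜ = 0) (hne : μ ≠ ν)
    (i11 : Integrable (fun p : ℝ × ℝ => Real.log |p.1 - p.2|) (μ.prod μ))
    (i12 : Integrable (fun p : ℝ × ℝ => Real.log |p.1 - p.2|) (μ.prod ν))
    (i22 : Integrable (fun p : ℝ × ℝ => Real.log |p.1 - p.2|) (ν.prod ν))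
    (n11 : ∀ᵐ p ∂(μ.prod μ), p.1 ≠ p.2) (n12 : ∀ᵐ p ∂(μ.prod ν), p.1 ≠ p.2)
    (n22 : ∀ᵐ p ∂(ν.prod ν), p.1 ≠ p.2) :
    (∫ p : ℝ × ℝ, Real.log |p.1 - p.2| ∂(μ.prod μ)) + (∫ p : ℝ × ℝ, Real.log |p.1 - p.2| ∂(ν.prod ν))
      < 2 * ∫ p : ℝ × ℝ, Real.log |p.1 - p.2| ∂(μ.prod ν) := by
  set q : ℝ → ℝ := fun r => Mlam μ μ r - 2 * Mlam μ ν r + Mlam ν ν r with hq
  have hb11 := prod_bdd μ μ R hμ hμ
  have hb12 := prod_bdd μ ν R hμ hν
  have hb22 := prod_bdd ν ν R hν hν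
  -- strict positivity of differences
  have hdiff : ∀ r e : ℝ, 0 < r → r < e → q r < q e := by
    intro r e hr hre
    have he : 0 < e := by linarith
    have h := lam_strict r e hr hre μ ν hne
    have key : ∀ (σ τ : Measure ℝ) [IsProbabilityMeasure σ] [IsProbabilityMeasure τ],
        (∀ᵐ p ∂(σ.prod τ), |p.1 - p.2| ≤ 2 * R) →
        ∫ x : ℝ, ∫ y : ℝ, (lam e ((x : ℂ) - y) - lam r ((x : ℂ) - y)) ∂τ ∂σ = Mlam σ τ e - Mlam σ τ r := by
      intro σ τ _ _ hb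
      unfold Mlam
      rw [← integral_sub (lam_int_of_bdd _ _ hb e he) (lam_int_of_bdd _ _ hb r hr)]
      have hsub : Integrable (fun p : ℝ × ℝ => lam e ((p.1 : ℂ) - p.2) - lam r ((p.1 : ℂ) - p.2)) (σ.prod τ) :=
        (lam_int_of_bdd _ _ hb e he).sub (lam_int_of_bdd _ _ hb r hr)
      rw [integral_prod _ hsub]
    rw [key μ μ hb11, key μ ν hb12, key ν ν hb22] at h
    simp only [hq]
    linarith
  -- q B → 0
  have hupper : ∀ B : ℝ, 0 < B → ∀ w : ℂ, lam B w ≤ Real.log B + ‖w‖ ^ 2 / (2 * B ^ 2) := by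
    intro B hB w
    unfold lam
    have h1 : ‖w‖ ^ 2 + B ^ 2 = B ^ 2 * (1 + ‖w‖ ^ 2 / B ^ 2) := by field_simp; ring
    rw [h1, Real.log_mul (by positivity) (by positivity), Real.log_pow]
    have h2 := Real.log_le_sub_one_of_pos (x := 1 + ‖w‖ ^ 2 / B ^ 2) (by positivity)
    have h3 : ‖w‖ ^ 2 / (2 * B ^ 2) = (‖w‖ ^ 2 / B ^ 2) / 2 := by field_simp
    rw [h3]
    push_cast
    linarith
  have hMup : ∀ (σ τ : Measure ℝ) [IsProbabilityMeasure σ] [IsProbabilityMeasure τ],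
      (∀ᵐ p ∂(σ.prod τ), |p.1 - p.2| ≤ 2 * R) → ∀ B : ℝ, 0 < B →
      Mlam σ τ B ≤ Real.log B + (2 * R) ^ 2 / (2 * B ^ 2) := by
    intro σ τ _ _ hb B hB
    unfold Mlam
    have h1 : ∫ p : ℝ × ℝ, lam B ((p.1 : ℂ) - p.2) ∂(σ.prod τ) ≤
        ∫ p : ℝ × ℝ, (Real.log B + (2 * R) ^ 2 / (2 * B ^ 2)) ∂(σ.prod τ) := by
      apply integral_mono_ae (lam_int_of_bdd _ _ hb B hB) (integrable_const _)
      filter_upwards [hb] with p hp
      refine (hupper B hB _).trans ?_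
      have e : ‖(p.1 : ℂ) - p.2‖ = |p.1 - p.2| := by
        rw [← Complex.ofReal_sub, Complex.norm_real, Real.norm_eq_abs]
      rw [e]
      have : |p.1 - p.2| ^ 2 ≤ (2 * R) ^ 2 := by
        apply pow_le_pow_left₀ (abs_nonneg _) hp
      gcongr
    simpa using h1
  have hMlow : ∀ (σ τ : Measure ℝ) [IsProbabilityMeasure σ] [IsProbabilityMeasure τ],
      (∀ᵐ p ∂(σ.prod τ), |p.1 - p.2| ≤ 2 * R) → ∀ B : ℝ, 0 < B → Real.log B ≤ Mlam σ τ B := by
    intro σ τ _ _ hb B hB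
    unfold Mlam
    have h1 := integral_mono (integrable_const (Real.log B)) (lam_int_of_bdd _ _ hb B hB)
      (fun p => lam_ge_log_r B hB _)
    simpa using h1
  have hqB : ∀ B : ℝ, 0 < B → q B ≤ 4 * R ^ 2 / B ^ 2 := by
    intro B hB
    have h1 := hMup μ μ hb11 B hB
    have h2 := hMup ν ν hb22 B hB
    have h3 := hMlow μ ν hb12 B hB
    simp only [hq]
    have e : (2 * R) ^ 2 / (2 * B ^ 2) + (2 * R) ^ 2 / (2 * B ^ 2) = 4 * R ^ 2 / B ^ 2 := by
      field_simp; ring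
    linarith
  set q21 := q 2 - q 1 with hq21
  have hq21pos : 0 < q21 := by
    have := hdiff 1 2 (by norm_num) (by norm_num)
    rw [hq21]; linarith
  have hqr : ∀ r : ℝ, 0 < r → r < 1 → q r ≤ -q21 := by
    intro r hr hr1
    have hB : ∀ B : ℝ, 2 < B → q r + q21 ≤ 4 * R ^ 2 / B ^ 2 := by
      intro B hB
      have h1 := hdiff r 1 hr hr1
      have h2 := hdiff 2 B (by norm_num) hB
      have h3 := hqB B (by linarith)
      rw [hq21]; linarith
    have hlim : Tendsto (fun B : ℝ => 4 * R ^ 2 / B ^ 2) atTop (𝓝 0) := by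
      apply Tendsto.div_atTop tendsto_const_nhds
      exact tendsto_pow_atTop (by norm_num)
    have := ge_of_tendsto hlim (b := q r + q21) (by
      filter_upwards [eventually_gt_atTop 2] with B hB'
      exact hB B hB')
    linarith
  have hlim := ((lam_tendsto_log _ _ hb11 i11 n11).sub
    ((lam_tendsto_log _ _ hb12 i12 n12).const_mul 2)).add (lam_tendsto_log _ _ hb22 i22 n22)
  have hle := le_of_tendsto hlim (b := -q21) (by
    have h1 : ∀ᶠ r : ℝ in 𝓝[>] 0, r < 1 :=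
      (eventually_lt_nhds (by norm_num : (0:ℝ) < 1)).filter_mono nhdsWithin_le_nhds
    filter_upwards [self_mem_nhdsWithin, h1] with r hr hr1
    exact hqr r hr hr1)
  linarith

end Pool.Agent.TraceMin
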