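import Pool.Agent.TraceMin.FinalA

/-!
Existence and uniqueness of the arithmetic measure on the line with the least second moment.
-/

open MeasureTheory Polynomial Set Real Filter Topology

namespace Pool.Agent.TraceMin

/-- a certificate bounds the second moment from below -/
lemma cert_lower (R l ε : ℝ) (S : Finset ℤ[X]) (a : ℤ[X] → ℝ) (h : Cert R l ε S a) (μ : Measure ℝ)
    [IsProbabilityMeasure μ] (hμ : μ (Icc (-R) R)ᶜ = 0) (harith : IsArith μ) :
    l - ε ≤ ∫ y, y ^ 2 ∂μ := by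
  have hmem : ∀ᵐ x ∂μ, x ∈ Icc (-R) R := by rw [ae_iff]; exact hμ
  have hsq : Integrable (fun y : ℝ => y ^ 2) μ := by
    refine Integrable.of_bound (C := R ^ 2) (by fun_prop) ?_
    filter_upwards [hmem] with y hy
    rw [Real.norm_eq_abs, abs_of_nonneg (sq_nonneg y)]
    nlinarith [hy.1, hy.2]
  have hQ0 : ∀ Q ∈ S, Q ≠ 0 := fun Q hQ => (h.1 Q hQ).1.ne_zero
  have hne : ∀ᵐ x ∂μ, ∀ Q ∈ S, aeval x Q ≠ 0 := by
    refine (Filter.eventually_all_finset S).mpr ?_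
    intro Q hQ
    change ∀ᵐ x ∂μ, aeval x Q ≠ 0
    rw [ae_iff]
    have h5 := (harith Q (hQ0 Q hQ)).1
    have h6 : {x : ℝ | ¬ (aeval x Q ≠ 0)} = {x : ℝ | aeval x Q = 0} := by
      ext x; simp
    rw [h6]; exact h5
  have hi : Integrable (fun x : ℝ => ∑ Q ∈ S, a Q * Real.log |aeval x Q|) μ :=
    integrable_finsetSum _ fun Q hQ => (harith Q (hQ0 Q hQ)).2.1.const_mul _
  have h1 : ∫ x : ℝ, ∑ Q ∈ S, a Q * Real.log |aeval x Q| ∂μ ≤ ∫ x : ℝ, (x ^ 2 + (ε - l)) ∂μ := by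
    apply integral_mono_ae hi (hsq.add (integrable_const _))
    filter_upwards [hmem, hne] with x hx hx2
    have := h.2 x hx hx2
    simp only [Pi.add_apply]
    linarith
  have h2 : 0 ≤ ∫ x : ℝ, ∑ Q ∈ S, a Q * Real.log |aeval x Q| ∂μ := by
    rw [integral_finsetSum _ fun Q hQ => (harith Q (hQ0 Q hQ)).2.1.const_mul _]
    apply Finset.sum_nonneg
    intro Q hQ
    rw [integral_const_mul]
    exact mul_nonneg (h.1 Q hQ).2.2.2.le (harith Q (hQ0 Q hQ)).2.2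
  rw [integral_add hsq (integrable_const _), integral_const, probReal_univ, one_smul] at h1
  linarith

/-- the least second moment and its properties -/
theorem minimum_line : ∃ l : ℝ, 0 ≤ l ∧
    (∃ ν : Measure ℝ, IsProbabilityMeasure ν ∧ ν (Icc (-12) 12)ᶜ = 0 ∧ IsArith ν ∧ ∫ y, y ^ 2 ∂ν = l) ∧
    (∀ R : ℝ, 13 ≤ R → ∀ ε > 0, ∃ (S : Finset ℤ[X]) (a : ℤ[X] → ℝ), Cert R l ε S a) ∧
    (∀ (μ : Measure ℝ) (T : ℝ), IsProbabilityMeasure μ → μ (Icc (-T) T)ᶜ = 0 → IsArith μ →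
      l ≤ ∫ y, y ^ 2 ∂μ) := by
  -- lower bound for all measures, from the duality on `[-R,R]`
  have hlow : ∀ R : ℝ, 13 ≤ R → ∀ l : ℝ,
      (∀ ε > 0, ∃ (S : Finset ℤ[X]) (a : ℤ[X] → ℝ), Cert R l ε S a) →
      ∀ (μ : Measure ℝ) (T : ℝ), IsProbabilityMeasure μ → μ (Icc (-T) T)ᶜ = 0 → IsArith μ →
      l ≤ ∫ y, y ^ 2 ∂μ := by
    intro R hR l hcert μ T hμ hT harith
    obtain ⟨ν, hν1, hν2, hν3, hν4, -⟩ := cut μ T hT harith
    refine le_trans ?_ hν4
    have hνR : ν (Icc (-R) R)ᶜ = 0 :=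
      measure_mono_null (compl_subset_compl.mpr (Icc_subset_Icc (by linarith) (by linarith))) hν2
    apply le_of_forall_pos_le_add
    intro ε hε
    obtain ⟨S, a, hSa⟩ := hcert ε hε
    have := cert_lower R l ε S a hSa ν hνR hν3
    linarith
  have hdual : ∀ R : ℝ, 13 ≤ R → ∃ l : ℝ,
      (∃ ν : Measure ℝ, IsProbabilityMeasure ν ∧ ν (Icc (-R) R)ᶜ = 0 ∧ IsArith ν ∧ ∫ y, y ^ 2 ∂ν = l) ∧
      (∀ ε > 0, ∃ (S : Finset ℤ[X]) (a : ℤ[X] → ℝ), Cert R l ε S a) := by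
    intro R hR
    obtain ⟨l, h1, h2⟩ := duality R (by linarith)
    exact ⟨l, h1, fun ε hε => by
      obtain ⟨S, a, h3, h4⟩ := h2 ε hε
      exact ⟨S, a, h3, h4⟩⟩
  obtain ⟨l, ⟨ν, hν1, hν2, hν3, hν4⟩, hcert⟩ := hdual 13 le_rfl
  have hl0 : 0 ≤ l := by rw [← hν4]; exact integral_nonneg fun y => sq_nonneg y
  have hmin := hlow 13 le_rfl l hcert
  refine ⟨l, hl0, ?_, ?_, hmin⟩
  · obtain ⟨ν', h1, h2, h3, h4, -⟩ := cut ν 13 hν2 hν3
    refine ⟨ν', h1, h2, h3, le_antisymm (h4.trans hν4.le) ?_⟩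
    exact hmin ν' 12 h1 h2 h3
  · intro R hR
    obtain ⟨l', ⟨ν', hν1', hν2', hν3', hν4'⟩, hcert'⟩ := hdual R hR
    have e1 : l ≤ l' := by rw [← hν4']; exact hmin ν' R hν1' hν2' hν3'
    have e2 : l' ≤ l := by rw [← hν4]; exact hlow R hR l' hcert' ν 13 hν1 hν2 hν3
    have e : l = l' := le_antisymm e1 e2
    rw [e]; exact hcert'

/-- uniqueness of the minimiser on the line -/
theorem unique_line (l : ℝ)
    (hcert : ∀ ε > 0, ∃ (S : Finset ℤ[X]) (a : ℤ[X] → ℝ), Cert 13 l ε S a)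
    (hmin : ∀ (μ : Measure ℝ) (T : ℝ), IsProbabilityMeasure μ → μ (Icc (-T) T)ᶜ = 0 → IsArith μ →
      l ≤ ∫ y, y ^ 2 ∂μ)
    (μ ν : Measure ℝ) [IsProbabilityMeasure μ] [IsProbabilityMeasure ν] (T : ℝ)
    (hμT : μ (Icc (-T) T)ᶜ = 0) (hνT : ν (Icc (-T) T)ᶜ = 0) (hμ : IsArith μ) (hν : IsArith ν)
    (hμl : ∫ y, y ^ 2 ∂μ = l) (hνl : ∫ y, y ^ 2 ∂ν = l) : μ = ν := by
  by_contra hne
  have hsupp : ∀ (σ : Measure ℝ) [IsProbabilityMeasure σ], σ (Icc (-T) T)ᶜ = 0 → IsArith σ →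
      ∫ y, y ^ 2 ∂σ = l → σ (Icc (-12) 12)ᶜ = 0 := by
    intro σ _ h1 h2 h3
    by_contra h4
    obtain ⟨τ, t1, t2, t3, -, t5⟩ := cut σ T h1 h2
    have := t5 h4
    have h6 := hmin τ 12 t1 t2 t3
    linarith
  have hμ12 := hsupp μ hμT hμ hμl
  have hν12 := hsupp ν hνT hν hνl
  -- the midpoint
  set c : ENNReal := ENNReal.ofReal (1 / 2) with hc
  set σ : Measure ℝ := c • μ + c • ν with hσ
  have hcc : c + c = 1 := by
    rw [hc, ← ENNReal.ofReal_add (by norm_num) (by norm_num)]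
    norm_num
  have hctop : c ≠ ⊤ := ENNReal.ofReal_ne_top
  have hc0 : c ≠ 0 := by rw [hc]; simp
  have hσp : IsProbabilityMeasure σ := by
    constructor
    rw [hσ]
    simp only [Measure.add_apply, Measure.smul_apply, measure_univ, smul_eq_mul, mul_one]
    exact hcc
  have hσ12 : σ (Icc (-12) 12)ᶜ = 0 := by
    rw [hσ]
    simp only [Measure.add_apply, Measure.smul_apply, smul_eq_mul]
    rw [hμ12, hν12]; simp
  have hint : ∀ f : ℝ → ℝ, Integrable f μ → Integrable f ν →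
      Integrable f σ ∧ ∫ x, f x ∂σ = (∫ x, f x ∂μ + ∫ x, f x ∂ν) / 2 := by
    intro f h1 h2
    have h3 := h1.smul_measure hctop
    have h4 := h2.smul_measure hctop
    refine ⟨h3.add_measure h4, ?_⟩
    rw [hσ, integral_add_measure h3 h4, integral_smul_measure, integral_smul_measure, hc,
      ENNReal.toReal_ofReal (by norm_num)]
    simp only [smul_eq_mul]
    ring
  have hσarith : IsArith σ := by
    intro Q hQ
    obtain ⟨a1, a2, a3⟩ := hμ Q hQ
    obtain ⟨b1, b2, b3⟩ := hν Q hQ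
    obtain ⟨c1, c2⟩ := hint _ a2 b2
    refine ⟨?_, c1, ?_⟩
    · rw [hσ]
      simp only [Measure.add_apply, Measure.smul_apply, smul_eq_mul]
      rw [a1, b1]; simp
    · rw [c2]; linarith
  have hsqi : ∀ (τ : Measure ℝ) [IsProbabilityMeasure τ], τ (Icc (-12) 12)ᶜ = 0 →
      Integrable (fun y : ℝ => y ^ 2) τ := by
    intro τ _ hτ
    have hmem : ∀ᵐ x ∂τ, x ∈ Icc (-12 : ℝ) 12 := by rw [ae_iff]; exact hτ
    refine Integrable.of_bound (C := 12 ^ 2) (by fun_prop) ?_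
    filter_upwards [hmem] with y hy
    rw [Real.norm_eq_abs, abs_of_nonneg (sq_nonneg y)]
    nlinarith [hy.1, hy.2]
  have hσl : ∫ y, y ^ 2 ∂σ = l := by
    rw [(hint _ (hsqi μ hμ12) (hsqi ν hν12)).2, hμl, hνl]; ring
  -- energy zero
  have hE := energy_zero σ 13 l (by norm_num) (by
    have e : (13 : ℝ) - 1 = 12 := by norm_num
    rw [e]; exact hσ12) hσarith hσl hcert
  -- the products
  have h13 : ∀ (τ : Measure ℝ), τ (Icc (-12) 12)ᶜ = 0 → τ (Icc (-13) 13)ᶜ = 0 := fun τ h =>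
    measure_mono_null (compl_subset_compl.mpr (Icc_subset_Icc (by norm_num) (by norm_num))) h
  obtain ⟨iσ, dσ, -⟩ := energy_nonneg σ hσarith 13 (h13 σ hσ12)
  obtain ⟨iμ, dμ, eμ⟩ := energy_nonneg μ hμ 13 (h13 μ hμ12)
  obtain ⟨iν, dν, eν⟩ := energy_nonneg ν hν 13 (h13 ν hν12)
  have hprod : σ.prod σ = (c * c) • (μ.prod μ) + (c * c) • (μ.prod ν) +
      ((c * c) • (ν.prod μ) + (c * c) • (ν.prod ν)) := by
    have hs : ∀ (τ τ' : Measure ℝ) [IsProbabilityMeasure τ] [IsProbabilityMeasure τ'],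
        (c • τ).prod (c • τ') = (c * c) • (τ.prod τ') := by
      intro τ τ' _ _
      rw [Measure.prod_smul_left, Measure.prod_smul_right, smul_smul]
    rw [hσ, Measure.add_prod, Measure.prod_add, Measure.prod_add, hs, hs, hs, hs]
  have hc2 : c * c ≠ 0 := mul_ne_zero hc0 hc0
  have hc2top : c * c ≠ ⊤ := ENNReal.mul_ne_top hctop hctop
  -- a.e. and integrability statements on mixed products
  have hmixle : (c * c) • (μ.prod ν) ≤ σ.prod σ := by
    rw [hprod]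
    refine le_trans (le_trans ?_ (Measure.le_add_right le_rfl)) le_rfl
    exact Measure.le_add_left le_rfl
  have iμν : Integrable (fun p : ℝ × ℝ => Real.log |p.1 - p.2|) (μ.prod ν) := by
    have h1 := iσ.mono_measure hmixle
    exact (integrable_smul_measure hc2 hc2top).mp h1
  have nμν : ∀ᵐ p ∂(μ.prod ν), p.1 ≠ p.2 := by
    have h1 : ∀ᵐ p ∂(σ.prod σ), p.1 ≠ p.2 := off_diag σ dσ
    have h2 : ∀ᵐ p ∂((c * c) • μ.prod ν), p.1 ≠ p.2 :=
      (Measure.absolutelyContinuous_of_le hmixle).ae_le h1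
    rw [ae_iff] at h2 ⊢
    rw [Measure.smul_apply, smul_eq_mul, mul_eq_zero] at h2
    rcases h2 with h3 | h3
    · exact absurd h3 hc2
    · exact h3
  have hstrict := energy_strict μ ν 13 (h13 μ hμ12) (h13 ν hν12) hne iμ iμν iν (off_diag μ dμ) nμν
    (off_diag ν dν)
  -- the energy of the midpoint
  have hνμ : ∫ p : ℝ × ℝ, Real.log |p.1 - p.2| ∂(ν.prod μ) = ∫ p : ℝ × ℝ, Real.log |p.1 - p.2| ∂(μ.prod ν) := by
    rw [← Measure.prod_swap, integral_map measurable_swap.aemeasurable]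
    · apply integral_congr_ae
      filter_upwards with p
      simp only [Prod.fst_swap, Prod.snd_swap]
      rw [abs_sub_comm]
    · apply Measurable.aestronglyMeasurable
      apply Real.measurable_log.comp
      fun_prop
  have iνμ : Integrable (fun p : ℝ × ℝ => Real.log |p.1 - p.2|) (ν.prod μ) := by
    have h1 := iμν.swap
    refine h1.congr ?_
    filter_upwards with p
    simp only [Function.comp_apply, Prod.fst_swap, Prod.snd_swap]
    rw [abs_sub_comm]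
  have hEσ : Elog σ = (c * c).toReal * (∫ p : ℝ × ℝ, Real.log |p.1 - p.2| ∂(μ.prod μ)
      + 2 * ∫ p : ℝ × ℝ, Real.log |p.1 - p.2| ∂(μ.prod ν)
      + ∫ p : ℝ × ℝ, Real.log |p.1 - p.2| ∂(ν.prod ν)) := by
    unfold Elog
    rw [hprod, integral_add_measure ((iμ.smul_measure hc2top).add_measure (iμν.smul_measure hc2top))
      ((iνμ.smul_measure hc2top).add_measure (iν.smul_measure hc2top)),
      integral_add_measure (iμ.smul_measure hc2top) (iμν.smul_measure hc2top),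
      integral_add_measure (iνμ.smul_measure hc2top) (iν.smul_measure hc2top),
      integral_smul_measure, integral_smul_measure, integral_smul_measure, integral_smul_measure, hνμ]
    simp only [smul_eq_mul]
    ring
  have hcpos : 0 < (c * c).toReal := ENNReal.toReal_pos hc2 hc2top
  rw [hEσ] at hE
  have h7 : 0 < ∫ p : ℝ × ℝ, Real.log |p.1 - p.2| ∂(μ.prod μ)
      + 2 * ∫ p : ℝ × ℝ, Real.log |p.1 - p.2| ∂(μ.prod ν)
      + ∫ p : ℝ × ℝ, Real.log |p.1 - p.2| ∂(ν.prod ν) := by linarith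
  have := mul_pos hcpos h7
  linarith

end Pool.Agent.TraceMin
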