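import Pool.Agent.TraceMin.MainA

/-!
The inequalities (E1), (E2) and their consequence: few roots.
-/

open MeasureTheory Polynomial Set Real Filter Topology

namespace Pool.Agent.TraceMin

/-- positive part of the logarithm of the absolute value -/
noncomputable def plog (α : ℂ) : ℝ := max 0 (Real.log ‖α‖)

lemma plog_nonneg (α : ℂ) : 0 ≤ plog α := le_max_left _ _

lemma log_norm_le_plog (α : ℂ) : Real.log ‖α‖ ≤ plog α := le_max_right _ _

lemma exp_plog (α : ℂ) : Real.exp (plog α) = max 1 ‖α‖ := by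
  unfold plog
  rcases le_total ‖α‖ 1 with h | h
  · rcases (norm_nonneg α).eq_or_lt with h0 | h0
    · rw [← h0]; simp
    · have : Real.log ‖α‖ ≤ 0 := Real.log_nonpos (norm_nonneg _) h
      rw [max_eq_left this, max_eq_left h, Real.exp_zero]
  · have : 0 ≤ Real.log ‖α‖ := Real.log_nonneg h
    rw [max_eq_right this, max_eq_right h, Real.exp_log (by linarith)]

lemma le_exp_plog (α : ℂ) : ‖α‖ ≤ Real.exp (plog α) := by
  rw [exp_plog]; exact le_max_right _ _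

lemma one_le_exp_plog (α : ℂ) : 1 ≤ Real.exp (plog α) := by
  rw [exp_plog]; exact le_max_left _ _

lemma lam_zero (r : ℝ) : lam r 0 = Real.log r := by
  unfold lam
  simp

lemma lam_one_sub_le (α β : ℂ) : lam 1 (α - β) ≤ plog α + plog β + 1 := by
  unfold lam
  have h1 : ‖α - β‖ ^ 2 + 1 ^ 2 ≤ 5 * (Real.exp (plog α) * Real.exp (plog β)) ^ 2 := by
    have a1 := le_exp_plog α
    have a2 := le_exp_plog β
    have b1 := one_le_exp_plog α
    have b2 := one_le_exp_plog β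
    have a3 : ‖α - β‖ ≤ ‖α‖ + ‖β‖ := norm_sub_le _ _
    set x := Real.exp (plog α)
    set y := Real.exp (plog β)
    have h2 : ‖α - β‖ ≤ 2 * (x * y) := by nlinarith [norm_nonneg α, norm_nonneg β]
    have h3 : 1 ≤ x * y := by nlinarith
    have h4 : ‖α - β‖ ^ 2 ≤ (2 * (x * y)) ^ 2 := pow_le_pow_left₀ (norm_nonneg _) h2 2
    nlinarith
  have h2 := Real.log_le_log (by positivity) h1
  rw [← Real.exp_add, Real.log_mul (by norm_num) (by positivity), Real.log_pow, Real.log_exp] at h2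
  have h5 : Real.log 5 ≤ 2 := by
    rw [Real.log_le_iff_le_exp (by norm_num)]
    have h7 := Real.exp_one_gt_d9
    have h8 : Real.exp 2 = Real.exp 1 * Real.exp 1 := by rw [← Real.exp_add]; norm_num
    rw [h8]; nlinarith
  push_cast at h2
  simp only [one_pow] at h2 ⊢
  linarith

lemma lam_mono (r e : ℝ) (hr : 0 < r) (hre : r ≤ e) (w : ℂ) : lam r w ≤ lam e w := by
  have := lam_sub_nonneg r e hr hre w
  linarith

lemma plog_sub_le_lam (x α : ℂ) (ρ : ℝ) (hρ : 0 ≤ ρ) (hx : ‖x‖ ≤ ρ) :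
    plog α - Real.log (1 + ρ) ≤ lam 1 (x - α) := by
  have h3 : ‖α‖ ≤ ‖x - α‖ + ρ := by
    have := norm_sub_norm_le α x
    have h4 := norm_sub_rev α x
    linarith
  have h5 : (max 1 ‖α‖) ^ 2 ≤ (1 + ρ) ^ 2 * (‖x - α‖ ^ 2 + 1 ^ 2) := by
    generalize ‖x - α‖ = w at h3 ⊢
    have g1 : (w + ρ) ^ 2 ≤ (1 + ρ ^ 2) * (w ^ 2 + 1 ^ 2) := by nlinarith [sq_nonneg (w * ρ - 1)]
    have g2 : (1 + ρ ^ 2) * (w ^ 2 + 1 ^ 2) ≤ (1 + ρ) ^ 2 * (w ^ 2 + 1 ^ 2) := by
      apply mul_le_mul_of_nonneg_right _ (by positivity)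
      nlinarith
    rcases max_cases 1 ‖α‖ with ⟨h6, _⟩ | ⟨h6, _⟩
    · rw [h6]
      have g3 : (1:ℝ) ≤ (1 + ρ) ^ 2 := by nlinarith
      have g4 : (1:ℝ) ≤ w ^ 2 + 1 ^ 2 := by nlinarith [sq_nonneg w]
      calc (1:ℝ) ^ 2 = 1 * 1 := by ring
        _ ≤ (1 + ρ) ^ 2 * (w ^ 2 + 1 ^ 2) := mul_le_mul g3 g4 (by norm_num) (by positivity)
    · rw [h6]
      exact (pow_le_pow_left₀ (norm_nonneg _) h3 2).trans (g1.trans g2)
  have h10 := Real.log_le_log (by positivity) h5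
  rw [Real.log_pow, Real.log_mul (by positivity) (by positivity), Real.log_pow,
    ← exp_plog, Real.log_exp] at h10
  unfold lam
  push_cast at h10
  simp only [one_pow] at h10 ⊢
  linarith

lemma sqrt_aux (m1 D L Y : ℝ) (hm : 0 ≤ m1) (hD : 0 ≤ D) (hL : 0 ≤ L) (hY : 0 ≤ Y) :
    √(m1 * (D * L + 2 * D * Y + D ^ 2)) ≤ √(m1 * (D * L + D ^ 2)) + (m1 * D + Y / 2) := by
  rw [Real.sqrt_le_left (by positivity)]
  have h2 : (√(m1 * (D * L + D ^ 2))) ^ 2 = m1 * (D * L + D ^ 2) := by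
    rw [Real.sq_sqrt]; positivity
  have hs := Real.sqrt_nonneg (m1 * (D * L + D ^ 2))
  generalize √(m1 * (D * L + D ^ 2)) = s at h2 hs ⊢
  have g1 : 0 ≤ s * (m1 * D + Y / 2) := by positivity
  have g2 : 2 * (m1 * D * Y) ≤ (m1 * D + Y / 2) ^ 2 := by
    have := sq_nonneg (m1 * D - Y / 2)
    nlinarith
  have g3 : m1 * (D * L + 2 * D * Y + D ^ 2) = m1 * (D * L + D ^ 2) + 2 * (m1 * D * Y) := by ring
  have g4 : (s + (m1 * D + Y / 2)) ^ 2 = s ^ 2 + 2 * (s * (m1 * D + Y / 2)) + (m1 * D + Y / 2) ^ 2 := by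
    ring
  rw [g3, ← h2, g4]
  linarith

section
variable (μ : Measure ℝ) [IsProbabilityMeasure μ] (R : ℝ) (hR : μ (Icc (-R) R)ᶜ = 0)
  (hint : Integrable (fun p : ℝ × ℝ => Real.log |p.1 - p.2|) (μ.prod μ))
  (hdiag : (μ.prod μ) {p | p.1 = p.2} = 0)

include hdiag in
lemma off_diag : ∀ᵐ p ∂(μ.prod μ), p.1 ≠ p.2 := by
  rw [ae_iff]
  simpa using hdiag

include hR hint hdiag in
lemma Elog_le_Elam (r : ℝ) (hr : 0 < r) : Elog μ ≤ Elam μ r := by
  unfold Elog Elam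
  apply integral_mono_ae hint (lam_prod_integrable μ R hR r hr)
  filter_upwards [off_diag μ hdiag] with p hp
  have := lam_ge_log_norm r ((p.1 : ℂ) - p.2) (by
    rw [sub_ne_zero]
    exact_mod_cast hp)
  rw [← Complex.ofReal_sub, Complex.norm_real, Real.norm_eq_abs] at this
  simpa using this

include hR hint hdiag in
/-- (E1) -/
lemma E1 (r : ℝ) (hr : 0 < r) (Z : Finset ℂ) (hZ : Z.Nonempty) (lP : ℝ) (hlP : 0 ≤ lP)
    (hdisc : -(2 * (Z.card : ℝ) - 2) * lP ≤ ∑ α ∈ Z, ∑ β ∈ Z.erase α, Real.log ‖α - β‖) :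
    (Z.card : ℝ) * Elog μ / 2 + Real.log r / 2 ≤ lP + ∑ α ∈ Z, ∫ x : ℝ, lam r ((x : ℂ) - α) ∂μ := by
  have h1 := points_E1 μ R hR r hr Z
  have hD1 : (1 : ℝ) ≤ Z.card := by exact_mod_cast Finset.card_pos.mpr hZ
  set D : ℝ := (Z.card : ℝ) with hD
  have h2 : D * Real.log r + ∑ α ∈ Z, ∑ β ∈ Z.erase α, Real.log ‖α - β‖ ≤
      ∑ α ∈ Z, ∑ β ∈ Z, lam r (α - β) := by
    have : ∀ α ∈ Z, Real.log r + ∑ β ∈ Z.erase α, Real.log ‖α - β‖ ≤ ∑ β ∈ Z, lam r (α - β) := by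
      intro α hα
      rw [← Finset.add_sum_erase Z _ hα, sub_self, lam_zero]
      gcongr with β hβ
      apply lam_ge_log_norm
      rw [sub_ne_zero]
      exact (Finset.ne_of_mem_erase hβ).symm
    have h3 := Finset.sum_le_sum this
    rw [Finset.sum_add_distrib] at h3
    simpa [hD] using h3
  have h3 := Elog_le_Elam μ R hR hint hdiag r hr
  have h4 : D ^ 2 * Elog μ ≤ D ^ 2 * Elam μ r := by gcongr
  set S := ∑ α ∈ Z, ∫ x : ℝ, lam r ((x : ℂ) - α) ∂μ with hS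
  have h5 : D * Real.log r - (2 * D - 2) * lP + D ^ 2 * Elog μ ≤ 2 * D * S := by linarith
  have h6 : D * (Real.log r + D * Elog μ) ≤ D * (2 * (lP + S)) := by nlinarith
  have h7 := le_of_mul_le_mul_left h6 (by linarith)
  linarith

include hR hint hdiag in
/-- (E2) -/
lemma E2 (r e : ℝ) (hr : 0 < r) (hre : r ≤ e) (he : e ≤ 1) (Z : Finset ℂ) (lP : ℝ) (hlP : 0 ≤ lP)
    (hdisc : -(2 * (Z.card : ℝ) - 2) * lP ≤ ∑ α ∈ Z, ∑ β ∈ Z.erase α, Real.log ‖α - β‖) :
    ∑ α ∈ Z, ∫ x : ℝ, lam e ((x : ℂ) - α) ∂μ - ∑ α ∈ Z, ∫ x : ℝ, lam r ((x : ℂ) - α) ∂μ ≤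
    √((Elam μ e - Elog μ) * ((Z.card : ℝ) * (-Real.log r)
      + 2 * (Z.card : ℝ) * (lP + ∑ α ∈ Z, plog α) + (Z.card : ℝ) ^ 2)) := by
  have hepos : 0 < e := by linarith
  set D : ℝ := (Z.card : ℝ) with hD
  set A := ∑ α ∈ Z, ∑ β ∈ Z, (lam e (α - β) - lam r (α - β)) with hA
  set B := ∑ α ∈ Z, ∫ x : ℝ, (lam e ((x : ℂ) - α) - lam r ((x : ℂ) - α)) ∂μ with hB
  have hBeq : B = ∑ α ∈ Z, ∫ x : ℝ, lam e ((x : ℂ) - α) ∂μ - ∑ α ∈ Z, ∫ x : ℝ, lam r ((x : ℂ) - α) ∂μ := by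
    rw [hB, ← Finset.sum_sub_distrib]
    apply Finset.sum_congr rfl
    intro α _
    exact integral_sub (lam_integrable μ R hR e hepos α) (lam_integrable μ R hR r hr α)
  have hA0 : 0 ≤ A := Finset.sum_nonneg fun α _ => Finset.sum_nonneg fun β _ =>
    lam_sub_nonneg r e hr hre _
  have hB0 : 0 ≤ B := Finset.sum_nonneg fun α _ => integral_nonneg fun x => lam_sub_nonneg r e hr hre _
  have hC0 : 0 ≤ Elam μ e - Elam μ r := by
    unfold Elam
    rw [sub_nonneg]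
    apply integral_mono (lam_prod_integrable μ R hR r hr) (lam_prod_integrable μ R hR e hepos)
    intro p
    exact lam_mono r e hr hre _
  have h1 := quad_cs A B _ hA0 hB0 hC0 (fun c hc => points_ineq μ R hR r e hr hre Z c hc)
  have hA1 : A ≤ D * (-Real.log r) + 2 * D * (lP + ∑ α ∈ Z, plog α) + D ^ 2 := by
    have h2 : ∀ α ∈ Z, ∑ β ∈ Z, (lam e (α - β) - lam r (α - β)) ≤
        (-Real.log r) + ∑ β ∈ Z.erase α, (plog α + plog β + 1) - ∑ β ∈ Z.erase α, Real.log ‖α - β‖ := by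
      intro α hα
      rw [← Finset.add_sum_erase Z _ hα, sub_self, lam_zero, lam_zero]
      have h3 : Real.log e ≤ 0 := Real.log_nonpos hepos.le he
      have h4 : ∑ β ∈ Z.erase α, (lam e (α - β) - lam r (α - β)) ≤
          ∑ β ∈ Z.erase α, (plog α + plog β + 1) - ∑ β ∈ Z.erase α, Real.log ‖α - β‖ := by
        rw [← Finset.sum_sub_distrib (s := Z.erase α) (fun β => plog α + plog β + 1)]
        apply Finset.sum_le_sum
        intro β hβ
        have h5 := (lam_mono e 1 hepos he (α - β)).trans (lam_one_sub_le α β)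
        have h6 := lam_ge_log_norm r (α - β) (by
          rw [sub_ne_zero]
          exact (Finset.ne_of_mem_erase hβ).symm)
        linarith
      linarith
    have h3 := Finset.sum_le_sum h2
    rw [← hA, Finset.sum_sub_distrib, Finset.sum_add_distrib] at h3
    simp only [Finset.sum_const, nsmul_eq_mul, ← hD] at h3
    have h4 : ∑ α ∈ Z, ∑ β ∈ Z.erase α, (plog α + plog β + 1) ≤ 2 * D * (∑ α ∈ Z, plog α) + D ^ 2 := by
      calc ∑ α ∈ Z, ∑ β ∈ Z.erase α, (plog α + plog β + 1) ≤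
          ∑ α ∈ Z, ∑ β ∈ Z, (plog α + plog β + 1) := by
            apply Finset.sum_le_sum
            intro α _
            apply Finset.sum_le_sum_of_subset_of_nonneg (Finset.erase_subset _ _)
            intro β _ _
            have := plog_nonneg α
            have := plog_nonneg β
            linarith
        _ = _ := by
            simp only [Finset.sum_add_distrib, Finset.sum_const, nsmul_eq_mul, mul_one,
              ← Finset.mul_sum, ← hD]
            ring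
    have h5 : -(2 * D - 2) * lP = 2 * lP - 2 * D * lP := by ring
    rw [h5] at hdisc
    have h6 : 2 * D * (lP + ∑ α ∈ Z, plog α) = 2 * D * lP + 2 * D * ∑ α ∈ Z, plog α := by ring
    rw [h6]
    linarith
  have hEE := Elog_le_Elam μ R hR hint hdiag r hr
  have hEE2 := Elog_le_Elam μ R hR hint hdiag e hepos
  rw [← hBeq]
  refine h1.trans ?_
  apply Real.sqrt_le_sqrt
  calc (Elam μ e - Elam μ r) * A ≤ (Elam μ e - Elog μ) * A := by
        apply mul_le_mul_of_nonneg_right _ hA0; linarith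
    _ ≤ _ := by
        apply mul_le_mul_of_nonneg_left hA1; linarith

include hR hint hdiag in
/-- the smoothed energies converge to the energy -/
lemma Elam_tendsto : Tendsto (fun r => Elam μ r) (𝓝[>] 0) (𝓝 (Elog μ)) := by
  unfold Elam Elog
  apply tendsto_integral_filter_of_dominated_convergence
    (fun p : ℝ × ℝ => |Real.log (|p.1 - p.2|)| + |Real.log (2 * |R| + 1)|)
  · filter_upwards [self_mem_nhdsWithin] with r hr
    exact (lam_prod_integrable μ R hR r hr).aestronglyMeasurable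
  · have h1 : ∀ᶠ r : ℝ in 𝓝[>] 0, r ≤ 1 :=
      (eventually_le_nhds (by norm_num : (0:ℝ) < 1)).filter_mono nhdsWithin_le_nhds
    filter_upwards [self_mem_nhdsWithin, h1] with r hr hr1
    have hr' : 0 < r := hr
    filter_upwards [off_diag μ hdiag, prod_mem μ R hR] with p hp hp2
    have e : ‖(p.1 : ℂ) - p.2‖ = |p.1 - p.2| := by
      rw [← Complex.ofReal_sub, Complex.norm_real, Real.norm_eq_abs]
    have h2 := lam_ge_log_norm r ((p.1 : ℂ) - p.2) (by
      rw [sub_ne_zero]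
      exact_mod_cast hp)
    have h3 := lam_le r hr' ((p.1 : ℂ) - p.2)
    rw [e] at h2 h3
    have h4 : |p.1 - p.2| ≤ 2 * |R| := hp2.trans (by linarith [le_abs_self R])
    have h5 : Real.log (|p.1 - p.2| + r) ≤ Real.log (2 * |R| + 1) :=
      Real.log_le_log (by positivity) (by linarith)
    rw [Real.norm_eq_abs, abs_le]
    have a1 := neg_abs_le (Real.log (|p.1 - p.2|))
    have a2 := le_abs_self (Real.log (2 * |R| + 1))
    have a3 := abs_nonneg (Real.log (|p.1 - p.2|))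
    have a4 := abs_nonneg (Real.log (2 * |R| + 1))
    constructor <;> linarith
  · exact hint.abs.add (integrable_const _)
  · filter_upwards [off_diag μ hdiag] with p hp
    have e : ‖(p.1 : ℂ) - p.2‖ = |p.1 - p.2| := by
      rw [← Complex.ofReal_sub, Complex.norm_real, Real.norm_eq_abs]
    unfold lam
    rw [e]
    have hpos : 0 < |p.1 - p.2| := abs_pos.mpr (sub_ne_zero.mpr hp)
    have h1 : Tendsto (fun r : ℝ => |p.1 - p.2| ^ 2 + r ^ 2) (𝓝[>] 0) (𝓝 (|p.1 - p.2| ^ 2 + 0 ^ 2)) := by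
      apply Tendsto.mono_left _ nhdsWithin_le_nhds
      apply Continuous.tendsto
      fun_prop
    have e2 : |p.1 - p.2| ^ 2 + (0:ℝ) ^ 2 = |p.1 - p.2| ^ 2 := by ring
    rw [e2] at h1
    have h2 := (Real.continuousAt_log (pow_pos hpos 2).ne').tendsto.comp h1
    have h3 := h2.div_const 2
    rw [Real.log_pow] at h3
    have e3 : ((2:ℕ):ℝ) * Real.log |p.1 - p.2| / 2 = Real.log |p.1 - p.2| := by push_cast; ring
    rw [e3] at h3
    exact h3

include hR hint hdiag in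
lemma few_roots (hI : 0 < Elog μ) (κ : ℝ) (hκ : 0 < κ) :
    ∃ r₀ : ℝ, 0 < r₀ ∧ r₀ < 1 ∧ ∀ r : ℝ, 0 < r → r < r₀ → ∀ (Z : Finset ℂ) (lP : ℝ), 0 ≤ lP →
      (-(2 * (Z.card : ℝ) - 2) * lP ≤ ∑ α ∈ Z, ∑ β ∈ Z.erase α, Real.log ‖α - β‖) →
      lP + ∑ α ∈ Z, ∫ x : ℝ, lam r ((x : ℂ) - α) ∂μ ≤ (Z.card : ℝ) * Elog μ / 4 →
      (Z.card : ℝ) ≤ κ * (-Real.log r) ∧ lP + ∑ α ∈ Z, plog α ≤ κ * (-Real.log r) := by
  set I := Elog μ with hIdef
  set m1 := Elam μ 1 - I with hm1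
  have hm10 : 0 ≤ m1 := by
    have := Elog_le_Elam μ R hR hint hdiag 1 one_pos
    linarith
  have hR0 : 0 ≤ Real.log (1 + |R|) := Real.log_nonneg (by linarith [abs_nonneg R])
  set c1 := Real.log (1 + |R|) + I / 4 + m1 with hc1
  have hc1pos : 0 < c1 := by linarith
  set d := 2 / I with hd
  have hdpos : 0 < d := by positivity
  set y := 2 * d * c1 + 2 * √(m1 * (d + d ^ 2)) with hy
  have hypos : 0 ≤ y := by positivity
  set q := d + 2 * d * y + d ^ 2 with hq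
  have hqpos : 0 < q := by positivity
  -- the auxiliary constant κ₁
  obtain ⟨κ₁, hκ₁, hκ₁1, hκ₁κ, hκ₁c, hκ₁m⟩ : ∃ κ₁ : ℝ, 0 < κ₁ ∧ κ₁ ≤ 1 ∧ κ₁ ≤ κ ∧ 2 * κ₁ * c1 ≤ κ / 2 ∧
      m1 * (2 * κ₁) ≤ (κ / 4) ^ 2 := by
    refine ⟨min (min 1 κ) (min (κ / (4 * c1)) (κ ^ 2 / (32 * (m1 + 1)))), ?_, ?_, ?_, ?_, ?_⟩
    · have : 0 < κ / (4 * c1) := by positivity
      have : 0 < κ ^ 2 / (32 * (m1 + 1)) := by positivity
      positivity
    · exact (min_le_left _ _).trans (min_le_left _ _)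
    · exact (min_le_left _ _).trans (min_le_right _ _)
    · have h1 : min (min 1 κ) (min (κ / (4 * c1)) (κ ^ 2 / (32 * (m1 + 1)))) ≤ κ / (4 * c1) :=
        (min_le_right _ _).trans (min_le_left _ _)
      calc 2 * min (min 1 κ) (min (κ / (4 * c1)) (κ ^ 2 / (32 * (m1 + 1)))) * c1
          ≤ 2 * (κ / (4 * c1)) * c1 := by gcongr
        _ = κ / 2 := by field_simp; ring
    · have h1 : min (min 1 κ) (min (κ / (4 * c1)) (κ ^ 2 / (32 * (m1 + 1)))) ≤ κ ^ 2 / (32 * (m1 + 1)) :=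
        (min_le_right _ _).trans (min_le_right _ _)
      calc m1 * (2 * min (min 1 κ) (min (κ / (4 * c1)) (κ ^ 2 / (32 * (m1 + 1)))))
          ≤ m1 * (2 * (κ ^ 2 / (32 * (m1 + 1)))) := by gcongr
        _ = (κ / 4) ^ 2 * (m1 / (m1 + 1)) := by field_simp; ring
        _ ≤ (κ / 4) ^ 2 * 1 := by
            gcongr
            rw [div_le_one (by linarith)]; linarith
        _ = _ := by ring
  -- choose e
  obtain ⟨e, he0, he1, hem⟩ : ∃ e : ℝ, 0 < e ∧ e ≤ 1 ∧ (Elam μ e - I) * q ≤ (κ₁ * I / 8) ^ 2 := by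
    have h1 := Elam_tendsto μ R hR hint hdiag
    have h2 : Tendsto (fun r => (Elam μ r - I) * q) (𝓝[>] 0) (𝓝 ((I - I) * q)) :=
      (h1.sub_const I).mul_const q
    rw [sub_self, zero_mul] at h2
    have h3 : ∀ᶠ r in 𝓝[>] (0:ℝ), (Elam μ r - I) * q < (κ₁ * I / 8) ^ 2 :=
      h2.eventually_lt_const (by positivity)
    have h4 : ∀ᶠ r : ℝ in 𝓝[>] 0, r ≤ 1 :=
      (eventually_le_nhds (by norm_num : (0:ℝ) < 1)).filter_mono nhdsWithin_le_nhds
    have h5 : ∀ᶠ r : ℝ in 𝓝[>] 0, r ∈ Ioi (0:ℝ) := self_mem_nhdsWithin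
    obtain ⟨e, a1, a2, a3⟩ := (h3.and (h4.and h5)).exists
    exact ⟨e, a3, a2, a1.le⟩
  -- choose r₀
  set T := 4 * (-Real.log e) / (κ₁ * I) + 1 with hT
  have hloge : 0 ≤ -Real.log e := by
    have := Real.log_nonpos he0.le he1
    linarith
  have hTpos : 0 < T := by positivity
  refine ⟨min (e / 2) (Real.exp (-T)), by positivity, ?_, ?_⟩
  · refine lt_of_le_of_lt (min_le_right _ _) ?_
    rw [Real.exp_lt_one_iff]; linarith
  intro r hr hrr Z lP hlP hdisc hsmall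
  have hre : r ≤ e := by
    have := min_le_left (e / 2) (Real.exp (-T))
    linarith
  have hr1 : r ≤ 1 := hre.trans he1
  set L := -Real.log r with hL
  have hLT : T < L := by
    have h1 : r < Real.exp (-T) := hrr.trans_le (min_le_right _ _)
    have h2 := Real.log_lt_log hr h1
    rw [Real.log_exp] at h2
    linarith
  have hLpos : 0 < L := by linarith
  rcases Z.eq_empty_or_nonempty with hZ | hZ
  · subst hZ
    simp at hsmall ⊢
    have : lP = 0 := le_antisymm hsmall hlP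
    rw [this]
    constructor <;> positivity
  have hD1 : (1 : ℝ) ≤ Z.card := by exact_mod_cast Finset.card_pos.mpr hZ
  set D : ℝ := (Z.card : ℝ) with hD
  set Y := lP + ∑ α ∈ Z, plog α with hY
  have hY0 : 0 ≤ Y := add_nonneg hlP (Finset.sum_nonneg fun α _ => plog_nonneg α)
  -- (a)
  have ha := E1 μ R hR hint hdiag r hr Z hZ lP hlP hdisc
  have hDd : D ≤ d * L := by
    have h1 : D * I / 4 ≤ L / 2 := by linarith
    rw [hd, div_mul_eq_mul_div, le_div_iff₀ hI]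
    linarith
  -- (b)
  have hb := E2 μ R hR hint hdiag r 1 hr hr1 le_rfl Z lP hlP hdisc
  have hYlow : Y - D * Real.log (1 + |R|) ≤ lP + ∑ α ∈ Z, ∫ x : ℝ, lam 1 ((x : ℂ) - α) ∂μ := by
    have h1 : ∀ α ∈ Z, plog α - Real.log (1 + |R|) ≤ ∫ x : ℝ, lam 1 ((x : ℂ) - α) ∂μ := by
      intro α _
      have hmem : ∀ᵐ x ∂μ, x ∈ Icc (-R) R := by rw [ae_iff]; exact hR
      have h2 : ∀ᵐ x : ℝ ∂μ, plog α - Real.log (1 + |R|) ≤ lam 1 ((x : ℂ) - α) := by
        filter_upwards [hmem] with x hx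
        have hxR : ‖(x : ℂ)‖ ≤ |R| := by
          rw [Complex.norm_real, Real.norm_eq_abs]
          exact (abs_le.mpr hx).trans (le_abs_self R)
        exact plog_sub_le_lam (x : ℂ) α |R| (abs_nonneg R) hxR
      have h3 := integral_mono_ae (integrable_const _) (lam_integrable μ R hR 1 one_pos α) h2
      simpa using h3
    have h4 := Finset.sum_le_sum h1
    rw [Finset.sum_sub_distrib] at h4
    simp only [Finset.sum_const, nsmul_eq_mul, ← hD] at h4
    linarith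
  have hb2 : Y / 2 ≤ D * c1 + √(m1 * (D * L + D ^ 2)) := by
    have h1 := sqrt_aux m1 D L Y hm10 (by linarith) hLpos.le hY0
    rw [← hD, ← hL, ← hY] at hb
    have h5 : m1 = Elam μ 1 - Elog μ := hm1
    rw [← h5] at hb
    have g5 : D * c1 = D * Real.log (1 + |R|) + D * I / 4 + m1 * D := by rw [hc1]; ring
    rw [g5]
    linarith
  have hYy : Y ≤ y * L := by
    have h1 : √(m1 * (D * L + D ^ 2)) ≤ √(m1 * (d + d ^ 2)) * L := by
      rw [Real.sqrt_le_left (by positivity)]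
      rw [mul_pow, Real.sq_sqrt (by positivity)]
      have g1 : D * L ≤ (d * L) * L := mul_le_mul_of_nonneg_right hDd hLpos.le
      have g2 : D ^ 2 ≤ (d * L) ^ 2 := pow_le_pow_left₀ (by linarith) hDd 2
      have g3 : D * L + D ^ 2 ≤ (d + d ^ 2) * L ^ 2 := by
        have : (d + d ^ 2) * L ^ 2 = (d * L) * L + (d * L) ^ 2 := by ring
        linarith
      calc m1 * (D * L + D ^ 2) ≤ m1 * ((d + d ^ 2) * L ^ 2) := mul_le_mul_of_nonneg_left g3 hm10
        _ = _ := by ring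
    have g4 : D * c1 ≤ (d * L) * c1 := mul_le_mul_of_nonneg_right hDd hc1pos.le
    have g5 : y * L = 2 * ((d * L) * c1) + 2 * (√(m1 * (d + d ^ 2)) * L) := by rw [hy]; ring
    rw [g5]
    linarith
  -- (c)
  have hc := E2 μ R hR hint hdiag r e hr hre he1 Z lP hlP hdisc
  have hc' := E1 μ R hR hint hdiag e he0 Z hZ lP hlP hdisc
  rw [← hD, ← hL, ← hY] at hc
  have hc2 : √((Elam μ e - Elog μ) * (D * L + 2 * D * Y + D ^ 2)) ≤ κ₁ * I / 8 * L := by
    rw [Real.sqrt_le_left (by positivity), mul_pow]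
    have h1 : D * L + 2 * D * Y + D ^ 2 ≤ q * L ^ 2 := by
      rw [hq]
      have g0 : D * Y ≤ (d * L) * (y * L) := by
        apply mul_le_mul hDd hYy hY0 (by positivity)
      have g1 : D * L ≤ (d * L) * L := mul_le_mul_of_nonneg_right hDd hLpos.le
      have g2 : D ^ 2 ≤ (d * L) ^ 2 := pow_le_pow_left₀ (by linarith) hDd 2
      have g3 : (d + 2 * d * y + d ^ 2) * L ^ 2 = (d * L) * L + 2 * ((d * L) * (y * L)) + (d * L) ^ 2 := by ring
      rw [g3]
      linarith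
    have h2 : 0 ≤ Elam μ e - Elog μ := by
      have := Elog_le_Elam μ R hR hint hdiag e he0
      linarith
    calc (Elam μ e - Elog μ) * (D * L + 2 * D * Y + D ^ 2) ≤ (Elam μ e - Elog μ) * (q * L ^ 2) := by
          gcongr
      _ = ((Elam μ e - I) * q) * L ^ 2 := by rw [hIdef]; ring
      _ ≤ _ := by gcongr
  have hDfin : D ≤ κ₁ * L := by
    have h1 : D * I / 4 ≤ (-Real.log e) / 2 + κ₁ * I / 8 * L := by
      rw [← hIdef] at hc'
      linarith
    have h2 : (-Real.log e) / 2 ≤ κ₁ * I / 8 * L := by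
      have h3 : 4 * (-Real.log e) / (κ₁ * I) ≤ L := by linarith
      rw [div_le_iff₀ (by positivity)] at h3
      linarith
    have h3 : D * I ≤ κ₁ * L * I := by linarith
    exact le_of_mul_le_mul_right h3 hI
  refine ⟨hDfin.trans (by gcongr), ?_⟩
  have h1 : √(m1 * (D * L + D ^ 2)) ≤ κ / 4 * L := by
    rw [Real.sqrt_le_left (by positivity), mul_pow]
    have h2 : D * L + D ^ 2 ≤ (2 * κ₁) * L ^ 2 := by
      have : D ^ 2 ≤ κ₁ * L ^ 2 := by
        calc D ^ 2 ≤ (κ₁ * L) ^ 2 := by gcongr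
          _ = κ₁ * (κ₁ * L ^ 2) := by ring
          _ ≤ 1 * (κ₁ * L ^ 2) := by gcongr
          _ = κ₁ * L ^ 2 := by ring
      have g1 : D * L ≤ (κ₁ * L) * L := mul_le_mul_of_nonneg_right hDfin hLpos.le
      have g2 : (2 * κ₁) * L ^ 2 = (κ₁ * L) * L + κ₁ * L ^ 2 := by ring
      rw [g2]
      linarith
    calc m1 * (D * L + D ^ 2) ≤ m1 * ((2 * κ₁) * L ^ 2) := by gcongr
      _ = (m1 * (2 * κ₁)) * L ^ 2 := by ring
      _ ≤ (κ / 4) ^ 2 * L ^ 2 := by gcongr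
  have h2 : 2 * (D * c1) ≤ κ / 2 * L := by
    calc 2 * (D * c1) ≤ 2 * ((κ₁ * L) * c1) := by gcongr
      _ = (2 * κ₁ * c1) * L := by ring
      _ ≤ κ / 2 * L := by gcongr
  linarith

end

end Pool.Agent.TraceMin
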