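import Pool.Agent.TraceMin.Defs3
import Pool.Agent.TraceMin.MainB
import Pool.Agent.TraceMin.Discr

/-!
Module T21: certificates, mass bound, smoothing and the Hoelder estimate.
-/

open MeasureTheory Polynomial Set

namespace Pool.Agent.TraceMin

/-- the logarithm of an irreducible integer polynomial at a real point -/
theorem log_abs_aeval (Q : ℤ[X]) (hQ : Irreducible Q) (hd : 0 < Q.natDegree) (hl : 0 < Q.leadingCoeff) (y : ℝ)
    (hy : aeval y Q ≠ 0) :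
    Real.log |aeval y Q| = Real.log (Q.leadingCoeff : ℝ) + ∑ α ∈ Zf Q, Real.log ‖(y : ℂ) - α‖ := by
  have hnd : (Q.aroots ℂ).Nodup := by
    have := prod_aroots_nodup {Q} (by intro P hP; rw [Finset.mem_singleton] at hP; subst hP; exact ⟨hQ, hd, hl⟩)
    simpa using this
  have hlR : (0:ℝ) < Q.leadingCoeff := by exact_mod_cast hl
  -- factorisation over ℂ
  set f : ℂ[X] := Q.map (algebraMap ℤ ℂ) with hf
  have hinj : Function.Injective (algebraMap ℤ ℂ) := RingHom.injective_int _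
  have hsplit : f.Splits := IsAlgClosed.splits f
  have hfac : f = C f.leadingCoeff * (f.roots.map (fun a => X - C a)).prod := hsplit.eq_prod_roots
  have hlc : f.leadingCoeff = (Q.leadingCoeff : ℂ) := by
    rw [hf, leadingCoeff_map_of_injective hinj]; simp
  have hev : aeval (y : ℂ) Q = (Q.leadingCoeff : ℂ) * ((Q.aroots ℂ).map (fun a => (y : ℂ) - a)).prod := by
    have h1 : aeval (y : ℂ) Q = f.eval (y : ℂ) := by
      rw [hf, eval_map_algebraMap]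
    rw [h1]
    conv_lhs => rw [hfac]
    rw [eval_mul, eval_C, hlc, eval_multiset_prod, Multiset.map_map]
    simp [aroots, hf]
  have hreal : ‖aeval (y : ℂ) Q‖ = |aeval y Q| := by
    have : aeval (y : ℂ) Q = ((aeval y Q : ℝ) : ℂ) := by
      simp [aeval_def, eval₂_eq_sum_range]
    rw [this, Complex.norm_real, Real.norm_eq_abs]
  have hprod : |aeval y Q| = (Q.leadingCoeff : ℝ) * ∏ α ∈ Zf Q, ‖(y : ℂ) - α‖ := by
    rw [← hreal, hev, norm_mul]
    congr 1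
    · simp [abs_of_pos hlR]
    · have h2 := Multiset.prod_hom ((Q.aroots ℂ).map (fun a => (y : ℂ) - a)) (normHom : ℂ →*₀ ℝ)
      rw [Zf, Finset.prod_eq_multiset_prod, Multiset.toFinset_val, hnd.dedup]
      rw [Multiset.map_map] at h2
      exact h2.symm
  have hne : ∀ α ∈ Zf Q, ‖(y : ℂ) - α‖ ≠ 0 := by
    intro α hα h0
    apply hy
    have : |aeval y Q| = 0 := by rw [hprod, Finset.prod_eq_zero hα h0, mul_zero]
    exact abs_eq_zero.1 this
  rw [hprod, Real.log_mul hlR.ne' (Finset.prod_ne_zero_iff.2 hne), Real.log_prod hne]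

theorem ae_not_root (S : Finset ℤ[X]) (hS : ∀ Q ∈ S, Q ≠ 0) (x : ℝ) :
    ∀ᵐ u : ℝ, ∀ Q ∈ S, aeval (x - u) Q ≠ 0 := by
  have h1 : ∀ Q ∈ S, ∀ᵐ u : ℝ, aeval (x - u) Q ≠ 0 := by
    intro Q hQ
    have hfin : {u : ℝ | aeval (x - u) Q = 0}.Finite := by
      have h2 : (Q.rootSet ℝ).Finite := Polynomial.rootSet_finite Q ℝ
      have h3 := h2.preimage (f := fun u : ℝ => x - u) (fun a _ b _ h => by simpa using h)
      refine h3.subset ?_
      intro u hu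
      rw [mem_preimage, mem_rootSet]
      exact ⟨hS Q hQ, hu⟩
    rw [ae_iff]
    simp only [ne_eq, not_not]
    exact hfin.measure_zero _
  exact (Finset.eventually_all S).2 h1

theorem ii_sum {ι : Type*} (s : Finset ι) (f : ι → ℝ → ℝ) {a b : ℝ} (h : ∀ i ∈ s, IntervalIntegrable (f i) volume a b) :
    IntervalIntegrable (fun u => ∑ i ∈ s, f i u) volume a b := by
  have h1 := IntervalIntegrable.sum s h
  have e : (fun u => ∑ i ∈ s, f i u) = ∑ i ∈ s, f i := by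
    funext u; simp
  rw [e]
  exact h1

theorem smooth0 (R l ε : ℝ) (S : Finset ℤ[X]) (a : ℤ[X] → ℝ) (h : Cert R l ε S a) (x s : ℝ) (hs : 0 < s)
    (h1 : -R ≤ x - s) (h2 : x + s ≤ R) :
    ∑ Q ∈ S, a Q * (Real.log (Q.leadingCoeff : ℝ) + ∑ α ∈ Zf Q, kr s ((x : ℂ) - α))
      ≤ x ^ 2 + s ^ 2 / 3 - l + ε := by
  have hint : ∀ Q ∈ S, IntervalIntegrable (fun u : ℝ => a Q * (Real.log (Q.leadingCoeff : ℝ) +
      ∑ α ∈ Zf Q, Real.log ‖((x : ℂ) - α) - (u : ℂ)‖)) volume (-s) s := by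
    intro Q _
    apply IntervalIntegrable.const_mul
    apply IntervalIntegrable.add (by simp)
    exact ii_sum (Zf Q) (fun α => fun u : ℝ => Real.log ‖((x : ℂ) - α) - (u : ℂ)‖)
      (fun α _ => logNorm_intervalIntegrable _ _ _)
  have hint' : IntervalIntegrable (fun u : ℝ => ∑ Q ∈ S, a Q * (Real.log (Q.leadingCoeff : ℝ) +
      ∑ α ∈ Zf Q, Real.log ‖((x : ℂ) - α) - (u : ℂ)‖)) volume (-s) s := by
    exact ii_sum S _ hint
  have hint2 : IntervalIntegrable (fun u : ℝ => (x - u) ^ 2 - l + ε) volume (-s) s := by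
    apply Continuous.intervalIntegrable
    fun_prop
  have hmono : (∫ u in (-s)..s, ∑ Q ∈ S, a Q * (Real.log (Q.leadingCoeff : ℝ) +
      ∑ α ∈ Zf Q, Real.log ‖((x : ℂ) - α) - (u : ℂ)‖)) ≤ ∫ u in (-s)..s, ((x - u) ^ 2 - l + ε) := by
    apply intervalIntegral.integral_mono_ae_restrict (by linarith) hint' hint2
    filter_upwards [ae_restrict_of_ae (ae_not_root S (fun Q hQ => (h.1 Q hQ).1.ne_zero) x), ae_restrict_mem measurableSet_Icc]
      with u hu hu2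
    have h3 := h.2 (x - u) ⟨by linarith [hu2.2], by linarith [hu2.1]⟩ hu
    refine le_trans (le_of_eq ?_) h3
    refine Finset.sum_congr rfl (fun Q hQ => ?_)
    obtain ⟨q1, q2, q3, q4⟩ := h.1 Q hQ
    rw [log_abs_aeval Q q1 q2 q3 (x - u) (hu Q hQ)]
    congr 2
    refine Finset.sum_congr rfl (fun α _ => ?_)
    congr 2
    push_cast
    ring
  have e1 : (∫ u in (-s)..s, ∑ Q ∈ S, a Q * (Real.log (Q.leadingCoeff : ℝ) +
      ∑ α ∈ Zf Q, Real.log ‖((x : ℂ) - α) - (u : ℂ)‖)) =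
      2 * s * ∑ Q ∈ S, a Q * (Real.log (Q.leadingCoeff : ℝ) + ∑ α ∈ Zf Q, kr s ((x : ℂ) - α)) := by
    rw [intervalIntegral.integral_finsetSum hint, Finset.mul_sum]
    refine Finset.sum_congr rfl (fun Q _ => ?_)
    rw [intervalIntegral.integral_const_mul, intervalIntegral.integral_add (by simp)]
    · rw [intervalIntegral.integral_finsetSum (fun α _ => logNorm_intervalIntegrable _ _ _), intervalIntegral.integral_const]
      have e2 : ∑ α ∈ Zf Q, kr s ((x : ℂ) - α) = (1 / (2 * s)) * ∑ α ∈ Zf Q, ∫ u in (-s)..s, Real.log ‖((x : ℂ) - α) - (u : ℂ)‖ := by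
        rw [Finset.mul_sum]
        rfl
      rw [e2, smul_eq_mul]
      field_simp
      ring
    · exact ii_sum (Zf Q) (fun α => fun u : ℝ => Real.log ‖((x : ℂ) - α) - (u : ℂ)‖)
        (fun α _ => logNorm_intervalIntegrable _ _ _)
  have e3 : (∫ u in (-s)..s, ((x - u) ^ 2 - l + ε)) = 2 * s * (x ^ 2 + s ^ 2 / 3 - l + ε) := by
    have hd : ∀ u ∈ uIcc (-s) s, HasDerivAt (fun u : ℝ => x ^ 2 * u - x * u ^ 2 + u ^ 3 / 3 + (ε - l) * u) ((x - u) ^ 2 - l + ε) u := by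
      intro u _
      have h3 : HasDerivAt (fun u : ℝ => x ^ 2 * u - x * u ^ 2 + u ^ 3 / 3 + (ε - l) * u)
        (x ^ 2 * 1 - x * (2 * u ^ 1 * 1) + (3 * u ^ 2 * 1) / 3 + (ε - l) * 1) u := by
        have hu := hasDerivAt_id' u
        have h2 := (hu.pow 2)
        have h3 := (hu.pow 3)
        exact ((((hu.const_mul (x ^ 2)).sub (by simpa using h2.const_mul x)).add (by simpa using h3.div_const 3)).add (hu.const_mul (ε - l)))
      convert h3 using 1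
      ring
    rw [intervalIntegral.integral_eq_sub_of_hasDerivAt hd hint2]
    ring
  rw [e1, e3] at hmono
  exact le_of_mul_le_mul_left hmono (by positivity)

theorem lc_log_nonneg (Q : ℤ[X]) (hl : 0 < Q.leadingCoeff) : 0 ≤ Real.log (Q.leadingCoeff : ℝ) := by
  apply Real.log_nonneg
  exact_mod_cast hl

theorem mass_bound (R l ε : ℝ) (hR : 9 ≤ R) (hl : 0 ≤ l) (hε : ε ≤ 1) (S : Finset ℤ[X]) (a : ℤ[X] → ℝ)
    (h : Cert R l ε S a) :
    ∑ Q ∈ S, a Q * (Real.log (Q.leadingCoeff : ℝ) + ∑ α ∈ Zf Q, (1 + plog α)) ≤ 100 ∧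
      l ≤ 64 / 3 + ε := by
  have h0 := smooth0 R l ε S a h 0 8 (by norm_num) (by linarith) (by linarith)
  have h1 : ∀ Q ∈ S, a Q * (Real.log (Q.leadingCoeff : ℝ) + ∑ α ∈ Zf Q, (1 + plog α)) / 4 ≤
      a Q * (Real.log (Q.leadingCoeff : ℝ) + ∑ α ∈ Zf Q, kr 8 (((0:ℝ) : ℂ) - α)) := by
    intro Q hQ
    obtain ⟨q1, q2, q3, q4⟩ := h.1 Q hQ
    rw [mul_div_assoc]
    apply mul_le_mul_of_nonneg_left _ q4.le
    have h2 := lc_log_nonneg Q q3
    have h3 : (∑ α ∈ Zf Q, (1 + plog α)) / 4 ≤ ∑ α ∈ Zf Q, kr 8 (((0:ℝ) : ℂ) - α) := by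
      rw [Finset.sum_div]
      apply Finset.sum_le_sum
      intro α _
      have := kr_eight (-α)
      rw [norm_neg] at this
      unfold plog
      simpa using this
    linarith
  have h2 := Finset.sum_le_sum h1
  rw [← Finset.sum_div] at h2
  have h3 : 0 ≤ ∑ Q ∈ S, a Q * (Real.log (Q.leadingCoeff : ℝ) + ∑ α ∈ Zf Q, (1 + plog α)) := by
    apply Finset.sum_nonneg
    intro Q hQ
    obtain ⟨q1, q2, q3, q4⟩ := h.1 Q hQ
    have h5 := lc_log_nonneg Q q3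
    have h6 : 0 ≤ ∑ α ∈ Zf Q, (1 + plog α) := Finset.sum_nonneg (fun α _ => by have := plog_nonneg α; linarith)
    exact mul_nonneg q4.le (by linarith)
  constructor
  · linarith
  · linarith

theorem smooth (R l ε : ℝ) (S : Finset ℤ[X]) (a : ℤ[X] → ℝ) (h : Cert R l ε S a) (x : ℝ)
    (hx : |x| ≤ R - 1) (s : ℝ) (hs : 0 < s) (hs1 : s ≤ 1) :
    ∑ Q ∈ S, a Q * (Real.log (Q.leadingCoeff : ℝ) + ∑ α ∈ Zf Q, kr s ((x : ℂ) - α))
      ≤ x ^ 2 + s ^ 2 / 3 - l + ε := by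
  rw [abs_le] at hx
  exact smooth0 R l ε S a h x s hs (by linarith [hx.1]) (by linarith [hx.2])

theorem zf_pos (Q : ℤ[X]) (y : ℝ) (hy : aeval y Q ≠ 0) (α : ℂ) (hα : α ∈ Zf Q) : 0 < ‖(y : ℂ) - α‖ := by
  rw [norm_pos_iff, sub_ne_zero]
  rintro rfl
  apply hy
  rw [Zf, Multiset.mem_toFinset] at hα
  have hQ0 : Q ≠ 0 := by
    rintro rfl
    simp at hα
  have h1 : aeval (y : ℂ) Q = 0 := ((mem_aroots'.1 hα).2)
  have h2 : aeval (y : ℂ) Q = ((aeval y Q : ℝ) : ℂ) := by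
    simp [aeval_def, eval₂_eq_sum_range]
  rw [h2] at h1
  exact_mod_cast h1

theorem lam_sub_log (s : ℝ) (w : ℂ) (hw : 0 < ‖w‖) : lam s w - Real.log ‖w‖ = Real.log (1 + s ^ 2 / ‖w‖ ^ 2) / 2 := by
  unfold lam
  have h1 : ‖w‖ ^ 2 + s ^ 2 = ‖w‖ ^ 2 * (1 + s ^ 2 / ‖w‖ ^ 2) := by field_simp
  rw [h1, Real.log_mul (by positivity) (by positivity), Real.log_pow]
  push_cast
  ring

theorem holder (R l : ℝ) (hR : 9 ≤ R) (hl : 0 ≤ l) : ∃ C : ℝ, 0 < C ∧
    ∀ (ε : ℝ) (S : Finset ℤ[X]) (a : ℤ[X] → ℝ), 0 ≤ ε → ε ≤ 1 → Cert R l ε S a →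
    ∀ (x δ r : ℝ), |x| ≤ R - 1 → (∀ Q ∈ S, aeval x Q ≠ 0) → 0 ≤ δ → δ ≤ 1 →
      x ^ 2 - l + ε - ∑ Q ∈ S, a Q * Real.log |aeval x Q| ≤ δ → 0 < r → r ≤ 1 →
      ∑ Q ∈ S, a Q * ∑ α ∈ Zf Q, r ^ 2 / (r ^ 2 + ‖(x : ℂ) - α‖ ^ 2) ≤ C * (δ + r ^ (1 / 10 : ℝ)) := by
  have hlogR : 1 ≤ Real.log (R + 1) := by
    rw [Real.le_log_iff_exp_le (by linarith)]
    have := Real.exp_one_lt_d9
    linarith
  refine ⟨2 * (100 * Real.log (R + 1) + l + 2), by positivity, ?_⟩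
  intro ε S a hε0 hε1 hcert x δ r hx hroot hδ0 hδ1 hH hr0 hr1
  have hw : ∀ Q ∈ S, ∀ α ∈ Zf Q, 0 < ‖(x : ℂ) - α‖ := fun Q hQ α hα => zf_pos Q x (hroot Q hQ) α hα
  have ha : ∀ Q ∈ S, 0 < a Q := fun Q hQ => (hcert.1 Q hQ).2.2.2
  set A : ℝ → ℝ := fun s => ∑ Q ∈ S, a Q * ∑ α ∈ Zf Q, Real.log (1 + s ^ 2 / ‖(x : ℂ) - α‖ ^ 2) / 2 with hA
  set A' : ℝ → ℝ := fun s => ∑ Q ∈ S, a Q * ∑ α ∈ Zf Q, s / (s ^ 2 + ‖(x : ℂ) - α‖ ^ 2) with hA'
  have hAder : ∀ s : ℝ, HasDerivAt A (A' s) s := by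
    intro s
    rw [hA, hA']
    apply HasDerivAt.fun_sum
    intro Q hQ
    apply HasDerivAt.const_mul
    apply HasDerivAt.fun_sum
    intro α hα
    have h0 := hw Q hQ α hα
    have h1 : HasDerivAt (fun s : ℝ => 1 + s ^ 2 / ‖(x : ℂ) - α‖ ^ 2) (2 * s / ‖(x : ℂ) - α‖ ^ 2) s := by
      have := ((hasDerivAt_pow 2 s).div_const (‖(x : ℂ) - α‖ ^ 2)).const_add 1
      simpa using this
    have h2 := (h1.log (by positivity)).div_const 2
    have h3 : s / (s ^ 2 + ‖(x : ℂ) - α‖ ^ 2) = 2 * s / ‖(x : ℂ) - α‖ ^ 2 / (1 + s ^ 2 / ‖(x : ℂ) - α‖ ^ 2) / 2 := by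
      field_simp
      ring
    simp only [h3]
    exact h2
  have hlog : ∑ Q ∈ S, a Q * Real.log |aeval x Q| = ∑ Q ∈ S, a Q * (Real.log (Q.leadingCoeff : ℝ) + ∑ α ∈ Zf Q, Real.log ‖(x : ℂ) - α‖) := by
    refine Finset.sum_congr rfl (fun Q hQ => ?_)
    obtain ⟨q1, q2, q3, q4⟩ := hcert.1 Q hQ
    rw [log_abs_aeval Q q1 q2 q3 x (hroot Q hQ)]
  have hAlam : ∀ s : ℝ, A s = ∑ Q ∈ S, a Q * (Real.log (Q.leadingCoeff : ℝ) + ∑ α ∈ Zf Q, lam s ((x : ℂ) - α)) -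
      ∑ Q ∈ S, a Q * Real.log |aeval x Q| := by
    intro s
    rw [hlog, ← Finset.sum_sub_distrib, hA]
    refine Finset.sum_congr rfl (fun Q hQ => ?_)
    rw [← mul_sub]
    congr 1
    rw [add_sub_add_left_eq_sub, ← Finset.sum_sub_distrib]
    refine Finset.sum_congr rfl (fun α hα => ?_)
    exact (lam_sub_log s _ (hw Q hQ α hα)).symm
  -- the basic inequality
  have hbasic : ∀ s : ℝ, 0 < s → s ≤ 1 → A s ≤ 10 * (s * A' s) + δ + s ^ 2 / 3 := by
    intro s hs0 hs1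
    have h1 := smooth R l ε S a hcert x hx s hs0 hs1
    have h2 : ∑ Q ∈ S, a Q * (Real.log (Q.leadingCoeff : ℝ) + ∑ α ∈ Zf Q, lam s ((x : ℂ) - α)) - 10 * (s * A' s) ≤
        ∑ Q ∈ S, a Q * (Real.log (Q.leadingCoeff : ℝ) + ∑ α ∈ Zf Q, kr s ((x : ℂ) - α)) := by
      rw [hA']
      simp only
      rw [Finset.mul_sum, Finset.mul_sum, ← Finset.sum_sub_distrib]
      apply Finset.sum_le_sum
      intro Q hQ
      have h3 : Real.log (Q.leadingCoeff : ℝ) + ∑ α ∈ Zf Q, lam s ((x : ℂ) - α) - 10 * (s * ∑ α ∈ Zf Q, s / (s ^ 2 + ‖(x : ℂ) - α‖ ^ 2)) ≤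
          Real.log (Q.leadingCoeff : ℝ) + ∑ α ∈ Zf Q, kr s ((x : ℂ) - α) := by
        have h4 : ∑ α ∈ Zf Q, lam s ((x : ℂ) - α) - 10 * (s * ∑ α ∈ Zf Q, s / (s ^ 2 + ‖(x : ℂ) - α‖ ^ 2)) ≤
            ∑ α ∈ Zf Q, kr s ((x : ℂ) - α) := by
          rw [Finset.mul_sum, Finset.mul_sum, ← Finset.sum_sub_distrib]
          apply Finset.sum_le_sum
          intro α _
          refine le_trans (le_of_eq ?_) (kr_ge_lam s hs0 ((x : ℂ) - α))
          ring
        linarith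
      have h5 := mul_le_mul_of_nonneg_left h3 (ha Q hQ).le
      refine le_trans (le_of_eq ?_) h5
      ring
    rw [hAlam s]
    linarith
  -- the monotone quantity
  have hmono : (A r - δ) * r ^ (-(1 / 10) : ℝ) + r ^ (19 / 10 : ℝ) / 57 ≤ (A 1 - δ) * 1 ^ (-(1 / 10) : ℝ) + 1 ^ (19 / 10 : ℝ) / 57 := by
    have hder : ∀ s : ℝ, 0 < s → HasDerivAt (fun s : ℝ => (A s - δ) * s ^ (-(1 / 10) : ℝ) + s ^ (19 / 10 : ℝ) / 57)
        (A' s * s ^ (-(1 / 10) : ℝ) + (A s - δ) * (-(1 / 10) * s ^ (-(1 / 10) - 1 : ℝ)) + (19 / 10 * s ^ (19 / 10 - 1 : ℝ)) / 57) s := by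
      intro s hs
      have h1 := (hAder s).sub_const δ
      have h2 := Real.hasDerivAt_rpow_const (x := s) (p := -(1 / 10)) (Or.inl hs.ne')
      have h3 := Real.hasDerivAt_rpow_const (x := s) (p := 19 / 10) (Or.inl hs.ne')
      exact (h1.mul h2).add (h3.div_const 57)
    have hm : MonotoneOn (fun s : ℝ => (A s - δ) * s ^ (-(1 / 10) : ℝ) + s ^ (19 / 10 : ℝ) / 57) (Icc r 1) := by
      apply monotoneOn_of_deriv_nonneg (convex_Icc r 1)
      · intro s hs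
        exact (hder s (by linarith [hs.1])).continuousAt.continuousWithinAt
      · intro s hs
        rw [interior_Icc] at hs
        exact (hder s (by linarith [hs.1])).differentiableAt.differentiableWithinAt
      · intro s hs
        rw [interior_Icc] at hs
        have hs0 : 0 < s := by linarith [hs.1]
        rw [(hder s hs0).deriv]
        have hb := hbasic s hs0 hs.2.le
        have e1 : s ^ (-(1 / 10) : ℝ) = s * s ^ (-(1 / 10) - 1 : ℝ) := by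
          rw [Real.rpow_sub_one hs0.ne']; field_simp
        have e2 : s ^ (19 / 10 - 1 : ℝ) = s ^ 2 * s ^ (-(1 / 10) - 1 : ℝ) := by
          rw [← Real.rpow_natCast s 2, ← Real.rpow_add hs0]
          norm_num
        rw [e1, e2]
        have h4 : 0 < s ^ (-(1 / 10) - 1 : ℝ) := Real.rpow_pos_of_pos hs0 _
        have h5 : A' s * (s * s ^ (-(1 / 10) - 1 : ℝ)) + (A s - δ) * (-(1 / 10) * s ^ (-(1 / 10) - 1 : ℝ)) +
            19 / 10 * (s ^ 2 * s ^ (-(1 / 10) - 1 : ℝ)) / 57 =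
            (1 / 10) * s ^ (-(1 / 10) - 1 : ℝ) * (10 * (s * A' s) + δ + s ^ 2 / 3 - A s) := by ring
        rw [h5]
        exact mul_nonneg (by positivity) (by linarith)
    exact hm ⟨le_rfl, hr1⟩ ⟨hr1, le_rfl⟩ hr1
  rw [Real.one_rpow, Real.one_rpow, mul_one] at hmono
  -- bound of A 1
  have hA1 : A 1 ≤ 100 * Real.log (R + 1) + l + 1 := by
    have h1 := (mass_bound R l ε hR hl hε1 S a hcert).1
    have h2 : ∑ Q ∈ S, a Q * (Real.log (Q.leadingCoeff : ℝ) + ∑ α ∈ Zf Q, lam 1 ((x : ℂ) - α)) ≤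
        Real.log (R + 1) * ∑ Q ∈ S, a Q * (Real.log (Q.leadingCoeff : ℝ) + ∑ α ∈ Zf Q, (1 + plog α)) := by
      rw [Finset.mul_sum]
      apply Finset.sum_le_sum
      intro Q hQ
      obtain ⟨q1, q2, q3, q4⟩ := hcert.1 Q hQ
      have h3 := lc_log_nonneg Q q3
      have h4 : ∑ α ∈ Zf Q, lam 1 ((x : ℂ) - α) ≤ Real.log (R + 1) * ∑ α ∈ Zf Q, (1 + plog α) := by
        rw [Finset.mul_sum]
        apply Finset.sum_le_sum
        intro α _
        refine (lam_le 1 one_pos _).trans ?_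
        have hxn : ‖(x : ℂ)‖ ≤ R - 1 := by rw [Complex.norm_real, Real.norm_eq_abs]; exact hx
        have h5 : ‖(x : ℂ) - α‖ + 1 ≤ (R + 1) * max 1 ‖α‖ := by
          have h6 := norm_sub_le (x : ℂ) α
          have h7 := le_max_left 1 ‖α‖
          have h8 := le_max_right 1 ‖α‖
          nlinarith
        have h6 : Real.log (max 1 ‖α‖) ≤ plog α := by
          unfold plog
          rcases le_total 1 ‖α‖ with h | h
          · rw [max_eq_right h]; exact le_max_right _ _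
          · rw [max_eq_left h, Real.log_one]; exact le_max_left _ _
        have h7 : Real.log (‖(x : ℂ) - α‖ + 1) ≤ Real.log (R + 1) + Real.log (max 1 ‖α‖) := by
          rw [← Real.log_mul (by linarith) (by positivity)]
          exact Real.log_le_log (by positivity) h5
        have h8 := plog_nonneg α
        nlinarith
      have h5 : Real.log (Q.leadingCoeff : ℝ) + ∑ α ∈ Zf Q, lam 1 ((x : ℂ) - α) ≤
          Real.log (R + 1) * (Real.log (Q.leadingCoeff : ℝ) + ∑ α ∈ Zf Q, (1 + plog α)) := by nlinarith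
      have h6 := mul_le_mul_of_nonneg_left h5 q4.le
      refine h6.trans (le_of_eq ?_)
      ring
    rw [hAlam 1]
    have h7 : Real.log (R + 1) * ∑ Q ∈ S, a Q * (Real.log (Q.leadingCoeff : ℝ) + ∑ α ∈ Zf Q, (1 + plog α)) ≤ Real.log (R + 1) * 100 :=
      mul_le_mul_of_nonneg_left h1 (by linarith)
    have h8 := sq_nonneg x
    linarith
  -- conclusion for A r
  have hAr : A r ≤ δ + (100 * Real.log (R + 1) + l + 2) * r ^ (1 / 10 : ℝ) := by
    have h1 : 0 < r ^ (1 / 10 : ℝ) := Real.rpow_pos_of_pos hr0 _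
    have h2 : r ^ (-(1 / 10) : ℝ) * r ^ (1 / 10 : ℝ) = 1 := by
      rw [← Real.rpow_add hr0]; norm_num
    have h3 : 0 < r ^ (19 / 10 : ℝ) := Real.rpow_pos_of_pos hr0 _
    have h4 : (A r - δ) * r ^ (-(1 / 10) : ℝ) ≤ 100 * Real.log (R + 1) + l + 2 := by linarith
    have h5 := mul_le_mul_of_nonneg_right h4 h1.le
    rw [mul_assoc, h2, mul_one] at h5
    linarith
  -- B ≤ 2 A
  have hB : ∑ Q ∈ S, a Q * ∑ α ∈ Zf Q, r ^ 2 / (r ^ 2 + ‖(x : ℂ) - α‖ ^ 2) ≤ 2 * A r := by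
    rw [hA]
    simp only
    rw [Finset.mul_sum]
    apply Finset.sum_le_sum
    intro Q hQ
    have h1 : ∑ α ∈ Zf Q, r ^ 2 / (r ^ 2 + ‖(x : ℂ) - α‖ ^ 2) ≤ 2 * ∑ α ∈ Zf Q, Real.log (1 + r ^ 2 / ‖(x : ℂ) - α‖ ^ 2) / 2 := by
      rw [Finset.mul_sum]
      apply Finset.sum_le_sum
      intro α hα
      have h0 := hw Q hQ α hα
      have h2 := Real.one_sub_inv_le_log_of_pos (x := 1 + r ^ 2 / ‖(x : ℂ) - α‖ ^ 2) (by positivity)
      have h3 : 1 - (1 + r ^ 2 / ‖(x : ℂ) - α‖ ^ 2)⁻¹ = r ^ 2 / (r ^ 2 + ‖(x : ℂ) - α‖ ^ 2) := by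
        field_simp
        ring
      linarith
    have h2 := mul_le_mul_of_nonneg_left h1 (ha Q hQ).le
    refine h2.trans (le_of_eq ?_)
    ring
  have hpos : 0 ≤ r ^ (1 / 10 : ℝ) := (Real.rpow_pos_of_pos hr0 _).le
  have hc : 2 ≤ 2 * (100 * Real.log (R + 1) + l + 2) := by linarith
  nlinarith

end Pool.Agent.TraceMin
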