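import Pool.Agent.TraceMin.Defs3

/-!
# Module T24: symmetric lift and push forward under squaring
-/

open MeasureTheory Polynomial Set

namespace Pool.Agent.TraceMin

/-- For an integer polynomial `P ≠ 0` there is `Q ≠ 0` with `Q(y²) = P(y) P(-y)`. -/
lemma exists_graeffe (P : ℤ[X]) (hP : P ≠ 0) : ∃ Q : ℤ[X], Q ≠ 0 ∧
    ∀ y : ℝ, aeval (y ^ 2) Q = aeval y P * aeval (-y) P := by
  set f : ℤ[X] := P * P.comp (-X) with hf
  have hcomp : P.comp (-X) ≠ 0 := by
    intro h
    apply hP
    have := congrArg (fun p : ℤ[X] => p.comp (-X)) h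
    simpa [comp_assoc] using this
  have hf0 : f ≠ 0 := mul_ne_zero hP hcomp
  have hsym : f.comp (-X) = f := by
    rw [hf, mul_comp, comp_assoc]
    simp [mul_comm]
  have hodd : ∀ n, ¬ 2 ∣ n → f.coeff n = 0 := by
    intro n hn
    have h1 : (f.comp (-X)).coeff n = (-1) ^ n * f.coeff n := by
      have h2 : f.comp (-X) = f.comp (C (-1) * X) := by simp
      rw [h2, comp_C_mul_X_coeff, mul_comm]
    rw [hsym] at h1
    have h3 : (-1 : ℤ) ^ n = -1 := by
      apply Odd.neg_one_pow
      exact Nat.not_even_iff_odd.1 (fun h => hn h.two_dvd)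
    rw [h3] at h1
    linarith
  have hexp : expand ℤ 2 (contract 2 f) = f := by
    ext n
    rw [coeff_expand (by norm_num), coeff_contract (by norm_num)]
    split_ifs with h
    · rw [Nat.div_mul_cancel h]
    · exact (hodd n h).symm
  refine ⟨contract 2 f, ?_, ?_⟩
  · intro h
    rw [h, map_zero] at hexp
    exact hf0 hexp.symm
  · intro y
    have h1 : aeval (y ^ 2) (contract 2 f) = aeval y (expand ℤ 2 (contract 2 f)) := by
      rw [expand_aeval]
    rw [h1, hexp, hf, map_mul, aeval_comp]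
    simp

/-- an upper bound for `log |P|` on a compact interval -/
lemma exists_log_le (P : ℤ[X]) (B : ℝ) : ∃ C : ℝ, 0 ≤ C ∧
    ∀ y ∈ Icc (-B) B, Real.log |aeval y P| ≤ C := by
  have hcont : Continuous fun y : ℝ => |aeval y P| := by
    have : Continuous fun y : ℝ => aeval y P := P.continuous_aeval
    exact this.abs
  obtain ⟨C, hC⟩ := (isCompact_Icc (a := -B) (b := B)).bddAbove_image hcont.continuousOn
  refine ⟨|C|, abs_nonneg C, fun y hy => ?_⟩
  have h1 : |aeval y P| ≤ C := hC ⟨y, hy, rfl⟩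
  have h2 : Real.log |aeval y P| ≤ |aeval y P| := by
    rcases (abs_nonneg (aeval y P)).eq_or_lt with h | h
    · rw [← h, Real.log_zero]
    · have := Real.log_le_sub_one_of_pos h
      linarith
  exact (h2.trans h1).trans (le_abs_self C)

lemma lift_half (μ : Measure ℝ) [IsProbabilityMeasure μ] (A : ℝ) (hA : 0 ≤ A)
    (hsupp : μ (Icc 0 A)ᶜ = 0) (hμ : IsArith μ) (P : ℤ[X]) (hP : P ≠ 0) (σ : ℝ)
    (hσ : σ = 1 ∨ σ = -1) :
    μ {x : ℝ | aeval (σ * √x) P = 0} = 0 ∧
    Integrable (fun x : ℝ => Real.log |aeval (σ * √x) P|) μ := by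
  obtain ⟨Q, hQ0, hQ⟩ := exists_graeffe P hP
  obtain ⟨hz, hi, -⟩ := hμ Q hQ0
  obtain ⟨C, hC0, hC⟩ := exists_log_le P √A
  have hae : ∀ᵐ x ∂μ, x ∈ Icc 0 A := by
    rw [ae_iff]; exact hsupp
  have hQ' : ∀ x : ℝ, 0 ≤ x → aeval x Q = aeval (σ * √x) P * aeval (-(σ * √x)) P := by
    intro x hx
    rw [← hQ (σ * √x), mul_pow, Real.sq_sqrt hx]
    rcases hσ with rfl | rfl <;> simp
  have hbd : ∀ x ∈ Icc 0 A, ∀ s : ℝ, (s = 1 ∨ s = -1) → s * √x ∈ Icc (-√A) √A := by
    intro x hx s hs
    have h1 : √x ≤ √A := Real.sqrt_le_sqrt hx.2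
    have h2 : 0 ≤ √x := Real.sqrt_nonneg x
    rcases hs with rfl | rfl
    · constructor <;> linarith
    · constructor <;> linarith
  have hz' : ∀ᵐ x ∂μ, aeval x Q ≠ 0 := by
    rw [ae_iff]
    simpa using hz
  constructor
  · have : ∀ᵐ x ∂μ, aeval (σ * √x) P ≠ 0 := by
      filter_upwards [hae, hz'] with x hx hx' h
      apply hx'
      rw [hQ' x hx.1, h, zero_mul]
    rw [ae_iff] at this
    simpa using this
  · have hmeas : AEStronglyMeasurable (fun x : ℝ => Real.log |aeval (σ * √x) P|) μ := by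
      have h1 : Continuous fun y : ℝ => aeval y P := P.continuous_aeval
      have h2 : Continuous fun x : ℝ => |aeval (σ * √x) P| :=
        (h1.comp (by fun_prop : Continuous fun x : ℝ => σ * √x)).abs
      exact (Real.measurable_log.comp h2.measurable).aestronglyMeasurable
    refine ((hi.abs).add (integrable_const C)).mono' hmeas ?_
    filter_upwards [hae, hz'] with x hx hx'
    have e1 := hQ' x hx.1
    have hne1 : aeval (σ * √x) P ≠ 0 := fun h => hx' (by rw [e1, h, zero_mul])
    have hne2 : aeval (-(σ * √x)) P ≠ 0 := fun h => hx' (by rw [e1, h, mul_zero])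
    have e2 : Real.log |aeval x Q| = Real.log |aeval (σ * √x) P| +
        Real.log |aeval (-(σ * √x)) P| := by
      rw [e1, abs_mul, Real.log_mul (abs_ne_zero.2 hne1) (abs_ne_zero.2 hne2)]
    have b1 := hC _ (hbd x hx σ hσ)
    have b2 : Real.log |aeval (-(σ * √x)) P| ≤ C := by
      have h3 : -(σ * √x) = (-σ) * √x := by ring
      rw [h3]
      apply hC _ (hbd x hx (-σ) _)
      rcases hσ with rfl | rfl
      · right; rfl
      · left; norm_num
    rw [Real.norm_eq_abs, abs_le]
    simp only [Pi.add_apply]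
    constructor
    · have := neg_abs_le (Real.log |aeval x Q|)
      linarith
    · have := abs_nonneg (Real.log |aeval x Q|)
      linarith

theorem lift_exists (μ : Measure ℝ) [IsProbabilityMeasure μ] (A : ℝ) (hA : 0 ≤ A)
    (hsupp : μ (Icc 0 A)ᶜ = 0) (hμ : IsArith μ) :
    ∃ ν : Measure ℝ, IsProbabilityMeasure ν ∧ ν (Icc (-√A) √A)ᶜ = 0 ∧ IsArith ν ∧
      ν.map (fun y => y ^ 2) = μ := by
  have m1 : Measurable (fun x : ℝ => 1 * √x) := by fun_prop
  have m2 : Measurable (fun x : ℝ => (-1) * √x) := by fun_prop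
  have hae : ∀ᵐ x ∂μ, x ∈ Icc 0 A := by
    rw [ae_iff]; exact hsupp
  set ν₁ := μ.map (fun x : ℝ => 1 * √x) with hν₁
  set ν₂ := μ.map (fun x : ℝ => (-1) * √x) with hν₂
  have p1 : IsProbabilityMeasure ν₁ := Measure.isProbabilityMeasure_map m1.aemeasurable
  have p2 : IsProbabilityMeasure ν₂ := Measure.isProbabilityMeasure_map m2.aemeasurable
  have hhalf : (2⁻¹ : ENNReal) ≠ ⊤ := by norm_num
  refine ⟨(2⁻¹ : ENNReal) • ν₁ + (2⁻¹ : ENNReal) • ν₂, ?_, ?_, ?_, ?_⟩
  · constructor
    rw [Measure.add_apply, Measure.smul_apply, Measure.smul_apply, measure_univ, measure_univ]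
    simp [ENNReal.inv_two_add_inv_two]
  · have key : ∀ s : ℝ, (s = 1 ∨ s = -1) → (μ.map (fun x : ℝ => s * √x)) (Icc (-√A) √A)ᶜ = 0 := by
      intro s hs
      rw [Measure.map_apply (by fun_prop) measurableSet_Icc.compl]
      have : ∀ᵐ x ∂μ, s * √x ∈ Icc (-√A) √A := by
        filter_upwards [hae] with x hx
        have h1 : √x ≤ √A := Real.sqrt_le_sqrt hx.2
        have h2 : 0 ≤ √x := Real.sqrt_nonneg x
        rcases hs with rfl | rfl
        · constructor <;> linarith
        · constructor <;> linarith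
      rw [ae_iff] at this
      exact this
    rw [Measure.add_apply, Measure.smul_apply, Measure.smul_apply, key 1 (Or.inl rfl),
      key (-1) (Or.inr rfl)]
    simp
  · intro P hP
    obtain ⟨z1, i1⟩ := lift_half μ A hA hsupp hμ P hP 1 (Or.inl rfl)
    obtain ⟨z2, i2⟩ := lift_half μ A hA hsupp hμ P hP (-1) (Or.inr rfl)
    have hcont : Continuous fun y : ℝ => aeval y P := P.continuous_aeval
    have hcl : MeasurableSet {x : ℝ | aeval x P = 0} :=
      (isClosed_eq hcont continuous_const).measurableSet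
    have hml : Measurable (fun y : ℝ => Real.log |aeval y P|) :=
      Real.measurable_log.comp hcont.abs.measurable
    have j1 : Integrable (fun y : ℝ => Real.log |aeval y P|) ν₁ := by
      rw [hν₁, integrable_map_measure hml.aestronglyMeasurable m1.aemeasurable]
      exact i1
    have j2 : Integrable (fun y : ℝ => Real.log |aeval y P|) ν₂ := by
      rw [hν₂, integrable_map_measure hml.aestronglyMeasurable m2.aemeasurable]
      exact i2
    refine ⟨?_, ?_, ?_⟩
    · rw [Measure.add_apply, Measure.smul_apply, Measure.smul_apply, hν₁, hν₂,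
        Measure.map_apply m1 hcl, Measure.map_apply m2 hcl]
      have e1 : (fun x : ℝ => 1 * √x) ⁻¹' {x : ℝ | aeval x P = 0} =
          {x : ℝ | aeval (1 * √x) P = 0} := rfl
      have e2 : (fun x : ℝ => (-1) * √x) ⁻¹' {x : ℝ | aeval x P = 0} =
          {x : ℝ | aeval ((-1) * √x) P = 0} := rfl
      rw [e1, e2, z1, z2]
      simp
    · exact (j1.smul_measure hhalf).add_measure (j2.smul_measure hhalf)
    · rw [integral_add_measure (j1.smul_measure hhalf) (j2.smul_measure hhalf),
        integral_smul_measure, integral_smul_measure, ← smul_add]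
      apply smul_nonneg (by simp)
      rw [hν₁, hν₂, integral_map m1.aemeasurable hml.aestronglyMeasurable,
        integral_map m2.aemeasurable hml.aestronglyMeasurable, ← integral_add i1 i2]
      obtain ⟨Q, hQ0, hQ⟩ := exists_graeffe P hP
      obtain ⟨hz, hi, hn⟩ := hμ Q hQ0
      refine hn.trans (le_of_eq ?_)
      apply integral_congr_ae
      have z1' : ∀ᵐ x ∂μ, aeval (1 * √x) P ≠ 0 := by
        rw [ae_iff]; simpa using z1
      have z2' : ∀ᵐ x ∂μ, aeval ((-1) * √x) P ≠ 0 := by
        rw [ae_iff]; simpa using z2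
      filter_upwards [hae, z1', z2'] with x hx h1 h2
      have e1 : aeval x Q = aeval (1 * √x) P * aeval ((-1) * √x) P := by
        have := hQ √x
        rw [Real.sq_sqrt hx.1] at this
        rw [this]; simp
      rw [e1, abs_mul, Real.log_mul (abs_ne_zero.2 h1) (abs_ne_zero.2 h2)]
  · have hsq : Measurable (fun y : ℝ => y ^ 2) := by fun_prop
    have key : ∀ s : ℝ, (s = 1 ∨ s = -1) →
        (μ.map (fun x : ℝ => s * √x)).map (fun y => y ^ 2) = μ := by
      intro s hs
      rw [Measure.map_map hsq (by fun_prop)]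
      have : (fun y : ℝ => y ^ 2) ∘ (fun x : ℝ => s * √x) =ᵐ[μ] id := by
        filter_upwards [hae] with x hx
        simp only [Function.comp, id]
        rw [mul_pow, Real.sq_sqrt hx.1]
        rcases hs with rfl | rfl <;> norm_num
      rw [Measure.map_congr this, Measure.map_id]
    rw [Measure.map_add _ _ hsq, Measure.map_smul, Measure.map_smul, hν₁, hν₂,
      key 1 (Or.inl rfl), key (-1) (Or.inr rfl), ← add_smul, ENNReal.inv_two_add_inv_two, one_smul]

theorem push_sq (ν : Measure ℝ) [IsProbabilityMeasure ν] (T : ℝ) (hT : 0 ≤ T)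
    (hsupp : ν (Icc (-T) T)ᶜ = 0) (hν : IsArith ν) :
    IsProbabilityMeasure (ν.map (fun y => y ^ 2)) ∧ (ν.map (fun y => y ^ 2)) (Icc 0 (T ^ 2))ᶜ = 0 ∧
      IsArith (ν.map (fun y => y ^ 2)) ∧ ∫ x, x ∂(ν.map (fun y => y ^ 2)) = ∫ y, y ^ 2 ∂ν := by
  have hsq : Measurable (fun y : ℝ => y ^ 2) := by fun_prop
  have hae : ∀ᵐ x ∂ν, x ∈ Icc (-T) T := by
    rw [ae_iff]; exact hsupp
  refine ⟨Measure.isProbabilityMeasure_map hsq.aemeasurable, ?_, ?_, ?_⟩
  · rw [Measure.map_apply hsq measurableSet_Icc.compl]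
    have : ∀ᵐ x ∂ν, x ^ 2 ∈ Icc 0 (T ^ 2) := by
      filter_upwards [hae] with x hx
      exact ⟨sq_nonneg x, sq_le_sq' hx.1 hx.2⟩
    rw [ae_iff] at this
    exact this
  · intro Q hQ
    have hP0 : expand ℤ 2 Q ≠ 0 := (expand_ne_zero (by norm_num)).2 hQ
    have hPe : ∀ y : ℝ, aeval y (expand ℤ 2 Q) = aeval (y ^ 2) Q := fun y => expand_aeval _ _ _
    obtain ⟨hz, hi, hn⟩ := hν _ hP0
    have hcont : Continuous fun y : ℝ => aeval y Q := Q.continuous_aeval
    have hcl : MeasurableSet {x : ℝ | aeval x Q = 0} :=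
      (isClosed_eq hcont continuous_const).measurableSet
    have hml : Measurable (fun y : ℝ => Real.log |aeval y Q|) :=
      Real.measurable_log.comp hcont.abs.measurable
    simp only [hPe] at hz hi hn
    refine ⟨?_, ?_, ?_⟩
    · rw [Measure.map_apply hsq hcl]
      exact hz
    · rw [integrable_map_measure hml.aestronglyMeasurable hsq.aemeasurable]
      exact hi
    · rw [integral_map hsq.aemeasurable hml.aestronglyMeasurable]
      exact hn
  · rw [integral_map hsq.aemeasurable (by fun_prop)]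

end Pool.Agent.TraceMin
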