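import Pool.Agent.TraceMin.Defs3

/-!
Module T27: the lower limit defining the Schur-Siegel-Smyth constant.
-/

open MeasureTheory Polynomial Set Filter

namespace Pool.Agent.TraceMin

theorem lambdaSSS_eq (m : ℝ) (hm : 0 ≤ m) (h1 : ∀ t < m, {α : ℂ | TotPos α ∧ normTrace α ≤ t}.Finite)
    (h2 : ∀ ε > 0, {α : ℂ | TotPos α ∧ normTrace α ≤ m + ε}.Infinite) : lambdaSSS = m := by
  classical
  unfold lambdaSSS
  -- eventually above every `t < m`
  have hev : ∀ t < m, ∀ᶠ α : {α : ℂ // TotPos α} in cofinite, t < normTrace α.1 := by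
    intro t ht
    rw [Filter.eventually_cofinite]
    have hfin := h1 t ht
    have : {x : {α : ℂ // TotPos α} | ¬ t < normTrace x.1} =
        (fun x : {α : ℂ // TotPos α} => x.1) ⁻¹' {α : ℂ | TotPos α ∧ normTrace α ≤ t} := by
      ext x
      simp only [Set.mem_ofPred_eq, mem_preimage, not_lt]
      exact ⟨fun h => ⟨x.2, h⟩, fun h => h.2⟩
    rw [this]
    exact hfin.preimage (Subtype.val_injective.injOn)
  -- frequently below every `m + ε`
  have hfr : ∀ ε > 0, ∃ᶠ α : {α : ℂ // TotPos α} in cofinite, normTrace α.1 ≤ m + ε := by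
    intro ε hε
    rw [Filter.frequently_cofinite_iff_infinite]
    intro hfin
    apply h2 ε hε
    have himg := hfin.image (fun x : {α : ℂ // TotPos α} => x.1)
    refine himg.subset ?_
    rintro α ⟨hα, hle⟩
    exact ⟨⟨α, hα⟩, hle, rfl⟩
  have hbdd : IsBoundedUnder (· ≥ ·) cofinite (fun α : {α : ℂ // TotPos α} => normTrace α.1) := by
    refine ⟨m - 1, ?_⟩
    rw [Filter.eventually_map]
    filter_upwards [hev (m - 1) (by linarith)] with x hx
    exact hx.le
  have hcobdd : IsCoboundedUnder (· ≥ ·) cofinite (fun α : {α : ℂ // TotPos α} => normTrace α.1) := by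
    refine Filter.IsCoboundedUnder.of_frequently_le (hfr 1 one_pos)
  apply le_antisymm
  · apply le_of_forall_pos_le_add
    intro ε hε
    exact Filter.liminf_le_of_frequently_le (hfr ε hε) hbdd
  · apply le_of_forall_lt
    intro c hc
    obtain ⟨d, hcd, hdm⟩ := exists_between hc
    refine lt_of_lt_of_le hcd (Filter.le_liminf_of_le hcobdd ?_)
    filter_upwards [hev d hdm] with x hx
    exact hx.le

end Pool.Agent.TraceMin
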