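import Pool.Agent.TraceMin.Defs2

/-! Module T17 (regularisation of an arithmetic measure) for the problem on trace-minimising
arithmetic measures. -/

open MeasureTheory Polynomial Set

namespace Pool.Agent.TraceMin

namespace Regularise

/-- sum of logarithmic kernels -/
noncomputable def Lsum (s : Multiset ℂ) (x : ℝ) : ℝ :=
  (s.map fun α => Real.log ‖(x : ℂ) - α‖).sum

/-- sum of the error kernels -/
noncomputable def Rsum (r : ℝ) (s : Multiset ℂ) (x : ℝ) : ℝ :=
  (s.map fun α => r / (r + ‖(x : ℂ) - α‖)).sum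

@[simp] lemma Lsum_zero (x : ℝ) : Lsum 0 x = 0 := by simp [Lsum]
@[simp] lemma Lsum_cons (a : ℂ) (s : Multiset ℂ) (x : ℝ) :
    Lsum (a ::ₘ s) x = Real.log ‖(x : ℂ) - a‖ + Lsum s x := by simp [Lsum]
@[simp] lemma Rsum_zero (r x : ℝ) : Rsum r 0 x = 0 := by simp [Rsum]
@[simp] lemma Rsum_cons (r : ℝ) (a : ℂ) (s : Multiset ℂ) (x : ℝ) :
    Rsum r (a ::ₘ s) x = r / (r + ‖(x : ℂ) - a‖) + Rsum r s x := by simp [Rsum]

lemma log_prod (s : Multiset ℂ) (x : ℝ) (h : ∀ a ∈ s, (x : ℂ) ≠ a) :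
    Real.log ‖(s.map fun α => (x : ℂ) - α).prod‖ = Lsum s x := by
  induction s using Multiset.induction_on with
  | empty => simp
  | cons a s ih =>
    have h1 : ∀ a ∈ s, (x : ℂ) ≠ a := fun b hb => h b (Multiset.mem_cons_of_mem hb)
    have h2 : (x : ℂ) - a ≠ 0 := sub_ne_zero.mpr (h a (Multiset.mem_cons_self a s))
    have h3 : (s.map fun α => (x : ℂ) - α).prod ≠ 0 := by
      apply Multiset.prod_ne_zero
      intro h0
      rw [Multiset.mem_map] at h0
      obtain ⟨b, hb, hb2⟩ := h0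
      exact h1 b hb (sub_eq_zero.mp hb2)
    rw [Multiset.map_cons, Multiset.prod_cons, norm_mul,
      Real.log_mul (norm_ne_zero_iff.mpr h2) (norm_ne_zero_iff.mpr h3), ih h1, Lsum_cons]

lemma norm_aeval (Q : ℤ[X]) (x : ℝ) : ‖aeval (x : ℂ) Q‖ = |aeval x Q| := by
  have h1 : aeval (x : ℂ) Q = ((aeval x Q : ℝ) : ℂ) := by
    have := aeval_algebraMap_apply ℂ x Q
    simpa using this
  rw [h1, Complex.norm_real, Real.norm_eq_abs]

lemma aeval_factor (Q : ℤ[X]) (x : ℂ) :
    aeval x Q = (Q.leadingCoeff : ℂ) * ((Q.aroots ℂ).map fun α => x - α).prod := by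
  have hsp : (Q.map (algebraMap ℤ ℂ)).Splits := IsAlgClosed.splits _
  have h1 := hsp.eval_eq_prod_roots x
  rw [eval_map_algebraMap] at h1
  rw [h1, leadingCoeff_map_of_injective (RingHom.injective_int (algebraMap ℤ ℂ))]
  rfl

lemma ne_root (Q : ℤ[X]) (x : ℝ) (hx : aeval x Q ≠ 0) : ∀ a ∈ Q.aroots ℂ, (x : ℂ) ≠ a := by
  intro a ha h
  rw [← h] at ha
  rw [mem_aroots] at ha
  apply hx
  have := norm_aeval Q x
  rw [ha.2, norm_zero] at this
  exact abs_eq_zero.mp this.symm

lemma log_aeval (Q : ℤ[X]) (hQ : Q ≠ 0) (x : ℝ) (hx : aeval x Q ≠ 0) :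
    Real.log |aeval x Q| = Real.log |(Q.leadingCoeff : ℝ)| + Lsum (Q.aroots ℂ) x := by
  have hroot := ne_root Q x hx
  have h3 : ((Q.aroots ℂ).map fun α => (x : ℂ) - α).prod ≠ 0 := by
    apply Multiset.prod_ne_zero
    intro h0
    rw [Multiset.mem_map] at h0
    obtain ⟨b, hb, hb2⟩ := h0
    exact hroot b hb (sub_eq_zero.mp hb2)
  have hlc : ((Q.leadingCoeff : ℤ) : ℂ) ≠ 0 := Int.cast_ne_zero.mpr (leadingCoeff_ne_zero.mpr hQ)
  have hlc2 : ‖((Q.leadingCoeff : ℤ) : ℂ)‖ = |(Q.leadingCoeff : ℝ)| := Complex.norm_intCast _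
  rw [← norm_aeval, aeval_factor, norm_mul,
    Real.log_mul (norm_ne_zero_iff.mpr hlc) (norm_ne_zero_iff.mpr h3), log_prod _ _ hroot, hlc2]

lemma lc_nonneg (Q : ℤ[X]) (hQ : Q ≠ 0) : 0 ≤ Real.log |(Q.leadingCoeff : ℝ)| := by
  apply Real.log_nonneg
  have : (1 : ℤ) ≤ |Q.leadingCoeff| := Int.one_le_abs (leadingCoeff_ne_zero.mpr hQ)
  exact_mod_cast this

/-! ### averages of the logarithm -/

lemma ii_log (α : ℂ) (a b : ℝ) :
    IntervalIntegrable (fun x : ℝ => Real.log ‖(x : ℂ) - α‖) volume a b := by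
  have : AnalyticOnNhd ℝ (fun x : ℝ => (x : ℂ) - α) univ := by
    intro x _
    have h1 : AnalyticAt ℝ (fun x : ℝ => (x : ℂ)) x := Complex.ofRealCLM.analyticAt x
    exact h1.sub analyticAt_const
  have h2 : MeromorphicOn (fun x : ℝ => (x : ℂ) - α) (uIcc a b) :=
    fun x _ => (this x (mem_univ x)).meromorphicAt
  exact h2.intervalIntegrable_log_norm

lemma ii_log_real (t a b : ℝ) :
    IntervalIntegrable (fun x : ℝ => Real.log |x - t|) volume a b := by
  have := ii_log (t : ℂ) a b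
  refine this.congr ?_
  intro x _
  simp only
  rw [← Complex.ofReal_sub, Complex.norm_real, Real.norm_eq_abs]

lemma conv_ineq_aux (L u : ℝ) (hL : 0 < L) (hu : 0 ≤ u) :
    L * Real.log (L / 2) ≤ (L + u) * Real.log (L + u) - u * Real.log u := by
  have h1 : u * Real.log u ≤ u * Real.log (L + u) := by
    rcases hu.eq_or_lt with h | h
    · rw [← h]; simp
    · exact mul_le_mul_of_nonneg_left (Real.log_le_log h (by linarith)) hu
  have h2 : L * Real.log (L / 2) ≤ L * Real.log (L + u) :=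
    mul_le_mul_of_nonneg_left (Real.log_le_log (by positivity) (by linarith)) hL.le
  nlinarith

lemma conv_ineq (L t : ℝ) (hL : 0 < L) :
    L * Real.log (L / 2) ≤ (L - t) * Real.log (L - t) + t * Real.log t := by
  rcases lt_or_ge t 0 with ht | ht
  · have := conv_ineq_aux L (-t) hL (by linarith)
    rw [Real.log_neg_eq_log] at this
    rw [sub_eq_add_neg]
    linarith
  rcases lt_or_ge L t with ht2 | ht2
  · have := conv_ineq_aux L (t - L) hL (by linarith)
    have h3 : Real.log (t - L) = Real.log (L - t) := by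
      rw [← Real.log_neg_eq_log, neg_sub]
    rw [h3] at this
    have h4 : L + (t - L) = t := by ring
    rw [h4] at this
    linarith
  · have hc := Real.convexOn_mul_log
    have hm1 : L - t ∈ Ici (0 : ℝ) := by simpa using ht2
    have hm2 : t ∈ Ici (0 : ℝ) := ht
    have := hc.2 hm1 hm2 (by norm_num : (0 : ℝ) ≤ 1 / 2) (by norm_num : (0 : ℝ) ≤ 1 / 2)
      (by norm_num)
    simp only [smul_eq_mul] at this
    have h5 : (1 / 2 : ℝ) * (L - t) + 1 / 2 * t = L / 2 := by ring
    rw [h5] at this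
    linarith

lemma avg_log_real (L : ℝ) (hL : 0 < L) (t : ℝ) :
    L * (Real.log (L / 2) - 1) ≤ ∫ x in (0 : ℝ)..L, Real.log |x - t| := by
  have h1 : (∫ x in (0 : ℝ)..L, Real.log |x - t|) = ∫ x in (0 : ℝ)..L, Real.log (x - t) := by
    simp_rw [Real.log_abs]
  rw [h1, intervalIntegral.integral_comp_sub_right (fun x => Real.log x) t, integral_log]
  have h2 := conv_ineq L t hL
  rw [zero_sub, Real.log_neg_eq_log]
  linarith

lemma avg_log_complex (L : ℝ) (hL : 0 < L) (α : ℂ) :
    L * (Real.log (L / 2) - 1) ≤ ∫ x in (0 : ℝ)..L, Real.log ‖(x : ℂ) - α‖ := by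
  refine (avg_log_real L hL α.re).trans ?_
  refine intervalIntegral.integral_mono_ae hL.le (ii_log_real _ _ _) (ii_log _ _ _) ?_
  have h0 : ∀ᵐ x : ℝ, x ≠ α.re := by
    simp [ae_iff]
  filter_upwards [h0] with x hx
  apply Real.log_le_log (abs_pos.mpr (sub_ne_zero.mpr hx))
  have := Complex.abs_re_le_norm ((x : ℂ) - α)
  simpa using this

lemma ii_log_shift (w : ℂ) (a b : ℝ) :
    IntervalIntegrable (fun s : ℝ => Real.log ‖w + s‖) volume a b := by
  have h := ii_log (-w) a b
  have : (fun s : ℝ => Real.log ‖w + s‖) = fun s : ℝ => Real.log ‖(s : ℂ) - -w‖ := by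
    funext s
    congr 2
    ring
  rw [this]
  exact h

lemma avg_kernel (r : ℝ) (hr : 0 < r) (w : ℂ) (hw : w ≠ 0) :
    2 * r * (Real.log ‖w‖ - 15 * (r / (r + ‖w‖))) ≤ ∫ s in (0 : ℝ)..(2 * r), Real.log ‖w + s‖ := by
  have hw0 : 0 < ‖w‖ := norm_pos_iff.mpr hw
  rcases le_or_gt ‖w‖ (4 * r) with h4 | h4
  · have h1 := avg_log_complex (2 * r) (by positivity) (-w)
    have h2 : (∫ s in (0 : ℝ)..(2 * r), Real.log ‖w + s‖) =
        ∫ x in (0 : ℝ)..(2 * r), Real.log ‖(x : ℂ) - -w‖ := by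
      refine intervalIntegral.integral_congr fun s _ => ?_
      congr 2
      ring
    rw [h2]
    refine le_trans ?_ h1
    refine mul_le_mul_of_nonneg_left ?_ (by positivity)
    have h3 : Real.log ‖w‖ ≤ Real.log 4 + Real.log r := by
      rw [← Real.log_mul (by norm_num) hr.ne']
      exact Real.log_le_log hw0 h4
    have h5 : (1 : ℝ) / 5 ≤ r / (r + ‖w‖) := by
      rw [div_le_div_iff₀ (by norm_num) (by positivity)]
      linarith
    have h6 : 2 * r / 2 = r := by ring
    rw [h6]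
    have h7 : Real.log 4 = 2 * Real.log 2 := by
      rw [show (4 : ℝ) = 2 ^ 2 by norm_num, Real.log_pow]
      norm_num
    have h8 := Real.log_two_lt_d9
    linarith
  · have hpt : ∀ s ∈ Icc (0 : ℝ) (2 * r), Real.log ‖w‖ - 15 * (r / (r + ‖w‖)) ≤
        Real.log ‖w + s‖ := by
      intro s hs
      have h1 : ‖w‖ - s ≤ ‖w + s‖ := by
        have := norm_sub_le (w + s) (s : ℂ)
        rw [add_sub_cancel_right, Complex.norm_real, Real.norm_eq_abs, abs_of_nonneg hs.1] at this
        linarith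
      have h2 : 0 < ‖w‖ - s := by linarith [hs.2]
      have h3 : Real.log (‖w‖ - s) ≤ Real.log ‖w + s‖ := Real.log_le_log h2 h1
      have h4' : Real.log (‖w‖ - s) = Real.log ‖w‖ + Real.log ((‖w‖ - s) / ‖w‖) := by
        rw [Real.log_div h2.ne' hw0.ne']
        ring
      have h5 : 1 - ((‖w‖ - s) / ‖w‖)⁻¹ ≤ Real.log ((‖w‖ - s) / ‖w‖) :=
        Real.one_sub_inv_le_log_of_pos (by positivity)
      have h6 : -(15 * (r / (r + ‖w‖))) ≤ 1 - ((‖w‖ - s) / ‖w‖)⁻¹ := by
        rw [inv_div]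
        have h7 : 1 - ‖w‖ / (‖w‖ - s) = -(s / (‖w‖ - s)) := by
          field_simp
          ring
        rw [h7]
        apply neg_le_neg
        have h8 : s / (‖w‖ - s) ≤ 2 * r / (‖w‖ / 2) := by
          apply div_le_div₀ (by positivity) hs.2 (by positivity) (by linarith [hs.2])
        refine h8.trans ?_
        rw [mul_div_assoc', div_le_div_iff₀ (by positivity) (by positivity)]
        nlinarith
      linarith
    have hmono := intervalIntegral.integral_mono_on (μ := volume) (a := 0) (b := 2 * r)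
      (f := fun _ => Real.log ‖w‖ - 15 * (r / (r + ‖w‖))) (g := fun s : ℝ => Real.log ‖w + s‖)
      (by positivity) (by simp) (ii_log_shift w _ _) hpt
    rw [intervalIntegral.integral_const] at hmono
    simpa using hmono

lemma ii_Lsum (s : Multiset ℂ) (a b : ℝ) : IntervalIntegrable (Lsum s) volume a b := by
  induction s using Multiset.induction_on with
  | empty =>
    have : Lsum 0 = fun _ => (0 : ℝ) := by funext x; simp
    rw [this]
    simp
  | cons c s ih =>
    have : Lsum (c ::ₘ s) = fun x : ℝ => Real.log ‖(x : ℂ) - c‖ + Lsum s x := by funext x; simp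
    rw [this]
    exact (ii_log c a b).add ih

lemma avg_Lsum (L : ℝ) (hL : 0 < L) (s : Multiset ℂ) :
    L * ((Multiset.card s) * (Real.log (L / 2) - 1)) ≤ ∫ x in (0 : ℝ)..L, Lsum s x := by
  induction s using Multiset.induction_on with
  | empty => simp
  | cons c s ih =>
    simp only [Lsum_cons, Multiset.card_cons]
    rw [intervalIntegral.integral_add (ii_log c _ _) (ii_Lsum s _ _)]
    have := avg_log_complex L hL c
    push_cast
    linarith

lemma avg_Lsum_shift (r : ℝ) (hr : 0 < r) (s : Multiset ℂ) (x : ℝ) (hx : ∀ a ∈ s, (x : ℂ) ≠ a) :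
    2 * r * (Lsum s x - 15 * Rsum r s x) ≤ ∫ t in (0 : ℝ)..(2 * r), Lsum s (x + t) := by
  induction s using Multiset.induction_on with
  | empty => simp
  | cons c s ih =>
    simp only [Lsum_cons, Rsum_cons]
    have h1 : IntervalIntegrable (fun t : ℝ => Lsum s (x + t)) volume 0 (2 * r) := by
      have := (ii_Lsum s x (x + 2 * r)).comp_add_left x
      simpa using this
    have e1 : ∀ t : ℝ, ((x + t : ℝ) : ℂ) - c = ((x : ℂ) - c) + t := by
      intro t; push_cast; ring
    have h2 : IntervalIntegrable (fun t : ℝ => Real.log ‖((x + t : ℝ) : ℂ) - c‖) volume 0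
        (2 * r) := by
      simp_rw [e1]
      exact ii_log_shift _ _ _
    rw [intervalIntegral.integral_add h2 h1]
    have h3 := avg_kernel r hr ((x : ℂ) - c) (sub_ne_zero.mpr (hx c (Multiset.mem_cons_self c s)))
    have h4 := ih fun a ha => hx a (Multiset.mem_cons_of_mem ha)
    simp_rw [e1]
    linarith

/-! ### non-concentration -/

lemma small_balls (μ : Measure ℝ) [IsProbabilityMeasure μ]
    (hdiag : (μ.prod μ) {p | p.1 = p.2} = 0) (η : ℝ) (hη : 0 < η) :
    ∃ ρ : ℝ, 0 < ρ ∧ ∀ t : ℝ, μ.real (Icc (t - ρ) (t + ρ)) ≤ η := by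
  set S : ℕ → Set (ℝ × ℝ) := fun n => {p | |p.1 - p.2| ≤ 1 / ((n : ℝ) + 1)} with hS
  have hSm : ∀ n, MeasurableSet (S n) := by
    intro n
    exact measurableSet_le (by fun_prop) (by fun_prop)
  have hanti : Antitone S := by
    intro m n hmn p hp
    simp only [hS, Set.mem_ofPred_eq] at hp ⊢
    refine hp.trans ?_
    apply one_div_le_one_div_of_le (by positivity)
    have : (m : ℝ) ≤ n := by exact_mod_cast hmn
    linarith
  have hInter : ⋂ n, S n = {p : ℝ × ℝ | p.1 = p.2} := by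
    ext p
    simp only [mem_iInter, hS, Set.mem_ofPred_eq]
    constructor
    · intro h
      have h1 : |p.1 - p.2| ≤ 0 := by
        refine ge_of_tendsto' tendsto_one_div_add_atTop_nhds_zero_nat h
      have := abs_nonpos_iff.mp h1
      linarith
    · intro h n
      rw [h, sub_self, abs_zero]
      positivity
  have hlim := tendsto_measure_iInter_atTop (μ := μ.prod μ) (s := S)
    (fun n => (hSm n).nullMeasurableSet) hanti ⟨0, measure_ne_top _ _⟩
  rw [hInter, hdiag] at hlim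
  have hpos : (0 : ENNReal) < ENNReal.ofReal (η ^ 2) := by
    rw [ENNReal.ofReal_pos]
    positivity
  have hev := hlim.eventually (gt_mem_nhds hpos)
  obtain ⟨n, hn⟩ := hev.exists
  refine ⟨1 / (2 * ((n : ℝ) + 1)), by positivity, fun t => ?_⟩
  set I := Icc (t - 1 / (2 * ((n : ℝ) + 1))) (t + 1 / (2 * ((n : ℝ) + 1))) with hI
  have hsub : I ×ˢ I ⊆ S n := by
    rintro ⟨x, y⟩ ⟨hx, hy⟩
    simp only [hI, mem_Icc] at hx hy
    simp only [hS, Set.mem_ofPred_eq]
    have h2 : 1 / ((n : ℝ) + 1) = 2 * (1 / (2 * ((n : ℝ) + 1))) := by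
      field_simp
    rw [h2, abs_le]
    constructor <;> linarith [hx.1, hx.2, hy.1, hy.2]
  have h1 : μ I * μ I ≤ ENNReal.ofReal (η ^ 2) := by
    rw [← Measure.prod_prod]
    exact (measure_mono hsub).trans hn.le
  have h2 : μ.real I * μ.real I ≤ η ^ 2 := by
    have h3 := ENNReal.toReal_mono ENNReal.ofReal_ne_top h1
    rw [ENNReal.toReal_mul, ENNReal.toReal_ofReal (by positivity)] at h3
    exact h3
  have h4 : 0 ≤ μ.real I := measureReal_nonneg
  nlinarith

lemma kernel_int (μ : Measure ℝ) [IsFiniteMeasure μ] (r : ℝ) (hr : 0 < r) (α : ℂ) :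
    Integrable (fun x : ℝ => r / (r + ‖(x : ℂ) - α‖)) μ := by
  refine Integrable.mono' (integrable_const (1 : ℝ)) ?_ ?_
  · have : Measurable (fun x : ℝ => r / (r + ‖(x : ℂ) - α‖)) := by fun_prop
    exact this.aestronglyMeasurable
  · refine Filter.Eventually.of_forall fun x => ?_
    rw [Real.norm_eq_abs, abs_of_nonneg (by positivity), div_le_one (by positivity)]
    have := norm_nonneg ((x : ℂ) - α)
    linarith

lemma omega_small (μ : Measure ℝ) [IsProbabilityMeasure μ]
    (hdiag : (μ.prod μ) {p | p.1 = p.2} = 0) (η : ℝ) (hη : 0 < η) :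
    ∃ r₀ : ℝ, 0 < r₀ ∧ ∀ r, 0 < r → r ≤ r₀ → ∀ α : ℂ,
      ∫ x : ℝ, r / (r + ‖(x : ℂ) - α‖) ∂μ ≤ η := by
  obtain ⟨ρ, hρ, hball⟩ := small_balls μ hdiag (η / 2) (by positivity)
  refine ⟨η * ρ / 2, by positivity, fun r hr hr0 α => ?_⟩
  set I := Icc (α.re - ρ) (α.re + ρ) with hI
  have hpt : ∀ x : ℝ, r / (r + ‖(x : ℂ) - α‖) ≤ I.indicator (fun _ => (1 : ℝ)) x + η / 2 := by
    intro x
    by_cases hx : x ∈ I
    · rw [indicator_of_mem hx]
      have : r / (r + ‖(x : ℂ) - α‖) ≤ 1 := by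
        rw [div_le_one (by positivity)]
        have := norm_nonneg ((x : ℂ) - α)
        linarith
      linarith
    · rw [indicator_of_notMem hx, zero_add]
      have h1 : ρ ≤ ‖(x : ℂ) - α‖ := by
        have h2 := Complex.abs_re_le_norm ((x : ℂ) - α)
        have h3 : ((x : ℂ) - α).re = x - α.re := by simp
        rw [h3] at h2
        refine le_trans ?_ h2
        by_contra hlt
        push Not at hlt
        rw [abs_lt] at hlt
        apply hx
        simp only [hI, mem_Icc]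
        constructor <;> linarith [hlt.1, hlt.2]
      rw [div_le_div_iff₀ (by positivity) (by norm_num)]
      nlinarith
  have hind : Integrable (I.indicator (fun _ => (1 : ℝ))) μ :=
    (integrable_const (1 : ℝ)).indicator measurableSet_Icc
  calc (∫ x : ℝ, r / (r + ‖(x : ℂ) - α‖) ∂μ)
      ≤ ∫ x : ℝ, (I.indicator (fun _ => (1 : ℝ)) x + η / 2) ∂μ :=
        integral_mono (kernel_int μ r hr α) (hind.add (integrable_const _)) hpt
    _ = μ.real I + η / 2 := by
        rw [integral_add hind (integrable_const _), integral_indicator measurableSet_Icc]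
        simp [hI]
    _ ≤ η := by linarith [hball α.re]

lemma Rsum_int (μ : Measure ℝ) [IsFiniteMeasure μ] (r : ℝ) (hr : 0 < r) (s : Multiset ℂ) :
    Integrable (Rsum r s) μ := by
  induction s using Multiset.induction_on with
  | empty =>
    have : Rsum r 0 = fun _ => (0 : ℝ) := by funext x; simp
    rw [this]
    simp
  | cons c s ih =>
    have : Rsum r (c ::ₘ s) = fun x : ℝ => r / (r + ‖(x : ℂ) - c‖) + Rsum r s x := by
      funext x; simp
    rw [this]
    exact (kernel_int μ r hr c).add ih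

lemma Rsum_le (μ : Measure ℝ) [IsFiniteMeasure μ] (r : ℝ) (hr : 0 < r) (η : ℝ)
    (h : ∀ α : ℂ, ∫ x : ℝ, r / (r + ‖(x : ℂ) - α‖) ∂μ ≤ η) (s : Multiset ℂ) :
    ∫ x, Rsum r s x ∂μ ≤ (Multiset.card s) * η := by
  induction s using Multiset.induction_on with
  | empty => simp
  | cons c s ih =>
    simp only [Rsum_cons, Multiset.card_cons]
    rw [integral_add (kernel_int μ r hr c) (Rsum_int μ r hr s)]
    push_cast
    linarith [h c]

/-! ### the measures -/

/-- the uniform distribution on `(0,L]` -/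
noncomputable def unif (L : ℝ) : Measure ℝ :=
  (ENNReal.ofReal L)⁻¹ • volume.restrict (Ioc 0 L)

lemma unif_prob (L : ℝ) (hL : 0 < L) : IsProbabilityMeasure (unif L) := by
  constructor
  unfold unif
  rw [Measure.smul_apply, Measure.restrict_apply MeasurableSet.univ, univ_inter, Real.volume_Ioc,
    sub_zero, smul_eq_mul]
  exact ENNReal.inv_mul_cancel (by simpa using hL) ENNReal.ofReal_ne_top

lemma unif_integral (L : ℝ) (hL : 0 < L) (f : ℝ → ℝ) :
    L * ∫ x, f x ∂(unif L) = ∫ x in (0 : ℝ)..L, f x := by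
  unfold unif
  rw [integral_smul_measure, intervalIntegral.integral_of_le hL.le, ENNReal.toReal_inv,
    ENNReal.toReal_ofReal hL.le, smul_eq_mul, ← mul_assoc, mul_inv_cancel₀ hL.ne', one_mul]

lemma unif_integrable (L : ℝ) (hL : 0 < L) (f : ℝ → ℝ) (hf : IntervalIntegrable f volume 0 L) :
    Integrable f (unif L) := by
  unfold unif
  refine Integrable.smul_measure ?_ ?_
  · exact (intervalIntegrable_iff_integrableOn_Ioc_of_le hL.le).mp hf
  · simpa using hL

lemma unif_le (L : ℝ) : unif L ≤ (ENNReal.ofReal L)⁻¹ • volume := by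
  unfold unif
  gcongr
  exact Measure.restrict_le_self

/-- the convolution of `μ` with the uniform distribution -/
noncomputable def smooth (μ : Measure ℝ) (L : ℝ) : Measure ℝ :=
  (μ.prod (unif L)).map (fun p => p.1 + p.2)

lemma smooth_prob (μ : Measure ℝ) [IsProbabilityMeasure μ] (L : ℝ) (hL : 0 < L) :
    IsProbabilityMeasure (smooth μ L) := by
  have := unif_prob L hL
  exact Measure.isProbabilityMeasure_map (by fun_prop)

lemma smooth_le (μ : Measure ℝ) [IsProbabilityMeasure μ] (L : ℝ) (hL : 0 < L) :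
    smooth μ L ≤ (ENNReal.ofReal L)⁻¹ • volume := by
  have := unif_prob L hL
  rw [Measure.le_iff]
  intro S hS
  unfold smooth
  rw [Measure.map_apply (by fun_prop) hS, Measure.prod_apply ((by fun_prop :
    Measurable (fun p : ℝ × ℝ => p.1 + p.2)) hS)]
  calc (∫⁻ x, (unif L) (Prod.mk x ⁻¹' ((fun p : ℝ × ℝ => p.1 + p.2) ⁻¹' S)) ∂μ)
      ≤ ∫⁻ x, ((ENNReal.ofReal L)⁻¹ • (volume : Measure ℝ)) S ∂μ := by
        refine lintegral_mono fun x => ?_
        refine (Measure.le_iff'.mp (unif_le L) _).trans ?_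
        rw [Measure.smul_apply, Measure.smul_apply]
        have : Prod.mk x ⁻¹' ((fun p : ℝ × ℝ => p.1 + p.2) ⁻¹' S) = (fun y => x + y) ⁻¹' S := rfl
        rw [this, measure_preimage_add]
    _ = ((ENNReal.ofReal L)⁻¹ • (volume : Measure ℝ)) S := by simp

lemma smooth_supp (μ : Measure ℝ) [IsProbabilityMeasure μ] (A L : ℝ) (hL : 0 < L)
    (hsupp : μ (Icc 0 A)ᶜ = 0) : smooth μ L (Icc 0 (A + L))ᶜ = 0 := by
  have := unif_prob L hL
  unfold smooth
  rw [Measure.map_apply (by fun_prop) measurableSet_Icc.compl]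
  have h1 : ∀ᵐ x ∂μ, x ∈ Icc 0 A := by
    rw [ae_iff]; exact hsupp
  have h2 : ∀ᵐ y ∂(unif L), y ∈ Ioc 0 L := by
    unfold unif
    exact Measure.ae_smul_measure (ae_restrict_mem measurableSet_Ioc) _
  have h3 : ∀ᵐ p ∂(μ.prod (unif L)), p.1 ∈ Icc 0 A := Measure.quasiMeasurePreserving_fst.ae h1
  have h4 : ∀ᵐ p ∂(μ.prod (unif L)), p.2 ∈ Ioc 0 L := Measure.quasiMeasurePreserving_snd.ae h2
  have h5 : ∀ᵐ p ∂(μ.prod (unif L)), p.1 + p.2 ∈ Icc 0 (A + L) := by
    filter_upwards [h3, h4] with p hp hq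
    constructor <;> linarith [hp.1, hp.2, hq.1, hq.2]
  rw [ae_iff] at h5
  exact h5

lemma ii_logQ (Q : ℤ[X]) (a b : ℝ) :
    IntervalIntegrable (fun x : ℝ => Real.log |aeval x Q|) volume a b := by
  have h : AnalyticOnNhd ℝ (fun x : ℝ => aeval x Q) univ := 
    analyticOnNhd_id.aeval_polynomial Q
  have h2 : MeromorphicOn (fun x : ℝ => aeval x Q) (uIcc a b) :=
    fun x _ => (h x (mem_univ x)).meromorphicAt
  exact h2.intervalIntegrable_log_norm

lemma zero_set_null (Q : ℤ[X]) (hQ : Q ≠ 0) : volume {x : ℝ | aeval x Q = 0} = 0 := by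
  have h1 : {x : ℝ | aeval x Q = 0} ⊆ Q.rootSet ℝ := by
    intro x hx
    rw [mem_rootSet]
    exact ⟨hQ, hx⟩
  exact measure_mono_null h1 ((Q.rootSet_finite ℝ).measure_zero _)

lemma ae_logQ (Q : ℤ[X]) (hQ : Q ≠ 0) :
    ∀ᵐ x : ℝ, Real.log |aeval x Q| = Real.log |(Q.leadingCoeff : ℝ)| + Lsum (Q.aroots ℂ) x := by
  have h1 : ∀ᵐ x : ℝ, ¬ (aeval x Q = 0) := by
    rw [ae_iff]
    simpa using zero_set_null Q hQ
  filter_upwards [h1] with x hx
  exact log_aeval Q hQ x hx

lemma int_of_le (ν : Measure ℝ) (c : ENNReal) (hc : c ≠ ⊤) (h : ν ≤ c • volume) (M : ℝ)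
    (hM : 0 ≤ M) (hs : ν (Icc 0 M)ᶜ = 0) (f : ℝ → ℝ) (hf : IntervalIntegrable f volume 0 M) :
    Integrable f ν := by
  have h0 : ∀ᵐ x ∂ν, x ∈ Icc 0 M := by
    rw [ae_iff]; exact hs
  have h1 : ν = ν.restrict (Icc 0 M) := (Measure.restrict_eq_self_of_ae_mem h0).symm
  rw [h1]
  have h2 : Integrable f (volume.restrict (Icc 0 M)) :=
    (intervalIntegrable_iff_integrableOn_Icc_of_le hM).mp hf
  refine Integrable.mono_measure (h2.smul_measure hc) ?_
  rw [← Measure.restrict_smul]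
  exact Measure.restrict_mono le_rfl h

lemma unif_logQ (M : ℝ) (hM : 100 ≤ M) (Q : ℤ[X]) (hQ : Q ≠ 0) :
    (Multiset.card (Q.aroots ℂ) : ℝ) ≤ ∫ x, Real.log |aeval x Q| ∂(unif M) := by
  have hM0 : 0 < M := by linarith
  have h1 := unif_integral M hM0 (fun x => Real.log |aeval x Q|)
  have h2 : (∫ x in (0 : ℝ)..M, Real.log |aeval x Q|) =
      ∫ x in (0 : ℝ)..M, (Real.log |(Q.leadingCoeff : ℝ)| + Lsum (Q.aroots ℂ) x) := by
    refine intervalIntegral.integral_congr_ae ?_
    filter_upwards [ae_logQ Q hQ] with x hx _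
    exact hx
  rw [intervalIntegral.integral_add (by simp) (ii_Lsum _ _ _), intervalIntegral.integral_const,
    smul_eq_mul, sub_zero] at h2
  have h3 := avg_Lsum M hM0 (Q.aroots ℂ)
  have h4 := lc_nonneg Q hQ
  have h5 : 2 ≤ Real.log (M / 2) := by
    rw [Real.le_log_iff_exp_le (by positivity)]
    have : Real.exp 2 = Real.exp 1 * Real.exp 1 := by rw [← Real.exp_add]; norm_num
    have h6 := Real.exp_one_lt_d9
    have h7 := Real.exp_pos 1
    nlinarith
  have h8 : (0 : ℝ) ≤ Multiset.card (Q.aroots ℂ) := by positivity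
  have h9 : M * (Multiset.card (Q.aroots ℂ) : ℝ) ≤ M * ∫ x, Real.log |aeval x Q| ∂(unif M) := by
    rw [h1, h2]
    have h10 : M * (Multiset.card (Q.aroots ℂ) : ℝ) ≤
        M * ((Multiset.card (Q.aroots ℂ)) * (Real.log (M / 2) - 1)) := by
      refine mul_le_mul_of_nonneg_left ?_ hM0.le
      nlinarith
    have h11 : 0 ≤ M * Real.log |(Q.leadingCoeff : ℝ)| := mul_nonneg hM0.le h4
    linarith
  exact le_of_mul_le_mul_left h9 hM0

lemma smooth_integral (μ : Measure ℝ) [IsProbabilityMeasure μ] (L : ℝ) (hL : 0 < L) (f : ℝ → ℝ)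
    (hf : Integrable f (smooth μ L)) :
    Integrable (fun x => ∫ s, f (x + s) ∂(unif L)) μ ∧
    ∫ x, f x ∂(smooth μ L) = ∫ x, ∫ s, f (x + s) ∂(unif L) ∂μ := by
  have := unif_prob L hL
  have hm : AEMeasurable (fun p : ℝ × ℝ => p.1 + p.2) (μ.prod (unif L)) := by fun_prop
  have h1 : Integrable (fun p : ℝ × ℝ => f (p.1 + p.2)) (μ.prod (unif L)) :=
    (integrable_map_measure hf.aestronglyMeasurable hm).mp hf
  refine ⟨h1.integral_prod_left, ?_⟩
  unfold smooth
  rw [integral_map hm hf.aestronglyMeasurable]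
  exact integral_prod (fun p : ℝ × ℝ => f (p.1 + p.2)) h1

lemma smooth_logQ (μ : Measure ℝ) [IsProbabilityMeasure μ] (harith : IsArith μ) (r : ℝ)
    (hr : 0 < r) (η : ℝ) (hη : ∀ α : ℂ, ∫ x : ℝ, r / (r + ‖(x : ℂ) - α‖) ∂μ ≤ η)
    (Q : ℤ[X]) (hQ : Q ≠ 0)
    (hint : Integrable (fun x => Real.log |aeval x Q|) (smooth μ (2 * r))) :
    -(15 * ((Multiset.card (Q.aroots ℂ)) * η)) ≤
      ∫ x, Real.log |aeval x Q| ∂(smooth μ (2 * r)) := by
  obtain ⟨hi, he⟩ := smooth_integral μ (2 * r) (by positivity) _ hint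
  rw [he]
  obtain ⟨hz, hQi, hQp⟩ := harith Q hQ
  have hnz : ∀ᵐ x ∂μ, ¬ (aeval x Q = 0) := by
    rw [ae_iff]
    simpa using hz
  have hpt : ∀ᵐ x ∂μ, Real.log |aeval x Q| - 15 * Rsum r (Q.aroots ℂ) x ≤
      ∫ s, Real.log |aeval (x + s) Q| ∂(unif (2 * r)) := by
    filter_upwards [hnz] with x hx
    have h1 := unif_integral (2 * r) (by positivity) (fun s => Real.log |aeval (x + s) Q|)
    have h2 : (∫ s in (0 : ℝ)..(2 * r), Real.log |aeval (x + s) Q|) =
        ∫ s in (0 : ℝ)..(2 * r), (Real.log |(Q.leadingCoeff : ℝ)| +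
          Lsum (Q.aroots ℂ) (x + s)) := by
      refine intervalIntegral.integral_congr_ae ?_
      have h3 := (measurePreserving_add_left volume x).quasiMeasurePreserving.ae (ae_logQ Q hQ)
      filter_upwards [h3] with s hs _
      exact hs
    have h4 : IntervalIntegrable (fun t : ℝ => Lsum (Q.aroots ℂ) (x + t)) volume 0 (2 * r) := by
      have := (ii_Lsum (Q.aroots ℂ) x (x + 2 * r)).comp_add_left x
      simpa using this
    rw [intervalIntegral.integral_add (by simp) h4, intervalIntegral.integral_const,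
      smul_eq_mul, sub_zero] at h2
    have h5 := avg_Lsum_shift r hr (Q.aroots ℂ) x (ne_root Q x hx)
    have h6 := log_aeval Q hQ x hx
    have h7 : 2 * r * (Real.log |aeval x Q| - 15 * Rsum r (Q.aroots ℂ) x) ≤
        2 * r * ∫ s, Real.log |aeval (x + s) Q| ∂(unif (2 * r)) := by
      rw [h1, h2, h6]
      linarith
    exact le_of_mul_le_mul_left h7 (by positivity)
  have hRi := Rsum_int μ r hr (Q.aroots ℂ)
  have hmono := integral_mono_ae (hQi.sub (hRi.const_mul 15)) hi hpt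
  have hRle := Rsum_le μ r hr η hη (Q.aroots ℂ)
  have heq : (∫ x, (Real.log |aeval x Q| - 15 * Rsum r (Q.aroots ℂ) x) ∂μ) =
      (∫ x, Real.log |aeval x Q| ∂μ) - 15 * ∫ x, Rsum r (Q.aroots ℂ) x ∂μ := by
    rw [integral_sub hQi (hRi.const_mul 15), integral_const_mul]
  have hmono' : (∫ x, (Real.log |aeval x Q| - 15 * Rsum r (Q.aroots ℂ) x) ∂μ) ≤
      ∫ x, ∫ s, Real.log |aeval (x + s) Q| ∂(unif (2 * r)) ∂μ := hmono
  rw [heq] at hmono'
  linarith

lemma ii_id (a b : ℝ) : IntervalIntegrable (fun x : ℝ => x) volume a b :=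
  continuous_id.intervalIntegrable a b

lemma unif_mean (L : ℝ) (hL : 0 < L) : ∫ x, x ∂(unif L) = L / 2 := by
  have h1 := unif_integral L hL (fun x => x)
  rw [integral_id] at h1
  have h2 : L * ∫ x, x ∂(unif L) = L * (L / 2) := by rw [h1]; ring
  exact mul_left_cancel₀ hL.ne' h2

lemma smooth_mean (μ : Measure ℝ) [IsProbabilityMeasure μ] (L : ℝ) (hL : 0 < L)
    (hμ : Integrable (fun x : ℝ => x) μ) (hf : Integrable (fun x : ℝ => x) (smooth μ L)) :
    ∫ x, x ∂(smooth μ L) = (∫ x, x ∂μ) + L / 2 := by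
  have := unif_prob L hL
  rw [(smooth_integral μ L hL _ hf).2]
  have h1 : ∀ x : ℝ, (∫ s, (x + s) ∂(unif L)) = x + L / 2 := by
    intro x
    rw [integral_add (integrable_const _) (unif_integrable L hL _ (ii_id _ _)), unif_mean L hL]
    simp
  simp_rw [h1]
  rw [integral_add hμ (integrable_const _)]
  simp

end Regularise

open Regularise in
/-- regularisation of an arithmetic measure -/
theorem regularise (A M : ℝ) (hA : 0 ≤ A) (hM : A + 1 ≤ M) (hM2 : 100 ≤ M) (μ : Measure ℝ)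
    [IsProbabilityMeasure μ] (hsupp : μ (Icc 0 A)ᶜ = 0) (harith : IsArith μ)
    (henergy : Integrable (fun p : ℝ × ℝ => Real.log |p.1 - p.2|) (μ.prod μ))
    (hdiag : (μ.prod μ) {p | p.1 = p.2} = 0) (ε : ℝ) (hε : 0 < ε) :
    ∃ (Cf : ℝ) (μ' : Measure ℝ), 1 ≤ Cf ∧ Reg M Cf μ' ∧ IsArith μ' ∧
      ∫ x, x ∂μ' ≤ (∫ x, x ∂μ) + ε := by
  have hM0 : 0 < M := by linarith
  set δ : ℝ := min 1 (ε / M) with hδ
  have hδ0 : 0 < δ := lt_min one_pos (by positivity)
  have hδ1 : δ ≤ 1 := min_le_left _ _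
  have hδ2 : δ * M ≤ ε := by
    have := min_le_right 1 (ε / M)
    rwa [← hδ, le_div_iff₀ hM0] at this
  obtain ⟨r₀, hr₀, hom⟩ := omega_small μ hdiag (δ / 15) (by positivity)
  set r : ℝ := min r₀ (min (1 / 2) (ε / 2)) with hr
  have hr0 : 0 < r := lt_min hr₀ (lt_min (by norm_num) (by positivity))
  have hr1 : r ≤ r₀ := min_le_left _ _
  have hr2 : r ≤ 1 / 2 := (min_le_right _ _).trans (min_le_left _ _)
  have hr3 : r ≤ ε / 2 := (min_le_right _ _).trans (min_le_right _ _)
  have hη := hom r hr0 hr1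
  have hL : 0 < 2 * r := by positivity
  have hp1 := smooth_prob μ (2 * r) hL
  have hp2 := unif_prob M hM0
  have hs1 : smooth μ (2 * r) (Icc 0 M)ᶜ = 0 := by
    refine measure_mono_null ?_ (smooth_supp μ A (2 * r) hL hsupp)
    apply compl_subset_compl.mpr
    exact Icc_subset_Icc_right (by linarith)
  have hs2 : unif M (Icc 0 M)ᶜ = 0 := by
    unfold unif
    rw [Measure.smul_apply, Measure.restrict_apply measurableSet_Icc.compl]
    have : (Icc 0 M)ᶜ ∩ Ioc 0 M = ∅ := by
      ext x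
      simp only [mem_inter_iff, mem_compl_iff, mem_Icc, mem_Ioc, mem_empty_iff_false, iff_false]
      rintro ⟨h1, h2, h3⟩
      exact h1 ⟨h2.le, h3⟩
    rw [this]
    simp
  have hl1 := smooth_le μ (2 * r) hL
  have hl2 := unif_le M
  have hc1 : (ENNReal.ofReal (2 * r))⁻¹ ≠ ⊤ := by simpa using hr0
  have hc2 : (ENNReal.ofReal M)⁻¹ ≠ ⊤ := by simpa using hM0
  have hI1 : ∀ f : ℝ → ℝ, IntervalIntegrable f volume 0 M → Integrable f (smooth μ (2 * r)) :=
    fun f hf => int_of_le _ _ hc1 hl1 M hM0.le hs1 f hf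
  have hI2 : ∀ f : ℝ → ℝ, IntervalIntegrable f volume 0 M → Integrable f (unif M) :=
    fun f hf => unif_integrable M hM0 f hf
  set μ' : Measure ℝ := ENNReal.ofReal (1 - δ) • smooth μ (2 * r) + ENNReal.ofReal δ • unif M
    with hμ'
  have hint : ∀ f : ℝ → ℝ, IntervalIntegrable f volume 0 M → Integrable f μ' ∧
      ∫ x, f x ∂μ' = (1 - δ) * (∫ x, f x ∂(smooth μ (2 * r))) + δ * ∫ x, f x ∂(unif M) := by
    intro f hf
    have i1 := (hI1 f hf).smul_measure (c := ENNReal.ofReal (1 - δ)) ENNReal.ofReal_ne_top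
    have i2 := (hI2 f hf).smul_measure (c := ENNReal.ofReal δ) ENNReal.ofReal_ne_top
    refine ⟨i1.add_measure i2, ?_⟩
    rw [hμ', integral_add_measure i1 i2, integral_smul_measure, integral_smul_measure,
      ENNReal.toReal_ofReal (by linarith), ENNReal.toReal_ofReal hδ0.le, smul_eq_mul, smul_eq_mul]
  have hnull : ∀ S : Set ℝ, smooth μ (2 * r) S = 0 → unif M S = 0 → μ' S = 0 := by
    intro S h1 h2
    rw [hμ', Measure.add_apply, Measure.smul_apply, Measure.smul_apply, h1, h2]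
    simp
  refine ⟨1 / (2 * r) + 1 / M + 1, μ', ?_, ⟨?_, ?_, ?_⟩, ?_, ?_⟩
  · have h1 : 0 < 1 / (2 * r) := by positivity
    have h2 : 0 < 1 / M := by positivity
    linarith
  · constructor
    rw [hμ', Measure.add_apply, Measure.smul_apply, Measure.smul_apply, measure_univ,
      measure_univ, smul_eq_mul, smul_eq_mul, mul_one, mul_one, ← ENNReal.ofReal_add (by linarith)
      hδ0.le]
    simp
  · exact hnull _ hs1 hs2
  · intro a b hab
    have e1 : smooth μ (2 * r) (Icc a b) ≤ ENNReal.ofReal (1 / (2 * r)) *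
        ENNReal.ofReal (b - a) := by
      have := Measure.le_iff'.mp hl1 (Icc a b)
      rw [Measure.smul_apply, Real.volume_Icc, smul_eq_mul, ← ENNReal.ofReal_inv_of_pos hL,
        ← one_div] at this
      exact this
    have e2 : unif M (Icc a b) ≤ ENNReal.ofReal (1 / M) * ENNReal.ofReal (b - a) := by
      have := Measure.le_iff'.mp hl2 (Icc a b)
      rw [Measure.smul_apply, Real.volume_Icc, smul_eq_mul, ← ENNReal.ofReal_inv_of_pos hM0,
        ← one_div] at this
      exact this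
    have d1 : ENNReal.ofReal (1 - δ) ≤ 1 := by
      rw [ENNReal.ofReal_le_one]; linarith
    have d2 : ENNReal.ofReal δ ≤ 1 := by
      rw [ENNReal.ofReal_le_one]; linarith
    rw [hμ', Measure.add_apply, Measure.smul_apply, Measure.smul_apply, smul_eq_mul, smul_eq_mul]
    calc ENNReal.ofReal (1 - δ) * smooth μ (2 * r) (Icc a b) + ENNReal.ofReal δ *
          unif M (Icc a b)
        ≤ 1 * (ENNReal.ofReal (1 / (2 * r)) * ENNReal.ofReal (b - a)) +
          1 * (ENNReal.ofReal (1 / M) * ENNReal.ofReal (b - a)) := by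
          gcongr
      _ = ENNReal.ofReal ((1 / (2 * r) + 1 / M) * (b - a)) := by
          rw [one_mul, one_mul, ← add_mul, ← ENNReal.ofReal_add (by positivity) (by positivity),
            ← ENNReal.ofReal_mul (by positivity)]
      _ ≤ ENNReal.ofReal ((1 / (2 * r) + 1 / M + 1) * (b - a)) := by
          apply ENNReal.ofReal_le_ofReal
          have : 0 ≤ b - a := by linarith
          nlinarith
  · intro Q hQ
    obtain ⟨j1, j2⟩ := hint _ (ii_logQ Q 0 M)
    refine ⟨?_, j1, ?_⟩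
    · apply hnull
      · have := Measure.le_iff'.mp hl1 {x : ℝ | aeval x Q = 0}
        rw [Measure.smul_apply, zero_set_null Q hQ] at this
        simpa using this
      · have := Measure.le_iff'.mp hl2 {x : ℝ | aeval x Q = 0}
        rw [Measure.smul_apply, zero_set_null Q hQ] at this
        simpa using this
    · rw [j2]
      have k1 := smooth_logQ μ harith r hr0 (δ / 15) hη Q hQ (hI1 _ (ii_logQ Q 0 M))
      have k2 := unif_logQ M hM2 Q hQ
      have k3 : (0 : ℝ) ≤ Multiset.card (Q.aroots ℂ) := by positivity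
      have k4 : -((Multiset.card (Q.aroots ℂ) : ℝ) * δ) ≤
          ∫ x, Real.log |aeval x Q| ∂(smooth μ (2 * r)) := by linarith
      have k5 := mul_le_mul_of_nonneg_left k4 (by linarith : 0 ≤ 1 - δ)
      have k6 := mul_le_mul_of_nonneg_left k2 hδ0.le
      have k7 : 0 ≤ (Multiset.card (Q.aroots ℂ) : ℝ) * δ := by positivity
      nlinarith
  · obtain ⟨-, j2⟩ := hint _ (ii_id 0 M)
    have hμi : Integrable (fun x : ℝ => x) μ := by
      have h0 : ∀ᵐ x ∂μ, x ∈ Icc 0 A := by
        rw [ae_iff]; exact hsupp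
      refine Integrable.mono' (integrable_const A) (by fun_prop) ?_
      filter_upwards [h0] with x hx
      rw [Real.norm_eq_abs, abs_of_nonneg hx.1]
      exact hx.2
    have hμn : 0 ≤ ∫ x, x ∂μ := by
      have h0 : ∀ᵐ x ∂μ, x ∈ Icc 0 A := by
        rw [ae_iff]; exact hsupp
      refine integral_nonneg_of_ae ?_
      filter_upwards [h0] with x hx
      exact hx.1
    rw [j2, smooth_mean μ (2 * r) hL hμi (hI1 _ (ii_id 0 M)), unif_mean M hM0]
    have : (1 - δ) * ((∫ x, x ∂μ) + 2 * r / 2) ≤ (∫ x, x ∂μ) + r := by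
      have e : 2 * r / 2 = r := by ring
      rw [e]
      nlinarith
    nlinarith

end Pool.Agent.TraceMin
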