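/-
Module T25 (helper86): Smyth's auxiliary function argument.
-/
import Pool.Agent.TraceMin.Defs3
import Pool.Agent.TraceMin.MainB
import Pool.Agent.TraceMin.Regular
import Pool.Agent.TraceMin.Discr

open MeasureTheory Polynomial Set

namespace Pool.Agent.TraceMin

namespace Smyth

/-- statement of T21 -/
def MassHyp : Prop := ∀ (R l ε : ℝ), 9 ≤ R → 0 ≤ l → ε ≤ 1 → ∀ (S : Finset ℤ[X]) (a : ℤ[X] → ℝ),
    Cert R l ε S a →
    ∑ Q ∈ S, a Q * (Real.log (Q.leadingCoeff : ℝ) + ∑ α ∈ Zf Q, (1 + plog α)) ≤ 100 ∧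
      l ≤ 64 / 3 + ε

lemma Lsum_eq (Q : ℤ[X]) (h : Irreducible Q ∧ 0 < Q.natDegree ∧ 0 < Q.leadingCoeff) (y : ℝ) :
    Regularise.Lsum (Q.aroots ℂ) y = ∑ α ∈ Zf Q, Real.log ‖(y : ℂ) - α‖ := by
  have hnd : (Q.aroots ℂ).Nodup := by
    have := prod_aroots_nodup {Q} (by simpa using h)
    simpa using this
  rw [Regularise.Lsum, Finset.sum, Zf, Multiset.toFinset_val, hnd.dedup]

lemma log_le (Q : ℤ[X]) (h : Irreducible Q ∧ 0 < Q.natDegree ∧ 0 < Q.leadingCoeff) (y : ℝ)
    (hy : 2 ≤ |y|) (h0 : aeval y Q ≠ 0) :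
    Real.log |aeval y Q| ≤ Real.log (2 * |y|) *
      (Real.log (Q.leadingCoeff : ℝ) + ∑ α ∈ Zf Q, (1 + plog α)) := by
  have hQ0 : Q ≠ 0 := h.1.ne_zero
  have hlc : |(Q.leadingCoeff : ℝ)| = (Q.leadingCoeff : ℝ) := abs_of_pos (by exact_mod_cast h.2.2)
  have hlog1 : 1 ≤ Real.log (2 * |y|) := by
    rw [Real.le_log_iff_exp_le (by positivity)]
    have := Real.exp_one_lt_d9
    linarith
  have hlc0 : 0 ≤ Real.log (Q.leadingCoeff : ℝ) := by
    rw [← hlc]; exact Regularise.lc_nonneg Q hQ0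
  rw [Regularise.log_aeval Q hQ0 y h0, hlc, Lsum_eq Q h, mul_add, Finset.mul_sum]
  apply add_le_add
  · nlinarith
  · apply Finset.sum_le_sum
    intro α _
    have hp := plog_nonneg α
    have h1 : Real.log ‖(y : ℂ) - α‖ ≤ Real.log (2 * |y|) + plog α := by
      rcases eq_or_ne ((y : ℂ) - α) 0 with h2 | h2
      · rw [h2, norm_zero, Real.log_zero]; linarith
      · have h3 : ‖(y : ℂ) - α‖ ≤ 2 * |y| * Real.exp (plog α) := by
          have e1 := le_exp_plog α
          have e2 := one_le_exp_plog α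
          have e3 : ‖(y : ℂ) - α‖ ≤ ‖(y : ℂ)‖ + ‖α‖ := norm_sub_le _ _
          rw [Complex.norm_real, Real.norm_eq_abs] at e3
          nlinarith [abs_nonneg y]
        calc Real.log ‖(y : ℂ) - α‖ ≤ Real.log (2 * |y| * Real.exp (plog α)) :=
              Real.log_le_log (norm_pos_iff.mpr h2) h3
          _ = _ := by rw [Real.log_mul (by positivity) (Real.exp_ne_zero _), Real.log_exp]
    nlinarith

lemma log_quad (y : ℝ) (hy : 40 ≤ |y|) : 100 * Real.log (2 * |y|) ≤ y ^ 2 - 64 / 3 := by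
  have h1 : Real.log (2 * |y|) = Real.log 80 + Real.log (|y| / 40) := by
    rw [← Real.log_mul (by norm_num) (by positivity)]
    congr 1; ring
  have h2 : Real.log (|y| / 40) ≤ |y| / 40 - 1 := Real.log_le_sub_one_of_pos (by positivity)
  have h3 : Real.log 80 ≤ 5 := by
    rw [Real.log_le_iff_le_exp (by norm_num)]
    have e1 : Real.exp 5 = Real.exp 1 ^ 5 := by rw [← Real.exp_nat_mul]; norm_num
    have e2 := Real.exp_one_gt_d9
    have e3 : (2.7 : ℝ) ^ 5 ≤ Real.exp 1 ^ 5 := pow_le_pow_left₀ (by norm_num) (by linarith) 5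
    rw [e1]
    norm_num at e3 ⊢
    linarith
  rw [← sq_abs y]
  nlinarith

/-- certificates extend to the whole line -/
lemma cert_all (hMB : MassHyp) (R l ε : ℝ) (hR : 40 ≤ R) (hl : 0 ≤ l) (hε : ε ≤ 1) (S : Finset ℤ[X])
    (a : ℤ[X] → ℝ) (h : Cert R l ε S a) (y : ℝ) (hy : ∀ Q ∈ S, aeval y Q ≠ 0) :
    ∑ Q ∈ S, a Q * Real.log |aeval y Q| ≤ y ^ 2 - l + ε := by
  by_cases hyR : y ∈ Icc (-R) R
  · exact h.2 y hyR hy
  · have hyabs : 40 ≤ |y| := by
      by_contra hcon
      push Not at hcon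
      apply hyR
      have := abs_le.mp (hcon.le.trans hR)
      exact this
    obtain ⟨h1, h2⟩ := hMB R l ε (by linarith) hl hε S a h
    have hlog0 : 0 ≤ Real.log (2 * |y|) := Real.log_nonneg (by linarith)
    calc ∑ Q ∈ S, a Q * Real.log |aeval y Q|
        ≤ ∑ Q ∈ S, a Q * (Real.log (2 * |y|) *
          (Real.log (Q.leadingCoeff : ℝ) + ∑ α ∈ Zf Q, (1 + plog α))) := by
          apply Finset.sum_le_sum
          intro Q hQ
          exact mul_le_mul_of_nonneg_left (log_le Q ⟨(h.1 Q hQ).1, (h.1 Q hQ).2.1, (h.1 Q hQ).2.2.1⟩ y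
            (by linarith) (hy Q hQ)) (h.1 Q hQ).2.2.2.le
      _ = Real.log (2 * |y|) * ∑ Q ∈ S, a Q *
          (Real.log (Q.leadingCoeff : ℝ) + ∑ α ∈ Zf Q, (1 + plog α)) := by
          rw [Finset.mul_sum]
          apply Finset.sum_congr rfl
          intro Q _
          ring
      _ ≤ Real.log (2 * |y|) * 100 := mul_le_mul_of_nonneg_left h1 hlog0
      _ ≤ y ^ 2 - 64 / 3 := by have := log_quad y hyabs; linarith
      _ ≤ _ := by linarith

/-- even-odd decomposition -/
lemma even_odd (Q : ℤ[X]) : ∃ A B : ℤ[X], Q = A.comp (X ^ 2) + X * B.comp (X ^ 2) := by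
  induction Q using Polynomial.induction_on' with
  | add p q hp hq =>
    obtain ⟨A, B, h1⟩ := hp
    obtain ⟨A', B', h2⟩ := hq
    exact ⟨A + A', B + B', by rw [h1, h2, add_comp, add_comp]; ring⟩
  | monomial n a =>
    rcases Nat.even_or_odd' n with ⟨k, hk | hk⟩
    · refine ⟨monomial k a, 0, ?_⟩
      rw [monomial_comp, zero_comp, mul_zero, add_zero, ← C_mul_X_pow_eq_monomial, hk, pow_mul]
    · refine ⟨0, monomial k a, ?_⟩
      rw [monomial_comp, zero_comp, zero_add, ← C_mul_X_pow_eq_monomial, hk, pow_succ, pow_mul]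
      ring

/-- `Q(y) Q(-y)` is an integer polynomial in `y²`. -/
lemma exists_sq (Q : ℤ[X]) (hQ : Q ≠ 0) : ∃ T : ℤ[X], T ≠ 0 ∧
    ∀ y : ℂ, aeval (y ^ 2) T = aeval y Q * aeval (-y) Q := by
  obtain ⟨A, B, h⟩ := even_odd Q
  have hev : ∀ y : ℂ, aeval y Q = aeval (y ^ 2) A + y * aeval (y ^ 2) B := by
    intro y
    rw [h]
    simp [aeval_comp]
  have key : ∀ y : ℂ, aeval (y ^ 2) (A ^ 2 - X * B ^ 2) = aeval y Q * aeval (-y) Q := by
    intro y
    rw [hev y, hev (-y)]
    simp only [map_sub, map_mul, map_pow, aeval_X, neg_sq]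
    ring
  refine ⟨A ^ 2 - X * B ^ 2, ?_, key⟩
  intro h0
  have h1 : ∀ y : ℂ, aeval y Q * aeval (-y) Q = 0 := by
    intro y
    rw [← key, h0, map_zero]
  have h2 : (Q.map (algebraMap ℤ ℂ)) * (Q.map (algebraMap ℤ ℂ)).comp (-X) = 0 := by
    apply Polynomial.funext
    intro y
    rw [eval_mul, eval_comp, eval_neg, eval_X, eval_zero, eval_map_algebraMap, eval_map_algebraMap]
    exact h1 y
  have hinj : Function.Injective (algebraMap ℤ ℂ) := RingHom.injective_int _
  have h3 : Q.map (algebraMap ℤ ℂ) ≠ 0 := (Polynomial.map_ne_zero_iff hinj).mpr hQ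
  rcases mul_eq_zero.mp h2 with h4 | h4
  · exact h3 h4
  · apply h3
    have h5 := congrArg (fun f : ℂ[X] => f.comp (-X)) h4
    simp only [comp_assoc, neg_comp, X_comp, neg_neg, comp_X, zero_comp] at h5
    exact h5

/-- the product of the values at the conjugates of an algebraic integer -/
lemma sum_log_nonneg (p T : ℤ[X]) (hp : p.Monic) (h0 : ∀ β ∈ p.aroots ℂ, aeval β T ≠ 0) :
    0 ≤ ((p.aroots ℂ).map fun β => Real.log ‖aeval β T‖).sum := by
  have hinj : Function.Injective (algebraMap ℤ ℂ) := RingHom.injective_int _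
  set f : ℂ[X] := p.map (algebraMap ℤ ℂ) with hf
  set g : ℂ[X] := T.map (algebraMap ℤ ℂ) with hg
  have hroots : p.aroots ℂ = f.roots := rfl
  have hres := resultant_eq_prod_eval f g g.natDegree le_rfl (IsAlgClosed.splits f)
  have hlc : f.leadingCoeff = 1 := hp.map _
  rw [hlc, one_pow, one_mul] at hres
  rw [hf, hg, resultant_map_map, ← hf, ← hg] at hres
  set N : ℤ := resultant p T f.natDegree g.natDegree with hN
  have hprod : (f.roots.map fun β => aeval β T).prod = (N : ℂ) := by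
    have : (f.roots.map fun β => aeval β T) = f.roots.map g.eval := by
      apply Multiset.map_congr rfl
      intro β _
      rw [hg, eval_map_algebraMap]
    rw [this, ← hres]
    rfl
  have hne : ∀ β ∈ f.roots, aeval β T ≠ 0 := h0
  have hlogs : ∀ s : Multiset ℂ, (∀ β ∈ s, aeval β T ≠ 0) →
      (s.map fun β => Real.log ‖aeval β T‖).sum = Real.log ‖(s.map fun β => aeval β T).prod‖ ∧
      (s.map fun β => aeval β T).prod ≠ 0 := by
    intro s
    induction s using Multiset.induction_on with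
    | empty => intro _; simp
    | cons b s ih =>
      intro hs
      have h1 := hs b (Multiset.mem_cons_self b s)
      obtain ⟨h2, h3⟩ := ih (fun β hβ => hs β (Multiset.mem_cons_of_mem hβ))
      rw [Multiset.map_cons, Multiset.sum_cons, Multiset.map_cons, Multiset.prod_cons, norm_mul,
        Real.log_mul (norm_ne_zero_iff.mpr h1) (norm_ne_zero_iff.mpr h3), h2]
      exact ⟨rfl, mul_ne_zero h1 h3⟩
  obtain ⟨h1, h2⟩ := hlogs f.roots hne
  rw [hroots, h1, hprod]
  apply Real.log_nonneg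
  rw [hprod] at h2
  have hN0 : N ≠ 0 := by
    intro h
    apply h2
    rw [h]; simp
  rw [Complex.norm_intCast]
  have : (1 : ℤ) ≤ |N| := Int.one_le_abs hN0
  exact_mod_cast this

/-- conjugates satisfy the same integral equations -/
lemma conj_root (α β : ℂ) (hα : IsIntegral ℤ α) (hβ : β ∈ (minpoly ℚ α).aroots ℂ) (T : ℤ[X])
    (h : aeval β T = 0) : aeval α T = 0 := by
  have hαQ : IsIntegral ℚ α := hα.tower_top
  have hmin : minpoly ℚ β = minpoly ℚ α := by
    rw [mem_aroots] at hβ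
    exact (minpoly.eq_of_irreducible_of_monic (minpoly.irreducible hαQ) hβ.2
      (minpoly.monic hαQ)).symm
  have h1 : aeval β (T.map (algebraMap ℤ ℚ)) = 0 := by
    rw [aeval_map_algebraMap]; exact h
  have h2 := minpoly.dvd ℚ β h1
  rw [hmin] at h2
  obtain ⟨q, hq⟩ := h2
  have h3 : aeval α (T.map (algebraMap ℤ ℚ)) = 0 := by
    rw [hq, map_mul, minpoly.aeval, zero_mul]
  rwa [aeval_map_algebraMap] at h3

theorem trace_lower_of (hMB : MassHyp) (R l : ℝ) (hR : 40 ≤ R) (hl : 0 ≤ l)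
    (hcert : ∀ ε > 0, ∃ (S : Finset ℤ[X]) (a : ℤ[X] → ℝ), Cert R l ε S a) (t : ℝ) (ht : t < l) :
    {α : ℂ | TotPos α ∧ normTrace α ≤ t}.Finite := by
  classical
  set ε : ℝ := min 1 ((l - t) / 2) with hε
  have hε0 : 0 < ε := lt_min one_pos (by linarith)
  have hε1 : ε ≤ 1 := min_le_left _ _
  have hε2 : ε ≤ (l - t) / 2 := min_le_right _ _
  obtain ⟨S, a, hS⟩ := hcert ε hε0
  have hcertall := cert_all hMB R l ε hR hl hε1 S a hS
  have hT : ∀ Q : ℤ[X], ∃ T : ℤ[X], Q ≠ 0 → T ≠ 0 ∧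
      ∀ y : ℂ, aeval (y ^ 2) T = aeval y Q * aeval (-y) Q := by
    intro Q
    by_cases hQ : Q = 0
    · exact ⟨0, fun h => absurd hQ h⟩
    · obtain ⟨T, h1, h2⟩ := exists_sq Q hQ
      exact ⟨T, fun _ => ⟨h1, h2⟩⟩
  choose T hT using hT
  have hQ0 : ∀ Q ∈ S, Q ≠ 0 := fun Q hQ => (hS.1 Q hQ).1.ne_zero
  have hfin : (⋃ Q ∈ S, {α : ℂ | aeval α (T Q) = 0}).Finite := by
    apply Set.Finite.biUnion S.finite_toSet
    intro Q hQ
    have h1 := (hT Q (hQ0 Q hQ)).1
    apply ((T Q).aroots ℂ).toFinset.finite_toSet.subset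
    intro α hα
    rw [Finset.mem_coe, Multiset.mem_toFinset, mem_aroots]
    exact ⟨h1, hα⟩
  apply hfin.subset
  rintro α ⟨⟨hint, hreal⟩, htr⟩
  by_contra hcon
  simp only [mem_iUnion, mem_ofPred_eq, exists_prop, not_exists, not_and] at hcon
  set s : Multiset ℂ := (minpoly ℚ α).aroots ℂ with hs
  have hαQ : IsIntegral ℚ α := hint.tower_top
  have hsp : s = (minpoly ℤ α).aroots ℂ := by
    rw [hs, minpoly.isIntegrallyClosed_eq_field_fractions' ℚ hint, aroots_def, aroots_def,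
      Polynomial.map_map]
    congr 2
  have hcard : Multiset.card s = (minpoly ℚ α).natDegree := by
    rw [hs, aroots_def]
    rw [← (IsAlgClosed.splits ((minpoly ℚ α).map (algebraMap ℚ ℂ))).natDegree_eq_card_roots,
      natDegree_map]
  have hn : 0 < (minpoly ℚ α).natDegree := minpoly.natDegree_pos hαQ
  have hne : ∀ Q ∈ S, ∀ β ∈ s, aeval β (T Q) ≠ 0 := fun Q hQ β hβ h0 =>
    hcon Q hQ (conj_root α β hint hβ (T Q) h0)
  -- the certificate at the square roots of the conjugates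
  have hpt : ∀ β ∈ s, ∑ Q ∈ S, a Q * Real.log ‖aeval β (T Q)‖ ≤ 2 * β.re - 2 * (l - ε) := by
    intro β hβ
    obtain ⟨him, hre⟩ := hreal β hβ
    set y : ℝ := Real.sqrt β.re with hy
    have hyβ : ((y : ℂ)) ^ 2 = β := by
      apply Complex.ext
      · rw [← Complex.ofReal_pow, Complex.ofReal_re, hy, Real.sq_sqrt hre]
      · rw [← Complex.ofReal_pow, Complex.ofReal_im, him]
    have hprod : ∀ Q ∈ S, aeval β (T Q) = aeval (y : ℂ) Q * aeval (-(y : ℂ)) Q := fun Q hQ => by
      rw [← hyβ]; exact (hT Q (hQ0 Q hQ)).2 y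
    have hny : ((-y : ℝ) : ℂ) = -(y : ℂ) := by push_cast; rfl
    have h1 : ∀ Q ∈ S, aeval y Q ≠ 0 ∧ aeval (-y) Q ≠ 0 := by
      intro Q hQ
      have h2 := hne Q hQ β hβ
      rw [hprod Q hQ] at h2
      constructor
      · intro h3
        apply h2
        have := Regularise.norm_aeval Q y
        rw [h3, abs_zero, norm_eq_zero] at this
        rw [this, zero_mul]
      · intro h3
        apply h2
        have := Regularise.norm_aeval Q (-y)
        rw [h3, abs_zero, norm_eq_zero, hny] at this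
        rw [this, mul_zero]
    have h2 := hcertall y (fun Q hQ => (h1 Q hQ).1)
    have h3 := hcertall (-y) (fun Q hQ => (h1 Q hQ).2)
    have h4 : ∑ Q ∈ S, a Q * Real.log ‖aeval β (T Q)‖ =
        ∑ Q ∈ S, a Q * Real.log |aeval y Q| + ∑ Q ∈ S, a Q * Real.log |aeval (-y) Q| := by
      rw [← Finset.sum_add_distrib]
      apply Finset.sum_congr rfl
      intro Q hQ
      rw [hprod Q hQ, norm_mul, Regularise.norm_aeval, ← hny, Regularise.norm_aeval,
        Real.log_mul (abs_ne_zero.mpr (h1 Q hQ).1) (abs_ne_zero.mpr (h1 Q hQ).2)]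
      ring
    have h5 : y ^ 2 = β.re := Real.sq_sqrt hre
    rw [h4]
    rw [neg_sq] at h3
    linarith
  -- sum over the conjugates
  have hsum : (s.map fun β => ∑ Q ∈ S, a Q * Real.log ‖aeval β (T Q)‖).sum ≤
      (s.map fun β => 2 * β.re - 2 * (l - ε)).sum := Multiset.sum_map_le_sum_map _ _ hpt
  have hlow : 0 ≤ (s.map fun β => ∑ Q ∈ S, a Q * Real.log ‖aeval β (T Q)‖).sum := by
    have h1 : (s.map fun β => ∑ Q ∈ S, a Q * Real.log ‖aeval β (T Q)‖).sum =
        ∑ Q ∈ S, a Q * (s.map fun β => Real.log ‖aeval β (T Q)‖).sum := by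
      have hsw : ∀ s' : Multiset ℂ, (s'.map fun β => ∑ Q ∈ S, a Q * Real.log ‖aeval β (T Q)‖).sum =
          ∑ Q ∈ S, a Q * (s'.map fun β => Real.log ‖aeval β (T Q)‖).sum := by
        intro s'
        induction s' using Multiset.induction_on with
        | empty => simp
        | cons b s' ih =>
          simp only [Multiset.map_cons, Multiset.sum_cons, ih, mul_add, Finset.sum_add_distrib]
      exact hsw s
    rw [h1]
    apply Finset.sum_nonneg
    intro Q hQ
    apply mul_nonneg (hS.1 Q hQ).2.2.2.le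
    rw [hsp]
    apply sum_log_nonneg _ _ (minpoly.monic hint)
    intro β hβ
    rw [← hsp] at hβ
    exact hne Q hQ β hβ
  have hup : (s.map fun β => 2 * β.re - 2 * (l - ε)).sum =
      2 * s.sum.re - 2 * (minpoly ℚ α).natDegree * (l - ε) := by
    rw [Multiset.sum_map_sub, Multiset.sum_map_mul_left]
    simp only [Multiset.map_const', Multiset.sum_replicate, hcard]
    have h1 : (s.map fun β => β.re).sum = s.sum.re := by
      have := map_multiset_sum Complex.reAddGroupHom s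
      simpa using this.symm
    rw [h1, nsmul_eq_mul]
    ring
  have hn' : (0 : ℝ) < (minpoly ℚ α).natDegree := by exact_mod_cast hn
  have htr2 : s.sum.re ≤ t * (minpoly ℚ α).natDegree := by
    have : s.sum.re / (minpoly ℚ α).natDegree ≤ t := htr
    rwa [div_le_iff₀ hn'] at this
  have hfinal : (l - ε - t) * (minpoly ℚ α).natDegree ≤ 0 := by nlinarith
  nlinarith [mul_pos (show 0 < l - ε - t by linarith) hn']

end Smyth

end Pool.Agent.TraceMin
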