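import Pool.Agent.TraceMin.SmithAux
import Pool.Agent.TraceMin.Cover
import Pool.Agent.TraceMin.DualNorm
import Pool.Agent.TraceMin.BuildF

/-!
Module T16: the trace form of the theorem of Smith.
-/

open MeasureTheory Polynomial Set

namespace Pool.Agent.TraceMin

theorem smith_trace (M Cf : ℝ) (hM : 100 ≤ M) (hCf : 1 ≤ Cf) (μ : Measure ℝ) (hμ : Reg M Cf μ)
    (harith : IsArith μ) (hI : 0 ≤ ∫ x, ∫ y, Real.log |x - y| ∂μ ∂μ) (ε : ℝ) (hε : 0 < ε) (n₁ : ℕ) :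
    ∃ P : ℤ[X], P.Monic ∧ Irreducible P ∧ n₁ ≤ P.natDegree ∧
      (∀ α ∈ P.aroots ℂ, α.im = 0 ∧ 0 ≤ α.re) ∧
      -(P.coeff (P.natDegree - 1) : ℝ) ≤ P.natDegree * ((∫ x, x ∂μ) + ε) :=
  smith_trace_of (fun n hn E _ _ _ b ρ hρ hdual x => covering_radius n hn E b ρ hρ hdual x) M hM μ
    (sm_mean_nonneg M Cf μ hμ) (dual_norm M Cf (by linarith) hCf μ hμ harith hI)
    (build_F M Cf (by linarith) hCf μ hμ) ε hε n₁

end Pool.Agent.TraceMin
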