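import Pool.Agent.TraceMin.Defs3
import Pool.Agent.TraceMin.EnergyE
import Pool.Agent.TraceMin.Regular
import Pool.Agent.TraceMin.Smith

/-!
Module T26: totally positive algebraic integers of small trace exist, in infinite number,
near the mean of any arithmetic measure.
-/

open MeasureTheory Polynomial Set Filter

namespace Pool.Agent.TraceMin

/-- a root of a monic irreducible integer polynomial of the right shape -/
theorem upper_root (P : ℤ[X]) (hP : P.Monic) (hirr : Irreducible P) (hdeg : 0 < P.natDegree)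
    (hroots : ∀ α ∈ P.aroots ℂ, α.im = 0 ∧ 0 ≤ α.re) (B : ℝ)
    (hB : -(P.coeff (P.natDegree - 1) : ℝ) ≤ P.natDegree * B) :
    ∃ α : ℂ, TotPos α ∧ normTrace α ≤ B ∧ (minpoly ℚ α).natDegree = P.natDegree := by
  classical
  have hQirr : Irreducible (P.map (Int.castRingHom ℚ)) := by
    have := (hP.irreducible_iff_irreducible_map_fraction_map (K := ℚ)).1 hirr
    simpa using this
  have hne : P ≠ 0 := hP.ne_zero
  have hdegC : (P.map (Int.castRingHom ℂ)).natDegree = P.natDegree := hP.natDegree_map _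
  have hex : ∃ α : ℂ, (P.map (Int.castRingHom ℂ)).IsRoot α := by
    apply IsAlgClosed.exists_root
    rw [Polynomial.degree_eq_natDegree (hP.map _).ne_zero, hdegC]
    exact_mod_cast hdeg.ne'
  obtain ⟨α, hα⟩ := hex
  have hαP : aeval α P = 0 := by
    rw [Polynomial.IsRoot.def, Polynomial.eval_map] at hα
    simpa [Polynomial.aeval_def] using hα
  have hmin : minpoly ℚ α = P.map (Int.castRingHom ℚ) := by
    symm
    apply minpoly.eq_of_irreducible_of_monic hQirr
    · rw [show (Int.castRingHom ℚ) = algebraMap ℤ ℚ from rfl, Polynomial.aeval_map_algebraMap]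
      exact hαP
    · exact hP.map _
  have har : (minpoly ℚ α).aroots ℂ = P.aroots ℂ := by
    rw [hmin, Polynomial.aroots_def, Polynomial.aroots_def, Polynomial.map_map]
    congr 2
  have hnd : (minpoly ℚ α).natDegree = P.natDegree := by
    rw [hmin]; exact hP.natDegree_map _
  refine ⟨α, ⟨⟨P, hP, ?_⟩, ?_⟩, ?_, hnd⟩
  · simpa [Polynomial.aeval_def] using hαP
  · rw [har]; exact hroots
  · unfold normTrace
    rw [har, hnd]
    have hsum : (P.aroots ℂ).sum = -((P.coeff (P.natDegree - 1) : ℤ) : ℂ) := by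
      have hm : (P.map (algebraMap ℤ ℂ)).Monic := hP.map _
      have hsp : (P.map (algebraMap ℤ ℂ)).Splits := IsAlgClosed.splits _
      have h := hsp.nextCoeff_eq_neg_sum_roots_of_monic hm
      have hnc : (P.map (algebraMap ℤ ℂ)).nextCoeff = ((P.coeff (P.natDegree - 1) : ℤ) : ℂ) := by
        have hd : (P.map (algebraMap ℤ ℂ)).natDegree = P.natDegree := hP.natDegree_map _
        rw [Polynomial.nextCoeff_of_natDegree_pos (by omega), hd, Polynomial.coeff_map]
        simp
      rw [hnc] at h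
      rw [Polynomial.aroots_def, h, neg_neg]
    rw [hsum, div_le_iff₀ (by exact_mod_cast hdeg)]
    have : (-((P.coeff (P.natDegree - 1) : ℤ) : ℂ)).re = -(P.coeff (P.natDegree - 1) : ℝ) := by
      simp
    rw [this]
    linarith

theorem trace_upper (A : ℝ) (hA : 0 ≤ A) (μ : Measure ℝ) [IsProbabilityMeasure μ]
    (hsupp : μ (Icc 0 A)ᶜ = 0) (harith : IsArith μ) (ε : ℝ) (hε : 0 < ε) :
    {α : ℂ | TotPos α ∧ normTrace α ≤ (∫ x, x ∂μ) + ε}.Infinite := by
  classical
  -- energy of μ
  have hsymm : μ (Icc (-A) A)ᶜ = 0 := by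
    refine measure_mono_null ?_ hsupp
    intro x hx hx'
    exact hx ⟨by linarith [hx'.1], hx'.2⟩
  obtain ⟨hE1, hE2, -⟩ := energy_nonneg μ harith A hsymm
  set M : ℝ := max (A + 1) 100 with hM
  have hMA : A + 1 ≤ M := le_max_left _ _
  have hM100 : 100 ≤ M := le_max_right _ _
  obtain ⟨Cf, μ', hCf, hreg, harith', hmean⟩ :=
    regularise A M hA hMA hM100 μ hsupp harith hE1 hE2 (ε / 2) (by positivity)
  haveI : IsProbabilityMeasure μ' := hreg.1
  have hsupp' : μ' (Icc (-M) M)ᶜ = 0 := by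
    refine measure_mono_null ?_ hreg.2.1
    intro x hx hx'
    exact hx ⟨by linarith [hx'.1], hx'.2⟩
  obtain ⟨hF1, hF2, hF3⟩ := energy_nonneg μ' harith' M hsupp'
  have hI : 0 ≤ ∫ x, ∫ y, Real.log |x - y| ∂μ' ∂μ' := by
    rw [integral_prod _ hF1] at hF3
    exact hF3
  intro hfin
  -- bounded degrees
  obtain ⟨D, hD⟩ := (hfin.image (fun α : ℂ => (minpoly ℚ α).natDegree)).bddAbove
  obtain ⟨P, hP, hirr, hdeg, hroots, htr⟩ :=
    smith_trace M Cf hM100 hCf μ' hreg harith' hI (ε / 2) (by positivity) (D + 1)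
  obtain ⟨α, hα, hle, hnd⟩ := upper_root P hP hirr (by omega) hroots ((∫ x, x ∂μ') + ε / 2) htr
  have hmem : α ∈ {α : ℂ | TotPos α ∧ normTrace α ≤ (∫ x, x ∂μ) + ε} := ⟨hα, by linarith⟩
  have := hD (Set.mem_image_of_mem (fun α : ℂ => (minpoly ℚ α).natDegree) hmem)
  change (minpoly ℚ α).natDegree ≤ D at this
  omega

end Pool.Agent.TraceMin
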