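import Pool.Agent.TraceMin.FinalB
import Pool.Agent.TraceMin.Liminf
import Pool.Agent.TraceMin.Upper
import Pool.Agent.TraceMin.Smyth
import Pool.Agent.TraceMin.Holder
import Pool.Agent.TraceMin.Lift

/-!
Existence and uniqueness of the trace minimising arithmetic measure on the half line, and its energy.
-/

open MeasureTheory Polynomial Set Real Filter Topology

namespace Pool.Agent.TraceMin

/-- reflection of an arithmetic measure -/
lemma arith_neg (ν : Measure ℝ) (hν : IsArith ν) : IsArith (ν.map (fun y => -y)) := by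
  intro Q hQ
  have hneg : Measurable (fun y : ℝ => -y) := measurable_neg
  have hP : Q.comp (-X) ≠ 0 := by
    intro h
    apply hQ
    have := congrArg (fun p : ℤ[X] => p.comp (-X)) h
    simpa [comp_assoc] using this
  obtain ⟨h1, h2, h3⟩ := hν (Q.comp (-X)) hP
  have heval : ∀ y : ℝ, aeval y (Q.comp (-X)) = aeval (-y) Q := by
    intro y
    rw [aeval_comp]
    simp
  have hmeas : Measurable (fun x : ℝ => Real.log |aeval x Q|) :=
    Real.measurable_log.comp (Polynomial.continuous_aeval Q).abs.measurable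
  refine ⟨?_, ?_, ?_⟩
  · rw [Measure.map_apply hneg (measurableSet_eq_fun (Polynomial.continuous_aeval Q).measurable
      measurable_const)]
    simp only [heval] at h1
    exact h1
  · rw [integrable_map_measure hmeas.aestronglyMeasurable hneg.aemeasurable]
    simp only [heval] at h2
    exact h2
  · rw [integral_map hneg.aemeasurable hmeas.aestronglyMeasurable]
    simp only [heval] at h3
    exact h3

/-- existence and uniqueness on the half line -/
theorem final_line : ∃ μ₀ : Measure ℝ, IsProbabilityMeasure μ₀ ∧ μ₀ (Icc 0 144)ᶜ = 0 ∧ IsArith μ₀ ∧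
    ∫ x, x ∂μ₀ = lambdaSSS ∧
    Integrable (fun p : ℝ × ℝ => Real.log |p.1 - p.2|) (μ₀.prod μ₀) ∧
    (μ₀.prod μ₀) {p | p.1 = p.2} = 0 ∧
    ∫ p : ℝ × ℝ, Real.log |p.1 - p.2| ∂(μ₀.prod μ₀) = 0 ∧
    ∀ (μ : Measure ℝ) (A : ℝ), IsProbabilityMeasure μ → μ (Icc 0 A)ᶜ = 0 → IsArith μ →
      ∫ x, x ∂μ = lambdaSSS → μ = μ₀ := by
  obtain ⟨l, hl0, ⟨ν, hν1, hν2, hν3, hν4⟩, hcert, hmin⟩ := minimum_line
  obtain ⟨p1, p2, p3, p4⟩ := push_sq ν 12 (by norm_num) hν2 hν3
  have hsqm : Measurable (fun y : ℝ => y ^ 2) := by fun_prop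
  have hlam : lambdaSSS = l := by
    apply lambdaSSS_eq l hl0
    · intro t ht
      exact Smyth.trace_lower_of mass_bound 40 l le_rfl hl0 (hcert 40 (by norm_num)) t ht
    · intro ε hε
      have := trace_upper (12 ^ 2) (by norm_num) (ν.map (fun y => y ^ 2)) p2 p3 ε hε
      rw [p4, hν4] at this
      exact this
  have h144 : (12 : ℝ) ^ 2 = 144 := by norm_num
  -- energies
  have hν13 : ν (Icc (-13) 13)ᶜ = 0 :=
    measure_mono_null (compl_subset_compl.mpr (Icc_subset_Icc (by norm_num) (by norm_num))) hν2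
  have hElog : Elog ν = 0 := by
    apply le_antisymm
    · exact energy_zero ν 13 l (by norm_num) (by
        have e : (13 : ℝ) - 1 = 12 := by norm_num
        rw [e]; exact hν2) hν3 hν4 (hcert 13 le_rfl)
    · exact (energy_nonneg ν hν3 13 hν13).2.2
  -- symmetry
  have hsym : ν.map (fun y => -y) = ν := by
    have hm : Measurable (fun y : ℝ => -y) := measurable_neg
    have : IsProbabilityMeasure (ν.map (fun y => -y)) :=
      Measure.isProbabilityMeasure_map hm.aemeasurable
    refine unique_line l (hcert 13 le_rfl) hmin _ ν 12 ?_ hν2 (arith_neg ν hν3) hν3 ?_ hν4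
    · rw [Measure.map_apply hm measurableSet_Icc.compl]
      refine measure_mono_null ?_ hν2
      intro x hx hx2
      apply hx
      exact ⟨by linarith [hx2.2], by linarith [hx2.1]⟩
    · rw [integral_map hm.aemeasurable (by fun_prop)]
      simpa using hν4
  obtain ⟨iν, dν, -⟩ := energy_nonneg ν hν3 13 hν13
  have hneg : Measurable (fun y : ℝ => -y) := measurable_neg
  have hφ : MeasurePreserving (Prod.map (fun x : ℝ => x) (fun x : ℝ => -x)) (ν.prod ν) (ν.prod ν) :=
    (MeasurePreserving.id ν).prod ⟨hneg, hsym⟩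
  have hk : Measurable (fun p : ℝ × ℝ => Real.log |p.1 - p.2|) :=
    Real.measurable_log.comp (by fun_prop)
  -- the kernel `log|s+t|`
  have iplus : Integrable (fun p : ℝ × ℝ => Real.log |p.1 + p.2|) (ν.prod ν) := by
    have := hφ.integrable_comp_of_integrable iν
    refine this.congr ?_
    filter_upwards with p
    simp
  have eplus : ∫ p : ℝ × ℝ, Real.log |p.1 + p.2| ∂(ν.prod ν) = 0 := by
    have h1 : ∫ p : ℝ × ℝ, Real.log |p.1 - p.2| ∂(ν.prod ν) =
        ∫ p : ℝ × ℝ, Real.log |p.1 + p.2| ∂(ν.prod ν) := by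
      conv_lhs => rw [← hφ.map_eq]
      rw [integral_map hφ.measurable.aemeasurable hk.aestronglyMeasurable]
      apply integral_congr_ae
      filter_upwards with p
      simp
    rw [← h1]
    exact hElog
  have nminus : ∀ᵐ p ∂(ν.prod ν), p.1 ≠ p.2 := off_diag ν dν
  have nplus : ∀ᵐ p ∂(ν.prod ν), p.1 ≠ -p.2 := by
    have := hφ.quasiMeasurePreserving.ae nminus
    filter_upwards [this] with p hp
    simpa using hp
  have hprod : (ν.map (fun y => y ^ 2)).prod (ν.map (fun y => y ^ 2)) =
      (ν.prod ν).map (Prod.map (fun y : ℝ => y ^ 2) (fun y : ℝ => y ^ 2)) :=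
    Measure.map_prod_map ν ν hsqm hsqm
  have hmap : Measurable (Prod.map (fun y : ℝ => y ^ 2) (fun y : ℝ => y ^ 2)) :=
    Measurable.prodMap hsqm hsqm
  have hlogsq : ∀ᵐ p ∂(ν.prod ν), Real.log |p.1 ^ 2 - p.2 ^ 2| =
      Real.log |p.1 - p.2| + Real.log |p.1 + p.2| := by
    filter_upwards [nminus, nplus] with p h1 h2
    rw [← Real.log_mul, ← abs_mul]
    · congr 2; ring
    · exact abs_ne_zero.mpr (sub_ne_zero.mpr h1)
    · intro h3
      apply h2
      have := abs_eq_zero.mp h3
      linarith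
  refine ⟨ν.map (fun y => y ^ 2), p1, by rw [h144] at p2; exact p2, p3, by rw [p4, hν4, hlam],
    ?_, ?_, ?_, ?_⟩
  · rw [hprod, integrable_map_measure hk.aestronglyMeasurable hmap.aemeasurable]
    refine (iν.add iplus).congr ?_
    filter_upwards [hlogsq] with p hp
    simp only [Pi.add_apply, Function.comp_apply, Prod.map_fst, Prod.map_snd]
    rw [hp]
  · rw [hprod, Measure.map_apply hmap (measurableSet_eq_fun measurable_fst measurable_snd)]
    have h1 : ∀ᵐ p ∂(ν.prod ν), p.1 ^ 2 ≠ p.2 ^ 2 := by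
      filter_upwards [nminus, nplus] with p h1 h2
      intro h3
      rcases sq_eq_sq_iff_eq_or_eq_neg.mp h3 with h4 | h4
      · exact h1 h4
      · exact h2 h4
    rw [ae_iff] at h1
    refine measure_mono_null ?_ h1
    intro p hp
    simpa using hp
  · rw [hprod, integral_map hmap.aemeasurable hk.aestronglyMeasurable]
    have h1 : ∫ p : ℝ × ℝ, Real.log |(Prod.map (fun y : ℝ => y ^ 2) (fun y : ℝ => y ^ 2) p).1 -
        (Prod.map (fun y : ℝ => y ^ 2) (fun y : ℝ => y ^ 2) p).2| ∂(ν.prod ν) =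
        ∫ p : ℝ × ℝ, (Real.log |p.1 - p.2| + Real.log |p.1 + p.2|) ∂(ν.prod ν) := by
      apply integral_congr_ae
      filter_upwards [hlogsq] with p hp
      simp only [Prod.map_fst, Prod.map_snd]
      exact hp
    rw [h1, integral_add iν iplus, eplus, add_zero]
    exact hElog
  · intro μ A hμ hA harith hmean
    have hA0 : 0 ≤ A := by
      by_contra hneg
      have h1 : Icc (0 : ℝ) A = ∅ := Icc_eq_empty hneg
      rw [h1, compl_empty, measure_univ] at hA
      exact one_ne_zero hA
    obtain ⟨ν', q1, q2, q3, q4⟩ := lift_exists μ A hA0 hA harith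
    have hv : ∫ y, y ^ 2 ∂ν' = l := by
      rw [← (push_sq ν' √A (Real.sqrt_nonneg A) q2 q3).2.2.2, q4, hmean, hlam]
    have hwid : ∀ (τ : Measure ℝ) (a b : ℝ), a ≤ b → τ (Icc (-a) a)ᶜ = 0 → τ (Icc (-b) b)ᶜ = 0 :=
      fun τ a b hab h =>
        measure_mono_null (compl_subset_compl.mpr (Icc_subset_Icc (by linarith) hab)) h
    have huniq : ν' = ν := unique_line l (hcert 13 le_rfl) hmin ν' ν (max √A 12)
      (hwid ν' _ _ (le_max_left _ _) q2) (hwid ν _ _ (le_max_right _ _) hν2) q3 hν3 hv hν4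
    rw [← q4, huniq]

end Pool.Agent.TraceMin
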