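import Pool.Agent.TraceMin.Defs

open MeasureTheory Polynomial Set

namespace Pool.Agent.TraceMin

section mixing
variable {X T : Type*} [MeasurableSpace X] [MeasurableSpace T]

/-- Fubini for mixtures of kernels. -/
theorem psd_mix (m : Measure T) [SFinite m] (k : T → X → X → ℝ)
    (hk : Measurable (fun p : (X × X) × T => k p.2 p.1.1 p.1.2))
    (h : T → ℝ) (hh : Integrable h m) (hb : ∀ᵐ t ∂m, ∀ x y, |k t x y| ≤ h t)
    (σ τ : Measure X) [IsFiniteMeasure σ] [IsFiniteMeasure τ] :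
    (∫ x, ∫ y, (∫ t, k t x y ∂m) ∂τ ∂σ) = ∫ t, (∫ x, ∫ y, k t x y ∂τ ∂σ) ∂m ∧
    Integrable (fun t => ∫ x, ∫ y, k t x y ∂τ ∂σ) m := by
  have hint : Integrable (fun p : (X × X) × T => k p.2 p.1.1 p.1.2) ((σ.prod τ).prod m) := by
    have h1 : Integrable (fun p : (X × X) × T => h p.2) ((σ.prod τ).prod m) :=
      hh.comp_snd (σ.prod τ)
    refine h1.mono' hk.aestronglyMeasurable ?_
    have h2 : ∀ᵐ p ∂((σ.prod τ).prod m), ∀ x y, |k p.2 x y| ≤ h p.2 :=
      Measure.quasiMeasurePreserving_snd.ae hb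
    filter_upwards [h2] with p hp
    exact hp _ _
  have hswap := integral_integral_swap (f := fun (z : X × X) t => k t z.1 z.2) hint
  have hL : (∫ z : X × X, (∫ t, k t z.1 z.2 ∂m) ∂(σ.prod τ)) =
      ∫ x, ∫ y, (∫ t, k t x y ∂m) ∂τ ∂σ := by
    refine integral_prod (fun z : X × X => ∫ t, k t z.1 z.2 ∂m) ?_
    exact hint.integral_prod_left
  have hae : ∀ᵐ t ∂m, (∫ z : X × X, k t z.1 z.2 ∂(σ.prod τ)) = ∫ x, ∫ y, k t x y ∂τ ∂σ := by
    have := hint.prod_left_ae
    filter_upwards [this] with t ht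
    exact integral_prod (fun z : X × X => k t z.1 z.2) ht
  have hR : Integrable (fun t => ∫ z : X × X, k t z.1 z.2 ∂(σ.prod τ)) m :=
    hint.integral_prod_right
  constructor
  · rw [← hL, hswap]
    exact integral_congr_ae hae
  · exact hR.congr hae

/-- the quadratic form of a kernel at the difference of two measures -/
noncomputable def QF (k : X → X → ℝ) (σ τ : Measure X) : ℝ :=
  (∫ x, ∫ y, k x y ∂σ ∂σ) - 2 * (∫ x, ∫ y, k x y ∂τ ∂σ) + ∫ x, ∫ y, k x y ∂τ ∂τ

omit [MeasurableSpace X] in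
theorem int_lin (m : Measure T) (f g h : T → ℝ) (hf : Integrable f m) (hg : Integrable g m)
    (hh : Integrable h m) :
    (∫ t, f t - 2 * g t + h t ∂m) = (∫ t, f t ∂m) - 2 * (∫ t, g t ∂m) + ∫ t, h t ∂m := by
  have h1 : (∫ t, f t - 2 * g t + h t ∂m) = (∫ t, f t - 2 * g t ∂m) + ∫ t, h t ∂m :=
    integral_add (hf.sub (hg.const_mul 2)) hh
  have h2 : (∫ t, f t - 2 * g t ∂m) = (∫ t, f t ∂m) - ∫ t, 2 * g t ∂m :=
    integral_sub hf (hg.const_mul 2)
  rw [h1, h2, integral_const_mul]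

theorem psd_mix_QF (m : Measure T) [SFinite m] (k : T → X → X → ℝ)
    (hk : Measurable (fun p : (X × X) × T => k p.2 p.1.1 p.1.2))
    (h : T → ℝ) (hh : Integrable h m) (hb : ∀ᵐ t ∂m, ∀ x y, |k t x y| ≤ h t)
    (σ τ : Measure X) [IsFiniteMeasure σ] [IsFiniteMeasure τ] :
    QF (fun x y => ∫ t, k t x y ∂m) σ τ = ∫ t, QF (k t) σ τ ∂m ∧
    Integrable (fun t => QF (k t) σ τ) m := by
  obtain ⟨a1, b1⟩ := psd_mix m k hk h hh hb σ σ
  obtain ⟨a2, b2⟩ := psd_mix m k hk h hh hb σ τ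
  obtain ⟨a3, b3⟩ := psd_mix m k hk h hh hb τ τ
  constructor
  · unfold QF
    rw [a1, a2, a3]
    exact (int_lin m _ _ _ b1 b2 b3).symm
  · exact (b1.sub (b2.const_mul 2)).add b3

end mixing

/-! ### Gaussian kernels on `ℂ` -/

lemma parallelogram_aux (x y v : ℂ) :
    ‖x - v‖ ^ 2 + ‖y - v‖ ^ 2 = ‖x - y‖ ^ 2 / 2 + 2 * ‖v - (x + y) / 2‖ ^ 2 := by
  simp only [← Complex.normSq_eq_norm_sq, Complex.normSq_apply]
  simp
  ring

lemma gauss_int (s : ℝ) (hs : 0 < s) (c : ℂ) :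
    ∫ v : ℂ, Real.exp (-s * ‖v - c‖ ^ 2) = Real.pi / s := by
  rw [integral_sub_right_eq_self (fun v : ℂ => Real.exp (-s * ‖v‖ ^ 2)) c]
  rw [GaussianFourier.integral_rexp_neg_mul_sq_norm hs]
  simp

lemma gauss_integrable (s : ℝ) (hs : 0 < s) (c : ℂ) :
    Integrable (fun v : ℂ => Real.exp (-s * ‖v - c‖ ^ 2)) := by
  by_contra hcon
  have h1 := gauss_int s hs c
  rw [integral_undef hcon] at h1
  have : 0 < Real.pi / s := by positivity
  linarith

lemma gauss_split (s : ℝ) (hs : 0 < s) (x y : ℂ) :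
    Real.exp (-s * ‖x - y‖ ^ 2) = (4 * s / Real.pi) *
      ∫ v : ℂ, Real.exp (-(2 * s) * ‖x - v‖ ^ 2) * Real.exp (-(2 * s) * ‖y - v‖ ^ 2) := by
  have h1 : ∀ v : ℂ, Real.exp (-(2 * s) * ‖x - v‖ ^ 2) * Real.exp (-(2 * s) * ‖y - v‖ ^ 2)
      = Real.exp (-s * ‖x - y‖ ^ 2) * Real.exp (-(4 * s) * ‖v - (x + y) / 2‖ ^ 2) := by
    intro v
    rw [← Real.exp_add, ← Real.exp_add]
    congr 1
    have := parallelogram_aux x y v
    linear_combination (-(2 * s)) * this
  simp_rw [h1]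
  rw [integral_const_mul, gauss_int (4 * s) (by positivity)]
  field_simp

/-- the Gaussian potential -/
noncomputable def gpot (s : ℝ) (σ : Measure ℂ) (v : ℂ) : ℝ :=
  ∫ x, Real.exp (-(2 * s) * ‖x - v‖ ^ 2) ∂σ

lemma gexp_le_one (s : ℝ) (hs : 0 < s) (t : ℝ) : Real.exp (-s * t ^ 2) ≤ 1 := by
  rw [Real.exp_le_one_iff]
  nlinarith [mul_nonneg hs.le (sq_nonneg t)]

lemma gauss_prod_integrable (s : ℝ) (hs : 0 < s) (σ : Measure ℂ) [IsFiniteMeasure σ] :
    Integrable (fun p : ℂ × ℂ => Real.exp (-(2 * s) * ‖p.1 - p.2‖ ^ 2)) (σ.prod volume) := by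
  have hmeas : Measurable (fun p : ℂ × ℂ => Real.exp (-(2 * s) * ‖p.1 - p.2‖ ^ 2)) := by
    fun_prop
  rw [integrable_prod_iff hmeas.aestronglyMeasurable]
  constructor
  · refine Filter.Eventually.of_forall fun x => ?_
    have := gauss_integrable (2 * s) (by positivity) x
    simpa only [norm_sub_rev] using this
  · have : (fun x : ℂ => ∫ y : ℂ, ‖Real.exp (-(2 * s) * ‖x - y‖ ^ 2)‖) =
        fun x : ℂ => Real.pi / (2 * s) := by
      funext x
      have h1 := gauss_int (2 * s) (by positivity) x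
      rw [← h1]
      refine integral_congr_ae (Filter.Eventually.of_forall fun y => ?_)
      simp only [Real.norm_eq_abs, abs_of_pos (Real.exp_pos _), norm_sub_rev]
    simp only
    rw [this]
    exact integrable_const _

lemma gpot_integrable (s : ℝ) (hs : 0 < s) (σ : Measure ℂ) [IsFiniteMeasure σ] :
    Integrable (gpot s σ) := by
  exact (gauss_prod_integrable s hs σ).integral_prod_right

lemma gpot_nonneg (s : ℝ) (σ : Measure ℂ) (v : ℂ) : 0 ≤ gpot s σ v :=
  integral_nonneg fun _ => (Real.exp_pos _).le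

lemma gpot_le (s : ℝ) (hs : 0 < s) (σ : Measure ℂ) [IsFiniteMeasure σ] (v : ℂ) :
    gpot s σ v ≤ σ.real univ := by
  unfold gpot
  have h1 : Integrable (fun x : ℂ => Real.exp (-(2 * s) * ‖x - v‖ ^ 2)) σ := by
    refine Integrable.mono' (integrable_const (1 : ℝ)) (by fun_prop) ?_
    refine Filter.Eventually.of_forall fun x => ?_
    rw [Real.norm_eq_abs, abs_of_pos (Real.exp_pos _)]
    exact gexp_le_one (2 * s) (by positivity) _
  calc (∫ x, Real.exp (-(2 * s) * ‖x - v‖ ^ 2) ∂σ) ≤ ∫ x, (1 : ℝ) ∂σ := by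
        refine integral_mono h1 (integrable_const _) fun x => ?_
        exact gexp_le_one (2 * s) (by positivity) _
    _ = σ.real univ := by simp

lemma gpot_measurable (s : ℝ) (σ : Measure ℂ) [IsFiniteMeasure σ] : Measurable (gpot s σ) := by
  have hmeas : StronglyMeasurable (fun p : ℂ × ℂ => Real.exp (-(2 * s) * ‖p.2 - p.1‖ ^ 2)) := by
    have : Measurable (fun p : ℂ × ℂ => Real.exp (-(2 * s) * ‖p.2 - p.1‖ ^ 2)) := by fun_prop
    exact this.stronglyMeasurable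
  exact (hmeas.integral_prod_right (ν := σ)).measurable

lemma gpot_mul_integrable (s : ℝ) (hs : 0 < s) (σ τ : Measure ℂ) [IsFiniteMeasure σ]
    [IsFiniteMeasure τ] : Integrable (fun v => gpot s σ v * gpot s τ v) := by
  refine Integrable.mono' ((gpot_integrable s hs σ).mul_const (τ.real univ)) ?_ ?_
  · exact ((gpot_measurable s σ).mul (gpot_measurable s τ)).aestronglyMeasurable
  · refine Filter.Eventually.of_forall fun v => ?_
    rw [Real.norm_eq_abs, abs_of_nonneg (mul_nonneg (gpot_nonneg _ _ _) (gpot_nonneg _ _ _))]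
    exact mul_le_mul_of_nonneg_left (gpot_le s hs τ v) (gpot_nonneg _ _ _)

lemma gauss_bilin (s : ℝ) (hs : 0 < s) (σ τ : Measure ℂ) [IsFiniteMeasure σ] [IsFiniteMeasure τ] :
    (∫ x, ∫ y, Real.exp (-s * ‖x - y‖ ^ 2) ∂τ ∂σ) =
      (4 * s / Real.pi) * ∫ v, gpot s σ v * gpot s τ v := by
  have hinner : ∀ x : ℂ, (∫ y, (∫ v : ℂ, Real.exp (-(2 * s) * ‖x - v‖ ^ 2) *
      Real.exp (-(2 * s) * ‖y - v‖ ^ 2)) ∂τ) =
      ∫ v : ℂ, Real.exp (-(2 * s) * ‖x - v‖ ^ 2) * gpot s τ v := by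
    intro x
    have hint : Integrable (fun p : ℂ × ℂ => Real.exp (-(2 * s) * ‖x - p.2‖ ^ 2) *
        Real.exp (-(2 * s) * ‖p.1 - p.2‖ ^ 2)) (τ.prod volume) := by
      refine Integrable.mono' (gauss_prod_integrable s hs τ) (by fun_prop) ?_
      refine Filter.Eventually.of_forall fun p => ?_
      rw [Real.norm_eq_abs, abs_of_pos (by positivity)]
      have := gexp_le_one (2 * s) (by positivity) ‖x - p.2‖
      have h2 := Real.exp_pos (-(2 * s) * ‖p.1 - p.2‖ ^ 2)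
      nlinarith
    rw [integral_integral_swap (f := fun y v => Real.exp (-(2 * s) * ‖x - v‖ ^ 2) *
        Real.exp (-(2 * s) * ‖y - v‖ ^ 2)) hint]
    refine integral_congr_ae (Filter.Eventually.of_forall fun v => ?_)
    simp only
    rw [integral_const_mul]
    rfl
  have houter : (∫ x, (∫ v : ℂ, Real.exp (-(2 * s) * ‖x - v‖ ^ 2) * gpot s τ v) ∂σ) =
      ∫ v, gpot s σ v * gpot s τ v := by
    have hint : Integrable (fun p : ℂ × ℂ => Real.exp (-(2 * s) * ‖p.1 - p.2‖ ^ 2) *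
        gpot s τ p.2) (σ.prod volume) := by
      refine Integrable.mono' ((gauss_prod_integrable s hs σ).mul_const (τ.real univ)) ?_ ?_
      · have h1 : Measurable (fun p : ℂ × ℂ => Real.exp (-(2 * s) * ‖p.1 - p.2‖ ^ 2)) := by
          fun_prop
        exact (h1.mul ((gpot_measurable s τ).comp measurable_snd)).aestronglyMeasurable
      · refine Filter.Eventually.of_forall fun p => ?_
        rw [Real.norm_eq_abs, abs_of_nonneg (mul_nonneg (Real.exp_pos _).le (gpot_nonneg _ _ _))]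
        exact mul_le_mul_of_nonneg_left (gpot_le s hs τ _) (Real.exp_pos _).le
    rw [integral_integral_swap (f := fun x v => Real.exp (-(2 * s) * ‖x - v‖ ^ 2) *
        gpot s τ v) hint]
    refine integral_congr_ae (Filter.Eventually.of_forall fun v => ?_)
    simp only
    rw [integral_mul_const]
    rfl
  simp_rw [gauss_split s hs, integral_const_mul, hinner, houter]

theorem gauss_QF (s : ℝ) (hs : 0 < s) (σ τ : Measure ℂ) [IsFiniteMeasure σ] [IsFiniteMeasure τ] :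
    QF (fun x y : ℂ => Real.exp (-s * ‖x - y‖ ^ 2)) σ τ =
      (4 * s / Real.pi) * ∫ v, (gpot s σ v - gpot s τ v) ^ 2 := by
  have h1 := gpot_mul_integrable s hs σ σ
  have h2 := gpot_mul_integrable s hs σ τ
  have h3 := gpot_mul_integrable s hs τ τ
  have h4 : (∫ v, (gpot s σ v - gpot s τ v) ^ 2) = (∫ v, gpot s σ v * gpot s σ v)
      - 2 * (∫ v, gpot s σ v * gpot s τ v) + ∫ v, gpot s τ v * gpot s τ v := by
    rw [← int_lin volume _ _ _ h1 h2 h3]
    refine integral_congr_ae (Filter.Eventually.of_forall fun v => ?_)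
    simp only
    ring
  unfold QF
  rw [gauss_bilin s hs, gauss_bilin s hs, gauss_bilin s hs, h4]
  ring

theorem gauss_QF_nonneg (s : ℝ) (hs : 0 < s) (σ τ : Measure ℂ) [IsFiniteMeasure σ]
    [IsFiniteMeasure τ] : 0 ≤ QF (fun x y : ℂ => Real.exp (-s * ‖x - y‖ ^ 2)) σ τ := by
  rw [gauss_QF s hs]
  have : 0 ≤ ∫ v, (gpot s σ v - gpot s τ v) ^ 2 := integral_nonneg fun v => sq_nonneg _
  positivity

theorem gauss_psd (s : ℝ) (hs : 0 < s) (σ τ : Measure ℂ) [IsFiniteMeasure σ] [IsFiniteMeasure τ] :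
    0 ≤ (∫ x, ∫ y, Real.exp (-s * ‖x - y‖ ^ 2) ∂σ ∂σ)
      - 2 * (∫ x, ∫ y, Real.exp (-s * ‖x - y‖ ^ 2) ∂τ ∂σ)
      + ∫ x, ∫ y, Real.exp (-s * ‖x - y‖ ^ 2) ∂τ ∂τ :=
  gauss_QF_nonneg s hs σ τ

section kernels
variable {X : Type*} [MeasurableSpace X]

lemma exp_Ioi (a : ℝ) (ha : 0 < a) : (∫ s in Ioi (0 : ℝ), Real.exp (-a * s)) = 1 / a := by
  rw [integral_exp_mul_Ioi (by linarith) 0]
  simp

lemma exp_Ioi_int (a : ℝ) (ha : 0 < a) :
    Integrable (fun s : ℝ => Real.exp (-a * s)) (volume.restrict (Ioi (0 : ℝ))) :=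
  integrableOn_exp_mul_Ioi (by linarith) 0

lemma kap_eq (a : ℝ) (ha : 0 < a) (D : ℝ) :
    1 / (a + D ^ 2) = ∫ s in Ioi (0 : ℝ), Real.exp (-a * s) * Real.exp (-s * D ^ 2) := by
  rw [← exp_Ioi (a + D ^ 2) (by positivity)]
  refine integral_congr_ae (Filter.Eventually.of_forall fun s => ?_)
  simp only
  rw [← Real.exp_add]
  congr 1
  ring

theorem QF_smul (c : ℝ) (k : X → X → ℝ) (σ τ : Measure X) :
    QF (fun x y => c * k x y) σ τ = c * QF k σ τ := by
  unfold QF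
  simp_rw [integral_const_mul]
  ring

theorem kap_QF (d : X → X → ℝ) (hd : Measurable fun p : X × X => d p.1 p.2) (a : ℝ) (ha : 0 < a)
    (σ τ : Measure X) [IsFiniteMeasure σ] [IsFiniteMeasure τ] :
    QF (fun x y => 1 / (a + d x y ^ 2)) σ τ =
      (∫ s in Ioi (0 : ℝ), Real.exp (-a * s) * QF (fun x y => Real.exp (-s * d x y ^ 2)) σ τ) ∧
    Integrable (fun s => Real.exp (-a * s) * QF (fun x y => Real.exp (-s * d x y ^ 2)) σ τ)
      (volume.restrict (Ioi (0 : ℝ))) := by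
  have hm : Measurable (fun p : (X × X) × ℝ => Real.exp (-a * p.2) *
      Real.exp (-p.2 * d p.1.1 p.1.2 ^ 2)) := by
    have h1 : Measurable (fun p : (X × X) × ℝ => d p.1.1 p.1.2) := hd.comp measurable_fst
    fun_prop
  have key := psd_mix_QF (volume.restrict (Ioi (0 : ℝ)))
    (fun s x y => Real.exp (-a * s) * Real.exp (-s * d x y ^ 2)) hm
    (fun s => Real.exp (-a * s)) (exp_Ioi_int a ha) (by
      filter_upwards [ae_restrict_mem measurableSet_Ioi] with s hs x y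
      have hs' : 0 < s := hs
      rw [abs_of_pos (by positivity)]
      have h1 := gexp_le_one s hs' (d x y)
      have h2 := Real.exp_pos (-a * s)
      nlinarith) σ τ
  simp_rw [QF_smul] at key
  simp_rw [← kap_eq a ha] at key
  exact key

lemma kap_le (a r D : ℝ) (hr : 0 < r) (har : r ≤ a) : |1 / (a + D ^ 2)| ≤ 1 / r := by
  have ha : 0 < a := lt_of_lt_of_le hr har
  rw [abs_of_pos (by positivity)]
  apply one_div_le_one_div_of_le hr
  nlinarith [sq_nonneg D]

lemma lam_eq (r e : ℝ) (hr : 0 < r) (hre : r ≤ e) (D : ℝ) :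
    Real.log (D ^ 2 + e ^ 2) / 2 - Real.log (D ^ 2 + r ^ 2) / 2 =
      ∫ a in Ioc (r ^ 2) (e ^ 2), (1 / 2) * (1 / (a + D ^ 2)) := by
  have he : 0 < e := lt_of_lt_of_le hr hre
  have h1 : r ^ 2 ≤ e ^ 2 := by nlinarith
  rw [← intervalIntegral.integral_of_le h1, intervalIntegral.integral_const_mul,
    intervalIntegral.integral_comp_add_right (fun x => 1 / x) (D ^ 2),
    integral_one_div_of_pos (by positivity) (by positivity), Real.log_div (by positivity)
      (by positivity)]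
  rw [add_comm (D ^ 2) (e ^ 2), add_comm (D ^ 2) (r ^ 2)]
  ring

theorem lam_QF (d : X → X → ℝ) (hd : Measurable fun p : X × X => d p.1 p.2) (r e : ℝ)
    (hr : 0 < r) (hre : r ≤ e)
    (σ τ : Measure X) [IsFiniteMeasure σ] [IsFiniteMeasure τ] :
    QF (fun x y => Real.log (d x y ^ 2 + e ^ 2) / 2 - Real.log (d x y ^ 2 + r ^ 2) / 2) σ τ =
      (∫ a in Ioc (r ^ 2) (e ^ 2), (1 / 2) * QF (fun x y => 1 / (a + d x y ^ 2)) σ τ) ∧
    Integrable (fun a => (1 / 2) * QF (fun x y => 1 / (a + d x y ^ 2)) σ τ)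
      (volume.restrict (Ioc (r ^ 2) (e ^ 2))) := by
  have hm : Measurable (fun p : (X × X) × ℝ => (1 / 2 : ℝ) * (1 / (p.2 + d p.1.1 p.1.2 ^ 2))) := by
    have h1 : Measurable (fun p : (X × X) × ℝ => d p.1.1 p.1.2) := hd.comp measurable_fst
    fun_prop
  have key := psd_mix_QF (volume.restrict (Ioc (r ^ 2) (e ^ 2)))
    (fun a x y => (1 / 2 : ℝ) * (1 / (a + d x y ^ 2))) hm
    (fun _ => 1 / r ^ 2) (integrable_const _) (by
      filter_upwards [ae_restrict_mem measurableSet_Ioc] with a ha x y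
      have h1 := kap_le a (r ^ 2) (d x y) (by positivity) ha.1.le
      rw [abs_mul]
      have h2 : |(1 / 2 : ℝ)| = 1 / 2 := by norm_num
      rw [h2]
      have := abs_nonneg (1 / (a + d x y ^ 2))
      linarith) σ τ
  simp_rw [QF_smul] at key
  simp_rw [← lam_eq r e hr hre] at key
  exact key

end kernels

theorem kap_psd (a : ℝ) (ha : 0 < a) (σ τ : Measure ℂ) [IsFiniteMeasure σ] [IsFiniteMeasure τ] :
    0 ≤ (∫ x, ∫ y, 1 / (a + ‖x - y‖ ^ 2) ∂σ ∂σ)
      - 2 * (∫ x, ∫ y, 1 / (a + ‖x - y‖ ^ 2) ∂τ ∂σ)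
      + ∫ x, ∫ y, 1 / (a + ‖x - y‖ ^ 2) ∂τ ∂τ := by
  have h1 := (kap_QF (fun x y : ℂ => ‖x - y‖) (by fun_prop) a ha σ τ).1
  change 0 ≤ QF (fun x y : ℂ => 1 / (a + ‖x - y‖ ^ 2)) σ τ
  rw [h1]
  refine setIntegral_nonneg measurableSet_Ioi fun s hs => ?_
  exact mul_nonneg (Real.exp_pos _).le (gauss_QF_nonneg s hs σ τ)

theorem lam_psd (r e : ℝ) (hr : 0 < r) (hre : r ≤ e) (σ τ : Measure ℂ)
    [IsFiniteMeasure σ] [IsFiniteMeasure τ] :
    0 ≤ (∫ x, ∫ y, (lam e (x - y) - lam r (x - y)) ∂σ ∂σ)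
      - 2 * (∫ x, ∫ y, (lam e (x - y) - lam r (x - y)) ∂τ ∂σ)
      + ∫ x, ∫ y, (lam e (x - y) - lam r (x - y)) ∂τ ∂τ := by
  have h1 := (lam_QF (fun x y : ℂ => ‖x - y‖) (by fun_prop) r e hr hre σ τ).1
  change 0 ≤ QF (fun x y : ℂ => Real.log (‖x - y‖ ^ 2 + e ^ 2) / 2 -
    Real.log (‖x - y‖ ^ 2 + r ^ 2) / 2) σ τ
  rw [h1]
  refine setIntegral_nonneg measurableSet_Ioc fun a ha => ?_
  have ha' : 0 < a := lt_of_le_of_lt (by positivity) ha.1
  exact mul_nonneg (by norm_num) (kap_psd a ha' σ τ)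

/-! ### Strictness on the real line -/

lemma cos_gauss (s : NNReal) (t : ℝ) :
    Real.exp (-s * t ^ 2) = ∫ ξ, Real.cos (t * ξ) ∂(ProbabilityTheory.gaussianReal 0 (2 * s)) := by
  have h1 := ProbabilityTheory.charFun_gaussianReal (μ := 0) (v := 2 * s) t
  rw [charFun_apply_real] at h1
  have h2 : (∫ ξ, Real.cos (t * ξ) ∂(ProbabilityTheory.gaussianReal 0 (2 * s))) =
      Complex.re (∫ ξ, Complex.exp (t * ξ * Complex.I)
        ∂(ProbabilityTheory.gaussianReal 0 (2 * s))) := by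
    have h3 : Integrable (fun ξ : ℝ => Complex.exp (t * ξ * Complex.I))
        (ProbabilityTheory.gaussianReal 0 (2 * s)) := by
      refine Integrable.mono' (integrable_const (1 : ℝ)) (by fun_prop) ?_
      refine Filter.Eventually.of_forall fun ξ => ?_
      have : ((t : ℂ) * ξ * Complex.I) = ((t * ξ : ℝ) : ℂ) * Complex.I := by push_cast; ring
      rw [this, Complex.norm_exp_ofReal_mul_I]
    have h4 := integral_re h3
    simp only [RCLike.re_to_complex] at h4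
    rw [← h4]
    refine integral_congr_ae (Filter.Eventually.of_forall fun ξ => ?_)
    simp only
    have : ((t : ℂ) * ξ * Complex.I) = ((t * ξ : ℝ) : ℂ) * Complex.I := by push_cast; ring
    rw [this, Complex.exp_ofReal_mul_I_re]
  rw [h2, h1]
  have : ((t : ℂ) * ((0 : ℝ) : ℂ) * Complex.I - ((2 * s : NNReal) : ℝ) * (t : ℂ) ^ 2 / 2) =
      ((-s * t ^ 2 : ℝ) : ℂ) := by
    push_cast
    ring
  rw [this, Complex.exp_ofReal_re]

lemma cos_QF (ξ : ℝ) (μ ν : Measure ℝ) [IsProbabilityMeasure μ] [IsProbabilityMeasure ν] :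
    QF (fun x y : ℝ => Real.cos ((x - y) * ξ)) μ ν = ‖charFun μ ξ - charFun ν ξ‖ ^ 2 := by
  have hc : ∀ ρ : Measure ℝ, ∀ [IsProbabilityMeasure ρ],
      Integrable (fun x => Real.cos (x * ξ)) ρ := by
    intro ρ _
    refine Integrable.mono' (integrable_const (1 : ℝ)) (by fun_prop) ?_
    exact Filter.Eventually.of_forall fun x => Real.abs_cos_le_one _
  have hs : ∀ ρ : Measure ℝ, ∀ [IsProbabilityMeasure ρ],
      Integrable (fun x => Real.sin (x * ξ)) ρ := by
    intro ρ _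
    refine Integrable.mono' (integrable_const (1 : ℝ)) (by fun_prop) ?_
    exact Filter.Eventually.of_forall fun x => Real.abs_sin_le_one _
  have hb : ∀ ρ κ : Measure ℝ, ∀ [IsProbabilityMeasure ρ], ∀ [IsProbabilityMeasure κ],
      (∫ x, ∫ y, Real.cos ((x - y) * ξ) ∂κ ∂ρ) =
      (∫ x, Real.cos (x * ξ) ∂ρ) * (∫ y, Real.cos (y * ξ) ∂κ) +
      (∫ x, Real.sin (x * ξ) ∂ρ) * (∫ y, Real.sin (y * ξ) ∂κ) := by
    intro ρ κ _ _
    have h1 : ∀ x : ℝ, (∫ y, Real.cos ((x - y) * ξ) ∂κ) =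
        Real.cos (x * ξ) * (∫ y, Real.cos (y * ξ) ∂κ) +
        Real.sin (x * ξ) * (∫ y, Real.sin (y * ξ) ∂κ) := by
      intro x
      rw [← integral_const_mul, ← integral_const_mul,
        ← integral_add ((hc κ).const_mul _) ((hs κ).const_mul _)]
      refine integral_congr_ae (Filter.Eventually.of_forall fun y => ?_)
      simp only
      rw [sub_mul, Real.cos_sub]
    simp_rw [h1]
    rw [integral_add ((hc ρ).mul_const _) ((hs ρ).mul_const _), integral_mul_const,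
      integral_mul_const]
  have hch : ∀ ρ : Measure ℝ, ∀ [IsProbabilityMeasure ρ], charFun ρ ξ =
      ((∫ x, Real.cos (x * ξ) ∂ρ : ℝ) : ℂ) + ((∫ x, Real.sin (x * ξ) ∂ρ : ℝ) : ℂ) * Complex.I := by
    intro ρ _
    rw [charFun_apply_real, ← integral_complex_ofReal, ← integral_complex_ofReal,
      ← integral_mul_const, ← integral_add (hc ρ).ofReal ((hs ρ).ofReal.mul_const _)]
    refine integral_congr_ae (Filter.Eventually.of_forall fun x => ?_)
    simp only
    have : ((ξ : ℂ) * x * Complex.I) = ((x * ξ : ℝ) : ℂ) * Complex.I := by push_cast; ring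
    rw [this, Complex.exp_mul_I]
    push_cast
    rfl
  unfold QF
  rw [hb μ μ, hb μ ν, hb ν ν, hch μ, hch ν, ← Complex.normSq_eq_norm_sq, Complex.normSq_apply]
  simp
  ring

theorem gauss_QF_pos (s : ℝ) (hs : 0 < s) (μ ν : Measure ℝ)
    [IsProbabilityMeasure μ] [IsProbabilityMeasure ν] (hne : μ ≠ ν) :
    0 < QF (fun x y : ℝ => Real.exp (-s * (x - y) ^ 2)) μ ν := by
  lift s to NNReal using hs.le
  have hs' : 0 < s := by exact_mod_cast hs
  have hm : Measurable (fun p : (ℝ × ℝ) × ℝ => Real.cos ((p.1.1 - p.1.2) * p.2)) := by fun_prop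
  have key := psd_mix_QF (ProbabilityTheory.gaussianReal 0 (2 * s))
    (fun ξ x y => Real.cos ((x - y) * ξ)) hm (fun _ => 1) (integrable_const _)
    (Filter.Eventually.of_forall fun ξ x y => Real.abs_cos_le_one _) μ ν
  simp_rw [← cos_gauss, cos_QF] at key
  rw [key.1]
  rw [integral_pos_iff_support_of_nonneg (fun ξ => by positivity) key.2]
  rw [pos_iff_ne_zero]
  intro h0
  apply hne
  apply Measure.ext_of_charFun
  have hv : (2 * s : NNReal) ≠ 0 := by positivity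
  have h1 : (volume : Measure ℝ) (Function.support fun ξ => ‖charFun μ ξ - charFun ν ξ‖ ^ 2) = 0 :=
    (ProbabilityTheory.gaussianReal_absolutelyContinuous' 0 hv) h0
  have h2 : charFun μ =ᵐ[volume] charFun ν := by
    rw [Filter.EventuallyEq, ae_iff]
    refine measure_mono_null ?_ h1
    intro ξ hξ
    have hξ : charFun μ ξ ≠ charFun ν ξ := hξ
    simp only [Function.mem_support]
    have : charFun μ ξ - charFun ν ξ ≠ 0 := sub_ne_zero.mpr hξ
    positivity
  exact (Continuous.ae_eq_iff_eq volume continuous_charFun continuous_charFun).1 h2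

/-- strict version on the real line -/
theorem lam_strict (r e : ℝ) (hr : 0 < r) (hre : r < e) (μ ν : Measure ℝ)
    [IsProbabilityMeasure μ] [IsProbabilityMeasure ν] (hne : μ ≠ ν) :
    0 < (∫ x : ℝ, ∫ y : ℝ, (lam e ((x : ℂ) - y) - lam r ((x : ℂ) - y)) ∂μ ∂μ)
      - 2 * (∫ x : ℝ, ∫ y : ℝ, (lam e ((x : ℂ) - y) - lam r ((x : ℂ) - y)) ∂ν ∂μ)
      + ∫ x : ℝ, ∫ y : ℝ, (lam e ((x : ℂ) - y) - lam r ((x : ℂ) - y)) ∂ν ∂ν := by
  have hnorm : ∀ x y : ℝ, ‖(x : ℂ) - y‖ ^ 2 = (x - y) ^ 2 := by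
    intro x y
    rw [← Complex.ofReal_sub, Complex.norm_real, Real.norm_eq_abs, sq_abs]
  have hkap : ∀ a : ℝ, 0 < a → 0 < QF (fun x y : ℝ => 1 / (a + (x - y) ^ 2)) μ ν := by
    intro a ha
    obtain ⟨h1, h2⟩ := kap_QF (fun x y : ℝ => x - y) (by fun_prop) a ha μ ν
    rw [h1, integral_pos_iff_support_of_nonneg_ae _ h2]
    · have hsub : Ioi (0 : ℝ) ⊆ Function.support (fun s => Real.exp (-a * s) *
          QF (fun x y : ℝ => Real.exp (-s * (x - y) ^ 2)) μ ν) := by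
        intro s hs
        exact (mul_pos (Real.exp_pos _) (gauss_QF_pos s hs μ ν hne)).ne'
      refine lt_of_lt_of_le ?_ (measure_mono hsub)
      rw [Measure.restrict_apply measurableSet_Ioi]
      simp
    · filter_upwards [ae_restrict_mem measurableSet_Ioi] with s hs
      exact (mul_pos (Real.exp_pos _) (gauss_QF_pos s hs μ ν hne)).le
  obtain ⟨h1, h2⟩ := lam_QF (fun x y : ℝ => x - y) (by fun_prop) r e hr hre.le μ ν
  have h3 : QF (fun x y : ℝ => lam e ((x : ℂ) - y) - lam r ((x : ℂ) - y)) μ ν =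
      QF (fun x y : ℝ => Real.log ((x - y) ^ 2 + e ^ 2) / 2 -
        Real.log ((x - y) ^ 2 + r ^ 2) / 2) μ ν := by
    unfold lam
    simp_rw [hnorm]
  change 0 < QF (fun x y : ℝ => lam e ((x : ℂ) - y) - lam r ((x : ℂ) - y)) μ ν
  rw [h3, h1, integral_pos_iff_support_of_nonneg_ae _ h2]
  · have hsub : Ioc (r ^ 2) (e ^ 2) ⊆ Function.support (fun a => (1 / 2 : ℝ) *
        QF (fun x y : ℝ => 1 / (a + (x - y) ^ 2)) μ ν) := by
      intro a ha
      have ha' : 0 < a := lt_of_le_of_lt (by positivity) ha.1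
      exact (mul_pos (by norm_num) (hkap a ha')).ne'
    refine lt_of_lt_of_le ?_ (measure_mono hsub)
    rw [Measure.restrict_apply measurableSet_Ioc, inter_self, Real.volume_Ioc]
    simp only [ENNReal.ofReal_pos, sub_pos]
    nlinarith
  · filter_upwards [ae_restrict_mem measurableSet_Ioc] with a ha
    have ha' : 0 < a := lt_of_le_of_lt (by positivity) ha.1
    exact (mul_pos (by norm_num) (hkap a ha')).le

end Pool.Agent.TraceMin
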