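import Pool.Agent.TraceMin.EnergyE
import Pool.Agent.TraceMin.Psd

/-!
Consequences of positive definiteness for a probability measure on the line and a finite set of
complex points.
-/

open MeasureTheory Polynomial Set Real Filter Topology

namespace Pool.Agent.TraceMin

/-- positive definite kernels (difference kernels on the plane) -/
def PSDk (N : ℂ → ℝ) : Prop := ∀ (σ τ : Measure ℂ) [IsFiniteMeasure σ] [IsFiniteMeasure τ],
  0 ≤ (∫ x, ∫ y, N (x - y) ∂σ ∂σ) - 2 * (∫ x, ∫ y, N (x - y) ∂τ ∂σ) + ∫ x, ∫ y, N (x - y) ∂τ ∂τ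

lemma psd_points (N : ℂ → ℝ) (hN : PSDk N) (hc : Continuous N) (C : ℝ) (hb : ∀ w, |N w| ≤ C)
    (Z : Finset ℂ) (μ : Measure ℝ) [IsProbabilityMeasure μ] (c : ℝ) (hc0 : 0 ≤ c) :
    0 ≤ (∑ α ∈ Z, ∑ β ∈ Z, N (α - β)) - 2 * c * (∑ α ∈ Z, ∫ x : ℝ, N (α - x) ∂μ)
      + c ^ 2 * ∫ x : ℝ, ∫ y : ℝ, N ((x : ℂ) - y) ∂μ ∂μ := by
  set σ : Measure ℂ := ∑ α ∈ Z, Measure.dirac α with hσ
  set τ : Measure ℂ := ENNReal.ofReal c • (μ.map (fun x : ℝ => (x : ℂ))) with hτ
  have hmp : IsProbabilityMeasure (μ.map (fun x : ℝ => (x : ℂ))) :=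
    Measure.isProbabilityMeasure_map Complex.measurable_ofReal.aemeasurable
  have hfσ : IsFiniteMeasure σ := by
    rw [hσ]; infer_instance
  have hfτ : IsFiniteMeasure τ := by
    rw [hτ]
    exact Measure.smul_finite _ ENNReal.ofReal_ne_top
  have h := hN σ τ
  have hbd : ∀ (m : Measure ℂ) [IsFiniteMeasure m] (f : ℂ → ℝ), Measurable f →
      (∃ C', ∀ w, |f w| ≤ C') → Integrable f m := by
    intro m _ f hf ⟨C', hC'⟩
    exact Integrable.of_bound hf.aestronglyMeasurable C' (by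
      filter_upwards with w
      rw [Real.norm_eq_abs]; exact hC' w)
  have hiσ : ∀ (f : ℂ → ℝ), Measurable f → (∃ C', ∀ w, |f w| ≤ C') →
      ∫ x, f x ∂σ = ∑ α ∈ Z, f α := by
    intro f hf hC'
    rw [hσ, integral_finsetSum_measure]
    · apply Finset.sum_congr rfl
      intro α _
      rw [integral_dirac]
    · intro α _
      exact hbd _ f hf hC'
  have hiτ : ∀ (f : ℂ → ℝ), Measurable f → (∃ C', ∀ w, |f w| ≤ C') →
      ∫ x, f x ∂τ = c * ∫ x : ℝ, f x ∂μ := by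
    intro f hf hC'
    rw [hτ, integral_smul_measure, ENNReal.toReal_ofReal hc0, smul_eq_mul,
      integral_map Complex.measurable_ofReal.aemeasurable hf.aestronglyMeasurable]
  have hm1 : ∀ (x : ℂ), Measurable (fun y => N (x - y)) := fun x => (hc.comp (by fun_prop)).measurable
  have hC1 : ∀ (x : ℂ), ∃ C', ∀ y, |N (x - y)| ≤ C' := fun x => ⟨C, fun y => hb _⟩
  have hCc : 0 ≤ C := (abs_nonneg _).trans (hb 0)
  have e1 : (∫ x, ∫ y, N (x - y) ∂σ ∂σ) = ∑ α ∈ Z, ∑ β ∈ Z, N (α - β) := by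
    have : ∀ x, ∫ y, N (x - y) ∂σ = ∑ β ∈ Z, N (x - β) := fun x => hiσ _ (hm1 x) (hC1 x)
    simp_rw [this]
    rw [hiσ]
    · exact (continuous_finsetSum _ fun β _ => hc.comp (by fun_prop)).measurable
    · refine ⟨Z.card * C, fun w => ?_⟩
      refine (Finset.abs_sum_le_sum_abs _ _).trans ?_
      refine (Finset.sum_le_sum fun β _ => hb _).trans ?_
      simp
  have e2 : (∫ x, ∫ y, N (x - y) ∂τ ∂σ) = c * ∑ α ∈ Z, ∫ x : ℝ, N (α - x) ∂μ := by
    have : ∀ x, ∫ y, N (x - y) ∂τ = c * ∫ y : ℝ, N (x - y) ∂μ := fun x => hiτ _ (hm1 x) (hC1 x)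
    simp_rw [this]
    rw [hiσ, Finset.mul_sum]
    · apply Measurable.const_mul
      have hm : Measurable (fun p : ℂ × ℝ => N (p.1 - (p.2 : ℂ))) := by
        apply hc.measurable.comp
        fun_prop
      exact (hm.stronglyMeasurable.integral_prod_right' (ν := μ)).measurable
    · refine ⟨c * C, fun w => ?_⟩
      rw [abs_mul, abs_of_nonneg hc0]
      apply mul_le_mul_of_nonneg_left _ hc0
      have := norm_integral_le_of_norm_le_const (μ := μ) (f := fun y : ℝ => N (w - y)) (C := C)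
        (by filter_upwards with y; rw [Real.norm_eq_abs]; exact hb _)
      simpa using this
  have e3 : (∫ x, ∫ y, N (x - y) ∂τ ∂τ) = c ^ 2 * ∫ x : ℝ, ∫ y : ℝ, N ((x : ℂ) - y) ∂μ ∂μ := by
    have : ∀ x, ∫ y, N (x - y) ∂τ = c * ∫ y : ℝ, N (x - y) ∂μ := fun x => hiτ _ (hm1 x) (hC1 x)
    simp_rw [this]
    rw [hiτ, integral_const_mul]
    · ring
    · apply Measurable.const_mul
      have hm : Measurable (fun p : ℂ × ℝ => N (p.1 - (p.2 : ℂ))) := by
        apply hc.measurable.comp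
        fun_prop
      exact (hm.stronglyMeasurable.integral_prod_right' (ν := μ)).measurable
    · refine ⟨c * C, fun w => ?_⟩
      rw [abs_mul, abs_of_nonneg hc0]
      apply mul_le_mul_of_nonneg_left _ hc0
      have := norm_integral_le_of_norm_le_const (μ := μ) (f := fun y : ℝ => N (w - y)) (C := C)
        (by filter_upwards with y; rw [Real.norm_eq_abs]; exact hb _)
      simpa using this
  rw [e1, e2, e3] at h
  linarith

lemma quad_cs (A B C : ℝ) (hA : 0 ≤ A) (hB : 0 ≤ B) (hC : 0 ≤ C)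
    (h : ∀ c : ℝ, 0 ≤ c → 0 ≤ A - 2 * c * B + c ^ 2 * C) : B ≤ √(C * A) := by
  apply Real.le_sqrt_of_sq_le
  rcases hC.eq_or_lt with h0 | h0
  · rw [← h0] at h ⊢
    have hB0 : B = 0 := by
      by_contra hne
      have hBp : 0 < B := lt_of_le_of_ne hB (Ne.symm hne)
      have := h ((A + 1) / (2 * B)) (by positivity)
      have e : 2 * ((A + 1) / (2 * B)) * B = A + 1 := by field_simp
      rw [e] at this
      linarith
    rw [hB0]; simp
  · have := h (B / C) (by positivity)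
    have e : A - 2 * (B / C) * B + (B / C) ^ 2 * C = A - B ^ 2 / C := by field_simp; ring
    rw [e] at this
    have h2 : B ^ 2 / C ≤ A := by linarith
    rw [div_le_iff₀ h0] at h2
    linarith

lemma lam_sub_nonneg (r e : ℝ) (hr : 0 < r) (hre : r ≤ e) (w : ℂ) : 0 ≤ lam e w - lam r w := by
  unfold lam
  have : Real.log (‖w‖ ^ 2 + r ^ 2) ≤ Real.log (‖w‖ ^ 2 + e ^ 2) := by
    apply Real.log_le_log (by positivity)
    nlinarith
  linarith

lemma lam_sub_le (r e : ℝ) (hr : 0 < r) (hre : r ≤ e) (w : ℂ) :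
    lam e w - lam r w ≤ Real.log e - Real.log r := by
  unfold lam
  have he : 0 < e := by linarith
  have h1 : Real.log (‖w‖ ^ 2 + e ^ 2) + Real.log (r ^ 2) ≤ Real.log (‖w‖ ^ 2 + r ^ 2) + Real.log (e ^ 2) := by
    rw [← Real.log_mul (by positivity) (by positivity), ← Real.log_mul (by positivity) (by positivity)]
    apply Real.log_le_log (by positivity)
    have : r ^ 2 ≤ e ^ 2 := by nlinarith
    nlinarith [sq_nonneg ‖w‖]
  rw [Real.log_pow, Real.log_pow] at h1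
  push_cast at h1
  linarith

lemma psdk_lam (r e : ℝ) (hr : 0 < r) (hre : r ≤ e) : PSDk (fun w => lam e w - lam r w) := by
  intro σ τ _ _
  exact lam_psd r e hr hre σ τ

lemma abs_lam_sub_le (r e : ℝ) (hr : 0 < r) (hre : r ≤ e) (w : ℂ) :
    |lam e w - lam r w| ≤ Real.log e - Real.log r := by
  rw [abs_of_nonneg (lam_sub_nonneg r e hr hre w)]
  exact lam_sub_le r e hr hre w

/-- integrability of `lam` against a compactly supported measure -/
lemma lam_integrable (μ : Measure ℝ) [IsProbabilityMeasure μ] (R : ℝ) (hR : μ (Icc (-R) R)ᶜ = 0)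
    (r : ℝ) (hr : 0 < r) (α : ℂ) : Integrable (fun x : ℝ => lam r ((x : ℂ) - α)) μ := by
  refine Integrable.of_bound (C := |Real.log r| + |Real.log (|R| + ‖α‖ + r)|)
    ((lam_continuous r hr).comp (by fun_prop)).aestronglyMeasurable ?_
  have hmem : ∀ᵐ x ∂μ, x ∈ Icc (-R) R := by rw [ae_iff]; exact hR
  filter_upwards [hmem] with x hx
  have h1 := lam_ge_log_r r hr ((x : ℂ) - α)
  have h2 := lam_le r hr ((x : ℂ) - α)
  have h3 : ‖(x : ℂ) - α‖ ≤ |R| + ‖α‖ := by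
    refine (norm_sub_le _ _).trans ?_
    have : ‖(x : ℂ)‖ ≤ |R| := by
      rw [Complex.norm_real, Real.norm_eq_abs]
      exact (abs_le.mpr hx).trans (le_abs_self R)
    linarith
  have h4 : Real.log (‖(x : ℂ) - α‖ + r) ≤ Real.log (|R| + ‖α‖ + r) :=
    Real.log_le_log (by positivity) (by linarith)
  rw [Real.norm_eq_abs, abs_le]
  have a1 := neg_abs_le (Real.log r)
  have a2 := le_abs_self (Real.log (|R| + ‖α‖ + r))
  have a3 := abs_nonneg (Real.log r)
  have a4 := abs_nonneg (Real.log (|R| + ‖α‖ + r))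
  constructor <;> linarith

lemma lam_prod_integrable (μ : Measure ℝ) [IsProbabilityMeasure μ] (R : ℝ) (hR : μ (Icc (-R) R)ᶜ = 0)
    (r : ℝ) (hr : 0 < r) : Integrable (fun p : ℝ × ℝ => lam r ((p.1 : ℂ) - p.2)) (μ.prod μ) := by
  have hmemp := prod_mem μ R hR
  refine Integrable.of_bound (C := |Real.log r| + |Real.log (2 * |R| + r)|)
    ((lam_continuous r hr).comp (by fun_prop)).aestronglyMeasurable ?_
  filter_upwards [hmemp] with p hp
  have e : ‖(p.1 : ℂ) - p.2‖ = |p.1 - p.2| := by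
    rw [← Complex.ofReal_sub, Complex.norm_real, Real.norm_eq_abs]
  have h1 := lam_ge_log_r r hr ((p.1 : ℂ) - p.2)
  have h2 := lam_le r hr ((p.1 : ℂ) - p.2)
  rw [e] at h2
  have h3 : |p.1 - p.2| ≤ 2 * |R| := hp.trans (by linarith [le_abs_self R])
  have h4 : Real.log (|p.1 - p.2| + r) ≤ Real.log (2 * |R| + r) :=
    Real.log_le_log (by positivity) (by linarith)
  rw [Real.norm_eq_abs, abs_le]
  have a1 := neg_abs_le (Real.log r)
  have a2 := le_abs_self (Real.log (2 * |R| + r))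
  have a3 := abs_nonneg (Real.log r)
  have a4 := abs_nonneg (Real.log (2 * |R| + r))
  constructor <;> linarith

/-- energy with the kernel `lam r` -/
noncomputable def Elam (μ : Measure ℝ) (r : ℝ) : ℝ :=
  ∫ p : ℝ × ℝ, lam r ((p.1 : ℂ) - p.2) ∂(μ.prod μ)

/-- logarithmic energy -/
noncomputable def Elog (μ : Measure ℝ) : ℝ := ∫ p : ℝ × ℝ, Real.log |p.1 - p.2| ∂(μ.prod μ)

lemma Elam_eq (μ : Measure ℝ) [IsProbabilityMeasure μ] (R : ℝ) (hR : μ (Icc (-R) R)ᶜ = 0)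
    (r : ℝ) (hr : 0 < r) : ∫ x : ℝ, ∫ y : ℝ, lam r ((x : ℂ) - y) ∂μ ∂μ = Elam μ r := by
  unfold Elam
  rw [integral_prod _ (lam_prod_integrable μ R hR r hr)]

/-- The inequality with the difference of two smoothed kernels. -/
lemma points_ineq (μ : Measure ℝ) [IsProbabilityMeasure μ] (R : ℝ) (hR : μ (Icc (-R) R)ᶜ = 0)
    (r e : ℝ) (hr : 0 < r) (hre : r ≤ e) (Z : Finset ℂ) (c : ℝ) (hc : 0 ≤ c) :
    0 ≤ (∑ α ∈ Z, ∑ β ∈ Z, (lam e (α - β) - lam r (α - β)))
      - 2 * c * (∑ α ∈ Z, ∫ x : ℝ, (lam e ((x : ℂ) - α) - lam r ((x : ℂ) - α)) ∂μ)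
      + c ^ 2 * (Elam μ e - Elam μ r) := by
  have he : 0 < e := by linarith
  have h := psd_points _ (psdk_lam r e hr hre) ((lam_continuous e he).sub (lam_continuous r hr)) _
    (abs_lam_sub_le r e hr hre) Z μ c hc
  have e1 : ∀ α : ℂ, ∫ x : ℝ, (lam e (α - x) - lam r (α - x)) ∂μ =
      ∫ x : ℝ, (lam e ((x : ℂ) - α) - lam r ((x : ℂ) - α)) ∂μ := by
    intro α
    congr 1
    ext x
    rw [← lam_neg e, ← lam_neg r, neg_sub]
  have e2 : ∫ x : ℝ, ∫ y : ℝ, (lam e ((x : ℂ) - y) - lam r ((x : ℂ) - y)) ∂μ ∂μ = Elam μ e - Elam μ r := by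
    rw [← Elam_eq μ R hR e he, ← Elam_eq μ R hR r hr, ← integral_sub]
    · congr 1
      ext x
      rw [← integral_sub]
      · have := lam_integrable μ R hR e he x
        refine this.congr ?_
        filter_upwards with y
        rw [← lam_neg, neg_sub]
      · have := lam_integrable μ R hR r hr x
        refine this.congr ?_
        filter_upwards with y
        rw [← lam_neg, neg_sub]
    · exact (lam_prod_integrable μ R hR e he).integral_prod_left
    · exact (lam_prod_integrable μ R hR r hr).integral_prod_left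
  beta_reduce at h
  rw [e2] at h
  have e3 : ∑ α ∈ Z, ∫ x : ℝ, (lam e (α - x) - lam r (α - x)) ∂μ =
      ∑ α ∈ Z, ∫ x : ℝ, (lam e ((x : ℂ) - α) - lam r ((x : ℂ) - α)) ∂μ :=
    Finset.sum_congr rfl fun α _ => e1 α
  rw [e3] at h
  exact h

/-- (E1'), obtained with `e → ∞`. -/
lemma points_E1 (μ : Measure ℝ) [IsProbabilityMeasure μ] (R : ℝ) (hR : μ (Icc (-R) R)ᶜ = 0)
    (r : ℝ) (hr : 0 < r) (Z : Finset ℂ) :
    (∑ α ∈ Z, ∑ β ∈ Z, lam r (α - β)) + (Z.card : ℝ) ^ 2 * Elam μ r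
      ≤ 2 * (Z.card : ℝ) * ∑ α ∈ Z, ∫ x : ℝ, lam r ((x : ℂ) - α) ∂μ := by
  have hmemp := prod_mem μ R hR
  set D : ℝ := (Z.card : ℝ) with hD
  set K : ℝ := (∑ α ∈ Z, ∑ β ∈ Z, ‖α - β‖ ^ 2) / 2 + D ^ 2 * (2 * R) ^ 2 / 2 with hK
  have hupper : ∀ B : ℝ, 0 < B → ∀ w : ℂ, lam B w ≤ Real.log B + ‖w‖ ^ 2 / (2 * B ^ 2) := by
    intro B hB w
    unfold lam
    have h1 : ‖w‖ ^ 2 + B ^ 2 = B ^ 2 * (1 + ‖w‖ ^ 2 / B ^ 2) := by field_simp; ring
    rw [h1, Real.log_mul (by positivity) (by positivity), Real.log_pow]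
    have h2 := Real.log_le_sub_one_of_pos (x := 1 + ‖w‖ ^ 2 / B ^ 2) (by positivity)
    have h3 : ‖w‖ ^ 2 / (2 * B ^ 2) = (‖w‖ ^ 2 / B ^ 2) / 2 := by field_simp
    rw [h3]
    push_cast
    linarith
  have main : ∀ B : ℝ, r ≤ B → 1 ≤ B →
      (∑ α ∈ Z, ∑ β ∈ Z, lam r (α - β)) + D ^ 2 * Elam μ r
        - 2 * D * ∑ α ∈ Z, ∫ x : ℝ, lam r ((x : ℂ) - α) ∂μ ≤ K / B ^ 2 := by
    intro B hB hB1
    have hBpos : 0 < B := by linarith
    have h := points_ineq μ R hR r B hr hB Z D (by positivity)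
    have e1 : (∑ α ∈ Z, ∑ β ∈ Z, (lam B (α - β) - lam r (α - β))) =
        (∑ α ∈ Z, ∑ β ∈ Z, lam B (α - β)) - ∑ α ∈ Z, ∑ β ∈ Z, lam r (α - β) := by
      simp only [Finset.sum_sub_distrib]
    have e2 : (∑ α ∈ Z, ∫ x : ℝ, (lam B ((x : ℂ) - α) - lam r ((x : ℂ) - α)) ∂μ) =
        (∑ α ∈ Z, ∫ x : ℝ, lam B ((x : ℂ) - α) ∂μ) - ∑ α ∈ Z, ∫ x : ℝ, lam r ((x : ℂ) - α) ∂μ := by
      rw [← Finset.sum_sub_distrib]
      apply Finset.sum_congr rfl
      intro α _
      exact integral_sub (lam_integrable μ R hR B hBpos α) (lam_integrable μ R hR r hr α)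
    rw [e1, e2] at h
    have u1 : (∑ α ∈ Z, ∑ β ∈ Z, lam B (α - β)) ≤
        D ^ 2 * Real.log B + (∑ α ∈ Z, ∑ β ∈ Z, ‖α - β‖ ^ 2) / (2 * B ^ 2) := by
      calc (∑ α ∈ Z, ∑ β ∈ Z, lam B (α - β)) ≤
          ∑ α ∈ Z, ∑ β ∈ Z, (Real.log B + ‖α - β‖ ^ 2 / (2 * B ^ 2)) := by
            apply Finset.sum_le_sum; intro α _
            apply Finset.sum_le_sum; intro β _
            exact hupper B hBpos _
        _ = _ := by
            simp only [Finset.sum_add_distrib, Finset.sum_const, nsmul_eq_mul, ← Finset.sum_div]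
            rw [hD]; ring
    have u2 : D * Real.log B ≤ ∑ α ∈ Z, ∫ x : ℝ, lam B ((x : ℂ) - α) ∂μ := by
      have : ∀ α ∈ Z, Real.log B ≤ ∫ x : ℝ, lam B ((x : ℂ) - α) ∂μ := by
        intro α _
        have h1 := integral_mono (integrable_const (Real.log B)) (lam_integrable μ R hR B hBpos α)
          (fun x => lam_ge_log_r B hBpos _)
        simpa using h1
      have h2 := Finset.sum_le_sum this
      simpa [hD] using h2
    have u3 : Elam μ B ≤ Real.log B + (2 * R) ^ 2 / (2 * B ^ 2) := by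
      unfold Elam
      have h1 : ∫ p : ℝ × ℝ, lam B ((p.1 : ℂ) - p.2) ∂(μ.prod μ) ≤
          ∫ p : ℝ × ℝ, (Real.log B + (2 * R) ^ 2 / (2 * B ^ 2)) ∂(μ.prod μ) := by
        apply integral_mono_ae (lam_prod_integrable μ R hR B hBpos) (integrable_const _)
        filter_upwards [hmemp] with p hp
        refine (hupper B hBpos _).trans ?_
        have e : ‖(p.1 : ℂ) - p.2‖ = |p.1 - p.2| := by
          rw [← Complex.ofReal_sub, Complex.norm_real, Real.norm_eq_abs]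
        rw [e]
        have : |p.1 - p.2| ^ 2 ≤ (2 * R) ^ 2 := by
          apply pow_le_pow_left₀ (abs_nonneg _) hp
        gcongr
      simpa using h1
    have u4 : 2 * D * (D * Real.log B) ≤ 2 * D * ∑ α ∈ Z, ∫ x : ℝ, lam B ((x : ℂ) - α) ∂μ := by
      apply mul_le_mul_of_nonneg_left u2 (by positivity)
    have u5 : D ^ 2 * Elam μ B ≤ D ^ 2 * (Real.log B + (2 * R) ^ 2 / (2 * B ^ 2)) := by
      apply mul_le_mul_of_nonneg_left u3 (by positivity)
    have e3 : K / B ^ 2 = (∑ α ∈ Z, ∑ β ∈ Z, ‖α - β‖ ^ 2) / (2 * B ^ 2) + D ^ 2 * ((2 * R) ^ 2 / (2 * B ^ 2)) := by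
      rw [hK]; field_simp
    rw [e3]
    nlinarith
  have hlim : Tendsto (fun B : ℝ => K / B ^ 2) atTop (𝓝 0) := by
    apply Tendsto.div_atTop tendsto_const_nhds
    exact tendsto_pow_atTop (by norm_num)
  have := ge_of_tendsto hlim (b := (∑ α ∈ Z, ∑ β ∈ Z, lam r (α - β)) + D ^ 2 * Elam μ r
        - 2 * D * ∑ α ∈ Z, ∫ x : ℝ, lam r ((x : ℂ) - α) ∂μ) (by
    filter_upwards [eventually_ge_atTop r, eventually_ge_atTop 1] with B h1 h2
    exact main B h1 h2)
  linarith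

end Pool.Agent.TraceMin
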