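import Pool.Agent.TraceMin.PiecesD
import Pool.Agent.TraceMin.Discr
import Pool.Agent.TraceMin.Defs3

/-!
Uniform smallness of the concentration function, and bookkeeping for products of irreducible
polynomials.
-/

open MeasureTheory Polynomial Set Real Filter Topology

namespace Pool.Agent.TraceMin

lemma psdk_kap (a : ℝ) (ha : 0 < a) : PSDk (fun w => 1 / (a + ‖w‖ ^ 2)) := by
  intro σ τ _ _
  exact kap_psd a ha σ τ

lemma kap_continuous (a : ℝ) (ha : 0 < a) : Continuous (fun w : ℂ => 1 / (a + ‖w‖ ^ 2)) := by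
  apply Continuous.div continuous_const (by fun_prop)
  intro w; positivity

lemma abs_kap_le (a : ℝ) (ha : 0 < a) (w : ℂ) : |1 / (a + ‖w‖ ^ 2)| ≤ 1 / a := by
  rw [abs_of_nonneg (by positivity)]
  apply one_div_le_one_div_of_le ha
  have := sq_nonneg ‖w‖
  linarith

lemma omega_small (μ : Measure ℝ) [IsProbabilityMeasure μ]
    (hdiag : (μ.prod μ) {p | p.1 = p.2} = 0) (κ : ℝ) (hκ : 0 < κ) :
    ∃ r₀ : ℝ, 0 < r₀ ∧ ∀ r : ℝ, 0 < r → r < r₀ → ∀ z : ℂ,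
      ∫ x : ℝ, r ^ 2 / (r ^ 2 + ‖(x : ℂ) - z‖ ^ 2) ∂μ ≤ κ := by
  set Ω : ℝ → ℝ := fun r => ∫ p : ℝ × ℝ, r ^ 2 / (r ^ 2 + ‖(p.1 : ℂ) - p.2‖ ^ 2) ∂(μ.prod μ) with hΩ
  have hlim : Tendsto Ω (𝓝[>] 0) (𝓝 0) := by
    have h0 : ∫ p : ℝ × ℝ, (0:ℝ) ∂(μ.prod μ) = 0 := by simp
    have hgoal : Tendsto Ω (𝓝[>] 0) (𝓝 (∫ p : ℝ × ℝ, (0:ℝ) ∂(μ.prod μ))) := ?_
    · rw [h0] at hgoal; exact hgoal
    simp only [hΩ]
    apply tendsto_integral_filter_of_dominated_convergence (fun _ : ℝ × ℝ => (1:ℝ))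
    · filter_upwards [self_mem_nhdsWithin] with r hr
      have hr' : 0 < r := hr
      apply Continuous.aestronglyMeasurable
      apply Continuous.div continuous_const (by fun_prop)
      intro p; positivity
    · filter_upwards [self_mem_nhdsWithin] with r hr
      have hr' : 0 < r := hr
      filter_upwards with p
      rw [Real.norm_eq_abs, abs_of_nonneg (by positivity), div_le_one (by positivity)]
      have := sq_nonneg ‖(p.1 : ℂ) - p.2‖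
      linarith
    · exact integrable_const _
    · filter_upwards [off_diag μ hdiag] with p hp
      have hne : ‖(p.1 : ℂ) - p.2‖ ^ 2 ≠ 0 := by
        apply pow_ne_zero
        rw [norm_ne_zero_iff, sub_ne_zero]
        exact_mod_cast hp
      have h1 : Tendsto (fun r : ℝ => r ^ 2 / (r ^ 2 + ‖(p.1 : ℂ) - p.2‖ ^ 2)) (𝓝 0)
          (𝓝 (0 ^ 2 / (0 ^ 2 + ‖(p.1 : ℂ) - p.2‖ ^ 2))) := by
        apply Tendsto.div
        · exact (continuous_pow 2).tendsto 0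
        · apply Continuous.tendsto; fun_prop
        · simpa using hne
      have e : (0:ℝ) ^ 2 / (0 ^ 2 + ‖(p.1 : ℂ) - p.2‖ ^ 2) = 0 := by simp
      rw [e] at h1
      exact h1.mono_left nhdsWithin_le_nhds
  have hev : ∀ᶠ r in 𝓝[>] (0:ℝ), Ω r < κ ^ 2 := hlim.eventually_lt_const (by positivity)
  obtain ⟨r₀, hr₀, hr₀'⟩ := (mem_nhdsGT_iff_exists_Ioo_subset).mp hev
  refine ⟨r₀, hr₀, ?_⟩
  intro r hr hrr z
  have hΩr : Ω r < κ ^ 2 := hr₀' ⟨hr, hrr⟩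
  have ha : 0 < r ^ 2 := by positivity
  -- quadratic inequality
  have hq := fun (c : ℝ) (hc : 0 ≤ c) => psd_points _ (psdk_kap (r ^ 2) ha) (kap_continuous _ ha) _
    (abs_kap_le _ ha) {z} μ c hc
  simp only [Finset.sum_singleton] at hq
  have hB0 : 0 ≤ ∫ x : ℝ, 1 / (r ^ 2 + ‖z - (x : ℂ)‖ ^ 2) ∂μ := integral_nonneg fun x => by positivity
  have hC0 : 0 ≤ ∫ x : ℝ, ∫ y : ℝ, 1 / (r ^ 2 + ‖(x : ℂ) - y‖ ^ 2) ∂μ ∂μ :=
    integral_nonneg fun x => integral_nonneg fun y => by positivity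
  have hcs := quad_cs (1 / (r ^ 2 + ‖z - z‖ ^ 2)) _ _ (by positivity) hB0 hC0 hq
  have e1 : r ^ 2 * (∫ x : ℝ, ∫ y : ℝ, 1 / (r ^ 2 + ‖(x : ℂ) - y‖ ^ 2) ∂μ ∂μ) = Ω r := by
    simp only [hΩ]
    have hi : Integrable (fun p : ℝ × ℝ => 1 / (r ^ 2 + ‖(p.1 : ℂ) - p.2‖ ^ 2)) (μ.prod μ) := by
      refine Integrable.of_bound (C := 1 / r ^ 2) ?_ ?_
      · apply Continuous.aestronglyMeasurable
        apply Continuous.div continuous_const (by fun_prop)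
        intro p; positivity
      · filter_upwards with p
        rw [Real.norm_eq_abs]
        exact abs_kap_le _ ha _
    rw [← integral_prod _ hi, ← integral_const_mul]
    apply integral_congr_ae
    filter_upwards with p
    ring
  have e2 : ∫ x : ℝ, r ^ 2 / (r ^ 2 + ‖(x : ℂ) - z‖ ^ 2) ∂μ =
      r ^ 2 * ∫ x : ℝ, 1 / (r ^ 2 + ‖z - (x : ℂ)‖ ^ 2) ∂μ := by
    rw [← integral_const_mul]
    apply integral_congr_ae
    filter_upwards with x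
    rw [norm_sub_rev]
    ring
  rw [e2]
  calc r ^ 2 * ∫ x : ℝ, 1 / (r ^ 2 + ‖z - (x : ℂ)‖ ^ 2) ∂μ
      ≤ r ^ 2 * √((∫ x : ℝ, ∫ y : ℝ, 1 / (r ^ 2 + ‖(x : ℂ) - y‖ ^ 2) ∂μ ∂μ) * (1 / (r ^ 2 + ‖z - z‖ ^ 2))) := by
        gcongr
    _ = √(Ω r) := by
        rw [← e1]
        rw [show r ^ 2 * (∫ x : ℝ, ∫ y : ℝ, 1 / (r ^ 2 + ‖(x : ℂ) - y‖ ^ 2) ∂μ ∂μ) =
          (r ^ 2) ^ 2 * ((∫ x : ℝ, ∫ y : ℝ, 1 / (r ^ 2 + ‖(x : ℂ) - y‖ ^ 2) ∂μ ∂μ) * (1 / (r ^ 2 + ‖z - z‖ ^ 2))) by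
            simp; field_simp]
        rw [Real.sqrt_mul (by positivity) (((∫ x : ℝ, ∫ y : ℝ, 1 / (r ^ 2 + ‖(x : ℂ) - y‖ ^ 2) ∂μ ∂μ) *
          (1 / (r ^ 2 + ‖z - z‖ ^ 2)))), Real.sqrt_sq (by positivity)]
    _ ≤ √(κ ^ 2) := Real.sqrt_le_sqrt hΩr.le
    _ = κ := Real.sqrt_sq hκ.le

/-! ### products -/

lemma irr_nodup (Q : ℤ[X]) (h : Irreducible Q ∧ 0 < Q.natDegree ∧ 0 < Q.leadingCoeff) :
    (Q.aroots ℂ).Nodup := by
  have := prod_aroots_nodup {Q} (by simpa using h)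
  simpa using this

lemma sum_Zf (Q : ℤ[X]) (h : (Q.aroots ℂ).Nodup) (f : ℂ → ℝ) :
    ∑ α ∈ Zf Q, f α = ((Q.aroots ℂ).map f).sum := by
  unfold Zf
  rw [Finset.sum_multiset_map_count]
  apply Finset.sum_congr rfl
  intro α hα
  rw [Multiset.mem_toFinset] at hα
  rw [Multiset.count_eq_one_of_mem h hα, one_smul]

lemma card_Zf (Q : ℤ[X]) (h : (Q.aroots ℂ).Nodup) : (Zf Q).card = Q.natDegree := by
  unfold Zf
  rw [Multiset.toFinset_card_of_nodup h]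
  unfold Polynomial.aroots
  have hs := (IsAlgClosed.splits (Q.map (algebraMap ℤ ℂ))).natDegree_eq_card_roots
  rw [← hs, natDegree_map_eq_of_injective (algebraMap ℤ ℂ).injective_int]

lemma prod_aroots (S : Finset ℤ[X]) (h0 : ∀ Q ∈ S, Q ≠ 0) (f : ℂ → ℝ) :
    (((∏ Q ∈ S, Q).aroots ℂ).map f).sum = ∑ Q ∈ S, ((Q.aroots ℂ).map f).sum := by
  classical
  induction S using Finset.induction_on with
  | empty => simp
  | insert Q S hQ ih =>
    rw [Finset.prod_insert hQ, Finset.sum_insert hQ, aroots_mul, Multiset.map_add, Multiset.sum_add,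
      ih (fun Q' hQ' => h0 Q' (Finset.mem_insert_of_mem hQ'))]
    apply mul_ne_zero (h0 Q (Finset.mem_insert_self _ _))
    rw [Finset.prod_ne_zero_iff]
    intro Q' hQ'
    exact h0 Q' (Finset.mem_insert_of_mem hQ')

end Pool.Agent.TraceMin
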