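import Pool.Agent.TraceMin.Holder

/-!
The tail of a certificate: discard the factors with large smoothed logarithmic mean.
-/

open MeasureTheory Polynomial Set

namespace Pool.Agent.TraceMin

lemma tail_sep (Q : ℤ[X]) (hQ : Irreducible Q) (hd : 0 < Q.natDegree) :
    (Q.map (algebraMap ℤ ℂ)).Separable := by
  have hp : Q.IsPrimitive := hQ.isPrimitive hd.ne'
  have h1 : Irreducible (Q.map (Int.castRingHom ℚ)) :=
    (Polynomial.IsPrimitive.Int.irreducible_iff_irreducible_map_cast hp).mp hQ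
  have h2 := h1.separable
  have h3 := h2.map (f := algebraMap ℚ ℂ)
  rw [Polynomial.map_map] at h3
  have e : (algebraMap ℚ ℂ).comp (Int.castRingHom ℚ) = algebraMap ℤ ℂ := RingHom.ext_int _ _
  rw [e] at h3
  exact h3

lemma tail_card_Zf (Q : ℤ[X]) (hQ : Irreducible Q) (hd : 0 < Q.natDegree) :
    (Zf Q).card = Q.natDegree := by
  classical
  have h1 := tail_sep Q hQ hd
  unfold Zf
  rw [Polynomial.aroots_def, Multiset.toFinset_card_of_nodup (nodup_roots h1)]
  rw [IsAlgClosed.card_roots_eq_natDegree]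
  apply natDegree_map_eq_of_injective
  exact (algebraMap ℤ ℂ).injective_int

lemma tail_log_eq (Q : ℤ[X]) (hQ : Irreducible Q) (hd : 0 < Q.natDegree) (hlc : 0 < Q.leadingCoeff)
    (x : ℝ) (hx : aeval x Q ≠ 0) :
    Real.log |aeval x Q| = Real.log (Q.leadingCoeff : ℝ) + ∑ α ∈ Zf Q, Real.log ‖(x : ℂ) - α‖ := by
  classical
  have h1 := tail_sep Q hQ hd
  have hinj : Function.Injective (algebraMap ℤ ℂ) := (algebraMap ℤ ℂ).injective_int
  have h2 : aeval (x : ℂ) Q = (Q.leadingCoeff : ℂ) * ∏ α ∈ Zf Q, ((x : ℂ) - α) := by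
    have h3 := (IsAlgClosed.splits (Q.map (algebraMap ℤ ℂ))).eq_prod_roots
    have h4 : aeval (x : ℂ) Q = (Q.map (algebraMap ℤ ℂ)).eval (x : ℂ) := by
      rw [eval_map_algebraMap]
    rw [h4, h3, eval_mul, eval_C, leadingCoeff_map_of_injective hinj]
    congr 1
    unfold Zf
    rw [eval_multiset_prod, Multiset.map_map]
    rw [Finset.prod, Multiset.toFinset_val, Polynomial.aroots_def,
      Multiset.dedup_eq_self.mpr (nodup_roots h1)]
    congr 1
    apply Multiset.map_congr rfl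
    intro α _
    simp
  have h5 : aeval (x : ℂ) Q = ((aeval x Q : ℝ) : ℂ) := by
    have := Polynomial.aeval_algebraMap_apply ℂ x Q
    simpa using this
  have h6 : |aeval x Q| = (Q.leadingCoeff : ℝ) * ∏ α ∈ Zf Q, ‖(x : ℂ) - α‖ := by
    have h7 : ‖((aeval x Q : ℝ) : ℂ)‖ = |aeval x Q| := by
      rw [Complex.norm_real, Real.norm_eq_abs]
    rw [← h7, ← h5, h2, norm_mul, norm_prod]
    congr 1
    rw [Complex.norm_intCast]
    rw [abs_of_pos (by exact_mod_cast hlc)]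
  have h8 : ∀ α ∈ Zf Q, ‖(x : ℂ) - α‖ ≠ 0 := by
    intro α hα h0
    apply hx
    have : ∏ α ∈ Zf Q, ‖(x : ℂ) - α‖ = 0 := Finset.prod_eq_zero hα h0
    rw [this, mul_zero] at h6
    exact abs_eq_zero.mp h6
  rw [h6, Real.log_mul (by exact_mod_cast hlc.ne') (Finset.prod_ne_zero_iff.mpr h8),
    Real.log_prod h8]

lemma tail_kr_integrable (μ : Measure ℝ) [IsProbabilityMeasure μ] (R : ℝ) (hR : μ (Icc (-R) R)ᶜ = 0)
    (r : ℝ) (hr : 0 < r) (α : ℂ) : Integrable (fun x : ℝ => kr r ((x : ℂ) - α)) μ := by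
  refine Integrable.of_bound (C := |Real.log r| + 1 + |Real.log (|R| + ‖α‖ + r)|)
    ((kr_measurable r).comp (by fun_prop)).aestronglyMeasurable ?_
  have hmem : ∀ᵐ x ∂μ, x ∈ Icc (-R) R := by rw [ae_iff]; exact hR
  filter_upwards [hmem] with x hx
  have h1 := kr_ge r hr ((x : ℂ) - α)
  have h2 := kr_le r hr ((x : ℂ) - α)
  have h3 : ‖(x : ℂ) - α‖ ≤ |R| + ‖α‖ := by
    refine (norm_sub_le _ _).trans ?_
    have : ‖(x : ℂ)‖ ≤ |R| := by
      rw [Complex.norm_real, Real.norm_eq_abs]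
      exact (abs_le.mpr hx).trans (le_abs_self R)
    linarith
  have h4 : Real.log (‖(x : ℂ) - α‖ + r) ≤ Real.log (|R| + ‖α‖ + r) :=
    Real.log_le_log (by positivity) (by linarith)
  rw [Real.norm_eq_abs, abs_le]
  have a1 := neg_abs_le (Real.log r)
  have a2 := le_abs_self (Real.log (|R| + ‖α‖ + r))
  have a3 := abs_nonneg (Real.log r)
  have a4 := abs_nonneg (Real.log (|R| + ‖α‖ + r))
  constructor <;> linarith

/-- the smoothed logarithmic mean of `Q` -/
noncomputable def Jm (μ : Measure ℝ) (r : ℝ) (Q : ℤ[X]) : ℝ :=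
  Real.log (Q.leadingCoeff : ℝ) + ∑ α ∈ Zf Q, ∫ x : ℝ, kr r ((x : ℂ) - α) ∂μ

lemma tail_Jm_eq (μ : Measure ℝ) [IsProbabilityMeasure μ] (R : ℝ) (hR : μ (Icc (-R) R)ᶜ = 0)
    (r : ℝ) (hr : 0 < r) (Q : ℤ[X]) :
    Jm μ r Q = ∫ x : ℝ, (Real.log (Q.leadingCoeff : ℝ) + ∑ α ∈ Zf Q, kr r ((x : ℂ) - α)) ∂μ := by
  unfold Jm
  rw [integral_add (integrable_const _)
    (integrable_finsetSum _ (fun α _ => tail_kr_integrable μ R hR r hr α)),
    integral_finsetSum _ (fun α _ => tail_kr_integrable μ R hR r hr α)]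
  simp

lemma tail_Jint (μ : Measure ℝ) [IsProbabilityMeasure μ] (R : ℝ) (hR : μ (Icc (-R) R)ᶜ = 0)
    (r : ℝ) (hr : 0 < r) (Q : ℤ[X]) :
    Integrable (fun x : ℝ => Real.log (Q.leadingCoeff : ℝ) + ∑ α ∈ Zf Q, kr r ((x : ℂ) - α)) μ :=
  (integrable_const _).add (integrable_finsetSum _ (fun α _ => tail_kr_integrable μ R hR r hr α))

lemma tail_rat_integrable (μ : Measure ℝ) [IsProbabilityMeasure μ]
    (r : ℝ) (hr : 0 < r) (α : ℂ) :
    Integrable (fun x : ℝ => r ^ 2 / (r ^ 2 + ‖(x : ℂ) - α‖ ^ 2)) μ := by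
  refine Integrable.of_bound (C := 1) ?_ ?_
  · apply Continuous.aestronglyMeasurable
    apply Continuous.div (by fun_prop) (by fun_prop)
    intro x
    positivity
  · filter_upwards with x
    rw [Real.norm_eq_abs, abs_of_nonneg (by positivity), div_le_one (by positivity)]
    nlinarith [sq_nonneg ‖(x : ℂ) - α‖]

/-- lower bound for the smoothed mean -/
lemma tail_Jm_ge (μ : Measure ℝ) [IsProbabilityMeasure μ] (R : ℝ) (hR : μ (Icc (-R) R)ᶜ = 0)
    (harith : IsArith μ) (r : ℝ) (hr : 0 < r) (Q : ℤ[X]) (hQ : Irreducible Q)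
    (hd : 0 < Q.natDegree) (hlc : 0 < Q.leadingCoeff) :
    -(10 * ∫ x : ℝ, (∑ α ∈ Zf Q, r ^ 2 / (r ^ 2 + ‖(x : ℂ) - α‖ ^ 2)) ∂μ) ≤ Jm μ r Q := by
  obtain ⟨h0, hint, hpos⟩ := harith Q hQ.ne_zero
  rw [tail_Jm_eq μ R hR r hr Q]
  have hi2 : Integrable (fun x : ℝ => ∑ α ∈ Zf Q, r ^ 2 / (r ^ 2 + ‖(x : ℂ) - α‖ ^ 2)) μ :=
    integrable_finsetSum _ (fun α _ => tail_rat_integrable μ r hr α)
  have key : ∫ x : ℝ, (Real.log |aeval x Q| -
      10 * ∑ α ∈ Zf Q, r ^ 2 / (r ^ 2 + ‖(x : ℂ) - α‖ ^ 2)) ∂μ ≤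
      ∫ x : ℝ, (Real.log (Q.leadingCoeff : ℝ) + ∑ α ∈ Zf Q, kr r ((x : ℂ) - α)) ∂μ := by
    apply integral_mono_ae (hint.sub (hi2.const_mul 10)) (tail_Jint μ R hR r hr Q)
    have hae : ∀ᵐ x ∂μ, aeval x Q ≠ 0 := by rw [ae_iff]; simpa using h0
    filter_upwards [hae] with x hx
    show Real.log |aeval x Q| - 10 * ∑ α ∈ Zf Q, r ^ 2 / (r ^ 2 + ‖(x : ℂ) - α‖ ^ 2) ≤ _
    rw [tail_log_eq Q hQ hd hlc x hx]
    have h8 : ∀ α ∈ Zf Q, (x : ℂ) - α ≠ 0 := by
      intro α hα h1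
      apply hx
      have hα' : aeval α Q = 0 := by
        unfold Zf at hα
        rw [Multiset.mem_toFinset] at hα
        exact (mem_aroots.mp hα).2
      have h2 : (x : ℂ) = α := sub_eq_zero.mp h1
      rw [← h2] at hα'
      have h5 : aeval (x : ℂ) Q = ((aeval x Q : ℝ) : ℂ) := by
        have := Polynomial.aeval_algebraMap_apply ℂ x Q
        simpa using this
      rw [h5] at hα'
      exact_mod_cast hα'
    have h9 : ∑ α ∈ Zf Q, (Real.log ‖(x : ℂ) - α‖ - 10 * (r ^ 2 / (r ^ 2 + ‖(x : ℂ) - α‖ ^ 2))) ≤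
        ∑ α ∈ Zf Q, kr r ((x : ℂ) - α) := by
      apply Finset.sum_le_sum
      intro α hα
      have a1 := kr_ge_lam r hr ((x : ℂ) - α)
      have a2 := lam_ge_log_norm r _ (h8 α hα)
      rw [mul_div_assoc] at a1
      linarith
    rw [Finset.sum_sub_distrib, ← Finset.mul_sum] at h9
    linarith
  rw [integral_sub hint (hi2.const_mul 10), integral_const_mul] at key
  linarith

/-- pointwise upper bound by the smoothed mean -/
lemma tail_log_le (μ : Measure ℝ) [IsProbabilityMeasure μ] (R : ℝ) (hR : 9 ≤ R)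
    (hsupp : μ (Icc (-(R - 1)) (R - 1))ᶜ = 0) (r : ℝ) (hr : 0 < r) (hr1 : r < 1)
    (Q : ℤ[X]) (hQ : Irreducible Q)
    (hd : 0 < Q.natDegree) (hlc : 0 < Q.leadingCoeff) (x : ℝ) (hx : |x| ≤ R - 1)
    (hQx : aeval x Q ≠ 0) :
    Real.log |aeval x Q| ≤ Jm μ r Q + Q.natDegree * (11 + Real.log (2 * R) - Real.log r) := by
  rw [tail_log_eq Q hQ hd hlc x hQx]
  unfold Jm
  have h1 : ∀ α ∈ Zf Q, Real.log ‖(x : ℂ) - α‖ ≤
      (∫ y : ℝ, kr r ((y : ℂ) - α) ∂μ) + (11 + Real.log (2 * R) - Real.log r) := by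
    intro α _
    have h2 : (∫ _ : ℝ, Real.log ‖(x : ℂ) - α‖ ∂μ) ≤
        ∫ y : ℝ, (kr r ((y : ℂ) - α) + (11 + Real.log (2 * R) - Real.log r)) ∂μ := by
      apply integral_mono_ae (integrable_const _)
        ((tail_kr_integrable μ (R - 1) hsupp r hr α).add (integrable_const _))
      have hmem : ∀ᵐ y ∂μ, y ∈ Icc (-(R - 1)) (R - 1) := by rw [ae_iff]; exact hsupp
      filter_upwards [hmem] with y hy
      have b1 := kr_ge_log_add r hr ((y : ℂ) - α)
      have b2 : ‖(x : ℂ) - α‖ ≤ ‖(y : ℂ) - α‖ + 2 * R := by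
        have e : (x : ℂ) - α = ((y : ℂ) - α) + ((x - y : ℝ) : ℂ) := by push_cast; ring
        rw [e]
        refine (norm_add_le _ _).trans ?_
        have : ‖((x - y : ℝ) : ℂ)‖ ≤ 2 * R := by
          rw [Complex.norm_real, Real.norm_eq_abs]
          have := abs_le.mp hx
          rw [abs_le]
          constructor <;> linarith [hy.1, hy.2]
        linarith
      show Real.log ‖(x : ℂ) - α‖ ≤ kr r ((y : ℂ) - α) + (11 + Real.log (2 * R) - Real.log r)
      have b3 : Real.log ‖(x : ℂ) - α‖ ≤ Real.log ((‖(y : ℂ) - α‖ + r) * (2 * R) / r) := by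
        rcases (norm_nonneg ((x : ℂ) - α)).eq_or_lt with h0 | h0
        · rw [← h0, Real.log_zero]
          apply Real.log_nonneg
          rw [le_div_iff₀ hr]
          nlinarith [norm_nonneg ((y : ℂ) - α)]
        · apply Real.log_le_log h0
          rw [le_div_iff₀ hr]
          nlinarith [norm_nonneg ((y : ℂ) - α)]
      have hyr : 0 < ‖(y : ℂ) - α‖ + r := by positivity
      rw [Real.log_div (by positivity) hr.ne', Real.log_mul hyr.ne' (by positivity)] at b3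
      linarith
    rw [integral_add (tail_kr_integrable μ (R - 1) hsupp r hr α) (integrable_const _)] at h2
    simp only [integral_const, probReal_univ, smul_eq_mul, one_mul] at h2
    exact h2
  have h3 := Finset.sum_le_sum h1
  rw [Finset.sum_add_distrib, Finset.sum_const, tail_card_Zf Q hQ hd, nsmul_eq_mul] at h3
  linarith

theorem tail_split (μ : Measure ℝ) [IsProbabilityMeasure μ] (R l : ℝ) (hR : 9 ≤ R) (hl : 0 ≤ l)
    (hsupp : μ (Icc (-(R - 1)) (R - 1))ᶜ = 0) (harith : IsArith μ) (hV : ∫ y, y ^ 2 ∂μ = l)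
    (I : ℝ) (hI : 0 < I) :
    ∃ C : ℝ, 0 < C ∧ ∀ r : ℝ, 0 < r → r < 1 → ∀ (S : Finset ℤ[X]) (a : ℤ[X] → ℝ),
      Cert R l (r ^ (1 / 5 : ℝ)) S a → ∃ S' ⊆ S,
        (∑ Q ∈ S', (Real.log (Q.leadingCoeff : ℝ) + ∑ α ∈ Zf Q, ∫ x : ℝ, kr r ((x : ℂ) - α) ∂μ)
          ≤ I / 8 * ∑ Q ∈ S', (Q.natDegree : ℝ)) ∧
        Integrable (fun x : ℝ => x ^ 2 - l + r ^ (1 / 5 : ℝ) - ∑ Q ∈ S', a Q * Real.log |aeval x Q|) μ ∧
        ∫ x : ℝ, |x ^ 2 - l + r ^ (1 / 5 : ℝ) - ∑ Q ∈ S', a Q * Real.log (|aeval x Q|)| ∂μ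
          ≤ C * r ^ (1 / 10 : ℝ) * (1 - Real.log r) := by
  classical
  obtain ⟨Ch, hCh, hold⟩ := holder R l hR hl
  set C' : ℝ := max Ch 100 with hC'
  have hC'0 : 100 ≤ C' := le_max_right _ _
  set C1 : ℝ := 2 + 20 * C' with hC1
  set K : ℝ := 1 + 8 / I * (11 + Real.log (2 * R)) with hK
  have hlog2R : 0 ≤ Real.log (2 * R) := Real.log_nonneg (by linarith)
  have h8I : 0 < 8 / I := by positivity
  have hK1 : 1 ≤ K := by
    have : 0 ≤ 8 / I * (11 + Real.log (2 * R)) := by positivity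
    rw [hK]; linarith
  have hK2 : 8 / I ≤ K := by
    have : 8 / I * 11 ≤ 8 / I * (11 + Real.log (2 * R)) := by gcongr; linarith
    rw [hK]; linarith
  refine ⟨1 + 2 * C1 * K, by positivity, ?_⟩
  intro r hr hr1 S a hcert
  have hcertP := hcert.1
  have hcertI := hcert.2
  set ε : ℝ := r ^ (1 / 5 : ℝ) with hε
  set β : ℝ := r ^ (1 / 10 : ℝ) with hβ
  have hβ0 : 0 < β := Real.rpow_pos_of_pos hr _
  have hβ1 : β ≤ 1 := Real.rpow_le_one hr.le hr1.le (by norm_num)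
  have hε0 : 0 < ε := Real.rpow_pos_of_pos hr _
  have hεβ : ε ≤ β := by
    rw [hε, hβ]
    exact Real.rpow_le_rpow_of_exponent_ge hr hr1.le (by norm_num)
  have hε1 : ε ≤ 1 := hεβ.trans hβ1
  have hr2 : r ^ 2 ≤ β := by
    rw [hβ, ← Real.rpow_natCast]
    exact Real.rpow_le_rpow_of_exponent_ge hr hr1.le (by norm_num)
  have hlogr : Real.log r ≤ 0 := Real.log_nonpos hr.le hr1.le
  -- basic facts
  have hmem : ∀ᵐ x ∂μ, x ∈ Icc (-(R - 1)) (R - 1) := by rw [ae_iff]; exact hsupp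
  have hne : ∀ᵐ x ∂μ, ∀ Q ∈ S, aeval x Q ≠ 0 := by
    rw [Filter.eventually_all_finset]
    intro Q hQ
    rw [ae_iff]
    simpa using (harith Q (hcertP Q hQ).1.ne_zero).1
  have hx2 : Integrable (fun x : ℝ => x ^ 2) μ := by
    refine Integrable.of_bound (C := (R - 1) ^ 2) (by fun_prop) ?_
    filter_upwards [hmem] with x hx
    rw [Real.norm_eq_abs, abs_of_nonneg (sq_nonneg x)]
    exact sq_le_sq' hx.1 hx.2
  have hlogint : ∀ Q ∈ S, Integrable (fun x : ℝ => a Q * Real.log |aeval x Q|) μ := fun Q hQ =>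
    (harith Q (hcertP Q hQ).1.ne_zero).2.1.const_mul _
  have hGint : Integrable (fun x : ℝ => ∑ Q ∈ S, a Q * Real.log |aeval x Q|) μ :=
    integrable_finsetSum _ hlogint
  set H : ℝ → ℝ := fun x => x ^ 2 - l + ε - ∑ Q ∈ S, a Q * Real.log |aeval x Q| with hH
  have hHint : Integrable H μ := ((hx2.sub (integrable_const l)).add (integrable_const ε)).sub hGint
  have hHpos : ∀ᵐ x ∂μ, 0 ≤ H x := by
    filter_upwards [hmem, hne] with x hx hx2
    have := hcertI x ⟨by linarith [hx.1], by linarith [hx.2]⟩ hx2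
    rw [hH]
    simp only
    linarith
  have hGpos : 0 ≤ ∫ x : ℝ, ∑ Q ∈ S, a Q * Real.log |aeval x Q| ∂μ := by
    rw [integral_finsetSum _ hlogint]
    apply Finset.sum_nonneg
    intro Q hQ
    rw [integral_const_mul]
    exact mul_nonneg (hcertP Q hQ).2.2.2.le (harith Q (hcertP Q hQ).1.ne_zero).2.2
  have hHle : ∫ x, H x ∂μ ≤ ε := by
    have e : ∫ x, H x ∂μ = (l - l + ε) - ∫ x : ℝ, ∑ Q ∈ S, a Q * Real.log |aeval x Q| ∂μ := by
      rw [hH]
      simp only
      have i1 : Integrable (fun x : ℝ => x ^ 2 - l) μ := hx2.sub (integrable_const l)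
      have i2 : Integrable (fun x : ℝ => x ^ 2 - l + ε) μ := i1.add (integrable_const ε)
      rw [integral_sub i2 hGint, integral_add i1 (integrable_const ε),
        integral_sub hx2 (integrable_const l), hV]
      simp
    rw [e]; linarith
  -- the local masses
  set F : ℝ → ℝ := fun x => ∑ Q ∈ S, a Q * ∑ α ∈ Zf Q, r ^ 2 / (r ^ 2 + ‖(x : ℂ) - α‖ ^ 2) with hF
  have hQint : ∀ Q : ℤ[X], Integrable (fun x : ℝ => ∑ α ∈ Zf Q, r ^ 2 / (r ^ 2 + ‖(x : ℂ) - α‖ ^ 2)) μ :=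
    fun Q => integrable_finsetSum _ (fun α _ => tail_rat_integrable μ r hr α)
  have hFint : Integrable F μ :=
    integrable_finsetSum _ (fun Q _ => (hQint Q).const_mul _)
  have hmb := (mass_bound R l ε hR hl hε1 S a hcert).1
  have hlc0 : ∀ Q ∈ S, 0 ≤ Real.log (Q.leadingCoeff : ℝ) := by
    intro Q hQ
    apply Real.log_nonneg
    exact_mod_cast (hcertP Q hQ).2.2.1
  have hF100 : ∀ x, F x ≤ 100 := by
    intro x
    refine le_trans ?_ hmb
    apply Finset.sum_le_sum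
    intro Q hQ
    apply mul_le_mul_of_nonneg_left _ (hcertP Q hQ).2.2.2.le
    have h1 : ∑ α ∈ Zf Q, r ^ 2 / (r ^ 2 + ‖(x : ℂ) - α‖ ^ 2) ≤ ∑ α ∈ Zf Q, (1 + plog α) := by
      apply Finset.sum_le_sum
      intro α _
      have : r ^ 2 / (r ^ 2 + ‖(x : ℂ) - α‖ ^ 2) ≤ 1 := by
        rw [div_le_one (by positivity)]
        nlinarith [sq_nonneg ‖(x : ℂ) - α‖]
      linarith [plog_nonneg α]
    linarith [hlc0 Q hQ]
  have hFle : ∫ x, F x ∂μ ≤ C' * (ε + β) := by
    have h1 : ∫ x, F x ∂μ ≤ ∫ x, C' * (H x + β) ∂μ := by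
      apply integral_mono_ae hFint ((hHint.add (integrable_const β)).const_mul C')
      filter_upwards [hmem, hne, hHpos] with x hx hx2 hx3
      have hxR : |x| ≤ R - 1 := abs_le.mpr hx
      show F x ≤ C' * (H x + β)
      rcases le_total (H x) 1 with h | h
      · have h2 := hold ε S a hε0.le hε1 hcert x (H x) r hxR hx2 hx3 h le_rfl hr hr1.le
        refine h2.trans ?_
        have : 0 ≤ H x + β := by positivity
        exact mul_le_mul_of_nonneg_right (le_max_left _ _) this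
      · have h2 := hF100 x
        nlinarith
    rw [integral_const_mul, integral_add hHint (integrable_const β)] at h1
    simp only [integral_const, probReal_univ, smul_eq_mul, one_mul] at h1
    refine h1.trans ?_
    gcongr
  -- the smoothed means
  have hsm : ∑ Q ∈ S, a Q * Jm μ r Q ≤ r ^ 2 / 3 + ε := by
    have e : ∑ Q ∈ S, a Q * Jm μ r Q =
        ∫ x : ℝ, ∑ Q ∈ S, a Q * (Real.log (Q.leadingCoeff : ℝ) + ∑ α ∈ Zf Q, kr r ((x : ℂ) - α)) ∂μ := by
      rw [integral_finsetSum _ (fun Q _ => (tail_Jint μ (R - 1) hsupp r hr Q).const_mul _)]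
      apply Finset.sum_congr rfl
      intro Q _
      rw [integral_const_mul, tail_Jm_eq μ (R - 1) hsupp r hr Q]
    have h1 : ∫ x : ℝ, ∑ Q ∈ S, a Q * (Real.log (Q.leadingCoeff : ℝ) + ∑ α ∈ Zf Q, kr r ((x : ℂ) - α)) ∂μ
        ≤ ∫ x : ℝ, (x ^ 2 + (r ^ 2 / 3 - l + ε)) ∂μ := by
      apply integral_mono_ae (integrable_finsetSum _
        (fun Q _ => (tail_Jint μ (R - 1) hsupp r hr Q).const_mul _)) (hx2.add (integrable_const _))
      filter_upwards [hmem] with x hx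
      have := smooth R l ε S a hcert x (abs_le.mpr hx) r hr hr1.le
      show _ ≤ x ^ 2 + (r ^ 2 / 3 - l + ε)
      linarith
    rw [integral_add hx2 (integrable_const _), hV] at h1
    simp only [integral_const, probReal_univ, smul_eq_mul, one_mul] at h1
    rw [e]; linarith
  -- the split
  set S' : Finset ℤ[X] := S.filter (fun Q => Jm μ r Q ≤ I / 8 * (Q.natDegree : ℝ)) with hS'
  set Tl : Finset ℤ[X] := S.filter (fun Q => ¬ Jm μ r Q ≤ I / 8 * (Q.natDegree : ℝ)) with hTl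
  have hS'S : S' ⊆ S := Finset.filter_subset _ _
  have hTlS : Tl ⊆ S := Finset.filter_subset _ _
  have hsplit : ∀ f : ℤ[X] → ℝ, ∑ Q ∈ S, f Q = ∑ Q ∈ S', f Q + ∑ Q ∈ Tl, f Q := fun f =>
    (Finset.sum_filter_add_sum_filter_not S _ f).symm
  set Θ : ℝ := ∑ Q ∈ Tl, a Q * Jm μ r Q with hΘ
  have hΘle : Θ ≤ C1 * β := by
    have h1 := hsplit (fun Q => a Q * Jm μ r Q)
    have h2 : -(10 * ∫ x, F x ∂μ) ≤ ∑ Q ∈ S', a Q * Jm μ r Q := by
      have e1 : ∫ x, F x ∂μ = ∑ Q ∈ S, a Q * ∫ x : ℝ, (∑ α ∈ Zf Q, r ^ 2 / (r ^ 2 + ‖(x : ℂ) - α‖ ^ 2)) ∂μ := by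
        rw [hF, integral_finsetSum _ (fun Q _ => (hQint Q).const_mul _)]
        apply Finset.sum_congr rfl
        intro Q _
        rw [integral_const_mul]
      have hnn : ∀ Q : ℤ[X], 0 ≤ ∫ x : ℝ, (∑ α ∈ Zf Q, r ^ 2 / (r ^ 2 + ‖(x : ℂ) - α‖ ^ 2)) ∂μ := by
        intro Q
        apply integral_nonneg
        intro x
        apply Finset.sum_nonneg
        intro α _
        positivity
      have h3 : ∑ Q ∈ S', a Q * ∫ x : ℝ, (∑ α ∈ Zf Q, r ^ 2 / (r ^ 2 + ‖(x : ℂ) - α‖ ^ 2)) ∂μ ≤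
          ∫ x, F x ∂μ := by
        rw [e1]
        apply Finset.sum_le_sum_of_subset_of_nonneg hS'S
        intro Q hQ _
        exact mul_nonneg (hcertP Q hQ).2.2.2.le (hnn Q)
      have h4 : ∑ Q ∈ S', a Q * (-(10 * ∫ x : ℝ, (∑ α ∈ Zf Q, r ^ 2 / (r ^ 2 + ‖(x : ℂ) - α‖ ^ 2)) ∂μ)) ≤
          ∑ Q ∈ S', a Q * Jm μ r Q := by
        apply Finset.sum_le_sum
        intro Q hQ
        have hQS := hS'S hQ
        apply mul_le_mul_of_nonneg_left _ (hcertP Q hQS).2.2.2.le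
        exact tail_Jm_ge μ (R - 1) hsupp harith r hr Q (hcertP Q hQS).1 (hcertP Q hQS).2.1
          (hcertP Q hQS).2.2.1
      have h5 : ∑ Q ∈ S', a Q * (-(10 * ∫ x : ℝ, (∑ α ∈ Zf Q, r ^ 2 / (r ^ 2 + ‖(x : ℂ) - α‖ ^ 2)) ∂μ)) =
          -(10 * ∑ Q ∈ S', a Q * ∫ x : ℝ, (∑ α ∈ Zf Q, r ^ 2 / (r ^ 2 + ‖(x : ℂ) - α‖ ^ 2)) ∂μ) := by
        rw [Finset.mul_sum, ← Finset.sum_neg_distrib]
        apply Finset.sum_congr rfl
        intro Q _
        ring
      linarith
    have h3 : C' * (ε + β) ≤ C' * (2 * β) := by gcongr; linarith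
    rw [hC1]
    nlinarith
  have hTlJ : ∀ Q ∈ Tl, I / 8 * (Q.natDegree : ℝ) ≤ Jm μ r Q := by
    intro Q hQ
    rw [hTl, Finset.mem_filter] at hQ
    exact (not_le.mp hQ.2).le
  have hΘ0 : 0 ≤ Θ := by
    apply Finset.sum_nonneg
    intro Q hQ
    exact mul_nonneg (hcertP Q (hTlS hQ)).2.2.2.le (le_trans (by positivity) (hTlJ Q hQ))
  have hb : ∑ Q ∈ Tl, a Q * (Q.natDegree : ℝ) ≤ 8 / I * Θ := by
    rw [hΘ, Finset.mul_sum]
    apply Finset.sum_le_sum
    intro Q hQ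
    have h1 := hTlJ Q hQ
    have h2 := (hcertP Q (hTlS hQ)).2.2.2
    have h3 : (Q.natDegree : ℝ) ≤ 8 / I * Jm μ r Q := by
      calc (Q.natDegree : ℝ) = 8 / I * (I / 8 * (Q.natDegree : ℝ)) := by field_simp
        _ ≤ _ := by gcongr
    calc a Q * (Q.natDegree : ℝ) ≤ a Q * (8 / I * Jm μ r Q) := by gcongr
      _ = _ := by ring
  set T : ℝ → ℝ := fun x => ∑ Q ∈ Tl, a Q * Real.log |aeval x Q| with hT
  have hTint : Integrable T μ :=
    integrable_finsetSum _ (fun Q hQ => hlogint Q (hTlS hQ))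
  have hTpos : 0 ≤ ∫ x, T x ∂μ := by
    rw [hT, integral_finsetSum _ (fun Q hQ => hlogint Q (hTlS hQ))]
    apply Finset.sum_nonneg
    intro Q hQ
    rw [integral_const_mul]
    exact mul_nonneg (hcertP Q (hTlS hQ)).2.2.2.le (harith Q (hcertP Q (hTlS hQ)).1.ne_zero).2.2
  set η : ℝ := C1 * β * (K * (1 - Real.log r)) with hη
  have hη0 : 0 ≤ η := by
    have : 0 ≤ 1 - Real.log r := by linarith
    rw [hη]; positivity
  have hTle : ∀ᵐ x ∂μ, T x ≤ η := by
    filter_upwards [hmem, hne] with x hx hx2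
    have hxR : |x| ≤ R - 1 := abs_le.mpr hx
    have h1 : T x ≤ ∑ Q ∈ Tl, a Q * (Jm μ r Q + Q.natDegree * (11 + Real.log (2 * R) - Real.log r)) := by
      apply Finset.sum_le_sum
      intro Q hQ
      have hQS := hTlS hQ
      apply mul_le_mul_of_nonneg_left _ (hcertP Q hQS).2.2.2.le
      exact tail_log_le μ R hR hsupp r hr hr1 Q (hcertP Q hQS).1 (hcertP Q hQS).2.1
        (hcertP Q hQS).2.2.1 x hxR (hx2 Q hQS)
    have h2 : ∑ Q ∈ Tl, a Q * (Jm μ r Q + Q.natDegree * (11 + Real.log (2 * R) - Real.log r)) =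
        Θ + (∑ Q ∈ Tl, a Q * (Q.natDegree : ℝ)) * (11 + Real.log (2 * R) - Real.log r) := by
      rw [hΘ, Finset.sum_mul, ← Finset.sum_add_distrib]
      apply Finset.sum_congr rfl
      intro Q _
      ring
    have h3 : 0 ≤ 11 + Real.log (2 * R) - Real.log r := by linarith
    have h4 : (∑ Q ∈ Tl, a Q * (Q.natDegree : ℝ)) * (11 + Real.log (2 * R) - Real.log r) ≤
        8 / I * Θ * (11 + Real.log (2 * R) - Real.log r) := by gcongr
    have h5 : Θ + 8 / I * Θ * (11 + Real.log (2 * R) - Real.log r) ≤ Θ * (K * (1 - Real.log r)) := by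
      have e : Θ + 8 / I * Θ * (11 + Real.log (2 * R) - Real.log r) =
        Θ * (K + 8 / I * (- Real.log r)) := by rw [hK]; ring
      rw [e]
      apply mul_le_mul_of_nonneg_left _ hΘ0
      have : 8 / I * (- Real.log r) ≤ K * (- Real.log r) := by
        apply mul_le_mul_of_nonneg_right hK2; linarith
      linarith
    have h6 : Θ * (K * (1 - Real.log r)) ≤ C1 * β * (K * (1 - Real.log r)) := by
      apply mul_le_mul_of_nonneg_right hΘle
      have : 0 ≤ 1 - Real.log r := by linarith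
      positivity
    linarith
  refine ⟨S', hS'S, ?_, ?_, ?_⟩
  · rw [Finset.mul_sum]
    apply Finset.sum_le_sum
    intro Q hQ
    rw [hS', Finset.mem_filter] at hQ
    exact hQ.2
  · exact ((hx2.sub (integrable_const l)).add (integrable_const ε)).sub
      (integrable_finsetSum _ (fun Q hQ => hlogint Q (hS'S hQ)))
  · have hWeq : ∀ x : ℝ, x ^ 2 - l + ε - ∑ Q ∈ S', a Q * Real.log (|aeval x Q|) = H x + T x := by
      intro x
      have := hsplit (fun Q => a Q * Real.log |aeval x Q|)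
      rw [hH, hT]
      simp only
      linarith
    have h1 : ∫ x : ℝ, |x ^ 2 - l + ε - ∑ Q ∈ S', a Q * Real.log (|aeval x Q|)| ∂μ ≤
        ∫ x : ℝ, (H x + (2 * η - T x)) ∂μ := by
      apply integral_mono_ae
      · have : Integrable (fun x => H x + T x) μ := hHint.add hTint
        have h2 := this.abs
        refine h2.congr ?_
        filter_upwards with x
        rw [hWeq x]
      · exact hHint.add ((integrable_const _).sub hTint)
      · filter_upwards [hHpos, hTle] with x hx hx2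
        show |x ^ 2 - l + ε - ∑ Q ∈ S', a Q * Real.log (|aeval x Q|)| ≤ H x + (2 * η - T x)
        rw [hWeq x]
        rw [abs_le]
        constructor <;> linarith
    have i3 : Integrable (fun x : ℝ => 2 * η - T x) μ := (integrable_const _).sub hTint
    rw [integral_add hHint i3, integral_sub (integrable_const _) hTint] at h1
    simp only [integral_const, probReal_univ, smul_eq_mul, one_mul] at h1
    have h2 : ε + 2 * η ≤ (1 + 2 * C1 * K) * β * (1 - Real.log r) := by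
      have e : (1 + 2 * C1 * K) * β * (1 - Real.log r) = β * (1 - Real.log r) + 2 * η := by
        rw [hη]; ring
      rw [e]
      have : β ≤ β * (1 - Real.log r) := by nlinarith
      linarith
    linarith

end Pool.Agent.TraceMin
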