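import Pool.Agent.TraceMin.MainC
import Pool.Agent.TraceMin.Tail

/-!
The derivative of the truncated auxiliary function.
-/

open MeasureTheory Polynomial Set Real Filter Topology

namespace Pool.Agent.TraceMin

/-- cast to a real polynomial -/
noncomputable def toR (Q : ℤ[X]) : ℝ[X] := Q.map (Int.castRingHom ℝ)

lemma toR_eval (Q : ℤ[X]) (x : ℝ) : (toR Q).eval x = aeval x Q := by
  unfold toR
  rw [eval_map, aeval_def]
  rfl

lemma toR_ne_zero (Q : ℤ[X]) (hQ : Q ≠ 0) : toR Q ≠ 0 := by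
  unfold toR
  rwa [Ne, Polynomial.map_eq_zero_iff (Int.castRingHom ℝ).injective_int]

lemma toR_natDegree (Q : ℤ[X]) : (toR Q).natDegree = Q.natDegree :=
  natDegree_map_eq_of_injective (Int.castRingHom ℝ).injective_int Q

lemma toR_leadingCoeff (Q : ℤ[X]) : (toR Q).leadingCoeff = (Q.leadingCoeff : ℝ) := by
  unfold toR
  rw [leadingCoeff_map_of_injective (Int.castRingHom ℝ).injective_int]
  rfl

lemma toR_roots (Q : ℤ[X]) : ((toR Q).map (algebraMap ℝ ℂ)).roots = Q.aroots ℂ := by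
  unfold toR Polynomial.aroots
  rw [Polynomial.map_map]
  congr 2

/-- the numerator of the derivative -/
noncomputable def numF (S : Finset ℤ[X]) (a : ℤ[X] → ℝ) : ℝ[X] :=
  C 2 * X * toR (∏ Q ∈ S, Q) -
    ∑ Q ∈ S, C (a Q) * (derivative (toR Q) * ∏ Q' ∈ S.erase Q, toR Q')

lemma toR_prod (S : Finset ℤ[X]) : toR (∏ Q ∈ S, Q) = ∏ Q ∈ S, toR Q := by
  unfold toR
  exact Polynomial.map_prod _ _ _

lemma numF_degree (S : Finset ℤ[X]) (a : ℤ[X] → ℝ) (h : ∀ Q ∈ S, 0 < Q.natDegree) :
    (numF S a).natDegree = (toR (∏ Q ∈ S, Q)).natDegree + 1 ∧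
    (numF S a).leadingCoeff = 2 * (toR (∏ Q ∈ S, Q)).leadingCoeff := by
  set P := toR (∏ Q ∈ S, Q) with hP
  have hne : ∀ Q ∈ S, toR Q ≠ 0 := fun Q hQ => toR_ne_zero Q (by
    rintro rfl
    have := h 0 hQ
    simp at this)
  have hPprod : P = ∏ Q ∈ S, toR Q := toR_prod S
  have hP0 : P ≠ 0 := by
    rw [hPprod, Finset.prod_ne_zero_iff]; exact hne
  have hmain : (C 2 * X * P : ℝ[X]).natDegree = P.natDegree + 1 := by
    rw [mul_assoc, natDegree_C_mul (by norm_num), natDegree_X_mul hP0]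
  have hlc : (C 2 * X * P : ℝ[X]).leadingCoeff = 2 * P.leadingCoeff := by
    rw [leadingCoeff_mul, leadingCoeff_mul, leadingCoeff_C, leadingCoeff_X, mul_one]
  have hsmall : (∑ Q ∈ S, C (a Q) * (derivative (toR Q) * ∏ Q' ∈ S.erase Q, toR Q')).degree <
      (C 2 * X * P : ℝ[X]).degree := by
    have h1 : (C 2 * X * P : ℝ[X]).degree = ((P.natDegree + 1 : ℕ) : WithBot ℕ) := by
      rw [degree_eq_natDegree, hmain]
      intro h0
      rw [h0] at hmain
      simp at hmain
    rw [h1]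
    refine lt_of_le_of_lt (degree_sum_le _ _) ?_
    rw [Finset.sup_lt_iff (WithBot.bot_lt_coe _)]
    intro Q hQ
    have h2 : P.natDegree = (toR Q).natDegree + (∏ Q' ∈ S.erase Q, toR Q').natDegree := by
      rw [hPprod, ← Finset.mul_prod_erase S _ hQ, natDegree_mul (hne Q hQ)]
      rw [Finset.prod_ne_zero_iff]
      intro Q' hQ'
      exact hne Q' (Finset.mem_of_mem_erase hQ')
    calc (C (a Q) * (derivative (toR Q) * ∏ Q' ∈ S.erase Q, toR Q')).degree
        ≤ ((C (a Q) * (derivative (toR Q) * ∏ Q' ∈ S.erase Q, toR Q')).natDegree : WithBot ℕ) :=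
          degree_le_natDegree
      _ ≤ (((toR Q).natDegree + (∏ Q' ∈ S.erase Q, toR Q').natDegree : ℕ) : WithBot ℕ) := by
          have h3 : (C (a Q) * (derivative (toR Q) * ∏ Q' ∈ S.erase Q, toR Q')).natDegree ≤
              (toR Q).natDegree + (∏ Q' ∈ S.erase Q, toR Q').natDegree := by
            refine (natDegree_C_mul_le _ _).trans ?_
            refine natDegree_mul_le.trans ?_
            have := natDegree_derivative_le (toR Q)
            omega
          exact_mod_cast h3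
      _ < _ := by
          rw [← h2]
          exact_mod_cast Nat.lt_succ_self _
  unfold numF
  rw [← hP]
  constructor
  · rw [natDegree_eq_of_degree_eq (degree_sub_eq_left_of_degree_lt hsmall), hmain]
  · rw [leadingCoeff_sub_of_degree_lt hsmall, hlc]

lemma hasDeriv_W (S : Finset ℤ[X]) (a : ℤ[X] → ℝ) (c : ℝ) (x : ℝ)
    (hx : (toR (∏ Q ∈ S, Q)).eval x ≠ 0) :
    HasDerivAt (fun y : ℝ => y ^ 2 - c - ∑ Q ∈ S, a Q * Real.log |aeval y Q|)
      ((numF S a).eval x / (toR (∏ Q ∈ S, Q)).eval x) x := by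
  have hQx : ∀ Q ∈ S, (toR Q).eval x ≠ 0 := by
    intro Q hQ h0
    apply hx
    rw [toR_prod, eval_prod]
    exact Finset.prod_eq_zero hQ h0
  have h1 : ∀ Q ∈ S, HasDerivAt (fun y : ℝ => a Q * Real.log |aeval y Q|)
      (a Q * ((derivative (toR Q)).eval x / (toR Q).eval x)) x := by
    intro Q hQ
    have h2 := ((toR Q).hasDerivAt x).log (hQx Q hQ)
    have h3 := h2.const_mul (a Q)
    refine h3.congr_of_eventuallyEq ?_
    filter_upwards with y
    rw [← toR_eval, Real.log_abs]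
  have h2 := HasDerivAt.fun_sum h1
  have h3 : HasDerivAt (fun y : ℝ => y ^ 2 - c) (2 * x) x := by
    have := (hasDerivAt_pow 2 x).sub_const c
    simpa using this
  have h4 := h3.sub h2
  have e : (numF S a).eval x / (toR (∏ Q ∈ S, Q)).eval x =
      2 * x - ∑ Q ∈ S, a Q * ((derivative (toR Q)).eval x / (toR Q).eval x) := by
    rw [div_eq_iff hx, sub_mul]
    unfold numF
    rw [eval_sub, eval_mul, eval_mul, eval_C, eval_X]
    congr 1
    rw [eval_finsetSum, Finset.sum_mul]
    apply Finset.sum_congr rfl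
    intro Q hQ
    rw [toR_prod, eval_prod, ← Finset.mul_prod_erase S _ hQ, eval_mul, eval_C, eval_mul, eval_prod]
    have := hQx Q hQ
    field_simp
  rw [e]
  exact h4

end Pool.Agent.TraceMin
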