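import Pool.Agent.TraceMin.MainD

/-!
Every trace-minimising arithmetic measure has energy zero.
-/

open MeasureTheory Polynomial Set Real Filter Topology

namespace Pool.Agent.TraceMin

/-- choice of the scale -/
lemma choose_L (A B : ℝ) : ∃ L₀ : ℝ, 0 < L₀ ∧ ∀ L : ℝ, L₀ ≤ L → B + Real.log (1 + L) / 2 < A + L * (3 / 80) := by
  have h1 : Tendsto (fun L : ℝ => Real.log L / L) atTop (𝓝 0) := by
    have := Real.tendsto_pow_log_div_mul_add_atTop 1 0 1 one_ne_zero
    simpa using this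
  have h2 : ∀ᶠ L : ℝ in atTop, Real.log L / L < 1 / 80 := h1.eventually_lt_const (by norm_num)
  have h3 : Tendsto (fun L : ℝ => 1 + L) atTop atTop := tendsto_atTop_add_const_left _ _ tendsto_id
  have h4 := h3.eventually h2
  obtain ⟨L₁, hL₁⟩ := (h4.and (eventually_gt_atTop (max 1 (100 * (B - A + 1))))).exists_forall_of_atTop
  refine ⟨max L₁ 1, by positivity, ?_⟩
  intro L hL
  obtain ⟨h5, h6⟩ := hL₁ L ((le_max_left _ _).trans hL)
  have h7 : (1:ℝ) < L := (le_max_left _ _).trans_lt h6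
  have h8 : 100 * (B - A + 1) < L := (le_max_right _ _).trans_lt h6
  rw [div_lt_iff₀ (by linarith)] at h5
  linarith

set_option maxHeartbeats 1000000 in
theorem energy_zero (μ : Measure ℝ) [IsProbabilityMeasure μ] (R l : ℝ) (hR : 9 ≤ R)
    (hsupp : μ (Icc (-(R - 1)) (R - 1))ᶜ = 0) (harith : IsArith μ) (hV : ∫ y, y ^ 2 ∂μ = l)
    (hcert : ∀ ε > 0, ∃ (S : Finset ℤ[X]) (a : ℤ[X] → ℝ), Cert R l ε S a) :
    Elog μ ≤ 0 := by
  by_contra hcon
  push Not at hcon
  set I := Elog μ with hI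
  have hl : 0 ≤ l := by rw [← hV]; exact integral_nonneg fun y => sq_nonneg y
  have hsuppR : μ (Icc (-R) R)ᶜ = 0 :=
    measure_mono_null (compl_subset_compl.mpr (Icc_subset_Icc (by linarith) (by linarith))) hsupp
  obtain ⟨hint, hdiag, -⟩ := energy_nonneg μ harith R hsuppR
  obtain ⟨Ct, hCt, htail⟩ := tail_split μ R l hR hl hsupp harith hV I hcon
  obtain ⟨Cp, hCp, hpieces⟩ := pieces μ R (by linarith) hsuppR hint hdiag
  obtain ⟨r₁, hr₁, homega⟩ := omega_small μ hdiag (I / 80) (by positivity)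
  set κ := 1 / (80 * (Cp + 1)) with hκ
  have hκpos : 0 < κ := by positivity
  obtain ⟨r₂, hr₂, hr₂1, hfew⟩ := few_roots μ R hsuppR hint hdiag hcon κ hκpos
  obtain ⟨L₀, hL₀, hL₀'⟩ := choose_L 0 (Cp + Real.log (8 * Ct) / 2)
  -- choose r
  obtain ⟨r, hrpos, hr1, hrr₁, hrr₂, hrL⟩ : ∃ r : ℝ, 0 < r ∧ r < 1 ∧ r < r₁ ∧ r < r₂ ∧ L₀ ≤ -Real.log r := by
    refine ⟨min (min (r₁ / 2) (r₂ / 2)) (Real.exp (-L₀)), by positivity, ?_, ?_, ?_, ?_⟩
    · have := min_le_left (min (r₁ / 2) (r₂ / 2)) (Real.exp (-L₀))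
      have := min_le_right (r₁ / 2) (r₂ / 2)
      linarith
    · have := min_le_left (min (r₁ / 2) (r₂ / 2)) (Real.exp (-L₀))
      have := min_le_left (r₁ / 2) (r₂ / 2)
      linarith
    · have := min_le_left (min (r₁ / 2) (r₂ / 2)) (Real.exp (-L₀))
      have := min_le_right (r₁ / 2) (r₂ / 2)
      linarith
    · have h1 : min (min (r₁ / 2) (r₂ / 2)) (Real.exp (-L₀)) ≤ Real.exp (-L₀) := min_le_right _ _
      have h2 := Real.log_le_log (by positivity) h1
      rw [Real.log_exp] at h2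
      linarith
  set L := -Real.log r with hL
  have hLpos : 0 < L := by linarith
  obtain ⟨S, a, hSa⟩ := hcert (r ^ (1 / 5 : ℝ)) (by positivity)
  obtain ⟨S', hS'S, hJ, hWi, hWint⟩ := htail r hrpos hr1 S a hSa
  have hirr : ∀ Q ∈ S', Irreducible Q ∧ 0 < Q.natDegree ∧ 0 < Q.leadingCoeff := fun Q hQ =>
    ⟨(hSa.1 Q (hS'S hQ)).1, (hSa.1 Q (hS'S hQ)).2.1, (hSa.1 Q (hS'S hQ)).2.2.1⟩
  have hne : ∀ Q ∈ S', Q ≠ 0 := fun Q hQ => (hirr Q hQ).1.ne_zero
  set P := ∏ Q ∈ S', Q with hP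
  have hP0 : P ≠ 0 := by rw [hP, Finset.prod_ne_zero_iff]; exact hne
  have hPnd : (P.aroots ℂ).Nodup := prod_aroots_nodup S' hirr
  have hsumZ : ∀ f : ℂ → ℝ, ∑ α ∈ Zf P, f α = ∑ Q ∈ S', ∑ α ∈ Zf Q, f α := by
    intro f
    rw [sum_Zf P hPnd, hP, prod_aroots S' hne]
    apply Finset.sum_congr rfl
    intro Q hQ
    rw [sum_Zf Q (irr_nodup Q (hirr Q hQ))]
  have hcard : ((Zf P).card : ℝ) = P.natDegree := by rw [card_Zf P hPnd]
  have hdegP : (P.natDegree : ℝ) = ∑ Q ∈ S', (Q.natDegree : ℝ) := by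
    rw [hP, natDegree_prod _ _ hne]
    push_cast; rfl
  have hlcP : (P.leadingCoeff : ℝ) = ∏ Q ∈ S', (Q.leadingCoeff : ℝ) := by
    rw [hP, leadingCoeff_prod]
    push_cast; rfl
  have hlc1 : ∀ Q ∈ S', (1:ℝ) ≤ (Q.leadingCoeff : ℝ) := by
    intro Q hQ
    have := (hirr Q hQ).2.2
    exact_mod_cast this
  have hloglc : Real.log (P.leadingCoeff : ℝ) = ∑ Q ∈ S', Real.log (Q.leadingCoeff : ℝ) := by
    rw [hlcP, Real.log_prod]
    intro Q hQ
    have := hlc1 Q hQ
    linarith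
  have hlP0 : 0 ≤ Real.log (P.leadingCoeff : ℝ) := by
    rw [hloglc]
    exact Finset.sum_nonneg fun Q hQ => Real.log_nonneg (hlc1 Q hQ)
  have hlcpos : 0 < (P.leadingCoeff : ℝ) := by
    rw [hlcP]
    exact Finset.prod_pos fun Q hQ => by have := hlc1 Q hQ; linarith
  -- discriminant
  have hdisc : -(2 * ((Zf P).card : ℝ) - 2) * Real.log (P.leadingCoeff : ℝ) ≤
      ∑ α ∈ Zf P, ∑ β ∈ (Zf P).erase α, Real.log ‖α - β‖ := by
    rcases Nat.eq_zero_or_pos P.natDegree with h0 | h0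
    · -- S' is empty
      have hS'e : S' = ∅ := by
        by_contra hne'
        obtain ⟨Q, hQ⟩ := Finset.nonempty_iff_ne_empty.mpr hne'
        have h1 : (Q.natDegree : ℝ) ≤ ∑ Q ∈ S', (Q.natDegree : ℝ) :=
          Finset.single_le_sum (f := fun Q : ℤ[X] => (Q.natDegree : ℝ)) (fun _ _ => Nat.cast_nonneg _) hQ
        rw [← hdegP, h0] at h1
        have h2 : (0:ℝ) < Q.natDegree := by exact_mod_cast (hirr Q hQ).2.1
        simp at h1
        rw [h1] at h2
        simp at h2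
      have h1 : Real.log (P.leadingCoeff : ℝ) = 0 := by rw [hloglc, hS'e]; simp
      have h2 : (Zf P) = ∅ := by
        rw [← Finset.card_eq_zero, card_Zf P hPnd, h0]
      rw [h1, h2]; simp
    · have := discr_bound P h0 hPnd
      rw [abs_of_pos hlcpos] at this
      rw [hcard]
      exact this
  -- comparison with lam
  have hsmall : Real.log (P.leadingCoeff : ℝ) + ∑ α ∈ Zf P, ∫ x : ℝ, lam r ((x : ℂ) - α) ∂μ ≤
      ((Zf P).card : ℝ) * I / 4 := by
    have h1 : ∀ α : ℂ, ∫ x : ℝ, lam r ((x : ℂ) - α) ∂μ ≤ ∫ x : ℝ, kr r ((x : ℂ) - α) ∂μ + I / 8 := by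
      intro α
      have hkri : Integrable (fun x : ℝ => kr r ((x : ℂ) - α)) μ := by
        refine Integrable.of_bound (C := |Real.log r - 1| + Real.log ((R + ‖α‖) + 1)) ?_ ?_
        · exact ((kr_measurable r).comp (by fun_prop)).aestronglyMeasurable
        · have hmem : ∀ᵐ x ∂μ, x ∈ Icc (-R) R := by rw [ae_iff]; exact hsuppR
          filter_upwards [hmem] with x hx
          rw [Real.norm_eq_abs]
          apply kr_abs_le r hrpos hr1.le
          refine (norm_sub_le _ _).trans ?_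
          have : ‖(x : ℂ)‖ ≤ R := by
            rw [Complex.norm_real, Real.norm_eq_abs]
            exact abs_le.mpr hx
          linarith
      have hoi : Integrable (fun x : ℝ => 10 * (r ^ 2 / (r ^ 2 + ‖(x : ℂ) - α‖ ^ 2))) μ := by
        apply Integrable.const_mul
        refine Integrable.of_bound (C := 1) ?_ ?_
        · apply Continuous.aestronglyMeasurable
          apply Continuous.div continuous_const (by fun_prop)
          intro p; positivity
        · filter_upwards with x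
          rw [Real.norm_eq_abs, abs_of_nonneg (by positivity), div_le_one (by positivity)]
          have := sq_nonneg ‖(x : ℂ) - α‖
          linarith
      have h2 : ∫ x : ℝ, lam r ((x : ℂ) - α) ∂μ ≤
          ∫ x : ℝ, (kr r ((x : ℂ) - α) + 10 * (r ^ 2 / (r ^ 2 + ‖(x : ℂ) - α‖ ^ 2))) ∂μ := by
        apply integral_mono (lam_integrable μ R hsuppR r hrpos α) (hkri.add hoi)
        intro x
        have h3 := kr_ge_lam r hrpos ((x : ℂ) - α)
        have h4 : 10 * r ^ 2 / (r ^ 2 + ‖(x : ℂ) - α‖ ^ 2) = 10 * (r ^ 2 / (r ^ 2 + ‖(x : ℂ) - α‖ ^ 2)) := by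
          ring
        simp only [Pi.add_apply]
        linarith
      rw [integral_add hkri hoi, integral_const_mul] at h2
      have h5 := homega r hrpos hrr₁ α
      linarith
    have h2 : ∑ α ∈ Zf P, ∫ x : ℝ, lam r ((x : ℂ) - α) ∂μ ≤
        ∑ α ∈ Zf P, (∫ x : ℝ, kr r ((x : ℂ) - α) ∂μ + I / 8) := Finset.sum_le_sum fun α _ => h1 α
    rw [Finset.sum_add_distrib, Finset.sum_const, nsmul_eq_mul] at h2
    have h3 := hsumZ (fun α => ∫ x : ℝ, kr r ((x : ℂ) - α) ∂μ)
    rw [Finset.sum_add_distrib, ← hloglc, ← hdegP] at hJ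
    rw [hcard] at h2 ⊢
    linarith
  obtain ⟨hD, hY⟩ := hfew r hrpos hrr₂ (Zf P) _ hlP0 hdisc hsmall
  rw [hcard] at hD
  -- the function W
  set c := l - r ^ (1 / 5 : ℝ) with hc
  set W : ℝ → ℝ := fun y : ℝ => y ^ 2 - c - ∑ Q ∈ S', a Q * Real.log |aeval y Q| with hW
  have hWeq : ∀ y : ℝ, y ^ 2 - l + r ^ (1 / 5 : ℝ) - ∑ Q ∈ S', a Q * Real.log |aeval y Q| = W y := by
    intro y; simp only [hW, hc]; ring
  have hWi' : Integrable W μ := by
    refine hWi.congr ?_
    filter_upwards with y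
    exact hWeq y
  have hWint' : ∫ x, |W x| ∂μ ≤ Ct * r ^ (1 / 10 : ℝ) * (1 + L) := by
    have h1 : ∫ x, |W x| ∂μ = ∫ x : ℝ, |x ^ 2 - l + r ^ (1 / 5 : ℝ) - ∑ Q ∈ S', a Q * Real.log (|aeval x Q|)| ∂μ := by
      apply integral_congr_ae
      filter_upwards with y
      rw [← hWeq y]
    rw [h1]
    have : 1 + L = 1 - Real.log r := by rw [hL]; ring
    rw [this]
    exact hWint
  have hWm : Measurable W := by
    simp only [hW]
    apply Measurable.sub (by fun_prop)
    apply Finset.measurable_sum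
    intro Q _
    apply Measurable.const_mul
    apply Real.measurable_log.comp
    apply Measurable.abs
    have : (fun y : ℝ => aeval y Q) = fun y : ℝ => (toR Q).eval y := by
      ext y; rw [toR_eval]
    rw [this]
    exact (toR Q).continuous.measurable
  set η := 4 * (Ct * r ^ (1 / 10 : ℝ) * (1 + L)) with hη
  have hηpos : 0 < η := by positivity
  have hmark : μ {x | η < |W x|} ≤ 1 / 4 := by
    have h1 := mul_meas_ge_le_integral_of_nonneg (μ := μ) (f := fun x => |W x|)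
      (Eventually.of_forall fun x => abs_nonneg _) hWi'.abs η
    have h2 : μ.real {x | η ≤ |W x|} ≤ 1 / 4 := by
      have h3 : η * μ.real {x | η ≤ |W x|} ≤ η * (1 / 4) := by
        refine h1.trans (hWint'.trans ?_)
        rw [hη]; linarith
      exact le_of_mul_le_mul_left h3 hηpos
    have h3 : μ {x | η < |W x|} ≤ μ {x | η ≤ |W x|} := by
      apply measure_mono
      intro x hx
      have hx' : η < |W x| := hx
      exact (show η ≤ |W x| from hx'.le)
    refine h3.trans ?_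
    have h4 : μ {x | η ≤ |W x|} = ENNReal.ofReal (μ.real {x | η ≤ |W x|}) := by
      rw [ofReal_measureReal]
    rw [h4]
    have e1 : (1 / 4 : ENNReal) = ENNReal.ofReal (1 / 4) := by
      rw [ENNReal.ofReal_div_of_pos (by norm_num)]; norm_num
    rw [e1]
    exact ENNReal.ofReal_le_ofReal h2
  obtain ⟨hdegF, hlcF⟩ := numF_degree S' a (fun Q hQ => (hirr Q hQ).2.1)
  have hfin := hpieces (toR P) (numF S' a) W η (toR_ne_zero P hP0) hdegF hlcF
    (fun x hx => hasDeriv_W S' a c x hx) hWm hηpos hmark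
  rw [toR_roots, toR_natDegree, ← sum_Zf P hPnd] at hfin
  -- final estimate
  have hlogη : Real.log (1 / (2 * η)) = L / 10 - Real.log (8 * Ct) - Real.log (1 + L) := by
    rw [one_div, Real.log_inv, hη]
    have e1 : 2 * (4 * (Ct * r ^ (1 / 10 : ℝ) * (1 + L))) = (8 * Ct) * r ^ (1 / 10 : ℝ) * (1 + L) := by ring
    rw [e1, Real.log_mul (by positivity) (by positivity), Real.log_mul (by positivity) (by positivity),
      Real.log_rpow hrpos]
    rw [hL]; ring
  rw [hlogη] at hfin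
  have hfinal := hL₀' L hrL
  have hplog : ∑ α ∈ Zf P, plog α ≤ κ * L := by linarith
  have hκL : Cp * (κ * L) + κ * L ≤ L / 80 := by
    rw [hκ]
    have : Cp * (1 / (80 * (Cp + 1)) * L) + 1 / (80 * (Cp + 1)) * L = L / 80 := by
      field_simp
    rw [this]
  have hCpD : Cp * (P.natDegree : ℝ) ≤ Cp * (κ * L) := mul_le_mul_of_nonneg_left hD hCp.le
  linarith

end Pool.Agent.TraceMin
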