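import Pool.Agent.TraceMin.MainB

/-!
Potentials of averages over disjoint intervals.
-/

open MeasureTheory Polynomial Set Real Filter Topology

namespace Pool.Agent.TraceMin

/-- negative part of the logarithm of the distance -/
noncomputable def lp (x y : ℝ) : ℝ := max 0 (-Real.log |x - y|)

lemma lp_nonneg (x y : ℝ) : 0 ≤ lp x y := le_max_left _ _

lemma lp_symm (x y : ℝ) : lp x y = lp y x := by
  unfold lp; rw [abs_sub_comm]

lemma lp_measurable (x : ℝ) : Measurable (lp x) := by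
  unfold lp; fun_prop

lemma avg_eq_kr (s t : ℝ) (β : ℂ) :
    (1 / (t - s)) * ∫ x in s..t, Real.log ‖(x : ℂ) - β‖ =
      kr ((t - s) / 2) (β - ((s + t) / 2 : ℝ)) := by
  unfold kr
  have h1 : 2 * ((t - s) / 2) = t - s := by ring
  rw [h1]
  congr 1
  have h2 := intervalIntegral.integral_comp_add_left (a := -((t - s) / 2)) (b := (t - s) / 2)
    (fun x : ℝ => Real.log ‖(x : ℂ) - β‖) ((s + t) / 2)
  have e1 : (s + t) / 2 + -((t - s) / 2) = s := by ring
  have e2 : (s + t) / 2 + (t - s) / 2 = t := by ring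
  rw [e1, e2] at h2
  rw [← h2]
  congr 1
  ext x
  rw [← norm_neg]
  congr 2
  push_cast
  ring

section
variable (μ : Measure ℝ) [IsProbabilityMeasure μ]

lemma group_lower (hat : ∀ x : ℝ, μ {x} = 0) (C7 : ℝ)
    (T : Finset ℕ) (s t : ℕ → ℝ)
    (hdisj : ∀ i ∈ T, ∀ j ∈ T, i ≠ j → Disjoint (Icc (s i) (t i)) (Icc (s j) (t j)))
    (M : ℕ → ℝ) (hM : ∀ j ∈ T, 0 < M j) (y0 : ℝ) (hy0 : Integrable (lp y0) μ)
    (hy0' : ∫ x, lp y0 x ∂μ ≤ C7)
    (hb : ∀ j ∈ T, ∀ x ∈ Icc (s j) (t j), |x - y0| ≤ 2 * M j) :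
    -Real.log 2 * (∑ j ∈ T, μ.real (Icc (s j) (t j))) - C7 ≤
      ∑ j ∈ T, μ.real (Icc (s j) (t j)) * Real.log (M j) := by
  have hne : ∀ᵐ x ∂μ, x ≠ y0 := by
    rw [ae_iff]; simpa using hat y0
  have h1 : ∀ j ∈ T, -Real.log 2 * μ.real (Icc (s j) (t j)) - ∫ x in Icc (s j) (t j), lp y0 x ∂μ ≤
      μ.real (Icc (s j) (t j)) * Real.log (M j) := by
    intro j hj
    have h2 : ∫ x in Icc (s j) (t j), (-Real.log 2 - lp y0 x) ∂μ ≤
        ∫ x in Icc (s j) (t j), Real.log (M j) ∂μ := by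
      apply integral_mono_ae
      · exact (integrable_const _).sub hy0.integrableOn
      · exact integrable_const _
      · have h3 : ∀ᵐ x ∂(μ.restrict (Icc (s j) (t j))), x ≠ y0 := ae_restrict_of_ae hne
        filter_upwards [h3, ae_restrict_mem measurableSet_Icc] with x hx1 hx2
        have h4 := hb j hj x hx2
        have h5 : 0 < |x - y0| := abs_pos.mpr (sub_ne_zero.mpr hx1)
        have h6 := Real.log_le_log h5 h4
        rw [Real.log_mul (by norm_num) (hM j hj).ne'] at h6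
        have h7 : -Real.log |y0 - x| ≤ lp y0 x := le_max_right _ _
        rw [abs_sub_comm] at h7
        linarith
    rw [integral_sub (integrable_const _) hy0.integrableOn] at h2
    simp only [integral_const, smul_eq_mul, MeasurableSet.univ, measureReal_restrict_apply,
      univ_inter] at h2
    linarith
  have h2 := Finset.sum_le_sum h1
  rw [Finset.sum_sub_distrib, ← Finset.mul_sum] at h2
  have h3 : ∑ j ∈ T, ∫ x in Icc (s j) (t j), lp y0 x ∂μ ≤ C7 := by
    have h4 : ∑ j ∈ T, ∫ x in Icc (s j) (t j), lp y0 x ∂μ = ∫ x in ⋃ j ∈ T, Icc (s j) (t j), lp y0 x ∂μ := by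
      rw [integral_biUnion_finset T (fun j _ => measurableSet_Icc)]
      · intro i hi j hj hij
        exact hdisj i hi j hj hij
      · intro j _
        exact hy0.integrableOn
    rw [h4]
    refine le_trans ?_ hy0'
    apply setIntegral_le_integral hy0
    filter_upwards with x
    exact lp_nonneg _ _
  linarith

lemma pot_lower (hat : ∀ x : ℝ, μ {x} = 0) (C7 : ℝ) (hC7 : 0 ≤ C7)
    (T : Finset ℕ) (s t : ℕ → ℝ) (hst : ∀ j ∈ T, s j < t j)
    (hdisj : ∀ i ∈ T, ∀ j ∈ T, i ≠ j → Disjoint (Icc (s i) (t i)) (Icc (s j) (t j)))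
    (hlp : ∀ j ∈ T, Integrable (lp (s j)) μ ∧ ∫ x, lp (s j) x ∂μ ≤ C7) (β : ℂ) :
    -(2 * C7 + 12) ≤ ∑ j ∈ T, μ.real (Icc (s j) (t j)) *
      kr ((t j - s j) / 2) (β - ((s j + t j) / 2 : ℝ)) := by
  set u := β.re with hu
  set M : ℕ → ℝ := fun j => |u - (s j + t j) / 2| + (t j - s j) / 2 with hM
  have hMpos : ∀ j ∈ T, 0 < M j := by
    intro j hj
    have := hst j hj
    have := abs_nonneg (u - (s j + t j) / 2)
    simp only [hM]; linarith
  have hkr : ∀ j ∈ T, Real.log (M j) - 11 ≤ kr ((t j - s j) / 2) (β - ((s j + t j) / 2 : ℝ)) := by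
    intro j hj
    have h0 := hst j hj
    refine le_trans ?_ (kr_ge_log_add _ (by linarith) _)
    have h1 : M j ≤ ‖β - ((s j + t j) / 2 : ℝ)‖ + (t j - s j) / 2 := by
      have h2 := Complex.abs_re_le_norm (β - ((s j + t j) / 2 : ℝ))
      rw [Complex.sub_re, Complex.ofReal_re] at h2
      simp only [hM]; linarith
    have := Real.log_le_log (hMpos j hj) h1
    linarith
  -- distances
  have hdist : ∀ j ∈ T, ∀ x ∈ Icc (s j) (t j), |x - u| ≤ M j := by
    intro j hj x hx
    simp only [hM]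
    have h1 : |x - u| ≤ |x - (s j + t j) / 2| + |u - (s j + t j) / 2| := by
      have := abs_sub_le x ((s j + t j) / 2) u
      rw [abs_sub_comm ((s j + t j) / 2) u] at this
      exact this
    have h2 : |x - (s j + t j) / 2| ≤ (t j - s j) / 2 := by
      rw [abs_le]; constructor <;> linarith [hx.1, hx.2]
    linarith
  have hm1 : ∑ j ∈ T, μ.real (Icc (s j) (t j)) ≤ 1 := by
    have h1 : ∑ j ∈ T, μ.real (Icc (s j) (t j)) = μ.real (⋃ j ∈ T, Icc (s j) (t j)) := by
      rw [measureReal_biUnion_finset]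
      · intro i hi j hj hij
        exact hdisj i hi j hj hij
      · intro j _; exact measurableSet_Icc
    rw [h1]
    exact measureReal_le_one
  have hm0 : ∀ j, 0 ≤ μ.real (Icc (s j) (t j)) := fun j => measureReal_nonneg
  -- the two groups
  have hgroup : ∀ T' ⊆ T, (∀ j ∈ T', ∃ j0 ∈ T', (∀ i ∈ T', |s i - s j0| ≤ |s i - u| ∧ |u - s j0| ≤ |s i - u|)) →
      -Real.log 2 * (∑ j ∈ T', μ.real (Icc (s j) (t j))) - C7 ≤
      ∑ j ∈ T', μ.real (Icc (s j) (t j)) * Real.log (M j) := by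
    intro T' hT' hj0
    rcases T'.eq_empty_or_nonempty with h | ⟨j, hj⟩
    · subst h; simpa using hC7
    · obtain ⟨j0, hj0, hprop⟩ := hj0 j hj
      apply group_lower μ hat C7 T' s t (fun i hi j hj => hdisj i (hT' hi) j (hT' hj)) M
        (fun j hj => hMpos j (hT' hj)) (s j0) (hlp j0 (hT' hj0)).1 (hlp j0 (hT' hj0)).2
      intro i hi x hx
      have h1 := hdist i (hT' hi) x hx
      have h2 := hdist i (hT' hi) (s i) ⟨le_rfl, (hst i (hT' hi)).le⟩
      have h3 := (hprop i hi).2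
      have h4 := abs_sub_le x u (s j0)
      linarith
  have hplus := hgroup (T.filter (fun j => u ≤ s j)) (Finset.filter_subset _ _) (by
    intro j hj
    obtain ⟨j0, hj0, hmin⟩ := Finset.exists_min_image (T.filter (fun j => u ≤ s j)) s ⟨j, hj⟩
    refine ⟨j0, hj0, ?_⟩
    intro i hi
    have h1 := hmin i hi
    have h2 := (Finset.mem_filter.mp hj0).2
    have h3 := (Finset.mem_filter.mp hi).2
    rw [abs_of_nonneg (by linarith : 0 ≤ s i - s j0), abs_of_nonneg (by linarith : 0 ≤ s i - u),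
      abs_sub_comm, abs_of_nonneg (by linarith : 0 ≤ s j0 - u)]
    constructor <;> linarith)
  have hminus := hgroup (T.filter (fun j => ¬ u ≤ s j)) (Finset.filter_subset _ _) (by
    intro j hj
    obtain ⟨j0, hj0, hmax⟩ := Finset.exists_max_image (T.filter (fun j => ¬ u ≤ s j)) s ⟨j, hj⟩
    refine ⟨j0, hj0, ?_⟩
    intro i hi
    have h1 := hmax i hi
    have h2 := not_le.mp (Finset.mem_filter.mp hj0).2
    have h3 := not_le.mp (Finset.mem_filter.mp hi).2
    rw [abs_of_nonpos (by linarith : s i - s j0 ≤ 0), abs_of_nonpos (by linarith : s i - u ≤ 0),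
      abs_of_nonneg (by linarith : 0 ≤ u - s j0)]
    constructor <;> linarith)
  have hsum : ∑ j ∈ T, μ.real (Icc (s j) (t j)) * (Real.log (M j) - 11) ≤
      ∑ j ∈ T, μ.real (Icc (s j) (t j)) * kr ((t j - s j) / 2) (β - ((s j + t j) / 2 : ℝ)) := by
    apply Finset.sum_le_sum
    intro j hj
    exact mul_le_mul_of_nonneg_left (hkr j hj) (hm0 j)
  have hsplit1 := Finset.sum_filter_add_sum_filter_not T (fun j => u ≤ s j)
    (fun j => μ.real (Icc (s j) (t j)) * Real.log (M j))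
  have hsplit2 := Finset.sum_filter_add_sum_filter_not T (fun j => u ≤ s j)
    (fun j => μ.real (Icc (s j) (t j)))
  have e1 : ∑ j ∈ T, μ.real (Icc (s j) (t j)) * (Real.log (M j) - 11) =
      ∑ j ∈ T, μ.real (Icc (s j) (t j)) * Real.log (M j) - 11 * ∑ j ∈ T, μ.real (Icc (s j) (t j)) := by
    rw [Finset.mul_sum, ← Finset.sum_sub_distrib]
    apply Finset.sum_congr rfl
    intro j _; ring
  have hlog2 := Real.log_two_lt_d9
  have hlog2' := Real.log_two_gt_d9
  have h5 : Real.log 2 * ∑ j ∈ T, μ.real (Icc (s j) (t j)) ≤ 1 * 1 := by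
    apply mul_le_mul (by linarith) hm1 (Finset.sum_nonneg fun j _ => hm0 j) (by norm_num)
  rw [← hsplit2, mul_add] at h5
  nlinarith

end

end Pool.Agent.TraceMin
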