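import Pool.Agent.TraceMin.PiecesA

/-!
Jensen's inequality on the pieces.
-/

open MeasureTheory Polynomial Set Real Filter Topology

namespace Pool.Agent.TraceMin

/-- sum of `log‖x-β‖` over a multiset -/
noncomputable def msum (m : Multiset ℂ) (x : ℝ) : ℝ := (m.map (fun β => Real.log ‖(x : ℂ) - β‖)).sum

lemma logNorm_intervalIntegrable' (β : ℂ) (a b : ℝ) :
    IntervalIntegrable (fun x : ℝ => Real.log ‖(x : ℂ) - β‖) volume a b := by
  have h := logNorm_intervalIntegrable β a b
  have e : (fun x : ℝ => Real.log ‖(x : ℂ) - β‖) = fun s : ℝ => Real.log ‖β - (s : ℂ)‖ := by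
    ext x
    rw [norm_sub_rev]
  rw [e]
  exact h

lemma msum_integral (m : Multiset ℂ) (s t : ℝ) :
    IntervalIntegrable (msum m) volume s t ∧
    (1 / (t - s)) * ∫ x in s..t, msum m x =
      (m.map (fun β => kr ((t - s) / 2) (β - ((s + t) / 2 : ℝ)))).sum := by
  induction m using Multiset.induction_on with
  | empty =>
    have e0 : msum 0 = fun _ : ℝ => (0:ℝ) := by ext x; simp [msum]
    rw [e0]
    simp
  | cons β m ih =>
    have e : msum (β ::ₘ m) = fun x : ℝ => Real.log ‖(x : ℂ) - β‖ + msum m x := by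
      ext x; simp [msum]
    constructor
    · rw [e]
      exact (logNorm_intervalIntegrable' β s t).add ih.1
    · rw [e, intervalIntegral.integral_add (logNorm_intervalIntegrable' β s t) ih.1, mul_add, ih.2,
        avg_eq_kr]
      simp

lemma log_eval_eq (G : ℝ[X]) (x : ℝ) (hx : G.eval x ≠ 0) :
    Real.log |G.eval x| = Real.log |G.leadingCoeff| + msum (G.map (algebraMap ℝ ℂ)).roots x := by
  have hG : G ≠ 0 := by rintro rfl; simp at hx
  have hs : Splits (G.map (algebraMap ℝ ℂ)) := IsAlgClosed.splits _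
  have h1 := hs.eval_eq_prod_roots (x : ℂ)
  have h2 : (G.map (algebraMap ℝ ℂ)).eval (x : ℂ) = ((G.eval x : ℝ) : ℂ) := by
    have := Polynomial.eval_map_algebraMap G (x : ℂ) (B := ℂ)
    rw [this]
    have h3 := Polynomial.aeval_algebraMap_apply ℂ x G
    simpa using h3
  have h3 : |G.eval x| = ‖(G.map (algebraMap ℝ ℂ)).eval (x : ℂ)‖ := by
    rw [h2, Complex.norm_real, Real.norm_eq_abs]
  rw [h3, h1]
  rw [norm_mul]
  have hlc : ‖(G.map (algebraMap ℝ ℂ)).leadingCoeff‖ = |G.leadingCoeff| := by
    rw [leadingCoeff_map]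
    simp
  rw [hlc]
  have hne : ∀ β ∈ (G.map (algebraMap ℝ ℂ)).roots, (x : ℂ) - β ≠ 0 := by
    intro β hβ h0
    rw [mem_roots (by simpa using hG)] at hβ
    rw [sub_eq_zero] at h0
    rw [← h0, IsRoot, h2] at hβ
    exact hx (by exact_mod_cast hβ)
  have hprod : ∀ m : Multiset ℂ, (∀ β ∈ m, (x : ℂ) - β ≠ 0) →
      ‖(m.map (fun β => (x : ℂ) - β)).prod‖ ≠ 0 ∧
      Real.log ‖(m.map (fun β => (x : ℂ) - β)).prod‖ = msum m x := by
    intro m
    induction m using Multiset.induction_on with
    | empty => intro _; simp [msum]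
    | cons β m ih =>
      intro h
      obtain ⟨i1, i2⟩ := ih (fun γ hγ => h γ (Multiset.mem_cons_of_mem hγ))
      have h0 : ‖(x : ℂ) - β‖ ≠ 0 := norm_ne_zero_iff.mpr (h β (Multiset.mem_cons_self _ _))
      simp only [Multiset.map_cons, Multiset.prod_cons, norm_mul]
      refine ⟨mul_ne_zero h0 i1, ?_⟩
      rw [Real.log_mul h0 i1, i2]
      simp [msum]
  obtain ⟨p1, p2⟩ := hprod _ hne
  rw [Real.log_mul _ p1, p2]
  exact abs_ne_zero.mpr (leadingCoeff_ne_zero.mpr hG)

lemma jensen_piece (P F : ℝ[X]) (W : ℝ → ℝ) (η : ℝ) (hη : 0 < η) (s t : ℝ) (hst : s < t)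
    (hder : ∀ x, P.eval x ≠ 0 → HasDerivAt W (F.eval x / P.eval x) x)
    (hG : ∀ x ∈ Icc s t, P.eval x ≠ 0 ∧ F.eval x ≠ 0 ∧ |W x| ≤ η) :
    (1 / (t - s)) * ∫ x in s..t, (Real.log |F.eval x| - Real.log |P.eval x|) ≤
      Real.log (2 * η / (t - s)) := by
  set g : ℝ → ℝ := fun x => F.eval x / P.eval x with hg
  have hgc : ContinuousOn g (Icc s t) := by
    apply ContinuousOn.div (F.continuous.continuousOn) (P.continuous.continuousOn)
    intro x hx
    exact (hG x hx).1
  have hgne : ∀ x ∈ Icc s t, g x ≠ 0 := fun x hx => div_ne_zero (hG x hx).2.1 (hG x hx).1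
  have hℓ : 0 < t - s := by linarith
  have huIcc : uIcc s t = Icc s t := uIcc_of_le hst.le
  have hint : IntervalIntegrable g volume s t := by
    apply ContinuousOn.intervalIntegrable
    rw [huIcc]; exact hgc
  have hFTC : ∫ x in s..t, g x = W t - W s := by
    apply intervalIntegral.integral_eq_sub_of_hasDerivAt
    · intro x hx
      rw [huIcc] at hx
      exact hder x (hG x hx).1
    · exact hint
  have hsW : |W t - W s| ≤ 2 * η := by
    have h1 := (hG s ⟨le_rfl, hst.le⟩).2.2
    have h2 := (hG t ⟨hst.le, le_rfl⟩).2.2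
    have := abs_sub (W t) (W s)
    linarith
  -- constant sign
  have hsign : (∀ x ∈ Icc s t, 0 < g x) ∨ (∀ x ∈ Icc s t, g x < 0) := by
    by_contra hcon
    push Not at hcon
    obtain ⟨⟨x0, hx0, h0⟩, ⟨x1, hx1, h1⟩⟩ := hcon
    have hsub : uIcc x0 x1 ⊆ Icc s t := by
      apply Set.uIcc_subset_Icc hx0 hx1
    have hiv := intermediate_value_uIcc (hgc.mono hsub)
    have : (0:ℝ) ∈ uIcc (g x0) (g x1) := by
      rw [mem_uIcc]; left; exact ⟨h0, h1⟩
    obtain ⟨z, hz, hz0⟩ := hiv this
    exact hgne z (hsub hz) hz0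
  have habs : ∫ x in s..t, |g x| ≤ 2 * η := by
    rcases hsign with h | h
    · have : ∫ x in s..t, |g x| = ∫ x in s..t, g x := by
        apply intervalIntegral.integral_congr
        intro x hx
        rw [huIcc] at hx
        exact abs_of_pos (h x hx)
      rw [this, hFTC]
      exact (le_abs_self _).trans hsW
    · have : ∫ x in s..t, |g x| = ∫ x in s..t, -(g x) := by
        apply intervalIntegral.integral_congr
        intro x hx
        rw [huIcc] at hx
        exact abs_of_neg (h x hx)
      rw [this, intervalIntegral.integral_neg, hFTC]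
      exact (neg_le_abs _).trans hsW
  set c := 2 * η / (t - s) with hc
  have hcpos : 0 < c := by positivity
  have hle : ∀ x ∈ Icc s t, Real.log |F.eval x| - Real.log |P.eval x| ≤ Real.log c + (|g x| / c - 1) := by
    intro x hx
    obtain ⟨h1, h2, _⟩ := hG x hx
    have h3 : 0 < |g x| := abs_pos.mpr (hgne x hx)
    have h4 : Real.log |F.eval x| - Real.log |P.eval x| = Real.log |g x| := by
      simp only [hg]
      rw [abs_div, Real.log_div (abs_ne_zero.mpr h2) (abs_ne_zero.mpr h1)]
    rw [h4]
    have h5 := Real.log_le_sub_one_of_pos (x := |g x| / c) (by positivity)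
    rw [Real.log_div h3.ne' hcpos.ne'] at h5
    linarith
  have hi1 : IntervalIntegrable (fun x => Real.log |F.eval x| - Real.log |P.eval x|) volume s t := by
    apply ContinuousOn.intervalIntegrable
    rw [huIcc]
    apply ContinuousOn.sub
    · apply ContinuousOn.log (F.continuous.abs.continuousOn)
      intro x hx
      exact abs_ne_zero.mpr (hG x hx).2.1
    · apply ContinuousOn.log (P.continuous.abs.continuousOn)
      intro x hx
      exact abs_ne_zero.mpr (hG x hx).1
  have hi2 : IntervalIntegrable (fun x => Real.log c + (|g x| / c - 1)) volume s t := by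
    apply IntervalIntegrable.add intervalIntegrable_const
    apply IntervalIntegrable.sub _ intervalIntegrable_const
    exact hint.abs.div_const c
  have h1 := intervalIntegral.integral_mono_on hst.le hi1 hi2 hle
  have h2 : ∫ x in s..t, (Real.log c + (|g x| / c - 1)) = (t - s) * Real.log c +
      ((∫ x in s..t, |g x|) / c - (t - s)) := by
    rw [intervalIntegral.integral_add intervalIntegrable_const
      ((hint.abs.div_const c).sub intervalIntegrable_const),
      intervalIntegral.integral_sub (hint.abs.div_const c) intervalIntegrable_const,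
      intervalIntegral.integral_div]
    simp
  rw [h2] at h1
  have h3 : (∫ x in s..t, |g x|) / c ≤ t - s := by
    rw [div_le_iff₀ hcpos, hc]
    have : (t - s) * (2 * η / (t - s)) = 2 * η := by field_simp
    rw [this]; exact habs
  calc (1 / (t - s)) * ∫ x in s..t, (Real.log |F.eval x| - Real.log |P.eval x|)
      ≤ (1 / (t - s)) * ((t - s) * Real.log c) := by
        apply mul_le_mul_of_nonneg_left _ (by positivity)
        linarith
    _ = Real.log c := by field_simp

/-- the inequality on a piece in terms of the averaged kernels -/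
lemma piece_ineq (P F : ℝ[X]) (W : ℝ → ℝ) (η : ℝ) (hη : 0 < η) (s t : ℝ) (hst : s < t)
    (hlc : F.leadingCoeff = 2 * P.leadingCoeff) (hP : P ≠ 0)
    (hder : ∀ x, P.eval x ≠ 0 → HasDerivAt W (F.eval x / P.eval x) x)
    (hG : ∀ x ∈ Icc s t, P.eval x ≠ 0 ∧ F.eval x ≠ 0 ∧ |W x| ≤ η) :
    Real.log (1 / (2 * η)) +
      ((F.map (algebraMap ℝ ℂ)).roots.map (fun β => kr ((t - s) / 2) (β - ((s + t) / 2 : ℝ)))).sum ≤
      -Real.log (t - s) +
      ((P.map (algebraMap ℝ ℂ)).roots.map (fun β => kr ((t - s) / 2) (β - ((s + t) / 2 : ℝ)))).sum := by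
  have h1 := jensen_piece P F W η hη s t hst hder hG
  have hℓ : 0 < t - s := by linarith
  have hlcP : |P.leadingCoeff| ≠ 0 := abs_ne_zero.mpr (leadingCoeff_ne_zero.mpr hP)
  have e1 : ∫ x in s..t, (Real.log |F.eval x| - Real.log |P.eval x|) =
      ∫ x in s..t, (Real.log 2 + (msum (F.map (algebraMap ℝ ℂ)).roots x - msum (P.map (algebraMap ℝ ℂ)).roots x)) := by
    apply intervalIntegral.integral_congr
    intro x hx
    rw [uIcc_of_le hst.le] at hx
    obtain ⟨a1, a2, _⟩ := hG x hx
    simp only
    rw [log_eval_eq F x a2, log_eval_eq P x a1, hlc, abs_mul, Real.log_mul (by norm_num) hlcP]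
    simp only [abs_two]
    ring
  obtain ⟨iF, eF⟩ := msum_integral (F.map (algebraMap ℝ ℂ)).roots s t
  obtain ⟨iP, eP⟩ := msum_integral (P.map (algebraMap ℝ ℂ)).roots s t
  rw [e1, intervalIntegral.integral_add intervalIntegrable_const (iF.sub iP),
    intervalIntegral.integral_sub iF iP, mul_add, mul_sub, eF, eP] at h1
  have e2 : 1 / (t - s) * ∫ x in s..t, Real.log 2 = Real.log 2 := by
    simp only [intervalIntegral.integral_const, smul_eq_mul]
    field_simp
  rw [e2, Real.log_div (by positivity) hℓ.ne'] at h1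
  have e3 : Real.log (1 / (2 * η)) = -Real.log (2 * η) := by rw [one_div, Real.log_inv]
  rw [e3]
  have := Real.log_two_gt_d9
  linarith

end Pool.Agent.TraceMin
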