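import Pool.Agent.TraceMin.PiecesB

/-!
Summing over the pieces, and the selection of the pieces.
-/

open MeasureTheory Polynomial Set Real Filter Topology

namespace Pool.Agent.TraceMin

section
variable (μ : Measure ℝ) [IsProbabilityMeasure μ]

lemma pieces_sum (hat : ∀ x : ℝ, μ {x} = 0) (R : ℝ) (hR1 : 1 ≤ R) (C7 : ℝ) (hC7 : 0 ≤ C7)
    (T : Finset ℕ) (s t : ℕ → ℝ) (hst : ∀ j ∈ T, s j < t j)
    (hdisj : ∀ i ∈ T, ∀ j ∈ T, i ≠ j → Disjoint (Icc (s i) (t i)) (Icc (s j) (t j)))
    (hlp : ∀ j ∈ T, Integrable (lp (s j)) μ ∧ ∫ x, lp (s j) x ∂μ ≤ C7)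
    (hR : ∀ j ∈ T, -R ≤ s j ∧ t j ≤ R)
    (P F : ℝ[X]) (W : ℝ → ℝ) (η : ℝ) (hη : 0 < η) (hP : P ≠ 0)
    (hdeg : F.natDegree = P.natDegree + 1) (hlc : F.leadingCoeff = 2 * P.leadingCoeff)
    (hder : ∀ x, P.eval x ≠ 0 → HasDerivAt W (F.eval x / P.eval x) x)
    (hG : ∀ j ∈ T, ∀ x ∈ Icc (s j) (t j), P.eval x ≠ 0 ∧ F.eval x ≠ 0 ∧ |W x| ≤ η)
    (hmass : 1 / 2 ≤ ∑ j ∈ T, μ.real (Icc (s j) (t j))) :
    Real.log (1 / (2 * η)) / 2 ≤ C7 * T.card + (P.natDegree + 1) * (2 * C7 + 12)
      + ((P.map (algebraMap ℝ ℂ)).roots.map (fun α => Real.log (R + 1) + plog α)).sum := by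
  have hm0 : ∀ j, 0 ≤ μ.real (Icc (s j) (t j)) := fun j => measureReal_nonneg
  have hm1 : ∑ j ∈ T, μ.real (Icc (s j) (t j)) ≤ 1 := by
    have h1 : ∑ j ∈ T, μ.real (Icc (s j) (t j)) = μ.real (⋃ j ∈ T, Icc (s j) (t j)) := by
      rw [measureReal_biUnion_finset]
      · intro i hi j hj hij
        exact hdisj i hi j hj hij
      · intro j _; exact measurableSet_Icc
    rw [h1]
    exact measureReal_le_one
  have hlR : 0 ≤ Real.log (R + 1) := Real.log_nonneg (by linarith)
  -- lower bound for F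
  have hlow : ∀ m : Multiset ℂ, -(Multiset.card m : ℝ) * (2 * C7 + 12) ≤
      ∑ j ∈ T, μ.real (Icc (s j) (t j)) *
        (m.map (fun β => kr ((t j - s j) / 2) (β - ((s j + t j) / 2 : ℝ)))).sum := by
    intro m
    induction m using Multiset.induction_on with
    | empty => simp
    | cons β m ih =>
      have h1 := pot_lower μ hat C7 hC7 T s t hst hdisj hlp β
      have e : ∑ j ∈ T, μ.real (Icc (s j) (t j)) *
          ((β ::ₘ m).map (fun β => kr ((t j - s j) / 2) (β - ((s j + t j) / 2 : ℝ)))).sum =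
          ∑ j ∈ T, μ.real (Icc (s j) (t j)) * kr ((t j - s j) / 2) (β - ((s j + t j) / 2 : ℝ)) +
          ∑ j ∈ T, μ.real (Icc (s j) (t j)) *
            (m.map (fun β => kr ((t j - s j) / 2) (β - ((s j + t j) / 2 : ℝ)))).sum := by
        simp only [Multiset.map_cons, Multiset.sum_cons, mul_add, Finset.sum_add_distrib]
      rw [e, Multiset.card_cons, Nat.cast_add, Nat.cast_one]
      linarith
  -- upper bound for P
  have hupp : ∀ m : Multiset ℂ,
      ∑ j ∈ T, μ.real (Icc (s j) (t j)) *
        (m.map (fun β => kr ((t j - s j) / 2) (β - ((s j + t j) / 2 : ℝ)))).sum ≤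
      (m.map (fun α => Real.log (R + 1) + plog α)).sum := by
    intro m
    induction m using Multiset.induction_on with
    | empty => simp
    | cons β m ih =>
      have h1 : ∑ j ∈ T, μ.real (Icc (s j) (t j)) *
          kr ((t j - s j) / 2) (β - ((s j + t j) / 2 : ℝ)) ≤ Real.log (R + 1) + plog β := by
        have h2 : ∀ j ∈ T, μ.real (Icc (s j) (t j)) *
          kr ((t j - s j) / 2) (β - ((s j + t j) / 2 : ℝ)) ≤
            μ.real (Icc (s j) (t j)) * (Real.log (R + 1) + plog β) := by
          intro j hj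
          apply mul_le_mul_of_nonneg_left _ (hm0 j)
          have h0 := hst j hj
          obtain ⟨r1, r2⟩ := hR j hj
          refine (kr_le _ (by linarith) _).trans ?_
          have h3 : ‖β - ((s j + t j) / 2 : ℝ)‖ + (t j - s j) / 2 ≤ (R + 1) * Real.exp (plog β) := by
            have h4 := norm_sub_le β (((s j + t j) / 2 : ℝ) : ℂ)
            rw [Complex.norm_real, Real.norm_eq_abs] at h4
            have h5 : |(s j + t j) / 2| + (t j - s j) / 2 ≤ R := by
              rcases abs_cases ((s j + t j) / 2) with ⟨h6, _⟩ | ⟨h6, _⟩ <;> rw [h6] <;> linarith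
            have h7 := le_exp_plog β
            have h8 := one_le_exp_plog β
            nlinarith
          have h4 : 0 < ‖β - ((s j + t j) / 2 : ℝ)‖ + (t j - s j) / 2 := by
            have := norm_nonneg (β - ((s j + t j) / 2 : ℝ))
            linarith
          have h5 := Real.log_le_log h4 h3
          rw [Real.log_mul (by linarith) (Real.exp_pos _).ne', Real.log_exp] at h5
          exact h5
        have h3 := Finset.sum_le_sum h2
        rw [← Finset.sum_mul] at h3
        have h4 : 0 ≤ Real.log (R + 1) + plog β := add_nonneg hlR (plog_nonneg β)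
        nlinarith
      simp only [Multiset.map_cons, Multiset.sum_cons, mul_add, Finset.sum_add_distrib]
      linarith
  -- lengths
  have hlen : ∀ j ∈ T, μ.real (Icc (s j) (t j)) * (-Real.log (t j - s j)) ≤ C7 := by
    intro j hj
    obtain ⟨i1, i2⟩ := hlp j hj
    have h0 := hst j hj
    have h1 : ∫ x in Icc (s j) (t j), (-Real.log (t j - s j)) ∂μ ≤ ∫ x in Icc (s j) (t j), lp (s j) x ∂μ := by
      apply integral_mono_ae (integrable_const _) i1.integrableOn
      have hne : ∀ᵐ x ∂μ, x ≠ s j := by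
        rw [ae_iff]; simpa using hat (s j)
      filter_upwards [ae_restrict_of_ae hne, ae_restrict_mem measurableSet_Icc] with x hx1 hx2
      have h2 : 0 < |s j - x| := abs_pos.mpr (sub_ne_zero.mpr (Ne.symm hx1))
      have h3 : |s j - x| ≤ t j - s j := by
        rw [abs_sub_comm, abs_of_nonneg (by linarith [hx2.1])]
        linarith [hx2.2]
      have h4 := Real.log_le_log h2 h3
      have h5 : -Real.log |s j - x| ≤ lp (s j) x := le_max_right _ _
      linarith
    simp only [integral_const, smul_eq_mul, MeasurableSet.univ, measureReal_restrict_apply,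
      univ_inter] at h1
    refine h1.trans (le_trans ?_ i2)
    apply setIntegral_le_integral i1
    filter_upwards with x
    exact lp_nonneg _ _
  -- sum
  have hsum := Finset.sum_le_sum (fun j (hj : j ∈ T) => mul_le_mul_of_nonneg_left
    (piece_ineq P F W η hη (s j) (t j) (hst j hj) hlc hP hder (hG j hj)) (hm0 j))
  simp only [mul_add, Finset.sum_add_distrib, ← Finset.sum_mul] at hsum
  have h1 := hlow (F.map (algebraMap ℝ ℂ)).roots
  have h2 := hupp (P.map (algebraMap ℝ ℂ)).roots
  have hcard : Multiset.card (F.map (algebraMap ℝ ℂ)).roots = P.natDegree + 1 := by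
    rw [← hdeg, ← natDegree_map_eq_of_injective (algebraMap ℝ ℂ).injective F]
    exact (IsAlgClosed.splits (F.map (algebraMap ℝ ℂ))).natDegree_eq_card_roots.symm
  rw [hcard] at h1
  have h3 : ∑ j ∈ T, μ.real (Icc (s j) (t j)) * (-Real.log (t j - s j)) ≤ C7 * T.card := by
    have := Finset.sum_le_sum hlen
    simp only [Finset.sum_const, nsmul_eq_mul] at this
    linarith
  rw [Nat.cast_add, Nat.cast_one] at h1
  have h5 : 0 ≤ ((P.map (algebraMap ℝ ℂ)).roots.map (fun α => Real.log (R + 1) + plog α)).sum := by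
    apply Multiset.sum_nonneg
    intro x hx
    obtain ⟨α, _, rfl⟩ := Multiset.mem_map.mp hx
    exact add_nonneg hlR (plog_nonneg α)
  rcases le_total 0 (Real.log (1 / (2 * η))) with h4 | h4
  · have h6 : Real.log (1 / (2 * η)) / 2 ≤ (∑ j ∈ T, μ.real (Icc (s j) (t j))) * Real.log (1 / (2 * η)) := by
      nlinarith
    nlinarith
  · have h7 : 0 ≤ C7 * T.card := by positivity
    have h8 : 0 ≤ ((P.natDegree : ℝ) + 1) * (2 * C7 + 12) := by positivity
    linarith

end

end Pool.Agent.TraceMin
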