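import Pool.Agent.TraceMin.PiecesC

/-!
Selection of the pieces.
-/

open MeasureTheory Polynomial Set Real Filter Topology

namespace Pool.Agent.TraceMin

/-- number of elements of `N` below `x` -/
noncomputable def idx (N : Finset ℝ) (x : ℝ) : ℕ := (N.filter (fun t => t < x)).card

lemma idx_mono (N : Finset ℝ) : Monotone (idx N) := by
  intro x y hxy
  apply Finset.card_le_card
  intro t ht
  rw [Finset.mem_filter] at ht ⊢
  exact ⟨ht.1, ht.2.trans_le hxy⟩

lemma idx_le (N : Finset ℝ) (x : ℝ) : idx N x ≤ N.card := Finset.card_filter_le _ _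

lemma idx_lt (N : Finset ℝ) (x y z : ℝ) (hz : z ∈ N) (hxz : x ≤ z) (hzy : z < y) :
    idx N x < idx N y := by
  apply Finset.card_lt_card
  rw [Finset.ssubset_iff_of_subset]
  · refine ⟨z, Finset.mem_filter.mpr ⟨hz, hzy⟩, ?_⟩
    rw [Finset.mem_filter]
    rintro ⟨_, h⟩
    exact absurd h (not_lt.mpr hxz)
  · intro t ht
    rw [Finset.mem_filter] at ht ⊢
    exact ⟨ht.1, by linarith [ht.2]⟩

/-- the piece -/
def Jset (N : Finset ℝ) (W : ℝ → ℝ) (η R : ℝ) (j : ℕ) : Set ℝ :=
  {x | x ∉ N ∧ idx N x = j ∧ |W x| ≤ η ∧ x ∈ Icc (-R) R}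

lemma Jset_ordConnected (P F : ℝ[X]) (N : Finset ℝ)
    (hN : ∀ x, x ∈ N ↔ (F.eval x = 0 ∨ P.eval x = 0)) (W : ℝ → ℝ) (η R : ℝ)
    (hder : ∀ x, P.eval x ≠ 0 → HasDerivAt W (F.eval x / P.eval x) x) (j : ℕ) (x y z : ℝ)
    (hx : x ∈ Jset N W η R j) (hy : y ∈ Jset N W η R j) (hz : z ∈ Icc x y) :
    z ∈ Jset N W η R j := by
  rcases hz.1.eq_or_lt with h1 | h1
  · rw [← h1]; exact hx
  rcases hz.2.eq_or_lt with h2 | h2
  · rw [h2]; exact hy
  have hnotN : ∀ w ∈ Icc x y, w ∉ N := by
    intro w hw hwN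
    rcases hw.2.eq_or_lt with h3 | h3
    · rw [h3] at hwN; exact hy.1 hwN
    · have := idx_lt N x y w hwN hw.1 h3
      rw [hx.2.1, hy.2.1] at this
      exact lt_irrefl _ this
  have hPne : ∀ w ∈ Icc x y, P.eval w ≠ 0 := fun w hw h0 => hnotN w hw ((hN w).mpr (Or.inr h0))
  have hFne : ∀ w ∈ Icc x y, F.eval w ≠ 0 := fun w hw h0 => hnotN w hw ((hN w).mpr (Or.inl h0))
  have hcont : ContinuousOn W (Icc x y) := fun w hw => (hder w (hPne w hw)).continuousAt.continuousWithinAt
  have hnoext : ∀ c ∈ Ioo x y, ¬ IsLocalExtr W c := by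
    intro c hc hext
    have h3 := hext.hasDerivAt_eq_zero (hder c (hPne c ⟨hc.1.le, hc.2.le⟩))
    rw [div_eq_zero_iff] at h3
    rcases h3 with h3 | h3
    · exact hFne c ⟨hc.1.le, hc.2.le⟩ h3
    · exact hPne c ⟨hc.1.le, hc.2.le⟩ h3
  have hne : (Icc x y).Nonempty := ⟨z, hz⟩
  refine ⟨hnotN z hz, ?_, ?_, ?_⟩
  · apply le_antisymm
    · rw [← hy.2.1]; exact idx_mono N hz.2
    · rw [← hx.2.1]; exact idx_mono N hz.1
  · rw [abs_le]
    constructor
    · obtain ⟨c, hc, hcmin⟩ := isCompact_Icc.exists_isMinOn hne hcont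
      have h4 : W c ≤ W z := hcmin hz
      rcases hc.1.eq_or_lt with h5 | h5
      · have := (abs_le.mp hx.2.2.1).1
        rw [h5] at this; linarith
      rcases hc.2.eq_or_lt with h6 | h6
      · have := (abs_le.mp hy.2.2.1).1
        rw [← h6] at this; linarith
      exfalso
      exact hnoext c ⟨h5, h6⟩ (Or.inl (hcmin.isLocalMin (Icc_mem_nhds h5 h6)))
    · obtain ⟨c, hc, hcmax⟩ := isCompact_Icc.exists_isMaxOn hne hcont
      have h4 : W z ≤ W c := hcmax hz
      rcases hc.1.eq_or_lt with h5 | h5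
      · have := (abs_le.mp hx.2.2.1).2
        rw [h5] at this; linarith
      rcases hc.2.eq_or_lt with h6 | h6
      · have := (abs_le.mp hy.2.2.1).2
        rw [← h6] at this; linarith
      exfalso
      exact hnoext c ⟨h5, h6⟩ (Or.inr (hcmax.isLocalMax (Icc_mem_nhds h5 h6)))
  · exact ⟨by linarith [hx.2.2.2.1], by linarith [hy.2.2.2.2]⟩

lemma Jset_measurable (N : Finset ℝ) (W : ℝ → ℝ) (hW : Measurable W) (η R : ℝ) (j : ℕ) :
    MeasurableSet (Jset N W η R j) := by
  have h1 : MeasurableSet {x : ℝ | x ∉ N} := by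
    have : {x : ℝ | x ∉ N} = (N : Set ℝ)ᶜ := by ext x; simp
    rw [this]
    exact N.measurableSet.compl
  have h2 : MeasurableSet {x : ℝ | idx N x = j} := (idx_mono N).measurable (measurableSet_singleton j)
  have h3 : MeasurableSet {x : ℝ | |W x| ≤ η} := measurableSet_le (by fun_prop) measurable_const
  exact h1.inter (h2.inter (h3.inter measurableSet_Icc))

set_option maxHeartbeats 2000000 in
theorem pieces (μ : Measure ℝ) [IsProbabilityMeasure μ] (R : ℝ) (hR1 : 1 ≤ R)
    (hR : μ (Icc (-R) R)ᶜ = 0)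
    (hint : Integrable (fun p : ℝ × ℝ => Real.log |p.1 - p.2|) (μ.prod μ))
    (hdiag : (μ.prod μ) {p | p.1 = p.2} = 0) :
    ∃ C : ℝ, 0 < C ∧ ∀ (P F : ℝ[X]) (W : ℝ → ℝ) (η : ℝ), P ≠ 0 → F.natDegree = P.natDegree + 1 →
      F.leadingCoeff = 2 * P.leadingCoeff →
      (∀ x, P.eval x ≠ 0 → HasDerivAt W (F.eval x / P.eval x) x) → Measurable W →
      0 < η → μ {x | η < |W x|} ≤ 1 / 4 →
      Real.log (1 / (2 * η)) / 2 ≤ C * (P.natDegree + 1) +
        ((P.map (algebraMap ℝ ℂ)).roots.map plog).sum := by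
  -- atoms
  have hat : ∀ x : ℝ, μ {x} = 0 := by
    intro x
    have h1 : (μ.prod μ) ({x} ×ˢ {x}) = 0 := by
      apply measure_mono_null _ hdiag
      rintro ⟨a, b⟩ ⟨ha, hb⟩
      simp only [mem_singleton_iff] at ha hb
      simp [ha, hb]
    rw [Measure.prod_prod] at h1
    exact mul_self_eq_zero.mp h1
  -- the negative part of the energy
  have hlpm : Measurable (fun p : ℝ × ℝ => lp p.1 p.2) := by
    unfold lp
    fun_prop
  have hlpi : Integrable (fun p : ℝ × ℝ => lp p.1 p.2) (μ.prod μ) := by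
    have h1 : Integrable (fun p : ℝ × ℝ => max 0 (-Real.log |p.1 - p.2|)) (μ.prod μ) :=
      (integrable_zero _ _ _).sup hint.neg
    exact h1
  set E := ∫ p : ℝ × ℝ, lp p.1 p.2 ∂(μ.prod μ) with hE
  have hE0 : 0 ≤ E := integral_nonneg fun p => lp_nonneg _ _
  set C7 := 8 * E + 1 with hC7
  have hC7pos : 0 < C7 := by linarith
  set ul : ℝ → ENNReal := fun x => ∫⁻ y, ENNReal.ofReal (lp x y) ∂μ with hul
  have hulm : Measurable ul := by
    simp only [hul]
    exact Measurable.lintegral_prod_right' (f := fun p : ℝ × ℝ => ENNReal.ofReal (lp p.1 p.2))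
      hlpm.ennreal_ofReal
  have hulint : ∫⁻ x, ul x ∂μ = ENNReal.ofReal E := by
    simp only [hul, hE]
    rw [ofReal_integral_eq_lintegral_ofReal hlpi (Eventually.of_forall fun p => lp_nonneg _ _),
      lintegral_prod _ (hlpm.ennreal_ofReal.aemeasurable)]
  have hYc : μ {x | ENNReal.ofReal C7 ≤ ul x} ≤ 1 / 8 := by
    have h1 := meas_ge_le_lintegral_div hulm.aemeasurable (μ := μ) (ε := ENNReal.ofReal C7)
      (by simpa using hC7pos) ENNReal.ofReal_ne_top
    rw [hulint] at h1
    refine h1.trans ?_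
    rw [← ENNReal.ofReal_div_of_pos hC7pos]
    have : (1 / 8 : ENNReal) = ENNReal.ofReal (1 / 8) := by
      rw [ENNReal.ofReal_div_of_pos (by norm_num)]; norm_num
    rw [this]
    apply ENNReal.ofReal_le_ofReal
    rw [div_le_div_iff₀ hC7pos (by norm_num)]
    linarith
  set Y : Set ℝ := {x | ul x < ENNReal.ofReal C7} with hY
  have hYm : MeasurableSet Y := measurableSet_lt hulm measurable_const
  have hYprop : ∀ x ∈ Y, Integrable (lp x) μ ∧ ∫ y, lp x y ∂μ ≤ C7 := by
    intro x hx
    have h1 : Integrable (lp x) μ := by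
      refine ⟨(lp_measurable x).aestronglyMeasurable, ?_⟩
      rw [hasFiniteIntegral_iff_ofReal (Eventually.of_forall fun y => lp_nonneg _ _)]
      exact lt_of_lt_of_le hx le_top
    refine ⟨h1, ?_⟩
    have h2 := ofReal_integral_eq_lintegral_ofReal h1 (Eventually.of_forall fun y => lp_nonneg _ _)
    have h3 : ENNReal.ofReal (∫ y, lp x y ∂μ) < ENNReal.ofReal C7 := by rw [h2]; exact hx
    exact ((ENNReal.ofReal_lt_ofReal_iff hC7pos).mp h3).le
  have hlR : 0 ≤ Real.log (R + 1) := Real.log_nonneg (by linarith)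
  refine ⟨4 * C7 + 12 + Real.log (R + 1), by linarith, ?_⟩
  intro P F W η hP hdeg hlc hder hWm hη hmeas
  have hF : F ≠ 0 := by
    rintro rfl
    simp at hdeg
  set N : Finset ℝ := (F * P).roots.toFinset with hNdef
  have hN : ∀ x, x ∈ N ↔ (F.eval x = 0 ∨ P.eval x = 0) := by
    intro x
    rw [hNdef, Multiset.mem_toFinset, mem_roots (mul_ne_zero hF hP), IsRoot, eval_mul, mul_eq_zero]
  have hNcard : N.card ≤ 2 * P.natDegree + 1 := by
    calc N.card ≤ Multiset.card (F * P).roots := Multiset.toFinset_card_le _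
      _ ≤ (F * P).natDegree := card_roots' _
      _ = F.natDegree + P.natDegree := natDegree_mul hF hP
      _ = _ := by rw [hdeg]; ring
  set n := N.card + 1 with hn
  -- compact pieces
  have hK : ∀ j : ℕ, ∃ K ⊆ Jset N W η R j ∩ Y, IsCompact K ∧
      μ (Jset N W η R j ∩ Y) < μ K + ENNReal.ofReal (1 / (8 * n)) := by
    intro j
    apply MeasurableSet.exists_isCompact_lt_add ((Jset_measurable N W hWm η R j).inter hYm)
      (measure_ne_top _ _)
    simp only [ne_eq, ENNReal.ofReal_eq_zero, not_le]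
    rw [hn]; positivity
  choose K hKsub hKc hKμ using hK
  set T : Finset ℕ := (Finset.range n).filter (fun j => μ (K j) ≠ 0) with hT
  have hKne : ∀ j ∈ T, (K j).Nonempty := by
    intro j hj
    by_contra hne
    rw [not_nonempty_iff_eq_empty] at hne
    have := (Finset.mem_filter.mp hj).2
    rw [hne] at this
    simp at this
  set s : ℕ → ℝ := fun j => sInf (K j) with hs
  set t : ℕ → ℝ := fun j => sSup (K j) with ht
  have hsK : ∀ j ∈ T, s j ∈ K j := fun j hj => (hKc j).sInf_mem (hKne j hj)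
  have htK : ∀ j ∈ T, t j ∈ K j := fun j hj => (hKc j).sSup_mem (hKne j hj)
  have hKIcc : ∀ j ∈ T, K j ⊆ Icc (s j) (t j) := fun j hj x hx =>
    ⟨csInf_le (hKc j).bddBelow hx, le_csSup (hKc j).bddAbove hx⟩
  have hst : ∀ j ∈ T, s j < t j := by
    intro j hj
    have h1 : s j ≤ t j := (hKIcc j hj (hsK j hj)).2
    rcases h1.eq_or_lt with h2 | h2
    · exfalso
      have h3 : K j ⊆ {s j} := by
        intro x hx
        have := hKIcc j hj hx
        rw [← h2, Icc_self] at this
        exact this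
      exact (Finset.mem_filter.mp hj).2 (measure_mono_null h3 (hat _))
    · exact h2
  have hIcc : ∀ j ∈ T, Icc (s j) (t j) ⊆ Jset N W η R j := by
    intro j hj x hx
    exact Jset_ordConnected P F N hN W η R hder j (s j) (t j) x (hKsub j (hsK j hj)).1
      (hKsub j (htK j hj)).1 hx
  have hdisj : ∀ i ∈ T, ∀ j ∈ T, i ≠ j → Disjoint (Icc (s i) (t i)) (Icc (s j) (t j)) := by
    intro i hi j hj hij
    rw [Set.disjoint_left]
    intro x hx1 hx2
    have h1 := (hIcc i hi hx1).2.1
    have h2 := (hIcc j hj hx2).2.1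
    exact hij (h1.symm.trans h2)
  -- total mass
  have hmass : 1 / 2 ≤ ∑ j ∈ T, μ.real (Icc (s j) (t j)) := by
    -- the union of the pieces
    have hU : 5 / 8 ≤ ∑ j ∈ Finset.range n, μ.real (Jset N W η R j ∩ Y) := by
      have h1 : ∑ j ∈ Finset.range n, μ.real (Jset N W η R j ∩ Y) =
          μ.real (⋃ j ∈ Finset.range n, (Jset N W η R j ∩ Y)) := by
        rw [measureReal_biUnion_finset]
        · intro i _ j _ hij
          change Disjoint (Jset N W η R i ∩ Y) (Jset N W η R j ∩ Y)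
          rw [Set.disjoint_left]
          intro x hx1 hx2
          exact hij (hx1.1.2.1.symm.trans hx2.1.2.1)
        · intro j _; exact (Jset_measurable N W hWm η R j).inter hYm
      rw [h1]
      set U := ⋃ j ∈ Finset.range n, (Jset N W η R j ∩ Y) with hUdef
      have hUm : MeasurableSet U := Finset.measurableSet_biUnion _ fun j _ =>
        (Jset_measurable N W hWm η R j).inter hYm
      have h2 : μ Uᶜ ≤ ENNReal.ofReal (3 / 8) := by
        have h3 : Uᶜ ⊆ ((N : Set ℝ) ∪ {x | η < |W x|}) ∪ ((Icc (-R) R)ᶜ ∪ {x | ENNReal.ofReal C7 ≤ ul x}) := by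
          intro x hx
          by_contra hcon
          simp only [mem_union, not_or, mem_compl_iff, not_not] at hcon
          obtain ⟨⟨a1, a2⟩, a3, a4⟩ := hcon
          apply hx
          rw [hUdef, mem_iUnion₂]
          refine ⟨idx N x, ?_, ⟨by simpa using a1, rfl, ?_, a3⟩, ?_⟩
          · rw [Finset.mem_range, hn]
            exact Nat.lt_succ_of_le (idx_le N x)
          · simpa using a2
          · simpa [hY] using a4
        refine (measure_mono h3).trans ?_
        have hNμ : μ (N : Set ℝ) = 0 := by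
          have hns : NullSingletonClass μ := ⟨hat⟩
          exact N.finite_toSet.measure_zero μ
        calc μ (((N : Set ℝ) ∪ {x | η < |W x|}) ∪ ((Icc (-R) R)ᶜ ∪ {x | ENNReal.ofReal C7 ≤ ul x}))
            ≤ (μ (N : Set ℝ) + μ {x | η < |W x|}) + (μ (Icc (-R) R)ᶜ + μ {x | ENNReal.ofReal C7 ≤ ul x}) :=
              (measure_union_le _ _).trans (add_le_add (measure_union_le _ _) (measure_union_le _ _))
          _ ≤ (0 + 1 / 4) + (0 + 1 / 8) := by
              rw [hNμ, hR]
              gcongr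
          _ = ENNReal.ofReal (3 / 8) := by
              rw [zero_add, zero_add]
              have e1 : (1 / 4 : ENNReal) = ENNReal.ofReal (1 / 4) := by
                rw [ENNReal.ofReal_div_of_pos (by norm_num)]; norm_num
              have e2 : (1 / 8 : ENNReal) = ENNReal.ofReal (1 / 8) := by
                rw [ENNReal.ofReal_div_of_pos (by norm_num)]; norm_num
              rw [e1, e2, ← ENNReal.ofReal_add (by norm_num) (by norm_num)]
              norm_num
      have h4 : μ.real Uᶜ ≤ 3 / 8 := by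
        unfold Measure.real
        exact ENNReal.toReal_le_of_le_ofReal (by norm_num) h2
      have h5 := probReal_compl_eq_one_sub hUm (μ := μ)
      linarith
    have h2 : ∀ j ∈ Finset.range n, μ.real (Jset N W η R j ∩ Y) ≤ μ.real (K j) + 1 / (8 * n) := by
      intro j _
      have h3 := (hKμ j).le
      have h4 : μ.real (Jset N W η R j ∩ Y) ≤ (μ (K j) + ENNReal.ofReal (1 / (8 * n))).toReal :=
        ENNReal.toReal_mono (ENNReal.add_ne_top.mpr ⟨measure_ne_top _ _, ENNReal.ofReal_ne_top⟩) h3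
      rw [ENNReal.toReal_add (measure_ne_top _ _) ENNReal.ofReal_ne_top,
        ENNReal.toReal_ofReal (by positivity)] at h4
      exact h4
    have h3 := Finset.sum_le_sum h2
    rw [Finset.sum_add_distrib] at h3
    have h4 : ∑ j ∈ Finset.range n, (1 : ℝ) / (8 * n) = 1 / 8 := by
      rw [Finset.sum_const, Finset.card_range, nsmul_eq_mul]
      have : (0:ℝ) < n := by rw [hn]; positivity
      field_simp
    rw [h4] at h3
    have h5 : ∑ j ∈ Finset.range n, μ.real (K j) = ∑ j ∈ T, μ.real (K j) := by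
      rw [hT, Finset.sum_filter_of_ne]
      intro j _ hj h0
      apply hj
      unfold Measure.real
      rw [h0]; simp
    have h6 : ∑ j ∈ T, μ.real (K j) ≤ ∑ j ∈ T, μ.real (Icc (s j) (t j)) := by
      apply Finset.sum_le_sum
      intro j hj
      exact measureReal_mono (hKIcc j hj)
    linarith
  have hfin := pieces_sum μ hat R hR1 C7 hC7pos.le T s t hst hdisj
    (fun j hj => hYprop _ (hKsub j (hsK j hj)).2)
    (fun j hj => ⟨(hKsub j (hsK j hj)).1.2.2.2.1, (hKsub j (htK j hj)).1.2.2.2.2⟩)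
    P F W η hη hP hdeg hlc hder
    (fun j hj x hx => by
      have h1 := hIcc j hj hx
      refine ⟨fun h0 => h1.1 ((hN x).mpr (Or.inr h0)), fun h0 => h1.1 ((hN x).mpr (Or.inl h0)), h1.2.2.1⟩)
    hmass
  refine hfin.trans ?_
  have hTcard : (T.card : ℝ) ≤ 2 * (P.natDegree + 1) := by
    have h1 : T.card ≤ n := by
      calc T.card ≤ (Finset.range n).card := Finset.card_filter_le _ _
        _ = n := Finset.card_range n
    have h2 : T.card ≤ 2 * (P.natDegree + 1) := by omega
    exact_mod_cast h2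
  have hsum : ((P.map (algebraMap ℝ ℂ)).roots.map (fun α => Real.log (R + 1) + plog α)).sum =
      P.natDegree * Real.log (R + 1) + ((P.map (algebraMap ℝ ℂ)).roots.map plog).sum := by
    rw [Multiset.sum_map_add]
    congr 1
    rw [Multiset.map_const', Multiset.sum_replicate, nsmul_eq_mul]
    congr 2
    rw [← natDegree_map_eq_of_injective (algebraMap ℝ ℂ).injective P]
    exact (IsAlgClosed.splits (P.map (algebraMap ℝ ℂ))).natDegree_eq_card_roots.symm
  rw [hsum]
  have g1 : C7 * (T.card : ℝ) ≤ C7 * (2 * (P.natDegree + 1)) := mul_le_mul_of_nonneg_left hTcard hC7pos.le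
  have g2 : (4 * C7 + 12 + Real.log (R + 1)) * ((P.natDegree : ℝ) + 1) =
    C7 * (2 * (P.natDegree + 1)) + (P.natDegree + 1) * (2 * C7 + 12) + P.natDegree * Real.log (R + 1)
      + Real.log (R + 1) := by ring
  rw [g2]
  linarith

end Pool.Agent.TraceMin
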