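import Pool.Agent.TraceMin.Defs2

/-!
Module T13: points with discrepancy at most one.
-/

open MeasureTheory Polynomial Set

namespace Pool.Agent.TraceMin

/-- points have measure zero -/
theorem Reg.measure_point {M Cf : ℝ} {μ : Measure ℝ} (hμ : Reg M Cf μ) (x : ℝ) : μ {x} = 0 := by
  have h := hμ.2.2 x x le_rfl
  simpa using h

theorem Reg.iio_eq_iic {M Cf : ℝ} {μ : Measure ℝ} (hμ : Reg M Cf μ) (x : ℝ) :
    μ (Iio x) = μ (Iic x) := by
  have h : Iic x = Iio x ∪ {x} := by
    ext y; simp [le_iff_lt_or_eq]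
  refine le_antisymm (measure_mono Iio_subset_Iic_self) ?_
  rw [h]
  refine (measure_union_le _ _).trans ?_
  rw [hμ.measure_point, add_zero]

/-- the quantile points -/
theorem Reg.quantiles {M Cf : ℝ} (hM : 1 ≤ M) {μ : Measure ℝ} (hμ : Reg M Cf μ) (K : ℕ) :
    ∃ q : ℕ → ℝ, ∀ i ≤ K, 0 < K → q i ∈ Icc 0 M ∧ μ.real (Iio (q i)) = (i : ℝ) / K := by
  have hprob := hμ.1
  have hCf : 0 ≤ Cf := by
    by_contra hneg
    push Not at hneg
    have h1 := hμ.2.2 0 M (by linarith)
    have h2 : μ (Icc 0 M) = 1 := by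
      have := prob_compl_eq_zero_iff (μ := μ) (s := Icc (0:ℝ) M) measurableSet_Icc
      exact this.1 hμ.2.1
    rw [h2, ENNReal.ofReal_of_nonpos (by nlinarith)] at h1
    simp at h1
  have hdiff : ∀ a b : ℝ, a ≤ b → μ.real (Iio b) ≤ μ.real (Iio a) + Cf * (b - a) := by
    intro a b hab
    have h1 : Iio b ⊆ Iio a ∪ Icc a b := by
      intro y hy
      by_cases h : y < a
      · exact Or.inl h
      · exact Or.inr ⟨not_lt.1 h, le_of_lt hy⟩
    have h2 : μ.real (Iio b) ≤ μ.real (Iio a) + μ.real (Icc a b) :=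
      (measureReal_mono h1).trans (measureReal_union_le _ _)
    have h3 : μ.real (Icc a b) ≤ Cf * (b - a) := by
      rw [measureReal_def]
      exact ENNReal.toReal_le_of_le_ofReal (by nlinarith) (hμ.2.2 a b hab)
    linarith
  have hmono : Monotone fun x => μ.real (Iio x) := fun a b hab =>
    measureReal_mono (Iio_subset_Iio hab)
  have hcont : Continuous fun x => μ.real (Iio x) := by
    have : LipschitzWith (Real.toNNReal Cf) fun x => μ.real (Iio x) := by
      refine LipschitzWith.of_dist_le_mul ?_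
      intro x y
      rw [Real.coe_toNNReal _ hCf, Real.dist_eq, Real.dist_eq]
      rcases le_total x y with h | h
      · rw [abs_sub_comm, abs_of_nonneg (sub_nonneg.2 (hmono h)), abs_sub_comm,
          abs_of_nonneg (sub_nonneg.2 h)]
        linarith [hdiff x y h]
      · rw [abs_of_nonneg (sub_nonneg.2 (hmono h)), abs_of_nonneg (sub_nonneg.2 h)]
        linarith [hdiff y x h]
    exact this.continuous
  have h0 : μ.real (Iio 0) = 0 := by
    rw [measureReal_def]
    have : μ (Iio 0) = 0 := by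
      refine measure_mono_null ?_ hμ.2.1
      intro y hy hy'
      exact absurd hy'.1 (not_le.2 hy)
    rw [this]; rfl
  have h1 : μ.real (Iio M) = 1 := by
    have h2 : μ (Iio M) = 1 := by
      rw [hμ.iio_eq_iic]
      rw [← prob_compl_eq_zero_iff measurableSet_Iic]
      refine measure_mono_null ?_ hμ.2.1
      intro y hy hy'
      exact hy hy'.2
    rw [measureReal_def, h2]; rfl
  have hex : ∀ i : ℕ, ∃ x : ℝ, i ≤ K → 0 < K → x ∈ Icc 0 M ∧ μ.real (Iio x) = (i : ℝ) / K := by
    intro i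
    by_cases hK : i ≤ K ∧ 0 < K
    · have hKpos : (0:ℝ) < K := by exact_mod_cast hK.2
      have hmem : (i : ℝ) / K ∈ Icc (μ.real (Iio 0)) (μ.real (Iio M)) := by
        rw [h0, h1]
        constructor
        · positivity
        · rw [div_le_one hKpos]; exact_mod_cast hK.1
      obtain ⟨x, hx, hx'⟩ := intermediate_value_Icc (by linarith : (0:ℝ) ≤ M)
        hcont.continuousOn hmem
      exact ⟨x, fun _ _ => ⟨hx, hx'⟩⟩
    · exact ⟨0, fun h1 h2 => absurd ⟨h1, h2⟩ hK⟩
  choose q hq using hex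
  exact ⟨q, fun i hi hK => hq i hi hK⟩

/-- the data of a quantile decomposition -/
structure Quant (M : ℝ) (μ : Measure ℝ) (K : ℕ) (q : ℕ → ℝ) : Prop where
  mem : ∀ i ≤ K, q i ∈ Icc 0 M
  eq : ∀ i ≤ K, μ.real (Iio (q i)) = (i : ℝ) / K

theorem Quant.lt {M : ℝ} {μ : Measure ℝ} [IsProbabilityMeasure μ] {K : ℕ} {q : ℕ → ℝ}
    (hK : 0 < K) (h : Quant M μ K q) {i j : ℕ} (hij : i < j) (hj : j ≤ K) : q i < q j := by
  by_contra hle
  push Not at hle
  have h1 : μ.real (Iio (q j)) ≤ μ.real (Iio (q i)) := measureReal_mono (Iio_subset_Iio hle)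
  rw [h.eq i (by omega), h.eq j hj] at h1
  have hKpos : (0:ℝ) < K := by exact_mod_cast hK
  rw [div_le_div_iff_of_pos_right hKpos] at h1
  have : j ≤ i := by exact_mod_cast h1
  omega

theorem Quant.le {M : ℝ} {μ : Measure ℝ} [IsProbabilityMeasure μ] {K : ℕ} {q : ℕ → ℝ}
    (hK : 0 < K) (h : Quant M μ K q) {i j : ℕ} (hij : i ≤ j) (hj : j ≤ K) : q i ≤ q j := by
  rcases Nat.lt_or_ge i j with h1 | h1
  · exact (h.lt hK h1 hj).le
  · have : i = j := by omega
    rw [this]

theorem card_lt_bounds {K : ℕ} (P : Fin K → Prop) [DecidablePred P] (x : ℝ) (hx : 0 ≤ x)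
    (hxK : x ≤ K)
    (h1 : ∀ i : Fin K, P i → (i : ℝ) ≤ x) (h2 : ∀ i : Fin K, (i : ℝ) + 1 < x → P i) :
    |((Finset.univ.filter P).card : ℝ) - x| ≤ 1 := by
  have hup : (Finset.univ.filter P).card ≤ ⌊x⌋₊ + 1 := by
    have : (Finset.univ.filter P).card ≤ (Finset.range (⌊x⌋₊ + 1)).card := by
      refine Finset.card_le_card_of_injOn (fun i : Fin K => (i : ℕ)) ?_ ?_
      · intro i hi
        simp only [Finset.coe_filter, Finset.mem_univ, true_and, mem_ofPred_eq] at hi
        have h3 := h1 i hi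
        simp only [Finset.coe_range, mem_Iio]
        have h4 : (i : ℕ) ≤ ⌊x⌋₊ := Nat.le_floor h3
        exact Nat.lt_succ_of_le h4
      · intro i _ j _ hij
        exact Fin.ext hij
    simpa using this
  have hlo : ⌈x⌉₊ - 1 ≤ (Finset.univ.filter P).card := by
    have hKc : ⌈x⌉₊ ≤ K := Nat.ceil_le.2 hxK
    rcases Nat.eq_zero_or_pos K with hK0 | hK0
    · omega
    have : (Finset.range (⌈x⌉₊ - 1)).card ≤ (Finset.univ.filter P).card := by
      refine Finset.card_le_card_of_injOn
        (fun i : ℕ => if h : i < K then (⟨i, h⟩ : Fin K) else ⟨0, hK0⟩) ?_ ?_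
      · intro i hi
        simp only [Finset.coe_range, mem_Iio] at hi
        have hiK : i < K := by omega
        simp only [hiK, dif_pos, Finset.coe_filter, Finset.mem_univ, true_and, mem_ofPred_eq]
        apply h2
        have : i + 1 < ⌈x⌉₊ := by omega
        have := Nat.lt_ceil.1 this
        push_cast at this
        exact this
      · intro i hi j hj hij
        simp only [Finset.coe_range, mem_Iio] at hi hj
        have hiK : i < K := by omega
        have hjK : j < K := by omega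
        simp only [hiK, hjK, dif_pos] at hij
        simpa using hij
    simpa using this
  have hup' : ((Finset.univ.filter P).card : ℝ) ≤ x + 1 := by
    have h3 : ((Finset.univ.filter P).card : ℝ) ≤ (⌊x⌋₊ : ℝ) + 1 := by exact_mod_cast hup
    have h4 := Nat.floor_le hx
    linarith
  have hlo' : x - 1 ≤ ((Finset.univ.filter P).card : ℝ) := by
    have h3 : (⌈x⌉₊ : ℝ) ≤ ((Finset.univ.filter P).card : ℝ) + 1 := by
      have : ⌈x⌉₊ ≤ (Finset.univ.filter P).card + 1 := by omega
      exact_mod_cast this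
    have h4 := Nat.le_ceil x
    linarith
  rw [abs_le]
  constructor <;> linarith

/-- any choice of points in the quantile cells has discrepancy at most one -/
theorem Quant.disc {M Cf : ℝ} {μ : Measure ℝ} (hμ : Reg M Cf μ) {K : ℕ} {q : ℕ → ℝ}
    (h : 0 < K → Quant M μ K q) (y : Fin K → ℝ)
    (hy : ∀ i : Fin K, y i ∈ Ico (q i) (q (i + 1))) : Disc μ K y 1 := by
  have hprob := hμ.1
  rcases Nat.eq_zero_or_pos K with rfl | hK
  · intro t
    simp
  have hq := h hK
  have hKpos : (0:ℝ) < K := by exact_mod_cast hK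
  have key : ∀ (t : ℝ) (i : ℕ), i ≤ K → q i ≤ t → (i : ℝ) ≤ K * μ.real (Iio t) := by
    intro t i hi hqt
    have h1 : μ.real (Iio (q i)) ≤ μ.real (Iio t) := measureReal_mono (Iio_subset_Iio hqt)
    rw [hq.eq i hi, div_le_iff₀ hKpos] at h1
    linarith
  have key2 : ∀ (t : ℝ) (i : ℕ), i ≤ K → (i : ℝ) < K * μ.real (Iio t) → q i < t := by
    intro t i hi hlt
    by_contra hle
    push Not at hle
    have h1 : μ.real (Iio t) ≤ μ.real (Iio (q i)) := measureReal_mono (Iio_subset_Iio hle)
    rw [hq.eq i hi, le_div_iff₀ hKpos] at h1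
    linarith
  intro t
  have h0 : 0 ≤ K * μ.real (Iio t) := by positivity
  have h1 : K * μ.real (Iio t) ≤ K := by
    have : μ.real (Iio t) ≤ 1 := measureReal_le_one
    nlinarith
  constructor
  · refine card_lt_bounds _ _ h0 h1 ?_ ?_
    · intro i hi
      exact key t i i.2.le ((hy i).1.trans hi.le)
    · intro i hi
      have := key2 t (i + 1) i.2 (by push_cast; exact hi)
      exact (hy i).2.trans this
  · have h2 : μ.real (Iic t) = μ.real (Iio t) := by
      rw [measureReal_def, measureReal_def, hμ.iio_eq_iic]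
    rw [h2]
    refine card_lt_bounds _ _ h0 h1 ?_ ?_
    · intro i hi
      exact key t i i.2.le ((hy i).1.trans hi)
    · intro i hi
      have := key2 t (i + 1) i.2 (by push_cast; exact hi)
      exact ((hy i).2.trans this).le

theorem Quant.cell {M Cf : ℝ} {μ : Measure ℝ} (hμ : Reg M Cf μ) {K : ℕ} (hK : 0 < K) {q : ℕ → ℝ}
    (hq : Quant M μ K q) {i j : ℕ} (hij : i ≤ j) (hj : j ≤ K) :
    μ (Ico (q i) (q j)) = ENNReal.ofReal (((j : ℝ) - i) / K) := by
  have hprob := hμ.1
  have h1 : Iio (q j) = Iio (q i) ∪ Ico (q i) (q j) := by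
    rw [Iio_union_Ico_eq_Iio (hq.le hK hij hj)]
  have hdisj : Disjoint (Iio (q i)) (Ico (q i) (q j)) := by
    rw [Set.disjoint_left]
    intro y hy hy'
    exact absurd hy'.1 (not_le.2 hy)
  have h2 : μ.real (Iio (q j)) = μ.real (Iio (q i)) + μ.real (Ico (q i) (q j)) := by
    conv_lhs => rw [h1]
    exact measureReal_union hdisj measurableSet_Ico
  rw [hq.eq i (hij.trans hj), hq.eq j hj] at h2
  have h3 : μ.real (Ico (q i) (q j)) = ((j : ℝ) - i) / K := by
    rw [sub_div]; linarith
  rw [← h3, measureReal_def, ENNReal.ofReal_toReal (measure_ne_top _ _)]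

theorem good_points (M Cf : ℝ) (hM : 1 ≤ M) (μ : Measure ℝ) (hμ : Reg M Cf μ) (K : ℕ)
    (Q : ℤ[X]) (hQ : Q ≠ 0) (hint : Integrable (fun x : ℝ => Real.log |aeval x Q|) μ)
    (hpos : 0 ≤ ∫ x : ℝ, Real.log |aeval x Q| ∂μ) :
    ∃ y : Fin K → ℝ, (∀ i, y i ∈ Icc 0 M) ∧ Disc μ K y 1 ∧ 1 ≤ ∏ i, |aeval (y i) Q| := by
  have hprob := hμ.1
  obtain ⟨q, hq⟩ := hμ.quantiles hM K
  have hqq : 0 < K → Quant M μ K q := fun hK => ⟨fun i hi => (hq i hi hK).1,
    fun i hi => (hq i hi hK).2⟩
  have hnull : μ {x : ℝ | aeval x Q = 0} = 0 := by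
    have hfin : {x : ℝ | aeval x Q = 0}.Finite := by
      have : {x : ℝ | aeval x Q = 0} ⊆ (Q.aroots ℝ).toFinset := by
        intro x hx
        simp only [Finset.mem_coe, Multiset.mem_toFinset]
        exact (mem_aroots.2 ⟨hQ, hx⟩)
      exact (Finset.finite_toSet _).subset this
    rw [← biUnion_of_singleton {x : ℝ | aeval x Q = 0}]
    rw [measure_biUnion_null_iff hfin.countable]
    intro x _
    exact hμ.measure_point x
  rcases Nat.eq_zero_or_pos K with rfl | hK
  · refine ⟨fun i => 0, fun i => i.elim0, ?_, by simp⟩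
    intro t; simp
  have hKpos : (0:ℝ) < K := by exact_mod_cast hK
  have hQq := hqq hK
  have hcell : ∀ i : Fin K, μ (Ico (q i) (q (i + 1))) = ENNReal.ofReal (1 / K) := by
    intro i
    rw [hQq.cell hμ hK (Nat.le_succ i) i.2]
    push_cast
    congr 2
    ring
  have hex : ∀ i : Fin K, ∃ x : ℝ, x ∈ Ico (q i) (q (i + 1)) ∧ aeval x Q ≠ 0 ∧
      ∫ x in Ico (q i) (q (i + 1)), Real.log |aeval x Q| ∂μ ≤ (1 / K) * Real.log |aeval x Q| := by
    intro i
    set S := Ico (q i) (q (i + 1)) with hS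
    have hne : (μ.restrict S) ≠ 0 := by
      intro h0
      have : (μ.restrict S) univ = 0 := by rw [h0]; rfl
      rw [Measure.restrict_apply_univ, hcell i] at this
      simp only [ENNReal.ofReal_eq_zero] at this
      have : (0:ℝ) < 1 / K := by positivity
      linarith
    have hN : (μ.restrict S) (Sᶜ ∪ {x : ℝ | aeval x Q = 0}) = 0 := by
      have h1 : (μ.restrict S) Sᶜ = 0 := by
        rw [Measure.restrict_apply measurableSet_Ico.compl, compl_inter_self, measure_empty]
      have h2 : (μ.restrict S) {x : ℝ | aeval x Q = 0} = 0 :=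
        nonpos_iff_eq_zero.1 ((Measure.restrict_apply_le _ _).trans hnull.le)
      exact measure_union_null h1 h2
    obtain ⟨x, hx, hx'⟩ := exists_notMem_null_average_le hne
      (hint.mono_measure Measure.restrict_le_self) hN
    simp only [mem_union, mem_compl_iff, mem_ofPred_eq, not_or, not_not] at hx
    refine ⟨x, hx.1, hx.2, ?_⟩
    have h3 : ⨍ x in S, Real.log |aeval x Q| ∂μ = K * ∫ x in S, Real.log |aeval x Q| ∂μ := by
      rw [setAverage_eq, measureReal_def, hcell i, ENNReal.toReal_ofReal (by positivity)]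
      simp
    rw [h3] at hx'
    rw [one_div, inv_mul_eq_div, le_div_iff₀ hKpos]
    linarith
  choose y hy1 hy2 hy3 using hex
  refine ⟨y, ?_, Quant.disc hμ hqq y hy1, ?_⟩
  · intro i
    exact ⟨(hQq.mem i i.2.le).1.trans (hy1 i).1, (hy1 i).2.le.trans (hQq.mem (i+1) i.2).2⟩
  · have hsum : ∫ x, Real.log |aeval x Q| ∂μ
        = ∑ i : Fin K, ∫ x in Ico (q i) (q (i + 1)), Real.log |aeval x Q| ∂μ := by
      have hU : ∀ n ≤ K, ∑ i ∈ Finset.range n, ∫ x in Ico (q i) (q (i + 1)),
          Real.log |aeval x Q| ∂μ = ∫ x in Ico (q 0) (q n), Real.log |aeval x Q| ∂μ := by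
        intro n
        induction n with
        | zero => intro _; simp
        | succ n ih =>
          intro hn
          rw [Finset.sum_range_succ, ih (by omega)]
          have h1 : Ico (q 0) (q (n+1)) = Ico (q 0) (q n) ∪ Ico (q n) (q (n+1)) := by
            rw [Ico_union_Ico_eq_Ico (hQq.le hK (Nat.zero_le _) (by omega))
              (hQq.le hK (Nat.le_succ _) hn)]
          rw [h1, setIntegral_union _ measurableSet_Ico hint.integrableOn hint.integrableOn]
          rw [Set.disjoint_left]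
          intro z hz hz'
          exact absurd hz'.1 (not_le.2 hz.2)
      rw [Finset.sum_range (f := fun i => ∫ x in Ico (q i) (q (i + 1)),
          Real.log |aeval x Q| ∂μ) |>.symm, hU K le_rfl]
      have h2 : μ (Ico (q 0) (q K))ᶜ = 0 := by
        rw [prob_compl_eq_zero_iff measurableSet_Ico, hQq.cell hμ hK (Nat.zero_le K) le_rfl]
        simp [hKpos.ne']
      rw [← setIntegral_univ (μ := μ)]
      refine (setIntegral_congr_set ?_).symm
      rw [ae_eq_univ]
      exact h2
    have hlog : 0 ≤ ∑ i : Fin K, Real.log |aeval (y i) Q| := by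
      have h4 : ∑ i : Fin K, ∫ x in Ico (q i) (q (i + 1)), Real.log |aeval x Q| ∂μ ≤
          ∑ i : Fin K, (1 / K) * Real.log |aeval (y i) Q| :=
        Finset.sum_le_sum fun i _ => hy3 i
      rw [← hsum, ← Finset.mul_sum] at h4
      have h5 : 0 ≤ (1 / (K:ℝ)) * ∑ i : Fin K, Real.log |aeval (y i) Q| := hpos.trans h4
      have h6 : 0 < 1 / (K:ℝ) := by positivity
      exact nonneg_of_mul_nonneg_right h5 h6
    rw [← Real.log_prod (fun i _ => abs_ne_zero.2 (hy2 i))] at hlog
    have hprodpos : 0 < ∏ i, |aeval (y i) Q| :=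
      Finset.prod_pos fun i _ => abs_pos.2 (hy2 i)
    exact (Real.log_nonneg_iff hprodpos).1 hlog

theorem sep_points (M Cf : ℝ) (hM : 1 ≤ M) (hCf : 0 < Cf) (μ : Measure ℝ) (hμ : Reg M Cf μ) (K : ℕ) :
    ∃ y : Fin K → ℝ, (∀ i, y i ∈ Icc 0 M) ∧ Disc μ K y 1 ∧
      ∀ i j, i ≠ j → 1 / (Cf * K) ≤ |y i - y j| := by
  have hprob := hμ.1
  obtain ⟨q, hq⟩ := hμ.quantiles hM K
  rcases Nat.eq_zero_or_pos K with rfl | hK
  · refine ⟨fun i => 0, fun i => i.elim0, ?_, fun i => i.elim0⟩
    intro t; simp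
  have hKpos : (0:ℝ) < K := by exact_mod_cast hK
  have hQq : Quant M μ K q := ⟨fun i hi => (hq i hi hK).1, fun i hi => (hq i hi hK).2⟩
  refine ⟨fun i => q i, fun i => hQq.mem i i.2.le, ?_, ?_⟩
  · exact Quant.disc hμ (fun _ => hQq) _ fun i =>
      ⟨le_rfl, hQq.lt hK (Nat.lt_succ_self _) i.2⟩
  · have main : ∀ i j : Fin K, i < j → 1 / (Cf * K) ≤ q j - q i := by
      intro i j hij
      have hlt : q i < q j := hQq.lt hK hij j.2.le
      have h1 := hQq.cell hμ hK (le_of_lt (show (i:ℕ) < j from hij)) j.2.le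
      have h2 : μ (Ico (q i) (q j)) ≤ ENNReal.ofReal (Cf * (q j - q i)) :=
        (measure_mono Ico_subset_Icc_self).trans (hμ.2.2 _ _ hlt.le)
      rw [h1] at h2
      have h3 := (ENNReal.ofReal_le_ofReal_iff (by
        have := sub_pos.2 hlt
        positivity)).1 h2
      have h4 : (1:ℝ) ≤ (j:ℝ) - i := by
        have : (i:ℕ) + 1 ≤ j := hij
        have h5 : ((i:ℕ):ℝ) + 1 ≤ ((j:ℕ):ℝ) := by exact_mod_cast this
        linarith
      have h5 : 1 / (K:ℝ) ≤ Cf * (q j - q i) := le_trans (by gcongr) h3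
      rw [div_le_iff₀ (by positivity)]
      rw [div_le_iff₀ hKpos] at h5
      nlinarith
    intro i j hij
    rcases lt_or_gt_of_ne hij with h | h
    · rw [abs_sub_comm]
      exact (main i j h).trans (le_abs_self _)
    · exact (main j i h).trans (le_abs_self _)

end Pool.Agent.TraceMin
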