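import Pool.Agent.TraceMin.Defs2

/-!
Tools for measures with bounded density: domination by Lebesgue measure, integrability of the
logarithmic kernel.
-/

open MeasureTheory Polynomial Set

namespace Pool.Agent.TraceMin

theorem Reg.nonneg {M Cf : ℝ} (hM : 0 ≤ M) {μ : Measure ℝ} (hμ : Reg M Cf μ) : 0 ≤ Cf := by
  have hprob := hμ.1
  by_contra hneg
  push Not at hneg
  have h1 := hμ.2.2 0 M hM
  have h2 : μ (Icc 0 M) = 1 := (prob_compl_eq_zero_iff (μ := μ) (s := Icc (0:ℝ) M)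
    measurableSet_Icc).1 hμ.2.1
  rw [h2, ENNReal.ofReal_of_nonpos (by nlinarith)] at h1
  simp at h1

theorem Reg.le_volume {M Cf : ℝ} (hM : 0 ≤ M) {μ : Measure ℝ} (hμ : Reg M Cf μ) :
    μ ≤ ENNReal.ofReal Cf • (volume : Measure ℝ) := by
  have hCf := hμ.nonneg hM
  have hCf0 : Cf ≠ 0 := by
    intro h0
    have hprob := hμ.1
    have h1 := hμ.2.2 0 M hM
    have h2 : μ (Icc 0 M) = 1 := (prob_compl_eq_zero_iff (μ := μ) (s := Icc (0:ℝ) M)
      measurableSet_Icc).1 hμ.2.1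
    rw [h2, h0] at h1
    simp at h1
  have hCfpos : 0 < Cf := lt_of_le_of_ne hCf (Ne.symm hCf0)
  have hc : ENNReal.ofReal Cf ≠ 0 := by simpa using hCfpos
  have key : (ENNReal.ofReal Cf)⁻¹ • μ.toOuterMeasure ≤ StieltjesFunction.id.outer := by
    unfold StieltjesFunction.outer
    rw [OuterMeasure.le_ofFunction]
    intro s
    unfold StieltjesFunction.length
    rw [if_neg (by simp)]
    refine le_iInf fun a => le_iInf fun b => le_iInf fun hs => ?_
    have hs' : s ⊆ Ioc a b := by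
      intro x hx
      apply hs
      refine ⟨hx, ?_⟩
      simp [botSet]
    change (ENNReal.ofReal Cf)⁻¹ * μ s ≤ ENNReal.ofReal (b - a)
    rcases le_total a b with hab | hab
    · have h1 : μ s ≤ ENNReal.ofReal Cf * ENNReal.ofReal (b - a) := by
        rw [← ENNReal.ofReal_mul hCf]
        exact (measure_mono (hs'.trans Ioc_subset_Icc_self)).trans (hμ.2.2 a b hab)
      calc (ENNReal.ofReal Cf)⁻¹ * μ s ≤ (ENNReal.ofReal Cf)⁻¹ *
            (ENNReal.ofReal Cf * ENNReal.ofReal (b - a)) := by gcongr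
        _ = ENNReal.ofReal (b - a) := by
            rw [← mul_assoc, ENNReal.inv_mul_cancel hc ENNReal.ofReal_ne_top, one_mul]
    · have h1 : s = ∅ := by
        rw [Ioc_eq_empty (not_lt.2 hab)] at hs'
        exact subset_empty_iff.1 hs'
      simp [h1]
  rw [Measure.le_iff]
  intro s _
  have h2 : (ENNReal.ofReal Cf)⁻¹ * μ s ≤ volume s := by
    have h3 := key s
    rw [Real.volume_eq_stieltjes_id, StieltjesFunction.measure_def]
    exact h3
  calc μ s = ENNReal.ofReal Cf * ((ENNReal.ofReal Cf)⁻¹ * μ s) := by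
        rw [← mul_assoc, ENNReal.mul_inv_cancel hc ENNReal.ofReal_ne_top, one_mul]
    _ ≤ ENNReal.ofReal Cf * volume s := by gcongr
    _ = (ENNReal.ofReal Cf • (volume : Measure ℝ)) s := rfl

/-- A uniform bound for the integrals of `|log|x-y||`. -/
theorem Reg.lintegral_log_le {M Cf : ℝ} (hM : 0 ≤ M) {μ : Measure ℝ} (hμ : Reg M Cf μ) :
    ∃ B : ENNReal, B ≠ ⊤ ∧ ∀ x ∈ Icc 0 M, ∫⁻ y, ‖Real.log |x - y|‖ₑ ∂μ ≤ B := by
  refine ⟨ENNReal.ofReal Cf * ∫⁻ w in Icc (-M) M, ‖Real.log w‖ₑ, ?_, ?_⟩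
  · refine ENNReal.mul_ne_top ENNReal.ofReal_ne_top ?_
    have h1 : IntegrableOn Real.log (Icc (-M) M) := by
      have h2 : IntervalIntegrable Real.log volume (-M) M :=
        intervalIntegral.intervalIntegrable_log'
      rw [integrableOn_Icc_iff_integrableOn_Ioc]
      exact (intervalIntegrable_iff_integrableOn_Ioc_of_le (by linarith)).1 h2
    exact h1.2.ne
  · intro x hx
    have h1 : ∫⁻ y, ‖Real.log |x - y|‖ₑ ∂μ = ∫⁻ y in Icc 0 M, ‖Real.log |x - y|‖ₑ ∂μ := by
      rw [← setLIntegral_univ (μ := μ)]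
      refine setLIntegral_congr ?_
      refine Filter.EventuallyEq.symm ?_
      rw [ae_eq_univ]
      exact hμ.2.1
    rw [h1]
    have h2 : μ.restrict (Icc 0 M) ≤ (ENNReal.ofReal Cf • (volume : Measure ℝ)).restrict (Icc 0 M) :=
      Measure.restrict_mono subset_rfl (hμ.le_volume hM)
    refine (lintegral_mono' h2 le_rfl).trans ?_
    rw [Measure.restrict_smul, lintegral_smul_measure, smul_eq_mul]
    gcongr ENNReal.ofReal Cf * ?_
    have h3 : ∫⁻ y in Icc 0 M, ‖Real.log |x - y|‖ₑ = ∫⁻ y in Icc 0 M, ‖Real.log (x - y)‖ₑ := by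
      simp only [Real.log_abs]
    rw [h3]
    have h4 : ∫⁻ y in Icc 0 M, ‖Real.log (x - y)‖ₑ
        = ∫⁻ w in (fun y => x - y) '' (Icc 0 M), ‖Real.log w‖ₑ := by
      have hmp : MeasurePreserving (fun y : ℝ => x - y) volume volume :=
        Measure.measurePreserving_sub_left volume x
      have hemb : MeasurableEmbedding (fun y : ℝ => x - y) :=
        (MeasurableEquiv.subLeft x).measurableEmbedding
      rw [hmp.setLIntegral_comp_emb hemb (fun w => ‖Real.log w‖ₑ)]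
    rw [h4]
    refine lintegral_mono_set ?_
    rintro w ⟨y, hy, rfl⟩
    exact ⟨by linarith [hx.1, hy.2], by linarith [hx.2, hy.1]⟩

theorem Reg.ae_mem_Icc {M Cf : ℝ} {μ : Measure ℝ} (hμ : Reg M Cf μ) : ∀ᵐ x ∂μ, x ∈ Icc 0 M := hμ.2.1

theorem measurable_log_sub (x : ℝ) : Measurable fun y : ℝ => Real.log |x - y| := by fun_prop

theorem measurable_log_sub_prod : Measurable fun p : ℝ × ℝ => Real.log |p.1 - p.2| := by fun_prop

theorem Reg.integrable_log {M Cf : ℝ} (hM : 0 ≤ M) {μ : Measure ℝ} (hμ : Reg M Cf μ) {x : ℝ}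
    (hx : x ∈ Icc 0 M) : Integrable (fun y : ℝ => Real.log |x - y|) μ := by
  obtain ⟨B, hB, h⟩ := hμ.lintegral_log_le hM
  exact ⟨(measurable_log_sub x).aestronglyMeasurable, (h x hx).trans_lt (lt_top_iff_ne_top.2 hB)⟩

theorem Reg.integrable_log_prod {M Cf : ℝ} (hM : 0 ≤ M) {μ : Measure ℝ} (hμ : Reg M Cf μ) :
    Integrable (fun p : ℝ × ℝ => Real.log |p.1 - p.2|) (μ.prod μ) := by
  have hprob := hμ.1
  obtain ⟨B, hB, h⟩ := hμ.lintegral_log_le hM
  refine ⟨measurable_log_sub_prod.aestronglyMeasurable, ?_⟩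
  unfold HasFiniteIntegral
  rw [lintegral_prod _ (by fun_prop)]
  have h1 : ∫⁻ x, ∫⁻ y, ‖Real.log |x - y|‖ₑ ∂μ ∂μ ≤ ∫⁻ _, B ∂μ := by
    refine lintegral_mono_ae ?_
    filter_upwards [hμ.ae_mem_Icc] with x hx
    exact h x hx
  refine h1.trans_lt ?_
  simp only [lintegral_const, measure_univ, mul_one]
  exact lt_top_iff_ne_top.2 hB

end Pool.Agent.TraceMin
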