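import Pool.Agent.TraceMin.Defs2

/-!
Module T16: assembly of the trace form of the theorem of Smith.
-/

open MeasureTheory Polynomial Set

namespace Pool.Agent.TraceMin

lemma sm_round (t : ℝ) : ∃ m : ℤ, |t - 4 * m| ≤ 2 := by
  refine ⟨round (t/4), ?_⟩
  have h := abs_sub_round (t/4)
  have h2 : t - 4 * (round (t/4) : ℝ) = 4 * (t/4 - round (t/4)) := by ring
  rw [h2, abs_mul, abs_of_pos (by norm_num : (0:ℝ) < 4)]
  linarith

lemma sm_top (T : ℕ → ℝ[X]) (hT : ∀ k, (T k).Monic) (hTd : ∀ k, (T k).natDegree = k) (Y : ℝ[X])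
    (n₀ N : ℕ) (hY : Y.Monic) (hYd : Y.natDegree = n₀) (F : ℝ[X]) (k : ℕ) (hk : k ≤ N) :
    ∃ c : ℕ → ℝ, (∀ i, |c i| ≤ 2) ∧
      ∀ i ∈ Finset.range k, ∃ m : ℤ,
        (F - ∑ i ∈ Finset.range k, C (c i) * (T (N - (i+1)) * Y)).coeff (n₀ + N - (i+1)) = 4 * m := by
  induction k with
  | zero => exact ⟨fun _ => 0, by simp, by simp⟩
  | succ k ih =>
    obtain ⟨c, hc, hc2⟩ := ih (by omega)
    set F' := F - ∑ i ∈ Finset.range k, C (c i) * (T (N - (i+1)) * Y) with hF'
    obtain ⟨m, hm⟩ := sm_round (F'.coeff (n₀ + N - (k+1)))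
    set d := F'.coeff (n₀ + N - (k+1)) - 4 * m with hd
    refine ⟨Function.update c k d, ?_, ?_⟩
    · intro i
      by_cases hi : i = k
      · subst hi; simpa using hm
      · simpa [hi] using hc i
    have hsum : F - ∑ i ∈ Finset.range (k+1), C (Function.update c k d i) * (T (N - (i+1)) * Y)
        = F' - C d * (T (N - (k+1)) * Y) := by
      rw [Finset.sum_range_succ, Function.update_self, hF', sub_sub]
      congr 2
      apply Finset.sum_congr rfl
      intro i hi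
      rw [Function.update_of_ne (by have := Finset.mem_range.mp hi; omega)]
    have hmon : (T (N - (k+1)) * Y).Monic := (hT _).mul hY
    have hdeg : (T (N - (k+1)) * Y).natDegree = n₀ + N - (k+1) := by
      rw [(hT _).natDegree_mul hY, hTd, hYd]; omega
    intro i hi
    rw [hsum, coeff_sub, coeff_C_mul]
    rcases Nat.lt_succ_iff_lt_or_eq.mp (Finset.mem_range.mp hi) with h | h
    · obtain ⟨m', hm'⟩ := hc2 i (Finset.mem_range.mpr h)
      refine ⟨m', ?_⟩
      rw [coeff_eq_zero_of_natDegree_lt (p := T (N - (k+1)) * Y) (by rw [hdeg]; omega), hm']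
      ring
    · subst h
      refine ⟨m, ?_⟩
      have : (T (N - (i+1)) * Y).coeff (n₀ + N - (i+1)) = 1 := by
        rw [← hdeg]; exact hmon.coeff_natDegree
      rw [this, hd]; ring

lemma sm_roots (n : ℕ) (P : ℤ[X]) (hP : P.Monic) (hd : P.natDegree = n) (z : Fin (n+1) → ℝ)
    (hz : StrictMono z) (h0 : ∀ j, 0 ≤ z j)
    (hs : ∀ j : Fin (n+1), 0 < (-1:ℝ)^(n + (j:ℕ)) * aeval (z j) P) :
    ∀ α ∈ P.aroots ℂ, α.im = 0 ∧ 0 ≤ α.re := by
  have hroot : ∀ j : Fin n, ∃ r : ℝ, z j.castSucc < r ∧ r < z j.succ ∧ aeval r P = 0 := by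
    intro j
    have hlt : z j.castSucc < z j.succ := hz (Fin.castSucc_lt_succ)
    have h1 := hs j.castSucc
    have h2 := hs j.succ
    simp only [Fin.val_castSucc, Fin.val_succ] at h1 h2
    rw [← add_assoc, pow_succ] at h2
    have hcont : ContinuousOn (fun x : ℝ => (-1:ℝ)^(n + (j:ℕ)) * aeval x P)
        (Icc (z j.castSucc) (z j.succ)) := by
      apply Continuous.continuousOn
      exact continuous_const.mul (Polynomial.continuous_aeval P)
    have h3 : (-1:ℝ)^(n + (j:ℕ)) * aeval (z j.succ) P < 0 := by linarith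
    obtain ⟨r, hr, hr0⟩ := intermediate_value_Ioo' hlt.le hcont (show (0:ℝ) ∈ Ioo _ _ from ⟨h3, h1⟩)
    refine ⟨r, hr.1, hr.2, ?_⟩
    have := mul_eq_zero.mp hr0
    rcases this with h | h
    · exact absurd h (by positivity)
    · exact h
  choose r hr1 hr2 hr3 using hroot
  have hrmono : StrictMono r := by
    intro i j hij
    have : z i.succ ≤ z j.castSucc := hz.monotone (by
      rw [Fin.le_def]; simp only [Fin.val_succ, Fin.val_castSucc]; exact hij)
    linarith [hr2 i, hr1 j]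
  have hdvd : (∏ j : Fin n, (X - C (r j))) ∣ P.map (algebraMap ℤ ℝ) := by
    apply Finset.prod_dvd_of_coprime
    · intro i _ j _ hij
      exact Polynomial.pairwise_coprime_X_sub_C hrmono.injective hij
    · intro i _
      rw [dvd_iff_isRoot, IsRoot.def, eval_map_algebraMap]
      exact hr3 i
  have heq : P.map (algebraMap ℤ ℝ) = ∏ j : Fin n, (X - C (r j)) := by
    apply Polynomial.eq_of_monic_of_dvd_of_natDegree_le _ (hP.map _) hdvd
    · rw [hP.natDegree_map, hd, natDegree_prod_of_monic _ _ (fun i _ => monic_X_sub_C _)]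
      simp
    · exact monic_prod_of_monic _ _ (fun i _ => monic_X_sub_C _)
  intro α hα
  have hα0 : aeval α P = 0 := (mem_aroots.mp hα).2
  have hmapC : P.map (algebraMap ℤ ℂ) = ∏ j : Fin n, (X - C ((r j : ℝ) : ℂ)) := by
    have : P.map (algebraMap ℤ ℂ) = (P.map (algebraMap ℤ ℝ)).map (algebraMap ℝ ℂ) := by
      rw [Polynomial.map_map]; congr 1
    rw [this, heq, Polynomial.map_prod]
    apply Finset.prod_congr rfl
    intro i _
    simp
  have : eval α (∏ j : Fin n, (X - C ((r j : ℝ) : ℂ))) = 0 := by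
    rw [← hmapC, eval_map_algebraMap]; exact hα0
  rw [eval_prod, Finset.prod_eq_zero_iff] at this
  obtain ⟨j, _, hj⟩ := this
  simp only [eval_sub, eval_X, eval_C] at hj
  have hαj : α = (r j : ℂ) := by linear_combination hj
  rw [hαj]
  refine ⟨Complex.ofReal_im _, ?_⟩
  rw [Complex.ofReal_re]
  linarith [hr1 j, h0 j.castSucc]

lemma sm_eis (P : ℤ[X]) (n : ℕ) (hn : 0 < n) (hP : P.Monic) (hd : P.natDegree = n)
    (h : ∀ j < n, (2:ℤ) ∣ P.coeff j) (h0 : ¬ (4:ℤ) ∣ P.coeff 0) : Irreducible P := by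
  have hprime : (Ideal.span {(2:ℤ)}).IsPrime :=
    (Ideal.span_singleton_prime (by norm_num)).mpr Int.prime_two
  apply irreducible_of_eisenstein_criterion hprime
  · rw [hP.leadingCoeff, Ideal.mem_span_singleton]
    norm_num
  · intro j hj
    rw [Ideal.mem_span_singleton]
    apply h
    rw [degree_eq_natDegree hP.ne_zero, hd] at hj
    exact_mod_cast hj
  · rw [degree_eq_natDegree hP.ne_zero, hd]
    exact_mod_cast hn
  · rw [Ideal.span_singleton_pow, Ideal.mem_span_singleton]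
    norm_num
    exact h0
  · exact hP.isPrimitive

lemma sm_geom (M : ℝ) (hM : 100 ≤ M) (N k : ℕ) (hk : k ≤ N) :
    ∑ i ∈ Finset.range k, 4 * (M/4)^(N-(i+1)) ≤ (M/4)^N / 6 := by
  have h1 : ∀ i ∈ Finset.range k, 4 * (M/4)^(N-(i+1)) ≤ 4 * ((M/4)^N * (1/25)^(i+1)) := by
    intro i hi
    have hi' := Finset.mem_range.mp hi
    have h2 : (M/4)^N = (M/4)^(N-(i+1)) * (M/4)^(i+1) := by
      rw [← pow_add]; congr 1; omega
    have h3 : (25:ℝ)^(i+1) ≤ (M/4)^(i+1) := by
      apply pow_le_pow_left₀ (by norm_num); linarith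
    have h4 : 0 < (M/4)^(N-(i+1)) := by apply pow_pos; linarith
    rw [h2]
    have h5 : (M/4)^(N-(i+1)) * (M/4)^(i+1) * (1/25)^(i+1) ≥ (M/4)^(N-(i+1)) := by
      rw [mul_assoc]
      have : (1:ℝ) ≤ (M/4)^(i+1) * (1/25)^(i+1) := by
        rw [← mul_pow]
        apply one_le_pow₀
        linarith
      nlinarith
    linarith
  refine (Finset.sum_le_sum h1).trans ?_
  rw [← Finset.mul_sum, ← Finset.mul_sum]
  have h6 : ∑ i ∈ Finset.range k, ((1:ℝ)/25)^(i+1) ≤ 1/24 := by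
    have : ∑ i ∈ Finset.range k, ((1:ℝ)/25)^(i+1) = (1 - (1/25)^k)/24 := by
      induction k with
      | zero => simp
      | succ k ih =>
        rw [Finset.sum_range_succ, ih (by omega)]
        · ring
        · intro i hi; exact h1 i (Finset.mem_range.mpr (by have := Finset.mem_range.mp hi; omega))
    rw [this]
    have : (0:ℝ) < (1/25)^k := by positivity
    linarith
  have h7 : 0 < (M/4)^N := by apply pow_pos; linarith
  nlinarith

/-- the statement of `covering_radius` -/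
def CoverHyp : Prop :=
  ∀ (n : ℕ) (_ : 0 < n) (E : Type) [NormedAddCommGroup E]
    [InnerProductSpace ℝ E] [FiniteDimensional ℝ E] (b : Module.Basis (Fin n) ℝ E) (ρ : ℝ) (_ : 0 < ρ)
    (_ : ∀ φ : E →ₗ[ℝ] ℝ, φ ≠ 0 → (∀ i, ∃ m : ℤ, φ (b i) = m) → ∃ v : E, ‖v‖ ≤ 1 ∧ ρ ≤ |φ v|)
    (x : E), ∃ z : Fin n → ℤ, ‖x - ∑ i, (z i : ℝ) • b i‖ ≤ (n : ℝ) ^ 2 / ρ

lemma sm_lattice (hcov : CoverHyp) (a n : ℕ) (ha : 0 < a) (han : 2 * a - 1 ≤ n + 1)
    (z : Fin (n+1) → ℝ) (hz : Function.Injective z) (w : Fin (n+1) → ℝ) (hw : ∀ j, 0 < w j)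
    (κ : ℝ) (hκ : 0 < κ)
    (hdual : ∀ c : ℕ → ℤ, (∃ j < 2 * a - 1, c j ≠ 0) → ∃ P : ℝ[X], P.natDegree ≤ 2 * a - 2 ∧
      (∀ j, |P.eval (z j)| ≤ w j) ∧ κ ≤ |phi a c P|)
    (x : ℕ → ℝ) : ∃ m : ℕ → ℤ, ∀ j,
      |∑ i ∈ Finset.range (2*a-1), (x i - m i) * z j ^ i| ≤
        (2*a : ℝ)^2 * √((n:ℝ)+1) / κ * w j := by
  set d := 2 * a - 1 with hd
  have hdpos : 0 < d := by omega
  let v : Fin d → EuclideanSpace ℝ (Fin (n+1)) := fun i => WithLp.toLp 2 (fun j => z j ^ (i:ℕ) / w j)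
  have hv : ∀ i j, v i j = z j ^ (i:ℕ) / w j := fun i j => rfl
  have hli : LinearIndependent ℝ v := by
    rw [Fintype.linearIndependent_iff]
    intro g hg
    have key : (∑ i : Fin d, C (g i) * X ^ (i:ℕ)) = 0 := by
      apply Polynomial.eq_zero_of_natDegree_lt_card_of_eval_eq_zero _ hz
      · intro j
        have h1 := congrArg (fun u : EuclideanSpace ℝ (Fin (n+1)) => u j) hg
        simp only [PiLp.zero_apply] at h1
        rw [eval_finsetSum]
        have h2 : (∑ i, g i • v i) j = ∑ i : Fin d, g i * (z j ^ (i:ℕ) / w j) := by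
          rw [WithLp.ofLp_sum, Finset.sum_apply]
          apply Finset.sum_congr rfl
          intro i _
          simp [hv]
        rw [h2] at h1
        have h3 : ∑ i : Fin d, g i * (z j ^ (i:ℕ) / w j) = (∑ i : Fin d, g i * z j ^ (i:ℕ)) / w j := by
          rw [Finset.sum_div]
          apply Finset.sum_congr rfl
          intro i _
          ring
        rw [h3, div_eq_zero_iff] at h1
        rcases h1 with h1 | h1
        · rw [← h1]
          apply Finset.sum_congr rfl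
          intro i _
          simp
        · exact absurd h1 (hw j).ne'
      · rw [Fintype.card_fin]
        refine lt_of_le_of_lt (natDegree_sum_le_of_forall_le (n := d - 1) _ _ ?_) (by omega)
        intro i _
        refine (natDegree_C_mul_X_pow_le _ _).trans ?_
        have := i.2
        omega
    intro i
    have h2 := congrArg (fun p : ℝ[X] => p.coeff i) key
    simp only [finsetSum_coeff, coeff_C_mul, coeff_X_pow, coeff_zero] at h2
    rw [Finset.sum_eq_single i] at h2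
    · simpa using h2
    · intro b _ hb
      rw [if_neg, mul_zero]
      intro h
      exact hb (Fin.ext h.symm)
    · simp
  let b := Module.Basis.span hli
  have hb : ∀ i, ((b i : Submodule.span ℝ (range v)) : EuclideanSpace ℝ (Fin (n+1))) = v i :=
    fun i => congrArg Subtype.val (Module.Basis.span_apply hli i)
  have hsq : 0 < √((n:ℝ)+1) := Real.sqrt_pos.mpr (by positivity)
  have hcoord : ∀ (g : Fin d → ℝ) (j : Fin (n+1)),
      ((∑ i, g i • b i : Submodule.span ℝ (range v)) : EuclideanSpace ℝ (Fin (n+1))) j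
        = (∑ i : Fin d, g i * z j ^ (i:ℕ)) / w j := by
    intro g j
    rw [Submodule.coe_sum, WithLp.ofLp_sum, Finset.sum_apply, Finset.sum_div]
    apply Finset.sum_congr rfl
    intro i _
    rw [Submodule.coe_smul, hb]
    simp [hv]
    ring
  obtain ⟨m, hm⟩ := hcov d hdpos (Submodule.span ℝ (range v)) b (κ / √((n:ℝ)+1)) (by positivity) (by
    intro φ hφ hint
    choose m hm using hint
    let c : ℕ → ℤ := fun i => if h : i < d then m ⟨i, h⟩ else 0
    have hc : ∃ j < d, c j ≠ 0 := by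
      by_contra hcon
      push Not at hcon
      apply hφ
      apply b.ext
      intro i
      rw [hm i]
      have := hcon i i.2
      simp only [c, i.2, dif_pos] at this
      simp [this]
    obtain ⟨P, hPd, hPz, hPφ⟩ := hdual c hc
    let u : Submodule.span ℝ (range v) := ∑ i : Fin d, P.coeff i • b i
    have hu : ∀ j, (u : EuclideanSpace ℝ (Fin (n+1))) j = P.eval (z j) / w j := by
      intro j
      rw [hcoord, Polynomial.eval_eq_sum_range' (n := d) (by omega),
        Finset.sum_range (fun i => P.coeff i * z j ^ i)]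
    have hunorm : ‖u‖ ≤ √((n:ℝ)+1) := by
      rw [Submodule.coe_norm, EuclideanSpace.norm_eq]
      apply Real.sqrt_le_sqrt
      have : ∀ j ∈ (Finset.univ : Finset (Fin (n+1))),
          ‖(u : EuclideanSpace ℝ (Fin (n+1))) j‖ ^ 2 ≤ 1 := by
        intro j _
        rw [hu j, Real.norm_eq_abs, abs_div, abs_of_pos (hw j)]
        apply pow_le_one₀ (div_nonneg (abs_nonneg _) (hw j).le)
        rw [div_le_one (hw j)]
        exact hPz j
      refine (Finset.sum_le_sum this).trans ?_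
      simp
    have hφu : φ u = phi a c P := by
      rw [map_sum, phi, ← hd, Finset.sum_range]
      apply Finset.sum_congr rfl
      intro i _
      rw [map_smul, hm i]
      simp only [c, i.2, dif_pos, smul_eq_mul]
      ring
    refine ⟨(√((n:ℝ)+1))⁻¹ • u, ?_, ?_⟩
    · rw [norm_smul, norm_inv, Real.norm_of_nonneg hsq.le, inv_mul_le_iff₀ hsq, mul_one]
      exact hunorm
    · rw [map_smul, hφu, smul_eq_mul, abs_mul, abs_inv, abs_of_pos hsq, div_eq_inv_mul]
      exact mul_le_mul_of_nonneg_left hPφ (by positivity)) (∑ i : Fin d, x i • b i)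
  refine ⟨fun i => if h : i < d then m ⟨i, h⟩ else 0, fun j => ?_⟩
  have h1 : (∑ i : Fin d, x i • b i) - ∑ i, (m i : ℝ) • b i = ∑ i : Fin d, (x i - m i) • b i := by
    rw [← Finset.sum_sub_distrib]
    apply Finset.sum_congr rfl
    intro i _
    rw [sub_smul]
  rw [h1] at hm
  have h2 : |((∑ i : Fin d, (x i - m i) • b i : Submodule.span ℝ (range v)) :
      EuclideanSpace ℝ (Fin (n+1))) j| ≤ (d:ℝ)^2 / (κ / √((n:ℝ)+1)) := by
    refine le_trans ?_ hm
    rw [Submodule.coe_norm, ← Real.norm_eq_abs]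
    exact PiLp.norm_apply_le _ j
  rw [hcoord, abs_div, abs_of_pos (hw j), div_le_iff₀ (hw j)] at h2
  have h3 : ∑ i ∈ Finset.range d, (x i - ((if h : i < d then m ⟨i, h⟩ else 0 : ℤ) : ℝ)) * z j ^ i
      = ∑ i : Fin d, (x i - m i) * z j ^ (i:ℕ) := by
    rw [Finset.sum_range]
    apply Finset.sum_congr rfl
    intro i _
    simp
  rw [h3]
  refine h2.trans ?_
  apply mul_le_mul_of_nonneg_right _ (hw j).le
  rw [div_div_eq_mul_div]
  have : (d:ℝ) ≤ 2 * a := by rw [hd]; exact_mod_cast Nat.sub_le _ _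
  have h0 : (0:ℝ) ≤ d := by positivity
  gcongr

lemma sm_growth (M : ℝ) (hM : 100 ≤ M) (C C' : ℝ) (hC : 0 < C) (κ : ℕ) :
    ∃ N₁ : ℕ, ∀ N ≥ N₁, ∀ n₀ a : ℕ, 0 < a → n₀ = κ * N → 2 * a ≤ n₀ + N / 2 + 2 →
      4 * (((2*a : ℝ))^2 * √(((n₀ + N : ℕ) : ℝ)+1) / ((2*a:ℝ)^(-C) * M^(-((2*a - n₀ : ℝ)+3)))) *
        Real.exp (C' * ((n₀ : ℝ)/N + 1) * Real.log (n₀+N+2)) ≤ (1/2) * (M/4)^N := by
  set E : ℝ := 3 + C + C' * (κ + 1) with hE
  obtain ⟨k, hk⟩ := exists_nat_ge E
  have hlim := tendsto_pow_const_div_const_pow_of_one_lt k (r := (5/2 : ℝ)) (by norm_num)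
  have hpos : (0:ℝ) < 1 / (8 * M^5 * (κ+3)^k) := by positivity
  have hev := hlim.eventually_lt_const hpos
  obtain ⟨N₁, hN₁⟩ := Filter.eventually_atTop.mp hev
  refine ⟨N₁ + 1, ?_⟩
  intro N hN n₀ a ha hn₀ hle
  have hN0 : 0 < N := by omega
  have hNr : (0:ℝ) < N := by exact_mod_cast hN0
  have hN1 : (1:ℝ) ≤ N := by exact_mod_cast hN0
  have hlt := hN₁ N (by omega)
  set L : ℝ := n₀ + N + 2 with hL
  have hn₀r : (n₀:ℝ) = κ * N := by rw [hn₀]; push_cast; ring
  have hL1 : 1 ≤ L := by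
    have : (0:ℝ) ≤ n₀ := by positivity
    rw [hL]; linarith
  have hLpos : 0 < L := by linarith
  have haL : (2 * a : ℝ) ≤ L := by
    have : 2 * a ≤ n₀ + N + 2 := by omega
    rw [hL]; exact_mod_cast this
  have ha2 : (0:ℝ) < 2 * a := by positivity
  have hsqrt : √(((n₀ + N : ℕ) : ℝ)+1) ≤ L := by
    rw [Real.sqrt_le_left (by linarith)]
    push_cast
    have h0 : (0:ℝ) ≤ n₀ := by positivity
    rw [hL]
    nlinarith
  have hMpos : 0 < M := by linarith
  have hexp : (2 * a - n₀ : ℝ) + 3 ≤ N/2 + 5 := by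
    have h1 : (2 * a : ℝ) ≤ n₀ + (N/2 : ℕ) + 2 := by exact_mod_cast hle
    have h2 : ((N/2 : ℕ) : ℝ) ≤ N/2 := Nat.cast_div_le
    linarith
  have hden : ((2*a:ℝ)^(-C) * M^(-((2*a - n₀ : ℝ)+3)))⁻¹ ≤ L^C * M^((N:ℝ)/2+5) := by
    rw [mul_inv, Real.rpow_neg ha2.le, inv_inv, Real.rpow_neg hMpos.le, inv_inv]
    apply mul_le_mul
    · exact Real.rpow_le_rpow ha2.le haL hC.le
    · exact Real.rpow_le_rpow_of_exponent_le (by linarith) hexp
    · positivity
    · positivity
  have hexpo : Real.exp (C' * ((n₀ : ℝ)/N + 1) * Real.log L) = L^(C' * (κ+1)) := by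
    rw [Real.rpow_def_of_pos hLpos, hn₀r, mul_div_assoc, div_self hNr.ne', mul_one]
    congr 1
    ring
  rw [hexpo, div_eq_mul_inv]
  have hLk : L^E ≤ (κ+3)^k * N^k := by
    calc L^E ≤ L^(k:ℝ) := Real.rpow_le_rpow_of_exponent_le hL1 hk
      _ = L^k := Real.rpow_natCast _ _
      _ ≤ ((κ+3) * N)^k := by
          apply pow_le_pow_left₀ hLpos.le
          rw [hL, hn₀r]
          nlinarith
      _ = _ := mul_pow _ _ _
  have hpowN : (5/2:ℝ)^N * M^((N:ℝ)/2) ≤ (M/4)^N := by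
    have h1 : M^((N:ℝ)/2) = (√M)^N := by
      rw [Real.sqrt_eq_rpow, ← Real.rpow_natCast, ← Real.rpow_mul hMpos.le]
      congr 1
      ring
    rw [h1, ← mul_pow]
    apply pow_le_pow_left₀ (by positivity)
    have h2 : √M * √M = M := Real.mul_self_sqrt hMpos.le
    have h3 : 10 ≤ √M := by
      rw [show (10:ℝ) = √100 by rw [show (100:ℝ) = 10^2 by norm_num]; rw [Real.sqrt_sq (by norm_num)]]
      exact Real.sqrt_le_sqrt hM
    nlinarith
  have hmain : 8 * M^5 * ((κ+3)^k * N^k) ≤ (5/2:ℝ)^N := by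
    have h52 : (0:ℝ) < (5/2)^N := by positivity
    rw [div_lt_div_iff₀ h52 (by positivity)] at hlt
    nlinarith
  have hM5 : M^((N:ℝ)/2+5) = M^((N:ℝ)/2) * M^5 := by
    rw [Real.rpow_add hMpos]
    congr 1
    exact_mod_cast Real.rpow_natCast M 5
  calc 4 * ((2*a:ℝ)^2 * √(((n₀ + N : ℕ) : ℝ)+1) * ((2*a:ℝ)^(-C) * M^(-((2*a - n₀ : ℝ)+3)))⁻¹) * L^(C'*(κ+1))
      ≤ 4 * (L^2 * L * (L^C * M^((N:ℝ)/2+5))) * L^(C'*(κ+1)) := by gcongr
    _ = 4 * M^((N:ℝ)/2+5) * L^E := by
        rw [hE, Real.rpow_add hLpos, Real.rpow_add hLpos]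
        have : L^(3:ℝ) = L^2 * L := by
          rw [show (3:ℝ) = ((3:ℕ):ℝ) by norm_num, Real.rpow_natCast]; ring
        rw [this]; ring
    _ ≤ 4 * M^((N:ℝ)/2+5) * ((κ+3)^k * N^k) := by gcongr
    _ = (1/2) * ((8 * M^5 * ((κ+3)^k * N^k)) * M^((N:ℝ)/2)) := by rw [hM5]; ring
    _ ≤ (1/2) * ((5/2)^N * M^((N:ℝ)/2)) := by gcongr
    _ ≤ (1/2) * (M/4)^N := by linarith

/-- the statement of `dual_norm` for given `M`, `μ` -/
def DualHyp (M : ℝ) (μ : Measure ℝ) : Prop :=
    ∃ C : ℝ, 0 < C ∧ ∀ (a n₀ : ℕ), 0 < a → n₀ ≤ 2 * a - 1 →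
      ∀ c : ℕ → ℤ, (∃ j < 2 * a - 1, c j ≠ 0) →
      ∃ P : ℝ[X], P.natDegree ≤ 2 * a - 2 ∧
        (∀ x ∈ Icc (0 : ℝ) M, |P.eval x| ≤ Real.exp (n₀ * ∫ y, Real.log |x - y| ∂μ)) ∧
        (2 * a : ℝ) ^ (-C) * M ^ (-((2 * a - n₀ : ℝ) + 3)) ≤ |phi a c P|

/-- the statement of `build_F` for given `M`, `μ` -/
def BuildHyp (M : ℝ) (μ : Measure ℝ) : Prop :=
    ∃ C : ℝ, 0 < C ∧ ∃ T : ℕ → ℝ[X], (∀ k, (T k).Monic ∧ (T k).natDegree = k ∧
      ∀ x ∈ Icc (0 : ℝ) M, |(T k).eval x| ≤ 2 * (M / 4) ^ k) ∧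
    ∀ (N n₀ : ℕ), 0 < N → 0 < n₀ →
      ∃ (y : Fin n₀ → ℝ) (z : Fin (n₀ + N + 1) → ℝ),
        (∀ i, y i ∈ Icc 0 M) ∧ (∀ j, z j ∈ Icc 0 M) ∧ StrictMono z ∧
        (∀ j : Fin (n₀ + N + 1), 0 < (-1) ^ (n₀ + N + (j : ℕ)) * (((T N).eval (z j)) * ∏ i, (z j - y i))) ∧
        (∀ j, (M / 4) ^ N ≤ |(T N).eval (z j)|) ∧
        (∀ j, Real.exp (n₀ * (∫ x, Real.log |z j - x| ∂μ) - C * ((n₀ : ℝ) / N + 1) * Real.log (n₀ + N + 2))
            ≤ ∏ i, |z j - y i|) ∧
        -(T N).coeff (N - 1) ≤ N * M ∧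
        ∑ i, y i ≤ n₀ * (∫ x, x ∂μ) + C * ((n₀ : ℝ) / N + 1)

lemma smith_trace_of (hcov : CoverHyp) (M : ℝ) (hM : 100 ≤ M) (μ : Measure ℝ)
    (hmean : 0 ≤ ∫ x, x ∂μ) (hdual : DualHyp M μ) (hbuild : BuildHyp M μ)
    (ε : ℝ) (hε : 0 < ε) (n₁ : ℕ) :
    ∃ P : ℤ[X], P.Monic ∧ Irreducible P ∧ n₁ ≤ P.natDegree ∧
      (∀ α ∈ P.aroots ℂ, α.im = 0 ∧ 0 ≤ α.re) ∧
      -(P.coeff (P.natDegree - 1) : ℝ) ≤ P.natDegree * ((∫ x, x ∂μ) + ε) := by
  obtain ⟨C₁, hC₁, hdual⟩ := hdual
  obtain ⟨C₂, hC₂, T, hT, hF⟩ := hbuild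
  have hTm : ∀ k, (T k).Monic := fun k => (hT k).1
  have hTd : ∀ k, (T k).natDegree = k := fun k => (hT k).2.1
  have hTb : ∀ k, ∀ x ∈ Icc (0:ℝ) M, |(T k).eval x| ≤ 2 * (M/4)^k := fun k => (hT k).2.2
  obtain ⟨κ₀, hκ₀⟩ := exists_nat_ge ((M+2)/ε)
  set κ : ℕ := κ₀ + 1 with hκ
  have hκε : M + 2 ≤ (κ + 1) * ε := by
    rw [div_le_iff₀ hε] at hκ₀
    have : (κ:ℝ) = κ₀ + 1 := by rw [hκ]; push_cast; ring
    rw [this]
    nlinarith
  obtain ⟨N₁, hN₁⟩ := sm_growth M hM C₁ C₂ hC₁ κ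
  obtain ⟨N₂, hN₂⟩ := exists_nat_ge (C₂ * (κ+1))
  set N : ℕ := N₁ + n₁ + N₂ + 4 with hN
  have hN0 : 0 < N := by omega
  set n₀ : ℕ := κ * N with hn₀
  have hn₀pos : 0 < n₀ := by rw [hn₀]; positivity
  have hF' := hF N n₀ hN0 hn₀pos
  set a : ℕ := (n₀ + N/2 + 2)/2 with ha
  have ha0 : 0 < a := by omega
  have ha1 : 2 * a ≤ n₀ + N/2 + 2 := by omega
  have ha2 : n₀ ≤ 2 * a - 1 := by omega
  have hgrow := hN₁ N (by omega) n₀ a ha0 hn₀ ha1
  obtain ⟨n, hn⟩ : ∃ n : ℕ, n = n₀ + N := ⟨_, rfl⟩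
  rw [← hn] at hF' hgrow
  obtain ⟨y, z, hy, hz, hzm, hsign, hTN, hprod, htr, hsum⟩ := hF'
  have ha3 : 2 * a - 1 ≤ n - 1 := by omega
  have hn0 : 0 < n := by omega
  set Y : ℝ[X] := ∏ i, (X - C (y i)) with hYdef
  have hY : Y.Monic := monic_prod_of_monic _ _ (fun i _ => monic_X_sub_C _)
  have hYd : Y.natDegree = n₀ := by
    rw [hYdef, natDegree_prod_of_monic _ _ (fun i _ => monic_X_sub_C _)]; simp
  set k : ℕ := n - (2*a - 1) with hk
  have hkN : k ≤ N := by omega
  have hk1 : 1 ≤ k := by omega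
  obtain ⟨c, hc, hc2⟩ := sm_top T hTm hTd Y n₀ N hY hYd (T N * Y) k hkN
  set S : ℝ[X] := ∑ i ∈ Finset.range k, C (c i) * (T (N - (i+1)) * Y) with hS
  set G : ℝ[X] := T N * Y - S with hG
  have hFm : (T N * Y).Monic := (hTm N).mul hY
  have hFd : (T N * Y).natDegree = n := by
    rw [(hTm N).natDegree_mul hY, hTd, hYd]; omega
  have hTYd : ∀ i, i < k → (T (N - (i+1)) * Y).natDegree = n - (i+1) := by
    intro i hi
    rw [(hTm _).natDegree_mul hY, hTd, hYd]; omega
  have hSd : S.natDegree ≤ n - 1 := by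
    apply natDegree_sum_le_of_forall_le
    intro i hi
    refine (natDegree_C_mul_le _ _).trans ?_
    rw [hTYd i (Finset.mem_range.mp hi)]
    omega
  have hGm : G.Monic := by
    apply hFm.sub_of_left
    apply degree_lt_degree
    rw [hFd]; omega
  have hGd : G.natDegree = n := by
    rw [hG, natDegree_sub_eq_left_of_natDegree_lt (by rw [hFd]; omega), hFd]
  have hm2 : ∀ j, 2 * a - 1 ≤ j → j < n → ∃ m : ℤ, G.coeff j = 4 * m := by
    intro j h1 h2
    obtain ⟨m, hm⟩ := hc2 (n - 1 - j) (Finset.mem_range.mpr (by omega))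
    refine ⟨m, ?_⟩
    rw [← hm]
    congr 1
    omega
  choose m2 hm2 using hm2
  set κ' : ℝ := (2 * a : ℝ) ^ (-C₁) * M ^ (-((2 * a - n₀ : ℝ) + 3)) with hκ'
  have hMpos : 0 < M := by linarith
  have hκ'pos : 0 < κ' := by
    have : (0:ℝ) < 2 * a := by positivity
    positivity
  set w : Fin (n+1) → ℝ := fun j => Real.exp (n₀ * ∫ y, Real.log |z j - y| ∂μ) with hw
  obtain ⟨m, hm⟩ := sm_lattice hcov a n ha0 (by omega) z hzm.injective w (fun j => Real.exp_pos _)
    κ' hκ'pos (by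
      intro c hc
      obtain ⟨P, hP1, hP2, hP3⟩ := hdual a n₀ ha0 ha2 c hc
      exact ⟨P, hP1, fun j => hP2 (z j) (hz j), hP3⟩)
    (fun i => (G.coeff i - (if i = 0 then 2 else 0))/4)
  set e : ℕ → ℤ := fun j => if h : 2 * a - 1 ≤ j ∧ j < n then 4 * m2 j h.1 h.2
    else 4 * m j + (if j = 0 then 2 else 0) with he
  set R : ℤ[X] := ∑ j ∈ Finset.range n, C (e j) * X ^ j with hR
  have hRdeg : R.degree < n := by
    rw [degree_lt_iff_coeff_zero]
    intro j hj
    rw [hR, finsetSum_coeff]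
    apply Finset.sum_eq_zero
    intro i hi
    rw [coeff_C_mul, coeff_X_pow, if_neg (by have := Finset.mem_range.mp hi; omega), mul_zero]
  have hRc : ∀ j < n, R.coeff j = e j := by
    intro j hj
    rw [hR, finsetSum_coeff, Finset.sum_eq_single j]
    · simp
    · intro i _ hi
      rw [coeff_C_mul, coeff_X_pow, if_neg (by omega), mul_zero]
    · intro h
      exact absurd (Finset.mem_range.mpr hj) h
  set P : ℤ[X] := X ^ n + R with hP
  have hPm : P.Monic := monic_X_pow_add hRdeg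
  have hPd : P.natDegree = n := by
    rw [hP, natDegree_add_eq_left_of_degree_lt (by rw [degree_X_pow]; exact hRdeg), natDegree_X_pow]
  have hPc : ∀ j < n, P.coeff j = e j := by
    intro j hj
    rw [hP, coeff_add, coeff_X_pow, if_neg (by omega), zero_add, hRc j hj]
  have hirr : Irreducible P := by
    apply sm_eis P n hn0 hPm hPd
    · intro j hj
      rw [hPc j hj, he]
      simp only
      split_ifs
      · exact ⟨2 * m2 j _ _, by ring⟩
      · exact ⟨2 * m j + 1, by ring⟩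
      · exact ⟨2 * m j, by ring⟩
    · rw [hPc 0 hn0, he]
      simp only
      rw [dif_neg (by omega)]
      simp only [if_true]
      omega
  -- evaluation
  have heval : ∀ x : ℝ, aeval x P = G.eval x - 4 * ∑ i ∈ Finset.range (2*a-1),
      ((G.coeff i - (if i = 0 then 2 else 0))/4 - m i) * x ^ i := by
    intro x
    have h1 : aeval x P = x ^ n + ∑ j ∈ Finset.range n, (e j : ℝ) * x ^ j := by
      rw [hP, hR]
      simp
    have h2 : G.eval x = x ^ n + ∑ j ∈ Finset.range n, G.coeff j * x ^ j := by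
      rw [Polynomial.eval_eq_sum_range, hGd, Finset.sum_range_succ]
      have : G.coeff n = 1 := by rw [← hGd]; exact hGm.coeff_natDegree
      rw [this]; ring
    have h3 : ∑ j ∈ Finset.range n, (G.coeff j - e j) * x ^ j =
        ∑ j ∈ Finset.range (2*a-1), (G.coeff j - e j) * x ^ j := by
      symm
      apply Finset.sum_subset
      · intro i hi
        have := Finset.mem_range.mp hi
        exact Finset.mem_range.mpr (by omega)
      · intro i hi hi2
        have h4 := Finset.mem_range.mp hi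
        have h5 : 2 * a - 1 ≤ i := by
          by_contra h
          exact hi2 (Finset.mem_range.mpr (by omega))
        rw [he]
        simp only
        rw [dif_pos ⟨h5, h4⟩, hm2 i h5 h4]
        push_cast
        ring
    have h6 : ∑ j ∈ Finset.range (2*a-1), (G.coeff j - e j) * x ^ j =
        4 * ∑ i ∈ Finset.range (2*a-1),
          ((G.coeff i - (if i = 0 then 2 else 0))/4 - m i) * x ^ i := by
      rw [Finset.mul_sum]
      apply Finset.sum_congr rfl
      intro i hi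
      have := Finset.mem_range.mp hi
      rw [he]
      simp only
      rw [dif_neg (by omega)]
      push_cast
      ring
    rw [← h6, ← h3, h1, h2]
    have h7 : ∑ j ∈ Finset.range n, (G.coeff j - e j) * x ^ j =
        ∑ j ∈ Finset.range n, G.coeff j * x ^ j - ∑ j ∈ Finset.range n, (e j : ℝ) * x ^ j := by
      rw [← Finset.sum_sub_distrib]
      apply Finset.sum_congr rfl
      intro j _
      ring
    rw [h7]; ring
  have hYe : ∀ x, Y.eval x = ∏ i, (x - y i) := by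
    intro x
    rw [hYdef, eval_prod]
    simp
  have hclose : ∀ j, |aeval (z j) P - (T N).eval (z j) * ∏ i, (z j - y i)| <
      |(T N).eval (z j) * ∏ i, (z j - y i)| := by
    intro j
    set W : ℝ := ∏ i, |z j - y i| with hW
    have hWpos : 0 < W := lt_of_lt_of_le (Real.exp_pos _) (hprod j)
    have hYabs : |∏ i, (z j - y i)| = W := by rw [hW, Finset.abs_prod]
    have h1 : aeval (z j) P - (T N).eval (z j) * ∏ i, (z j - y i) =
        -(S.eval (z j)) - 4 * ∑ i ∈ Finset.range (2*a-1),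
          ((G.coeff i - (if i = 0 then 2 else 0))/4 - m i) * z j ^ i := by
      rw [heval, hG, eval_sub, eval_mul, hYe]
      ring
    have h2 : |S.eval (z j)| ≤ (M/4)^N / 6 * W := by
      rw [hS, eval_finsetSum]
      calc |∑ i ∈ Finset.range k, eval (z j) (C (c i) * (T (N - (i+1)) * Y))|
          ≤ ∑ i ∈ Finset.range k, |eval (z j) (C (c i) * (T (N - (i+1)) * Y))| :=
            Finset.abs_sum_le_sum_abs _ _
        _ ≤ ∑ i ∈ Finset.range k, (4 * (M/4)^(N-(i+1))) * W := by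
            apply Finset.sum_le_sum
            intro i _
            rw [eval_mul, eval_C, eval_mul, hYe, abs_mul, abs_mul, hYabs, ← mul_assoc]
            apply mul_le_mul_of_nonneg_right _ hWpos.le
            have h3 := hTb (N-(i+1)) (z j) (hz j)
            have h4 := hc i
            have h5 : 0 ≤ |c i| := abs_nonneg _
            have h6 : 0 ≤ |(T (N-(i+1))).eval (z j)| := abs_nonneg _
            nlinarith
        _ = (∑ i ∈ Finset.range k, (4 * (M/4)^(N-(i+1)))) * W := by rw [Finset.sum_mul]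
        _ ≤ _ := mul_le_mul_of_nonneg_right (sm_geom M hM N k hkN) hWpos.le
    have h3 := hm j
    have h4 : w j ≤ W * Real.exp (C₂ * ((n₀ : ℝ) / N + 1) * Real.log (n₀ + N + 2)) := by
      have h5 := hprod j
      rw [Real.exp_sub, div_le_iff₀ (Real.exp_pos _)] at h5
      exact h5
    have h5 : 4 * |∑ i ∈ Finset.range (2*a-1),
          ((G.coeff i - (if i = 0 then 2 else 0))/4 - m i) * z j ^ i| ≤ (1/2) * (M/4)^N * W := by
      calc 4 * |∑ i ∈ Finset.range (2*a-1),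
          ((G.coeff i - (if i = 0 then 2 else 0))/4 - m i) * z j ^ i|
          ≤ 4 * ((2*a : ℝ)^2 * √((n:ℝ)+1) / κ' * w j) := by
            apply mul_le_mul_of_nonneg_left h3 (by norm_num)
        _ ≤ 4 * ((2*a : ℝ)^2 * √((n:ℝ)+1) / κ' *
              (W * Real.exp (C₂ * ((n₀ : ℝ) / N + 1) * Real.log (n₀ + N + 2)))) := by
            gcongr
        _ = (4 * ((2*a : ℝ)^2 * √((n:ℝ)+1) / κ') *
              Real.exp (C₂ * ((n₀ : ℝ) / N + 1) * Real.log (n₀ + N + 2))) * W := by ring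
        _ ≤ _ := mul_le_mul_of_nonneg_right hgrow hWpos.le
    have hpowpos : 0 < (M/4)^N := by positivity
    have h6 : (M/4)^N * W ≤ |(T N).eval (z j) * ∏ i, (z j - y i)| := by
      rw [abs_mul, hYabs]
      exact mul_le_mul_of_nonneg_right (hTN j) hWpos.le
    rw [h1]
    calc _ ≤ |S.eval (z j)| + 4 * |∑ i ∈ Finset.range (2*a-1),
          ((G.coeff i - (if i = 0 then 2 else 0))/4 - m i) * z j ^ i| := by
            refine (abs_sub _ _).trans ?_
            rw [abs_neg, abs_mul, abs_of_pos (by norm_num : (0:ℝ) < 4)]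
      _ ≤ (M/4)^N / 6 * W + (1/2) * (M/4)^N * W := add_le_add h2 h5
      _ < (M/4)^N * W := by
            have : 0 < (M/4)^N * W := mul_pos hpowpos hWpos
            nlinarith
      _ ≤ _ := h6
  refine ⟨P, hPm, hirr, ?_, ?_, ?_⟩
  · rw [hPd]
    have : N ≤ n := by omega
    omega
  · apply sm_roots n P hPm hPd z hzm (fun j => (hz j).1)
    intro j
    have h1 := hsign j
    have h2 := hclose j
    rcases neg_one_pow_eq_or ℝ (n + (j:ℕ)) with h | h
    · rw [h] at h1 ⊢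
      rw [one_mul] at h1 ⊢
      rw [abs_of_pos h1, abs_lt] at h2
      linarith [h2.1]
    · rw [h] at h1 ⊢
      have h3 : (T N).eval (z j) * ∏ i, (z j - y i) < 0 := by linarith
      rw [abs_of_neg h3, abs_lt] at h2
      linarith [h2.2]
  · rw [hPd]
    have h1 : (P.coeff (n-1) : ℝ) = G.coeff (n-1) := by
      rw [hPc _ (by omega), he]
      simp only
      rw [dif_pos ⟨by omega, by omega⟩, hm2 (n-1) (by omega) (by omega)]
      push_cast
      ring
    have h2 : G.coeff (n-1) = (T N * Y).coeff (n-1) - c 0 := by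
      rw [hG, coeff_sub]
      congr 1
      rw [hS, finsetSum_coeff, Finset.sum_eq_single 0]
      · rw [coeff_C_mul]
        have h3 : (T (N - (0+1)) * Y).coeff (n-1) = 1 := by
          have h4 := hTYd 0 (by omega)
          simp only [zero_add] at h4 ⊢
          rw [← h4]
          exact ((hTm _).mul hY).coeff_natDegree
        rw [h3, mul_one]
      · intro i hi hi0
        rw [coeff_C_mul, coeff_eq_zero_of_natDegree_lt, mul_zero]
        rw [hTYd i (Finset.mem_range.mp hi)]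
        have := Finset.mem_range.mp hi
        omega
      · intro h
        exact absurd (Finset.mem_range.mpr (by omega)) h
    have h3 : (T N * Y).coeff (n-1) = (T N).coeff (N-1) - ∑ i, y i := by
      have h4 : (T N * Y).nextCoeff = (T N).nextCoeff + Y.nextCoeff := (hTm N).nextCoeff_mul hY
      rw [nextCoeff_of_natDegree_pos (by rw [hFd]; exact hn0), hFd,
        nextCoeff_of_natDegree_pos (by rw [hTd]; exact hN0), hTd, hYdef,
        prod_X_sub_C_nextCoeff] at h4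
      rw [h4]; ring
    rw [h1, h2, h3]
    have h4 := (abs_le.mp (hc 0)).2
    have hNr : (0:ℝ) < N := by exact_mod_cast hN0
    have hn₀r : (n₀:ℝ) = κ * N := by rw [hn₀]; push_cast; ring
    have hnr : (n:ℝ) = κ * N + N := by rw [hn]; push_cast; rw [hn₀r]
    have h5 : (n₀:ℝ)/N = κ := by rw [hn₀r, mul_div_assoc, div_self hNr.ne', mul_one]
    rw [h5] at hsum
    have h6 : (N:ℝ) = N₁ + n₁ + N₂ + 4 := by rw [hN]; push_cast; ring
    have h7 : C₂ * (κ+1) + 2 ≤ 2 * N := by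
      have : (0:ℝ) ≤ N₁ := by positivity
      have : (0:ℝ) ≤ n₁ := by positivity
      have : (0:ℝ) ≤ N₂ := by positivity
      linarith
    have h8 : N * (M+2) ≤ N * ((κ+1) * ε) := mul_le_mul_of_nonneg_left hκε hNr.le
    rw [hnr]
    rw [hn₀r] at hsum
    have h9 : 0 ≤ N * ∫ x, x ∂μ := mul_nonneg hNr.le hmean
    have h10 : ((κ:ℝ) * N + N) * ((∫ x, x ∂μ) + ε) =
        κ * N * (∫ x, x ∂μ) + N * (∫ x, x ∂μ) + N * ((κ+1) * ε) := by ring
    rw [h10]
    linarith

lemma sm_mean_nonneg (M Cf : ℝ) (μ : Measure ℝ) (hμ : Reg M Cf μ) : 0 ≤ ∫ x, x ∂μ := by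
  apply integral_nonneg_of_ae
  have h : ∀ᵐ x ∂μ, x ∈ Icc 0 M := by
    rw [ae_iff]
    exact hμ.2.1
  filter_upwards [h] with x hx
  exact hx.1

end Pool.Agent.TraceMin
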