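import Pool.Agent.TraceMin.Points
import Pool.Agent.TraceMin.RegTools

/-!
Points in the quantile cells with a large Vandermonde determinant.
-/

open MeasureTheory Polynomial Set

namespace Pool.Agent.TraceMin

theorem Quant.sum_setIntegral {M Cf : ℝ} {μ : Measure ℝ} (hμ : Reg M Cf μ) {K : ℕ} (hK : 0 < K)
    {q : ℕ → ℝ} (hq : Quant M μ K q) (g : ℝ → ℝ) (hg : Integrable g μ) :
    ∑ i : Fin K, ∫ x in Ico (q i) (q (i + 1)), g x ∂μ = ∫ x, g x ∂μ := by
  have hprob := hμ.1
  have hKpos : (0:ℝ) < K := by exact_mod_cast hK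
  have hU : ∀ n ≤ K, ∑ i ∈ Finset.range n, ∫ x in Ico (q i) (q (i + 1)),
      g x ∂μ = ∫ x in Ico (q 0) (q n), g x ∂μ := by
    intro n
    induction n with
    | zero => intro _; simp
    | succ n ih =>
      intro hn
      rw [Finset.sum_range_succ, ih (by omega)]
      have h1 : Ico (q 0) (q (n+1)) = Ico (q 0) (q n) ∪ Ico (q n) (q (n+1)) := by
        rw [Ico_union_Ico_eq_Ico (hq.le hK (Nat.zero_le _) (by omega))
          (hq.le hK (Nat.le_succ _) hn)]
      rw [h1, setIntegral_union _ measurableSet_Ico hg.integrableOn hg.integrableOn]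
      rw [Set.disjoint_left]
      intro z hz hz'
      exact absurd hz'.1 (not_le.2 hz.2)
  rw [Finset.sum_range (f := fun i => ∫ x in Ico (q i) (q (i + 1)), g x ∂μ) |>.symm, hU K le_rfl]
  have h2 : μ (Ico (q 0) (q K))ᶜ = 0 := by
    rw [prob_compl_eq_zero_iff measurableSet_Ico, hq.cell hμ hK (Nat.zero_le K) le_rfl]
    simp [hKpos.ne']
  rw [← setIntegral_univ (μ := μ)]
  refine (setIntegral_congr_set ?_)
  rw [ae_eq_univ]
  exact h2

theorem pair_map {m : ℕ} (ν : Fin m → Measure ℝ) [∀ i, IsProbabilityMeasure (ν i)] {i j : Fin m}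
    (hij : i ≠ j) : (Measure.pi ν).map (fun y : Fin m → ℝ => (y i, y j)) = (ν i).prod (ν j) := by
  have h := (ProbabilityTheory.iIndepFun_pi (μ := ν) (X := fun _ => (id : ℝ → ℝ))
    (fun _ => aemeasurable_id)).indepFun hij
  simp only [id_eq] at h
  rw [ProbabilityTheory.indepFun_iff_map_prod_eq_prod_map_map
    (measurable_pi_apply (X := fun _ : Fin m => ℝ) i).aemeasurable
    (measurable_pi_apply (X := fun _ : Fin m => ℝ) j).aemeasurable] at h
  rw [h]
  have h1 : ∀ i, (Measure.pi ν).map (fun y : Fin m → ℝ => y i) = ν i := fun i =>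
    (measurePreserving_eval ν i).map_eq
  rw [h1 i, h1 j]

theorem vand_points (M Cf : ℝ) (hM : 1 ≤ M) (μ : Measure ℝ) (hμ : Reg M Cf μ)
    (hI : 0 ≤ ∫ x, ∫ y, Real.log |x - y| ∂μ ∂μ) (n : ℕ) :
    ∃ y : Fin (n + 1) → ℝ, (∀ i, y i ∈ Icc 0 M) ∧ Disc μ (n + 1) y 1 ∧ (∀ i j, i ≠ j → y i ≠ y j) ∧
      (M⁻¹) ^ (n + 1) ≤ ∏ i, ∏ k : Fin n, |y i - y (i.succAbove k)| := by
  have hprob := hμ.1
  have hM0 : 0 ≤ M := by linarith
  obtain ⟨q, hq0⟩ := hμ.quantiles hM (n + 1)
  have hK : 0 < n + 1 := Nat.succ_pos n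
  have hq : Quant M μ (n + 1) q := ⟨fun i hi => (hq0 i hi hK).1, fun i hi => (hq0 i hi hK).2⟩
  set m : ℕ := n + 1 with hm
  have hmpos : (0:ℝ) < m := by exact_mod_cast hK
  set S : Fin m → Set ℝ := fun i => Ico (q i) (q (i + 1)) with hS
  have hSmeas : ∀ i, MeasurableSet (S i) := fun i => measurableSet_Ico
  have hcell : ∀ i : Fin m, μ (S i) = ENNReal.ofReal (1 / m) := by
    intro i
    simp only [hS]
    rw [hq.cell hμ hK (Nat.le_succ i) i.2]
    push_cast
    congr 2
    ring
  have hcellr : ∀ i : Fin m, μ.real (S i) = 1 / m := by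
    intro i
    rw [measureReal_def, hcell i, ENNReal.toReal_ofReal (by positivity)]
  set ν : Fin m → Measure ℝ := fun i => (m : ENNReal) • μ.restrict (S i) with hν
  have hνprob : ∀ i, IsProbabilityMeasure (ν i) := by
    intro i
    refine ⟨?_⟩
    simp only [hν, Measure.smul_apply, Measure.restrict_apply_univ, hcell i, smul_eq_mul]
    rw [show (m : ENNReal) = ENNReal.ofReal m by simp, ← ENNReal.ofReal_mul (by positivity)]
    rw [mul_one_div_cancel hmpos.ne']
    simp
  -- integrability
  have hint : Integrable (fun p : ℝ × ℝ => Real.log |p.1 - p.2|) (μ.prod μ) :=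
    hμ.integrable_log_prod hM0
  have hintS : ∀ i j, Integrable (fun p : ℝ × ℝ => Real.log |p.1 - p.2|)
      ((μ.restrict (S i)).prod (μ.restrict (S j))) := by
    intro i j
    rw [Measure.prod_restrict]
    exact hint.mono_measure Measure.restrict_le_self
  have hintν : ∀ i j, Integrable (fun p : ℝ × ℝ => Real.log |p.1 - p.2|) ((ν i).prod (ν j)) := by
    intro i j
    simp only [hν]
    rw [Measure.prod_smul_left, Measure.prod_smul_right]
    exact ((hintS i j).smul_measure (by simp)).smul_measure (by simp)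
  set J : Fin m → Fin m → ℝ := fun i j => ∫ x in S i, ∫ y in S j, Real.log |x - y| ∂μ ∂μ with hJ
  have hJν : ∀ i j, ∫ p, Real.log |p.1 - p.2| ∂((ν i).prod (ν j)) = m * (m * J i j) := by
    intro i j
    simp only [hν]
    rw [Measure.prod_smul_left, Measure.prod_smul_right, integral_smul_measure,
      integral_smul_measure, integral_prod _ (hintS i j)]
    simp [hJ]
  have hsumJ : ∑ i, ∑ j, J i j = ∫ x, ∫ y, Real.log |x - y| ∂μ ∂μ := by
    rw [← Quant.sum_setIntegral hμ hK hq _ hint.integral_prod_left]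
    refine Finset.sum_congr rfl fun i _ => ?_
    simp only [hJ]
    rw [← integral_finsetSum _ (fun j _ => ?_)]
    · refine integral_congr_ae ?_
      filter_upwards [ae_restrict_of_ae hμ.ae_mem_Icc] with x hx
      rw [← Quant.sum_setIntegral hμ hK hq _ (hμ.integrable_log hM0 hx)]
    · exact (hintS i j).integral_prod_left
  have hJdiag : ∀ i, J i i ≤ (1 / m) * ((1 / m) * Real.log M) := by
    intro i
    have hlogM : ∀ x ∈ Icc (0:ℝ) M, ∀ y ∈ Icc (0:ℝ) M, Real.log |x - y| ≤ Real.log M := by
      intro x hx y hy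
      rcases eq_or_ne x y with rfl | hne
      · simp [Real.log_nonneg hM]
      · refine Real.log_le_log (abs_pos.2 (sub_ne_zero.2 hne)) ?_
        rw [abs_le]; constructor <;> linarith [hx.1, hx.2, hy.1, hy.2]
    have h1 : J i i ≤ ∫ x in S i, (1 / m) * Real.log M ∂μ := by
      refine integral_mono_ae (hintS i i).integral_prod_left (integrable_const _) ?_
      filter_upwards [ae_restrict_of_ae hμ.ae_mem_Icc] with x hx
      have h2 : ∫ y in S i, Real.log |x - y| ∂μ ≤ ∫ y in S i, Real.log M ∂μ := by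
        refine integral_mono_ae (hμ.integrable_log hM0 hx).integrableOn (integrable_const _) ?_
        filter_upwards [ae_restrict_of_ae hμ.ae_mem_Icc] with y hy
        exact hlogM x hx y hy
      refine h2.trans (le_of_eq ?_)
      rw [setIntegral_const, hcellr i, smul_eq_mul]
    refine h1.trans (le_of_eq ?_)
    rw [setIntegral_const, hcellr i, smul_eq_mul]
  have hsum1 : -(Real.log M / m) ≤ ∑ i : Fin m, ∑ k : Fin n, J i (i.succAbove k) := by
    have h1 : ∑ i : Fin m, ∑ k : Fin n, J i (i.succAbove k) = ∑ i, ∑ j, J i j - ∑ i, J i i := by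
      rw [← Finset.sum_sub_distrib]
      refine Finset.sum_congr rfl fun i _ => ?_
      rw [Fin.sum_univ_succAbove (fun j => J i j) i]
      ring
    have h2 : ∑ i, J i i ≤ ∑ i : Fin m, (1 / m) * ((1 / m) * Real.log M) :=
      Finset.sum_le_sum fun i _ => hJdiag i
    rw [Finset.sum_const, Finset.card_univ, Fintype.card_fin, nsmul_eq_mul] at h2
    have h3 : (m:ℝ) * ((1 / m) * ((1 / m) * Real.log M)) = Real.log M / m := by
      field_simp
    rw [h1, hsumJ]
    linarith
  -- the averaging argument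
  set π := Measure.pi ν with hπ
  have hpair : ∀ i j, i ≠ j → MeasurePreserving (fun y : Fin m → ℝ => (y i, y j)) π
      ((ν i).prod (ν j)) := by
    intro i j hij
    exact ⟨by fun_prop, pair_map ν hij⟩
  have hintπ : ∀ i j, i ≠ j → Integrable (fun y : Fin m → ℝ => Real.log |y i - y j|) π := by
    intro i j hij
    exact (hpair i j hij).integrable_comp_of_integrable (hintν i j)
  have hIπ : ∀ i j, i ≠ j → ∫ y, Real.log |y i - y j| ∂π = m * (m * J i j) := by
    intro i j hij
    rw [← hJν i j, ← (hpair i j hij).map_eq, integral_map (by fun_prop)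
      measurable_log_sub_prod.aestronglyMeasurable]
  have hN : π {y | ∀ i, y i ∈ S i}ᶜ = 0 := by
    have h1 : {y : Fin m → ℝ | ∀ i, y i ∈ S i}ᶜ = ⋃ i, (fun y : Fin m → ℝ => y i) ⁻¹' (S i)ᶜ := by
      ext y
      simp
    rw [h1, measure_iUnion_null_iff]
    intro i
    have h2 := (measurePreserving_eval ν i).measure_preimage (hSmeas i).compl.nullMeasurableSet
    change π (Function.eval i ⁻¹' (S i)ᶜ) = 0
    rw [h2]
    simp only [hν, Measure.smul_apply]
    rw [Measure.restrict_apply (hSmeas i).compl, compl_inter_self, measure_empty, smul_zero]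
  have hintsum : Integrable (fun y : Fin m → ℝ => ∑ i : Fin m, ∑ k : Fin n,
      Real.log |y i - y (i.succAbove k)|) π := by
    refine integrable_finsetSum _ fun i _ => integrable_finsetSum _ fun k _ => ?_
    exact hintπ i _ (Fin.succAbove_ne i k).symm
  obtain ⟨y, hy1, hy2⟩ := exists_notMem_null_integral_le hintsum hN
  simp only [mem_compl_iff, not_not, mem_ofPred_eq] at hy1
  have hdist : ∀ i j : Fin m, i ≠ j → y i ≠ y j := by
    have main : ∀ i j : Fin m, i < j → y i < y j := by
      intro i j hij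
      have h1 := (hy1 i).2
      have h2 := (hy1 j).1
      have h3 : q (i + 1) ≤ q j := hq.le hK hij j.2.le
      linarith
    intro i j hij
    rcases lt_or_gt_of_ne hij with h | h
    · exact (main i j h).ne
    · exact (main j i h).ne'
  refine ⟨y, ?_, ?_, hdist, ?_⟩
  · intro i
    exact ⟨(hq.mem i i.2.le).1.trans (hy1 i).1, (hy1 i).2.le.trans (hq.mem (i+1) i.2).2⟩
  · exact Quant.disc hμ (fun _ => hq) y hy1
  · have h1 : ∫ y, ∑ i : Fin m, ∑ k : Fin n, Real.log |y i - y (i.succAbove k)| ∂π
        = m * (m * ∑ i : Fin m, ∑ k : Fin n, J i (i.succAbove k)) := by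
      rw [integral_finsetSum _ (fun i _ => integrable_finsetSum _ fun k _ =>
        hintπ i _ (Fin.succAbove_ne i k).symm)]
      rw [Finset.mul_sum, Finset.mul_sum]
      refine Finset.sum_congr rfl fun i _ => ?_
      rw [integral_finsetSum _ (fun k _ => hintπ i _ (Fin.succAbove_ne i k).symm)]
      rw [Finset.mul_sum, Finset.mul_sum]
      refine Finset.sum_congr rfl fun k _ => ?_
      exact hIπ i _ (Fin.succAbove_ne i k).symm
    rw [h1] at hy2
    have h2 : -(m * Real.log M) ≤ ∑ i : Fin m, ∑ k : Fin n, Real.log |y i - y (i.succAbove k)| := by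
      refine le_trans ?_ hy2
      have h3 : m * (m * (-(Real.log M / m))) ≤
          m * (m * ∑ i : Fin m, ∑ k : Fin n, J i (i.succAbove k)) := by gcongr
      refine le_trans (le_of_eq ?_) h3
      field_simp
    have hne : ∀ i : Fin m, ∀ k : Fin n, |y i - y (i.succAbove k)| ≠ 0 := by
      intro i k
      exact abs_ne_zero.2 (sub_ne_zero.2 (hdist i _ (Fin.succAbove_ne i k).symm))
    have h4 : ∑ i : Fin m, ∑ k : Fin n, Real.log |y i - y (i.succAbove k)|
        = Real.log (∏ i : Fin m, ∏ k : Fin n, |y i - y (i.succAbove k)|) := by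
      rw [Real.log_prod fun i _ => Finset.prod_ne_zero_iff.2 fun k _ => hne i k]
      refine Finset.sum_congr rfl fun i _ => ?_
      rw [Real.log_prod fun k _ => hne i k]
    rw [h4] at h2
    have hMpos : 0 < M := by linarith
    have hpos : 0 < ∏ i : Fin m, ∏ k : Fin n, |y i - y (i.succAbove k)| :=
      Finset.prod_pos fun i _ => Finset.prod_pos fun k _ =>
        lt_of_le_of_ne (abs_nonneg _) (Ne.symm (hne i k))
    rw [← Real.log_le_log_iff (by positivity) hpos, Real.log_pow, Real.log_inv]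
    linarith

end Pool.Agent.TraceMin
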